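import Pool.Agent.P.MP_08fd93_co.OV.St1

/-! Package PCol of project OV. -/

set_option autoImplicit false

namespace Pool.Agent.P.MP_08fd93_co.OV

namespace PkPColP

variable {W : Type} {H : SimpleGraph W} {R : Set W} {ρ : W → ℤ} {r0 r1 : W}

theorem uniq (h : Pth H R ρ r0 r1) {x y y' : W} (hx : x ∈ R) (hy : y ∈ R) (hy' : y' ∈ R)
    (a : H.Adj x y) (a' : H.Adj x y') (l : ρ y < ρ x ∨ x = r0) (l' : ρ y' < ρ x ∨ x = r0) :
    y = y' := by
  by_cases h0 : x = r0
  · subst h0
    have k : ∀ z ∈ R, H.Adj x z → ρ x < ρ z := by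
      intro z hz az
      rcases (h.lo z hz).lt_or_eq with q | q
      · exact q
      · exact absurd (h.inj _ hx _ hz q) az.ne
    have e1 := (h.adj x hx y hy (k y hy a)).1 a y' hy'
    have e2 := (h.adj x hx y' hy' (k y' hy' a')).1 a' y hy
    have := k y hy a
    have := k y' hy' a'
    exact h.inj _ hy _ hy' (by omega)
  · have l1 : ρ y < ρ x := l.resolve_right h0
    have l2 : ρ y' < ρ x := l'.resolve_right h0
    have e1 := (h.adj y hy x hx l1).1 a.symm y' hy'
    have e2 := (h.adj y' hy' x hx l2).1 a'.symm y hy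
    exact h.inj _ hy _ hy' (by omega)

theorem cnt (h : Pth H R ρ r0 r1) {u v : W} (hu : u ∈ R) (hv : v ∈ R) (a : H.Adj u v)
    (l : ρ u < ρ v) :
    {y | y ∈ R ∧ ρ u < ρ y}.ncard = {y | y ∈ R ∧ ρ v < ρ y}.ncard + 1 := by
  have e : {y | y ∈ R ∧ ρ u < ρ y} = insert v {y | y ∈ R ∧ ρ v < ρ y} := by
    ext y
    simp only [Set.mem_ofPred_eq, Set.mem_insert_iff]
    constructor
    · rintro ⟨hy, ly⟩
      have := (h.adj u hu v hv l).1 a y hy
      rcases (show ρ v ≤ ρ y by omega).lt_or_eq with q | q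
      · exact Or.inr ⟨hy, q⟩
      · exact Or.inl (h.inj _ hv _ hy q).symm
    · rintro (rfl | ⟨hy, ly⟩)
      · exact ⟨hv, l⟩
      · exact ⟨hy, by omega⟩
  rw [e, Set.ncard_insert_of_notMem (by simp) (h.fin.subset fun y hy => hy.1)]

end PkPColP

open PkPColP in
theorem pk_PCol : S_PCol := by
  classical
  intro W H R ρ r0 r1 c h hne hc
  let n : W → ℕ := fun x => {y | y ∈ R ∧ ρ x < ρ y}.ncard
  let c' : W → Col := fun x =>
    if x ∈ R ∧ x ≠ r0 then ((c r0).1, xor (c r1).2 (decide (Odd (n x)))) else c x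
  let o : W → W := fun x =>
    if k : ∃ y, y ∈ R ∧ H.Adj x y ∧ (ρ y < ρ x ∨ x = r0) then k.choose else x
  have ho : ∀ x ∈ R, ∀ y ∈ R, H.Adj x y → (ρ y < ρ x ∨ x = r0) → o x = y := by
    intro x hx y hy a l
    have k : ∃ y, y ∈ R ∧ H.Adj x y ∧ (ρ y < ρ x ∨ x = r0) := ⟨y, hy, a, l⟩
    have s := k.choose_spec
    simp only [o, dif_pos k]
    exact uniq h hx s.1 hy s.2.1 a s.2.2 l
  have lt : ∀ x ∈ R, ∀ y ∈ R, H.Adj x y → ρ x < ρ y ∨ ρ y < ρ x := by
    intro x hx y hy a
    rcases lt_trichotomy (ρ x) (ρ y) with q | q | q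
    · exact Or.inl q
    · exact absurd (h.inj _ hx _ hy q) a.ne
    · exact Or.inr q
  have alt : ∀ x ∈ R, ∀ y ∈ R, H.Adj x y → ρ x < ρ y → x ≠ r0 → c' y ≠ c' x := by
    intro x hx y hy a l h0 e
    have y0 : y ≠ r0 := by
      rintro rfl
      have := h.lo x hx
      omega
    have k : n x = n y + 1 := cnt h hx hy a l
    simp only [c', if_pos (show x ∈ R ∧ x ≠ r0 from ⟨hx, h0⟩),
      if_pos (show y ∈ R ∧ y ≠ r0 from ⟨hy, y0⟩), Prod.mk.injEq, true_and, k,
      Nat.odd_add_one] at e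
    by_cases q : Odd (n y) <;> cases hh : (c r1).2 <;> simp [q, hh] at e
  refine ⟨c', o, ?_, ?_, ?_, ?_⟩
  · intro x hx
    by_cases k : x ∈ R ∧ x ≠ r0
    · have e : x = r1 := by
        by_contra q
        exact hx ⟨k.1, by simp [k.2, q]⟩
      subst e
      have z : n x = 0 := by
        have : {y | y ∈ R ∧ ρ x < ρ y} = ∅ := by
          ext y
          simp only [Set.mem_ofPred_eq, Set.mem_empty_iff_false, iff_false, not_and, not_lt]
          exact fun hy => h.hi y hy
        simp [n, this]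
      simp only [c', if_pos k, z]
      ext
      · exact hc
      · simp
    · simp only [c', if_neg k]
  · intro x hx
    by_cases k : x ∈ R ∧ x ≠ r0
    · simp only [c', if_pos k]
    · have e : x = r0 := by
        by_contra q
        exact k ⟨hx, q⟩
      simp only [c', if_neg k]
      rw [e]
  · rintro u v ⟨a, ha, b, hb, ab, e⟩
    have key : o a = b ∨ o b = a := by
      rcases lt a ha b hb ab with q | q
      · exact Or.inr (ho b hb a ha ab.symm (Or.inl q))
      · exact Or.inl (ho a ha b hb ab (Or.inl q))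
    rcases Sym2.eq_iff.1 e with ⟨rfl, rfl⟩ | ⟨rfl, rfl⟩
    · exact Or.inr key
    · exact Or.inr key.symm
  · intro x hx y hy a e
    rcases lt x hx y hy a with q | q
    · by_cases h0 : x = r0
      · exact ho x hx y hy a (Or.inr h0)
      · exact absurd e (alt x hx y hy a q h0)
    · exact ho x hx y hy a (Or.inl q)

end Pool.Agent.P.MP_08fd93_co.OV
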