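import Pool.Agent.P.MP_08fd93_co.OV.Base

/-! Package Q4 of project OV: the four-cycle lemma. -/

set_option autoImplicit false

namespace Pool.Agent.P.MP_08fd93_co.OV

namespace PkQ4P

variable {W : Type} {H : SimpleGraph W}

/-- Both paths are monochromatic edges of different colours: strict extension. -/
theorem mono2 (hT : TA H) {d : DD W} (hd : Disc H d) (hX : d.X = {d.a, d.b})
    (hY : d.Y = {d.a', d.b'}) (c : W → Col) (h1 : c d.a = c d.b) (h2 : c d.a' = c d.b')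
    (h3 : c d.a ≠ c d.a') : ∃ c', Rec H d.I ∅ c c' := by
  obtain ⟨o, ho⟩ := hT d ∅ hd Adm.empty
  obtain ⟨e1, e2, -, e4⟩ := ho.shp.nohide hd
    (by
      rw [hX]
      rintro v (rfl | rfl)
      exacts [ho.shp.xz ho.shp.px.ha, ho.shp.xz ho.shp.px.hb])
    (by
      rw [hY]
      rintro v (rfl | rfl)
      exacts [ho.shp.yz ho.shp.py.ha, ho.shp.yz ho.shp.py.hb])
  obtain ⟨π, p1, -, p3⟩ := repair (c d.a) (c d.a) (c d.a') h3 h3
  have cx : ∀ x ∈ d.X, c x = c d.a := by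
    rw [hX]
    rintro x (rfl | rfl)
    exacts [rfl, h1.symm]
  have cy : ∀ x ∈ d.Y, c x = c d.a' := by
    rw [hY]
    rintro x (rfl | rfl)
    exacts [rfl, h2.symm]
  obtain ⟨c', hc⟩ := ho.ext (fun x => π (c x)) id
    (fun x hx => by rw [cx x (e1 ▸ hx)]; exact p1) (fun x hx => by rw [cy x (e2 ▸ hx)]; exact p3)
    (fun u v huv => Or.inl (by
      beta_reduce
      rcases huv.1 with h | h
      · rw [cx u (mem_PE.1 h).1.1, cx v (mem_PE.1 h).2.1.1]
      · rw [cy u (mem_PE.1 h).1.1, cy v (mem_PE.1 h).2.1.1]))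
  rw [e4] at hc
  exact ⟨_, (hc.perm π).mono fun x _ hx => hx.2 rfl⟩

/-- The link of `a` gives a star. -/
theorem star (hP : Pl H Set.univ) {d : DD W} (hd : Disc H d) (hX : d.X = {d.a, d.b})
    (hY : d.Y = {d.a', d.b'}) (hab : d.a ≠ d.b) (hab' : d.a' ≠ d.b') (hn : ¬ H.Adj d.a d.b') :
    ∃ (d2 : DD W) (Ia : Set W), StarH H d2 d.a d.b' Ia ∧ d2.a' = d.b ∧ d2.b' = d.a' ∧
      (Ia ∪ d2.I ∪ d2.Y) \ {d.b, d.a'} = d.I := by
  have ha := hd.px.ha
  have hb := hd.px.hb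
  have ha' := hd.py.ha
  have hb' := hd.py.hb
  have mX : ∀ x ∈ d.X, x = d.a ∨ x = d.b := fun x hx => by rw [hX] at hx; exact hx
  have mY : ∀ x ∈ d.Y, x = d.a' ∨ x = d.b' := fun x hx => by rw [hY] at hx; exact hx
  have lab : d.ρ d.a < d.ρ d.b := hd.px.lt_hi ha hab
  have lab' : d.ρ d.a' < d.ρ d.b' := hd.py.lt_hi ha' hab'
  have eab : H.Adj d.a d.b := (hd.px.adj _ ha _ hb lab).2 fun x hx => by
    rcases mX x hx with rfl | rfl
    exacts [Or.inl le_rfl, Or.inr le_rfl]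
  have eab' : H.Adj d.a' d.b' := (hd.py.adj _ ha' _ hb' lab').2 fun x hx => by
    rcases mY x hx with rfl | rfl
    exacts [Or.inl le_rfl, Or.inr le_rfl]
  have n1 : d.a ≠ d.a' := hd.ra.ne
  have n2 : d.a ≠ d.b' := fun h => hd.xy ha (h ▸ hb')
  have n3 : d.b ≠ d.a' := fun h => hd.xy hb (h ▸ ha')
  have out : ∀ x, x ∉ d.Z → x ≠ d.a → x ∉ d.Z ∪ {d.a} := fun x h1 h2 h => h.elim h1 h2
  have c0 : Conn H (d.Z ∪ {d.a})ᶜ d.b d.a' :=
    (Conn.step (out _ (hd.xz hb) hab.symm) (out _ (hd.yz hb') n2.symm) hd.rb).snoc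
      (out _ (hd.yz hb') n2.symm) (out _ (hd.yz ha') n1.symm) eab'.symm
  have c1 := tim hP (A := d.Z) (B := {d.a}) (Set.disjoint_singleton_right.2 (hd.xz ha)) hd.zc
    (isConn_single _) (Set.finite_singleton _) ⟨_, rfl, eab.symm⟩ ⟨_, rfl, hd.ra.symm⟩
    (out _ (hd.xz hb) hab.symm) c0
  obtain ⟨R, σ, v, hR, sR, rfl, -⟩ := exists_pth (B := {d.a'}) c1
    ⟨⟨_, rfl, eab.symm⟩, out _ (hd.xz hb) hab.symm⟩ rfl
  have ra : ∀ r ∈ R, H.Adj d.a r := fun r hr => by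
    obtain ⟨_, rfl, e⟩ := (sR hr).1
    exact e.symm
  have rz : ∀ r ∈ R, r ∉ d.Z := fun r hr h => (sR hr).2 (Or.inl h)
  have rb' : d.b' ∉ R := fun h => hn (ra _ h)
  have raa : d.a ∉ R := fun h => (ra _ h).ne rfl
  have ri : ∀ r ∈ R, r ≠ d.b → r ≠ d.a' → r ∈ d.I := by
    intro r hr h1 h2
    refine DD.mem_I.2 ⟨rz r hr, fun h => ?_, fun h => ?_⟩
    · rcases mX r h with rfl | rfl
      exacts [raa hr, h1 rfl]
    · rcases mY r h with rfl | rfl
      exacts [h2 rfl, rb' hr]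
  set Ia : Set W := {u | u ∈ d.I \ R ∧ ∃ w, Conn H (d.I \ R) u w ∧ H.Adj w d.a} with hIa
  have iaI : ∀ u ∈ Ia, u ∈ d.I := fun u hu => hu.1.1
  have step : ∀ u ∈ Ia, ∀ w, H.Adj w u → w ∈ d.I → w ∉ R → w ∈ Ia := by
    rintro u ⟨hu, t, ct, et⟩ w e h1 h2
    exact ⟨⟨h1, h2⟩, t, (Conn.step (A := d.I \ R) ⟨h1, h2⟩ hu e).trans ct, et⟩
  have nI : ∀ x ∈ d.I, x ≠ d.a ∧ x ≠ d.b ∧ x ≠ d.a' ∧ x ≠ d.b' := by
    intro x hx
    have := DD.mem_I.1 hx
    exact ⟨fun h => this.2.1 (h ▸ ha), fun h => this.2.1 (h ▸ hb), fun h => this.2.2 (h ▸ ha'),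
      fun h => this.2.2 (h ▸ hb')⟩
  have nob : ∀ u ∈ Ia, ¬ H.Adj d.b' u := by
    rintro u ⟨hu, t, ct, et⟩ e
    have cT : IsConn H (R \ {d.b, d.a'}) := hR.seg_conn Set.sdiff_subset (by
      intro p hp q hq x hx l1 l2
      refine ⟨hx, ?_⟩
      rintro (rfl | rfl)
      · have := hR.lo p hp.1; omega
      · have := hR.hi q hq.1; omega)
    have hpq : H.Adj d.b d.a' ∨ (d.b ∈ Nb H (R \ {d.b, d.a'}) ∧ d.a' ∈ Nb H (R \ {d.b, d.a'})) := by
      by_cases e0 : H.Adj d.b d.a'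
      · exact Or.inl e0
      · obtain ⟨p, hp, -, ep, -⟩ := hR.succ hR.ha n3
        obtain ⟨q, hq, -, eq, -⟩ := hR.pred hR.hb n3.symm
        refine Or.inr ⟨⟨p, ⟨hp, ?_⟩, ep⟩, ⟨q, ⟨hq, ?_⟩, eq.symm⟩⟩
        · rintro (rfl | rfl)
          exacts [ep.ne rfl, e0 ep]
        · rintro (rfl | rfl)
          exacts [e0 eq, eq.ne rfl]
    refine (hd.theta hP hb ha' (T := R \ {d.b, d.a'}) (E := {w | Conn H (d.I \ R) u w})
      (fun r hr => ri r hr.1 (fun h => hr.2 (Or.inl h)) (fun h => hr.2 (Or.inr h))) cT hpq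
      (fun w hw => (Conn.mem hw hu).1) (isConn_comp _ _)
      (Set.disjoint_left.2 fun w hw h => (Conn.mem hw hu).2 h.1)
      (x := d.a) (y := d.b') (Or.inl ⟨ha, lab⟩) (Or.inr ⟨hb', lab'⟩)).2
      ⟨⟨t, ct, et.symm⟩, ⟨u, Conn.rfl', e⟩⟩
  have bd : ∀ x, x ∈ d.X ∨ x ∈ d.Y → x = d.a ∨ x = d.b' ∨ x ∈ R := by
    rintro x (h | h)
    · rcases mX x h with rfl | rfl
      exacts [Or.inl rfl, Or.inr (Or.inr hR.ha)]
    · rcases mY x h with rfl | rfl
      exacts [Or.inr (Or.inr hR.hb), Or.inr (Or.inl rfl)]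
  let d2 : DD W := ⟨d.Z ∪ {d.a} ∪ Ia, {d.b'}, R, σ, d.b', d.b', d.b, d.a'⟩
  have mI : ∀ x, x ∈ d2.I ↔ x ∈ d.I ∧ x ∉ Ia ∧ x ∉ R := by
    intro x
    rw [DD.mem_I]
    constructor
    · rintro ⟨h1, h2, h3⟩
      refine ⟨DD.mem_I.2 ⟨fun h => h1 (Or.inl (Or.inl h)), fun h => ?_, fun h => ?_⟩,
        fun h => h1 (Or.inr h), h3⟩
      · rcases bd x (Or.inl h) with h | h | h
        exacts [h1 (Or.inl (Or.inr h)), h2 h, h3 h]
      · rcases bd x (Or.inr h) with h | h | h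
        exacts [h1 (Or.inl (Or.inr h)), h2 h, h3 h]
    · rintro ⟨h1, h2, h3⟩
      refine ⟨?_, (nI x h1).2.2.2, h3⟩
      rintro ((h | h) | h)
      exacts [(DD.mem_I.1 h1).1 h, (nI x h1).1 h, h2 h]
  have eqI : (Ia ∪ d2.I ∪ d2.Y) \ {d.b, d.a'} = d.I := by
    ext x
    constructor
    · rintro ⟨(h | h) | h, h2⟩
      · exact iaI x h
      · exact ((mI x).1 h).1
      · exact ri x h (fun h => h2 (Or.inl h)) (fun h => h2 (Or.inr h))
    · intro h
      refine ⟨?_, fun h2 => h2.elim (nI x h).2.1 (nI x h).2.2.1⟩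
      by_cases h1 : x ∈ Ia
      · exact Or.inl (Or.inl h1)
      · by_cases h2 : x ∈ R
        · exact Or.inr h2
        · exact Or.inl (Or.inr ((mI x).2 ⟨h, h1, h2⟩))
  have eqZ : d2.Z \ (Ia ∪ {d.a}) = d.Z := by
    ext x
    constructor
    · rintro ⟨(h | h) | h, h2⟩
      exacts [h, (h2 (Or.inr h)).elim, (h2 (Or.inl h)).elim]
    · intro h
      refine ⟨Or.inl (Or.inl h), ?_⟩
      rintro (h2 | rfl)
      exacts [(DD.mem_I.1 (iaI x h2)).1 h, hd.xz ha h]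
  have cZa : IsConn H (d.Z ∪ {d.a}) :=
    hd.zc.union_nb (by rintro _ rfl; exact hd.tz (Or.inl ha))
  have clI : ∀ u ∈ Ia, ∀ w, H.Adj w u → w ∈ Ia ∨ w ∈ R ∨ w = d.a := by
    intro u hu w e
    rcases d.cases w with h | h | h | h
    · exact (hd.iz (iaI u hu) e.symm h).elim
    · rcases bd w (Or.inl h) with h | rfl | h
      exacts [Or.inr (Or.inr h), (nob u hu e).elim, Or.inr (Or.inl h)]
    · rcases bd w (Or.inr h) with h | rfl | h
      exacts [Or.inr (Or.inr h), (nob u hu e).elim, Or.inr (Or.inl h)]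
    · by_cases h2 : w ∈ R
      exacts [Or.inr (Or.inl h2), Or.inl (step u hu w e h h2)]
  have D2 : Disc H d2 := by
    refine ⟨Pth.single _ _, hR, Set.disjoint_singleton_left.2 rb', hd.rb.symm, eab'.symm, ?_, ?_,
      ?_, ?_, hd.fin.subset fun x hx => ((mI x).1 hx).1, hd.nj.mono fun x hx => ((mI x).1 hx).1⟩
    · refine isConn_base cZa Set.subset_union_left ?_
      rintro x (hx | hx)
      · exact ⟨x, hx, Conn.rfl'⟩
      · obtain ⟨t, ct, et⟩ := hx.2
        have hs : ∀ w, Conn H (d.I \ R) x w → w ∈ Ia := fun w cw =>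
          ⟨Conn.mem cw hx.1, t, cw.symm.trans ct, et⟩
        exact ⟨d.a, Or.inr rfl, (ct.sub fun w cw => Or.inr (hs w cw)).snoc (Or.inr (hs t ct))
          (Or.inl (Or.inr rfl)) et⟩
    · rw [Set.disjoint_left]
      rintro x ((h | h) | h) (h2 | h2)
      exacts [hd.yz hb' (Eq.subst (motive := fun t => t ∈ d.Z) h2 h), rz x h2 h,
        n2 (Eq.trans (Eq.symm h) h2), raa (Eq.subst (motive := fun t => t ∈ R) h h2),
        (nI _ (iaI _ h)).2.2.2 h2, h.1.2 h2]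
    · have old : ∀ w, w ∈ d.Z ∨ w ∈ d.X ∨ w ∈ d.Y → w ∈ d2.Z ∪ (d2.X ∪ d2.Y) := by
        rintro w (h | h)
        · exact Or.inl (Or.inl (Or.inl h))
        · rcases bd w h with h | h | h
          exacts [Or.inl (Or.inl (Or.inr h)), Or.inr (Or.inl h), Or.inr (Or.inr h)]
      rintro w ⟨z, (hz | rfl) | hz, e⟩
      · exact old w (hd.cl ⟨z, hz, e⟩)
      · by_cases h : w ∈ d.I
        · by_cases h2 : w ∈ R
          · exact Or.inr (Or.inr h2)
          · exact Or.inl (Or.inr ⟨⟨h, h2⟩, w, Conn.rfl', e⟩)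
        · rcases d.cases w with h1 | h1 | h1 | h1
          exacts [old w (Or.inl h1), old w (Or.inr (Or.inl h1)), old w (Or.inr (Or.inr h1)),
            (h h1).elim]
      · rcases clI z hz w e with h | h | h
        exacts [Or.inl (Or.inr h), Or.inr (Or.inr h), Or.inl (Or.inl (Or.inr h))]
    · rintro x (rfl | hx)
      · obtain ⟨z, hz, e⟩ := hd.tz (Or.inr hb')
        exact ⟨z, Or.inl (Or.inl hz), e⟩
      · exact ⟨d.a, Or.inl (Or.inr rfl), (ra x hx).symm⟩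
  refine ⟨d2, Ia, ⟨D2, rfl, Or.inl (Or.inr rfl), ra, Set.subset_union_right,
    fun h => (nI _ (iaI _ h)).1 rfl, hd.fin.subset iaI, ?_, n3, ?_, ?_, ?_, ?_⟩, rfl, rfl, eqI⟩
  · rintro w ⟨u, hu, e⟩
    rcases clI u hu w e with h | h | h
    exacts [Or.inl h, Or.inr (Or.inl h), Or.inr (Or.inr h)]
  · exact hd.nj.mono eqI.subset
  · rw [eqZ]
    exact hd.zc.union_nb (by rintro _ rfl; exact hd.tz (Or.inr hb'))
  · rw [eqZ]
    obtain ⟨z, hz, e⟩ := hd.tz (Or.inl ha)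
    exact ⟨z, Or.inl hz, e⟩
  · rw [eqZ]
    intro z hz r hr e
    by_contra h
    rw [not_or] at h
    exact hd.iz (ri r hr h.1 h.2) e.symm hz

end PkQ4P

open PkQ4P in
theorem pk_Q4 : S_PQ4 := by
  classical
  intro hStar W H hP hT d hd hX hY hab hab' hn c k1 k2 k3
  have ha := hd.px.ha
  have hb := hd.px.hb
  have ha' := hd.py.ha
  have hb' := hd.py.hb
  have n1 : d.a ≠ d.a' := hd.ra.ne
  have n2 : d.a ≠ d.b' := fun h => hd.xy ha (h ▸ hb')
  have n3 : d.b ≠ d.a' := fun h => hd.xy hb (h ▸ ha')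
  have n4 : d.b ≠ d.b' := hd.rb.ne
  have ia : d.a ∉ d.I := fun h => (DD.mem_I.1 h).2.1 ha
  have ib : d.b ∉ d.I := fun h => (DD.mem_I.1 h).2.1 hb
  have ia' : d.a' ∉ d.I := fun h => (DD.mem_I.1 h).2.2 ha'
  have ib' : d.b' ∉ d.I := fun h => (DD.mem_I.1 h).2.2 hb'
  by_cases h0 : c d.a = c d.b
  · obtain ⟨c', hc⟩ := mono2 hT hd hX hY (Function.update c d.a' (c d.b'))
      (by simp [n1, n3, h0]) (by simp [hab'.symm]) (by simpa [n1, h0] using k3)
    have off : ∀ v, v ∉ d.I → v ≠ d.a' → c' v = c v := fun v h1 h2 => by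
      rw [hc.off v h1, Function.update_of_ne h2]
    have ya : c' d.a' = c d.b' := by rw [hc.off _ ia', Function.update_self]
    have ca := off _ ia n1
    have cb := off _ ib n3
    have cb' := off _ ib' hab'.symm
    have no : ∀ x, x ∉ d.I → ∀ v ∈ d.I, H.Adj x v → c' v ≠ c' x :=
      fun x hx v hv e h => hc.al x hx v hv e h
    refine ⟨c', off, by rw [ya, k2], hc.one, ?_, ?_, ?_, ?_, ?_⟩
    · have : ∀ y ∈ d.I ∪ {d.a, d.b, d.b'}, H.Adj d.a' y → c' y = c' d.a' → y = d.b' := by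
        rintro y (hy | rfl | rfl | rfl) e h
        · exact (no _ ia' y hy e h).elim
        · exact (k3 (by rw [← h0, ← ca, h, ya])).elim
        · exact (k3 (by rw [← cb, h, ya])).elim
        · rfl
      exact fun y hy z hz ey ez cy cz => (this y hy ey cy).trans (this z hz ez cz).symm
    · rintro v (hv | rfl) e
      · exact ca ▸ no _ ia v hv e
      · rw [ya, h0]; exact k3.symm
    · rintro v (hv | rfl) e h
      · exact (no _ ib v hv e (h.trans cb.symm)).elim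
      · exact (k3 (by rw [← h, ya])).elim
    · have : ∀ y ∈ d.I ∪ {d.a'}, H.Adj d.b y → c' y = c' d.b → y = d.a' := by
        rintro y (hy | rfl) e h
        exacts [(no _ ib y hy e h).elim, rfl]
      exact fun y hy z hz ey ez cy cz => (this y hy ey cy).trans (this z hz ez cz).symm
    · have : ∀ y ∈ d.I ∪ {d.a'}, H.Adj d.b' y → c' y = c' d.b' → y = d.a' := by
        rintro y (hy | rfl) e h
        exacts [(no _ ib' y hy e h).elim, rfl]
      exact fun y hy z hz ey ez cy cz => (this y hy ey cy).trans (this z hz ez cz).symm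
  · have h1 : c d.a = c d.b' := by
      have : ∀ p q r : Col, q.1 = p.1 → r.1 = p.1 → q ≠ r → ¬ p = q → p = r := by decide
      exact this _ _ _ k1 k2 k3 h0
    obtain ⟨d2, Ia, hS, e1, e2, e3⟩ := star hP hd hX hY hab hab' hn
    obtain ⟨π, p1, -, p3⟩ := repair (c d.a) (c d.a) (c d.b) h0 h0
    obtain ⟨c0, hc0, hx⟩ := hStar W H hP hT d2 d.a d.b' Ia hS
      (fun x => π (Function.update c d.a' (c d.b) x)) (by simp [n1, hab'.symm, h1])
      (by simp [e1, e2, n3]) (by simp [e1, n1, n3, p1, p3])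
    rw [e1, e2, e3] at hc0 hx
    have hc := hc0.perm π
    set c' : W → Col := fun x => π.symm (c0 x) with hc'
    have off : ∀ v, v ∉ d.I → v ≠ d.a' → c' v = c v := fun v h1 h2 => by
      rw [hc.off v h1, Function.update_of_ne h2]
    have ya : c' d.a' = c d.b := by rw [hc.off _ ia', Function.update_self]
    have ca := off _ ia n1
    have cb := off _ ib n3
    have cb' := off _ ib' hab'.symm
    have no : ∀ x, x ∉ d.I → x ≠ d.b → x ≠ d.a' → ∀ v ∈ d.I, H.Adj x v → c' v ≠ c' x :=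
      fun x hx x1 x2 v hv e h => (hc.al x hx v hv e h).elim x1 x2
    have ex : H.Adj d.b d.a' → ∀ y ∈ d.I, H.Adj d.b y ∨ H.Adj d.a' y → c' y ≠ c d.b := by
      intro e y hy ey h
      refine hx e (by simp [n3]) y hy ey ?_
      simp only [Function.update_of_ne n3, ← h, hc', Equiv.apply_symm_apply]
    refine ⟨c', off, by rw [ya, k1], hc.one, ?_, ?_, fun _ _ _ _ => h0, ?_, ?_⟩
    · have : ∀ y ∈ d.I ∪ {d.a, d.b, d.b'}, c' y = c' d.a' → y ∈ d.I ∨ y = d.b := by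
        rintro y (hy | rfl | rfl | rfl) h
        · exact Or.inl hy
        · exact (h0 (by rw [← ca, h, ya])).elim
        · exact Or.inr rfl
        · exact (k3 (by rw [← cb', h, ya])).elim
      intro y hy z hz ey ez cy cz
      rcases this y hy cy with h2 | h2 <;> rcases this z hz cz with h3 | h3
      · exact hc.un _ ia' y h2 z h3 ey ez cy cz
      · exact (ex (h3 ▸ ez.symm) y h2 (Or.inr ey) (cy.trans ya)).elim
      · exact (ex (h2 ▸ ey.symm) z h3 (Or.inr ez) (cz.trans ya)).elim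
      · exact h2.trans h3.symm
    · rintro v (hv | rfl) e
      · exact ca ▸ no _ ia hab n1 v hv e
      · rw [ya]; exact fun h => h0 h.symm
    · rintro y (h2 | h2) z (h3 | h3) ey ez cy cz
      · exact hc.un _ ib y h2 z h3 ey ez cy cz
      · exact (ex (h3 ▸ ez) y h2 (Or.inl ey) (cy.trans cb)).elim
      · exact (ex (h2 ▸ ey) z h3 (Or.inl ez) (cz.trans cb)).elim
      · exact h2.trans h3.symm
    · have : ∀ y ∈ d.I ∪ {d.a'}, H.Adj d.b' y → c' y = c' d.b' → y = d.a' := by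
        rintro y (hy | rfl) e h
        exacts [(no _ ib' n4.symm hab'.symm y hy e h).elim, rfl]
      exact fun y hy z hz ey ez cy cz => (this y hy ey cy).trans (this z hz ez cz).symm

end Pool.Agent.P.MP_08fd93_co.OV
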