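import Pool.Agent.P.MP_08fd93_co.OV.Base

/-! Package Star1 of project OV. -/

set_option autoImplicit false

namespace Pool.Agent.P.MP_08fd93_co.OV

namespace PkStar1P

variable {W : Type}

/-- The second disc: the vertex `a` against the path `R`. -/
def d2 (a a' b' : W) (R J : Set W) (ρ : W → ℤ) : DD W :=
  ⟨({a} ∪ R ∪ J)ᶜ, {a}, R, ρ, a, a, a', b'⟩

theorem d2_I {a a' b' : W} {R J : Set W} {ρ : W → ℤ} (h1 : a ∉ J) (h2 : ∀ v ∈ J, v ∉ R) :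
    (d2 a a' b' R J ρ).I = J := by
  ext v
  have h3 := h2 v
  have h4 : v ∈ J → v ≠ a := fun hv hh => h1 (hh ▸ hv)
  simp only [DD.mem_I, d2, Set.mem_compl_iff, Set.mem_union, Set.mem_singleton_iff]
  tauto

end PkStar1P

open PkStar1P in
theorem pk_Star1 : S_Star1 := by
  classical
  intro W H hP hT d a b Ia hs
  have hd := hs.disc
  obtain ⟨o, ho⟩ := hT d ∅ hd Adm.empty
  have h := ho.shp
  have memX : ∀ v, v ∈ d.X ↔ v = b := by intro v; rw [hs.hX]; rfl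
  have ea : d.a = b := (memX _).1 hd.px.ha
  have eb : d.b = b := (memX _).1 hd.px.hb
  have oX : o.X = d.X := h.keepX hd fun v hv => by
    rw [(memX v).1 hv, ← ea]
    exact h.xz h.px.ha
  have bX : b ∈ o.X := ea ▸ h.px.ha
  have aY : d.a' ∈ o.Y := h.py.ha
  have bY : d.b' ∈ o.Y := h.py.hb
  have memMid : ∀ v, v ∈ (d.upd o).I ↔ v ∉ o.Z ∧ v ∉ o.X ∧ v ∉ o.Y := fun v => DD.mem_I
  have RI : o.Y ⊆ d.Y ∪ d.I := fun r hr => by
    rcases d.cases r with h1 | h1 | h1 | h1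
    exacts [absurd (h.zz h1) (h.yz hr), absurd h1 (h.yX hr), Or.inl h1, Or.inr h1]
  obtain ⟨J, hJ⟩ : ∃ J : Set W, ∀ v, v ∈ J ↔ v ∈ Ia ∨ (v ∈ o.Z ∧ v ∉ d.Z) :=
    ⟨{v | v ∈ Ia ∨ (v ∈ o.Z ∧ v ∉ d.Z)}, fun _ => Iff.rfl⟩
  have JZ : J ⊆ o.Z := fun v hv => ((hJ v).1 hv).elim (fun hh => h.zz (hs.sub hh)) And.left
  have aJ : a ∉ J := fun hv => ((hJ a).1 hv).elim hs.na fun hh => hh.2 hs.ha
  have JR : ∀ v ∈ J, v ∉ o.Y := fun v hv hh => h.yz hh (JZ hv)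
  have aR : a ∉ o.Y := fun hh => h.yz hh (h.zz hs.ha)
  have I2 : (d2 a d.a' d.b' o.Y J o.ρ).I = J := d2_I aJ JR
  have mem2 : ∀ v, v ∈ (d2 a d.a' d.b' o.Y J o.ρ).Z ↔ v ≠ a ∧ v ∉ o.Y ∧ v ∉ J := by
    intro v
    simp only [d2, Set.mem_compl_iff, Set.mem_union, Set.mem_singleton_iff, not_or, and_assoc]
  have oZ2 : (d.Z \ (Ia ∪ {a})) ∪ {b} ⊆ (d2 a d.a' d.b' o.Y J o.ρ).Z := by
    rintro v (hv | rfl)
    · exact (mem2 v).2 ⟨fun hh => hv.2 (Or.inr hh), fun hh => h.yz hh (h.zz hv.1), fun hh =>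
        ((hJ v).1 hh).elim (fun h1 => hv.2 (Or.inl h1)) fun h1 => h1.2 hv.1⟩
    · exact (mem2 v).2 ⟨fun hh => h.xz bX (hh ▸ h.zz hs.ha), h.xy bX, fun hh => h.xz bX (JZ hh)⟩
  have mZ2 : (d.upd o).I ⊆ (d2 a d.a' d.b' o.Y J o.ρ).Z := fun v hv => by
    obtain ⟨h1, _, h3⟩ := (memMid v).1 hv
    exact (mem2 v).2 ⟨fun hh => h1 (hh ▸ h.zz hs.ha), h3, fun hh => h1 (JZ hh)⟩
  have JI : J ⊆ (Ia ∪ d.I ∪ d.Y) \ {d.a', d.b'} := by
    intro v hv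
    refine ⟨?_, ?_⟩
    · rcases (hJ v).1 hv with h1 | h1
      · exact Or.inl (Or.inl h1)
      · rcases d.cases v with h2 | h2 | h2 | h2
        exacts [absurd h2 h1.2, absurd h1.1 (h.xz (oX ▸ h2)), Or.inr h2, Or.inl (Or.inr h2)]
    · rintro (rfl | rfl)
      exacts [JR _ hv aY, JR _ hv bY]
  have nJ : ∀ v ∈ J, ∀ z, H.Adj v z → z = a ∨ z ∈ o.Y ∨ z ∈ J := by
    intro v hv z e
    have old : z ∈ Ia ∪ (d.Y ∪ {a}) → z = a ∨ z ∈ o.Y ∨ z ∈ J := by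
      rintro (h1 | h1 | h1)
      · exact Or.inr (Or.inr ((hJ z).2 (Or.inl h1)))
      · exact Or.inr ((h.yy h1).imp_right fun h2 => (hJ z).2 (Or.inr ⟨h2, hd.yz h1⟩))
      · exact Or.inl h1
    rcases (hJ v).1 hv with h1 | h1
    · exact old (hs.cl ⟨v, h1, e.symm⟩)
    · by_cases hz : z ∈ d.Z
      · by_cases hz' : z ∈ Ia ∪ {a}
        · exact old (hz'.imp_right Or.inr)
        · exfalso
          rcases hd.old h1.2 hz e with h2 | h2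
          · exact h.xz (oX ▸ h2) h1.1
          · rcases hs.oy z ⟨hz, hz'⟩ v h2 e.symm with rfl | rfl
            exacts [h.yz aY h1.1, h.yz bY h1.1]
      · have hax : o.ax v ∈ o.Y :=
          ((h.ap v h1.1 h1.2).resolve_left fun hh => hh.2 (oX ▸ hh.1)).1
        rcases h.pk v h1.1 h1.2 z e with h2 | h2 | h2 | h2
        · exact absurd h2 hz
        · exact Or.inr (Or.inr ((hJ z).2 (Or.inr ⟨h2.1, hz⟩)))
        · exact Or.inr (Or.inl (h2 ▸ hax))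
        · rcases h2.2 with h3 | h3
          exacts [absurd hax (h.xy h3.2), Or.inr (Or.inl h3.1)]
  have disc2 : Disc H (d2 a d.a' d.b' o.Y J o.ρ) := by
    refine ⟨Pth.single a _, h.py, ?_, hs.link _ hd.py.ha, hs.link _ hd.py.hb, ?_, ?_, ?_, ?_, ?_, ?_⟩
    · refine Set.disjoint_left.2 ?_
      rintro v rfl
      exact aR
    · refine isConn_base hs.oc oZ2 fun v hv => ?_
      obtain ⟨n1, n2, n3⟩ := (mem2 v).1 hv
      rcases (d.upd o).cases v with h1 | h1 | h1 | h1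
      · refine ⟨v, Or.inl ⟨?_, ?_⟩, Conn.rfl'⟩
        · by_contra hz
          exact n3 ((hJ v).2 (Or.inr ⟨h1, hz⟩))
        · rintro (h2 | h2)
          exacts [n3 ((hJ v).2 (Or.inl h2)), n1 h2]
      · exact ⟨v, Or.inr ((memX v).1 (oX ▸ h1)), Conn.rfl'⟩
      · exact absurd h1 n2
      · obtain ⟨u, c2, z, hz, e⟩ := h.disc.toX hP h1
        have hzb : z = b := (memX z).1 (oX ▸ hz)
        exact ⟨z, Or.inr hzb, (c2.up mZ2).snoc (mZ2 (c2.mem h1)) (oZ2 (Or.inr hzb)) e⟩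
    · refine Set.disjoint_left.2 fun v hv hv' => ?_
      obtain ⟨n1, n2, _⟩ := (mem2 v).1 hv
      exact hv'.elim n1 n2
    · rintro v ⟨z, hz, e⟩
      by_contra hc
      have hv : v ∈ J := I2 ▸ hc
      obtain ⟨n1, n2, n3⟩ := (mem2 z).1 hz
      rcases nJ v hv z e with h1 | h1 | h1
      exacts [n1 h1, n2 h1, n3 h1]
    · rintro v (rfl | hv)
      · obtain ⟨z, hz, e⟩ := hs.oa
        exact ⟨z, oZ2 hz, e⟩
      · by_cases h1 : v = d.a'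
        · exact ⟨b, oZ2 (Or.inr rfl), h1 ▸ ea ▸ hd.ra.symm⟩
        by_cases h2 : v = d.b'
        · exact ⟨b, oZ2 (Or.inr rfl), h2 ▸ eb ▸ hd.rb.symm⟩
        obtain ⟨z, e, hz⟩ := h.disc.swap.side hP (x := v) hv h1 h2
        rw [DD.swap_I] at hz
        exact ⟨z, hz.elim (fun hh => mZ2 hh) fun hh => oZ2 (Or.inr ((memX z).1 (oX ▸ hh))), e⟩
    · rw [I2]
      exact ((hs.fin.union hd.fin).union hd.py.fin).subset fun v hv => (JI hv).1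
    · rw [I2]; exact hs.nj.mono JI
  obtain ⟨S2, hS2⟩ : ∃ S2 : Set (Sym2 W), ∀ e, e ∈ S2 ↔ ∃ u ∈ o.Y, ∃ v ∈ o.Y, H.Adj u v ∧
      o.ρ u < o.ρ v ∧ u ∈ d.Y ∧ e = s(u, v) :=
    ⟨{e | ∃ u ∈ o.Y, ∃ v ∈ o.Y, H.Adj u v ∧ o.ρ u < o.ρ v ∧ u ∈ d.Y ∧ e = s(u, v)},
      fun _ => Iff.rfl⟩
  have adm : Adm H (d2 a d.a' d.b' o.Y J o.ρ) S2 := by
    refine ⟨fun e he => ?_, ?_⟩
    · obtain ⟨u, hu, v, hv, e1, _, _, rfl⟩ := (hS2 e).1 he
      exact Or.inr ⟨u, hu, v, hv, e1, rfl⟩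
    have key : ∀ u ∈ o.Y, ∀ v ∈ o.Y, ∀ u' ∈ o.Y, ∀ v' ∈ o.Y, H.Adj u v → o.ρ u' < o.ρ v' →
        u' ∈ d.Y → o.ρ u < o.ρ u' → Sep H (d2 a d.a' d.b' o.Y J o.ρ) s(u, v) s(u', v') := by
      intro u hu v hv u' hu' v' hv' e l' ho' l
      refine ⟨a, rfl, u', hu', hs.link _ ho', fun x hx => Or.inr ?_, fun x hx => Or.inr ?_⟩
      · have := h.py.nb hu hv e hu'
        rcases Sym2.mem_iff.1 hx with rfl | rfl
        exacts [⟨hu, l.le⟩, ⟨hv, show o.ρ x ≤ o.ρ u' by omega⟩]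
      · rcases Sym2.mem_iff.1 hx with rfl | rfl
        exacts [⟨hu', le_rfl⟩, ⟨hv', l'.le⟩]
    intro e he e' he' hne
    obtain ⟨u, hu, v, hv, e1, l1, o1, rfl⟩ := (hS2 e).1 he
    obtain ⟨u', hu', v', hv', e1', l1', o1', rfl⟩ := (hS2 e').1 he'
    have huu : u ≠ u' := by
      rintro rfl
      exact hne (by rw [h.py.up_eq hu hv hv' e1 e1' l1 l1'])
    rcases h.py.lt_or hu hu' huu with l | l
    exacts [Or.inl (key u hu v hv u' hu' v' hv' e1 l1' o1' l),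
      Or.inr (key u' hu' v' hv' u hu v hv e1' l1 o1 l)]
  obtain ⟨o2, ho2⟩ := hT _ S2 disc2 adm
  have h2 := ho2.shp
  obtain ⟨k1, k2, _, k4⟩ := h2.nohide disc2
    (by
      rintro v rfl
      exact h2.xz h2.px.ha)
    (fun r hr => by
      by_cases hrb : r = d.b'
      · exact hrb ▸ h2.yz h2.py.hb
      by_cases hro : r ∈ d.Y
      · obtain ⟨v, hv, l, e, _⟩ := h.py.succ hr hrb
        exact h2.st _ ((hS2 _).2 ⟨r, hr, v, hv, e, l, hro, rfl⟩) r (Sym2.mem_mk_left _ _)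
      · obtain ⟨v, hv, l, e, _⟩ := h.py.pred hr fun hh => hro (hh ▸ hd.py.ha)
        exact h2.st _ ((hS2 _).2 ⟨v, hv, r, hr, e, l, (h.ny v hv r hr e).resolve_right hro, rfl⟩)
          r (Sym2.mem_mk_right _ _))
  have x2 := ho2.ext
  rw [k4, I2, k1, k2] at x2
  have noX : ∀ (p : W) (e : Sym2 W), e ∉ PE H {p} := by
    rintro p e ⟨u, rfl, v, rfl, e1, _⟩
    exact e1.ne rfl
  have l1 : LE H d ∅ o ⊆ PE H (d.Y ∩ o.Y) := by
    rintro e ⟨h1 | h1, _⟩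
    · exact absurd (PE.mono (fun v hv => (memX v).1 hv.1) h1) (noX b e)
    · exact h1
  have l2 : LE H (d2 a d.a' d.b' o.Y J o.ρ) S2 o2 ⊆ PE H o.Y \ S2 := by
    rintro e ⟨h1 | h1, h3⟩
    · exact absurd (PE.mono (fun v hv => hv.1) h1) (noX a e)
    · exact ⟨PE.mono (fun v hv => hv.1) h1, h3⟩
  refine ⟨o.Y, o.ρ, h.py, RI, ?_⟩
  have eM : (Ia ∪ d.I ∪ d.Y) \ o.Y = (d.upd o).I ∪ J := by
    ext v
    constructor
    · rintro ⟨h1, h3⟩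
      by_cases hz : v ∈ o.Z
      · refine Or.inr ((hJ v).2 ?_)
        rcases h1 with (h1 | h1) | h1
        exacts [Or.inl h1, Or.inr ⟨hz, (DD.mem_I.1 h1).1⟩, Or.inr ⟨hz, hd.yz h1⟩]
      · refine Or.inl ((memMid v).2 ⟨hz, fun hh => ?_, h3⟩)
        rcases h1 with (h1 | h1) | h1
        exacts [hz (h.zz (hs.sub h1)), (DD.mem_I.1 h1).2.1 (oX ▸ hh), h.xY hh h1]
    · rintro (h1 | h1)
      exacts [⟨Or.inl (Or.inr (h.I_sub h1)), ((memMid v).1 h1).2.2⟩, ⟨(JI h1).1, JR v h1⟩]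
  rw [eM]
  refine Ext.glue ho.ext x2 ?_ ?_ ?_ ?_ subset_rfl subset_rfl
    (fun e he => PE.mono Set.inter_subset_right (l1 he)) (fun e he => (l2 he).1) ?_ ?_ ?_ ?_
  · exact Set.disjoint_left.2 fun v hv hv' => ((memMid v).1 hv).1 (JZ hv')
  · rintro ⟨v, hv, z, hz, e⟩
    exact h.disc.iz hv e (JZ hz)
  · intro v hv
    exact Or.inr ((memX v).1 (oX ▸ hv))
  · intro v hv
    exact Or.inl hv
  · refine Set.disjoint_left.2 fun e he he' => (l2 he').2 ?_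
    obtain ⟨u, hu, v, hv, e1, rfl⟩ := l1 he
    rcases h.py.lt_or hu.2 hv.2 e1.ne with l | l
    · exact (hS2 _).2 ⟨u, hu.2, v, hv.2, e1, l, hu.1, rfl⟩
    · exact (hS2 _).2 ⟨v, hv.2, u, hu.2, e1.symm, l, hv.1, Sym2.eq_swap⟩
  · refine Set.disjoint_left.2 ?_
    rintro v rfl hv
    exact ((memMid v).1 hv).1 (h.zz hs.ha)
  · exact Set.disjoint_left.2 fun v hv hv' => ((memMid v).1 hv').2.2 hv
  · exact fun e he x hx hh => ((memMid x).1 hh).2.2 (PE.ends (l2 he).1 hx)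

end Pool.Agent.P.MP_08fd93_co.OV
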