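import Pool.Agent.P.MP_08fd93_co.OV.Def

/-! Statements of the planar packages of project OV. -/

set_option autoImplicit false

namespace Pool.Agent.P.MP_08fd93_co.OV

/-- Splitting a disc at a rung. -/
structure Spl {W : Type} (H : SimpleGraph W) (d : DD W) (u v : W) (IL IR : Set W) : Prop where
  disc : Disc H d
  hu : u ∈ d.X
  hv : v ∈ d.Y
  uv : H.Adj u v
  cov : ∀ x, x ∈ d.I ↔ x ∈ IL ∨ x ∈ IR
  dis : Disjoint IL IR
  dl : Disc H (d.left u v IL)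
  dr : Disc H (d.right u v IR)
  nc : ∀ x ∈ d.Lo u v, ∀ y ∈ d.Hi u v, ¬ H.Adj x y

/-- Package Spl1. -/
def S_Spl1 : Prop := ∀ (W : Type) (H : SimpleGraph W), Pl H Set.univ → ∀ (d : DD W) (u v : W),
  Disc H d → u ∈ d.X → v ∈ d.Y → H.Adj u v →
  ∃ IL IR, Spl H d u v IL IR ∧ ∀ S, Adm H d S →
    Adm H (d.left u v IL) (SIn S (d.Lf u v)) ∧ Adm H (d.right u v IR) (SIn S (d.Rt u v))

open Classical in
/-- The glued output. -/
noncomputable def glue {W : Type} (d : DD W) (u v : W) (IL IR : Set W) (oL oR : OD W) : OD W :=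
  ⟨{x | x ∈ d.Z ∨ (x ∈ oL.Z ∧ x ∉ (d.left u v IL).Z) ∨ (x ∈ oR.Z ∧ x ∉ (d.right u v IR).Z)},
    oL.X ∪ oR.X, oL.Y ∪ oR.Y,
    fun x => if x ∈ oL.X ∨ x ∈ oL.Y then oL.ρ x else oR.ρ x,
    fun x => if x ∉ (d.left u v IL).Z then oL.ax x else oR.ax x⟩

/-- Package Spl2: the shape of the glued output. -/
def S_Spl2 : Prop := ∀ (W : Type) (H : SimpleGraph W) (d : DD W) (u v : W) (IL IR : Set W)
  (S : Set (Sym2 W)) (oL oR : OD W), Spl H d u v IL IR → S ⊆ PE H d.X ∪ PE H d.Y →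
  Shp H (d.left u v IL) (SIn S (d.Lf u v)) oL → Shp H (d.right u v IR) (SIn S (d.Rt u v)) oR →
  Shp H d S (glue d u v IL IR oL oR)

/-- Package Spl3: the extension property of the glued output. -/
def S_Spl3 : Prop := ∀ (W : Type) (H : SimpleGraph W) (d : DD W) (u v : W) (IL IR : Set W)
  (S : Set (Sym2 W)) (oL oR : OD W), Spl H d u v IL IR →
  Out H (d.left u v IL) (SIn S (d.Lf u v)) oL → Out H (d.right u v IR) (SIn S (d.Rt u v)) oR →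
  Shp H d S (glue d u v IL IR oL oR) → Out H d S (glue d u v IL IR oL oR)

/-- Package Stp1: the path `τ`. -/
def S_Stp1 : Prop := ∀ (W : Type) (H : SimpleGraph W), Pl H Set.univ → ∀ (d : DD W) (p p' : W),
  Disc H d → d.I.Nonempty →
  (∀ u ∈ d.X, ∀ v ∈ d.Y, H.Adj u v → (u = d.a ∧ v = d.a') ∨ (u = d.b ∧ v = d.b')) →
  p ∈ d.X → p' ∈ d.X → d.ρ p < d.ρ p' → H.Adj p p' →
  ∃ s : SD W, s.d = d ∧ s.p = p ∧ s.p' = p' ∧ Stp H s

/-- Package Stp2: the four regions. -/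
def S_Stp2 : Prop := ∀ (W : Type) (H : SimpleGraph W), Pl H Set.univ → ∀ s : SD W, Stp H s →
  ∃ s' : SD W, s'.d = s.d ∧ s'.p = s.p ∧ s'.p' = s.p' ∧ Stp H s' ∧ Reg H s'

/-- Package Stp3: the right disc. -/
def S_Stp3 : Prop := ∀ (W : Type) (H : SimpleGraph W) (s : SD W), Stp H s → Reg H s →
  Disc H s.dM ∧ Adm H s.dM s.SM ∧ (s.dM.Zᶜ).ncard < (s.d.Zᶜ).ncard

/-- Package Stp4a: the second path of the left disc and its strict edges. -/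
def S_Stp4a : Prop := ∀ (W : Type) (H : SimpleGraph W) (s : SD W) (o : OD W), Stp H s → Reg H s →
  Disc H s.dM → Shp H s.dM s.SM o →
  s.v ∈ s.T1 o ∧ s.z ∈ s.T1 o ∧ s.qj ∈ o.Y ∧ s.T1 o ⊆ s.τ ∪ s.Rg 1 ∧ s.W1 o ⊆ s.τ ∪ s.Rg 1 ∧
  s.τ ⊆ s.T1 o ∪ s.W1 o ∧
  Pth H (s.dL o).Y (s.dL o).ρ s.d.a' s.z ∧ Adm H (s.dL o) (s.SL H o)

/-- Package Stp4b: the left disc. -/
def S_Stp4b : Prop := S_Stp4a → ∀ (W : Type) (H : SimpleGraph W), Pl H Set.univ →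
  ∀ (s : SD W) (o : OD W), Stp H s → Reg H s → Disc H s.dM → Shp H s.dM s.SM o →
  Disc H (s.dL o) ∧ ((s.dL o).Zᶜ).ncard < (s.d.Zᶜ).ncard

/-- Package Fct. -/
def S_Fct : Prop := S_Stp4a → ∀ (W : Type) (H : SimpleGraph W) (s : SD W) (o1 o2 : OD W),
  Pre H s o1 o2 → Fct H s o1 o2

/-- The two paths of the final output. -/
structure FinP {W : Type} (H : SimpleGraph W) (s : SD W) (o : OD W) : Prop where
  px : Pth H o.X o.ρ s.d.a s.d.b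
  py : Pth H o.Y o.ρ s.d.a' s.d.b'
  rx : ∀ u ∈ s.d.X, u ∈ o.X → o.ρ u = s.d.ρ u
  ry : ∀ u ∈ s.d.Y, u ∈ o.Y → o.ρ u = s.d.ρ u
  nx : ∀ u ∈ o.X, ∀ v ∈ o.X, H.Adj u v → u ∈ s.d.X ∨ v ∈ s.d.X
  ny : ∀ u ∈ o.Y, ∀ v ∈ o.Y, H.Adj u v → u ∈ s.d.Y ∨ v ∈ s.d.Y

/-- Package FinA. -/
def S_FinA : Prop := ∀ (W : Type) (H : SimpleGraph W) (s : SD W) (o1 o2 : OD W),
  Pre H s o1 o2 → Fct H s o1 o2 → FinP H s (s.fin H o1 o2)

/-- Package FinB. -/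
def S_FinB : Prop := ∀ (W : Type) (H : SimpleGraph W) (s : SD W) (o1 o2 : OD W),
  Pre H s o1 o2 → Fct H s o1 o2 → FinP H s (s.fin H o1 o2) →
  Shp H s.d {s(s.p, s.p')} (s.fin H o1 o2)

/-- Package FinC. -/
def S_FinC : Prop := ∀ (W : Type) (H : SimpleGraph W) (s : SD W) (o1 o2 : OD W),
  Pre H s o1 o2 → Fct H s o1 o2 → Shp H s.d {s(s.p, s.p')} (s.fin H o1 o2) →
  Out H s.dM s.SM o1 → Out H (s.dL o1) (s.SL H o1) o2 →
  Tri H (s.Rg 2) s.p s.p' s.z → (H.Adj s.ql s.qj → Tri H (s.Rg 3) s.v s.ql s.qj) →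
  Out H s.d {s(s.p, s.p')} (s.fin H o1 o2)

/-- The triangle lemma below the bound `n`. -/
def TriN {W : Type} (H : SimpleGraph W) (n : ℕ) : Prop :=
  ∀ (Z0 I0 D : Set W) (a b e : W), H.Adj a b → H.Adj b e → H.Adj a e → IsConn H Z0 →
    ({a, b, e} : Set W) ⊆ Nb H Z0 → Disjoint Z0 (D ∪ {a, b, e}) → Disjoint D {a, b, e} →
    (Z0 ∪ {a, b, e})ᶜ ⊆ I0 → I0.Finite → NJ H I0 → Nb H D ⊆ D ∪ {a, b, e} →
    (D ∪ {a, b, e}).ncard < n → Tri H D a b e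

/-- Package Tri1. -/
def S_Tri1 : Prop := ∀ (W : Type) (H : SimpleGraph W), Pl H Set.univ → ∀ n, TN H n → TriN H n

/-- Package Tri2: the two triangles of the main step. -/
def S_Tri2 : Prop := ∀ (W : Type) (H : SimpleGraph W) (s : SD W), Stp H s → Reg H s →
  TriN H (s.d.Zᶜ).ncard →
  Tri H (s.Rg 2) s.p s.p' s.z ∧ (H.Adj s.ql s.qj → Tri H (s.Rg 3) s.v s.ql s.qj)

/-- The disc theorem. -/
def S_T : Prop := ∀ (W : Type) (H : SimpleGraph W), Pl H Set.univ → TA H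

/-- Package Ind: the induction. -/
def S_Ind : Prop := S_Spl1 → S_Spl2 → S_Spl3 → S_Stp1 → S_Stp2 → S_Stp3 → S_Stp4a → S_Stp4b →
  S_Fct → S_FinA → S_FinB → S_FinC → S_Tri1 → S_Tri2 → S_T

/-- Package PCol: two-colouring of a path with prescribed ends. -/
def S_PCol : Prop := ∀ (W : Type) (H : SimpleGraph W) (R : Set W) (ρ : W → ℤ) (r0 r1 : W)
  (c : W → Col), Pth H R ρ r0 r1 → r0 ≠ r1 → (c r0).1 = (c r1).1 →
  ∃ (c' : W → Col) (o : W → W), (∀ x, x ∉ R \ {r0, r1} → c' x = c x) ∧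
    (∀ x ∈ R, (c' x).1 = (c r0).1) ∧ Paid (PE H R) c' o ∧
    ∀ x ∈ R, ∀ y ∈ R, H.Adj x y → c' y = c' x → o x = y

/-- A disc over the single vertex `b` whose second path lies in the link of an outer vertex `a`;
`Ia` is the part between `a` and the path. -/
structure StarH {W : Type} (H : SimpleGraph W) (d : DD W) (a b : W) (Ia : Set W) : Prop where
  disc : Disc H d
  hX : d.X = {b}
  ha : a ∈ d.Z
  link : ∀ y ∈ d.Y, H.Adj a y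
  sub : Ia ⊆ d.Z
  na : a ∉ Ia
  fin : Ia.Finite
  cl : Nb H Ia ⊆ Ia ∪ (d.Y ∪ {a})
  ne : d.a' ≠ d.b'
  nj : NJ H ((Ia ∪ d.I ∪ d.Y) \ {d.a', d.b'})
  oc : IsConn H ((d.Z \ (Ia ∪ {a})) ∪ {b})
  oa : a ∈ Nb H ((d.Z \ (Ia ∪ {a})) ∪ {b})
  oy : ∀ x ∈ d.Z \ (Ia ∪ {a}), ∀ y ∈ d.Y, H.Adj x y → y = d.a' ∨ y = d.b'

/-- Package Star1: two applications of the disc theorem. -/
def S_Star1 : Prop := ∀ (W : Type) (H : SimpleGraph W), Pl H Set.univ → TA H →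
  ∀ (d : DD W) (a b : W) (Ia : Set W), StarH H d a b Ia →
  ∃ (R : Set W) (ρ : W → ℤ), Pth H R ρ d.a' d.b' ∧ R ⊆ d.Y ∪ d.I ∧
    Ext H ((Ia ∪ d.I ∪ d.Y) \ R) {a, b} R (PE H R)

/-- The star lemma. -/
def S_Star : Prop := ∀ (W : Type) (H : SimpleGraph W), Pl H Set.univ → TA H →
  ∀ (d : DD W) (a b : W) (Ia : Set W), StarH H d a b Ia →
  ∀ c : W → Col, (c a).1 = (c b).1 → (c d.a').1 = (c d.b').1 → (c a).1 ≠ (c d.a').1 →
  ∃ c', Rec H ((Ia ∪ d.I ∪ d.Y) \ {d.a', d.b'}) {d.a', d.b'} c c' ∧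
    (H.Adj d.a' d.b' → c d.a' = c d.b' →
      ∀ y ∈ (Ia ∪ d.I ∪ d.Y) \ {d.a', d.b'}, (H.Adj d.a' y ∨ H.Adj d.b' y) → c' y ≠ c d.a')

/-- Package Star2. -/
def S_Star2 : Prop := S_PCol → S_Star1 → S_Star

/-- The four-cycle lemma: the disc has the boundary `s x s' y`, and `y` is coloured too. -/
def S_Q4 : Prop := ∀ (W : Type) (H : SimpleGraph W), Pl H Set.univ → TA H →
  ∀ d : DD W, Disc H d → d.X = {d.a, d.b} → d.Y = {d.a', d.b'} → d.a ≠ d.b → d.a' ≠ d.b' →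
  ¬ H.Adj d.a d.b' → ∀ c : W → Col, (c d.b).1 = (c d.a).1 → (c d.b').1 = (c d.a).1 →
  c d.b ≠ c d.b' →
  ∃ c' : W → Col, (∀ v, v ∉ d.I → v ≠ d.a' → c' v = c v) ∧ (c' d.a').1 = (c d.a).1 ∧
    (∀ v ∈ d.I, One H c' v) ∧ OneIn H c' (d.I ∪ {d.a, d.b, d.b'}) d.a' ∧
    (∀ v ∈ d.I ∪ {d.a'}, H.Adj d.a v → c' v ≠ c d.a) ∧
    (∀ v ∈ d.I ∪ {d.a'}, H.Adj d.b v → c' v = c d.b → c d.a ≠ c d.b) ∧
    OneIn H c' (d.I ∪ {d.a'}) d.b ∧ OneIn H c' (d.I ∪ {d.a'}) d.b'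

/-- Package Q4. -/
def S_PQ4 : Prop := S_Star → S_Q4

/-- The part of the interior that is neither on the new first path nor in one of its pockets. -/
def MX {W : Type} (d : DD W) (o : OD W) : Set W :=
  d.I \ (o.X ∪ {v | v ∈ o.Z ∧ o.ax v ∈ o.X})

/-- A second path `s x s'` behaves as if it were never hidden. -/
def S_Unh : Prop := ∀ (W : Type) (H : SimpleGraph W), Pl H Set.univ → TA H →
  ∀ (d : DD W) (S : Set (Sym2 W)) (o : OD W) (x : W), Disc H d → Out H d S o → S ⊆ PE H d.X →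
  d.Y = {d.a', x, d.b'} → H.Adj d.a' x → H.Adj x d.b' → d.a' ≠ d.b' → ¬ H.Adj d.a' d.b' →
  ∀ (c : W → Col) (ω : W → W), (∀ v ∈ o.X, (c v).1 = false) → (∀ v ∈ d.Y, (c v).1 = true) →
    Paid (PE H (d.X ∩ o.X) \ S) c ω → ω x = d.a' → ω d.b' = x → c x ≠ c d.b' →
    ∃ c', Rec H (MX d o) (Pay ((PE H (d.X ∩ o.X) \ S) ∪ PE H d.Y) c ω) c c'

/-- Package Unh. -/
def S_PUnh : Prop := S_Q4 → S_Unh

/-- The edge lemma for a finite graph. -/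
def S_E1 : Prop := ∀ (W : Type) (H : SimpleGraph W), Pl H Set.univ → TA H → ∀ (a b : W),
  H.Adj a b → (({a, b} : Set W)ᶜ).Finite →
  (∀ I : Set W, I ⊆ ({a, b} : Set W)ᶜ → I ≠ ({a, b} : Set W)ᶜ → NJ H I) →
  ∀ c : W → Col, ∃ c', Rec H (({a, b} : Set W)ᶜ) ∅ c c'

/-- Package E1. -/
def S_PE1 : Prop := S_Tri1 → S_Star → S_E1

/-- The edge lemma: strict extension to a minimal part that hangs on a vertex or an edge. -/
def S_E : Prop := ∀ (W : Type) (H : SimpleGraph W), Pl H Set.univ → OE H →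
  ∀ (D : Set W) (a b : W), D.Finite → a ∉ D → b ∉ D → (a = b ∨ H.Adj a b) →
  Nb H D ⊆ D ∪ {a, b} → (∀ I : Set W, I ⊆ D → I ≠ D → NJ H I) →
  ∀ c : W → Col, ∃ c', Rec H D ∅ c c'

/-- Package E2. -/
def S_PE2 : Prop := S_Quot → S_T → S_E1 → S_E

end Pool.Agent.P.MP_08fd93_co.OV
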