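import Pool.Agent.P.MP_08fd93_co.OV.Base
import Pool.Agent.P.MP_08fd93_co.OV.St1

/-! Package Star2 of project OV: the star lemma from the two-colouring of a path. -/

set_option autoImplicit false

namespace Pool.Agent.P.MP_08fd93_co.OV

theorem pk_Star2 : S_Star2 := by
  intro hC h1 W H hP hT d a b Ia hs c cab cends cne
  obtain ⟨R, ρ, hR, hRs, hE⟩ := h1 W H hP hT d a b Ia hs
  obtain ⟨c1, o, off1, cl1, paid, own⟩ := hC W H R ρ d.a' d.b' c hR hs.ne cends
  have bX : b ∈ d.X := by rw [hs.hX]; rfl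
  have RU : R ⊆ Ia ∪ d.I ∪ d.Y := fun x hx =>
    (hRs hx).elim Or.inr fun h => Or.inl (Or.inr h)
  have aU : a ∉ Ia ∪ d.I ∪ d.Y := by
    rintro ((h | h) | h)
    exacts [hs.na h, (DD.mem_I.1 h).1 hs.ha, hs.disc.yz h hs.ha]
  have bU : b ∉ Ia ∪ d.I ∪ d.Y := by
    rintro ((h | h) | h)
    exacts [hs.disc.xz bX (hs.sub h), (DD.mem_I.1 h).2.1 bX, hs.disc.xy bX h]
  have c1ab : ∀ x ∈ ({a, b} : Set W), (c1 x).1 = (c a).1 := by
    intro x hx
    have hx' : x = a ∨ x = b := hx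
    rcases hx' with h | h <;> rw [h]
    · rw [off1 a fun hh => aU (RU hh.1)]
    · rw [off1 b fun hh => bU (RU hh.1), cab]
  have c1R : ∀ x ∈ R, (c1 x).1 = !(c a).1 := fun x hx => by
    rw [cl1 x hx]
    revert cne
    cases (c a).1 <;> cases (c d.a').1 <;> simp
  obtain ⟨c2, hc⟩ := hE.cls (c a).1 c1 o c1ab c1R paid
  have onR : ∀ x ∈ R, c2 x = c1 x := fun x hx => hc.off x fun hh => hh.2 hx
  -- an inner vertex of `R` has no neighbour of its colour outside the region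
  have out : ∀ x ∈ R, x ∉ ({d.a', d.b'} : Set W) → ∀ y, y ∉ Ia ∪ d.I ∪ d.Y → H.Adj x y →
      c2 y ≠ c2 x := by
    intro x hx hx' y hy e he
    have hy' : y ∈ ({a, b} : Set W) := by
      rcases d.cases y with h | h | h | h
      · by_cases hya : y = a
        · exact Or.inl hya
        · rcases hRs hx with h2 | h2
          · refine absurd (hs.oy y ⟨h, ?_⟩ x h2 e.symm) hx'
            rintro (h3 | h3)
            exacts [hy (Or.inl (Or.inl h3)), hya h3]
          · exact absurd h (hs.disc.iz h2 e)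
      · rw [hs.hX] at h
        exact Or.inr h
      · exact absurd (Or.inr h) hy
      · exact absurd (Or.inl (Or.inr h)) hy
    have q1 := c1ab y hy'
    have q2 := c1R x hx
    rw [hc.off y (fun hh => hy hh.1), onR x hx] at he
    rw [he, q2] at q1
    simp at q1
  -- a vertex of `R` with a neighbour of its colour on `R` has none in the rest of the region
  have mix : ∀ x ∈ R, ∀ y ∈ R, ∀ z ∈ (Ia ∪ d.I ∪ d.Y) \ R, H.Adj x y → H.Adj x z →
      c2 y = c2 x → c2 z = c2 x → False := by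
    intro x hx y hy z hz ey ez cy cz
    have hp := hc.al x (fun hh => hh.2 hx) z hz ez cz
    rw [onR x hx, onR y hy] at cy
    exact hp.2 (by rw [own x hx y hy ey cy, cy])
  have inn : ∀ x ∈ R, OneIn H c2 (Ia ∪ d.I ∪ d.Y) x := by
    intro x hx y hy z hz ey ez cy cz
    by_cases h2 : y ∈ R <;> by_cases h3 : z ∈ R
    · rw [onR x hx] at cy cz
      rw [onR y h2] at cy
      rw [onR z h3] at cz
      exact (own x hx y h2 ey cy).symm.trans (own x hx z h3 ez cz)
    · exact (mix x hx y h2 z ⟨hz, h3⟩ ey ez cy cz).elim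
    · exact (mix x hx z h3 y ⟨hy, h2⟩ ez ey cz cy).elim
    · exact hc.un x (fun hh => hh.2 hx) y ⟨hy, h2⟩ z ⟨hz, h3⟩ ey ez cy cz
  have endR : ∀ x ∈ ({d.a', d.b'} : Set W), x ∈ R := by
    intro x hx
    have hx' : x = d.a' ∨ x = d.b' := hx
    rcases hx' with h | h <;> rw [h]
    exacts [hR.ha, hR.hb]
  have al : ∀ x, x ∉ (Ia ∪ d.I ∪ d.Y) \ {d.a', d.b'} →
      ∀ y ∈ (Ia ∪ d.I ∪ d.Y) \ {d.a', d.b'}, H.Adj x y → c2 y = c2 x →
      x ∈ ({d.a', d.b'} : Set W) := by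
    intro x hx y hy e he
    by_contra hn
    have hU : x ∉ Ia ∪ d.I ∪ d.Y := fun hh => hx ⟨hh, hn⟩
    by_cases h2 : y ∈ R
    · exact out y h2 hy.2 x hU e.symm he.symm
    · exact hU (RU (mem_PE.1 (hc.al x (fun hh => hU hh.1) y ⟨hy.1, h2⟩ e he).1).1)
  refine ⟨c2, ⟨fun x hx => ?_, fun x hx => ?_, al, fun x hx y hy z hz ey ez cy cz => ?_⟩, ?_⟩
  · rw [hc.off x fun hh => hx ⟨hh.1, fun h2 => hh.2 (endR x h2)⟩,
      off1 x fun hh => hx ⟨RU hh.1, hh.2⟩]
  · by_cases h2 : x ∈ R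
    · intro y z ey ez cy cz
      exact inn x h2 y (by_contra fun hy => out x h2 hx.2 y hy ey cy) z
        (by_contra fun hz => out x h2 hx.2 z hz ez cz) ey ez cy cz
    · exact hc.one x ⟨hx.1, h2⟩
  · exact inn x (endR x (al x hx y hy ey cy)) y hy.1 z hz.1 ey ez cy cz
  · intro e ce y hy hadj he
    have hy' : y ∈ (Ia ∪ d.I ∪ d.Y) \ R := ⟨hy.1, by rw [hR.eq_pair e]; exact hy.2⟩
    have q1 : c2 d.a' = c d.a' := by rw [onR _ hR.ha, off1 _ fun hh => hh.2 (Or.inl rfl)]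
    have q2 : c2 d.b' = c d.a' := by rw [onR _ hR.hb, off1 _ fun hh => hh.2 (Or.inr rfl), ce]
    rcases hadj with h2 | h2
    · exact mix _ hR.ha _ hR.hb y hy' e h2 (q2.trans q1.symm) (he.trans q1.symm)
    · exact mix _ hR.hb _ hR.ha y hy' e.symm h2 (q1.trans q2.symm) (he.trans q2.symm)

end Pool.Agent.P.MP_08fd93_co.OV
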