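import Pool.Agent.P.MP_08fd93_co.OV.St2

/-! Assembly of project OV from the package statements. -/

set_option autoImplicit false

namespace Pool.Agent.P.MP_08fd93_co.OV

theorem asm_Main0 (hT : S_T) (hUnh : S_Unh) (hBu : S_Bu) (hHP : S_HP) (hBri : S_Bri)
    (hUU : S_UU) (hLCon : S_LCon) (hLin : S_Lin) (hFrm : S_Frm) (hNC : S_NC) (hSF : S_SF)
    (hSI : S_SI) (hPhi : S_Phi) (hBar : S_Bar) (hSel : S_Sel) (hCell : S_Cell) (hUn1 : S_Un1)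
    (hUn2 : S_Un2) (hIso : S_Iso) (hSol : S_Sol) (hPrt : S_Prt) (hSkl : S_Skl) (hBit : S_Bit)
    (hPG : S_PG) (hFin0 : S_Fin0) : S_Main0 := by
  intro J _ Γ η m hF hNL hTi hNJ
  obtain ⟨f, an, w, γ, N, hP, hR⟩ := hBu J Γ η hF hTi
  have hU := hUU hHP J Γ η f an w ⟨m⟩ hP
  obtain ⟨l, ρ, nn, hFr⟩ := hFrm hLCon hLin J Γ η f an w hP hU hNL hNJ
  set F : FD J := ⟨Γ, η, f, an, w, l, ρ, nn⟩ with hFdef
  have hS := hSI hNC (hSF hBri) J F hFr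
  obtain ⟨φ, hφ⟩ := hPhi J F hFr hS
  obtain ⟨G, μ, hμ, hG⟩ := hSel J F φ m hFr hφ (hBar J F φ γ N hFr hS hφ hR)
  have hI := hIso J F G hFr hG.inv
  obtain ⟨Q, O, hQ⟩ := hSol J F φ G μ hFr hS hφ hG hI (by
    intro u hu
    obtain ⟨hd, hi⟩ := hCell J F G u hFr hS hu
    obtain ⟨ha, h1⟩ := hUn1 J F φ G μ u hFr hS hG hu hd hi
    obtain ⟨o, ho⟩ := hT _ F.Γ hF.pl _ _ hd ha
    exact ⟨_, h1 o ho.shp, hUn2 hT hUnh J F G u o hFr hG.sub hu hd hi ho (h1 o ho.shp)⟩)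
  obtain ⟨hp, hp'⟩ := hPrt hCell J F G Q O hFr hS hQ
  obtain ⟨nx, pv, hk⟩ := hSkl J F φ G μ Q O hFr hS hφ hG hI hQ hp hp'
  obtain ⟨bit, A, hb⟩ := hBit J _ _ _ nx pv hk.cyc
  obtain ⟨c, hc⟩ := hFin0 hPG J F φ G μ Q O nx pv bit A hFr hφ hG hI hQ hp hk hb
  exact ⟨μ, hμ, c, hc⟩

theorem asm_A2 (hBase : S_Base) (hNrm : S_Nrm) (hCon : S_Con) (hPQ : S_PQ) (hMain : S_Main)
    (hCon2 : S_Con2) (hFin : S_Fin) : S_A2 := by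
  refine hFin hBase ?_
  intro J _ Γ hJ hG
  obtain ⟨η, Fs, x0, dl, hc⟩ := hCon J Γ hJ hG
  obtain ⟨μ, c, h⟩ := hCon2 hPQ hMain J Γ η Fs x0 dl (hNrm J Γ hJ hG).1 hG.nl hc
  exact ⟨dl, μ, c, h⟩

end Pool.Agent.P.MP_08fd93_co.OV
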