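import Pool.Agent.P.MP_08fd93_co.OV.PkPhi

/-! Package Bar of project OV: one edge orbit meets every chain. -/

set_option autoImplicit false

namespace Pool.Agent.P.MP_08fd93_co.OV

namespace PkBarP

open PkPhiP

variable {J : Type} {F : FD J} {φ : Vx J → Vx J} {γ : ℤ → Vx J} {N : ℕ}

theorem an_it_mem (h : Frm F) (t : ℕ) : ∀ {j : ℤ} {x : Vx J}, x ∈ F.L (j + t) →
    F.an^[t] x ∈ F.L j := by
  induction t with
  | zero => intro j x hx; simpa using hx
  | succ t ih =>
    intro j x hx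
    rw [Function.iterate_succ_apply]
    apply ih
    have := an_mem h hx
    have e : j + ((t + 1 : ℕ) : ℤ) - 1 = j + t := by push_cast; ring
    rwa [e] at this

theorem an_it_mono (h : Frm F) (hS : SIF F) (t : ℕ) : ∀ {j : ℤ} {x y : Vx J}, x ∈ F.L j →
    y ∈ F.L j → F.ρ x ≤ F.ρ y → F.ρ (F.an^[t] x) ≤ F.ρ (F.an^[t] y) := by
  induction t with
  | zero => intro j x y _ _ hle; exact hle
  | succ t ih =>
    intro j x y hx hy hle
    rw [Function.iterate_succ_apply, Function.iterate_succ_apply]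
    exact ih (an_mem h hx) (an_mem h hy) (hS.mono j x hx y hy hle)

theorem an_it_tr (h : Frm F) (a : ℤ × ℤ) (t : ℕ) :
    ∀ x, F.an^[t] (tr a x) = tr a (F.an^[t] x) := by
  induction t with
  | zero => intro x; rfl
  | succ t ih =>
    intro x
    rw [Function.iterate_succ_apply, Function.iterate_succ_apply, h.pot.atr, ih]

/-- `z` names the edge `t` levels higher whose shadow contains the edge named by `y`. -/
def UT (F : FD J) (t : ℕ) (y z : Vx J) : Prop :=
  F.ρ (F.an^[t] z) ≤ F.ρ y ∧ F.ρ y < F.ρ (F.an^[t] (F.nx z))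

theorem ut_phi (h : Frm F) (hS : SIF F) (hφ : PH F φ) {j : ℤ} {y : Vx J} (hy : y ∈ F.L j)
    (t : ℕ) : UT F t y (φ^[t] y) := by
  induction t with
  | zero =>
    refine ⟨le_rfl, ?_⟩
    show F.ρ y < F.ρ (F.nx y)
    rw [rho_nx h]; omega
  | succ t ih =>
    have hz := phi_it_mem h hφ hy t
    have hu := hφ.und _ (la_of h hz)
    have hz' := phi_mem h hφ hz
    have e1 : F.an (φ (φ^[t] y)) ∈ F.L (j + t) := by simpa using an_mem h hz'
    have e2 : F.an (F.nx (φ (φ^[t] y))) ∈ F.L (j + t) := by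
      simpa using an_mem h (nx_mem h hz')
    rw [Function.iterate_succ_apply' φ]
    constructor
    · rw [Function.iterate_succ_apply]
      exact (an_it_mono h hS t e1 hz hu.2.1).trans ih.1
    · rw [Function.iterate_succ_apply]
      refine ih.2.trans_le (an_it_mono h hS t (nx_mem h hz) e2 ?_)
      rw [rho_nx h]
      exact hu.2.2

theorem ut_uni (h : Frm F) (hS : SIF F) {t : ℕ} {j : ℤ} {y z z' : Vx J} (hz : z ∈ F.L j)
    (hz' : z' ∈ F.L j) (h1 : UT F t y z) (h2 : UT F t y z') : z = z' := by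
  have key : ∀ z z', z ∈ F.L j → z' ∈ F.L j → UT F t y z → UT F t y z' → ¬ F.ρ z < F.ρ z' := by
    intro z z' hz hz' h1 h2 hlt
    have := an_it_mono h hS t (nx_mem h hz) hz' (by rw [rho_nx h]; omega)
    have h3 := h1.2
    have h4 := h2.1
    omega
  have a1 := key _ _ hz hz' h1 h2
  have a2 := key _ _ hz' hz h2 h1
  exact ext_rho h hz hz' (by omega)

theorem g_up (h : Frm F) (hR : Rid F.f F.an γ N) (i : ℤ) : γ i ∈ F.U i := by
  intro hh
  have key : ∀ n : ℕ, Conn F.Γ {z | i ≤ F.f z} (γ i) (γ (i + n)) := by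
    intro n
    induction n with
    | zero =>
      rw [Nat.cast_zero, add_zero]
      exact Relation.ReflTransGen.refl
    | succ n ih =>
      refine ih.tail ⟨?_, ?_, ?_⟩
      · show i ≤ F.f _
        rw [hR.gf]; omega
      · show i ≤ F.f _
        rw [hR.gf]; omega
      · have h1 := h.pot.aa (γ (i + ((n + 1 : ℕ) : ℤ)))
        rw [hR.ga] at h1
        have e : i + ((n + 1 : ℕ) : ℤ) - 1 = i + n := by push_cast; ring
        rw [e] at h1
        exact h1.symm
  refine ⟨γ (i + ((hh - i).toNat : ℕ)), ?_, key _⟩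
  rw [hR.gf]
  omega

theorem g_mem (h : Frm F) (hR : Rid F.f F.an γ N) (i : ℤ) : γ i ∈ F.L i := by
  have h1 := h.uf.lan (i + 1) _ (g_up h hR (i + 1)) (hR.gf _)
  rw [hR.ga] at h1
  simpa using h1

theorem g_an (hR : Rid F.f F.an γ N) (t : ℕ) : ∀ i, F.an^[t] (γ i) = γ (i - t) := by
  induction t with
  | zero => intro i; simp
  | succ t ih =>
    intro i
    rw [Function.iterate_succ_apply, hR.ga, ih]
    congr 1
    push_cast; ring

theorem g_gs (hR : Rid F.f F.an γ N) (a : ℤ × ℤ) (i i' : ℤ) (e : tr a (γ i) = γ i') (t : ℕ) :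
    tr a (γ (i + t)) = γ (i' + t) := by
  induction t with
  | zero => simpa using e
  | succ t ih =>
    have := hR.gs _ _ _ ih
    push_cast
    rwa [add_assoc, add_assoc] at this

theorem g_per {n : ℤ} {c : ℤ × ℤ} (hp : ∀ i, γ (i + n) = tr c (γ i)) (r : ℤ) :
    ∀ i, γ (i + r * n) = tr (r • c) (γ i) := by
  induction r using Int.induction_on with
  | zero => intro i; simp [tr]
  | succ r ih =>
    intro i
    rw [add_smul, one_smul, ← tr_tr, ← ih, ← hp]
    congr 1
    ring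
  | pred r ih =>
    intro i
    apply tr_inj c
    rw [tr_tr, ← hp, sub_smul, one_smul, sub_add_cancel, ← ih]
    congr 1
    ring

/-- A point of a strand at or before `y` is at or before the shadow of `z`. -/
theorem last (h : Frm F) (hS : SIF F) (hR : Rid F.f F.an γ N) {t : ℕ} {j : ℤ} {y z : Vx J}
    (hz : z ∈ F.L (j + t)) (hu : UT F t y z) (a : ℤ × ℤ) (i : ℤ) (hq : tr a (γ i) ∈ F.L j)
    (hle : F.ρ (tr a (γ i)) ≤ F.ρ y) : F.ρ (tr a (γ i)) ≤ F.ρ (F.an^[t] z) := by
  have hj : i + F.η a = j := by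
    rw [← f_of h hq, h.pot.per, hR.gf]
  have h1 : tr a (γ (i + t)) ∈ F.L (j + t) := by
    have := tr_mem h a (g_mem h hR (i + t))
    have e : i + t + F.η a = j + t := by omega
    rwa [e] at this
  have h2 : F.an^[t] (tr a (γ (i + t))) = tr a (γ i) := by
    rw [an_it_tr h, g_an hR]; simp
  by_cases hc : F.ρ (tr a (γ (i + t))) ≤ F.ρ z
  · have := an_it_mono h hS t h1 hz hc
    rwa [h2] at this
  · have := an_it_mono h hS t (nx_mem h hz) h1 (by rw [rho_nx h]; omega)
    rw [h2] at this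
    have h3 := hu.2
    omega

end PkBarP

open PkPhiP PkBarP in
theorem pk_Bar : S_Bar := by
  intro J F φ γ N h hS hφ hR k
  obtain ⟨n, c0, hn, hp⟩ := hR.gp
  refine ⟨φ^[N] (γ (k - N)), ?_, N + n.toNat, fun y hy => ?_⟩
  · simpa using phi_it_mem h hφ (g_mem h hR (k - N)) N
  have hy' : y ∈ F.L (F.f y) := hy
  set j := F.f y with hj
  obtain ⟨i, c, hic⟩ := hR.reach (φ^[N] y)
  have hq0 : 0 ≤ (k - N - i) % n := Int.emod_nonneg _ (by omega)
  have hq1 : (k - N - i) % n < n := Int.emod_lt_of_pos _ hn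
  have hq2 := Int.emod_add_mul_ediv (k - N - i) n
  obtain ⟨s, hs⟩ := Int.eq_ofNat_of_zero_le hq0
  set m := (k - N - i) / n with hm
  have hzN := phi_it_mem h hφ hy' N
  have huN := ut_phi h hS hφ hy' N
  have hzt := phi_it_mem h hφ hy' (s + N)
  have hut := ut_phi h hS hφ hy' (s + N)
  set z := φ^[s + N] y with hz
  obtain ⟨i', c', hic'⟩ := hR.reach z
  have hpt : F.an^[s + N] z = tr c' (γ (i' - s)) := by
    rw [Function.iterate_add_apply, hic', an_it_tr h, g_an hR]
  have hpL : tr c (γ i) ∈ F.L j := hic ▸ an_it_mem h N hzN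
  have hptL : tr c' (γ (i' - s)) ∈ F.L j := hpt ▸ an_it_mem h (s + N) hzt
  have l1 := last h hS hR hzt hut c i hpL (hic ▸ huN.1)
  have l2 := last h hS hR hzN huN c' (i' - s) hptL (hpt ▸ hut.1)
  rw [hpt] at l1
  rw [hic] at l2
  have hpp : tr c' (γ (i' - s)) = tr c (γ i) := ext_rho h hptL hpL (by omega)
  have h1 : tr (c' - c) (γ (i' - s)) = γ i := by
    apply tr_inj c
    rw [tr_tr, sub_add_cancel, hpp]
  have h2 := g_gs hR _ _ _ h1 s
  rw [sub_add_cancel] at h2
  have h3 : γ (i + s) = tr ((-m) • c0) (γ (k - N)) := by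
    rw [← g_per hp]
    congr 1
    rw [neg_mul, mul_comm m]
    omega
  have hu : F.an^[N] z = tr ((-m) • c0 + c) (γ (k - N)) := by
    rw [hic', ← tr_tr, ← h3, ← h2, tr_tr, sub_add_cancel]
  refine ⟨s + N, by omega, (-m) • c0 + c, ?_⟩
  rw [← phi_it_tr h hφ _ (la_of h (g_mem h hR (k - N))), ← hu]
  have hzt' : z ∈ F.L (j + s + N) := by
    have e : j + ((s + N : ℕ) : ℤ) = j + s + N := by push_cast; ring
    rwa [e] at hzt
  have huL : F.an^[N] z ∈ F.L (j + s) := an_it_mem h N hzt'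
  refine ut_uni h hS hzt' (phi_it_mem h hφ huL N) ⟨le_rfl, ?_⟩ (ut_phi h hS hφ huL N)
  have h4 := an_it_mono h hS N hzt' (nx_mem h hzt') (by rw [rho_nx h]; omega)
  refine lt_of_le_of_ne h4 fun e => ?_
  have h5 : F.an^[N] z = F.an^[N] (F.nx z) :=
    ext_rho h huL (an_it_mem h N (nx_mem h hzt')) e
  have h6 := hut.1
  have h7 := hut.2
  rw [Function.iterate_add_apply] at h6 h7
  rw [h5] at h6
  omega

end Pool.Agent.P.MP_08fd93_co.OV
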