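import Pool.Agent.P.MP_08fd93_co.OV.St2

/-! Package Bit of project OV: the periodic two-colouring of the skeleton lines. -/

set_option autoImplicit false

namespace Pool.Agent.P.MP_08fd93_co.OV

namespace PkBitP

variable {J : Type} {K G C : Set (Vx J)} {nx pv : Vx J → Vx J}

theorem tr_neg (a : ℤ × ℤ) (x : Vx J) : tr (-a) (tr a x) = x := by
  simp [tr]

theorem it_mem (h : Cyc K G C nx pv) {x : Vx J} (hx : x ∈ K) (t : ℕ) : nx^[t] x ∈ K := by
  induction t with
  | zero => exact hx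
  | succ t ih => rw [Function.iterate_succ_apply']; exact (h.kn _ ih).1

theorem it_tr (h : Cyc K G C nx pv) (a : ℤ × ℤ) {x : Vx J} (hx : x ∈ K) (t : ℕ) :
    nx^[t] (tr a x) = tr a (nx^[t] x) := by
  induction t with
  | zero => rfl
  | succ t ih =>
    rw [Function.iterate_succ_apply', Function.iterate_succ_apply', ih]
    exact (h.kt a _ (it_mem h hx t)).2.1

theorem g_tr (h : Cyc K G C nx pv) (a : ℤ × ℤ) (x : Vx J) : tr a x ∈ G ↔ x ∈ G :=
  ⟨fun hx => by simpa [tr_neg] using h.gt (-a) _ hx, h.gt a x⟩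

theorem c_tr (h : Cyc K G C nx pv) (a : ℤ × ℤ) (x : Vx J) : tr a x ∈ C ↔ x ∈ C :=
  ⟨fun hx => by simpa [tr_neg] using h.ct (-a) _ hx, h.ct a x⟩

/-- The number of steps to the next free edge. -/
noncomputable def tt (G : Set (Vx J)) (nx : Vx J → Vx J) (x : Vx J) : ℕ :=
  sInf {t | nx^[t] x ∈ G}

theorem tt_mem (h : Cyc K G C nx pv) {x : Vx J} (hx : x ∈ K) : nx^[tt G nx x] x ∈ G :=
  Nat.sInf_mem (s := {t | nx^[t] x ∈ G}) (h.h1 x hx)

theorem tt_le {x : Vx J} {t : ℕ} (ht : nx^[t] x ∈ G) : tt G nx x ≤ t :=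
  Nat.sInf_le (s := {t | nx^[t] x ∈ G}) ht

theorem tt_tr (h : Cyc K G C nx pv) (a : ℤ × ℤ) {x : Vx J} (hx : x ∈ K) :
    tt G nx (tr a x) = tt G nx x := by
  unfold tt
  congr 1
  ext t
  simp only [Set.mem_ofPred_eq, it_tr h a hx, g_tr h]

theorem tt_zero {x : Vx J} (hx : x ∈ G) : tt G nx x = 0 :=
  Nat.le_zero.1 (tt_le (t := 0) hx)

theorem tt_succ (h : Cyc K G C nx pv) {x : Vx J} (hx : x ∈ K) (hg : x ∉ G) :
    tt G nx x = tt G nx (nx x) + 1 := by
  apply le_antisymm
  · apply tt_le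
    rw [Function.iterate_succ_apply]
    exact tt_mem h (h.kn x hx).1
  · have h0 := tt_mem h hx
    cases ht : tt G nx x with
    | zero => rw [ht] at h0; exact absurd h0 hg
    | succ t =>
      rw [ht, Function.iterate_succ_apply] at h0
      exact Nat.succ_le_succ (tt_le h0)

/-- A centre edge comes before the next free edge. -/
def Ah (G C : Set (Vx J)) (nx : Vx J → Vx J) (x : Vx J) : Prop :=
  ∃ t, t < tt G nx x ∧ nx^[t] x ∈ C

theorem ah_tr (h : Cyc K G C nx pv) (a : ℤ × ℤ) {x : Vx J} (hx : x ∈ K) :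
    Ah G C nx (tr a x) ↔ Ah G C nx x := by
  unfold Ah
  simp only [tt_tr h a hx, it_tr h a hx, c_tr h]

/-- The length of the period. -/
noncomputable def ep (G : Set (Vx J)) (nx : Vx J → Vx J) (x : Vx J) : ℕ :=
  tt G nx (nx (nx^[tt G nx x] x)) + 1

theorem ep_tr (h : Cyc K G C nx pv) (a : ℤ × ℤ) {x : Vx J} (hx : x ∈ K) :
    ep G nx (tr a x) = ep G nx x := by
  unfold ep
  have h1 := it_mem h hx (tt G nx x)
  rw [tt_tr h a hx, it_tr h a hx, (h.kt a _ h1).2.1, tt_tr h a (h.kn _ h1).1]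

open Classical in
/-- The number whose parity is the colour. -/
noncomputable def nq (G C : Set (Vx J)) (nx : Vx J → Vx J) (x : Vx J) : ℕ :=
  tt G nx x + if Ah G C nx x then ep G nx x else 0

theorem nb_tr (h : Cyc K G C nx pv) (a : ℤ × ℤ) {x : Vx J} (hx : x ∈ K) :
    nq G C nx (tr a x) = nq G C nx x := by
  unfold nq
  rw [tt_tr h a hx, ep_tr h a hx]
  by_cases hA : Ah G C nx x
  · rw [if_pos hA, if_pos ((ah_tr h a hx).2 hA)]
  · rw [if_neg hA, if_neg (fun h' => hA ((ah_tr h a hx).1 h'))]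

theorem base (x : Vx J) : (x.1, (0 : ℤ × ℤ)) = tr (-x.2) x := by
  simp [tr]

theorem nb_base (h : Cyc K G C nx pv) {x : Vx J} (hx : x ∈ K) :
    nq G C nx (x.1, 0) = nq G C nx x := by
  rw [base, nb_tr h _ hx]

theorem ah_base (h : Cyc K G C nx pv) {x : Vx J} (hx : x ∈ K) :
    Ah G C nx (x.1, 0) ↔ Ah G C nx x := by
  rw [base, ah_tr h _ hx]

theorem ah_succ (h : Cyc K G C nx pv) {x : Vx J} (hx : x ∈ K) (hg : x ∉ G)
    (ha : Ah G C nx (nx x)) : Ah G C nx x := by
  obtain ⟨t, ht, hc⟩ := ha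
  refine ⟨t + 1, ?_, ?_⟩
  · rw [tt_succ h hx hg]; omega
  · rw [Function.iterate_succ_apply]; exact hc

theorem ah_pred (h : Cyc K G C nx pv) {x : Vx J} (hx : x ∈ K) (hg : x ∉ G) (hc : x ∉ C)
    (ha : Ah G C nx x) : Ah G C nx (nx x) := by
  obtain ⟨t, ht, hc'⟩ := ha
  cases t with
  | zero => exact absurd hc' hc
  | succ t =>
    rw [tt_succ h hx hg] at ht
    rw [Function.iterate_succ_apply] at hc'
    exact ⟨t, by omega, hc'⟩

theorem not_ah_c (h : Cyc K G C nx pv) {x : Vx J} (hx : x ∈ C) : ¬ Ah G C nx (nx x) := by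
  rintro ⟨t, ht, hc⟩
  rw [← Function.iterate_succ_apply] at hc
  obtain ⟨a, ha, t', ht', hg⟩ := h.h3 x hx t hc
  cases t' with
  | zero =>
    have h1 : nx^[t] (nx x) ∈ G := by
      rw [← Function.iterate_succ_apply]
      show nx^[t + 1] x ∈ G
      rw [ha]; exact h.gt a x hg
    have := tt_le h1
    omega
  | succ t' =>
    rw [Function.iterate_succ_apply] at hg
    have := tt_le hg
    omega

theorem nb_alt (h : Cyc K G C nx pv) {x : Vx J} (hx : x ∈ K) (hc : x ∉ C) :
    nq G C nx (nx x) % 2 ≠ nq G C nx x % 2 := by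
  have hn := (h.kn x hx).1
  by_cases hg : x ∈ G
  · have h0 : nq G C nx x = 0 := by
      unfold nq
      rw [if_neg, tt_zero hg]
      rintro ⟨t, ht, -⟩
      rw [tt_zero hg] at ht
      omega
    have hT := tt_mem h hn
    rw [← Function.iterate_succ_apply] at hT
    obtain ⟨a, ha⟩ := h.h4 x hg _ hT
    have hA : Ah G C nx (nx x) := by
      obtain ⟨t, hc', hm⟩ := h.h2 x hg
      refine ⟨t, ?_, by rw [← Function.iterate_succ_apply]; exact hc'⟩
      rcases lt_trichotomy t (tt G nx (nx x)) with h1 | h1 | h1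
      · exact h1
      · exfalso
        apply hc
        rw [← c_tr h a, ← ha, ← h1]
        exact hc'
      · exact absurd hT (hm _ h1)
    have he : ep G nx (nx x) = tt G nx (nx x) + 1 := by
      unfold ep
      rw [← Function.iterate_succ_apply nx (tt G nx (nx x)) x, ha, (h.kt a x hx).2.1,
        tt_tr h a hn]
    have h1 : nq G C nx (nx x) = tt G nx (nx x) + (tt G nx (nx x) + 1) := by
      unfold nq
      rw [if_pos hA, he]
    rw [h0, h1]
    omega
  · have ht := tt_succ h hx hg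
    have he : ep G nx x = ep G nx (nx x) := by
      unfold ep
      rw [ht, Function.iterate_succ_apply]
    unfold nq
    by_cases hA : Ah G C nx x
    · rw [if_pos hA, if_pos (ah_pred h hx hg hc hA), ht, he]
      omega
    · rw [if_neg hA, if_neg (fun h' => hA (ah_succ h hx hg h')), ht]
      omega

end PkBitP

open PkBitP in
theorem pk_Bit : S_Bit := by
  intro J K G C nx pv h
  refine ⟨fun u => decide (nq G C nx (u, 0) % 2 = 1), {u | Ah G C nx (u, 0)}, ?_, ?_, ?_, ?_, ?_⟩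
  · intro x hx hc
    have hn := (h.kn x hx).1
    have := nb_alt h hx hc
    simp only [nb_base h hx, nb_base h hn, ne_eq, decide_eq_decide]
    omega
  · intro x hx hA
    obtain ⟨t, ht, -⟩ := (ah_base h (h.gk hx)).1 hA
    rw [tt_zero hx] at ht
    omega
  · intro x hx hg
    refine (ah_base h (h.ck hx)).2 ⟨0, ?_, hx⟩
    rw [tt_succ h (h.ck hx) hg]
    omega
  · intro x hx hA
    exact not_ah_c h hx ((ah_base h (h.kn x (h.ck hx)).1).1 hA)
  · intro x hx hg hA hA'
    exact hA ((ah_base h hx).2 (ah_succ h hx hg ((ah_base h (h.kn x hx).1).1 hA')))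

end Pool.Agent.P.MP_08fd93_co.OV
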