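import Pool.Agent.P.MP_08fd93_co.OV.St2

/-! Package Bri of project OV: a finite bridge touches at most two periodic connected sets. -/

set_option autoImplicit false

namespace Pool.Agent.P.MP_08fd93_co.OV

namespace PkBriP

variable {J : Type} {Γ : SimpleGraph (Vx J)}

theorem tr_tr (a b : ℤ × ℤ) (x : Vx J) : tr b (tr a x) = tr (a + b) x := by
  simp [tr, add_assoc]

theorem tr_zero (x : Vx J) : tr 0 x = x := by
  simp [tr]

theorem conn_tr (hF : Fine Γ) (c : ℤ × ℤ) {P : Set (Vx J)} (hP : IsConn Γ P) :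
    IsConn Γ (tr c '' P) := by
  rintro _ ⟨a, ha, rfl⟩ _ ⟨b, hb, rfl⟩
  have h := hP a ha b hb
  clear hb
  induction h with
  | refl => exact Relation.ReflTransGen.refl
  | tail _ h ih =>
    exact Relation.ReflTransGen.tail ih ⟨⟨_, h.1, rfl⟩, ⟨_, h.2.1, rfl⟩, hF.inv c _ _ h.2.2⟩

theorem mem_mul {g : ℤ × ℤ} {A : Set (Vx J)} (hA : ∀ x, tr g x ∈ A ↔ x ∈ A) (k : ℕ) (x : Vx J) :
    tr (k • g) x ∈ A ↔ x ∈ A := by
  induction k with
  | zero => rw [zero_smul, tr_zero]
  | succ k ih => rw [succ_nsmul, ← tr_tr, hA, ih]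

theorem far {g : ℤ × ℤ} (hg : g ≠ 0) {P : Set (Vx J)} (hP : P.Finite) :
    ∃ N : ℕ, ∀ k : ℕ, N ≤ k → ∀ x ∈ P, tr (k • g) x ∉ P := by
  have hinj : Function.Injective fun k : ℕ => k • g := by
    intro k k' h
    have h1 : ((k : ℤ)) • g = ((k' : ℤ)) • g := by
      rw [natCast_zsmul, natCast_zsmul]
      exact h
    exact_mod_cast smul_left_injective ℤ hg h1
  have hfin : ((fun k : ℕ => k • g) ⁻¹'
      (Set.image2 (fun x y : Vx J => y.2 - x.2) P P)).Finite :=
    (hP.image2 _ hP).preimage hinj.injOn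
  obtain ⟨B, hB⟩ := hfin.bddAbove
  refine ⟨B + 1, fun k hk x hx hy => ?_⟩
  have : k ≤ B := hB ⟨x, hx, _, hy, by simp [tr]⟩
  omega

end PkBriP

open PkBriP in
theorem pk_Bri : S_Bri := by
  intro J Γ hF g hg A0 A1 A2 P c0 c1 c2 d01 d02 d12 i0 i1 i2 hfin hP p0 p1 p2 t0 t1 t2
  obtain ⟨N, hN⟩ := far hg hfin
  let A : Fin 3 → Set (Vx J) := ![A0, A1, A2]
  have hc : ∀ i, IsConn Γ (A i) := by
    intro i
    fin_cases i
    exacts [c0, c1, c2]
  have hi : ∀ i x, tr g x ∈ A i ↔ x ∈ A i := by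
    intro i
    fin_cases i
    exacts [i0, i1, i2]
  have hp : ∀ i, Disjoint P (A i) := by
    intro i
    fin_cases i
    exacts [p0, p1, p2]
  have ht : ∀ i, Touch Γ P (A i) := by
    intro i
    fin_cases i
    exacts [t0, t1, t2]
  have hd : ∀ i j, i ≠ j → Disjoint (A i) (A j) := by
    intro i j hij
    fin_cases i <;> fin_cases j <;>
      first
        | exact absurd rfl hij
        | exact d01
        | exact d02
        | exact d12
        | exact d01.symm
        | exact d02.symm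
        | exact d12.symm
  have hy : ∀ i j : ℕ, i < j → Disjoint (tr ((i * N) • g) '' P) (tr ((j * N) • g) '' P) := by
    intro i j hij
    rw [Set.disjoint_left]
    rintro _ ⟨x, hx, rfl⟩ ⟨y, hy, e⟩
    obtain ⟨d, rfl⟩ : ∃ d, j = i + (d + 1) := ⟨j - i - 1, by omega⟩
    have e1 : tr (((d + 1) * N) • g) y = x := by
      have := congrArg (tr (-((i * N) • g))) e
      rw [tr_tr, tr_tr, add_neg_cancel, tr_zero, add_mul i, add_nsmul, add_neg_cancel_comm] at this
      exact this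
    refine hN ((d + 1) * N) (Nat.le_mul_of_pos_left N (by omega)) y hy ?_
    rw [e1]
    exact hx
  apply hF.pl.k33
  refine ⟨A, fun j => tr (((j : ℕ) * N) • g) '' P, ?_, ?_, ?_⟩
  · intro i
    exact ⟨Set.subset_univ _, hc i, Set.subset_univ _, conn_tr hF _ hP⟩
  · intro i j hij
    refine ⟨hd i j hij, ?_⟩
    rcases lt_or_gt_of_ne hij with h | h
    · exact hy i j h
    · exact (hy j i h).symm
  · intro i j
    constructor
    · rw [Set.disjoint_left]
      rintro _ ha ⟨x, hx, rfl⟩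
      exact Set.disjoint_left.1 (hp i) hx ((mem_mul (hi i) _ x).1 ha)
    · obtain ⟨x, hx, a, ha, hxa⟩ := ht i
      exact ⟨_, (mem_mul (hi i) ((j : ℕ) * N) a).2 ha, _, ⟨x, hx, rfl⟩, hF.inv _ _ _ hxa.symm⟩

end Pool.Agent.P.MP_08fd93_co.OV
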