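import Pool.Agent.P.MP_08fd93_co.OV.St2

/-! Package Bus of project OV: the height function of a tight graph. -/

set_option autoImplicit false

namespace Pool.Agent.P.MP_08fd93_co.OV

namespace PkBusP

variable {J : Type} {Γ : SimpleGraph (Vx J)}

theorem tr_tr (a b : ℤ × ℤ) (x : Vx J) : tr b (tr a x) = tr (a + b) x := by
  simp [tr, add_assoc]

theorem tr_zero (x : Vx J) : tr 0 x = x := by
  simp [tr]

theorem tr_cancel {a b : ℤ × ℤ} {x : Vx J} (h : tr a x = tr b x) : a = b := by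
  have := congrArg Prod.snd h
  simpa [tr] using this

theorem tr_base (x : Vx J) : tr x.2 ((x.1, 0) : Vx J) = x := by
  simp [tr]

theorem reach (hF : Fine Γ) (x y : Vx J) : Γ.Reachable x y := by
  have h := hF.pl.conn x (Set.mem_univ _) y (Set.mem_univ _)
  induction h with
  | refl => exact SimpleGraph.Reachable.refl _
  | tail _ h ih => exact ih.trans h.2.2.reachable

theorem tri (hF : Fine Γ) (x y z : Vx J) : Γ.dist x z ≤ Γ.dist x y + Γ.dist y z :=
  (reach hF x y).dist_triangle_left z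

theorem dist_tr_le (hF : Fine Γ) (a : ℤ × ℤ) (x y : Vx J) :
    Γ.dist (tr a x) (tr a y) ≤ Γ.dist x y := by
  obtain ⟨p, hp⟩ := (reach hF x y).exists_walk_length_eq_dist
  let g : Γ →g Γ := ⟨tr a, fun h => hF.inv a _ _ h⟩
  have := SimpleGraph.dist_le (p.map g)
  rw [SimpleGraph.Walk.length_map, hp] at this
  exact this

theorem dist_tr (hF : Fine Γ) (a : ℤ × ℤ) (x y : Vx J) :
    Γ.dist (tr a x) (tr a y) = Γ.dist x y := by
  apply le_antisymm (dist_tr_le hF a x y)
  have := dist_tr_le hF (-a) (tr a x) (tr a y)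
  rwa [tr_tr, tr_tr, add_neg_cancel, tr_zero, tr_zero] at this

theorem dist_adj (hF : Fine Γ) (z : Vx J) {x y : Vx J} (h : Γ.Adj x y) :
    Γ.dist z y ≤ Γ.dist z x + 1 := by
  have := tri hF z x y
  rwa [SimpleGraph.dist_eq_one_iff_adj.2 h] at this

theorem dist_pred (hF : Fine Γ) {z x : Vx J} {m : ℕ} (h : Γ.dist z x = m + 1) :
    ∃ y, Γ.Adj x y ∧ Γ.dist z y = m := by
  obtain ⟨p, hp⟩ := (reach hF x z).exists_walk_length_eq_dist
  rw [SimpleGraph.dist_comm, h] at hp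
  cases p with
  | nil => simp at hp
  | cons hadj q =>
    rename_i y
    refine ⟨y, hadj, ?_⟩
    have h1 := SimpleGraph.dist_le q
    rw [SimpleGraph.dist_comm] at h1
    have h2 := dist_adj hF z hadj.symm
    rw [SimpleGraph.Walk.length_cons] at hp
    omega

/-- A shortest tight closed walk, unrolled. -/
structure Ln (Γ : SimpleGraph (Vx J)) (η : ℤ × ℤ →+ ℤ) (l : ℤ → Vx J) (n : ℕ) (c : ℤ × ℤ) :
    Prop where
  pos : 0 < n
  ec : η c = n
  adj : ∀ i, Γ.Adj (l i) (l (i + 1))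
  per : ∀ i, l (i + n) = tr c (l i)
  dle : ∀ i j, Γ.dist (l i) (l j) ≤ (i - j).natAbs
  min : ∀ (r : ℕ) x a, 0 < r → η a = r → Γ.dist x (tr a x) ≤ r → n ≤ r

variable {η : ℤ × ℤ →+ ℤ} {l : ℤ → Vx J} {n : ℕ} {c : ℤ × ℤ}

theorem exists_ln (hPer : S_Per) (hF : Fine Γ) (hT : Tight Γ η) : ∃ l n c, Ln Γ η l n c := by
  classical
  have hex : ∃ r : ℕ, ∃ x a, 0 < r ∧ η a = r ∧ Γ.dist x (tr a x) ≤ r := by
    obtain ⟨x, a, h1, h2⟩ := hT.ex
    refine ⟨(η a).toNat, x, a, by omega, by omega, by omega⟩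
  obtain ⟨x, a, h1, h2, h3⟩ := Nat.find_spec hex
  have h4 := hT.le x a
  obtain ⟨l, -, l1, l2, l3⟩ := hPer J Γ hF x a (Nat.find hex) (by omega) h1
  exact ⟨l, Nat.find hex, a, h1, h2, l1, l2, l3,
    fun r x a a1 a2 a3 => Nat.find_min' hex ⟨x, a, a1, a2, a3⟩⟩

theorem per_mul (hL : Ln Γ η l n c) (k i : ℤ) : l (i + k * n) = tr (k • c) (l i) := by
  induction k using Int.induction_on with
  | zero => simp [tr_zero]
  | succ k ih =>
    have e : i + ((k : ℤ) + 1) * n = i + k * n + n := by ring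
    rw [e, hL.per, ih, tr_tr, add_smul, one_smul]
  | pred k ih =>
    have e : i + (-(k : ℤ)) * n = i + (-(k : ℤ) - 1) * n + n := by ring
    rw [e, hL.per] at ih
    have := congrArg (tr (-c)) ih
    rw [tr_tr, tr_tr, add_neg_cancel, tr_zero] at this
    rw [this, sub_smul, one_smul, sub_eq_add_neg]

theorem key (hF : Fine Γ) (hT : Tight Γ η) (hL : Ln Γ η l n c) (i j : ℤ) (a : ℤ × ℤ) :
    j ≤ i + η a + Γ.dist (tr a (l i)) (l j) := by
  obtain ⟨k, hk⟩ : ∃ k : ℤ, j ≤ i + k * n := by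
    refine ⟨((j - i).natAbs : ℤ), ?_⟩
    have h1 : (1 : ℤ) ≤ n := by have := hL.pos; omega
    have h2 : (0 : ℤ) ≤ ((j - i).natAbs : ℤ) := by omega
    have h3 : ((j - i).natAbs : ℤ) * 1 ≤ ((j - i).natAbs : ℤ) * n :=
      mul_le_mul_of_nonneg_left h1 h2
    omega
  have h1 := hT.le (tr a (l i)) (k • c - a)
  have e : tr (k • c - a) (tr a (l i)) = l (i + k * n) := by
    rw [tr_tr, per_mul hL, add_sub_cancel]
  rw [e, map_sub, map_zsmul, hL.ec, smul_eq_mul] at h1
  have h2 := tri hF (tr a (l i)) (l j) (l (i + k * n))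
  have h3 := hL.dle j (i + k * n)
  omega

/-- The values whose least element is the height. -/
def Wt (Γ : SimpleGraph (Vx J)) (η : ℤ × ℤ →+ ℤ) (l : ℤ → Vx J) (x : Vx J) (z : ℤ) : Prop :=
  ∃ i a, z = i + η a + Γ.dist (tr a (l i)) x

theorem exists_f (hF : Fine Γ) (hT : Tight Γ η) (hL : Ln Γ η l n c) :
    ∃ f : Vx J → ℤ, ∀ x, Wt Γ η l x (f x) ∧ ∀ z, Wt Γ η l x z → f x ≤ z := by
  have h : ∀ x, ∃ b : ℤ, Wt Γ η l x b ∧ ∀ z, Wt Γ η l x z → b ≤ z := by
    intro x
    apply Int.exists_least_of_bdd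
    · refine ⟨-(Γ.dist x (l 0) : ℤ), ?_⟩
      rintro z ⟨i, a, rfl⟩
      have h1 := key hF hT hL i 0 a
      have h2 := tri hF (tr a (l i)) x (l 0)
      omega
    · exact ⟨_, 0, 0, rfl⟩
  choose f hf using h
  exact ⟨f, hf⟩

/-- The height function. -/
def IsF (Γ : SimpleGraph (Vx J)) (η : ℤ × ℤ →+ ℤ) (l : ℤ → Vx J) (f : Vx J → ℤ) : Prop :=
  ∀ x, Wt Γ η l x (f x) ∧ ∀ z, Wt Γ η l x z → f x ≤ z

variable {f : Vx J → ℤ}

theorem f_line (hF : Fine Γ) (hT : Tight Γ η) (hL : Ln Γ η l n c) (hf : IsF Γ η l f) (j : ℤ) :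
    f (l j) = j := by
  apply le_antisymm
  · apply (hf _).2
    refine ⟨j, 0, ?_⟩
    rw [tr_zero, SimpleGraph.dist_self, map_zero]
    simp
  · obtain ⟨i, a, h⟩ := (hf (l j)).1
    rw [h]
    exact key hF hT hL i j a

theorem f_per_le (hF : Fine Γ) (hf : IsF Γ η l f) (b : ℤ × ℤ) (x : Vx J) :
    f (tr b x) ≤ f x + η b := by
  obtain ⟨i, a, h⟩ := (hf x).1
  apply (hf _).2
  refine ⟨i, a + b, ?_⟩
  rw [← tr_tr, dist_tr hF, h, map_add]
  ring

theorem f_per (hF : Fine Γ) (hf : IsF Γ η l f) (b : ℤ × ℤ) (x : Vx J) :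
    f (tr b x) = f x + η b := by
  apply le_antisymm (f_per_le hF hf b x)
  have := f_per_le hF hf (-b) (tr b x)
  rw [tr_tr, add_neg_cancel, tr_zero, map_neg] at this
  omega

theorem f_lip (hF : Fine Γ) (hf : IsF Γ η l f) {x y : Vx J} (h : Γ.Adj x y) :
    f y ≤ f x + 1 := by
  obtain ⟨i, a, e⟩ := (hf x).1
  have h1 := (hf y).2 _ ⟨i, a, rfl⟩
  have h2 := dist_adj hF (tr a (l i)) h
  omega

/-- Two points of the line in one orbit differ by a multiple of the period. -/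
theorem shift (hF : Fine Γ) (hT : Tight Γ η) (hL : Ln Γ η l n c) (hf : IsF Γ η l f)
    {a : ℤ × ℤ} {i i' : ℤ} (h : tr a (l i) = l i') (m : ℤ) : tr a (l (i + m)) = l (i' + m) := by
  have h1 : i' = i + η a := by
    have := f_per hF hf a (l i)
    rw [h, f_line hF hT hL hf, f_line hF hT hL hf] at this
    exact this
  have hn : (0 : ℤ) < n := by have := hL.pos; omega
  have d1 := Int.emod_nonneg (η a) (ne_of_gt hn)
  have d2 := Int.emod_lt_of_pos (η a) hn
  have d3 := Int.emod_add_ediv_mul (η a) n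
  set r := η a % n with hr
  set k := η a / n with hk
  have e1 : l (i + r) = tr (a - k • c) (l i) := by
    have e2 : i' = i + r + k * n := by omega
    rw [e2, per_mul hL] at h
    have := congrArg (tr (-(k • c))) h
    rw [tr_tr, tr_tr, add_neg_cancel, tr_zero] at this
    rw [← this, sub_eq_add_neg]
  have e3 : η (a - k • c) = r := by
    rw [map_sub, map_zsmul, hL.ec, smul_eq_mul]
    omega
  have r0 : r = 0 := by
    by_contra hne
    have h2 := hL.dle i (i + r)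
    rw [e1] at h2
    have := hL.min r.toNat (l i) (a - k • c) (by omega) (by omega) (by omega)
    omega
  rw [r0, add_zero] at e1
  have e4 : a = k • c := by
    have e5 : tr 0 (l i) = tr (a - k • c) (l i) := by rw [tr_zero]; exact e1
    have := tr_cancel e5
    exact (sub_eq_zero.1 this.symm)
  have e6 : i' + m = i + m + k * n := by omega
  rw [e6, per_mul hL, e4]

/-- The distances of minimal witnesses. -/
def Ds (Γ : SimpleGraph (Vx J)) (η : ℤ × ℤ →+ ℤ) (l : ℤ → Vx J) (f : Vx J → ℤ) (x : Vx J) :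
    Set ℕ := {m | ∃ i a, Γ.dist (tr a (l i)) x = m ∧ f x = i + η a + m}

/-- The points on translates of the line. -/
def St (l : ℤ → Vx J) (x : Vx J) : Prop := ∃ i a, x = tr a (l i)

/-- The specification of the parent. -/
structure Par (Γ : SimpleGraph (Vx J)) (η : ℤ × ℤ →+ ℤ) (l : ℤ → Vx J) (f : Vx J → ℤ)
    (x y : Vx J) : Prop where
  adj : Γ.Adj x y
  fy : f y = f x - 1
  st : ∀ i a, x = tr a (l i) → y = tr a (l (i - 1))
  lt : ¬ St l x → sInf (Ds Γ η l f y) < sInf (Ds Γ η l f x)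

theorem ds_tr (hF : Fine Γ) (hf : IsF Γ η l f) (b : ℤ × ℤ) (x : Vx J) :
    Ds Γ η l f (tr b x) = Ds Γ η l f x := by
  have h : ∀ b x, Ds Γ η l f x ⊆ Ds Γ η l f (tr b x) := by
    rintro b x m ⟨i, a, h1, h2⟩
    refine ⟨i, a + b, ?_, ?_⟩
    · rw [← tr_tr, dist_tr hF, h1]
    · rw [f_per hF hf, h2, map_add]
      ring
  apply Set.Subset.antisymm _ (h b x)
  have := h (-b) (tr b x)
  rwa [tr_tr, add_neg_cancel, tr_zero] at this

theorem ds_ne (hf : IsF Γ η l f) (x : Vx J) : (Ds Γ η l f x).Nonempty := by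
  obtain ⟨i, a, h⟩ := (hf x).1
  exact ⟨_, i, a, rfl, h⟩

theorem st_of_zero (hF : Fine Γ) (hf : IsF Γ η l f) {x : Vx J} (h : sInf (Ds Γ η l f x) = 0) :
    St l x := by
  have := Nat.sInf_mem (ds_ne hf x)
  rw [h] at this
  obtain ⟨i, a, h1, -⟩ := this
  exact ⟨i, a, ((reach hF _ _).dist_eq_zero_iff.1 h1).symm⟩

theorem par_tr (hF : Fine Γ) (hf : IsF Γ η l f) (b : ℤ × ℤ) {x y : Vx J} (h : Par Γ η l f x y) :
    Par Γ η l f (tr b x) (tr b y) := by
  refine ⟨hF.inv b _ _ h.adj, ?_, ?_, ?_⟩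
  · rw [f_per hF hf, f_per hF hf, h.fy]
    ring
  · intro i a e
    have e1 : x = tr (a - b) (l i) := by
      have := congrArg (tr (-b)) e
      rw [tr_tr, tr_tr, add_neg_cancel, tr_zero] at this
      rw [this, sub_eq_add_neg]
    rw [h.st i _ e1, tr_tr, sub_add_cancel]
  · intro hs
    rw [ds_tr hF hf, ds_tr hF hf]
    apply h.lt
    rintro ⟨i, a, e⟩
    exact hs ⟨i, a + b, by rw [e, tr_tr]⟩

theorem exists_par (hF : Fine Γ) (hT : Tight Γ η) (hL : Ln Γ η l n c) (hf : IsF Γ η l f)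
    (x : Vx J) : ∃ y, Par Γ η l f x y := by
  by_cases hs : St l x
  · obtain ⟨i, a, rfl⟩ := hs
    refine ⟨tr a (l (i - 1)), ?_, ?_, ?_, fun h => absurd ⟨i, a, rfl⟩ h⟩
    · apply hF.inv
      have := hL.adj (i - 1)
      rw [sub_add_cancel] at this
      exact this.symm
    · rw [f_per hF hf, f_per hF hf, f_line hF hT hL hf, f_line hF hT hL hf]
      ring
    · intro i' a' e
      have e1 : tr (a - a') (l i) = l i' := by
        have := congrArg (tr (-a')) e
        rw [tr_tr, tr_tr, add_neg_cancel, tr_zero] at this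
        rw [← this, sub_eq_add_neg]
      have e2 := shift hF hT hL hf e1 (-1)
      rw [sub_eq_add_neg i', ← e2, tr_tr, sub_add_cancel, sub_eq_add_neg]
  · have hm := Nat.sInf_mem (ds_ne hf x)
    have hz : sInf (Ds Γ η l f x) ≠ 0 := fun h => hs (st_of_zero hF hf h)
    obtain ⟨m, hm'⟩ := Nat.exists_eq_succ_of_ne_zero hz
    rw [hm'] at hm
    obtain ⟨i, a, h1, h2⟩ := hm
    obtain ⟨y, hy, hd⟩ := dist_pred hF h1
    have a1 := (hf y).2 _ ⟨i, a, rfl⟩
    have a2 := f_lip hF hf hy.symm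
    rw [hd] at a1
    push_cast at h2
    have a3 : f y = i + η a + m := by omega
    refine ⟨y, hy, by omega, fun i a e => absurd ⟨i, a, e⟩ hs, fun _ => ?_⟩
    have : sInf (Ds Γ η l f y) ≤ m := Nat.sInf_le ⟨i, a, hd, a3⟩
    omega

end PkBusP

open PkBusP in
theorem pk_Bus : S_Bus := by
  intro hPer hKer J _ Γ η hF hT
  obtain ⟨l, n, c, hL⟩ := exists_ln hPer hF hT
  obtain ⟨f, hf⟩ := exists_f hF hT hL
  obtain ⟨⟨w, w0, hw⟩, hgen⟩ := hKer η (by
    obtain ⟨_, a, h, _⟩ := hT.ex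
    exact ⟨a, h⟩)
  choose an0 han0 using fun u : J => exists_par hF hT hL hf ((u, 0) : Vx J)
  let an : Vx J → Vx J := fun x => tr x.2 (an0 x.1)
  have han : ∀ x, Par Γ η l f x (an x) := by
    intro x
    have := par_tr hF hf x.2 (han0 x.1)
    rwa [tr_base] at this
  let N : ℕ := Finset.univ.sup fun u : J => sInf (Ds Γ η l f ((u, 0) : Vx J))
  have hN : ∀ x, sInf (Ds Γ η l f x) ≤ N := by
    intro x
    have h := ds_tr hF hf x.2 ((x.1, 0) : Vx J)
    rw [tr_base] at h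
    rw [h]
    exact Finset.le_sup (f := fun u : J => sInf (Ds Γ η l f ((u, 0) : Vx J)))
      (Finset.mem_univ x.1)
  have hre : ∀ m x, (St l x ∨ sInf (Ds Γ η l f x) ≤ m) → St l (an^[m] x) := by
    intro m
    induction m with
    | zero =>
      intro x h
      rcases h with h | h
      · exact h
      · exact st_of_zero (x := x) hF hf (by omega)
    | succ m ih =>
      intro x h
      rw [Function.iterate_succ_apply]
      apply ih
      by_cases hs : St l x
      · obtain ⟨i, a, e⟩ := hs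
        exact Or.inl ⟨i - 1, a, (han x).st i a e⟩
      · have := (han x).lt hs
        rcases h with h | h
        · exact absurd h hs
        · right
          omega
  refine ⟨f, an, w, l, N, ⟨hF, hT.ev, f_per hF hf, fun x y h => f_lip hF hf h,
    fun x => (han x).adj, fun x => (han x).fy, ?_, w0, hw, hgen⟩,
    ⟨f_line hF hT hL hf, ?_, ⟨n, c, by have := hL.pos; omega, hL.per⟩, ?_, ?_⟩⟩
  · intro a x
    show tr (x.2 + a) (an0 x.1) = tr a (tr x.2 (an0 x.1))
    rw [tr_tr]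
  · intro i
    have := (han (l i)).st i 0 (tr_zero _).symm
    rwa [tr_zero] at this
  · intro a i i' h
    exact shift hF hT hL hf h 1
  · intro x
    exact hre N x (Or.inr (hN x))

end Pool.Agent.P.MP_08fd93_co.OV
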