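import Pool.Agent.P.MP_08fd93_co.OV.PkCon2

/-! Package Con1 of project OV: the set to be contracted. -/

set_option autoImplicit false

namespace Pool.Agent.P.MP_08fd93_co.OV

namespace PkCon1P

open PkCon2P

variable {J : Type}

theorem conn_symm {W : Type} {H : SimpleGraph W} {A : Set W} {x y : W} (h : Conn H A x y) :
    Conn H A y x := by
  induction h with
  | refl => exact Relation.ReflTransGen.refl
  | tail _ h2 ih => exact Relation.ReflTransGen.head ⟨h2.2.1, h2.1, h2.2.2.symm⟩ ih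

theorem isConn_star {W : Type} {H : SimpleGraph W} {A : Set W} (q : W) (hq : q ∈ A)
    (h : ∀ y ∈ A, y = q ∨ H.Adj q y) : IsConn H A := by
  have key : ∀ y ∈ A, Conn H A q y := by
    intro y hy
    rcases h y hy with rfl | h1
    · exact Relation.ReflTransGen.refl
    · exact Relation.ReflTransGen.single ⟨hq, hy, h1⟩
  exact fun x hx y hy => Relation.ReflTransGen.trans (conn_symm (key x hx)) (key y hy)

theorem tr_fix {a : ℤ × ℤ} {x : Vx J} (h : tr a x = x) : a = 0 := by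
  have := congrArg Prod.snd h
  simpa [tr] using this

theorem DL_le (Γ : SimpleGraph (Vx J)) (c : ℤ × ℤ) (x : Vx J) : DL Γ c ≤ Γ.dist x (tr c x) :=
  Nat.sInf_le ⟨x, rfl⟩

theorem DL_ex (Γ : SimpleGraph (Vx J)) (hJ : Nonempty J) (c : ℤ × ℤ) :
    ∃ x, Γ.dist x (tr c x) = DL Γ c := by
  obtain ⟨u⟩ := hJ
  exact Nat.sInf_mem (s := {n | ∃ x, Γ.dist x (tr c x) = n}) ⟨_, (u, 0), rfl⟩

theorem line_mul {l : ℤ → Vx J} {n : ℕ} {c : ℤ × ℤ} (h : ∀ i, l (i + n) = tr c (l i)) (k : ℕ)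
    (i : ℤ) : l (i + k * n) = tr ((k : ℤ) • c) (l i) := by
  induction k with
  | zero => simp [tr_zero]
  | succ k ih =>
    have e : i + ((k + 1 : ℕ) : ℤ) * n = (i + k * n) + n := by push_cast; ring
    rw [e, h, ih, tr_tr]
    congr 1
    push_cast
    rw [add_smul, one_smul]

theorem geod {Γ : SimpleGraph (Vx J)} (hF : Fine Γ) (hN : Nrm (DL Γ)) {l : ℤ → Vx J} {c : ℤ × ℤ}
    (hn : 0 < DL Γ c) (h : ∀ i, l (i + DL Γ c) = tr c (l i))
    (hd : ∀ i j, Γ.dist (l i) (l j) ≤ (i - j).natAbs) (i j : ℤ) :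
    Γ.dist (l i) (l j) = (i - j).natAbs := by
  have key : ∀ i j, i ≤ j → (j - i : ℤ) ≤ Γ.dist (l i) (l j) := by
    intro i j hij
    obtain ⟨k, hk⟩ : ∃ k : ℕ, j - i = k := ⟨(j - i).toNat, by omega⟩
    have h1 := line_mul h k i
    have h2 := DL_le Γ ((k : ℤ) • c) (l i)
    rw [hN.smul, ← h1, Int.natAbs_natCast] at h2
    have h3 := dist_tri hF (l i) (l j) (l (i + k * DL Γ c))
    have h4 := hd j (i + k * DL Γ c)
    have h5 : (k : ℤ) ≤ k * DL Γ c := by
      have : (1 : ℤ) ≤ DL Γ c := by exact_mod_cast hn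
      nlinarith [Int.natCast_nonneg k]
    have h6 : ((k * DL Γ c : ℕ) : ℤ) = k * DL Γ c := by push_cast; ring
    generalize (k : ℤ) * DL Γ c = m at *
    omega
  refine le_antisymm (hd i j) ?_
  rcases le_total i j with hij | hij
  · have := key i j hij; omega
  · have := key j i hij
    rw [SimpleGraph.dist_comm] at this; omega

end PkCon1P

open PkCon1P PkCon2P in
theorem pk_Con1 : S_Con1 := by
  intro hPer hNrm hLat hTw J _ Γ hJ hG
  classical
  obtain ⟨hF, hN⟩ := hNrm J Γ hJ hG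
  obtain ⟨η, hev, hle, c1, hc1, hc1'⟩ := hLat _ hN
  obtain ⟨δ, ⟨c0, hc0, hδ⟩, hmin⟩ := Int.exists_least_of_bdd
    (P := fun m => ∃ c : ℤ × ℤ, c ≠ 0 ∧ m = (DL Γ c : ℤ) - η c)
    ⟨0, by rintro m ⟨c, _, rfl⟩; have := hle c; omega⟩ ⟨_, c1, hc1, rfl⟩
  have hlow : ∀ a, a ≠ 0 → η a + δ ≤ (DL Γ a : ℤ) := by
    intro a ha
    have := hmin _ ⟨a, ha, rfl⟩
    omega
  have hδ0 : 0 ≤ δ := by have := hle c0; omega
  have hδ2 : δ ≤ 2 := by have := hlow c1 hc1; omega
  have hn3 := hN.ge c0 hc0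
  have hpos : 0 < η c0 := by omega
  obtain ⟨x, hx⟩ := DL_ex Γ hJ c0
  obtain ⟨l, hl0, hadj, hper, hd⟩ := hPer J Γ hF x c0 _ hx (by omega)
  have hgeo := geod hF hN (by omega) hper hd
  have hpot : ∀ y y' : Vx J, (Γ.dist y' y : ℤ) ≤ δ → ∀ a, a ≠ 0 →
      η a ≤ (Γ.dist y (tr a y') : ℤ) := by
    intro y y' h a ha
    have h1 := hlow a ha
    have h2 := DL_le Γ a y'
    have h3 := dist_tri hF y' y (tr a y')
    omega
  have hself : ∀ (y : Vx J) a, ¬ Γ.Adj y (tr a y) := fun y a h => hG.nl _ _ h rfl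
  have hedge : ∀ (y y' : Vx J) a, Γ.Adj y y' → Γ.Adj y (tr a y') → a = 0 :=
    fun y y' a h1 h2 => tr_fix (hG.simp _ _ _ h2 h1 rfl)
  have d1 : ∀ y y' : Vx J, Γ.Adj y y' → Γ.dist y y' = 1 :=
    fun _ _ h => SimpleGraph.dist_eq_one_iff_adj.mpr h
  rcases (by omega : δ = 0 ∨ δ = 1 ∨ δ = 2) with rfl | rfl | rfl
  · refine ⟨η, {x}, x, x.1, hev, rfl, Set.finite_singleton _, ?_, ?_, ?_, ?_, ?_, ?_⟩
    · exact isConn_star x rfl (fun y hy => Or.inl hy)
    · rintro _ rfl _ rfl _; rfl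
    · rintro _ rfl _ rfl a h; exact (hself _ _ h).elim
    · rintro _ rfl _ rfl; exact hpot _ _ (by simp)
    · exact ⟨x, rfl, x, rfl, c0, hpos, by omega⟩
    · rintro _ rfl _ rfl _ _ h; exact (h rfl).elim
  · have h01 : Γ.Adj (l 0) (l 1) := by simpa using hadj 0
    refine ⟨η, {l 0, l 1}, l 0, (l 1).1, hev, Or.inl rfl, Set.toFinite _, ?_, ?_, ?_, ?_, ?_, ?_⟩
    · refine isConn_star (l 0) (Or.inl rfl) ?_
      rintro _ (rfl | rfl)
      · exact Or.inl rfl
      · exact Or.inr h01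
    · rintro _ (rfl | rfl) _ (rfl | rfl) h
      · rfl
      · exact (hG.nl _ _ h01 h).elim
      · exact (hG.nl _ _ h01 h.symm).elim
      · rfl
    · rintro _ (rfl | rfl) _ (rfl | rfl) a h
      · exact (hself _ _ h).elim
      · exact hedge _ _ _ h01 h
      · exact hedge _ _ _ h01.symm h
      · exact (hself _ _ h).elim
    · rintro _ (rfl | rfl) _ (rfl | rfl)
      · exact hpot _ _ (by simp)
      · exact hpot _ _ (by rw [d1 _ _ h01.symm]; simp)
      · exact hpot _ _ (by rw [d1 _ _ h01]; simp)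
      · exact hpot _ _ (by simp)
    · refine ⟨l 1, Or.inr rfl, l 0, Or.inl rfl, c0, hpos, ?_⟩
      rw [← hper 0]
      have := hd 1 (0 + DL Γ c0)
      omega
    · rintro _ (rfl | rfl) _ (rfl | rfl) h1 h2 h3
      · exact (h3 rfl).elim
      · exact (h2 rfl).elim
      · exact (h1 rfl).elim
      · exact (h3 rfl).elim
  · obtain ⟨i, r, hqr, hr3, htw⟩ := hTw _ Γ hG.pl hG.oe l hadj hgeo
    have hpq : Γ.Adj (l i) (l (i + 1)) := hadj i
    have hfar : (Γ.dist r (tr c0 (l i)) : ℤ) ≤ η c0 := by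
      rw [← hper i]
      have h1 := dist_tri hF r (l (i + 3)) (l (i + DL Γ c0))
      have h2 := hd (i + 3) (i + DL Γ c0)
      rw [d1 _ _ hr3] at h1
      omega
    have dpr : Γ.dist (l i) r ≤ 2 := by
      have h1 := dist_tri hF (l i) (l (i + 1)) r
      rw [d1 _ _ hpq, d1 _ _ hqr] at h1
      exact h1
    have drp : Γ.dist r (l i) ≤ 2 := by rw [SimpleGraph.dist_comm]; exact dpr
    have hno0 : ∀ a, η a = 0 → ¬ Γ.Adj (l i) (tr a r) := by
      intro a ha h
      have hne : c0 + a ≠ 0 := by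
        intro e
        have := congrArg η e
        rw [map_add, map_zero] at this
        omega
      have h1 := hlow _ hne
      have h2 := DL_le Γ (c0 + a) (l i)
      have h3 := dist_tri hF (l i) (tr a r) (tr (c0 + a) (l i))
      rw [d1 _ _ h, ← tr_tr, dist_tr hF] at h3
      rw [← tr_tr] at h2
      rw [map_add] at h1
      omega
    have hno : ∀ a, Γ.Adj (l i) (tr a r) → a = 0 := by
      intro a h
      by_contra ha
      have h1 := hpot (l i) r (by exact_mod_cast drp) a ha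
      have h' := (hF.inv (-a) _ _ h).symm
      rw [tr_neg] at h'
      have h2 := hpot r (l i) (by exact_mod_cast dpr) (-a) (neg_ne_zero.mpr ha)
      rw [d1 _ _ h] at h1
      rw [d1 _ _ h', map_neg] at h2
      obtain ⟨k, hk⟩ := hev a
      exact hno0 a (by omega) h
    have hnpr : ¬ Γ.Adj (l i) r := by
      have := hno0 0 (map_zero η)
      rwa [tr_zero] at this
    refine ⟨η, {l i, l (i + 1), r}, l i, (l (i + 1)).1, hev, Or.inl rfl, Set.toFinite _,
      ?_, ?_, ?_, ?_, ?_, ?_⟩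
    · refine isConn_star (l (i + 1)) (Or.inr (Or.inl rfl)) ?_
      rintro _ (rfl | rfl | rfl)
      · exact Or.inr hpq.symm
      · exact Or.inl rfl
      · exact Or.inr hqr
    · rintro _ (rfl | rfl | rfl) _ (rfl | rfl | rfl) h
      · rfl
      · exact (hG.nl _ _ hpq h).elim
      · exact hG.simp _ _ _ hpq.symm hqr h
      · exact (hG.nl _ _ hpq h.symm).elim
      · rfl
      · exact (hG.nl _ _ hqr h).elim
      · exact hG.simp _ _ _ hqr hpq.symm h
      · exact (hG.nl _ _ hqr h.symm).elim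
      · rfl
    · rintro _ (rfl | rfl | rfl) _ (rfl | rfl | rfl) a h
      · exact (hself _ _ h).elim
      · exact hedge _ _ _ hpq h
      · exact hno a h
      · exact hedge _ _ _ hpq.symm h
      · exact (hself _ _ h).elim
      · exact hedge _ _ _ hqr h
      · have h' := (hF.inv (-a) _ _ h).symm
        rw [tr_neg] at h'
        exact neg_eq_zero.mp (hno _ h')
      · exact hedge _ _ _ hqr.symm h
      · exact (hself _ _ h).elim
    · rintro _ (rfl | rfl | rfl) _ (rfl | rfl | rfl)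
      · exact hpot _ _ (by simp)
      · exact hpot _ _ (by rw [d1 _ _ hpq.symm]; simp)
      · exact hpot _ _ (by exact_mod_cast drp)
      · exact hpot _ _ (by rw [d1 _ _ hpq]; simp)
      · exact hpot _ _ (by simp)
      · exact hpot _ _ (by rw [d1 _ _ hqr.symm]; simp)
      · exact hpot _ _ (by exact_mod_cast dpr)
      · exact hpot _ _ (by rw [d1 _ _ hqr]; simp)
      · exact hpot _ _ (by simp)
    · exact ⟨r, Or.inr (Or.inr rfl), l i, Or.inl rfl, c0, hpos, hfar⟩
    · rintro _ (rfl | rfl | rfl) _ (rfl | rfl | rfl) h1 h2 h3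
      · exact (h3 rfl).elim
      · exact (h2 rfl).elim
      · exact ⟨hnpr, fun z hz e1 e2 => hz (by rw [htw z e1 e2])⟩
      · exact (h1 rfl).elim
      · exact (h1 rfl).elim
      · exact (h1 rfl).elim
      · exact ⟨fun h => hnpr h.symm, fun z hz e1 e2 => hz (by rw [htw z e2 e1])⟩
      · exact (h2 rfl).elim
      · exact (h3 rfl).elim

end Pool.Agent.P.MP_08fd93_co.OV
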