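import Pool.Agent.P.MP_08fd93_co.OV.St2

/-! Package Con2 of project OV: contraction of a small connected set and pull-back. -/

set_option autoImplicit false

namespace Pool.Agent.P.MP_08fd93_co.OV

namespace PkCon2P

variable {J : Type}

theorem tr_tr (a b : ℤ × ℤ) (x : Vx J) : tr a (tr b x) = tr (b + a) x := by
  simp [tr, add_assoc]

theorem tr_zero (x : Vx J) : tr 0 x = x := by simp [tr]

theorem tr_neg (a : ℤ × ℤ) (x : Vx J) : tr (-a) (tr a x) = x := by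
  rw [tr_tr]; simp [tr_zero]

theorem reach_of_conn {W : Type} {H : SimpleGraph W} {A : Set W} {x y : W} (h : Conn H A x y) :
    H.Reachable x y := by
  induction h with
  | refl => exact SimpleGraph.Reachable.refl _
  | tail _ h2 ih => exact ih.trans h2.2.2.reachable

theorem reach {W : Type} {H : SimpleGraph W} (h : IsConn H Set.univ) (x y : W) :
    H.Reachable x y := reach_of_conn (h x trivial y trivial)

theorem dist_tr_le {Γ : SimpleGraph (Vx J)} (hF : Fine Γ) (a : ℤ × ℤ) (x y : Vx J) :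
    Γ.dist (tr a x) (tr a y) ≤ Γ.dist x y := by
  obtain ⟨p, hp⟩ := (reach hF.pl.conn x y).exists_walk_length_eq_dist
  let φ : Γ →g Γ := ⟨tr a, fun h => hF.inv a _ _ h⟩
  have := SimpleGraph.dist_le (p.map φ)
  rw [SimpleGraph.Walk.length_map, hp] at this
  exact this

theorem dist_tr {Γ : SimpleGraph (Vx J)} (hF : Fine Γ) (a : ℤ × ℤ) (x y : Vx J) :
    Γ.dist (tr a x) (tr a y) = Γ.dist x y := by
  refine le_antisymm (dist_tr_le hF a x y) ?_
  have := dist_tr_le hF (-a) (tr a x) (tr a y)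
  rwa [tr_neg, tr_neg] at this

theorem dist_tri {Γ : SimpleGraph (Vx J)} (hF : Fine Γ) (x y z : Vx J) :
    Γ.dist x z ≤ Γ.dist x y + Γ.dist y z :=
  (reach hF.pl.conn x y).dist_triangle_left z

theorem conn_tr {Γ : SimpleGraph (Vx J)} (hF : Fine Γ) (a : ℤ × ℤ) {A : Set (Vx J)} {x y : Vx J}
    (h : Conn Γ A x y) : Conn Γ (tr a '' A) (tr a x) (tr a y) := by
  induction h with
  | refl => exact Relation.ReflTransGen.refl
  | tail _ h2 ih =>
    exact ih.tail ⟨⟨_, h2.1, rfl⟩, ⟨_, h2.2.1, rfl⟩, hF.inv a _ _ h2.2.2⟩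

/-- The potential. -/
theorem potential {Γ : SimpleGraph (Vx J)} {η : ℤ × ℤ →+ ℤ} {Fs : Set (Vx J)} {x0 : Vx J} {dl : J}
    (hF : Fine Γ) (hC : Con Γ η Fs x0 dl) : ∃ Φ : Vx J → ℤ, (∀ y ∈ Fs, Φ y = 0) ∧
      (∀ a x, Φ (tr a x) = Φ x + η a) ∧ ∀ x z, Γ.Adj x z → Φ z ≤ Φ x + 1 := by
  have low : ∀ x ∈ Fs, ∀ y ∈ Fs, ∀ a, 0 ≤ (Γ.dist (tr a y) x : ℤ) + η a := by
    intro x hx y hy a
    by_cases ha : a = 0
    · subst ha; simp
    · have h1 := hC.pot y hy x hx (-a) (neg_ne_zero.mpr ha)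
      have h2 := dist_tr hF (-a) (tr a y) x
      rw [tr_neg] at h2
      rw [h2, map_neg] at h1
      linarith
  have ex : ∀ x : Vx J, ∃ n : ℤ, (∃ a, ∃ y ∈ Fs, n = (Γ.dist (tr a y) x : ℤ) + η a) ∧
      ∀ m : ℤ, (∃ a, ∃ y ∈ Fs, m = (Γ.dist (tr a y) x : ℤ) + η a) → n ≤ m := by
    intro x
    refine Int.exists_least_of_bdd ⟨-(Γ.dist x x0 : ℤ), ?_⟩ ⟨_, 0, x0, hC.h0, rfl⟩
    rintro m ⟨a, y, hy, rfl⟩
    have h1 := low x0 hC.h0 y hy a
    have h2 : (Γ.dist (tr a y) x0 : ℤ) ≤ Γ.dist (tr a y) x + Γ.dist x x0 := by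
      exact_mod_cast dist_tri hF (tr a y) x x0
    linarith
  choose Φ h1 h2 using ex
  have per : ∀ a x, Φ (tr a x) ≤ Φ x + η a := by
    intro b x
    obtain ⟨a, y, hy, he⟩ := h1 x
    have := h2 (tr b x) _ ⟨a + b, y, hy, rfl⟩
    rw [← tr_tr, dist_tr hF, map_add] at this
    linarith
  refine ⟨Φ, ?_, ?_, ?_⟩
  · intro y hy
    refine le_antisymm ?_ ?_
    · have := h2 y _ ⟨0, y, hy, rfl⟩
      simpa [tr_zero] using this
    · obtain ⟨a, y', hy', he⟩ := h1 y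
      rw [he]; exact low y hy y' hy' a
  · intro a x
    refine le_antisymm (per a x) ?_
    have := per (-a) (tr a x)
    rw [tr_neg, map_neg] at this
    linarith
  · intro x z hxz
    obtain ⟨a, y, hy, he⟩ := h1 x
    have h3 := h2 z _ ⟨a, y, hy, rfl⟩
    have h4 : (Γ.dist (tr a y) z : ℤ) ≤ Γ.dist (tr a y) x + Γ.dist x z := by
      exact_mod_cast dist_tri hF (tr a y) x z
    have h5 : Γ.dist x z = 1 := SimpleGraph.dist_eq_one_iff_adj.mpr hxz
    rw [h5] at h4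
    push_cast at h4
    linarith

/-- The orbits met by `Fs`. -/
def InF (Fs : Set (Vx J)) (u : J) : Prop := ∃ y ∈ Fs, y.1 = u

open Classical in
/-- The new label. -/
noncomputable def lab (Fs : Set (Vx J)) (u : J) : Option {u : J // ¬ InF Fs u} :=
  if h : InF Fs u then none else some ⟨u, h⟩

open Classical in
/-- The position of the representative in `Fs`. -/
noncomputable def pos (Fs : Set (Vx J)) (u : J) : ℤ × ℤ :=
  if h : InF Fs u then h.choose.2 else 0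

/-- The contraction. -/
noncomputable def pr (Fs : Set (Vx J)) (x : Vx J) : Vx (Option {u : J // ¬ InF Fs u}) :=
  (lab Fs x.1, x.2 - pos Fs x.1)

theorem pr_tr (Fs : Set (Vx J)) (a : ℤ × ℤ) (x : Vx J) : pr Fs (tr a x) = tr a (pr Fs x) := by
  simp only [pr, tr, Prod.mk.injEq, true_and]
  abel

theorem pr_in {Fs : Set (Vx J)} (hi : ∀ y ∈ Fs, ∀ y' ∈ Fs, y.1 = y'.1 → y = y') {y : Vx J}
    (hy : y ∈ Fs) : pr Fs y = (none, 0) := by
  have h : InF Fs y.1 := ⟨y, hy, rfl⟩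
  have h1 := h.choose_spec
  have h2 : h.choose = y := hi _ h1.1 _ hy h1.2
  simp only [pr, lab, pos, dif_pos h, h2, sub_self]

theorem pr_out {Fs : Set (Vx J)} {x : Vx J} (h : ¬ InF Fs x.1) :
    pr Fs x = (some ⟨x.1, h⟩, x.2) := by
  simp only [pr, lab, pos, dif_neg h, sub_zero]

theorem pr_cases {Fs : Set (Vx J)} (hi : ∀ y ∈ Fs, ∀ y' ∈ Fs, y.1 = y'.1 → y = y') (x : Vx J) :
    (∃ a, ∃ y ∈ Fs, x = tr a y ∧ pr Fs x = (none, a)) ∨
      ∃ h : ¬ InF Fs x.1, pr Fs x = (some ⟨x.1, h⟩, x.2) := by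
  by_cases h : InF Fs x.1
  · obtain ⟨y, hy, he⟩ := h
    have hx : x = tr (x.2 - y.2) y := by
      ext <;> simp [tr, he]
    refine Or.inl ⟨x.2 - y.2, y, hy, hx, ?_⟩
    conv_lhs => rw [hx]
    rw [pr_tr, pr_in hi hy]
    simp [tr]
  · exact Or.inr ⟨h, pr_out h⟩

theorem pr_fst {Fs : Set (Vx J)} (hi : ∀ y ∈ Fs, ∀ y' ∈ Fs, y.1 = y'.1 → y = y') {x z : Vx J}
    (h : (pr Fs x).1 = (pr Fs z).1) : x.1 = z.1 ∨ ∃ a b, ∃ y ∈ Fs, ∃ y' ∈ Fs, x = tr a y ∧
      z = tr b y' ∧ pr Fs x = (none, a) ∧ pr Fs z = (none, b) := by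
  rcases pr_cases hi x with ⟨a, y, hy, e1, e2⟩ | ⟨h1, e2⟩ <;>
    rcases pr_cases hi z with ⟨b, y', hy', e3, e4⟩ | ⟨h3, e4⟩
  · exact Or.inr ⟨a, b, y, hy, y', hy', e1, e3, e2, e4⟩
  · rw [e2, e4] at h; simp at h
  · rw [e2, e4] at h; simp at h
  · rw [e2, e4] at h
    left
    simpa using h

theorem pr_eq {Fs : Set (Vx J)} (hi : ∀ y ∈ Fs, ∀ y' ∈ Fs, y.1 = y'.1 → y = y') {x z : Vx J}
    (h : pr Fs x = pr Fs z) : x = z ∨ ∃ a, ∃ y ∈ Fs, ∃ y' ∈ Fs, x = tr a y ∧ z = tr a y' := by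
  rcases pr_fst hi (congrArg Prod.fst h) with h1 | ⟨a, b, y, hy, y', hy', e1, e2, e3, e4⟩
  · left
    have h2 := congrArg Prod.snd h
    simp only [pr, h1, sub_left_inj] at h2
    exact Prod.ext h1 h2
  · rw [e3, e4] at h
    have hab : a = b := by simpa using h
    subst hab
    exact Or.inr ⟨a, y, hy, y', hy', e1, e2⟩

/-- The contracted graph. -/
def Gq (Γ : SimpleGraph (Vx J)) (Fs : Set (Vx J)) :
    SimpleGraph (Vx (Option {u : J // ¬ InF Fs u})) where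
  Adj x y := x ≠ y ∧ ∃ a b, pr Fs a = x ∧ pr Fs b = y ∧ Γ.Adj a b
  symm := ⟨fun _ _ ⟨h, a, b, h1, h2, h3⟩ => ⟨h.symm, b, a, h2, h1, h3.symm⟩⟩
  loopless := ⟨fun _ h => h.1 rfl⟩

end PkCon2P

open PkCon2P in
theorem pk_Con2 : S_Con2 := by
  intro hPQ hMain J _ Γ η Fs x0 dl hF hNL hC
  classical
  have hi := hC.inj
  have hsurj : Function.Surjective (pr Fs) := by
    rintro ⟨_ | ⟨u, hu⟩, a⟩
    · refine ⟨tr a x0, ?_⟩
      rw [pr_tr, pr_in hi hC.h0]; simp [tr]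
    · exact ⟨(u, a), pr_out hu⟩
  have hfib : ∀ y, ((pr Fs) ⁻¹' {y}).Finite ∧ IsConn Γ ((pr Fs) ⁻¹' {y}) := by
    rintro ⟨_ | ⟨u, hu⟩, a⟩
    · have he : (pr Fs) ⁻¹' {(none, a)} = tr a '' Fs := by
        ext x
        simp only [Set.mem_preimage, Set.mem_singleton_iff, Set.mem_image]
        constructor
        · intro hx
          rcases pr_cases hi x with ⟨b, y, hy, e1, e2⟩ | ⟨h1, e2⟩
          · rw [e2] at hx
            have hab : b = a := by simpa using hx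
            exact ⟨y, hy, by rw [e1, hab]⟩
          · rw [e2] at hx; simp at hx
        · rintro ⟨y, hy, rfl⟩
          rw [pr_tr, pr_in hi hy]; simp [tr]
      rw [he]
      refine ⟨hC.fin.image _, ?_⟩
      rintro _ ⟨y, hy, rfl⟩ _ ⟨y', hy', rfl⟩
      exact conn_tr hF a (hC.conn y hy y' hy')
    · have he : (pr Fs) ⁻¹' {(some ⟨u, hu⟩, a)} = {(u, a)} := by
        ext x
        simp only [Set.mem_preimage, Set.mem_singleton_iff]
        constructor
        · intro hx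
          rcases pr_cases hi x with ⟨b, y, hy, e1, e2⟩ | ⟨h1, e2⟩
          · rw [e2] at hx; simp at hx
          · rw [e2] at hx
            simp only [Prod.mk.injEq, Option.some.injEq, Subtype.mk.injEq] at hx
            exact Prod.ext hx.1 hx.2
        · rintro rfl
          exact pr_out hu
      rw [he]
      refine ⟨Set.finite_singleton _, ?_⟩
      rintro _ rfl _ rfl
      exact Relation.ReflTransGen.refl
  obtain ⟨hF', hd⟩ := hPQ J _ Γ (Gq Γ Fs) (pr Fs) hF hsurj (pr_tr Fs) hfib (fun _ _ => Iff.rfl)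
  have hNL' : NL (Gq Γ Fs) := by
    rintro _ _ ⟨hne, x, z, rfl, rfl, hxz⟩ h
    rcases pr_fst hi h with h1 | ⟨a, b, y, hy, y', hy', e1, e2, e3, e4⟩
    · exact hNL x z hxz h1
    · have h2 := hF.inv (-a) _ _ hxz
      rw [e1, e2, tr_neg, tr_tr] at h2
      have h3 := hC.nl y hy y' hy' _ h2
      have hab : b = a := by
        have : b - a = 0 := by rw [sub_eq_add_neg]; exact h3
        exact sub_eq_zero.mp this
      exact hne (by rw [e3, e4, hab])
  obtain ⟨Φ, p0, pper, plip⟩ := potential hF hC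
  have pdesc : ∀ x z, pr Fs x = pr Fs z → Φ x = Φ z := by
    intro x z h
    rcases pr_eq hi h with rfl | ⟨a, y, hy, y', hy', rfl, rfl⟩
    · rfl
    · rw [pper, pper, p0 y hy, p0 y' hy']
  have pwalk : ∀ x' z' (p : (Gq Γ Fs).Walk x' z'), ∀ x z, pr Fs x = x' → pr Fs z = z' →
      Φ z ≤ Φ x + p.length := by
    intro x' z' p
    induction p with
    | nil =>
      intro x z h1 h2
      rw [pdesc x z (h1.trans h2.symm)]; simp
    | cons h p ih =>
      intro x z h1 h2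
      obtain ⟨_, a, b, ha, hb, hab⟩ := h
      have h3 := ih b z hb h2
      have h4 := plip a b hab
      have h5 := pdesc x a (h1.trans ha.symm)
      simp only [SimpleGraph.Walk.length_cons]
      push_cast
      linarith
  have hT : Tight (Gq Γ Fs) η := by
    refine ⟨hC.ev, ?_, ?_⟩
    · intro x' a
      obtain ⟨x, rfl⟩ := hsurj x'
      obtain ⟨p, hp⟩ := (reach hF'.pl.conn (pr Fs x) (tr a (pr Fs x))).exists_walk_length_eq_dist
      have := pwalk _ _ p x (tr a x) rfl (pr_tr Fs a x)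
      rw [pper, hp] at this
      linarith
    · obtain ⟨y, hy, y', hy', a, ha, hle⟩ := hC.ex
      refine ⟨pr Fs y, a, ha, ?_⟩
      have h1 := hd y (tr a y')
      rw [pr_tr, pr_in hi hy', ← pr_in hi hy] at h1
      exact le_trans (by exact_mod_cast h1) hle
  obtain ⟨μ', hμ', c', hc'⟩ := hMain _ (Gq Γ Fs) η none hF' hNL' hT
  obtain ⟨⟨μ, hμ⟩, rfl⟩ := Option.ne_none_iff_exists'.mp hμ'
  refine ⟨μ, fun u => c' (lab Fs u), ?_⟩
  have hl : ∀ x : Vx J, x.1 ∉ ({dl, μ} : Set J) →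
      (pr Fs x).1 ∉ ({some ⟨μ, hμ⟩} : Set (Option {u : J // ¬ InF Fs u})) := by
    intro x hx h
    rcases pr_cases hi x with ⟨b, y, hy, e1, e2⟩ | ⟨h1, e2⟩
    · rw [e2] at h; simp at h
    · rw [e2] at h
      have : x.1 = μ := by simpa using h
      exact hx (Or.inr this)
  have hne : ∀ x z : Vx J, x.1 ∉ ({dl, μ} : Set J) → z.1 ∉ ({dl, μ} : Set J) → Γ.Adj x z →
      pr Fs x ≠ pr Fs z := by
    intro x z hx hz hxz h
    rcases pr_eq hi h with rfl | ⟨a, y, hy, y', hy', rfl, rfl⟩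
    · exact hxz.ne rfl
    · have h2 := hF.inv (-a) _ _ hxz
      rw [tr_neg, tr_neg] at h2
      exact (hC.one y hy y' hy' (fun e => hx (Or.inl e)) (fun e => hz (Or.inl e)) h2.ne).1 h2
  intro x y z hx hy hz hxy hxz cy cz
  have h := hc' (pr Fs x) (pr Fs y) (pr Fs z) (hl x hx) (hl y hy) (hl z hz)
    ⟨hne x y hx hy hxy, x, y, rfl, rfl, hxy⟩ ⟨hne x z hx hz hxz, x, z, rfl, rfl, hxz⟩ cy cz
  rcases pr_eq hi h with h | ⟨a, y1, hy1, y2, hy2, rfl, rfl⟩
  · exact h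
  · by_contra hc
    have h12 : y1 ≠ y2 := fun e => hc (by rw [e])
    have h1 := hF.inv (-a) _ _ hxy
    have h2 := hF.inv (-a) _ _ hxz
    rw [tr_neg] at h1 h2
    exact (hC.one y1 hy1 y2 hy2 (fun e => hy (Or.inl e)) (fun e => hz (Or.inl e)) h12).2
      (tr (-a) x) (fun e => hx (Or.inl e)) h1 h2

end Pool.Agent.P.MP_08fd93_co.OV
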