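import Pool.Agent.P.MP_08fd93_co.OV.PkSelf

/-! Package Cross of project OV: periodic sets in independent directions meet in the quotient. -/

set_option autoImplicit false

namespace Pool.Agent.P.MP_08fd93_co.OV

namespace PkCrossP

open PkSelfP

variable {J : Type} {Γ : SimpleGraph (Vx J)}

theorem per_mul {A : Set (Vx J)} {g : ℤ × ℤ} (h : ∀ x, tr g x ∈ A ↔ x ∈ A) (k : ℤ) {x : Vx J}
    (hx : x ∈ A) : tr (k • g) x ∈ A := by
  induction k using Int.induction_on with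
  | zero => simpa [tr_zero] using hx
  | succ q ih =>
    have := (h _).2 ih
    rwa [tr_tr, ← add_one_zsmul] at this
  | pred q ih =>
    refine (h _).1 ?_
    rwa [tr_tr, sub_smul, one_smul, sub_add_cancel]

theorem i_tr (hF : Fine Γ) (a : ℤ × ℤ) {S : Set (Vx J)} (hS : IsConn Γ S) :
    IsConn Γ (tr a '' S) := by
  rintro _ ⟨x, hx, rfl⟩ _ ⟨y, hy, rfl⟩
  exact c_tr hF a (T := tr a '' S) (fun z hz => ⟨z, hz, rfl⟩) (hS x hx y hy)

theorem sep {S : Set (Vx J)} {g h : ℤ × ℤ} {K : ℤ} (hd : det g h ≠ 0)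
    (hS : ∀ x ∈ S, |det g x.2| ≤ K) {i j : ℤ} (hij : i ≠ j) :
    Disjoint (tr ((i * (2 * K + 1)) • h) '' S) (tr ((j * (2 * K + 1)) • h) '' S) := by
  rw [Set.disjoint_left]
  rintro _ ⟨x, hx, rfl⟩ ⟨y, hy, e⟩
  have e1 := congrArg (fun z : Vx J => det g z.2) e
  have e2 : det g x.2 - det g y.2 = ((j - i) * det g h) * (2 * K + 1) := by
    simp only [det, tr, Prod.fst_add, Prod.snd_add, Prod.smul_fst, Prod.smul_snd,
      smul_eq_mul] at e1 ⊢
    linear_combination -e1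
  have h1 := abs_le.1 (hS x hx)
  have h2 := abs_le.1 (hS y hy)
  have h3 : (j - i) * det g h ≠ 0 := mul_ne_zero (by omega) hd
  generalize (j - i) * det g h = t at e2 h3
  rcases lt_or_gt_of_ne h3 with h4 | h4
  · nlinarith
  · nlinarith

end PkCrossP

open PkSelfP PkCrossP in
theorem pk_Cross : S_Cross := by
  intro J Γ hF g h A B M hd cA cB ⟨a, ha⟩ ⟨b, hb⟩ pA pB hA hB
  by_contra hn
  push Not at hn
  obtain ⟨P, fP, cP, aP, -, dP, u, hu, v, ⟨b', hb', ev⟩, e⟩ :=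
    hit (A := {w : Vx J | ∃ y ∈ B, w.1 = y.1}) (hF.pl.conn a trivial b trivial) ⟨b, hb, rfl⟩
      (fun ⟨y, hy, e⟩ => hn a ha y hy e)
  obtain ⟨K, hK⟩ := (fP.image (fun z : Vx J => |det g z.2|)).bddAbove
  set A1 : Set (Vx J) := A ∪ {x | ∃ k : ℤ, ∃ y ∈ P, x = tr (k • g) y} with hA1
  set d : ℤ × ℤ := v.2 - b'.2 with hdd
  set B1 : Set (Vx J) := tr d '' B with hB1
  have vB : v ∈ B1 := ⟨b', hb', Prod.ext ev.symm (by simp [tr, hdd])⟩
  have cA1 : IsConn Γ A1 := by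
    have key : ∀ x ∈ A1, Conn Γ A1 x a := by
      rintro x (hx | ⟨k, y, hy, rfl⟩)
      · exact c_mono Set.subset_union_left (cA x hx a ha)
      · exact (c_tr hF (k • g) (T := A1) (fun z hz => Or.inr ⟨k, z, hz, rfl⟩) (cP y hy a aP)).trans
          (c_mono Set.subset_union_left (cA _ (per_mul pA k ha) a ha))
    exact fun x hx y hy => (key x hx).trans (c_symm (key y hy))
  have bA1 : ∀ x ∈ A1, |det g x.2| ≤ max M K := by
    rintro x (hx | ⟨k, y, hy, rfl⟩)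
    · exact (hA x hx).trans (le_max_left _ _)
    · have e1 : det g (tr (k • g) y).2 = det g y.2 := by
        simp only [det, tr, Prod.fst_add, Prod.snd_add, Prod.smul_fst, Prod.smul_snd, smul_eq_mul]
        ring
      rw [e1]
      exact (hK ⟨y, hy, rfl⟩).trans (le_max_right _ _)
  have bB1 : ∀ x ∈ B1, |det h x.2| ≤ M + |det h d| := by
    rintro _ ⟨y, hy, rfl⟩
    have e1 : det h (tr d y).2 = det h y.2 + det h d := by
      simp only [det, tr, Prod.fst_add, Prod.snd_add]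
      ring
    rw [e1]
    exact (abs_add_le _ _).trans (by have := hB y hy; omega)
  have oA1 : ∀ x ∈ A1, ∀ y ∈ B, x.1 ≠ y.1 := by
    rintro x (hx | ⟨k, z, hz, rfl⟩) y hy
    · exact hn x hx y hy
    · exact fun e1 => Set.disjoint_left.1 dP hz ⟨y, hy, e1⟩
  have pB1 : ∀ k : ℤ, tr (k • h) v ∈ B1 := by
    intro k
    obtain ⟨y, hy, e1⟩ := vB
    refine ⟨_, per_mul pB k hy, ?_⟩
    rw [← e1, tr_tr, tr_tr, add_comm]
  have hd' : det h g ≠ 0 := by
    intro h0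
    apply hd
    simp only [det] at h0 ⊢
    linarith
  refine hF.pl.k33 ⟨fun i => tr ((((i : ℕ) : ℤ) * (2 * max M K + 1)) • h) '' A1,
    fun j => tr ((((j : ℕ) : ℤ) * (2 * (M + |det h d|) + 1)) • g) '' B1, fun i => ?_,
    fun i j hij => ?_, fun i j => ⟨?_, ?_⟩⟩
  · exact ⟨Set.subset_univ _, i_tr hF _ cA1, Set.subset_univ _, i_tr hF _ (i_tr hF _ cB)⟩
  · have : ((i : ℕ) : ℤ) ≠ ((j : ℕ) : ℤ) := fun h0 => hij (Fin.ext (by omega))
    exact ⟨sep hd bA1 this, sep hd' bB1 this⟩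
  · rw [Set.disjoint_left]
    rintro _ ⟨x, hx, rfl⟩ ⟨_, ⟨y, hy, rfl⟩, e1⟩
    exact oA1 x hx y hy (congrArg Prod.fst e1).symm
  · refine ⟨_, ⟨_, Or.inr ⟨((j : ℕ) : ℤ) * (2 * (M + |det h d|) + 1), u, hu, rfl⟩, rfl⟩, _,
      ⟨_, pB1 (((i : ℕ) : ℤ) * (2 * max M K + 1)), rfl⟩, ?_⟩
    rw [tr_tr, tr_tr, add_comm]
    exact hF.inv _ _ _ e

end Pool.Agent.P.MP_08fd93_co.OV
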