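import Pool.Agent.P.MP_08fd93_co.OV.St2

/-! Package DN of project OV: the lengths of shortest closed walks form a norm. -/

set_option autoImplicit false

namespace Pool.Agent.P.MP_08fd93_co.OV

namespace PkDNP

variable {J : Type} {Γ : SimpleGraph (Vx J)}

theorem tr_tr (a b : ℤ × ℤ) (x : Vx J) : tr a (tr b x) = tr (b + a) x := by
  simp [tr, add_assoc]

theorem tr_zero (x : Vx J) : tr 0 x = x := by simp [tr]

theorem tr_inj (a : ℤ × ℤ) {x y : Vx J} (h : tr a x = tr a y) : x = y := by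
  have := congrArg (tr (-a)) h
  simpa [tr_tr, tr_zero] using this

theorem tr_fix {a : ℤ × ℤ} {x : Vx J} (h : x = tr a x) : a = 0 := by
  have := congrArg Prod.snd h
  simpa [tr] using this

theorem reach (hF : Fine Γ) (x y : Vx J) : Γ.Reachable x y := by
  have c := hF.pl.conn x trivial y trivial
  induction c with
  | refl => exact SimpleGraph.Reachable.refl _
  | tail _ e ih => exact ih.trans e.2.2.reachable

theorem tri (hF : Fine Γ) (x y z : Vx J) : Γ.dist x z ≤ Γ.dist x y + Γ.dist y z :=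
  haveI : Nonempty (Vx J) := ⟨x⟩
  (SimpleGraph.Connected.mk (reach hF)).dist_triangle

theorem dist_le (hF : Fine Γ) (a : ℤ × ℤ) (x y : Vx J) :
    Γ.dist (tr a x) (tr a y) ≤ Γ.dist x y := by
  obtain ⟨w, hw⟩ := (reach hF x y).exists_walk_length_eq_dist
  let φ : Γ →g Γ := ⟨tr a, fun h => hF.inv a _ _ h⟩
  have := SimpleGraph.dist_le (w.map φ)
  rwa [SimpleGraph.Walk.length_map, hw] at this

theorem dist_tr (hF : Fine Γ) (a : ℤ × ℤ) (x y : Vx J) :
    Γ.dist (tr a x) (tr a y) = Γ.dist x y := by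
  refine le_antisymm (dist_le hF a x y) ?_
  have := dist_le hF (-a) (tr a x) (tr a y)
  simpa [tr_tr, tr_zero] using this

theorem dl_le (c : ℤ × ℤ) (x : Vx J) : DL Γ c ≤ Γ.dist x (tr c x) := Nat.sInf_le ⟨x, rfl⟩

theorem dl_ex (hJ : Nonempty J) (c : ℤ × ℤ) : ∃ x, Γ.dist x (tr c x) = DL Γ c := by
  obtain ⟨u⟩ := hJ
  have : ({n | ∃ x, Γ.dist x (tr c x) = n} : Set ℕ).Nonempty := ⟨_, (u, 0), rfl⟩
  exact Nat.sInf_mem this

theorem dist_pos (hF : Fine Γ) {c : ℤ × ℤ} (hc : c ≠ 0) (x : Vx J) : 0 < Γ.dist x (tr c x) :=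
  (reach hF _ _).pos_dist_of_ne (fun h => hc (tr_fix h))

theorem dist_abs (hF : Fine Γ) (i : ℤ) (c : ℤ × ℤ) (x : Vx J) :
    ∃ y, Γ.dist y (tr ((i.natAbs : ℤ) • c) y) = Γ.dist x (tr (i • c) x) := by
  rcases Int.natAbs_eq i with h | h
  · exact ⟨x, by rw [← h]⟩
  · refine ⟨tr (i • c) x, ?_⟩
    have e : i • c + (i.natAbs : ℤ) • c = 0 := by
      rw [← add_smul]
      have : i + (i.natAbs : ℤ) = 0 := by omega
      rw [this, zero_smul]
    rw [tr_tr, e, tr_zero, SimpleGraph.dist_comm]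

theorem dist_mul (hF : Fine Γ) (c : ℤ × ℤ) (x : Vx J) (k : ℕ) :
    Γ.dist x (tr ((k : ℤ) • c) x) ≤ k * Γ.dist x (tr c x) := by
  induction k with
  | zero => simp [tr_zero]
  | succ k ih =>
    have h1 := tri hF x (tr ((k : ℤ) • c) x) (tr (((k + 1 : ℕ) : ℤ) • c) x)
    have e : tr (((k + 1 : ℕ) : ℤ) • c) x = tr ((k : ℤ) • c) (tr c x) := by
      rw [tr_tr]
      push_cast
      rw [add_smul, one_smul, add_comm]
    rw [e, dist_tr hF] at h1
    rw [e, Nat.succ_mul]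
    omega

section line

variable {l : ℤ → Vx J} {n : ℕ} {c : ℤ × ℤ}

theorem l_mul (h : ∀ i, l (i + n) = tr c (l i)) (q i : ℤ) : l (i + q * n) = tr (q • c) (l i) := by
  induction q using Int.induction_on with
  | zero => simp [tr_zero]
  | succ q ih =>
    have e : i + ((q : ℤ) + 1) * n = i + q * n + n := by ring
    rw [e, h, ih, tr_tr, add_smul, one_smul]
  | pred q ih =>
    apply tr_inj c
    have e : i + (-(q : ℤ) - 1) * n + n = i + -(q : ℤ) * n := by ring
    rw [← h, e, ih, tr_tr, sub_smul, one_smul, sub_add_cancel]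

theorem l_conn (h : ∀ i, Γ.Adj (l i) (l (i + 1))) : IsConn Γ (Set.range l) := by
  have key : ∀ (i : ℤ) (k : ℕ), Conn Γ (Set.range l) (l i) (l (i + k)) ∧
      Conn Γ (Set.range l) (l (i + k)) (l i) := by
    intro i k
    induction k with
    | zero => simp only [Nat.cast_zero, add_zero]; exact ⟨.refl, .refl⟩
    | succ k ih =>
      have e : i + ((k + 1 : ℕ) : ℤ) = i + k + 1 := by push_cast; ring
      rw [e]
      exact ⟨ih.1.tail ⟨⟨_, rfl⟩, ⟨_, rfl⟩, h _⟩,
        Relation.ReflTransGen.head ⟨⟨_, rfl⟩, ⟨_, rfl⟩, (h _).symm⟩ ih.2⟩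
  rintro _ ⟨i, rfl⟩ _ ⟨j, rfl⟩
  rcases le_total i j with hij | hij
  · obtain ⟨k, rfl⟩ := Int.le.dest hij
    exact (key i k).1
  · obtain ⟨k, rfl⟩ := Int.le.dest hij
    exact (key j k).2

theorem l_per (h : ∀ i, l (i + n) = tr c (l i)) (x : Vx J) :
    tr c x ∈ Set.range l ↔ x ∈ Set.range l := by
  constructor
  · rintro ⟨i, hi⟩
    refine ⟨i - n, tr_inj c ?_⟩
    rw [← h, sub_add_cancel, hi]
  · rintro ⟨i, rfl⟩
    exact ⟨_, h i⟩

theorem l_bdd (hn : 0 < n) (h : ∀ i, l (i + n) = tr c (l i)) {p : ℤ × ℤ} (hp : det p c = 0) :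
    ∃ M : ℤ, 0 ≤ M ∧ ∀ x ∈ Set.range l, |det p x.2| ≤ M := by
  obtain ⟨M, hM⟩ := ((Set.finite_Ico (0 : ℤ) n).image (fun i => |det p (l i).2|)).bddAbove
  have hn' : (0 : ℤ) < n := by omega
  refine ⟨M, (abs_nonneg _).trans (hM ⟨0, ⟨le_rfl, hn'⟩, rfl⟩), ?_⟩
  rintro _ ⟨i, rfl⟩
  have e : i = i % n + i / n * n := (Int.emod_add_ediv_mul i n).symm
  have h1 : det p (l i).2 = det p (l (i % n)).2 := by
    conv_lhs => rw [e, l_mul h]
    simp only [det, tr, Prod.fst_add, Prod.snd_add, Prod.smul_fst, Prod.smul_snd, smul_eq_mul] at hp ⊢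
    linear_combination (i / n) * hp
  rw [h1]
  exact hM ⟨i % n, ⟨Int.emod_nonneg _ hn'.ne', Int.emod_lt_of_pos _ hn'⟩, rfl⟩

end line

theorem lower [Fintype J] (hPer : S_Per) (hSlf : S_Slf) (hF : Fine Γ) {c : ℤ × ℤ} (hc : c ≠ 0)
    (n : ℕ) : ∀ (k : ℕ) (x : Vx J), Γ.dist x (tr ((k : ℤ) • c) x) = n → k * DL Γ c ≤ n := by
  induction n using Nat.strong_induction_on with
  | _ n ih =>
    intro k x hx
    rcases Nat.lt_or_ge k 2 with hk | hk
    · interval_cases k
      · simp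
      · have := dl_le (Γ := Γ) c x
        simp only [Nat.cast_one, one_smul] at hx
        omega
    have hkc : (k : ℤ) • c ≠ 0 := smul_ne_zero (by omega) hc
    have hn : 0 < n := hx ▸ dist_pos hF hkc x
    obtain ⟨l, -, h1, h2, h3⟩ := hPer J Γ hF x _ n hx hn
    obtain ⟨M, -, hM⟩ := l_bdd hn h2 (p := c) (by
      simp only [det, Prod.smul_fst, Prod.smul_snd, smul_eq_mul]; ring)
    obtain ⟨_, ⟨s, rfl⟩, t, ht⟩ := hSlf J Γ hF c k (Set.range l) M hc (by omega) (l_conn h1)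
      ⟨_, 0, rfl⟩ (l_per h2) hM
    have hn' : (0 : ℤ) < n := by omega
    obtain ⟨q, r, hr0, hr1, e⟩ : ∃ q r : ℤ, 0 ≤ r ∧ r < n ∧ t = s + r + q * n :=
      ⟨(t - s) / n, (t - s) % n, Int.emod_nonneg _ hn'.ne', Int.emod_lt_of_pos _ hn', by
        have := Int.emod_add_ediv_mul (t - s) n
        omega⟩
    have e1 : l (s + r) = tr ((1 - q * k) • c) (l s) := by
      apply tr_inj (q • (k : ℤ) • c)
      rw [← l_mul h2, ← e, ht, tr_tr, smul_smul, ← add_smul]
      simp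
    have e2 : l (s + n) = tr (((k : ℤ) - (1 - q * k)) • c) (l (s + r)) := by
      rw [h2, e1, tr_tr, ← add_smul]
      simp
    have hr : r ≠ 0 := by
      rintro rfl
      rw [add_zero] at e1
      have h5 := (smul_eq_zero.1 (tr_fix e1)).resolve_right hc
      have h6 : (k : ℤ) ∣ 1 := ⟨q, by linarith⟩
      have := Int.le_of_dvd one_pos h6
      omega
    have d1 := h3 s (s + r)
    have d2 := h3 (s + r) (s + n)
    rw [e1] at d1
    rw [e2] at d2
    obtain ⟨y1, hy1⟩ := dist_abs hF (1 - q * k) c (l s)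
    obtain ⟨y2, hy2⟩ := dist_abs hF ((k : ℤ) - (1 - q * k)) c (l (s + r))
    have i1 := ih _ (by omega) _ y1 hy1
    have i2 := ih _ (by omega) _ y2 hy2
    have h7 : k ≤ (1 - q * k).natAbs + ((k : ℤ) - (1 - q * k)).natAbs := by omega
    calc k * DL Γ c ≤ ((1 - q * k).natAbs + ((k : ℤ) - (1 - q * k)).natAbs) * DL Γ c :=
          Nat.mul_le_mul_right _ h7
      _ = (1 - q * k).natAbs * DL Γ c + ((k : ℤ) - (1 - q * k)).natAbs * DL Γ c := add_mul _ _ _
      _ ≤ n := by omega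

theorem smul [Fintype J] (hPer : S_Per) (hSlf : S_Slf) (hJ : Nonempty J) (hF : Fine Γ) (k : ℤ)
    (c : ℤ × ℤ) : DL Γ (k • c) = k.natAbs * DL Γ c := by
  apply le_antisymm
  · obtain ⟨x, hx⟩ := dl_ex (Γ := Γ) hJ c
    have h1 := dist_mul hF c x k.natAbs
    rw [hx] at h1
    rcases Int.natAbs_eq k with h | h
    · rw [← h] at h1
      exact (dl_le _ x).trans h1
    · have h2 := dl_le (Γ := Γ) (k • c) (tr ((k.natAbs : ℤ) • c) x)
      have e : (k.natAbs : ℤ) • c + k • c = 0 := by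
        rw [← add_smul]
        have : (k.natAbs : ℤ) + k = 0 := by omega
        rw [this, zero_smul]
      rw [tr_tr, e, tr_zero, SimpleGraph.dist_comm] at h2
      exact h2.trans h1
  · by_cases hc : c = 0
    · subst hc
      obtain ⟨u⟩ := hJ
      have := dl_le (Γ := Γ) 0 (u, 0)
      rw [tr_zero, SimpleGraph.dist_self] at this
      simp [Nat.le_zero.1 this]
    · obtain ⟨x, hx⟩ := dl_ex (Γ := Γ) hJ (k • c)
      obtain ⟨y, hy⟩ := dist_abs hF k c x
      exact lower hPer hSlf hF hc _ _ y (hy.trans hx)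

theorem par {D : ℤ × ℤ → ℕ} (hs : ∀ (k : ℤ) a, D (k • a) = k.natAbs * D a) {a b : ℤ × ℤ}
    {s t : ℤ} (h0 : s ≠ 0) (h : s • b = t • a) : D (a + b) ≤ D a + D b := by
  have h1 := hs s (a + b)
  rw [smul_add, h, ← add_smul, hs] at h1
  have h2 := hs s b
  rw [h, hs] at h2
  refine Nat.le_of_mul_le_mul_left (c := s.natAbs) ?_ (by omega)
  rw [← h1, mul_add, ← h2, ← add_mul]
  exact Nat.mul_le_mul_right _ (Int.natAbs_add_le _ _)

end PkDNP

open PkDNP in
theorem pk_DN : S_DN := by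
  intro hPer hCross hSlf J _ Γ hJ hG
  have hF : Fine Γ := by
    refine ⟨hG.pl, hG.oe, hG.inv, fun x => ?_⟩
    exact Set.Finite.of_injOn (f := Prod.fst) (t := Set.univ) (Set.mapsTo_univ _ _)
      (fun y hy z hz e => hG.simp x y z hy hz e) Set.finite_univ
  have hs := smul hPer hSlf hJ hF
  refine ⟨hF, fun a b => ?_, hs, fun a ha => ?_⟩
  · by_cases hd : det a b = 0
    · simp only [det] at hd
      by_cases h1 : a.1 = 0
      · by_cases h2 : a.2 = 0
        · have : a = 0 := Prod.ext h1 h2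
          rw [this, zero_add]
          omega
        · refine par hs (t := b.2) h2 (Prod.ext ?_ ?_)
          · simp only [Prod.smul_fst, smul_eq_mul]; linarith
          · simp only [Prod.smul_snd, smul_eq_mul]; ring
      · refine par hs (t := b.1) h1 (Prod.ext ?_ ?_)
        · simp only [Prod.smul_fst, smul_eq_mul]; ring
        · simp only [Prod.smul_snd, smul_eq_mul]; linarith
    · have ha : a ≠ 0 := by rintro rfl; simp [det] at hd
      have hb : b ≠ 0 := by rintro rfl; simp [det] at hd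
      obtain ⟨x, hx⟩ := dl_ex (Γ := Γ) hJ a
      obtain ⟨y, hy⟩ := dl_ex (Γ := Γ) hJ b
      have pa : 0 < DL Γ a := hx ▸ dist_pos hF ha x
      have pb : 0 < DL Γ b := hy ▸ dist_pos hF hb y
      obtain ⟨l, -, l1, l2, l3⟩ := hPer J Γ hF x a _ hx pa
      obtain ⟨m, -, m1, m2, m3⟩ := hPer J Γ hF y b _ hy pb
      obtain ⟨M, M0, hM⟩ := l_bdd pa l2 (p := a) (by simp only [det]; ring)
      obtain ⟨N, N0, hN⟩ := l_bdd pb m2 (p := b) (by simp only [det]; ring)
      obtain ⟨_, ⟨i, rfl⟩, _, ⟨j, rfl⟩, e⟩ := hCross J Γ hF a b (Set.range l) (Set.range m) (M + N)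
        hd (l_conn l1) (l_conn m1) ⟨_, 0, rfl⟩ ⟨_, 0, rfl⟩ (l_per l2) (l_per m2)
        (fun z hz => (hM z hz).trans (by omega)) (fun z hz => (hN z hz).trans (by omega))
      have d1 := l3 i (i + DL Γ a)
      have d2 := m3 j (j + DL Γ b)
      rw [l2] at d1
      rw [m2] at d2
      have e1 : l i = tr ((l i).2 - (m j).2) (m j) := Prod.ext e (by simp [tr])
      have d3 : Γ.dist (l i) (tr b (l i)) = Γ.dist (m j) (tr b (m j)) := by
        rw [← dist_tr hF ((l i).2 - (m j).2) (m j), tr_tr, add_comm, ← tr_tr, ← e1]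
      have d4 := tri hF (l i) (tr a (l i)) (tr a (tr b (l i)))
      rw [dist_tr hF, tr_tr, add_comm b a] at d4
      have d5 := dl_le (Γ := Γ) (a + b) (l i)
      omega
  · obtain ⟨x, hx⟩ := dl_ex (Γ := Γ) hJ a
    have pa : 0 < DL Γ a := hx ▸ dist_pos hF ha x
    obtain ⟨l, -, l1, l2, -⟩ := hPer J Γ hF x a _ hx pa
    by_contra hn
    have h12 : DL Γ a = 1 ∨ DL Γ a = 2 := by omega
    have a0 := l1 0
    have a1 := l1 1
    have b0 := l2 0
    rcases h12 with h | h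
    · rw [h] at b0
      simp only [Nat.cast_one] at b0
      rw [b0] at a0
      exact hG.nl _ _ a0 rfl
    · rw [h] at b0
      have e : (1 : ℤ) + 1 = 0 + ((2 : ℕ) : ℤ) := by norm_num
      rw [e, b0] at a1
      rw [zero_add] at a0
      exact ha (tr_fix (hG.simp _ _ _ a0.symm a1 rfl))

end Pool.Agent.P.MP_08fd93_co.OV
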