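import Pool.Agent.P.MP_08fd93_co.OV.Base

/-! Package E1 of project OV: the edge lemma for a finite graph. -/

set_option autoImplicit false

namespace Pool.Agent.P.MP_08fd93_co.OV

namespace PkE1P

variable {W : Type} {H : SimpleGraph W}

/-- The standing hypotheses. -/
structure St (H : SimpleGraph W) (a b : W) : Prop where
  pl : Pl H Set.univ
  ab : H.Adj a b
  fin : (({a, b} : Set W)ᶜ).Finite
  nj : ∀ I : Set W, I ⊆ ({a, b} : Set W)ᶜ → I ≠ ({a, b} : Set W)ᶜ → NJ H I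

variable {a b : W}

theorem memD {x : W} : x ∈ ({a, b} : Set W)ᶜ ↔ x ≠ a ∧ x ≠ b := by simp

theorem memD3 {z x : W} : x ∈ ({a, b, z} : Set W)ᶜ ↔ x ≠ a ∧ x ≠ b ∧ x ≠ z := by simp

theorem St.symm (h : St H a b) : St H b a :=
  ⟨h.pl, h.ab.symm, by rw [Set.pair_comm]; exact h.fin, by rw [Set.pair_comm]; exact h.nj⟩

theorem St.njz (h : St H a b) {I : Set W} {z : W} (hI : I ⊆ ({a, b} : Set W)ᶜ)
    (hz : z ∈ ({a, b} : Set W)ᶜ) (hz' : z ∉ I) : NJ H I :=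
  h.nj I hI fun e => hz' (e ▸ hz)

theorem St.nh (h : St H a b) {E : Set W} {z : W} (hE : E ⊆ ({a, b} : Set W)ᶜ)
    (hz : z ∈ ({a, b} : Set W)ᶜ) (hz' : z ∉ E) (hne : E.Nonempty) {x y : W} (hxy : H.Adj x y)
    (hN : ∀ v ∈ Nb H E, v ∈ E ∨ v = x ∨ v = y) : False :=
  h.njz hE hz hz' E subset_rfl (h.fin.subset hE) hne x y (Or.inr hxy) hN

theorem St.conn (h : St H a b) : IsConn H (({a, b} : Set W)ᶜ) := by
  intro x hx y hy
  by_contra hc
  refine h.nh (E := {v | Conn H ({a, b} : Set W)ᶜ x v}) (fun v hv => Conn.mem hv hx) hy hc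
    ⟨x, Conn.rfl'⟩ h.ab fun v hv => ?_
  by_cases h1 : v ∈ ({a, b} : Set W)ᶜ
  · exact Or.inl (comp_nb hx hv h1)
  · exact Or.inr (by simpa using not_not.1 h1)

/-- If `z` is adjacent to `b` then `a` has a neighbour besides `b` and `z`. -/
theorem St.other (h : St H a b) {z x : W} (hz : z ∈ ({a, b} : Set W)ᶜ) (hzb : H.Adj b z)
    (hx : x ∈ ({a, b, z} : Set W)ᶜ) : ∃ y ∈ ({a, b, z} : Set W)ᶜ, H.Adj a y := by
  by_contra hc
  refine h.nh (E := ({a, b, z} : Set W)ᶜ)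
    (fun v hv => memD.2 ⟨(memD3.1 hv).1, (memD3.1 hv).2.1⟩) hz (by simp) ⟨x, hx⟩ hzb
    fun v hv => ?_
  by_cases h1 : v = a
  · obtain ⟨y, hy, hvy⟩ := hv
    exact absurd ⟨y, hy, h1 ▸ hvy⟩ hc
  · rw [memD3]; tauto

/-- A common neighbour of `a` and `b` outside a connected set `A`. -/
theorem St.common (h : St H a b) {A : Set W} (hA : IsConn H A) (ha : a ∉ A) (hb : b ∉ A)
    {y : W} (hy : H.Adj a y) (hyb : y ≠ b) (hc : Conn H (A ∪ {a})ᶜ b y) :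
    ∃ z, z ∉ A ∧ z ∈ ({a, b} : Set W)ᶜ ∧ H.Adj a z ∧ H.Adj b z := by
  have := tim h.pl (Set.disjoint_singleton_right.2 ha) hA (isConn_single a)
    (Set.finite_singleton a) (x := b) (y := y) ⟨a, rfl, h.ab.symm⟩ ⟨a, rfl, hy.symm⟩
    (by rintro (h1 | h1); exacts [hb h1, h.ab.ne h1.symm]) hc
  obtain ⟨z, ⟨⟨_, rfl, hz1⟩, hz2⟩, hz3⟩ := this.first hyb.symm
  exact ⟨z, fun h1 => hz2 (Or.inl h1), memD.2 ⟨hz1.ne, hz3.ne.symm⟩, hz1.symm, hz3⟩

theorem St.first (h : St H a b) {x x' : W} (hx : x ∈ ({a, b} : Set W)ᶜ)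
    (hx' : x' ∈ ({a, b} : Set W)ᶜ) (hne : x ≠ x') :
    ∃ z ∈ ({a, b} : Set W)ᶜ, H.Adj a z ∧ H.Adj b z := by
  have h3 : ∀ z, ∃ y, y ∈ ({a, b, z} : Set W)ᶜ := fun z => by
    by_cases h1 : x = z
    · exact ⟨x', memD3.2 ⟨(memD.1 hx').1, (memD.1 hx').2, fun e => hne (h1.trans e.symm)⟩⟩
    · exact ⟨x, memD3.2 ⟨(memD.1 hx).1, (memD.1 hx).2, h1⟩⟩
  have sub : ∀ z y, y ∈ ({a, b, z} : Set W)ᶜ → y ∈ ({a, b} : Set W)ᶜ := fun z y hy =>
    memD.2 ⟨(memD3.1 hy).1, (memD3.1 hy).2.1⟩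
  have both : (∃ y ∈ ({a, b} : Set W)ᶜ, H.Adj a y) ∧ ∃ y ∈ ({a, b} : Set W)ᶜ, H.Adj b y := by
    obtain ⟨u, v, -, -, hu, huv, -, hv⟩ :=
      (h.pl.conn x trivial a trivial).exit (R := ({a, b} : Set W)ᶜ) hx (by simp)
    obtain ⟨y, hy⟩ := h3 u
    rcases not_not.1 hv with rfl | hv
    · obtain ⟨w, hw, e⟩ := h.symm.other (z := u) (x := y) (by rw [Set.pair_comm]; exact hu)
        huv.symm (by rw [memD3] at hy ⊢; tauto)
      exact ⟨⟨u, hu, huv.symm⟩, w, by rw [memD3] at hw; rw [memD]; tauto, e⟩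
    · have hv' : v = b := hv
      subst hv'
      obtain ⟨w, hw, e⟩ := h.other hu huv.symm hy
      exact ⟨⟨w, sub _ _ hw, e⟩, u, hu, huv.symm⟩
  obtain ⟨⟨y, hy, hay⟩, w, hw, hbw⟩ := both
  have up : ({a, b} : Set W)ᶜ ⊆ (∅ ∪ {a})ᶜ := fun v hv => by simpa using (memD.1 hv).1
  obtain ⟨z, -, h1, h2⟩ := h.common isConn_empty (fun h => h) (fun h => h) hay (memD.1 hy).2
    ((Conn.step (by simpa using h.ab.ne.symm) (up hw) hbw).trans ((h.conn w hw y hy).up up))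
  exact ⟨z, h1, h2⟩

theorem St.second (h : St H a b) {z x : W} (hz : z ∈ ({a, b} : Set W)ᶜ) (haz : H.Adj a z)
    (hbz : H.Adj b z) (hx : x ∈ ({a, b, z} : Set W)ᶜ) (hc : IsConn H ({a, b, z} : Set W)ᶜ) :
    ∃ z' ∈ ({a, b} : Set W)ᶜ, z' ≠ z ∧ H.Adj a z' ∧ H.Adj b z' := by
  obtain ⟨y, hy, hay⟩ := h.other hz hbz hx
  obtain ⟨w, hw, hbw⟩ := h.symm.other (z := z) (x := x) (by rw [Set.pair_comm]; exact hz) haz
    (by rw [memD3] at hx ⊢; tauto)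
  have hw' : w ∈ ({a, b, z} : Set W)ᶜ := by rw [memD3] at hw ⊢; tauto
  have up : ({a, b, z} : Set W)ᶜ ⊆ ({z} ∪ {a})ᶜ := fun v hv => by
    rintro (h1 | h1)
    exacts [(memD3.1 hv).2.2 h1, (memD3.1 hv).1 h1]
  obtain ⟨z', h0, h1, h2⟩ := h.common (isConn_single z) haz.ne hbz.ne hay (memD3.1 hy).2.1
    ((Conn.step (by rintro (h1 | h1); exacts [hbz.ne h1, h.ab.ne h1.symm]) (up hw') hbw).trans
      ((hc w hw' y hy).up up))
  exact ⟨z', h1, h0, h2⟩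

/-- A closed part next to a common neighbour touches all three corners. -/
theorem St.touch (h : St H a b) {z : W} (hz : z ∈ ({a, b} : Set W)ᶜ) (haz : H.Adj a z)
    (hbz : H.Adj b z) {E : Set W} (hE : E ⊆ ({a, b, z} : Set W)ᶜ) (hne : E.Nonempty)
    (hN : ∀ v ∈ Nb H E, v ∈ ({a, b, z} : Set W)ᶜ → v ∈ E) : ({a, b, z} : Set W) ⊆ Nb H E := by
  have sub : E ⊆ ({a, b} : Set W)ᶜ := fun y hy =>
    memD.2 ⟨(memD3.1 (hE hy)).1, (memD3.1 (hE hy)).2.1⟩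
  have hzE : z ∉ E := fun h1 => (memD3.1 (hE h1)).2.2 rfl
  have hN' : ∀ v ∈ Nb H E, v ∈ E ∨ v = a ∨ v = b ∨ v = z := fun v hv => by
    have := hN v hv
    rw [memD3] at this
    tauto
  rintro p (rfl | rfl | rfl) <;> by_contra hc
  · exact h.nh sub hz hzE hne hbz fun v hv => by
      rcases hN' v hv with h1 | rfl | h1 | h1 <;> tauto
  · exact h.nh sub hz hzE hne haz fun v hv => by
      rcases hN' v hv with h1 | h1 | rfl | h1 <;> tauto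
  · exact h.nh sub hz hzE hne h.ab fun v hv => by
      rcases hN' v hv with h1 | h1 | h1 | rfl <;> tauto

theorem third (k1 k2 : Col) : ∃ k : Col, k ≠ k1 ∧ k ≠ k2 := by
  revert k1 k2; decide

/-- Adding the vertex `z`, coloured differently from `a` and `b`. -/
theorem add_z {z : W} (hz : z ∈ ({a, b} : Set W)ᶜ)
    (hR : ∀ c : W → Col, c b ≠ c z → ∃ c', Rec H ({a, b, z} : Set W)ᶜ ∅ c c') (c : W → Col) :
    ∃ c', Rec H ({a, b} : Set W)ᶜ ∅ c c' := by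
  classical
  obtain ⟨k, ka, kb⟩ := third (c a) (c b)
  have za := (memD.1 hz).1
  have zb := (memD.1 hz).2
  obtain ⟨c', hc'⟩ := hR (Function.update c z k) (by
    rw [Function.update_self, Function.update_of_ne zb.symm]; exact kb.symm)
  have ea : c' a = c a := by rw [hc'.off a (by simp), Function.update_of_ne za.symm]
  have eb : c' b = c b := by rw [hc'.off b (by simp), Function.update_of_ne zb.symm]
  have ez : c' z = k := by rw [hc'.off z (by simp), Function.update_self]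
  have al : ∀ x, x ∉ ({a, b} : Set W)ᶜ → ∀ y ∈ ({a, b} : Set W)ᶜ, H.Adj x y → c' y ≠ c' x := by
    intro x hx y hy e he
    by_cases h1 : y = z
    · rw [h1, ez] at he
      rcases not_not.1 hx with rfl | hx
      · exact ka (he.trans ea)
      · rw [show x = b from hx] at he
        exact kb (he.trans eb)
    · exact hc'.al x (by rw [memD] at hx; rw [memD3]; tauto) y
        (by rw [memD] at hy; rw [memD3]; tauto) e he
  refine ⟨c', ?_, ?_, fun x hx y hy e he => absurd he (al x hx y hy e),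
    fun x hx y hy _ _ e _ he _ => absurd he (al x hx y hy e)⟩
  · intro x hx
    rcases not_not.1 hx with rfl | hx
    · exact ea
    · rw [show x = b from hx]; exact eb
  · intro x hx
    by_cases h1 : x = z
    · intro y _ e _ he _
      exfalso
      by_cases h2 : y ∈ ({a, b} : Set W)ᶜ
      · exact hc'.al x (by simp [h1]) y
          (memD3.2 ⟨(memD.1 h2).1, (memD.1 h2).2, fun h3 => e.ne (h1.trans h3.symm)⟩) e he
      · exact al y h2 x hx e.symm he.symm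
    · exact hc'.one x (memD3.2 ⟨(memD.1 hx).1, (memD.1 hx).2, h1⟩)

/-- The case of a separating triangle. -/
theorem St.sep (h : St H a b) (hT : ∀ n, TriN H n) {z : W} (hz : z ∈ ({a, b} : Set W)ᶜ)
    (haz : H.Adj a z) (hbz : H.Adj b z) (hc : ¬ IsConn H ({a, b, z} : Set W)ᶜ) (c : W → Col)
    (hbc : c b ≠ c z) : ∃ c', Rec H ({a, b, z} : Set W)ᶜ ∅ c c' := by
  unfold IsConn at hc
  push Not at hc
  obtain ⟨x1, h1, x2, h2, hn⟩ := hc
  have sub : ({a, b, z} : Set W)ᶜ ⊆ ({a, b} : Set W)ᶜ := fun y hy =>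
    memD.2 ⟨(memD3.1 hy).1, (memD3.1 hy).2.1⟩
  have fI := h.fin.subset sub
  have nI : NJ H ({a, b, z} : Set W)ᶜ := h.njz sub hz (by simp)
  generalize hK : ({a, b, z} : Set W) = K at h1 h2 hn sub fI nI
  have m1 : ∀ y, Conn H Kᶜ x1 y → y ∈ Kᶜ := fun y hy => hy.mem h1
  have m2 : ∀ y, Conn H Kᶜ x2 y → y ∈ Kᶜ := fun y hy => hy.mem h2
  have t1 : K ⊆ Nb H {y | Conn H Kᶜ x1 y} := by
    subst hK
    exact h.touch hz haz hbz m1 ⟨x1, Conn.rfl'⟩ fun v hv hv' => comp_nb h1 hv hv'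
  have t2 : K ⊆ Nb H {y | Conn H Kᶜ x2 y} := by
    subst hK
    exact h.touch hz haz hbz m2 ⟨x2, Conn.rfl'⟩ fun v hv hv' => comp_nb h2 hv hv'
  have n1 : Nb H {y | Conn H Kᶜ x1 y} ⊆ {y | Conn H Kᶜ x1 y} ∪ K := fun v hv => by
    by_cases h3 : v ∈ K
    exacts [Or.inr h3, Or.inl (comp_nb h1 hv h3)]
  have nt : ¬ Touch H {y | Conn H Kᶜ x1 y} (Kᶜ \ {y | Conn H Kᶜ x1 y}) := by
    rintro ⟨u, hu, v, hv, e⟩
    exact hv.2 (comp_nb h1 ⟨u, hu, e.symm⟩ hv.1)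
  have n2 : Nb H (Kᶜ \ {y | Conn H Kᶜ x1 y}) ⊆ (Kᶜ \ {y | Conn H Kᶜ x1 y}) ∪ K := by
    rintro v ⟨u, hu, e⟩
    by_cases h3 : v ∈ K
    exacts [Or.inr h3, Or.inl ⟨h3, fun h4 => nt ⟨v, h4, u, hu, e⟩⟩]
  have T1 : Tri H {y | Conn H Kᶜ x1 y} a b z := by
    refine hT _ {y | Conn H Kᶜ x2 y} Kᶜ _ a b z h.ab hbz haz (isConn_comp _ _) (hK ▸ t2) ?_ ?_
      ?_ fI nI (hK ▸ n1) (Nat.lt_succ_self _)
    · rw [hK]
      refine Set.disjoint_left.2 ?_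
      rintro y hy (h3 | h3)
      exacts [hn (Conn.trans h3 (Conn.symm hy)), m2 y hy h3]
    · rw [hK]; exact Set.disjoint_left.2 m1
    · rw [hK]; exact fun y hy h3 => hy (Or.inr h3)
  have T2 : Tri H (Kᶜ \ {y | Conn H Kᶜ x1 y}) a b z := by
    refine hT _ {y | Conn H Kᶜ x1 y} Kᶜ _ a b z h.ab hbz haz (isConn_comp _ _) (hK ▸ t1) ?_ ?_
      ?_ fI nI (hK ▸ n2) (Nat.lt_succ_self _)
    · rw [hK]
      refine Set.disjoint_left.2 ?_
      rintro y hy (h3 | h3)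
      exacts [h3.2 hy, m1 y hy h3]
    · rw [hK]; exact Set.disjoint_left.2 fun y hy => hy.1
    · rw [hK]; exact fun y hy h3 => hy (Or.inr h3)
  obtain ⟨c1, r1⟩ := T1 c fun h3 => hbc h3.2
  have off : ∀ p ∈ K, c1 p = c p := fun p hp => r1.off p fun h3 => m1 p h3 hp
  obtain ⟨c2, r2⟩ := T2 c1 fun h3 => hbc (by
    rw [← off b (by rw [← hK]; simp), ← off z (by rw [← hK]; simp)]; exact h3.2)
  have r := r1.union r2 Set.disjoint_sdiff_right nt fun x _ _ h3 => h3.elim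
  have m1' : {y | Conn H Kᶜ x1 y} ⊆ Kᶜ := m1
  rw [Set.union_empty, Set.union_diff_cancel m1'] at r
  exact ⟨c2, r⟩

/-- No component beside the path touches both `a` and `b`. -/
theorem St.cross (h : St H a b)
    (hB : ∀ z ∈ ({a, b} : Set W)ᶜ, H.Adj a z → H.Adj b z → IsConn H ({a, b, z} : Set W)ᶜ)
    {R : Set W} {ρ : W → ℤ} {z z' : W} (hR : Pth H R ρ z z') (hne : z ≠ z')
    (hRD : R ⊆ ({a, b} : Set W)ᶜ) (hRa : ∀ r ∈ R, H.Adj a r) (hbz : H.Adj b z)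
    (hbz' : H.Adj b z') {u v : W} (hu : u ∈ ({a, b} : Set W)ᶜ \ R)
    (huv : Conn H (({a, b} : Set W)ᶜ \ R) u v) (ha : H.Adj a u) (hb : H.Adj b v) : False := by
  have m : ∀ y, Conn H (({a, b} : Set W)ᶜ \ R) u y → y ∈ ({a, b} : Set W)ᶜ \ R :=
    fun y hy => hy.mem hu
  have cE := isConn_comp (H := H) (({a, b} : Set W)ᶜ \ R) u
  have nE : ∀ x ∈ Nb H {y | Conn H (({a, b} : Set W)ᶜ \ R) u y}, x ∈ ({a, b} : Set W)ᶜ →
      x ∉ R → x ∈ {y | Conn H (({a, b} : Set W)ᶜ \ R) u y} :=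
    fun x hx h1 h2 => comp_nb hu hx ⟨h1, h2⟩
  have uE : u ∈ {y | Conn H (({a, b} : Set W)ᶜ \ R) u y} := Conn.rfl'
  have vE : v ∈ {y | Conn H (({a, b} : Set W)ᶜ \ R) u y} := huv
  have mE : {y | Conn H (({a, b} : Set W)ᶜ \ R) u y} ⊆ ({a, b} : Set W)ᶜ \ R := m
  generalize {y | Conn H (({a, b} : Set W)ᶜ \ R) u y} = E at cE nE uE vE mE
  have da : ∀ S : Set W, S ⊆ ({a, b} : Set W)ᶜ → Disjoint {a} S := fun S hS =>
    Set.disjoint_singleton_left.2 fun h1 => (memD.1 (hS h1)).1 rfl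
  have db : ∀ S : Set W, S ⊆ ({a, b} : Set W)ᶜ → Disjoint {b} S := fun S hS =>
    Set.disjoint_singleton_left.2 fun h1 => (memD.1 (hS h1)).2 rfl
  have dE : ∀ S : Set W, S ⊆ R → Disjoint E S := fun S hS =>
    Set.disjoint_left.2 fun x h1 h2 => (mE h1).2 (hS h2)
  have sE : E ⊆ ({a, b} : Set W)ᶜ := fun x hx => (mE hx).1
  by_cases h2 : ∃ r1 ∈ R, ∃ r2 ∈ R, ρ r1 < ρ r2 ∧ r1 ∈ Nb H E ∧ r2 ∈ Nb H E
  · obtain ⟨r1, a1, r2, a2, lt, ⟨y1, b1, e1⟩, y2, b2, e2⟩ := h2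
    have s1 : {x | x ∈ R ∧ ρ x ≤ ρ r1} ⊆ R := fun x hx => hx.1
    have s2 : {x | x ∈ R ∧ ρ r1 < ρ x} ⊆ R := fun x hx => hx.1
    have l2 := hR.hi r2 a2
    obtain ⟨s, hs, ls, es, -⟩ := hR.succ a1 (by rintro rfl; omega)
    exact k5 h.pl (isConn_single a) (isConn_single b) cE
      (hR.seg_conn s1 fun p hp q hq x hx l l' => ⟨hx, by have := hq.2; omega⟩)
      (hR.seg_conn s2 fun p hp q hq x hx l l' => ⟨hx, by have := hp.2; omega⟩)
      ⟨Set.disjoint_singleton.2 h.ab.ne, a, rfl, b, rfl, h.ab⟩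
      ⟨da _ sE, a, rfl, u, uE, ha⟩
      ⟨da _ (s1.trans hRD), a, rfl, z, ⟨hR.ha, hR.lo _ a1⟩, hRa _ hR.ha⟩
      ⟨da _ (s2.trans hRD), a, rfl, z', ⟨hR.hb, by omega⟩, hRa _ hR.hb⟩
      ⟨db _ sE, b, rfl, v, vE, hb⟩
      ⟨db _ (s1.trans hRD), b, rfl, z, ⟨hR.ha, hR.lo _ a1⟩, hbz⟩
      ⟨db _ (s2.trans hRD), b, rfl, z', ⟨hR.hb, by omega⟩, hbz'⟩
      ⟨dE _ s1, y1, b1, r1, ⟨a1, le_rfl⟩, e1.symm⟩
      ⟨dE _ s2, y2, b2, r2, ⟨a2, lt⟩, e2.symm⟩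
      ⟨Set.disjoint_left.2 fun x p q => by have := p.2; have := q.2; omega,
        r1, ⟨a1, le_rfl⟩, s, ⟨hs, ls⟩, es⟩
  have ex : ∃ r ∈ R, r ∈ Nb H E := by
    by_contra hc
    refine h.nh sE (hRD hR.ha) (fun h1 => (mE h1).2 hR.ha) ⟨u, uE⟩ h.ab fun x hx => ?_
    by_cases h1 : x ∈ ({a, b} : Set W)ᶜ
    · exact Or.inl (nE x hx h1 fun h3 => hc ⟨x, h3, hx⟩)
    · exact Or.inr (by simpa using not_not.1 h1)
  obtain ⟨r, hr, hrE⟩ := ex
  have uq : ∀ x ∈ R, x ∈ Nb H E → x = r := fun x hx hxE => by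
    by_contra h1
    rcases hR.lt_or hx hr h1 with l | l
    exacts [h2 ⟨x, hx, r, hr, l, hxE, hrE⟩, h2 ⟨r, hr, x, hx, l, hrE, hxE⟩]
  have ends : ∀ w ∈ R, w ≠ r → ¬ H.Adj b r := fun w hw hwr hbr => by
    have cn := hB r (hRD hr) (hRa r hr) hbr u
      (memD3.2 ⟨(memD.1 hu.1).1, (memD.1 hu.1).2, fun e => hu.2 (e ▸ hr)⟩) w
      (memD3.2 ⟨(memD.1 (hRD hw)).1, (memD.1 (hRD hw)).2, hwr⟩)
    obtain ⟨p, q, -, -, hp, e, hq, hq'⟩ := cn.exit uE fun h1 => (mE h1).2 hw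
    rw [memD3] at hq
    exact hq' (nE q ⟨p, hp, e.symm⟩ (memD.2 ⟨hq.1, hq.2.1⟩)
      fun h1 => hq.2.2 (uq q h1 ⟨p, hp, e.symm⟩))
  have rz : r ≠ z := fun e => ends z' hR.hb (fun e' => hne (e.symm.trans e'.symm)) (e ▸ hbz)
  have rz' : r ≠ z' := fun e => ends z hR.ha (fun e' => hne (e'.trans e)) (e ▸ hbz')
  have s1 : {x | x ∈ R ∧ ρ x < ρ r} ⊆ R := fun x hx => hx.1
  have s2 : {x | x ∈ R ∧ ρ r < ρ x} ⊆ R := fun x hx => hx.1
  obtain ⟨s, hs, ls, es, -⟩ := hR.succ hr rz'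
  obtain ⟨t, ht, lt, et, -⟩ := hR.pred hr rz
  obtain ⟨y, hy, ey⟩ := hrE
  exact k33 h.pl (isConn_single a) (isConn_single b) (isConn_single r) cE
    (hR.seg_conn s1 fun p hp q hq x hx l l' => ⟨hx, by have := hq.2; omega⟩)
    (hR.seg_conn s2 fun p hp q hq x hx l l' => ⟨hx, by have := hp.2; omega⟩)
    (Set.disjoint_singleton.2 h.ab.ne) (Set.disjoint_singleton.2 (memD.1 (hRD hr)).1.symm)
    (Set.disjoint_singleton.2 (memD.1 (hRD hr)).2.symm) (dE _ s1) (dE _ s2)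
    (Set.disjoint_left.2 fun x p q => by have := p.2; have := q.2; omega)
    ⟨da _ sE, da _ (s1.trans hRD), da _ (s2.trans hRD)⟩
    ⟨db _ sE, db _ (s1.trans hRD), db _ (s2.trans hRD)⟩
    ⟨Set.disjoint_singleton_left.2 fun h1 => (mE h1).2 hr,
      Set.disjoint_singleton_left.2 fun h1 => lt_irrefl _ h1.2,
      Set.disjoint_singleton_left.2 fun h1 => lt_irrefl _ h1.2⟩
    ⟨⟨a, rfl, u, uE, ha⟩, ⟨a, rfl, z, ⟨hR.ha, hR.lo_lt hr rz⟩, hRa _ hR.ha⟩,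
      ⟨a, rfl, z', ⟨hR.hb, hR.lt_hi hr rz'⟩, hRa _ hR.hb⟩⟩
    ⟨⟨b, rfl, v, vE, hb⟩, ⟨b, rfl, z, ⟨hR.ha, hR.lo_lt hr rz⟩, hbz⟩,
      ⟨b, rfl, z', ⟨hR.hb, hR.lt_hi hr rz'⟩, hbz'⟩⟩
    ⟨⟨r, rfl, y, hy, ey⟩, ⟨r, rfl, t, ⟨ht, lt⟩, et.symm⟩, ⟨r, rfl, s, ⟨hs, ls⟩, es⟩⟩

/-- The star configuration. -/
theorem St.star (h : St H a b)
    (hB : ∀ z ∈ ({a, b} : Set W)ᶜ, H.Adj a z → H.Adj b z → IsConn H ({a, b, z} : Set W)ᶜ)
    {z z' : W} (hz : z ∈ ({a, b} : Set W)ᶜ) (hz' : z' ∈ ({a, b} : Set W)ᶜ) (hne : z ≠ z')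
    (haz : H.Adj a z) (hbz : H.Adj b z) (haz' : H.Adj a z') (hbz' : H.Adj b z') :
    ∃ (d : DD W) (Ia : Set W), StarH H d a b Ia ∧ d.a' = z ∧ d.b' = z' ∧
      Ia ∪ d.I ∪ d.Y = ({a, b} : Set W)ᶜ := by
  have e0 : (({b} : Set W) ∪ {a})ᶜ = ({a, b} : Set W)ᶜ := by
    ext x; simp
  have cn := tim h.pl (Set.disjoint_singleton.2 h.ab.ne.symm) (isConn_single b) (isConn_single a)
    (Set.finite_singleton a) (x := z) (y := z') ⟨a, rfl, haz.symm⟩ ⟨a, rfl, haz'.symm⟩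
    (by rw [← Set.mem_compl_iff, e0]; exact hz) (by rw [e0]; exact h.conn z hz z' hz')
  obtain ⟨R, ρ, v, hR, hRs, hv, -⟩ := exists_pth (B := {z'}) cn
    ⟨⟨a, rfl, haz.symm⟩, by rw [← Set.mem_compl_iff, e0]; exact hz⟩ rfl
  have hv' : v = z' := hv
  subst hv'
  have hRD : R ⊆ ({a, b} : Set W)ᶜ := fun r hr => by
    rw [← e0]; exact (hRs hr).2
  have hRa : ∀ r ∈ R, H.Adj a r := fun r hr => by
    obtain ⟨_, rfl, e⟩ := (hRs hr).1
    exact e.symm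
  let Ia : Set W := {x | ∃ u ∈ ({a, b} : Set W)ᶜ \ R, H.Adj a u ∧
    Conn H (({a, b} : Set W)ᶜ \ R) u x}
  have mI : Ia ⊆ ({a, b} : Set W)ᶜ \ R := by
    rintro x ⟨u, hu, -, hc⟩
    exact hc.mem hu
  have grow : ∀ x ∈ Nb H Ia, x ∈ ({a, b} : Set W)ᶜ → x ∉ R → x ∈ Ia := by
    rintro x ⟨y, hy, e⟩ h1 h2
    have hy' := mI hy
    obtain ⟨u, hu, ea, hc⟩ := hy
    exact ⟨u, hu, ea, hc.snoc hy' ⟨h1, h2⟩ e.symm⟩
  have nb : b ∉ Nb H Ia := by
    rintro ⟨y, ⟨u, hu, ea, hc⟩, e⟩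
    exact h.cross hB hR hne hRD hRa hbz hbz' hu hc ea e
  have aI : a ∉ Ia := fun h1 => (memD.1 (mI h1).1).1 rfl
  have bI : b ∉ Ia := fun h1 => (memD.1 (mI h1).1).2 rfl
  have aR : a ∉ R := fun h1 => (memD.1 (hRD h1)).1 rfl
  have bR : b ∉ R := fun h1 => (memD.1 (hRD h1)).2 rfl
  let d : DD W := ⟨Ia ∪ {a}, {b}, R, ρ, b, b, z, v⟩
  have hI : ∀ x, x ∈ d.I ↔ x ∉ Ia ∧ x ≠ a ∧ x ≠ b ∧ x ∉ R := fun x => by
    rw [DD.mem_I]
    simp only [d, Set.mem_union, Set.mem_singleton_iff]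
    tauto
  have hU : Ia ∪ d.I ∪ d.Y = ({a, b} : Set W)ᶜ := by
    ext x
    constructor
    · rintro ((h1 | h1) | h1)
      exacts [(mI h1).1, memD.2 ⟨((hI x).1 h1).2.1, ((hI x).1 h1).2.2.1⟩, hRD h1]
    · intro h1
      by_cases h2 : x ∈ Ia
      · exact Or.inl (Or.inl h2)
      · by_cases h3 : x ∈ R
        · exact Or.inr h3
        · exact Or.inl (Or.inr ((hI x).2 ⟨h2, (memD.1 h1).1, (memD.1 h1).2, h3⟩))
  have sI : d.I ⊆ ({a, b} : Set W)ᶜ := fun x hx => hU ▸ Or.inl (Or.inr hx)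
  have hZ : IsConn H (Ia ∪ {a}) := by
    refine isConn_of a ?_
    rintro x (⟨u, hu, ea, hc⟩ | rfl)
    · exact ((hc.sub fun w hw => Or.inl ⟨u, hu, ea, hw⟩).symm).snoc
        (Or.inl ⟨u, hu, ea, Conn.rfl'⟩) (Or.inr rfl) ea.symm
    · exact Conn.rfl'
  have hd : Disc H d := by
    refine ⟨Pth.single _ _, hR, Set.disjoint_singleton_left.2 bR, hbz, hbz', hZ, ?_, ?_, ?_,
      h.fin.subset sI, h.njz sI hz fun h1 => ((hI z).1 h1).2.2.2 hR.ha⟩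
    · refine Set.disjoint_left.2 ?_
      rintro x (h1 | h1) (h2 | h2)
      · exact bI ((show x = b from h2) ▸ h1)
      · exact (mI h1).2 h2
      · exact h.ab.ne ((show x = a from h1).symm.trans h2)
      · exact aR ((show x = a from h1) ▸ h2)
    · intro x hx
      by_cases h1 : x = a
      · exact Or.inl (Or.inr h1)
      by_cases h2 : x = b
      · exact Or.inr (Or.inl h2)
      by_cases h3 : x ∈ R
      · exact Or.inr (Or.inr h3)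
      obtain ⟨y, hy | hy, e⟩ := hx
      · exact Or.inl (Or.inl (grow x ⟨y, hy, e⟩ (memD.2 ⟨h1, h2⟩) h3))
      · rw [show y = a from hy] at e
        exact Or.inl (Or.inl ⟨x, ⟨memD.2 ⟨h1, h2⟩, h3⟩, e.symm, Conn.rfl'⟩)
    · rintro x (h1 | h1)
      · rw [show x = b from h1]; exact ⟨a, Or.inr rfl, h.ab.symm⟩
      · exact ⟨a, Or.inr rfl, (hRa x h1).symm⟩
  have e1 : (d.Z \ (Ia ∪ {a})) ∪ {b} = {b} := by
    show ((Ia ∪ {a}) \ (Ia ∪ {a})) ∪ {b} = {b}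
    simp
  refine ⟨d, Ia, ⟨hd, rfl, Or.inr rfl, hRa, Set.subset_union_left, aI,
    h.fin.subset fun x hx => (mI hx).1, ?_, hne, ?_, by rw [e1]; exact isConn_single b,
    by rw [e1]; exact ⟨b, rfl, h.ab⟩, fun x hx => absurd hx.1 hx.2⟩, rfl, rfl, hU⟩
  · intro x hx
    by_cases h1 : x = a
    · exact Or.inr (Or.inr h1)
    by_cases h3 : x ∈ R
    · exact Or.inr (Or.inl h3)
    exact Or.inl (grow x hx (memD.2 ⟨h1, fun e => nb (e ▸ hx)⟩) h3)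
  · rw [hU]
    exact h.njz Set.diff_subset hz fun h1 => h1.2 (Or.inl rfl)

end PkE1P

open PkE1P in
theorem pk_E1 : S_PE1 := by
  classical
  intro hTri hStar W H hP hT a b hab hf hN c
  have h : St H a b := ⟨hP, hab, hf, hN⟩
  rcases (({a, b} : Set W)ᶜ).eq_empty_or_nonempty with he | ⟨x, hx⟩
  · rw [he]; exact ⟨c, Rec.empty c ∅⟩
  rcases (({a, b, x} : Set W)ᶜ).eq_empty_or_nonempty with he | ⟨x', hx'⟩
  · exact add_z hx (fun c _ => by rw [he]; exact ⟨c, Rec.empty c ∅⟩) c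
  have hx'' : x' ∈ ({a, b} : Set W)ᶜ := memD.2 ⟨(memD3.1 hx').1, (memD3.1 hx').2.1⟩
  by_cases hB : ∀ z ∈ ({a, b} : Set W)ᶜ, H.Adj a z → H.Adj b z → IsConn H ({a, b, z} : Set W)ᶜ
  swap
  · push Not at hB
    obtain ⟨z, hz, haz, hbz, hc⟩ := hB
    exact add_z hz (h.sep (fun n => hTri W H hP n (hT.tn n)) hz haz hbz hc) c
  obtain ⟨z, hz, haz, hbz⟩ := h.first hx hx'' (memD3.1 hx').2.2.symm
  obtain ⟨y, hy⟩ : ∃ y, y ∈ ({a, b, z} : Set W)ᶜ := by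
    by_cases h1 : x = z
    · exact ⟨x', h1 ▸ hx'⟩
    · exact ⟨x, memD3.2 ⟨(memD.1 hx).1, (memD.1 hx).2, h1⟩⟩
  obtain ⟨z', hz', hne, haz', hbz'⟩ := h.second hz haz hbz hy (hB z hz haz hbz)
  obtain ⟨d, Ia, hS, e1, e2, hU⟩ := h.star hB hz hz' hne.symm haz hbz haz' hbz'
  obtain ⟨π, pa, pb⟩ := repair2 (c a) (c b)
  let c0 : W → Col := fun v =>
    if v = z then π.symm (true, false) else if v = z' then π.symm (true, true) else c v
  have ca : c0 a = c a := by simp [c0, haz.ne, haz'.ne]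
  have cb : c0 b = c b := by simp [c0, hbz.ne, hbz'.ne]
  have cz : π (c0 z) = (true, false) := by simp [c0]
  have cz' : π (c0 z') = (true, true) := by simp [c0, hne]
  obtain ⟨c', hc', -⟩ := hStar W H hP hT d a b Ia hS (fun v => π (c0 v))
    (by simp only [ca, cb, pa, pb]) (by simp only [e1, e2, cz, cz'])
    (by simp only [e1, ca, cz, pa]; decide)
  rw [hU, e1, e2] at hc'
  have oa : (c' a).1 = false := by rw [hc'.off a (by simp)]; simp only [ca, pa]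
  have ob : (c' b).1 = false := by rw [hc'.off b (by simp)]; simp only [cb, pb]
  have oz : c' z = (true, false) := by rw [hc'.off z (by simp)]; exact cz
  have oz' : c' z' = (true, true) := by rw [hc'.off z' (by simp)]; exact cz'
  have oo : ∀ v, v ∉ ({a, b} : Set W)ᶜ → (c' v).1 = false := fun v hv => by
    rcases not_not.1 hv with rfl | hv
    · exact oa
    · rw [show v = b from hv]; exact ob
  have ot : ∀ v ∈ ({z, z'} : Set W), (c' v).1 = true := by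
    rintro v (rfl | rfl)
    · rw [oz]
    · rw [oz']
  have al : ∀ v, v ∉ ({a, b} : Set W)ᶜ → ∀ w ∈ ({a, b} : Set W)ᶜ, H.Adj v w → c' w ≠ c' v := by
    intro v hv w hw e he
    have h1 := oo v hv
    by_cases h2 : w ∈ ({z, z'} : Set W)
    · have h3 := ot w h2
      rw [he, h1] at h3
      exact absurd h3 (by decide)
    · have h3 := ot v (hc'.al v (fun h4 => hv h4.1) w ⟨hw, h2⟩ e he)
      rw [h1] at h3
      exact absurd h3 (by decide)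
  refine ⟨_, Rec.perm π (c' := c') ⟨?_, ?_, fun v hv w hw e he => absurd he (al v hv w hw e),
    fun v hv w hw _ _ e _ he _ => absurd he (al v hv w hw e)⟩⟩
  · intro v hv
    rw [hc'.off v fun h4 => hv h4.1]
    rcases not_not.1 hv with rfl | hv
    · simp only [ca]
    · rw [show v = b from hv]; simp only [cb]
  · intro v hv
    by_cases h2 : v ∈ ({z, z'} : Set W)
    · have key : ∀ w, H.Adj v w → c' w = c' v → w ∈ ({a, b} : Set W)ᶜ \ {z, z'} := by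
        intro w e he
        refine ⟨?_, fun h3 => ?_⟩
        · by_contra h3
          exact al w h3 v hv e.symm he.symm
        · rcases h2 with rfl | rfl <;> rcases h3 with rfl | rfl
          · exact e.ne rfl
          · rw [oz, oz'] at he; exact absurd he (by decide)
          · rw [oz, oz'] at he; exact absurd he (by decide)
          · exact e.ne rfl
      intro w w' e e' he he'
      exact hc'.un v (fun h4 => h4.2 h2) w (key w e he) w' (key w' e' he') e e' he he'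
    · exact hc'.one v ⟨hv, h2⟩

end Pool.Agent.P.MP_08fd93_co.OV
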