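import Pool.Agent.P.MP_08fd93_co.OV.Base

/-! Package E2 of project OV: the edge lemma for a part that hangs on a vertex or an edge. -/

set_option autoImplicit false

namespace Pool.Agent.P.MP_08fd93_co.OV

namespace PkE2P

variable {W : Type} {H : SimpleGraph W}

/-- a part that hangs on one vertex -/
theorem vertex (hP : Pl H Set.univ) {D : Set W} {a : W} (hf : D.Finite) (ha : a ∉ D)
    (hN : Nb H D ⊆ D ∪ {a, a}) (hJ : ∀ I : Set W, I ⊆ D → I ≠ D → NJ H I) (c : W → Col) :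
    ∃ c', Rec H D ∅ c c' := by
  classical
  rcases D.eq_empty_or_nonempty with rfl | ⟨d, hd⟩
  · exact ⟨c, Rec.empty c ∅⟩
  have out : ∀ x, x ∉ D → ∀ y ∈ D, H.Adj x y → x = a := by
    intro x hx y hy e
    rcases hN ⟨y, hy, e⟩ with h | h
    · exact absurd h hx
    · simpa using h
  obtain ⟨z, v, -, -, hz, e, -, hv⟩ := (hP.conn d trivial a trivial).exit hd ha
  obtain rfl : v = a := out v hv z hz e.symm
  have hD : ∀ y ∈ D, y = z := by
    intro y hy
    by_contra hyz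
    refine hJ (D \ {z}) Set.sdiff_subset (fun h => ?_) (D \ {z}) subset_rfl
      (hf.subset Set.sdiff_subset) ⟨y, hy, hyz⟩ z v (Or.inr e) ?_
    · have : z ∈ D \ {z} := by rw [h]; exact hz
      exact this.2 rfl
    · rintro x ⟨w, hw, ew⟩
      by_cases hx : x ∈ D
      · by_cases hxz : x = z
        · exact Or.inr (Or.inl hxz)
        · exact Or.inl ⟨hx, hxz⟩
      · exact Or.inr (Or.inr (out x hx w hw.1 ew))
  have hvz : v ≠ z := e.ne'
  refine ⟨fun x => if x = z then flipC (c v) else c x, fun x hx => ?_, fun x hx => ?_,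
    fun x hx y hy exy hc => ?_, fun x _ y hy w hw _ _ _ _ => ?_⟩
  · exact if_neg fun h : x = z => hx (h ▸ hz)
  · intro y w ey ew _ _
    have key : ∀ t, H.Adj x t → t = v := by
      intro t et
      refine out t (fun ht => et.ne ?_) x hx et.symm
      rw [hD x hx, hD t ht]
    rw [key y ey, key w ew]
  · obtain rfl : x = v := out x hx y hy exy
    rw [hD y hy] at hc
    simp only [if_neg hvz, if_true] at hc
    exfalso
    have := congrArg Prod.fst hc
    revert this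
    rcases c x with ⟨p, q⟩
    cases p <;> simp [flipC]
  · rw [hD y hy, hD w hw]

/-- the part together with the edge is again a plane triangulation -/
theorem quot (hQ : S_Quot) (hP : Pl H Set.univ) (hO : OE H) {D : Set W} {a b : W}
    (hf : D.Finite) (ha : a ∉ D) (hb : b ∉ D) (e : H.Adj a b) (hN : Nb H D ⊆ D ∪ {a, b}) :
    Pl (H.comap (Subtype.val : ↥(D ∪ {a, b}) → W)) Set.univ := by
  classical
  set F : Set W := D ∪ {a, b} with hF
  have haF : a ∈ F := Or.inr (Or.inl rfl)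
  have hbF : b ∈ F := Or.inr (Or.inr rfl)
  let T : W → Prop := fun x => ∃ y, Conn H Fᶜ x y ∧ H.Adj y a
  let π : W → ↥F := fun x => if h : x ∈ F then ⟨x, h⟩ else if T x then ⟨a, haF⟩ else ⟨b, hbF⟩
  have pF : ∀ x (h : x ∈ F), π x = ⟨x, h⟩ := fun x h => dif_pos h
  have pT : ∀ x, x ∉ F → T x → π x = ⟨a, haF⟩ := fun x h h' => by
    simp only [π, dif_neg h, if_pos h']
  have pN : ∀ x, x ∉ F → ¬ T x → π x = ⟨b, hbF⟩ := fun x h h' => by
    simp only [π, dif_neg h, if_neg h']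
  have pO : ∀ x, x ∉ F → (π x).1 = a ∨ (π x).1 = b := fun x h => by
    by_cases h' : T x
    · rw [pT x h h']; exact Or.inl rfl
    · rw [pN x h h']; exact Or.inr rfl
  have cT : ∀ x y, Conn H Fᶜ x y → (T x ↔ T y) := fun x y h =>
    ⟨fun ⟨w, h1, h2⟩ => ⟨w, h.symm.trans h1, h2⟩, fun ⟨w, h1, h2⟩ => ⟨w, h.trans h1, h2⟩⟩
  have cP : ∀ x y, x ∉ F → Conn H Fᶜ x y → π y = π x := fun x y hx h => by
    have hy : y ∉ F := h.mem hx
    by_cases h' : T x
    · rw [pT x hx h', pT y hy ((cT x y h).1 h')]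
    · rw [pN x hx h', pN y hy fun h'' => h' ((cT x y h).2 h'')]
  have nD : ∀ x, x ∉ F → ∀ y ∈ F, H.Adj x y → y = a ∨ y = b := by
    rintro x hx y (hy | hy) exy
    · exact absurd (hN ⟨y, hy, exy⟩) hx
    · simpa using hy
  refine hQ W ↥F H _ Set.univ Set.univ π hP ?_ ?_ ?_ ?_
  · refine Set.eq_univ_of_forall fun x => ⟨x.1, trivial, pF x.1 x.2⟩
  · intro x _
    refine isConn_of x.1 fun y hy => ?_
    have hy' : π y = x := hy.2
    have hxx : x.1 ∈ Set.univ ∩ π ⁻¹' {x} := ⟨trivial, pF x.1 x.2⟩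
    by_cases hyF : y ∈ F
    · rw [pF y hyF] at hy'
      rw [← hy']
      exact Conn.rfl'
    have walk : ∀ u, Conn H Fᶜ y u → H.Adj u x.1 → Conn H (Set.univ ∩ π ⁻¹' {x}) y x.1 := by
      intro u hu eu
      have hs : ∀ w, Conn H Fᶜ y w → w ∈ Set.univ ∩ π ⁻¹' {x} := fun w hw =>
        ⟨trivial, (cP y w hyF hw).trans hy'⟩
      exact (hu.sub hs).snoc (hs u hu) hxx eu
    by_cases hT : T y
    · rw [pT y hyF hT] at hy'
      obtain ⟨u, hu, eu⟩ := hT
      refine walk u hu ?_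
      rw [← hy']
      exact eu
    · rw [pN y hyF hT] at hy'
      obtain ⟨u, v, hu, -, huF, euv, -, hv⟩ :=
        (hP.conn y trivial b trivial).exit (R := Fᶜ) hyF (fun h => h hbF)
      have hu' : Conn H Fᶜ y u := hu.up Set.inter_subset_right
      refine walk u hu' ?_
      rw [← hy']
      rcases nD u huF v (not_not.1 hv) euv with rfl | rfl
      · exact absurd ⟨u, hu', euv⟩ hT
      · exact euv
  · intro x _
    obtain ⟨Z, hZ, hZf, hZd⟩ := hO F (hf.union (Set.toFinite _))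
    have hZF : Z ⊆ Fᶜ := fun z hz => Set.disjoint_left.1 hZd hz
    by_cases hx : ∃ z ∈ Z, π z = x
    · obtain ⟨z, hz, hzx⟩ := hx
      refine Or.inr (hZf.subset fun w hw hwZ => hw.2 ?_)
      exact (cP z w (hZF hz) ((hZ z hz w hwZ).up hZF)).trans hzx
    · exact Or.inl (hZf.subset fun w hw hwZ => hx ⟨w, hwZ, hw.2⟩)
  · intro x _ y _
    constructor
    · intro exy
      exact ⟨exy.ne, x.1, trivial, y.1, trivial, pF x.1 x.2, pF y.1 y.2, exy⟩
    · rintro ⟨hne, u, -, v, -, hu, hv, euv⟩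
      have ab : (x.1 = a ∨ x.1 = b) → (y.1 = a ∨ y.1 = b) → H.Adj x.1 y.1 := by
        rintro (h1 | h1) (h2 | h2)
        · exact absurd (Subtype.ext (h1.trans h2.symm)) hne
        · rw [h1, h2]; exact e
        · rw [h1, h2]; exact e.symm
        · exact absurd (Subtype.ext (h1.trans h2.symm)) hne
      change H.Adj x.1 y.1
      by_cases huF : u ∈ F <;> by_cases hvF : v ∈ F
      · rw [← hu, ← hv, pF u huF, pF v hvF]
        exact euv
      · refine ab ?_ (hv ▸ pO v hvF)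
        rw [← hu, pF u huF]
        exact nD v hvF u huF euv.symm
      · refine ab (hu ▸ pO u huF) ?_
        rw [← hv, pF v hvF]
        exact nD u huF v hvF euv
      · exact ab (hu ▸ pO u huF) (hv ▸ pO v hvF)

end PkE2P

open PkE2P in
/-- Package E2. -/
theorem pk_E2 : S_PE2 := by
  classical
  intro hQ hT hE W H hP hO D a b hf ha hb hab hN hJ c
  rcases hab with rfl | e
  · exact vertex hP hf ha hN hJ c
  have hP' := quot hQ hP hO hf ha hb e hN
  set F : Set W := D ∪ {a, b} with hF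
  have haF : a ∈ F := Or.inr (Or.inl rfl)
  have hbF : b ∈ F := Or.inr (Or.inr rfl)
  have hfin : Finite ↥F := (hf.union (Set.toFinite _)).to_subtype
  have mem : ∀ x : ↥F, x ∈ ({⟨a, haF⟩, ⟨b, hbF⟩} : Set ↥F)ᶜ ↔ x.1 ∈ D := by
    rintro ⟨x, hx⟩
    simp only [Set.mem_compl_iff, Set.mem_insert_iff, Set.mem_singleton_iff, Subtype.mk.injEq]
    constructor
    · intro h
      rcases hx with hx | hx
      · exact hx
      · exact absurd hx h
    · rintro h (rfl | rfl)
      exacts [ha h, hb h]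
  obtain ⟨c0, h0⟩ := hE ↥F _ hP' (hT ↥F _ hP') ⟨a, haF⟩ ⟨b, hbF⟩ e (Set.toFinite _) (by
    intro I hI hne D' hD' hf' hne' p q hpq hsub
    have hID : Subtype.val '' I ⊆ D := by
      rintro _ ⟨x, hx, rfl⟩
      exact (mem x).1 (hI hx)
    refine hJ (Subtype.val '' I) hID (fun h => hne ?_) (Subtype.val '' D')
      (Set.image_mono hD') (hf'.image _) (hne'.image _) p.1 q.1 ?_ ?_
    · refine Set.Subset.antisymm hI fun x hx => ?_
      have hx' : x.1 ∈ Subtype.val '' I := by rw [h]; exact (mem x).1 hx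
      obtain ⟨y, hy, hyx⟩ := hx'
      rw [← Subtype.ext hyx]
      exact hy
    · rcases hpq with h | h
      · exact Or.inl (congrArg _ h)
      · exact Or.inr h
    · rintro x ⟨_, ⟨y, hy, rfl⟩, exy⟩
      have hxF : x ∈ F := hN ⟨y.1, hID ⟨y, hD' hy, rfl⟩, exy⟩
      rcases hsub (show (⟨x, hxF⟩ : ↥F) ∈ Nb _ D' from ⟨y, hy, exy⟩) with h | h | h
      · exact Or.inl ⟨_, h, rfl⟩
      · exact Or.inr (Or.inl (congrArg Subtype.val h))
      · exact Or.inr (Or.inr (congrArg Subtype.val h))) (fun x => c x.1)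
  let c' : W → Col := fun x => if h : x ∈ F then c0 ⟨x, h⟩ else c x
  have cF : ∀ x (h : x ∈ F), c' x = c0 ⟨x, h⟩ := fun x h => dif_pos h
  have al : ∀ x, x ∉ D → ∀ y ∈ D, H.Adj x y → c' y = c' x → False := by
    intro x hx y hy exy hc
    have hxF : x ∈ F := hN ⟨y, hy, exy⟩
    have hyF : y ∈ F := Or.inl hy
    rw [cF x hxF, cF y hyF] at hc
    exact h0.al ⟨x, hxF⟩ (fun h => hx ((mem _).1 h)) ⟨y, hyF⟩ ((mem _).2 hy) exy hc
  refine ⟨c', fun x hx => ?_, fun x hx y z ey ez hy hz => ?_, al,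
    fun x hx y hy _ _ ey _ hc _ => (al x hx y hy ey hc).elim⟩
  · by_cases hxF : x ∈ F
    · rw [cF x hxF]
      exact h0.off ⟨x, hxF⟩ fun h => hx ((mem _).1 h)
    · exact dif_neg hxF
  · have hxF : x ∈ F := Or.inl hx
    have hyF : y ∈ F := hN ⟨x, hx, ey.symm⟩
    have hzF : z ∈ F := hN ⟨x, hx, ez.symm⟩
    rw [cF x hxF, cF y hyF] at hy
    rw [cF x hxF, cF z hzF] at hz
    exact congrArg Subtype.val
      (h0.one ⟨x, hxF⟩ ((mem _).2 hx) ⟨y, hyF⟩ ⟨z, hzF⟩ ey ez hy hz)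

end Pool.Agent.P.MP_08fd93_co.OV
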