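import Pool.Agent.P.MP_08fd93_co.OV.St2

/-! Package Fin of project OV: the colouring of the quotient is pulled back. -/

set_option autoImplicit false

namespace Pool.Agent.P.MP_08fd93_co.OV

namespace PkFinP

/-- an edge of the quotient lifts at every point over its first end -/
theorem lift {J : Type} {Γ : SimpleGraph (Vx J)} (h : Good Γ) {u v : J}
    (e : (Quo Γ).Adj u v) : ∃ p, Γ.Adj (u, 0) (v, p) := by
  obtain ⟨_, ⟨a, b, e⟩ | ⟨a, b, e⟩⟩ := (SimpleGraph.fromRel_adj _ _ _).1 e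
  · refine ⟨b + -a, ?_⟩
    simpa [tr] using h.inv (-a) _ _ e
  · refine ⟨a + -b, ?_⟩
    simpa [tr] using h.inv (-b) _ _ e.symm

/-- the four colours as numbers -/
def num (k : Col) : Fin 4 :=
  if k.1 then (if k.2 then 0 else 1) else (if k.2 then 2 else 3)

theorem num_inj : ∀ k k' : Col, num k = num k' → k = k' := by decide

end PkFinP

open PkFinP in
theorem pk_Fin : S_Fin := by
  classical
  intro hBase hMain V _ G hT
  obtain ⟨J, _, Γ, hne, hgood, ι, hadj, hinj⟩ := hBase V G hT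
  obtain ⟨μ1, μ2, c, hc⟩ := hMain J Γ hne hgood
  let Z : Finset V := Finset.univ.filter fun v => (∃ u, G.Adj v u) ∧ ι v ∈ ({μ1, μ2} : Finset J)
  have hZ : ∀ v u, G.Adj v u → v ∉ Z → ι v ∉ ({μ1, μ2} : Set J) := by
    intro v u e hv hm
    apply hv
    refine Finset.mem_filter.2 ⟨Finset.mem_univ _, ⟨u, e⟩, ?_⟩
    simpa using hm
  refine ⟨Z, ?_, fun v => num (c (ι v)), fun v hv => ?_⟩
  · refine le_trans (Finset.card_le_card_of_injOn (t := ({μ1, μ2} : Finset J)) ι ?_ ?_)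
      Finset.card_le_two
    · intro v hv
      exact (Finset.mem_filter.1 hv).2.2
    · intro v hv w hw e
      obtain ⟨v', ev⟩ := (Finset.mem_filter.1 hv).2.1
      obtain ⟨w', ew⟩ := (Finset.mem_filter.1 hw).2.1
      exact hinj v w v' w' ev ew e
  · rw [Set.ncard_le_one_iff (Set.toFinite _)]
    rintro a b ⟨ea, ha, ca⟩ ⟨eb, hb, cb⟩
    obtain ⟨p, hp⟩ := lift hgood (hadj _ _ ea)
    obtain ⟨q, hq⟩ := lift hgood (hadj _ _ eb)
    have := hc (ι v, 0) (ι a, p) (ι b, q) (hZ v a ea hv) (hZ a v ea.symm ha) (hZ b v eb.symm hb)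
      hp hq (num_inj _ _ ca) (num_inj _ _ cb)
    exact hinj a b v v ea.symm eb.symm (congrArg Prod.fst this)

end Pool.Agent.P.MP_08fd93_co.OV
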