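import Pool.Agent.P.MP_08fd93_co.OV.St2

/-! Package Fin0 of project OV: the periodic colouring. -/

set_option autoImplicit false

namespace Pool.Agent.P.MP_08fd93_co.OV

namespace PkFin0P

variable {J : Type}

theorem tr_zero (x : Vx J) : tr 0 x = x := by simp [tr]

theorem tr_tr (a b : ℤ × ℤ) (x : Vx J) : tr a (tr b x) = tr (b + a) x := by
  simp [tr, add_assoc]

theorem tr_neg (a : ℤ × ℤ) (x : Vx J) : tr (-a) (tr a x) = x := by simp [tr]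

theorem tr_inj (a : ℤ × ℤ) {x y : Vx J} (h : tr a x = tr a y) : x = y := by
  rw [← tr_neg a x, h, tr_neg]

theorem mem_T (u : Un J) (v : Vx J) : v ∈ u.T ↔ v = u.s ∨ v = u.x ∨ v = u.s' := by
  simp [Un.T]

theorem T_tr (a : ℤ × ℤ) (u : Un J) (v : Vx J) : tr a v ∈ (u.act a).T ↔ v ∈ u.T := by
  rw [mem_T, mem_T]
  constructor
  · rintro (h | h | h)
    · exact Or.inl (tr_inj a h)
    · exact Or.inr (Or.inl (tr_inj a h))
    · exact Or.inr (Or.inr (tr_inj a h))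
  · rintro (h | h | h)
    · exact Or.inl (by rw [h]; rfl)
    · exact Or.inr (Or.inl (by rw [h]; rfl))
    · exact Or.inr (Or.inr (by rw [h]; rfl))

theorem snd_mem (u : Un J) : u.snd ∈ u.T := by
  rw [mem_T]
  unfold Un.snd
  split_ifs
  · exact Or.inr (Or.inr rfl)
  · exact Or.inr (Or.inl rfl)

theorem snd_triv {u : Un J} (h : u.x = u.s) : u.snd = u.s' := by
  unfold Un.snd
  rw [if_pos h]

theorem snd_cap {u : Un J} (h : u.x ≠ u.s) : u.snd = u.x := by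
  unfold Un.snd
  rw [if_neg h]

open Classical in
/-- The edge a skeleton vertex is responsible for. -/
noncomputable def oo (A : Set J) (nx pv : Vx J → Vx J) (v : Vx J) : Vx J :=
  if v.1 ∈ A then nx v else pv v

open Classical in
/-- The paying map of the cell under `u`. -/
noncomputable def om (G C : Set (Vx J)) (A : Set J) (nx pv : Vx J → Vx J) (u : Un J)
    (v : Vx J) : Vx J :=
  if (v ∈ u.T ∧ v ∈ C ∧ v ∉ G) ∨ (v ∉ u.T ∧ pv v ∈ C) then v else oo A nx pv v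

open Classical in
/-- The colouring of the skeleton. -/
noncomputable def c0 (F : FD J) (Q : Set (Un J)) (bit : J → Bool) (u : J) : Col :=
  (decide (∃ j, Even j ∧ ((u, 0) : Vx J) ∈ F.SK Q j), bit u)

theorem oo_in {A : Set J} {nx pv : Vx J → Vx J} {v : Vx J} (h : v.1 ∈ A) :
    oo A nx pv v = nx v := by
  unfold oo
  rw [if_pos h]

theorem oo_out {A : Set J} {nx pv : Vx J → Vx J} {v : Vx J} (h : v.1 ∉ A) :
    oo A nx pv v = pv v := by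
  unfold oo
  rw [if_neg h]

theorem om_pos {G C : Set (Vx J)} {A : Set J} {nx pv : Vx J → Vx J} {u : Un J} {v : Vx J}
    (h : (v ∈ u.T ∧ v ∈ C ∧ v ∉ G) ∨ (v ∉ u.T ∧ pv v ∈ C)) : om G C A nx pv u v = v := by
  unfold om
  rw [if_pos h]

theorem om_neg {G C : Set (Vx J)} {A : Set J} {nx pv : Vx J → Vx J} {u : Un J} {v : Vx J}
    (h : ¬ ((v ∈ u.T ∧ v ∈ C ∧ v ∉ G) ∨ (v ∉ u.T ∧ pv v ∈ C))) :
    om G C A nx pv u v = oo A nx pv v := by
  unfold om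
  rw [if_neg h]

/-- All hypotheses of the package. -/
structure Hy (F : FD J) (φ : Vx J → Vx J) (G : Set (Vx J)) (μ : J) (Q : Set (Un J))
    (O : Un J → Set (Un J)) (nx pv : Vx J → Vx J) (bit : J → Bool) (A : Set J) : Prop where
  fr : Frm F
  ph : PH F φ
  gs : GS F φ G μ
  iso : Iso F G
  sol : Sol F G Q O
  prt : Prt F Q O
  skl : Skl F G Q nx pv
  bt : Bit {v | ∃ j, v ∈ F.SK Q j} G (F.CS G Q) nx bit A

variable {F : FD J} {φ : Vx J → Vx J} {G : Set (Vx J)} {μ : J} {Q : Set (Un J)}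
  {O : Un J → Set (Un J)} {nx pv : Vx J → Vx J} {bit : J → Bool} {A : Set J}

theorem L_inj (hF : Frm F) {j : ℤ} {x y : Vx J} (hx : x ∈ F.L j) (hy : y ∈ F.L j)
    (h : F.ρ x = F.ρ y) : x = y := by
  obtain ⟨i, rfl⟩ := (hF.mem j x).1 hx
  obtain ⟨i', rfl⟩ := (hF.mem j y).1 hy
  rw [hF.rho, hF.rho] at h
  rw [h]

theorem val_lt {u : Un J} (hu : Val F G u) : F.ρ u.s < F.ρ u.s' := by
  rcases hu.alt with h | h
  · have := h.2.1
    omega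
  · have := h.lt
    omega

theorem cov_s {u : Un J} (hu : Val F G u) : F.Cov u u.s := ⟨hu.hs, le_rfl, val_lt hu⟩

theorem sk_of {u : Un J} (hu : u ∈ Q) {v : Vx J} (hv : v ∈ u.T) : v ∈ F.SK Q (F.f u.s) :=
  ⟨u, hu, rfl, hv⟩

theorem s_mem (u : Un J) : u.s ∈ u.T := (mem_T u _).2 (Or.inl rfl)
theorem x_mem (u : Un J) : u.x ∈ u.T := (mem_T u _).2 (Or.inr (Or.inl rfl))
theorem s'_mem (u : Un J) : u.s' ∈ u.T := (mem_T u _).2 (Or.inr (Or.inr rfl))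

theorem Hy.sk_tr (h : Hy F φ G μ Q O nx pv bit A) (a : ℤ × ℤ) {j : ℤ} {v : Vx J}
    (hv : v ∈ F.SK Q j) : tr a v ∈ F.SK Q (j + F.η a) := by
  obtain ⟨u, hu, hj, hv⟩ := hv
  refine ⟨u.act a, h.sol.inv a u hu, ?_, (T_tr a u v).2 hv⟩
  rw [← hj]
  exact h.fr.pot.per a u.s

theorem Hy.cls (h : Hy F φ G μ Q O nx pv bit A) {j : ℤ} {v : Vx J} (hv : v ∈ F.SK Q j) :
    (c0 F Q bit v.1).1 = true ↔ Even j := by
  have h0 : ((v.1, 0) : Vx J) = tr (-v.2) v := by simp [tr]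
  have h1 := h.sk_tr (-v.2) hv
  have h2 := h.fr.pot.ev (-v.2)
  unfold c0
  simp only [decide_eq_true_eq]
  rw [h0]
  constructor
  · rintro ⟨j', hj', hm⟩
    have h3 := h.prt.lev _ _ _ hm h1
    rw [h3] at hj'
    exact (Int.even_add.1 hj').2 h2
  · intro hj
    exact ⟨_, hj.add h2, h1⟩

theorem Hy.cls_eq (h : Hy F φ G μ Q O nx pv bit A) {j : ℤ} {v v' : Vx J} (hv : v ∈ F.SK Q j)
    (hv' : v' ∈ F.SK Q j) : (c0 F Q bit v.1).1 = (c0 F Q bit v'.1).1 := by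
  rw [Bool.eq_iff_iff, h.cls hv, h.cls hv']

theorem Hy.cls_ne (h : Hy F φ G μ Q O nx pv bit A) {j : ℤ} {v v' : Vx J} (hv : v ∈ F.SK Q j)
    (hv' : v' ∈ F.SK Q (j - 1)) : (c0 F Q bit v.1).1 = !(c0 F Q bit v'.1).1 := by
  have h1 := h.cls hv
  have h2 := h.cls hv'
  rw [Int.even_sub_one] at h2
  cases e1 : (c0 F Q bit v.1).1 <;> cases e2 : (c0 F Q bit v'.1).1 <;> simp_all

theorem Hy.oq (h : Hy F φ G μ Q O nx pv bit A) {u u' : Un J} (hu : u ∈ Q) (hu' : u' ∈ O u) :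
    u' ∈ Q ∧ F.f u'.s = F.f u.s - 1 :=
  ⟨(h.sol.fix u').2 ⟨u, hu, hu'⟩, h.fr.uf.lf _ _ ((h.sol.co1 u hu).val u' hu').2.1.1⟩

theorem Hy.G_triv (h : Hy F φ G μ Q O nx pv bit A) {g : Vx J} (hg : g ∈ G) :
    ∃ u ∈ Q, u.x = u.s ∧ g = u.s ∧ F.ρ u.s' = F.ρ u.s + 1 := by
  obtain ⟨u, hu, hc⟩ := h.sol.cov g (h.gs.sub hg)
  have hv := h.sol.val u hu
  rcases hv.alt with ha | ha
  · refine ⟨u, hu, ha.1, L_inj h.fr hc.1 hv.hs ?_, ha.2.1⟩
    have h1 := hc.2.1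
    have h2 := hc.2.2
    have h3 := ha.2.1
    omega
  · have h1 := ha.ng g ⟨hc.1, hc.2.1, hc.2.2.le⟩ hg
    have h2 := hc.2.2
    rw [h1] at h2
    exact absurd h2 (lt_irrefl _)

theorem Hy.x_notG (h : Hy F φ G μ Q O nx pv bit A) {u : Un J} (hu : u ∈ Q) (hx : u.x ≠ u.s) :
    u.x ∉ G := by
  intro hg
  obtain ⟨u1, hu1, h1, h2, -⟩ := h.G_triv hg
  have h3 := h.skl.own u hu u1 hu1 u.x (Or.inr rfl) (Or.inl h2)
  subst h3
  exact hx h1

theorem Hy.x_notC (h : Hy F φ G μ Q O nx pv bit A) {u : Un J} (hu : u ∈ Q) (hx : u.x ≠ u.s) :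
    u.x ∉ F.CS G Q := by
  rintro ⟨u1, hu1, -, h2⟩
  have h3 := h.skl.own u hu u1 hu1 u.x (Or.inr rfl) (Or.inl h2)
  subst h3
  exact hx h2

theorem Hy.CG (h : Hy F φ G μ Q O nx pv bit A) {x : Vx J} (hc : x ∈ F.CS G Q) (hg : x ∈ G) :
    x.1 = μ := by
  obtain ⟨u, hu, ⟨g, hgG, hgB, hgl⟩, hx⟩ := hc
  obtain ⟨u1, hu1, h1, h2, h3⟩ := h.G_triv hg
  have h4 := h.skl.own u hu u1 hu1 x (Or.inl hx) (Or.inl h2)
  subst h4
  have hv := h.sol.val u hu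
  have hn : F.nx u.s = u.s' := by
    refine L_inj h.fr ((h.fr.mem _ _).2 ⟨_, rfl⟩) hv.hs' ?_
    unfold FD.nx
    rw [h.fr.rho, h3]
  have hf : F.f g = F.f u.s - 1 := h.fr.uf.lf _ _ hgB.1
  have hU : F.Und g u.s := by
    refine ⟨?_, hgB.2.1, ?_⟩
    · have : F.f g + 1 = F.f u.s := by omega
      rw [this]
      exact hv.hs
    · rw [hn]
      exact hgl
  have h5 := h.ph.uni g (h.gs.sub hgG) u.s hU
  have h6 := h.gs.sel g hgG (by rw [← h5, ← hx]; exact hg)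
  rw [hx, h5]
  exact h6

theorem Hy.an_sk (h : Hy F φ G μ Q O nx pv bit A) {u : Un J} (hu : u ∈ Q) :
    F.an u.s ∈ F.SK Q (F.f u.s - 1) := by
  have hv := h.sol.val u hu
  have hU : u.s ∈ F.U (F.f u.s) := h.fr.uf.lu _ hv.hs
  have hL : F.an u.s ∈ F.L (F.f u.s - 1) := h.fr.uf.lan _ _ hU rfl
  have hf : F.f (F.an u.s) = F.f u.s - 1 := h.fr.uf.lf _ _ hL
  have hLA : F.an u.s ∈ F.LA := by
    show F.an u.s ∈ F.L (F.f (F.an u.s))
    rw [hf]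
    exact hL
  obtain ⟨u1, hu1, hc⟩ := h.sol.cov _ hLA
  have hv1 := h.sol.val u1 hu1
  have hf1 : F.f u1.s = F.f u.s - 1 := by
    rw [← hf]
    exact (h.fr.uf.lf _ _ hc.1).symm
  by_cases he : F.ρ u1.s = F.ρ (F.an u.s)
  · have h1 := L_inj h.fr hv1.hs hc.1 he
    rw [← h1, ← hf1]
    exact sk_of hu1 (s_mem u1)
  exfalso
  have hlt : F.ρ u1.s < F.ρ (F.an u.s) := lt_of_le_of_ne hc.2.1 he
  have hlt' := hc.2.2
  rcases hv1.alt with ha | ha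
  · have := ha.2.1
    omega
  have hp : F.an u.s ∈ u1.pk := (ha.old _ hc.1).2 ⟨hlt, hlt'⟩
  have hU' : u.s ∈ F.U (F.f u1.s + 1) := by
    have : F.f u1.s + 1 = F.f u.s := by omega
    rw [this]
    exact hU
  rcases ha.cl _ hp u.s (h.fr.pot.aa u.s).symm (Or.inr hU') with h1 | h1
  · obtain ⟨u2, hu2, ho⟩ := (h.sol.fix u1).1 hu1
    have hf2 := (h.oq hu2 ho).2
    have hf3 : F.f u2.s = F.f u.s := by omega
    have hv2 := h.sol.val u2 hu2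
    have hL2 : u.s ∈ F.L (F.f u2.s) := by
      rw [hf3]
      exact hv.hs
    rcases (h.sol.co1 u2 hu2).sub u1 ho (Or.inr h1) with h2 | h2 | h2
    · have := h.fr.uf.lf _ _ h2.1
      omega
    · rcases hv2.alt with hb | hb
      · rw [hb.2.2] at h2
        exact h2
      · have h3 := (hb.old _ hL2).1 h2
        have h4 := h.sol.uni u hu u2 hu2 u.s (cov_s hv) ⟨hL2, h3.1.le, h3.2⟩
        subst h4
        exact lt_irrefl _ h3.1
    · exact h2.1.2 (Or.inl hL2)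
  · have h2 := h.prt.lev _ _ _ (sk_of (F := F) hu (s_mem u)) (sk_of hu1 h1)
    omega

/-- The left end of an edge that must be paid. -/
theorem Hy.lc_left (h : Hy F φ G μ Q O nx pv bit A) {u : Un J} (hu : u ∈ Q) {e : Sym2 (Vx J)}
    (he : e ∈ F.LC G u (O u)) : ∃ a, e = s(a, nx a) ∧
      ((∃ u' ∈ O u, u'.x = u'.s ∧ a = u'.s ∧ a ∉ G ∧ nx a ∈ u'.T) ∨
        (nx a ∈ u.T ∧ ((u.x ≠ u.s ∧ a = u.x) ∨ (F.Cen G u ∧ a = u.s)))) := by
  rcases he with ⟨u', hu', h1, h2, h3⟩ | ⟨h1, h2⟩ | ⟨h1, h2⟩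
  · have h4 : nx u'.s = u'.s' := by rw [h.skl.ns u' (h.oq hu hu').1, snd_triv h1]
    refine ⟨u'.s, by rw [h3, h4], Or.inl ⟨u', hu', h1, rfl, h2, ?_⟩⟩
    rw [h4]
    exact s'_mem u'
  · have h4 := h.skl.nxx u hu h1
    refine ⟨u.x, by rw [h2, h4], Or.inr ⟨?_, Or.inl ⟨h1, rfl⟩⟩⟩
    rw [h4]
    exact s'_mem u
  · have h4 := h.skl.ns u hu
    refine ⟨u.s, by rw [h2, h4], Or.inr ⟨?_, Or.inr ⟨h1, rfl⟩⟩⟩
    rw [h4]
    exact snd_mem u

theorem Hy.notT (h : Hy F φ G μ Q O nx pv bit A) {u u' : Un J} (hu : u ∈ Q) (hu' : u' ∈ O u)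
    {v : Vx J} (hv : v ∈ u'.T) : v ∉ u.T := by
  intro hv'
  have h1 := h.oq hu hu'
  have h2 := h.prt.lev _ _ _ (sk_of (F := F) hu hv') (sk_of h1.1 hv)
  have h3 := h1.2
  omega

theorem Hy.pv_nx (h : Hy F φ G μ Q O nx pv bit A) {j : ℤ} {v : Vx J} (hv : v ∈ F.SK Q j) :
    pv (nx v) = v := (h.skl.cyc.kn v ⟨j, hv⟩).2.2.1

theorem Hy.nx_pv (h : Hy F φ G μ Q O nx pv bit A) {j : ℤ} {v : Vx J} (hv : v ∈ F.SK Q j) :
    nx (pv v) = v := (h.skl.cyc.kn v ⟨j, hv⟩).2.2.2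

/-- On the top path a vertex outside `A` pays backwards. -/
theorem Hy.top_out (h : Hy F φ G μ Q O nx pv bit A) {u : Un J} {b : Vx J} (hb : b ∈ u.T)
    (hA : b.1 ∉ A) : om G (F.CS G Q) A nx pv u b = pv b := by
  rw [om_neg, oo_out hA]
  rintro (h1 | h1)
  · exact hA (h.bt.ac b h1.2.1 h1.2.2)
  · exact h1.1 hb

theorem Hy.paid_left (h : Hy F φ G μ Q O nx pv bit A) {u : Un J} (hu : u ∈ Q) {a : Vx J}
    (ha : (∃ u' ∈ O u, u'.x = u'.s ∧ a = u'.s ∧ a ∉ G ∧ nx a ∈ u'.T) ∨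
        (nx a ∈ u.T ∧ ((u.x ≠ u.s ∧ a = u.x) ∨ (F.Cen G u ∧ a = u.s)))) :
    om G (F.CS G Q) A nx pv u a = nx a ∨ om G (F.CS G Q) A nx pv u (nx a) = a := by
  rcases ha with ⟨u', hu', -, h2, h3, h4⟩ | ⟨h1, ⟨h2, h3⟩ | ⟨h2, h3⟩⟩
  · have haT : a ∈ u'.T := by
      rw [h2]
      exact s_mem u'
    have hk := sk_of (F := F) (h.oq hu hu').1 haT
    have n1 := h.notT hu hu' haT
    have n2 := h.notT hu hu' h4
    by_cases hA : a.1 ∈ A
    · left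
      rw [om_neg, oo_in hA]
      rintro (h5 | h5)
      · exact n1 h5.1
      · have h6 := h.bt.cn _ h5.2
        rw [h.nx_pv hk] at h6
        exact h6 hA
    · right
      rw [om_neg, oo_out (h.bt.na a ⟨_, hk⟩ h3 hA), h.pv_nx hk]
      rintro (h5 | h5)
      · exact n2 h5.1
      · have h6 := h5.2
        rw [h.pv_nx hk] at h6
        exact hA (h.bt.ac a h6 h3)
  · subst h3
    have hk := sk_of (F := F) hu (x_mem u)
    by_cases hA : u.x.1 ∈ A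
    · left
      rw [om_neg, oo_in hA]
      rintro (h5 | h5)
      · exact h.x_notC hu h2 h5.2.1
      · exact h5.1 (x_mem u)
    · right
      rw [h.top_out h1 (h.bt.na _ ⟨_, hk⟩ (h.x_notG hu h2) hA), h.pv_nx hk]
  · subst h3
    have hk := sk_of (F := F) hu (s_mem u)
    right
    rw [h.top_out h1 (h.bt.cn _ ⟨u, hu, h2, rfl⟩), h.pv_nx hk]

theorem Hy.rec_ex (h : Hy F φ G μ Q O nx pv bit A) {u : Un J} (hu : u ∈ Q) :
    ∃ c', Rec F.Γ (F.MM u (O u))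
      (Pay (F.LC G u (O u)) (fun x => c0 F Q bit x.1) (om G (F.CS G Q) A nx pv u))
      (fun x => c0 F Q bit x.1) c' := by
  have han := h.an_sk hu
  refine h.sol.co2 u hu (c0 F Q bit (F.an u.s).1).1 _ _ rfl ?_ ?_ ?_ ?_
  · intro u' hu' v hv
    have h1 := h.oq hu hu'
    have h2 := sk_of (F := F) h1.1 hv
    rw [h1.2] at h2
    exact h.cls_eq h2 han
  · intro v hv
    exact h.cls_ne (sk_of hu hv) han
  · intro p q hpq
    obtain ⟨a, he, ha⟩ := h.lc_left hu hpq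
    have h1 := h.paid_left hu ha
    right
    rcases Sym2.eq_iff.1 he with ⟨rfl, rfl⟩ | ⟨rfl, rfl⟩
    · exact h1
    · exact h1.symm
  · intro hc hx
    have hks := sk_of (F := F) hu (s_mem u)
    have hkx := sk_of (F := F) hu (x_mem u)
    have e1 : nx u.s = u.x := by rw [h.skl.ns u hu, snd_cap hx]
    have e2 := h.skl.nxx u hu hx
    have a1 : u.x.1 ∉ A := by
      rw [← e1]
      exact h.bt.cn _ ⟨u, hu, hc, rfl⟩
    have a2 : u.s'.1 ∉ A := by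
      rw [← e2]
      exact h.bt.na _ ⟨_, hkx⟩ (h.x_notG hu hx) a1
    refine ⟨?_, ?_, ?_⟩
    · rw [h.top_out (x_mem u) a1, ← e1, h.pv_nx hks]
    · rw [h.top_out (s'_mem u) a2, ← e2, h.pv_nx hkx]
    · intro hc
      have h1 := h.bt.alt _ ⟨_, hkx⟩ (h.x_notC hu hx)
      rw [e2] at h1
      exact h1 (congrArg Prod.snd hc).symm

theorem Hy.lc_sk (h : Hy F φ G μ Q O nx pv bit A) {u : Un J} (hu : u ∈ Q) {p q : Vx J}
    (he : s(p, q) ∈ F.LC G u (O u)) : ∃ j, p ∈ F.SK Q j := by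
  obtain ⟨a, he, ha⟩ := h.lc_left hu he
  have hk : ∃ j, a ∈ F.SK Q j := by
    rcases ha with ⟨u', hu', -, h2, -⟩ | ⟨-, ⟨-, h3⟩ | ⟨-, h3⟩⟩
    · exact ⟨_, by rw [h2]; exact sk_of (h.oq hu hu').1 (s_mem u')⟩
    · exact ⟨_, by rw [h3]; exact sk_of hu (x_mem u)⟩
    · exact ⟨_, by rw [h3]; exact sk_of hu (s_mem u)⟩
  rcases Sym2.eq_iff.1 he with ⟨rfl, -⟩ | ⟨rfl, -⟩
  · exact hk
  · exact (h.skl.cyc.kn a hk).1

theorem Hy.om_tr (h : Hy F φ G μ Q O nx pv bit A) (a : ℤ × ℤ) (u : Un J) {v : Vx J}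
    (hv : ∃ j, v ∈ F.SK Q j) :
    om G (F.CS G Q) A nx pv (u.act a) (tr a v) = tr a (om G (F.CS G Q) A nx pv u v) := by
  have hk := h.skl.cyc.kt a v hv
  have hG : ∀ x, tr a x ∈ G ↔ x ∈ G := fun x =>
    ⟨fun hx => by simpa [tr_neg] using h.skl.cyc.gt (-a) _ hx, h.skl.cyc.gt a x⟩
  have hC : ∀ x, tr a x ∈ F.CS G Q ↔ x ∈ F.CS G Q := fun x =>
    ⟨fun hx => by simpa [tr_neg] using h.skl.cyc.ct (-a) _ hx, h.skl.cyc.ct a x⟩
  by_cases hc : (v ∈ u.T ∧ v ∈ F.CS G Q ∧ v ∉ G) ∨ (v ∉ u.T ∧ pv v ∈ F.CS G Q)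
  · rw [om_pos hc, om_pos]
    rw [T_tr, hG, hC, hk.2.2, hC]
    exact hc
  · rw [om_neg hc, om_neg]
    · by_cases hA : v.1 ∈ A
      · rw [oo_in hA, oo_in (v := tr a v) hA, hk.2.1]
      · rw [oo_out hA, oo_out (v := tr a v) hA, hk.2.2]
    · rw [T_tr, hG, hC, hk.2.2, hC]
      exact hc

theorem Hy.mono_nb (h : Hy F φ G μ Q O nx pv bit A) {x y : Vx J} {j j' : ℤ}
    (hx : x ∈ F.SK Q j) (hy : y ∈ F.SK Q j') (hxy : F.Γ.Adj x y) (hμ : x.1 ≠ μ)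
    (hc : c0 F Q bit y.1 = c0 F Q bit x.1) : y = oo A nx pv x := by
  have h1 := h.prt.near _ _ _ hx _ hy hxy
  have h2 := h.prt.near _ _ _ hy _ hx hxy.symm
  have h3 : Even j ↔ Even j' := by rw [← h.cls hx, ← h.cls hy, hc]
  have h4 : j' = j := by
    rw [Int.even_iff, Int.even_iff] at h3
    omega
  subst h4
  have hb : bit y.1 = bit x.1 := congrArg Prod.snd hc
  rcases h.skl.adj _ _ hx _ hy hxy with e | e
  · have hC : x ∈ F.CS G Q := by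
      by_contra hC
      exact h.bt.alt x ⟨_, hx⟩ hC (by rw [← e]; exact hb)
    rw [oo_in (h.bt.ac x hC fun hg => hμ (h.CG hC hg)), e]
  · have e' : nx y = x := by rw [e, h.nx_pv hx]
    have hC : y ∈ F.CS G Q := by
      by_contra hC
      exact h.bt.alt y ⟨_, hy⟩ hC (by rw [e']; exact hb.symm)
    have hA := h.bt.cn y hC
    rw [e'] at hA
    rw [oo_out hA, e]

theorem pay_oo {C : Set (Vx J)} {L : Set (Sym2 (Vx J))} {c : Vx J → Col} {u : Un J} {x : Vx J}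
    (hx : x ∈ Pay L c (om G C A nx pv u)) :
    om G C A nx pv u x ≠ x ∧ s(x, oo A nx pv x) ∈ L ∧ c (oo A nx pv x) ≠ c x := by
  have h1 : om G C A nx pv u x ≠ x := fun e => hx.2 (by rw [e])
  have h2 : om G C A nx pv u x = oo A nx pv x := om_neg fun hc => h1 (om_pos hc)
  rw [← h2]
  exact ⟨h1, hx.1, hx.2⟩

theorem Hy.top_bot (h : Hy F φ G μ Q O nx pv bit A) {u1 u2 : Un J} (hu1 : u1 ∈ Q)
    (hu2 : u2 ∈ Q) {a x : Vx J} (hx : x = a ∨ x = nx a)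
    (h1 : (u1.x ≠ u1.s ∧ a = u1.x) ∨ (F.Cen G u1 ∧ a = u1.s))
    (h2 : ∃ u' ∈ O u2, u'.x = u'.s ∧ a = u'.s ∧ a ∉ G ∧ nx a ∈ u'.T)
    (n1 : om G (F.CS G Q) A nx pv u1 x ≠ x) (n2 : om G (F.CS G Q) A nx pv u2 x ≠ x) : False := by
  obtain ⟨u', hu', e1, e2, hG, hT⟩ := h2
  have hq := (h.oq hu2 hu').1
  have e3 : u1 = u' := by
    refine h.skl.own u1 hu1 u' hq a ?_ (Or.inl e2)
    rcases h1 with h1 | h1
    · exact Or.inr h1.2
    · exact Or.inl h1.2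
  subst e3
  have hC : a ∈ F.CS G Q := by
    rcases h1 with h1 | h1
    · exact absurd e1 h1.1
    · exact ⟨u1, hu1, h1.1, h1.2⟩
  have haT : a ∈ u1.T := by
    rw [e2]
    exact s_mem u1
  rcases hx with rfl | rfl
  · exact n1 (om_pos (Or.inl ⟨haT, hC, hG⟩))
  · refine n2 (om_pos (Or.inr ⟨h.notT hu2 hu' hT, ?_⟩))
    rw [h.pv_nx (sk_of hu1 haT)]
    exact hC

theorem Hy.pay_uni (h : Hy F φ G μ Q O nx pv bit A) {u1 u2 : Un J} (hu1 : u1 ∈ Q)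
    (hu2 : u2 ∈ Q) {c : Vx J → Col} {x : Vx J}
    (p1 : x ∈ Pay (F.LC G u1 (O u1)) c (om G (F.CS G Q) A nx pv u1))
    (p2 : x ∈ Pay (F.LC G u2 (O u2)) c (om G (F.CS G Q) A nx pv u2)) : u1 = u2 := by
  obtain ⟨n1, l1, -⟩ := pay_oo p1
  obtain ⟨n2, l2, -⟩ := pay_oo p2
  obtain ⟨a, e1, t1⟩ := h.lc_left hu1 l1
  obtain ⟨a', e2, t2⟩ := h.lc_left hu2 l2
  have hk : ∃ j, a ∈ F.SK Q j := h.lc_sk hu1 (q := nx a) (by rw [← e1]; exact l1)
  have ea : a' = a := by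
    rcases Sym2.eq_iff.1 (e1.symm.trans e2) with ⟨e3, -⟩ | ⟨e3, e4⟩
    · exact e3.symm
    · obtain ⟨j, hj⟩ := hk
      exact absurd (by rw [e4]; exact e3.symm) (h.skl.n2 j a hj).2
  subst ea
  have hx : x = a' ∨ x = nx a' := by
    rcases Sym2.eq_iff.1 e1 with ⟨e3, -⟩ | ⟨e3, -⟩
    · exact Or.inl e3
    · exact Or.inr e3
  rcases t1 with t1 | t1 <;> rcases t2 with t2 | t2
  · obtain ⟨v1, hv1, -, f1, -⟩ := t1
    obtain ⟨v2, hv2, -, f2, -⟩ := t2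
    have e3 := h.skl.own v1 (h.oq hu1 hv1).1 v2 (h.oq hu2 hv2).1 a' (Or.inl f1) (Or.inl f2)
    subst e3
    exact h.sol.ou u1 hu1 u2 hu2 v1 hv1 hv2
  · exact (h.top_bot hu2 hu1 hx t2.2 t1 n2 n1).elim
  · exact (h.top_bot hu1 hu2 hx t1.2 t2 n1 n2).elim
  · refine h.skl.own u1 hu1 u2 hu2 a' ?_ ?_
    · rcases t1.2 with t | t
      · exact Or.inr t.2
      · exact Or.inl t.2
    · rcases t2.2 with t | t
      · exact Or.inr t.2
      · exact Or.inl t.2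

theorem act_zero (u : Un J) : u.act 0 = u := by
  refine Un.ext (tr_zero _) (tr_zero _) (tr_zero _) ?_
  have : (tr 0 : Vx J → Vx J) = id := funext tr_zero
  show tr 0 '' u.pk = u.pk
  rw [this, Set.image_id]

theorem act_act (a b : ℤ × ℤ) (u : Un J) : (u.act b).act a = u.act (b + a) := by
  refine Un.ext (tr_tr _ _ _) (tr_tr _ _ _) (tr_tr _ _ _) ?_
  show tr a '' (tr b '' u.pk) = tr (b + a) '' u.pk
  rw [Set.image_image]
  exact Set.image_congr fun x _ => tr_tr a b x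

theorem Hy.main (h : Hy F φ G μ Q O nx pv bit A) (hPG : S_PG) : ∃ c, Col1 F.Γ {μ} c := by
  obtain ⟨c, h1, h2, h3⟩ := hPG J F.Γ (Un J) Un.act (fun u => u.s.2) Q (fun u => F.MM u (O u))
    (fun u => Pay (F.LC G u (O u)) (fun x => c0 F Q bit x.1) (om G (F.CS G Q) A nx pv u))
    (c0 F Q bit) h.fr.pot.fine.inv act_zero act_act (fun _ _ => rfl) h.sol.inv
    (by
      intro a u hu x
      rw [h.sol.eqv a u hu]
      exact h.iso.mm a u (O u) x (h.sol.val u hu))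
    (by
      intro a u hu x hx
      have e := h.om_tr a u (h.lc_sk hu hx.1)
      refine ⟨?_, ?_⟩
      · rw [e, h.sol.eqv a u hu]
        exact (h.iso.lc a u (O u) _ _ (h.sol.val u hu)).2 hx.1
      · rw [e]
        exact hx.2)
    h.prt.mm (fun u hu => h.rec_ex hu)
  refine ⟨c, ?_⟩
  intro x y z hx _ _ hxy hxz cy cz
  by_cases hM : ∃ u ∈ Q, x ∈ F.MM u (O u)
  · obtain ⟨u, hu, hm⟩ := hM
    exact h2 u hu x hm y z hxy hxz cy cz
  have hM' : ∀ u ∈ Q, x ∉ F.MM u (O u) := fun u hu hm => hM ⟨u, hu, hm⟩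
  obtain ⟨j, hj⟩ : ∃ j, x ∈ F.SK Q j := (h.prt.cov x).resolve_right hM
  have hS : ∀ v j', v ∈ F.SK Q j' → F.Γ.Adj x v → c v.1 = c x.1 →
      v = oo A nx pv x ∧ c0 F Q bit v.1 = c0 F Q bit x.1 := by
    intro v j' hv hxv hc
    have e : c0 F Q bit v.1 = c0 F Q bit x.1 := by
      rw [← h1 x hM', ← h1 v fun u hu hm => Set.disjoint_left.1 (h.prt.ms u hu j') hm hv]
      exact hc
    exact ⟨h.mono_nb hj hv hxv hx e, e⟩
  rcases h.prt.cov y with ⟨jy, hy⟩ | ⟨uy, huy, hy⟩ <;>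
    rcases h.prt.cov z with ⟨jz, hz⟩ | ⟨uz, huz, hz⟩
  · rw [(hS y jy hy hxy cy).1, (hS z jz hz hxz cz).1]
  · obtain ⟨e1, e2⟩ := hS y jy hy hxy cy
    have p := (pay_oo ((h3 x hM' uz huz).1 z hz hxz cz)).2.2
    rw [← e1] at p
    exact absurd e2 p
  · obtain ⟨e1, e2⟩ := hS z jz hz hxz cz
    have p := (pay_oo ((h3 x hM' uy huy).1 y hy hxy cy)).2.2
    rw [← e1] at p
    exact absurd e2 p
  · have e := h.pay_uni huy huz ((h3 x hM' uy huy).1 y hy hxy cy) ((h3 x hM' uz huz).1 z hz hxz cz)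
    subst e
    exact (h3 x hM' uy huy).2 y hy z hz hxy hxz cy cz

end PkFin0P

theorem pk_Fin0 : S_Fin0 := by
  intro hPG J F φ G μ Q O nx pv bit A h1 h2 h3 h4 h5 h6 h7 h8
  exact (PkFin0P.Hy.mk h1 h2 h3 h4 h5 h6 h7 h8).main hPG

end Pool.Agent.P.MP_08fd93_co.OV
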