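import Pool.Agent.P.MP_08fd93_co.OV.St1

/-! Package FinC of project OV: the extension property of the output of the main step. -/

set_option autoImplicit false

namespace Pool.Agent.P.MP_08fd93_co.OV

namespace PkFinCP

variable {W : Type} {H : SimpleGraph W}

theorem rec_empty (c : W → Col) : Rec H ∅ ∅ c c :=
  ⟨fun _ _ => rfl, fun _ h => h.elim, fun _ _ _ h => h.elim, fun _ _ _ h => h.elim⟩

open Classical in
theorem rec_union {M1 M2 A1 A2 : Set W} {c c1 c2 : W → Col} (h1 : Rec H M1 A1 c c1)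
    (h2 : Rec H M2 A2 c c2) (hd : ∀ x ∈ M1, x ∉ M2) (ht : ∀ x ∈ M1, ∀ y ∈ M2, ¬ H.Adj x y)
    (ha : ∀ x ∈ A1, x ∉ A2) : ∃ c', Rec H (M1 ∪ M2) (A1 ∪ A2) c c' := by
  have e1 : ∀ x, x ∉ M2 → (if x ∈ M1 then c1 x else c2 x) = c1 x := by
    intro x hx
    split_ifs with h
    · rfl
    · rw [h2.off x hx, h1.off x h]
  have e2 : ∀ x, x ∉ M1 → (if x ∈ M1 then c1 x else c2 x) = c2 x := fun x hx => if_neg hx
  have hd' : ∀ x ∈ M2, x ∉ M1 := fun x hx h => hd x h hx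
  refine ⟨fun x => if x ∈ M1 then c1 x else c2 x, ?_, ?_, ?_, ?_⟩
  · intro x hx
    simp only [Set.mem_union, not_or] at hx
    rw [e2 x hx.1, h2.off x hx.2]
  · rintro x (hx | hx) y z hy hz ey ez
    · simp only at ey ez
      rw [e1 x (hd x hx), e1 y (fun h => ht x hx y h hy)] at ey
      rw [e1 x (hd x hx), e1 z (fun h => ht x hx z h hz)] at ez
      exact h1.one x hx y z hy hz ey ez
    · simp only at ey ez
      rw [e2 x (hd' x hx), e2 y (fun h => ht y h x hx hy.symm)] at ey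
      rw [e2 x (hd' x hx), e2 z (fun h => ht z h x hx hz.symm)] at ez
      exact h2.one x hx y z hy hz ey ez
  · intro x hx y hy hxy e
    simp only [Set.mem_union, not_or] at hx
    rcases hy with hy | hy
    · rw [e1 x hx.2, e1 y (hd y hy)] at e
      exact Or.inl (h1.al x hx.1 y hy hxy e)
    · rw [e2 x hx.1, e2 y (hd' y hy)] at e
      exact Or.inr (h2.al x hx.2 y hy hxy e)
  · intro x hx y hy z hz hxy hxz ey ez
    simp only [Set.mem_union, not_or] at hx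
    simp only at ey ez
    rcases hy with hy | hy <;> rcases hz with hz | hz
    · rw [e1 x hx.2, e1 y (hd y hy)] at ey
      rw [e1 x hx.2, e1 z (hd z hz)] at ez
      exact h1.un x hx.1 y hy z hz hxy hxz ey ez
    · rw [e1 x hx.2, e1 y (hd y hy)] at ey
      rw [e2 x hx.1, e2 z (hd' z hz)] at ez
      exact (ha x (h1.al x hx.1 y hy hxy ey) (h2.al x hx.2 z hz hxz ez)).elim
    · rw [e2 x hx.1, e2 y (hd' y hy)] at ey
      rw [e1 x hx.2, e1 z (hd z hz)] at ez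
      exact (ha x (h1.al x hx.1 z hz hxz ez) (h2.al x hx.2 y hy hxy ey)).elim
    · rw [e2 x hx.1, e2 y (hd' y hy)] at ey
      rw [e2 x hx.1, e2 z (hd' z hz)] at ez
      exact h2.un x hx.2 y hy z hz hxy hxz ey ez

theorem pth_tri {Y : Set W} {ρ : W → ℤ} {a b : W} (h : Pth H Y ρ a b) {u w : W} (hu : u ∈ Y)
    (hw : w ∈ Y) (huw : H.Adj u w) : ρ u < ρ w ∨ ρ w < ρ u := by
  rcases lt_trichotomy (ρ u) (ρ w) with h1 | h1 | h1
  · exact Or.inl h1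
  · exact (huw.ne (h.inj u hu w hw h1)).elim
  · exact Or.inr h1

open Classical in
theorem two_col {Y T : Set W} {ρ : W → ℤ} {a b v : W} (h : Pth H Y ρ a b) (hT : T ⊆ Y)
    (hv : ∀ t ∈ T, ρ t ≤ ρ v) (β : Bool) :
    ∃ g : W → Bool, g v = β ∧ ∀ t ∈ T, ∀ t' ∈ T, H.Adj t t' → g t ≠ g t' := by
  have key : ∀ t ∈ T, ∀ t' ∈ T, H.Adj t t' → ρ t < ρ t' →
      {x | x ∈ T ∧ ρ t < ρ x}.ncard = {x | x ∈ T ∧ ρ t' < ρ x}.ncard + 1 := by
    intro t ht t' ht' hadj hlt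
    have e : {x | x ∈ T ∧ ρ t < ρ x} = insert t' {x | x ∈ T ∧ ρ t' < ρ x} := by
      ext x
      simp only [Set.mem_ofPred_eq, Set.mem_insert_iff]
      constructor
      · rintro ⟨hx, hl⟩
        rcases (h.adj t (hT ht) t' (hT ht') hlt).mp hadj x (hT hx) with h1 | h1
        · omega
        · rcases eq_or_lt_of_le h1 with h2 | h2
          · exact Or.inl (h.inj x (hT hx) t' (hT ht') h2.symm)
          · exact Or.inr ⟨hx, h2⟩
      · rintro (rfl | ⟨hx, hl⟩)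
        · exact ⟨ht', hlt⟩
        · exact ⟨hx, by omega⟩
    rw [e, Set.ncard_insert_of_notMem (by simp) ((h.fin.subset hT).subset fun x hx => hx.1)]
  refine ⟨fun t => if Even {x | x ∈ T ∧ ρ t < ρ x}.ncard then β else !β, ?_, ?_⟩
  · have e : {x | x ∈ T ∧ ρ v < ρ x} = ∅ := by
      ext x
      simp only [Set.mem_ofPred_eq, Set.mem_empty_iff_false, iff_false, not_and, not_lt]
      exact hv x
    simp [e]
  · intro t ht t' ht' hadj
    rcases pth_tri h (hT ht) (hT ht') hadj with h1 | h1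
    · simp only [key t ht t' ht' hadj h1, Nat.even_add_one]
      by_cases h2 : Even {x | x ∈ T ∧ ρ t' < ρ x}.ncard <;> simp [h2]
    · simp only [key t' ht' t ht hadj.symm h1, Nat.even_add_one]
      by_cases h2 : Even {x | x ∈ T ∧ ρ t < ρ x}.ncard <;> simp [h2]

theorem succ_ex {Y : Set W} {ρ : W → ℤ} {a b : W} (h : Pth H Y ρ a b) :
    ∃ f : W → W, ∀ t ∈ Y, ∀ t' ∈ Y, H.Adj t t' → ρ t < ρ t' → f t = t' := by
  classical
  refine ⟨fun t => if h : ∃ y, y ∈ Y ∧ H.Adj t y ∧ ρ t < ρ y then h.choose else t, ?_⟩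
  intro t ht t' ht' hadj hlt
  have hex : ∃ y, y ∈ Y ∧ H.Adj t y ∧ ρ t < ρ y := ⟨t', ht', hadj, hlt⟩
  simp only [dif_pos hex]
  obtain ⟨h1, h2, h3⟩ := hex.choose_spec
  have k1 := (h.adj t ht t' ht' hlt).mp hadj _ h1
  have k2 := (h.adj t ht _ h1 h3).mp h2 _ ht'
  exact h.inj _ h1 _ ht' (by omega)

theorem pe_iff {X : Set W} {u w : W} : s(u, w) ∈ PE H X ↔ u ∈ X ∧ w ∈ X ∧ H.Adj u w := by
  constructor
  · rintro ⟨a, ha, b, hb, hab, e⟩
    rcases Sym2.eq_iff.mp e with ⟨rfl, rfl⟩ | ⟨rfl, rfl⟩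
    · exact ⟨ha, hb, hab⟩
    · exact ⟨hb, ha, hab.symm⟩
  · rintro ⟨h1, h2, h3⟩
    exact ⟨u, h1, w, h2, h3, rfl⟩

theorem le_iff {d : DD W} {S : Set (Sym2 W)} {o : OD W} {u w : W} : s(u, w) ∈ LE H d S o ↔
    H.Adj u w ∧ ((u ∈ d.X ∧ u ∈ o.X ∧ w ∈ d.X ∧ w ∈ o.X) ∨
      (u ∈ d.Y ∧ u ∈ o.Y ∧ w ∈ d.Y ∧ w ∈ o.Y)) ∧ s(u, w) ∉ S := by
  unfold LE
  simp only [Set.mem_sdiff, Set.mem_union, pe_iff, Set.mem_inter_iff]
  tauto

theorem mem_I {d : DD W} {x : W} : x ∈ d.I ↔ x ∉ d.Z ∧ x ∉ d.X ∧ x ∉ d.Y := by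
  unfold DD.I
  simp only [Set.mem_compl_iff, Set.mem_union, not_or]

theorem upd_I {d : DD W} {S : Set (Sym2 W)} {o : OD W} (h : Shp H d S o) {x : W}
    (hx : x ∈ (d.upd o).I) : x ∈ d.I ∧ x ∉ o.Z ∧ x ∉ o.X ∧ x ∉ o.Y := by
  obtain ⟨h1, h2, h3⟩ := mem_I.mp hx
  refine ⟨mem_I.mpr ⟨fun k => h1 (h.zz k), fun k => ?_, fun k => ?_⟩, h1, h2, h3⟩
  · exact (h.xx k).elim h2 h1
  · exact (h.yy k).elim h3 h1

/-- The colour of `v`. -/
theorem colour_v {s : SD W} {L : Set (Sym2 W)} {c : W → Col} {o : W → W} (hp : Paid L c o)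
    (hv : s.Long H → (c s.v).1 = true) (hl : (c s.ql).1 = true) (hj : (c s.qj).1 = true)
    (hL : H.Adj s.ql s.qj → s(s.ql, s.qj) ∈ L) :
    ∃ β : Bool, (s.Long H → c s.v = (true, β)) ∧
      (¬ s.Long H → ¬ (c s.ql = (true, β) ∧ c s.qj = (true, β))) ∧
      (¬ s.Long H → ∀ x, x = s.ql ∨ x = s.qj → c x = (true, β) →
        x ∈ Pay L c o ∧ s.ql ≠ s.qj ∧ s(x, o x) = s(s.ql, s.qj)) := by
  by_cases hLong : s.Long H
  · exact ⟨(c s.v).2, fun _ => Prod.ext (hv hLong) rfl, fun h => (h hLong).elim,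
      fun h => (h hLong).elim⟩
  by_cases hc : c s.ql = c s.qj
  · have hne : c s.ql ≠ (true, !(c s.ql).2) := by
      intro h
      have := congrArg Prod.snd h
      simp at this
    refine ⟨!(c s.ql).2, fun h => (hLong h).elim, fun _ h => hne h.1, fun _ x hx e => ?_⟩
    rcases hx with rfl | rfl
    · exact (hne e).elim
    · exact (hne (hc.trans e)).elim
  have hne : s.ql ≠ s.qj := fun h => hc (by rw [h])
  have hadj : H.Adj s.ql s.qj := by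
    by_contra h
    exact hLong ⟨hne, h⟩
  have el : c s.ql = (true, (c s.ql).2) := Prod.ext hl rfl
  have ej : c s.qj = (true, (c s.qj).2) := Prod.ext hj rfl
  rcases hp _ _ (hL hadj) with h | h | h
  · exact (hc h).elim
  · refine ⟨(c s.ql).2, fun h => (hLong h).elim, fun _ h => hc (h.1.trans h.2.symm),
      fun _ x hx e => ?_⟩
    rcases hx with rfl | rfl
    · refine ⟨⟨?_, ?_⟩, hne, by rw [h]⟩
      · rw [h]
        exact hL hadj
      · rw [h]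
        exact fun k => hc k.symm
    · exact (hc (el.trans e.symm)).elim
  · refine ⟨(c s.qj).2, fun h => (hLong h).elim, fun _ h => hc (h.1.trans h.2.symm),
      fun _ x hx e => ?_⟩
    rcases hx with rfl | rfl
    · exact (hc (e.trans ej.symm)).elim
    · refine ⟨⟨?_, ?_⟩, hne, by rw [h, Sym2.eq_swap]⟩
      · rw [h, Sym2.eq_swap]
        exact hL hadj
      · rw [h]
        exact hc

/-- The local facts that do not depend on colours. -/
structure Geo (H : SimpleGraph W) (s : SD W) (o1 o2 : OD W) : Prop where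
  tI : ∀ t ∈ s.T1 o1, t ∈ s.d.I
  imR : ∀ x ∈ (s.dM.upd o1).I, x ∈ s.Rg 1 ∧ x ∉ s.W1 o1 ∧ x ∉ s.T1 o1
  ilR : ∀ x ∈ ((s.dL o1).upd o2).I, (x ∈ s.Rg 0 ∨ x ∈ s.W1 o1) ∧ x ∉ s.T1 o1
  lT : s.ql ∉ s.T1 o1
  jT : s.qj ∉ s.T1 o1
  vj : ∀ x ∈ s.T1 o1, ∀ y ∈ o1.Y, y ∉ s.T1 o1 → H.Adj x y → x = s.v ∧ y = s.qj
  vl : ∀ x ∈ s.T1 o1, ∀ y ∈ o2.Y, y ∉ s.T1 o1 → H.Adj x y → x = s.v ∧ y = s.ql

theorem geo {s : SD W} {o1 o2 : OD W} (hP : Pre H s o1 o2) (hF : Fct H s o1 o2) :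
    Geo H s o1 o2 := by
  have tI : ∀ t ∈ s.T1 o1, t ∈ s.d.I := fun t ht =>
    (hF.tI ht).elim (fun h => hP.stp.ti h) fun h => h.1
  have lT : s.ql ∉ s.T1 o1 := fun h => (mem_I.mp (tI _ h)).2.2 hP.stp.hl
  have jT : s.qj ∉ s.T1 o1 := fun h => (mem_I.mp (tI _ h)).2.2 hP.stp.hj
  have p1 : Pth H o1.Y o1.ρ s.z s.d.b' := hP.s1.disc.py
  have p2 : Pth H o2.Y o2.ρ s.d.a' s.z := hP.s2.disc.py
  refine ⟨tI, ?_, ?_, lT, jT, ?_, ?_⟩
  · intro x hx
    obtain ⟨h1, h2, -, h4⟩ := upd_I hP.s1 hx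
    obtain ⟨k1, k2, k3⟩ := mem_I.mp h1
    refine ⟨?_, fun h => h2 h.1, fun h => h4 h.1⟩
    by_contra k4
    apply k1
    rintro ((k | k) | k)
    · exact k2 k
    · exact k3 k
    · exact k4 k
  · intro x hx
    obtain ⟨h1, -, -, h4⟩ := upd_I hP.s2 hx
    obtain ⟨k1, k2, k3⟩ := mem_I.mp h1
    refine ⟨?_, fun h => h4 (hF.tY h)⟩
    by_contra k4
    apply k1
    rintro ((k | k) | k)
    · exact k2 k
    · exact k3 k
    · exact k4 k
  · intro x hx y hy hyT hadj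
    have h1 : s.d.ρ s.qj ≤ o1.ρ y := by
      by_contra h
      exact hyT ⟨hy, not_le.mp h⟩
    have h2 : o1.ρ x < s.d.ρ s.qj := hx.2
    have h3 := (p1.adj x hx.1 y hy (by omega)).mp hadj
    have h4 := h3 _ hF.vT.1
    have h5 := h3 _ hF.jY
    have h6 := hF.rv
    have h7 := hF.rj
    exact ⟨p1.inj _ hx.1 _ hF.vT.1 (by omega), p1.inj _ hy _ hF.jY (by omega)⟩
  · intro x hx y hy hyT hadj
    have h1 := hF.ry y hy hyT
    have h2 : o1.ρ x < s.d.ρ s.qj := hx.2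
    have h2' := hF.rt x hx
    have h3 := (p2.adj y hy x (hF.tY hx) (by omega)).mp hadj.symm
    have h4 := h3 _ (hF.tY hF.vT)
    have h5 := h3 _ hF.lY
    have h6 := hF.rv
    have h7 := hF.rl
    have h8 := hF.rt _ hF.vT
    exact ⟨p2.inj _ (hF.tY hx) _ (hF.tY hF.vT) (by omega), p2.inj _ hy _ hF.lY (by omega)⟩

theorem sl_l {s : SD W} {o1 : OD W} {t : W} (ht : t ∈ s.T1 o1) (h : H.Adj t s.ql) :
    s(t, s.ql) ∈ s.SL H o1 := ⟨t, ht, s.ql, h, rfl, Or.inl rfl⟩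

theorem le_disj {s : SD W} {o1 o2 : OD W} (hP : Pre H s o1 o2) (hF : Fct H s o1 o2)
    (hG : Geo H s o1 o2) {u w : W} (h1 : s(u, w) ∈ LE H s.dM s.SM o1)
    (h2 : s(u, w) ∈ LE H (s.dL o1) (s.SL H o1) o2) : False := by
  obtain ⟨hadj, a1, -⟩ := le_iff.mp h1
  obtain ⟨-, a2, b2⟩ := le_iff.mp h2
  have key : ∀ x, ((x ∈ s.dM.X ∧ x ∈ o1.X) ∨ (x ∈ s.dM.Y ∧ x ∈ o1.Y)) →
      (x ∈ (s.dL o1).X ∨ x ∈ (s.dL o1).Y) → (x ∈ s.T1 o1 ∧ x ∈ s.τ) ∨ x = s.ql := by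
    intro x k1 k2
    have m1 : x ∉ s.dM.Z := fun h =>
      Set.disjoint_left.mp hP.dm.dz h (k1.elim (fun k => Or.inl k.1) fun k => Or.inr k.1)
    have m2 : x ∉ (s.dL o1).Z := fun h => Set.disjoint_left.mp hP.dl.dz h k2
    have m3 : x ∉ o1.Z := fun h =>
      Set.disjoint_left.mp hP.s1.disc.dz h (k1.elim (fun k => Or.inl k.2) fun k => Or.inr k.2)
    rcases hF.ov x m2 m1 with h | h | h
    · have hI := mem_I.mp (hG.tI x h)
      rcases k1 with ⟨k, -⟩ | ⟨k | k, -⟩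
      · exact (hI.2.1 k.1).elim
      · exact Or.inl ⟨h, k⟩
      · exact (hI.2.2 k.1).elim
    · exact (m3 h.1).elim
    · exact Or.inr h.1
  have ku := key u (by tauto) (by tauto)
  have kw := key w (by tauto) (by tauto)
  rcases ku with ku | ku <;> rcases kw with kw | kw
  · rcases pth_tri hP.s1.disc.py ku.1.1 kw.1.1 hadj with h | h
    · exact b2 ⟨u, ku.1, w, hadj, rfl, Or.inr ⟨kw.1, kw.2, h⟩⟩
    · exact b2 ⟨w, kw.1, u, hadj.symm, Sym2.eq_swap, Or.inr ⟨ku.1, ku.2, h⟩⟩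
  · subst kw
    exact b2 (sl_l ku.1 hadj)
  · subst ku
    exact b2 (Sym2.eq_swap ▸ sl_l kw.1 hadj.symm)
  · exact hadj.ne (ku.trans kw.symm)

theorem vj_not {s : SD W} {o1 o2 : OD W} (hP : Pre H s o1 o2) (hF : Fct H s o1 o2)
    (hG : Geo H s o1 o2) : s(s.v, s.qj) ∉ LE H s.dM s.SM o1 ∧
      s(s.v, s.qj) ∉ LE H (s.dL o1) (s.SL H o1) o2 := by
  refine ⟨fun h => (le_iff.mp h).2.2 rfl, fun h => ?_⟩
  obtain ⟨hadj, a2, b2⟩ := le_iff.mp h
  have hj := hP.stp.hj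
  rcases a2 with ⟨-, -, k, -⟩ | ⟨-, -, k | k, -⟩
  · exact Set.disjoint_left.mp hP.stp.disc.dxy k.1 hj
  · have e : s.qj = s.ql :=
      hP.stp.disc.py.inj _ hj _ hP.stp.hl (le_antisymm k.2 hF.lj)
    rw [e] at b2 hadj
    exact b2 (sl_l hF.vT hadj)
  · exact hG.jT k

theorem lj_not {s : SD W} {o1 o2 : OD W} (hP : Pre H s o1 o2) (hF : Fct H s o1 o2)
    (hG : Geo H s o1 o2) (hne : s.ql ≠ s.qj) : s(s.ql, s.qj) ∉ LE H s.dM s.SM o1 ∧
      s(s.ql, s.qj) ∉ LE H (s.dL o1) (s.SL H o1) o2 := by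
  have hj := hP.stp.hj
  have hl := hP.stp.hl
  constructor
  · intro h
    obtain ⟨-, a2, -⟩ := le_iff.mp h
    rcases a2 with ⟨k, -⟩ | ⟨k | k, -⟩
    · exact Set.disjoint_left.mp hP.stp.disc.dxy k.1 hl
    · exact (mem_I.mp (hP.stp.ti k)).2.2 hl
    · exact hne (hP.stp.disc.py.inj _ hl _ hj (le_antisymm hF.lj k.2))
  · intro h
    obtain ⟨-, a2, -⟩ := le_iff.mp h
    rcases a2 with ⟨-, -, k, -⟩ | ⟨-, -, k | k, -⟩
    · exact Set.disjoint_left.mp hP.stp.disc.dxy k.1 hj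
    · exact hne (hP.stp.disc.py.inj _ hl _ hj (le_antisymm hF.lj k.2))
    · exact hG.jT k

/-- Edges to be paid in the two discs are edges of the new path or edges to be paid in the
final disc. -/
theorem le_sub {s : SD W} {o1 o2 : OD W} (hP : Pre H s o1 o2)
    (hG : Geo H s o1 o2) {u w : W}
    (h : s(u, w) ∈ LE H s.dM s.SM o1 ∨ s(u, w) ∈ LE H (s.dL o1) (s.SL H o1) o2) :
    (H.Adj u w ∧ u ∈ s.T1 o1 ∧ w ∈ s.T1 o1) ∨
      s(u, w) ∈ LE H s.d {s(s.p, s.p')} (s.fin H o1 o2) := by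
  have hlt := hP.stp.lt
  have nY : ∀ x y, x ∈ s.d.Y → s(x, y) ∉ ({s(s.p, s.p')} : Set (Sym2 W)) := by
    intro x y hx e
    rcases Sym2.eq_iff.mp e with ⟨rfl, -⟩ | ⟨rfl, -⟩
    · exact Set.disjoint_left.mp hP.stp.disc.dxy hP.stp.hp hx
    · exact Set.disjoint_left.mp hP.stp.disc.dxy hP.stp.hp' hx
  rcases h with h | h
  · obtain ⟨hadj, a, b⟩ := le_iff.mp h
    rcases a with ⟨k1, k2, k3, k4⟩ | ⟨k1, k2, k3, k4⟩
    · refine Or.inr (le_iff.mpr ⟨hadj, Or.inl ⟨k1.1, Or.inr k2, k3.1, Or.inr k4⟩, fun e => ?_⟩)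
      have m1 : s.d.ρ s.p' ≤ s.d.ρ u := k1.2
      have m2 : s.d.ρ s.p' ≤ s.d.ρ w := k3.2
      rcases Sym2.eq_iff.mp e with ⟨rfl, -⟩ | ⟨-, rfl⟩ <;> omega
    · have old : ∀ x, x ∈ s.dM.Y → x ∈ o1.Y → x ∉ s.T1 o1 → x ∈ s.d.Y := by
        rintro x (k | k) k' k''
        · exfalso
          apply k''
          refine ⟨k', ?_⟩
          have e1 := hP.s1.ry x (Or.inl k) k'
          have e2 : s.dM.ρ x = s.d.ρ s.qj - 1 - (s.σ s.v - s.σ x) := if_pos k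
          have e3 := hP.stp.pt.hi x k
          omega
        · exact k.1
      by_cases hu : u ∈ s.T1 o1 <;> by_cases hw : w ∈ s.T1 o1
      · exact Or.inl ⟨hadj, hu, hw⟩
      · obtain ⟨rfl, rfl⟩ := hG.vj u hu w k4 hw hadj
        exact (b rfl).elim
      · obtain ⟨rfl, rfl⟩ := hG.vj w hw u k2 hu hadj.symm
        exact (b Sym2.eq_swap).elim
      · exact Or.inr (le_iff.mpr ⟨hadj, Or.inr ⟨old u k1 k2 hu, Or.inl ⟨Or.inr k2, hu⟩,
          old w k3 k4 hw, Or.inl ⟨Or.inr k4, hw⟩⟩, nY _ _ (old u k1 k2 hu)⟩)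
  · obtain ⟨hadj, a, b⟩ := le_iff.mp h
    rcases a with ⟨k1, k2, k3, k4⟩ | ⟨k1, k2, k3, k4⟩
    · refine Or.inr (le_iff.mpr ⟨hadj, Or.inl ⟨k1.1, Or.inl k2, k3.1, Or.inl k4⟩, fun e => ?_⟩)
      have m1 : s.d.ρ u ≤ s.d.ρ s.p := k1.2
      have m2 : s.d.ρ w ≤ s.d.ρ s.p := k3.2
      rcases Sym2.eq_iff.mp e with ⟨-, rfl⟩ | ⟨rfl, -⟩ <;> omega
    · have old : ∀ x, x ∈ (s.dL o1).Y → x ∉ s.T1 o1 → x ∈ s.d.Y := by
        rintro x (k | k) k''
        · exact k.1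
        · exact (k'' k).elim
      by_cases hu : u ∈ s.T1 o1 <;> by_cases hw : w ∈ s.T1 o1
      · exact Or.inl ⟨hadj, hu, hw⟩
      · obtain ⟨-, rfl⟩ := hG.vl u hu w k4 hw hadj
        exact (b (sl_l hu hadj)).elim
      · obtain ⟨-, rfl⟩ := hG.vl w hw u k2 hu hadj.symm
        exact (b (Sym2.eq_swap ▸ sl_l hw hadj.symm)).elim
      · exact Or.inr (le_iff.mpr ⟨hadj, Or.inr ⟨old u k1 hu, Or.inl ⟨Or.inl k2, hu⟩,
          old w k3 hw, Or.inl ⟨Or.inl k4, hw⟩⟩, nY _ _ (old u k1 hu)⟩)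

/-- The four recoloured parts are disjoint and do not touch. -/
theorem parts {s : SD W} {o1 o2 : OD W} (hP : Pre H s o1 o2) (hF : Fct H s o1 o2)
    (hG : Geo H s o1 o2) {A1 A2 : Set W} {c c1 c2 c3 c4 : W → Col}
    (h1 : Rec H (s.dM.upd o1).I A1 c c1) (h2 : Rec H ((s.dL o1).upd o2).I A2 c c2)
    (h3 : Rec H (s.Rg 2) ∅ c c3) (h4 : Rec H {x | x ∈ s.Rg 3 ∧ ¬ s.Long H} ∅ c c4)
    (hA : ∀ x ∈ A1, x ∉ A2) :
    ∃ c', Rec H ((s.dM.upd o1).I ∪ ((s.dL o1).upd o2).I ∪ s.Rg 2 ∪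
      {x | x ∈ s.Rg 3 ∧ ¬ s.Long H}) (A1 ∪ A2) c c' := by
  have hR := hP.reg
  have zτ : s.z ∈ s.τ := hP.stp.pt.ha
  have vτ : s.v ∈ s.τ := hP.stp.pt.hb
  -- description of the first two parts
  have d12 : ∀ x ∈ (s.dM.upd o1).I ∪ ((s.dL o1).upd o2).I, x ∈ s.d.I ∧ x ∉ s.T1 o1 ∧
      x ∉ s.Rg 2 ∧ x ∉ s.Rg 3 := by
    have r1 : ∀ x ∈ s.Rg 1, x ∈ s.d.I ∧ x ∉ s.Rg 2 ∧ x ∉ s.Rg 3 := fun x hx =>
      ⟨hx.1, fun h => absurd (hx.2.2.symm.trans h.2.2) (by decide),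
        fun h => absurd (hx.2.2.symm.trans h.2.2) (by decide)⟩
    rintro x (hx | hx)
    · obtain ⟨k1, -, k3⟩ := hG.imR x hx
      exact ⟨k1.1, k3, (r1 x k1).2⟩
    · obtain ⟨k1 | k1, k3⟩ := hG.ilR x hx
      · exact ⟨k1.1, k3, fun h => absurd (k1.2.2.symm.trans h.2.2) (by decide),
          fun h => absurd (k1.2.2.symm.trans h.2.2) (by decide)⟩
      · rcases hF.wI k1 with k | k
        · exact ⟨hP.stp.ti k, k3, fun h => h.2.1 k, fun h => h.2.1 k⟩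
        · exact ⟨k.1, k3, (r1 x k).2⟩
  obtain ⟨e1, g1⟩ := rec_union h1 h2 (by
      intro x hx hx'
      obtain ⟨k1, k2, -⟩ := hG.imR x hx
      rcases (hG.ilR x hx').1 with k | k
      · exact absurd (k1.2.2.symm.trans k.2.2) (by decide)
      · exact k2 k) (by
      intro x hx y hy hadj
      obtain ⟨k1, k2, -⟩ := hG.imR x hx
      have hI := mem_I.mp k1.1
      rcases (hG.ilR y hy).1 with k | k
      · rcases hR.n0 ⟨y, k, hadj⟩ with m | (m | m) | m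
        · exact absurd (k1.2.2.symm.trans m.2.2) (by decide)
        · exact hI.2.1 m.1
        · exact hI.2.2 m.1
        · exact k1.2.1 m
      · exact hx (hP.s1.disc.cl ⟨y, k.1, hadj⟩)) hA
  obtain ⟨e2, g2⟩ := rec_union g1 h3 (fun x hx => (d12 x hx).2.2.1) (by
      intro x hx y hy hadj
      obtain ⟨k1, k2, k3, -⟩ := d12 x hx
      have hI := mem_I.mp k1
      rcases hR.n2 ⟨y, hy, hadj⟩ with m | rfl | rfl | rfl
      · exact k3 m
      · exact hI.2.1 hP.stp.hp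
      · exact hI.2.1 hP.stp.hp'
      · exact k2 hF.zT) (fun _ _ h => h)
  obtain ⟨e3, g3⟩ := rec_union g2 h4 (by
      rintro x (hx | hx) h
      · exact (d12 x hx).2.2.2 h.1
      · exact absurd (hx.2.2.symm.trans h.1.2.2) (by decide)) (by
      intro x hx y hy hadj
      have k : x ∈ s.d.I ∧ x ≠ s.v ∧ x ∉ s.Rg 3 := by
        rcases hx with hx | hx
        · obtain ⟨k1, k2, -, k4⟩ := d12 x hx
          exact ⟨k1, fun e => k2 (e ▸ hF.vT), k4⟩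
        · exact ⟨hx.1, fun e => hx.2.1 (e ▸ vτ),
            fun h => absurd (hx.2.2.symm.trans h.2.2) (by decide)⟩
      have hI := mem_I.mp k.1
      rcases hR.n3 ⟨y, hy.1, hadj⟩ with m | m | m | rfl | rfl
      · exact k.2.2 m
      · exact hI.2.2 m.1
      · exact k.2.1 m
      · exact hI.2.2 hP.stp.hl
      · exact hI.2.2 hP.stp.hj) (fun _ _ h => h)
  refine ⟨e3, ?_⟩
  simpa using g3

end PkFinCP

open PkFinCP in
theorem pk_FinC : S_FinC := by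
  classical
  intro W H s o1 o2 hP hF hS h1 h2 hT2 hT3
  have hG := geo hP hF
  refine ⟨hS, ?_⟩
  intro c o hcX hcY hpd
  set L := LE H s.d {s(s.p, s.p')} (s.fin H o1 o2) with hL
  have hlF : s.ql ∈ (s.fin H o1 o2).Y := Or.inl ⟨Or.inl hF.lY, hG.lT⟩
  have hjF : s.qj ∈ (s.fin H o1 o2).Y := Or.inl ⟨Or.inr hF.jY, hG.jT⟩
  have hlj : H.Adj s.ql s.qj → s(s.ql, s.qj) ∈ L := by
    intro h
    refine le_iff.mpr ⟨h, Or.inr ⟨hP.stp.hl, hlF, hP.stp.hj, hjF⟩, fun e => ?_⟩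
    rcases Sym2.eq_iff.mp e with ⟨e1, -⟩ | ⟨e1, -⟩
    · exact Set.disjoint_left.mp hP.stp.disc.dxy hP.stp.hp (e1 ▸ hP.stp.hl)
    · exact Set.disjoint_left.mp hP.stp.disc.dxy hP.stp.hp' (e1 ▸ hP.stp.hl)
  obtain ⟨β, kL, kN, kP⟩ := colour_v (s := s) (H := H) hpd
    (fun h => hcY _ (Or.inr ⟨h, rfl⟩)) (hcY _ hlF) (hcY _ hjF) hlj
  have p1 : Pth H o1.Y o1.ρ s.z s.d.b' := hP.s1.disc.py
  obtain ⟨g, gv, gadj⟩ := two_col (T := s.T1 o1) (v := s.v) p1 (fun t ht => ht.1) (by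
    intro t ht
    have k1 : o1.ρ t < s.d.ρ s.qj := ht.2
    have k2 := hF.rv
    omega) β
  obtain ⟨f, hf⟩ := succ_ex p1
  obtain ⟨c1, c1T, c1N⟩ : ∃ c1 : W → Col, (∀ t ∈ s.T1 o1, c1 t = (true, g t)) ∧
      ∀ x, x ∉ s.T1 o1 → c1 x = c x :=
    ⟨fun x => if x ∈ s.T1 o1 then (true, g x) else c x, fun t ht => if_pos ht,
      fun x hx => if_neg hx⟩
  obtain ⟨o', oT, oL, oN⟩ : ∃ o' : W → W, (∀ t ∈ s.T1 o1, o' t = f t) ∧
      (∀ x, x ∉ s.T1 o1 → s(x, o x) ∈ L → o' x = o x) ∧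
      ∀ x, x ∉ s.T1 o1 → s(x, o x) ∉ L → o' x = x :=
    ⟨fun x => if x ∈ s.T1 o1 then f x else if s(x, o x) ∈ L then o x else x,
      fun t ht => if_pos ht, fun x hx h => (if_neg hx).trans (if_pos h),
      fun x hx h => (if_neg hx).trans (if_neg h)⟩
  have c1v : c1 s.v = (true, β) := by rw [c1T _ hF.vT, gv]
  have ov : o' s.v = s.qj := by
    rw [oT _ hF.vT]
    exact hf _ hF.vT.1 _ hF.jY hP.stp.vj (by rw [hF.rv, hF.rj]; omega)
  have LT : ∀ u w, s(u, w) ∈ L → u ∉ s.T1 o1 ∧ w ∉ s.T1 o1 := by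
    intro u w h
    obtain ⟨-, a, -⟩ := le_iff.mp h
    constructor
    · intro k
      have m := mem_I.mp (hG.tI _ k)
      exact a.elim (fun h => m.2.1 h.1) fun h => m.2.2 h.1
    · intro k
      have m := mem_I.mp (hG.tI _ k)
      exact a.elim (fun h => m.2.1 h.2.2.1) fun h => m.2.2 h.2.2.1
  have paid : ∀ u w, s(u, w) ∈ LE H s.dM s.SM o1 ∨ s(u, w) ∈ LE H (s.dL o1) (s.SL H o1) o2 →
      c1 u = c1 w ∨ o' u = w ∨ o' w = u := by
    intro u w h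
    rcases le_sub hP hG h with ⟨hadj, hu, hw⟩ | k
    · rcases pth_tri p1 hu.1 hw.1 hadj with m | m
      · exact Or.inr (Or.inl ((oT u hu).trans (hf u hu.1 w hw.1 hadj m)))
      · exact Or.inr (Or.inr ((oT w hw).trans (hf w hw.1 u hu.1 hadj.symm m)))
    · obtain ⟨hu, hw⟩ := LT u w k
      rcases hpd u w k with m | m | m
      · exact Or.inl (by rw [c1N u hu, c1N w hw, m])
      · exact Or.inr (Or.inl ((oL u hu (m ▸ k)).trans m))
      · exact Or.inr (Or.inr ((oL w hw (by rw [m, Sym2.eq_swap]; exact k)).trans m))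
  have XT : ∀ x ∈ (s.fin H o1 o2).X, x ∉ s.T1 o1 := by
    rintro x (hx | hx) k
    · exact Set.disjoint_left.mp hP.s2.disc.dxy hx (hF.tY k)
    · exact Set.disjoint_left.mp hP.s1.disc.dxy hx k.1
  have clX : ∀ x ∈ (s.fin H o1 o2).X, (c1 x).1 = false := fun x hx => by
    rw [c1N x (XT x hx)]
    exact hcX x hx
  have clY : ∀ x, x ∈ o2.Y ∨ x ∈ o1.Y → (c1 x).1 = true := by
    intro x hx
    by_cases k : x ∈ s.T1 o1
    · rw [c1T x k]
    · rw [c1N x k]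
      exact hcY x (Or.inl ⟨hx, k⟩)
  obtain ⟨e1, r1⟩ := h1.ext c1 o' (fun x hx => clX x (Or.inr hx)) (fun x hx => clY x (Or.inr hx))
    (fun u w h => paid u w (Or.inl h))
  obtain ⟨e2, r2⟩ := h2.ext c1 o' (fun x hx => clX x (Or.inl hx)) (fun x hx => clY x (Or.inl hx))
    (fun u w h => paid u w (Or.inr h))
  obtain ⟨e3, r3⟩ := hT2 c1 (by
    rintro ⟨-, k⟩
    have m1 : s.p' ∈ (s.fin H o1 o2).X :=
      (hS.xx hP.stp.hp').resolve_right (hS.st _ rfl _ (Sym2.mem_mk_right _ _))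
    have m2 := clX _ m1
    rw [k, c1T _ hF.zT] at m2
    exact Bool.noConfusion m2)
  obtain ⟨e4, r4⟩ : ∃ e4, Rec H {x | x ∈ s.Rg 3 ∧ ¬ s.Long H} ∅ c1 e4 := by
    by_cases hLong : s.Long H
    · have : {x | x ∈ s.Rg 3 ∧ ¬ s.Long H} = ∅ := by simp [hLong]
      rw [this]
      exact ⟨c1, rec_empty c1⟩
    by_cases hadj : H.Adj s.ql s.qj
    · have : {x | x ∈ s.Rg 3 ∧ ¬ s.Long H} = s.Rg 3 := by simp [hLong]
      rw [this]
      refine hT3 hadj c1 ?_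
      rintro ⟨k1, k2⟩
      rw [c1v, c1N _ hG.lT] at k1
      rw [c1N _ hG.lT, c1N _ hG.jT] at k2
      exact kN hLong ⟨k1.symm, k2.symm.trans k1.symm⟩
    · have e : s.ql = s.qj := by
        by_contra h
        exact hLong ⟨h, hadj⟩
      have : {x | x ∈ s.Rg 3 ∧ ¬ s.Long H} = ∅ := by
        ext x
        simp only [Set.mem_ofPred_eq, Set.mem_empty_iff_false, iff_false, not_and]
        intro hx
        obtain ⟨_, _, q, q', -, -, -, -, -, -, -, k1, k2, k3⟩ := hP.reg.c3 x hx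
        rw [e] at k1
        omega
      rw [this]
      exact ⟨c1, rec_empty c1⟩
  obtain ⟨c', R⟩ := parts hP hF hG r1 r2 r3 r4 (fun x k1 k2 => le_disj hP hF hG k1.1 k2.1)
  set M0 := (s.dM.upd o1).I ∪ ((s.dL o1).upd o2).I ∪ s.Rg 2 ∪ {x | x ∈ s.Rg 3 ∧ ¬ s.Long H}
    with hM0
  have mid : ∀ x, x ∈ (s.d.upd (s.fin H o1 o2)).I ↔
      x ∈ M0 ∨ (x ∈ s.T1 o1 ∧ ¬ (s.Long H ∧ x = s.v)) := by
    intro x
    rw [hF.mid x, hM0]
    constructor
    · rintro (k | k | k | k | k)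
      · exact Or.inl (Or.inl (Or.inl (Or.inl k)))
      · exact Or.inl (Or.inl (Or.inl (Or.inr k)))
      · exact Or.inl (Or.inl (Or.inr k))
      · exact Or.inr k
      · exact Or.inl (Or.inr k)
    · rintro ((((k | k) | k) | k) | k)
      · exact Or.inl k
      · exact Or.inr (Or.inl k)
      · exact Or.inr (Or.inr (Or.inl k))
      · exact Or.inr (Or.inr (Or.inr (Or.inr k)))
      · exact Or.inr (Or.inr (Or.inr (Or.inl k)))
  have TM : ∀ t ∈ s.T1 o1, t ∉ M0 := by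
    rintro t ht (((k | k) | k) | k)
    · exact (hG.imR t k).2.2 ht
    · exact (hG.ilR t k).2 ht
    · rcases hF.tI ht with m | m
      · exact k.2.1 m
      · exact absurd (m.2.2.symm.trans k.2.2) (by decide)
    · rcases hF.tI ht with m | m
      · exact k.1.2.1 m
      · exact absurd (m.2.2.symm.trans k.1.2.2) (by decide)
  have vA : s.v ∉ Pay (LE H s.dM s.SM o1) c1 o' ∪ Pay (LE H (s.dL o1) (s.SL H o1) o2) c1 o' := by
    rintro (k | k)
    · exact (vj_not hP hF hG).1 (ov ▸ k.1)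
    · exact (vj_not hP hF hG).2 (ov ▸ k.1)
  -- a neighbour outside `M0` with the colour of a new vertex
  have nb : ∀ t ∈ s.T1 o1, ¬ (s.Long H ∧ t = s.v) → ∀ y, y ∉ M0 → H.Adj t y → c' y = c' t →
      t = s.v ∧ ¬ s.Long H ∧ (y = s.ql ∨ y = s.qj) ∧ c y = (true, β) := by
    intro t ht hn y hy hadj e
    rw [R.off y hy, R.off t (TM t ht)] at e
    have yT : y ∉ s.T1 o1 := by
      intro k
      rw [c1T y k, c1T t ht] at e
      exact gadj t ht y k hadj (congrArg Prod.snd e).symm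
    have tI := (mid t).mpr (Or.inr ⟨ht, hn⟩)
    have yI : y ∉ (s.d.upd (s.fin H o1 o2)).I := fun k =>
      ((mid y).mp k).elim hy fun m => yT m.1
    have key : t = s.v ∧ (y = s.ql ∨ y = s.qj) := by
      have yc : y ∈ (s.fin H o1 o2).Z ∪ ((s.fin H o1 o2).X ∪ (s.fin H o1 o2).Y) := by
        by_contra k
        exact yI k
      rcases yc with k | k | ⟨k | k, -⟩ | k
      · exact (tI (hS.disc.cl ⟨y, k, hadj⟩)).elim
      · have m := clX y k
        rw [e, c1T t ht] at m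
        exact Bool.noConfusion m
      · obtain ⟨m1, m2⟩ := hG.vl t ht y k yT hadj
        exact ⟨m1, Or.inl m2⟩
      · obtain ⟨m1, m2⟩ := hG.vj t ht y k yT hadj
        exact ⟨m1, Or.inr m2⟩
      · exact (yT (k.2 ▸ hF.vT)).elim
    refine ⟨key.1, fun h => hn ⟨h, key.1⟩, key.2, ?_⟩
    rw [← c1N y yT, e, key.1, c1v]
  refine ⟨c', ?_, ?_, ?_, ?_⟩
  · intro x hx
    rw [mid, not_or] at hx
    rw [R.off x hx.1]
    by_cases k : x ∈ s.T1 o1
    · have m : s.Long H ∧ x = s.v := by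
        by_contra m
        exact hx.2 ⟨k, m⟩
      rw [m.2, c1v, kL m.1]
    · exact c1N x k
  · intro x hx
    rcases (mid x).mp hx with k | ⟨k, hn⟩
    · exact R.one x k
    intro y z hy hz ey ez
    by_cases my : y ∈ M0 <;> by_cases mz : z ∈ M0
    · exact R.un x (TM x k) y my z mz hy hz ey ez
    · have m := (nb x k hn z mz hz ez).1
      exact (vA (m ▸ R.al x (TM x k) y my hy ey)).elim
    · have m := (nb x k hn y my hy ey).1
      exact (vA (m ▸ R.al x (TM x k) z mz hz ez)).elim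
    · obtain ⟨-, a1, a2, a3⟩ := nb x k hn y my hy ey
      obtain ⟨-, -, b2, b3⟩ := nb x k hn z mz hz ez
      rcases a2 with rfl | rfl <;> rcases b2 with b2 | b2
      · exact b2.symm
      · exact (kN a1 ⟨a3, b2 ▸ b3⟩).elim
      · exact (kN a1 ⟨b2 ▸ b3, a3⟩).elim
      · exact b2.symm
  · intro x hx y hy hadj e
    rw [mid, not_or] at hx
    rcases (mid y).mp hy with k | ⟨k, hn⟩
    · have m := R.al x hx.1 y k hadj e
      have xT : x ∉ s.T1 o1 := by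
        intro k'
        have m' : s.Long H ∧ x = s.v := by
          by_contra m'
          exact hx.2 ⟨k', m'⟩
        exact vA (m'.2 ▸ m)
      have m2 : c1 (o' x) ≠ c1 x := m.elim (fun h => h.2) fun h => h.2
      by_cases hxL : s(x, o x) ∈ L
      · rw [oL x xT hxL, c1N x xT, c1N _ (LT _ _ hxL).2] at m2
        exact ⟨hxL, m2⟩
      · rw [oN x xT hxL] at m2
        exact (m2 rfl).elim
    · obtain ⟨-, a1, a2, a3⟩ := nb y k hn x hx.1 hadj.symm e.symm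
      exact (kP a1 x a2 a3).1
  · intro x hx y hy z hz hxy hxz ey ez
    rw [mid, not_or] at hx
    have mix : ∀ y ∈ M0, ∀ z ∈ s.T1 o1, ¬ (s.Long H ∧ z = s.v) → H.Adj x y → H.Adj x z →
        c' y = c' x → c' z = c' x → False := by
      intro y hy z hz hn hxy hxz ey ez
      obtain ⟨-, a1, a2, a3⟩ := nb z hz hn x hx.1 hxz.symm ez.symm
      obtain ⟨b1, b2, b3⟩ := kP a1 x a2 a3
      have xT : x ∉ s.T1 o1 := a2.elim (fun h => h ▸ hG.lT) fun h => h ▸ hG.jT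
      have b4 : s(x, o' x) = s(s.ql, s.qj) := by rw [oL x xT b1.1, b3]
      rcases R.al x hx.1 y hy hxy ey with m | m
      · exact (lj_not hP hF hG b2).1 (b4 ▸ m.1)
      · exact (lj_not hP hF hG b2).2 (b4 ▸ m.1)
    rcases (mid y).mp hy with ky | ⟨ky, ny⟩ <;> rcases (mid z).mp hz with kz | ⟨kz, nz⟩
    · exact R.un x hx.1 y ky z kz hxy hxz ey ez
    · exact (mix y ky z kz nz hxy hxz ey ez).elim
    · exact (mix z kz y ky ny hxz hxy ez ey).elim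
    · exact (nb y ky ny x hx.1 hxy.symm ey.symm).1.trans
        (nb z kz nz x hx.1 hxz.symm ez.symm).1.symm

end Pool.Agent.P.MP_08fd93_co.OV
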