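import Pool.Agent.P.MP_08fd93_co.OV.St2

/-! Package Frm of project OV: parametrised level lines. -/

set_option autoImplicit false

namespace Pool.Agent.P.MP_08fd93_co.OV

namespace PkFrmP

theorem tr_comm {J : Type} (a b : ℤ × ℤ) (x : Vx J) : tr a (tr b x) = tr b (tr a x) := by
  simp only [tr, Prod.mk.injEq, true_and]
  abel

theorem tr_inj {J : Type} (a : ℤ × ℤ) {x y : Vx J} (h : tr a x = tr a y) : x = y := by
  simp only [tr, Prod.mk.injEq, add_left_inj] at h
  exact Prod.ext h.1 h.2

theorem shift {g : ℤ → ℤ} (hi : Function.Injective g)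
    (hs : ∀ i, g (i + 1) = g i + 1 ∨ g i = g (i + 1) + 1) {n n' : ℤ} (hn : 0 < n) (hn' : 0 < n')
    (hp : g n = g 0 + n') (i : ℤ) : g i = i + g 0 := by
  have step : ∀ i, g (i + 1 + 1) - g (i + 1) = g (i + 1) - g i := by
    intro i
    have h1 := hs i
    have h2 := hs (i + 1)
    have h3 : g (i + 1 + 1) ≠ g i := fun e => by have := hi e; omega
    omega
  have const : ∀ i, g (i + 1) - g i = g (0 + 1) - g 0 := by
    intro i
    induction i using Int.induction_on with
    | zero => rfl
    | succ k ih => rw [step, ih]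
    | pred k ih =>
      have := step (-(k : ℤ) - 1)
      rw [show -(k : ℤ) - 1 + 1 = -k by ring] at this
      rw [show -(k : ℤ) - 1 + 1 = -k by ring, ← this, ih]
  have lin : ∀ i, g i = g 0 + (g (0 + 1) - g 0) * i := by
    intro i
    induction i using Int.induction_on with
    | zero => simp
    | succ k ih => have := const k; rw [mul_add]; omega
    | pred k ih =>
      have := const (-(k : ℤ) - 1)
      rw [show -(k : ℤ) - 1 + 1 = -k by ring] at this
      rw [mul_sub]; omega
  have h1 := lin n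
  rcases hs 0 with h | h
  · have e : g (0 + 1) - g 0 = 1 := by omega
    have := lin i
    rw [e] at this; omega
  · have e : g (0 + 1) - g 0 = -1 := by omega
    rw [e] at h1; omega

end PkFrmP

open PkFrmP in
theorem pk_Frm : S_Frm := by
  intro hLCon hLin J Γ η f an w hP hU hNL hNJ
  have hw : η w = 0 := (hP.ker w).mpr ⟨1, by simp⟩
  have hex : ∀ j, ∃ (l : ℤ → Vx J) (n : ℤ), 2 ≤ n ∧ (∀ x, x ∈ LL Γ f j ↔ ∃ i, x = l i) ∧
      Function.Injective l ∧ (∀ i i', Γ.Adj (l i) (l i') ↔ i' = i + 1 ∨ i = i' + 1) ∧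
      ∀ i, tr w (l i) = l (i + n) := by
    intro j
    obtain ⟨h1, h2⟩ := hLCon J Γ η f an w hP hU j
    refine hLin J Γ (LL Γ f j) w hP.fine.inv hNL hP.w0 (hU.lne j) h1 ?_ h2
    intro x
    have := hU.ltr w j x
    rwa [hw, add_zero] at this
  choose l nn h2 hmem hinj hadj hlw using hex
  have hf : ∀ j i, f (l j i) = j := fun j i => hU.lf j _ ((hmem j _).mpr ⟨i, rfl⟩)
  refine ⟨l, fun x => Function.invFun (l (f x)) x, nn, hP, hU, hNJ, hmem, ?_, hadj, hlw, h2, ?_⟩
  · intro j i
    show Function.invFun (l (f (l j i))) (l j i) = i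
    rw [hf]
    exact Function.leftInverse_invFun (hinj j) i
  · intro a j
    have hg : ∀ i, ∃ i', tr a (l j i) = l (j + η a) i' := fun i =>
      (hmem _ _).mp ((hU.ltr a j _).mpr ((hmem j _).mpr ⟨i, rfl⟩))
    choose g hg using hg
    refine ⟨g 0, fun i => ?_⟩
    show tr a (l j i) = l (j + η a) (i + g 0)
    rw [hg, shift (g := g) (n := nn j) (n' := nn (j + η a)) ?_ ?_ (by have := h2 j; omega)
      (by have := h2 (j + η a); omega) ?_ i]
    · intro i i' e
      have : tr a (l j i) = tr a (l j i') := by rw [hg, hg, e]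
      exact hinj j (tr_inj a this)
    · intro i
      have h := hP.fine.inv a _ _ ((hadj j i (i + 1)).mpr (Or.inl rfl))
      rw [hg, hg] at h
      exact (hadj _ _ _).mp h
    · apply hinj (j + η a)
      rw [← hg, ← hlw, ← hg, tr_comm, hlw, zero_add]

end Pool.Agent.P.MP_08fd93_co.OV
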