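import Pool.Agent.P.MP_08fd93_co.OV.St2

/-! Package HP: half planes are connected up to a margin. -/

set_option autoImplicit false

namespace Pool.Agent.P.MP_08fd93_co.OV

namespace PkHPP

theorem conn_symm {W : Type} {H : SimpleGraph W} {A : Set W} {a b : W} (h : Conn H A a b) :
    Conn H A b a := by
  induction h with
  | refl => exact Relation.ReflTransGen.refl
  | tail _ hxy ih => exact Relation.ReflTransGen.head ⟨hxy.2.1, hxy.1, hxy.2.2.symm⟩ ih

theorem conn_mono {W : Type} {H : SimpleGraph W} {A B : Set W} (hAB : A ⊆ B) {a b : W}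
    (h : Conn H A a b) : Conn H B a b := by
  induction h with
  | refl => exact Relation.ReflTransGen.refl
  | tail _ hxy ih => exact Relation.ReflTransGen.tail ih ⟨hAB hxy.1, hAB hxy.2.1, hxy.2.2⟩

theorem bnd {W : Type} {H : SimpleGraph W} (φ : W → ℤ) {A : Set W} {a b : W}
    (h : Conn H A a b) : ∃ B : ℕ, Conn H {z | -(B : ℤ) ≤ φ z} a b := by
  induction h with
  | refl => exact ⟨0, Relation.ReflTransGen.refl⟩
  | @tail x y _ hxy ih =>
    obtain ⟨B, hB⟩ := ih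
    refine ⟨B + (φ x).natAbs + (φ y).natAbs, Relation.ReflTransGen.tail
      (conn_mono (fun z hz => ?_) hB) ⟨?_, ?_, hxy.2.2⟩⟩
    all_goals simp only [Set.mem_ofPred_eq] at *
    all_goals omega

variable {J : Type} {Γ : SimpleGraph (Vx J)}

theorem conn_tr (inv : ∀ a x y, Γ.Adj x y → Γ.Adj (tr a x) (tr a y)) (η : ℤ × ℤ →+ ℤ)
    (c : ℤ × ℤ) {h h' : ℤ} (hh : h' ≤ h + η c) {p q : Vx J}
    (hc : Conn Γ {z | h ≤ η z.2} p q) : Conn Γ {z | h' ≤ η z.2} (tr c p) (tr c q) := by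
  induction hc with
  | refl => exact Relation.ReflTransGen.refl
  | @tail x y _ hxy ih =>
    refine Relation.ReflTransGen.tail ih ⟨?_, ?_, inv c _ _ hxy.2.2⟩
    · have := hxy.1
      simp only [Set.mem_ofPred_eq, tr, map_add] at *
      omega
    · have := hxy.2.1
      simp only [Set.mem_ofPred_eq, tr, map_add] at *
      omega

theorem seg_nat {S : Set (Vx J)} (η : ℤ × ℤ →+ ℤ) (u : J) (e : ℤ × ℤ) (t : ℤ)
    (step : ∀ a, t ≤ η a → Conn Γ S (u, a) (u, a + e)) (a : ℤ × ℤ) (ha : t ≤ η a) (k : ℕ)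
    (hk : t ≤ η (a + (k : ℤ) • e)) : Conn Γ S (u, a) (u, a + (k : ℤ) • e) := by
  induction k with
  | zero =>
    simp only [Nat.cast_zero, zero_smul, add_zero]
    exact Relation.ReflTransGen.refl
  | succ k ih =>
    have h1 : t ≤ η (a + (k : ℤ) • e) := by
      rw [map_add, map_zsmul, smul_eq_mul] at hk ⊢
      push_cast at hk
      have hk0 : (0 : ℤ) ≤ k := Int.natCast_nonneg k
      rcases le_total 0 (η e) with h | h
      · have := mul_nonneg hk0 h
        linarith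
      · linarith
    have h2 := step _ h1
    have e1 : a + ((k + 1 : ℕ) : ℤ) • e = a + (k : ℤ) • e + e := by
      push_cast
      rw [add_smul, one_smul, add_assoc]
    rw [e1]
    exact (ih h1).trans h2

theorem seg {S : Set (Vx J)} (η : ℤ × ℤ →+ ℤ) (u : J) (e : ℤ × ℤ) (t : ℤ)
    (step : ∀ a, t ≤ η a → Conn Γ S (u, a) (u, a + e)) (a b : ℤ × ℤ) (k : ℤ)
    (hab : b = a + k • e) (ha : t ≤ η a) (hb : t ≤ η b) : Conn Γ S (u, a) (u, b) := by
  rcases le_total 0 k with h | h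
  · obtain ⟨n, rfl⟩ := Int.eq_ofNat_of_zero_le h
    subst hab
    exact seg_nat η u e t step a ha n hb
  · obtain ⟨n, hn⟩ := Int.eq_ofNat_of_zero_le (neg_nonneg.2 h)
    have e1 : a = b + (n : ℤ) • e := by
      rw [hab, ← hn, add_assoc, ← add_smul, add_neg_cancel, zero_smul, add_zero]
    have := seg_nat η u e t step b hb n (by rw [← e1]; exact ha)
    rw [← e1] at this
    exact conn_symm this

end PkHPP

open PkHPP in
theorem pk_HP : S_HP := by
  intro J _ Γ hΓ η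
  have hc : ∀ p q : Vx J, ∃ B : ℕ, Conn Γ {z | -(B : ℤ) ≤ η z.2} p q := fun p q =>
    bnd (fun z : Vx J => η z.2) (hΓ.pl.conn p (Set.mem_univ _) q (Set.mem_univ _))
  choose B hB using hc
  obtain ⟨M0, hM0⟩ := (Set.finite_range fun p : J × J => B (p.1, 0) (p.2, 0)).bddAbove
  obtain ⟨M1, hM1⟩ := (Set.finite_range fun u : J => B (u, 0) (u, (1, 0))).bddAbove
  obtain ⟨M2, hM2⟩ := (Set.finite_range fun u : J => B (u, 0) (u, (0, 1))).bddAbove
  refine ⟨(M0 + M1 + M2 : ℕ), Int.natCast_nonneg _, ?_⟩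
  rintro h ⟨u, a⟩ ⟨v, b⟩ hx hy
  simp only at hx hy
  have s0 : Conn Γ {z | h ≤ η z.2} (u, b) (v, b) := by
    have h1 : B (u, 0) (v, 0) ≤ M0 := hM0 ⟨(u, v), rfl⟩
    have := conn_tr hΓ.inv η b (h' := h) (by omega) (hB (u, 0) (v, 0))
    simpa only [tr, zero_add] using this
  have s1 : ∀ c, h + ((M0 + M1 + M2 : ℕ) : ℤ) ≤ η c →
      Conn Γ {z | h ≤ η z.2} (u, c) (u, c + (1, 0)) := by
    intro c hc
    have h1 : B (u, 0) (u, (1, 0)) ≤ M1 := hM1 ⟨u, rfl⟩
    have := conn_tr hΓ.inv η c (h' := h) (by omega) (hB (u, 0) (u, (1, 0)))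
    simpa only [tr, add_zero, add_comm _ c] using this
  have s2 : ∀ c, h + ((M0 + M1 + M2 : ℕ) : ℤ) ≤ η c →
      Conn Γ {z | h ≤ η z.2} (u, c) (u, c + (0, 1)) := by
    intro c hc
    have h1 : B (u, 0) (u, (0, 1)) ≤ M2 := hM2 ⟨u, rfl⟩
    have := conn_tr hΓ.inv η c (h' := h) (by omega) (hB (u, 0) (u, (0, 1)))
    simpa only [tr, add_zero, add_comm _ c] using this
  refine Relation.ReflTransGen.trans ?_ s0
  have hsum : η (b.1, a.2) + η (a.1, b.2) = η a + η b := by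
    rw [← map_add, ← map_add]
    congr 1
    ext
    · simp [add_comm]
    · simp
  by_cases hcase : h + ((M0 + M1 + M2 : ℕ) : ℤ) ≤ η (b.1, a.2)
  · exact (seg η u (1, 0) _ s1 a (b.1, a.2) (b.1 - a.1) (by ext <;> simp) hx hcase).trans
      (seg η u (0, 1) _ s2 (b.1, a.2) b (b.2 - a.2) (by ext <;> simp) hcase hy)
  · have hc2 : h + ((M0 + M1 + M2 : ℕ) : ℤ) ≤ η (a.1, b.2) := by omega
    exact (seg η u (0, 1) _ s2 a (a.1, b.2) (b.2 - a.2) (by ext <;> simp) hx hc2).trans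
      (seg η u (1, 0) _ s1 (a.1, b.2) b (b.1 - a.1) (by ext <;> simp) hc2 hy)

end Pool.Agent.P.MP_08fd93_co.OV
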