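import Pool.Agent.P.MP_08fd93_co.OV.Base
import Pool.Agent.P.MP_08fd93_co.OV.St1

/-! Package Ind of project OV. -/

set_option autoImplicit false

namespace Pool.Agent.P.MP_08fd93_co.OV

namespace PkIndP

variable {W : Type} {H : SimpleGraph W} {d : DD W}

/-- no inner rung -/
def NR (H : SimpleGraph W) (d : DD W) : Prop :=
  ∀ u ∈ d.X, ∀ v ∈ d.Y, H.Adj u v → (u = d.a ∧ v = d.a') ∨ (u = d.b ∧ v = d.b')

theorem NR.swap (h : NR H d) : NR H d.swap := fun u hu v hv a =>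
  (h v hv u hu a.symm).imp (fun k => ⟨k.2, k.1⟩) fun k => ⟨k.2, k.1⟩

theorem lf_edge (D : Disc H d) {e : Sym2 W} (he : e ∈ PE H d.X ∪ PE H d.Y)
    (h : ∀ x ∈ e, x ∈ d.Lf d.a d.a') : False := by
  rcases he with ⟨p, hp, q, hq, a, rfl⟩ | ⟨p, hp, q, hq, a, rfl⟩
  · have k : ∀ x ∈ d.X, x ∈ d.Lf d.a d.a' → x = d.a := by
      rintro x hx (k | k)
      · exact D.px.inj x hx _ D.px.ha (le_antisymm k.2 (D.px.lo x hx))
      · exact absurd k.1 (D.xy hx)
    exact a.ne ((k p hp (h p (by simp))).trans (k q hq (h q (by simp))).symm)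
  · have k : ∀ x ∈ d.Y, x ∈ d.Lf d.a d.a' → x = d.a' := by
      rintro x hx (k | k)
      · exact absurd hx (D.xy k.1)
      · exact D.py.inj x hx _ D.py.ha (le_antisymm k.2 (D.py.lo x hx))
    exact a.ne ((k p hp (h p (by simp))).trans (k q hq (h q (by simp))).symm)

theorem rt_edge (D : Disc H d) {e : Sym2 W} (he : e ∈ PE H d.X ∪ PE H d.Y)
    (h : ∀ x ∈ e, x ∈ d.Rt d.b d.b') : False := by
  rcases he with ⟨p, hp, q, hq, a, rfl⟩ | ⟨p, hp, q, hq, a, rfl⟩
  · have k : ∀ x ∈ d.X, x ∈ d.Rt d.b d.b' → x = d.b := by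
      rintro x hx (k | k)
      · exact D.px.inj x hx _ D.px.hb (le_antisymm (D.px.hi x hx) k.2)
      · exact absurd k.1 (D.xy hx)
    exact a.ne ((k p hp (h p (by simp))).trans (k q hq (h q (by simp))).symm)
  · have k : ∀ x ∈ d.Y, x ∈ d.Rt d.b d.b' → x = d.b' := by
      rintro x hx (k | k)
      · exact absurd hx (D.xy k.1)
      · exact D.py.inj x hx _ D.py.hb (le_antisymm (D.py.hi x hx) k.2)
    exact a.ne ((k p hp (h p (by simp))).trans (k q hq (h q (by simp))).symm)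

theorem one_edge (D : Disc H d) (hI : d.I.Nonempty) (N : NR H d) {S : Set (Sym2 W)}
    (A : Adm H d S) : ∃ e ∈ PE H d.X ∪ PE H d.Y, S ⊆ {e} := by
  have sep : ∀ e ∈ S, ∀ e' ∈ S, ¬ Sep H d e e' := by
    rintro e he e' he' ⟨u, hu, v, hv, a, h1, h2⟩
    rcases N u hu v hv a with ⟨rfl, rfl⟩ | ⟨rfl, rfl⟩
    · exact lf_edge D (A.1 he) h1
    · exact rt_edge D (A.1 he') h2
  rcases S.eq_empty_or_nonempty with rfl | ⟨e, he⟩
  · by_cases h1 : d.a = d.b
    · by_cases h2 : d.a' = d.b'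
      · exfalso
        have e1 : d.X = {d.a} := Pth.eq_single (ρ := d.ρ) (by have := D.px; rwa [← h1] at this)
        have e2 : d.Y = {d.a'} := Pth.eq_single (ρ := d.ρ) (by have := D.py; rwa [← h2] at this)
        refine D.nj d.I subset_rfl D.fin hI d.a d.a' (Or.inr D.ra) ?_
        rintro x ⟨y, hy, a⟩
        rcases d.cases x with k | k | k | k
        · exact absurd k (D.iz hy a.symm)
        · rw [e1] at k
          exact Or.inr (Or.inl k)
        · rw [e2] at k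
          exact Or.inr (Or.inr k)
        · exact Or.inl k
      · obtain ⟨v, hv, -, a, -⟩ := D.py.succ D.py.ha h2
        exact ⟨_, Or.inr ⟨_, D.py.ha, v, hv, a, rfl⟩, Set.empty_subset _⟩
    · obtain ⟨v, hv, -, a, -⟩ := D.px.succ D.px.ha h1
      exact ⟨_, Or.inl ⟨_, D.px.ha, v, hv, a, rfl⟩, Set.empty_subset _⟩
  · refine ⟨e, A.1 he, fun e' he' => ?_⟩
    by_contra k
    rcases A.2 e' he' e he k with q | q
    exacts [sep _ he' _ he q, sep _ he _ he' q]

theorem left_lt {u v : W} {IL IR : Set W} (P : Spl H d u v IL IR)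
    (h : ¬ (u = d.b ∧ v = d.b')) : ((d.left u v IL).Zᶜ).ncard < (d.Zᶜ).ncard := by
  have D := P.disc
  have e : (d.left u v IL).Zᶜ = d.Lf u v ∪ IL := compl_compl _
  have iL : ∀ x ∈ IL, x ∈ d.I := fun x hx => (P.cov x).2 (Or.inl hx)
  rw [e]
  refine Set.ncard_lt_ncard ⟨?_, fun k => ?_⟩ D.finc
  · rintro x ((q | q) | q)
    exacts [D.xz q.1, D.yz q.1, (DD.mem_I.1 (iL x q)).1]
  · by_cases h1 : u = d.b
    · have h2 : v ≠ d.b' := fun q => h ⟨h1, q⟩
      rcases k (show d.b' ∈ d.Zᶜ from D.yz D.py.hb) with (q | q) | q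
      · exact D.xy q.1 D.py.hb
      · exact absurd q.2 (not_le.2 (D.py.lt_hi P.hv h2))
      · exact (DD.mem_I.1 (iL _ q)).2.2 D.py.hb
    · rcases k (show d.b ∈ d.Zᶜ from D.xz D.px.hb) with (q | q) | q
      · exact absurd q.2 (not_le.2 (D.px.lt_hi P.hu h1))
      · exact D.xy D.px.hb q.1
      · exact (DD.mem_I.1 (iL _ q)).2.1 D.px.hb

theorem right_lt {u v : W} {IL IR : Set W} (P : Spl H d u v IL IR)
    (h : ¬ (u = d.a ∧ v = d.a')) : ((d.right u v IR).Zᶜ).ncard < (d.Zᶜ).ncard := by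
  have D := P.disc
  have e : (d.right u v IR).Zᶜ = d.Rt u v ∪ IR := compl_compl _
  have iL : ∀ x ∈ IR, x ∈ d.I := fun x hx => (P.cov x).2 (Or.inr hx)
  rw [e]
  refine Set.ncard_lt_ncard ⟨?_, fun k => ?_⟩ D.finc
  · rintro x ((q | q) | q)
    exacts [D.xz q.1, D.yz q.1, (DD.mem_I.1 (iL x q)).1]
  · by_cases h1 : u = d.a
    · have h2 : v ≠ d.a' := fun q => h ⟨h1, q⟩
      rcases k (show d.a' ∈ d.Zᶜ from D.yz D.py.ha) with (q | q) | q
      · exact D.xy q.1 D.py.ha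
      · exact absurd q.2 (not_le.2 (D.py.lo_lt P.hv h2))
      · exact (DD.mem_I.1 (iL _ q)).2.2 D.py.ha
    · rcases k (show d.a ∈ d.Zᶜ from D.xz D.px.ha) with (q | q) | q
      · exact absurd q.2 (not_le.2 (D.px.lo_lt P.hu h1))
      · exact D.xy D.px.ha q.1
      · exact (DD.mem_I.1 (iL _ q)).2.1 D.px.ha

end PkIndP

open PkIndP in
theorem pk_Ind : S_Ind := by
  intro l1 l2 l3 p1 p2 p3 p4a p4b fct fa fb fc t1 t2 W H hP
  have main : ∀ (d : DD W) (p p' : W), Disc H d → d.I.Nonempty → NR H d →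
      TN H (d.Zᶜ).ncard → p ∈ d.X → p' ∈ d.X → d.ρ p < d.ρ p' → H.Adj p p' →
      ∃ o, Out H d {s(p, p')} o := by
    intro d p p' D hI N ih hp hp' lt a
    obtain ⟨s0, e1, e2, e3, P0⟩ := p1 W H hP d p p' D hI N hp hp' lt a
    obtain ⟨s, f1, f2, f3, P, R⟩ := p2 W H hP s0 P0
    have g1 : s.d = d := f1.trans e1
    have g2 : s.p = p := f2.trans e2
    have g3 : s.p' = p' := f3.trans e3
    subst g1 g2 g3
    obtain ⟨dm, am, cm⟩ := p3 W H s P R
    obtain ⟨o1, O1⟩ := ih _ _ dm am cm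
    obtain ⟨-, -, -, -, -, -, -, al⟩ := p4a W H s o1 P R dm O1.shp
    obtain ⟨dl, cl⟩ := p4b p4a W H hP s o1 P R dm O1.shp
    obtain ⟨o2, O2⟩ := ih _ _ dl al cl
    have pre : Pre H s o1 o2 := ⟨P, R, dm, O1.shp, dl, O2.shp⟩
    have F := fct p4a W H s o1 o2 pre
    have sh := fb W H s o1 o2 pre F (fa W H s o1 o2 pre F)
    obtain ⟨r2, r3⟩ := t2 W H s P R (t1 W H hP _ ih)
    exact ⟨_, fc W H s o1 o2 pre F sh O1 O2 r2 r3⟩
  have mainX : ∀ (d : DD W) (e : Sym2 W), Disc H d → d.I.Nonempty → NR H d →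
      TN H (d.Zᶜ).ncard → e ∈ PE H d.X → ∃ o, Out H d {e} o := by
    rintro d e D hI N ih ⟨p, hp, q, hq, a, rfl⟩
    rcases D.px.lt_or hp hq a.ne with l | l
    · exact main d p q D hI N ih hp hq l a
    · rw [Sym2.eq_swap]
      exact main d q p D hI N ih hq hp l a.symm
  have all : ∀ n, TN H n := by
    intro n
    induction n with
    | zero => intro d S _ _ k; exact absurd k (Nat.not_lt_zero _)
    | succ n ihn =>
      intro d S D A k
      have ih : TN H (d.Zᶜ).ncard := fun d' S' D' A' k' => ihn d' S' D' A' (by omega)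
      rcases d.I.eq_empty_or_nonempty with hI | hI
      · exact ⟨_, Out.triv D A.1 hI⟩
      by_cases N : NR H d
      · obtain ⟨e, he, hS⟩ := one_edge D hI N A
        rcases he with he | he
        · obtain ⟨o, O⟩ := mainX d e D hI N ih he
          exact ⟨o, O.mono hS⟩
        · obtain ⟨o, O⟩ := mainX d.swap e D.swap (by rw [DD.swap_I]; exact hI) N.swap ih he
          exact ⟨o.swap, Out.mono (d := d) O.swap hS⟩
      · simp only [NR, not_forall, not_or] at N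
        obtain ⟨u, hu, v, hv, a, n1, n2⟩ := N
        obtain ⟨IL, IR, P, hA⟩ := l1 W H hP d u v D hu hv a
        obtain ⟨aL, aR⟩ := hA S A
        obtain ⟨oL, OL⟩ := ih _ _ P.dl aL (left_lt P n2)
        obtain ⟨oR, OR⟩ := ih _ _ P.dr aR (right_lt P n1)
        exact ⟨_, l3 W H d u v IL IR S oL oR P OL OR
          (l2 W H d u v IL IR S oL oR P A.1 OL.shp OR.shp)⟩
  intro d S D A
  exact all _ d S D A (Nat.lt_succ_self _)

end Pool.Agent.P.MP_08fd93_co.OV
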