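import Pool.Agent.P.MP_08fd93_co.OV.St2

/-! Package Iso: translation invariance of the notions attached to units. -/

set_option autoImplicit false

namespace Pool.Agent.P.MP_08fd93_co.OV

namespace PkIsoP

variable {J : Type}

theorem tr_neg (a : ℤ × ℤ) (x : Vx J) : tr (-a) (tr a x) = x := by
  simp [tr]

theorem tr_neg' (a : ℤ × ℤ) (x : Vx J) : tr a (tr (-a) x) = x := by
  simp [tr]

theorem surj (a : ℤ × ℤ) : Function.Surjective (tr a : Vx J → Vx J) :=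
  fun x => ⟨tr (-a) x, tr_neg' a x⟩

theorem inj (a : ℤ × ℤ) : Function.Injective (tr a : Vx J → Vx J) := by
  intro x y h
  rw [← tr_neg a x, h, tr_neg]

theorem tr_eq (a : ℤ × ℤ) (x y : Vx J) : tr a x = tr a y ↔ x = y := (inj a).eq_iff

theorem sym_tr (a : ℤ × ℤ) (p q x y : Vx J) :
    s(tr a p, tr a q) = s(tr a x, tr a y) ↔ s(p, q) = s(x, y) := by
  simp only [Sym2.eq_iff, tr_eq]

theorem mem_T (a : ℤ × ℤ) (u : Un J) (v : Vx J) : tr a v ∈ (u.act a).T ↔ v ∈ u.T := by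
  simp only [Un.T, Un.act, Set.mem_insert_iff, Set.mem_singleton_iff, tr_eq]

theorem mem_pk (a : ℤ × ℤ) (u : Un J) (v : Vx J) : tr a v ∈ (u.act a).pk ↔ v ∈ u.pk :=
  (inj a).mem_set_image

theorem snd_tr (a : ℤ × ℤ) (u : Un J) : (u.act a).snd = tr a u.snd := by
  unfold Un.snd
  by_cases h : u.x = u.s
  · rw [if_pos h, if_pos (show (u.act a).x = (u.act a).s from congrArg (tr a) h)]
    rfl
  · rw [if_neg h, if_neg (show ¬ (u.act a).x = (u.act a).s from fun e => h (inj a e))]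
    rfl

section

variable {Γ : SimpleGraph (Vx J)} (inv : ∀ a x y, Γ.Adj x y → Γ.Adj (tr a x) (tr a y))
include inv

theorem adj_tr (a : ℤ × ℤ) (x y : Vx J) : Γ.Adj (tr a x) (tr a y) ↔ Γ.Adj x y := by
  refine ⟨fun h => ?_, inv a x y⟩
  have := inv (-a) _ _ h
  rwa [tr_neg, tr_neg] at this

theorem conn_tr1 (a : ℤ × ℤ) {A B : Set (Vx J)} (h : ∀ x ∈ A, tr a x ∈ B) {p q : Vx J}
    (hc : Conn Γ A p q) : Conn Γ B (tr a p) (tr a q) := by
  induction hc with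
  | refl => exact Relation.ReflTransGen.refl
  | tail _ hxy ih =>
    exact Relation.ReflTransGen.tail ih ⟨h _ hxy.1, h _ hxy.2.1, inv a _ _ hxy.2.2⟩

theorem conn_tr (a : ℤ × ℤ) {A B : Set (Vx J)} (h : ∀ x, tr a x ∈ B ↔ x ∈ A) (p q : Vx J) :
    Conn Γ B (tr a p) (tr a q) ↔ Conn Γ A p q := by
  refine ⟨fun hc => ?_, conn_tr1 inv a fun x hx => (h x).2 hx⟩
  have := conn_tr1 inv (-a) (B := A) (fun x hx => (h _).1 (by rwa [tr_neg'])) hc
  rwa [tr_neg, tr_neg] at this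

theorem rec_tr (a : ℤ × ℤ) {M M' Al Al' : Set (Vx J)} (hM : ∀ v, tr a v ∈ M' ↔ v ∈ M)
    (hA : ∀ x ∈ Al, tr a x ∈ Al') {c c' : Vx J → Col}
    (h : Rec Γ M Al (fun x => c (tr a x)) c') : Rec Γ M' Al' c (fun x => c' (tr (-a) x)) := by
  refine ⟨?_, ?_, ?_, ?_⟩
  · intro x hx
    obtain ⟨x, rfl⟩ := surj a x
    rw [tr_neg]
    exact h.off x fun e => hx ((hM x).2 e)
  · intro x hx y z hy hz cy cz
    obtain ⟨x, rfl⟩ := surj a x
    obtain ⟨y, rfl⟩ := surj a y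
    obtain ⟨z, rfl⟩ := surj a z
    simp only [tr_neg, adj_tr inv] at hy hz cy cz
    rw [h.one x ((hM x).1 hx) y z hy hz cy cz]
  · intro x hx y hy hxy cy
    obtain ⟨x, rfl⟩ := surj a x
    obtain ⟨y, rfl⟩ := surj a y
    simp only [tr_neg, adj_tr inv, hM] at hx hy hxy cy
    exact hA x (h.al x hx y hy hxy cy)
  · intro x hx y hy z hz hxy hxz cy cz
    obtain ⟨x, rfl⟩ := surj a x
    obtain ⟨y, rfl⟩ := surj a y
    obtain ⟨z, rfl⟩ := surj a z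
    simp only [tr_neg, adj_tr inv, hM] at hx hy hz hxy hxz cy cz
    rw [h.un x hx y hy z hz hxy hxz cy cz]

end

section

variable {F : FD J} (hF : Frm F)
include hF

theorem f_tr (a : ℤ × ℤ) (x : Vx J) : F.f (tr a x) = F.f x + F.η a := hF.pot.per a x

theorem rd (a : ℤ × ℤ) {j : ℤ} {x y : Vx J} (hx : x ∈ F.L j) (hy : y ∈ F.L j) :
    F.ρ (tr a x) + F.ρ y = F.ρ (tr a y) + F.ρ x := by
  obtain ⟨κ, hκ⟩ := hF.ltr a j
  obtain ⟨i, rfl⟩ := (hF.mem j x).1 hx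
  obtain ⟨i', rfl⟩ := (hF.mem j y).1 hy
  simp only [hκ, hF.rho]
  ring

theorem an_mem {j : ℤ} {s : Vx J} (hs : s ∈ F.L j) : F.an s ∈ F.L (j - 1) :=
  hF.uf.lan j s (hF.uf.lu j hs) (hF.uf.lf j s hs)

theorem l_tr (a : ℤ × ℤ) (s z : Vx J) : tr a z ∈ F.L (F.f (tr a s)) ↔ z ∈ F.L (F.f s) := by
  rw [f_tr hF]
  exact hF.uf.ltr a _ z

theorem l_tr' (a : ℤ × ℤ) (s z : Vx J) :
    tr a z ∈ F.L (F.f (tr a s) - 1) ↔ z ∈ F.L (F.f s - 1) := by
  rw [f_tr hF, add_sub_right_comm]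
  exact hF.uf.ltr a _ z

theorem u_tr (a : ℤ × ℤ) (s z : Vx J) :
    tr a z ∈ F.U (F.f (tr a s) + 1) ↔ z ∈ F.U (F.f s + 1) := by
  rw [f_tr hF, add_right_comm]
  exact hF.uf.utr a _ z

theorem st_tr (a : ℤ × ℤ) (s z : Vx J) : tr a z ∈ F.St (F.f (tr a s)) ↔ z ∈ F.St (F.f s) := by
  rw [f_tr hF]
  exact hF.uf.str a _ z

variable {s s' : Vx J} (hs : s ∈ F.L (F.f s)) (hs' : s' ∈ F.L (F.f s))
include hs hs'

theorem bot_tr (a : ℤ × ℤ) (z : Vx J) : tr a z ∈ F.Bot (tr a s) (tr a s') ↔ z ∈ F.Bot s s' := by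
  simp only [FD.Bot, Set.mem_ofPred_eq, l_tr' hF, hF.pot.atr]
  refine and_congr_right fun hz => ?_
  have h1 := rd hF a hz (an_mem hF hs)
  have h2 := rd hF a hz (an_mem hF hs')
  omega

theorem top_tr (a : ℤ × ℤ) (z : Vx J) : tr a z ∈ F.Top (tr a s) (tr a s') ↔ z ∈ F.Top s s' := by
  simp only [FD.Top, Set.mem_ofPred_eq, l_tr hF]
  refine and_congr_right fun hz => ?_
  have h1 := rd hF a hz hs
  have h2 := rd hF a hz hs'
  omega

theorem si_tr (a : ℤ × ℤ) (v : Vx J) : tr a v ∈ F.SI (tr a s) (tr a s') ↔ v ∈ F.SI s s' := by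
  simp only [FD.SI, Set.mem_ofPred_eq]
  refine and_congr (st_tr hF a s v) ?_
  rw [(surj a).forall₂]
  simp only [conn_tr hF.pot.fine.inv a (st_tr hF a s), adj_tr hF.pot.fine.inv, st_tr hF,
    bot_tr hF hs hs', top_tr hF hs hs']

omit hs in
theorem lt_tr (a : ℤ × ℤ) {y : Vx J} (hy : y ∈ F.Bot s s') :
    F.ρ (tr a y) < F.ρ (F.an (tr a s')) ↔ F.ρ y < F.ρ (F.an s') := by
  rw [hF.pot.atr]
  have := rd hF a hy.1 (an_mem hF hs')
  omega

end

section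

variable {F : FD J} {G : Set (Vx J)} (hF : Frm F) (hG : ∀ a, ∀ x ∈ G, tr a x ∈ G)

include hG in
theorem g_tr (a : ℤ × ℤ) (x : Vx J) : tr a x ∈ G ↔ x ∈ G := by
  refine ⟨fun h => ?_, hG a x⟩
  have := hG (-a) _ h
  rwa [tr_neg] at this

include hF in
theorem ci_tr (a : ℤ × ℤ) {u : Un J} (hu : Val F G u) (v : Vx J) :
    tr a v ∈ F.CI (u.act a) ↔ v ∈ F.CI u :=
  or_congr (mem_pk a u v) (si_tr hF hu.hs hu.hs' a v)

include hF in
theorem cov_tr (a : ℤ × ℤ) {u : Un J} (y : Vx J) (hu : Val F G u) :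
    F.Cov (u.act a) (tr a y) ↔ F.Cov u y := by
  simp only [FD.Cov, Un.act, l_tr hF]
  refine and_congr_right fun hz => ?_
  have h1 := rd hF a hz hu.hs
  have h2 := rd hF a hz hu.hs'
  omega

include hF in
theorem mm_tr (a : ℤ × ℤ) {u : Un J} (O : Set (Un J)) (v : Vx J) (hu : Val F G u) :
    tr a v ∈ F.MM (u.act a) (Un.act a '' O) ↔ v ∈ F.MM u O := by
  simp only [FD.MM, Set.mem_ofPred_eq, ci_tr hF a hu, Set.forall_mem_image, mem_T, mem_pk]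

include hF hG

theorem cen_tr (a : ℤ × ℤ) {u : Un J} (hu : Val F G u) : F.Cen G (u.act a) ↔ F.Cen G u := by
  unfold FD.Cen
  rw [(surj a).exists]
  refine exists_congr fun g => and_congr (g_tr hG a g) ?_
  refine (and_congr_left fun _ => bot_tr hF hu.hs hu.hs' a g).trans ?_
  exact and_congr_right fun hg => lt_tr hF hu.hs' a hg

theorem lc_tr (a : ℤ × ℤ) {u : Un J} (O : Set (Un J)) (p q : Vx J) (hu : Val F G u) :
    s(tr a p, tr a q) ∈ F.LC G (u.act a) (Un.act a '' O) ↔ s(p, q) ∈ F.LC G u O := by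
  simp only [FD.LC, Set.mem_ofPred_eq, cen_tr hF hG a hu, snd_tr, Set.exists_mem_image]
  simp only [Un.act, sym_tr, ne_eq, tr_eq, g_tr hG]

theorem val_tr (a : ℤ × ℤ) {u : Un J} (hu : Val F G u) : Val F G (u.act a) := by
  have inv := hF.pot.fine.inv
  have hρ := rd hF a hu.hs hu.hs'
  refine ⟨(l_tr hF a u.s u.s).2 hu.hs, (l_tr hF a u.s u.s').2 hu.hs', ?_⟩
  rcases hu.alt with ⟨h1, h2, h3⟩ | h
  · refine Or.inl ⟨congrArg (tr a) h1, ?_, ?_⟩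
    · show F.ρ (tr a u.s') = F.ρ (tr a u.s) + 1
      omega
    · show tr a '' u.pk = ∅
      rw [h3, Set.image_empty]
  · refine Or.inr ⟨?_, (u_tr hF a u.s u.x).2 h.xu, inv a _ _ h.sx, inv a _ _ h.xs, ?_,
      fun e => h.xp ((mem_pk a u u.x).1 e), h.fin.image _, ?_, ?_, ?_, ?_⟩
    · show F.ρ (tr a u.s) + 1 < F.ρ (tr a u.s')
      have := h.lt
      omega
    · intro z hz hxz
      obtain ⟨z, rfl⟩ := surj a z
      exact (top_tr hF hu.hs hu.hs' a z).2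
        (h.xn z ((l_tr hF a u.s z).1 hz) ((adj_tr inv a u.x z).1 hxz))
    · intro z hz
      obtain ⟨z, rfl⟩ := surj a z
      have hz' := (l_tr hF a u.s z).1 hz
      rw [mem_pk, h.old z hz']
      show _ ↔ F.ρ (tr a u.s) < F.ρ (tr a z) ∧ F.ρ (tr a z) < F.ρ (tr a u.s')
      have h1 := rd hF a hz' hu.hs
      omega
    · rintro _ ⟨z, hz, rfl⟩
      exact (h.sub hz).imp (l_tr hF a u.s z).2 (u_tr hF a u.s z).2
    · rintro _ ⟨v, hv, rfl⟩ z hvz hz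
      obtain ⟨z, rfl⟩ := surj a z
      exact (h.cl v hv z ((adj_tr inv a v z).1 hvz)
        (hz.imp (l_tr hF a u.s z).1 (u_tr hF a u.s z).1)).imp (mem_pk a u z).2 (mem_T a u z).2
    · intro z hz hzG
      obtain ⟨z, rfl⟩ := surj a z
      exact congrArg (tr a) (h.ng z ((top_tr hF hu.hs hu.hs' a z).1 hz) ((g_tr hG a z).1 hzG))

theorem co1_tr (a : ℤ × ℤ) {u : Un J} {O : Set (Un J)} (hu : Val F G u) (h : CO1 F G u O) :
    CO1 F G (u.act a) (Un.act a '' O) := by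
  have inv := hF.pot.fine.inv
  have hb := bot_tr hF hu.hs hu.hs' a
  refine ⟨?_, ?_, ?_, ?_, ?_⟩
  · rintro _ ⟨u', hu', rfl⟩
    obtain ⟨h1, h2, h3⟩ := h.val u' hu'
    exact ⟨val_tr hF hG a h1, (hb _).2 h2, (hb _).2 h3⟩
  · intro y hy hlt
    obtain ⟨y, rfl⟩ := surj a y
    have hy' := (hb y).1 hy
    obtain ⟨u', hu', hc⟩ := h.cov y hy' ((lt_tr hF hu.hs' a hy').1 hlt)
    exact ⟨u'.act a, ⟨u', hu', rfl⟩, (cov_tr hF a y (h.val u' hu').1).2 hc⟩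
  · rintro _ ⟨u1, h1, rfl⟩ _ ⟨u2, h2, rfl⟩ y c1 c2
    obtain ⟨y, rfl⟩ := surj a y
    rw [h.uni u1 h1 u2 h2 y ((cov_tr hF a y (h.val u1 h1).1).1 c1)
      ((cov_tr hF a y (h.val u2 h2).1).1 c2)]
  · rintro _ ⟨u', hu', rfl⟩ z hz
    obtain ⟨z, rfl⟩ := surj a z
    exact (h.sub u' hu' (hz.imp (mem_T a u' z).1 (mem_pk a u' z).1)).imp (hb z).2
      (ci_tr hF a hu z).2
  · rintro _ ⟨u1, h1, rfl⟩ _ ⟨u2, h2, rfl⟩ n1 n2 hadj
    exact h.nadj u1 h1 u2 h2 (fun e => n1 (congrArg (tr a) e)) (fun e => n2 (congrArg (tr a) e))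
      ((adj_tr inv a u1.x u2.x).1 hadj)

theorem co2_tr (a : ℤ × ℤ) {u : Un J} {O : Set (Un J)} (hu : Val F G u) (h : CO2 F G u O) :
    CO2 F G (u.act a) (Un.act a '' O) := by
  intro β c ω h1 h2 h3 h4 h5
  obtain ⟨c', hc'⟩ := h β (fun x => c (tr a x)) (fun x => tr (-a) (ω (tr a x)))
    (by rw [← hF.pot.atr]; exact h1)
    (fun u' hu' v hv => h2 (u'.act a) ⟨u', hu', rfl⟩ _ ((mem_T a u' v).2 hv))
    (fun v hv => h3 _ ((mem_T a u v).2 hv))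
    (fun p q hpq => by
      rcases h4 _ _ ((lc_tr hF hG a O p q hu).2 hpq) with e | e | e
      · exact Or.inl e
      · exact Or.inr (Or.inl (by simp only [e, tr_neg]))
      · exact Or.inr (Or.inr (by simp only [e, tr_neg])))
    (fun hc hx => by
      obtain ⟨e1, e2, e3⟩ := h5 ((cen_tr hF hG a hu).2 hc) (fun e => hx (inj a e))
      refine ⟨?_, ?_, e3⟩
      · rw [show ω (tr a u.x) = tr a u.s from e1, tr_neg]
      · rw [show ω (tr a u.s') = tr a u.x from e2, tr_neg])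
  refine ⟨_, rec_tr hF.pot.fine.inv a (fun v => mm_tr hF a O v hu) ?_ hc'⟩
  rintro x ⟨hx1, hx2⟩
  have := (lc_tr hF hG a O _ _ hu).2 hx1
  rw [tr_neg'] at this
  simp only [tr_neg'] at hx2
  exact ⟨this, hx2⟩

end

end PkIsoP

open PkIsoP in
theorem pk_Iso : S_Iso := fun _ _ _ hF hG =>
  ⟨fun a _ hu => val_tr hF hG a hu, fun a _ y hu => cov_tr hF a y hu,
    fun a _ hu => cen_tr hF hG a hu, fun a _ _ hu h => co1_tr hF hG a hu h,
    fun a _ _ hu h => co2_tr hF hG a hu h, fun a _ O v hu => mm_tr hF a O v hu,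
    fun a _ O p q hu => lc_tr hF hG a O p q hu⟩

end Pool.Agent.P.MP_08fd93_co.OV
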