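import Pool.Agent.P.MP_08fd93_co.OV.H15

/-! Package Jk1: translates of a hanging part. -/

set_option autoImplicit false

namespace Pool.Agent.P.MP_08fd93_co.OV

open H15

namespace PkJk1P

variable {J : Type}

/-- The vertices within `n` steps of the set `S`. -/
def R (Γ : SimpleGraph (Vx J)) (S : Set (Vx J)) : ℕ → Set (Vx J)
  | 0 => S
  | n + 1 => R Γ S n ∪ Nb Γ (R Γ S n)

theorem R_tr {Γ : SimpleGraph (Vx J)} (hinv : ∀ a x y, Γ.Adj x y → Γ.Adj (tr a x) (tr a y))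
    {S : Set (Vx J)} (hS : ∀ c, ∀ x ∈ S, tr c x ∈ S) (c : ℤ × ℤ) :
    ∀ n, ∀ x ∈ R Γ S n, tr c x ∈ R Γ S n := by
  intro n
  induction n with
  | zero => exact hS c
  | succ n ih =>
    rintro x (hx | ⟨y, hy, hxy⟩)
    · exact Or.inl (ih x hx)
    · exact Or.inr ⟨tr c y, ih y hy, hinv c _ _ hxy⟩

theorem R_iter {Γ : SimpleGraph (Vx J)} {S : Set (Vx J)} {an : Vx J → Vx J}
    (ha : ∀ x, Γ.Adj x (an x)) : ∀ n x, an^[n] x ∈ S → x ∈ R Γ S n := by
  intro n
  induction n with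
  | zero => intro x hx; exact hx
  | succ n ih =>
    intro x hx
    rw [Function.iterate_succ_apply] at hx
    exact Or.inr ⟨an x, ih _ hx, ha x⟩

theorem R_exit {Γ : SimpleGraph (Vx J)} {S D : Set (Vx J)} {a b : Vx J}
    (hS : ∀ x ∈ S, x ∉ D) (hD : Nb Γ D ⊆ D ∪ {a, b}) :
    ∀ n, ∀ x ∈ D, x ∈ R Γ S n → ∃ m, m < n ∧ (a ∈ R Γ S m ∨ b ∈ R Γ S m) := by
  intro n
  induction n with
  | zero => intro x hx hx'; exact absurd hx (hS x hx')
  | succ n ih =>
    rintro x hx (hx' | ⟨y, hy, hxy⟩)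
    · obtain ⟨m, hm, h⟩ := ih x hx hx'
      exact ⟨m, by omega, h⟩
    · rcases hD ⟨x, hx, hxy.symm⟩ with h | h | h
      · obtain ⟨m, hm, h⟩ := ih y h hy
        exact ⟨m, by omega, h⟩
      · exact ⟨n, by omega, Or.inl (h ▸ hy)⟩
      · rw [Set.mem_singleton_iff] at h
        exact ⟨n, by omega, Or.inr (h ▸ hy)⟩

/-- A line along which the height grows by one in each step avoids a hanging part. -/
theorem line_avoid {Γ : SimpleGraph (Vx J)} {f : Vx J → ℤ}
    (hlip : ∀ x y, Γ.Adj x y → f y ≤ f x + 1) {D : Set (Vx J)} {a b : Vx J} (hfin : D.Finite)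
    (hab : a = b ∨ Γ.Adj a b) (hD : Nb Γ D ⊆ D ∪ {a, b}) (l : ℤ → Vx J) (k : ℤ)
    (hf : ∀ i, f (l i) = i + k) (hadj : ∀ i, Γ.Adj (l i) (l (i - 1))) : ∀ i, l i ∉ D := by
  intro i0 hi0
  have hinj : Function.Injective l := by
    intro i j h
    have h1 := hf i
    have h2 := hf j
    rw [h] at h1
    omega
  have hI : (l ⁻¹' D).Finite := hfin.preimage hinj.injOn
  obtain ⟨lo, hlo⟩ := hI.bddBelow
  obtain ⟨hi, hhi⟩ := hI.bddAbove
  obtain ⟨p, ⟨hp1, hp2⟩, hp3⟩ := Int.exists_greatest_of_bdd (P := fun i => i < i0 ∧ l i ∉ D)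
    ⟨i0, fun z hz => hz.1.le⟩ ⟨lo - 1, by
      have := hlo hi0
      exact ⟨by omega, fun h => by have := hlo h; omega⟩⟩
  obtain ⟨q, ⟨hq1, hq2⟩, hq3⟩ := Int.exists_least_of_bdd (P := fun i => i0 < i ∧ l i ∉ D)
    ⟨i0, fun z hz => hz.1.le⟩ ⟨hi + 1, by
      have := hhi hi0
      exact ⟨by omega, fun h => by have := hhi h; omega⟩⟩
  have hp4 : l (p + 1) ∈ D := by
    by_cases h : p + 1 = i0
    · rw [h]; exact hi0
    · by_contra h'
      have := hp3 (p + 1) ⟨by omega, h'⟩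
      omega
  have hq4 : l (q - 1) ∈ D := by
    by_cases h : q - 1 = i0
    · rw [h]; exact hi0
    · by_contra h'
      have := hq3 (q - 1) ⟨by omega, h'⟩
      omega
  have h1 : l p ∈ D ∪ {a, b} := by
    apply hD
    refine ⟨l (p + 1), hp4, ?_⟩
    have := (hadj (p + 1)).symm
    simpa using this
  have h2 : l q ∈ D ∪ {a, b} := hD ⟨l (q - 1), hq4, hadj q⟩
  have e1 := hf p
  have e2 := hf q
  have hab1 : f b ≤ f a + 1 ∧ f a ≤ f b + 1 := by
    rcases hab with h | h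
    · rw [h]; omega
    · exact ⟨hlip _ _ h, hlip _ _ h.symm⟩
  rcases h1 with h1 | h1 | h1
  · exact hp2 h1
  all_goals
    rcases h2 with h2 | h2 | h2
    · exact hq2 h2
    all_goals
      try rw [Set.mem_singleton_iff] at h1
      try rw [Set.mem_singleton_iff] at h2
      rw [h1] at e1
      rw [h2] at e2
      omega

theorem ends {Γ : SimpleGraph (Vx J)} (hinv : ∀ a x y, Γ.Adj x y → Γ.Adj (tr a x) (tr a y))
    {D : Set (Vx J)} {a b : Vx J} (ha : a ∉ D) (hab : a = b ∨ Γ.Adj a b)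
    (hD : Nb Γ D ⊆ D ∪ {a, b}) (hh : Vx J → ℕ) (h1 : ∀ c x, hh (tr c x) = hh x)
    (h2 : ∀ x ∈ D, hh a < hh x ∨ hh b < hh x) (c : ℤ × ℤ) : tr c a ∉ D := by
  intro hc
  have e1 := h2 _ hc
  rw [h1] at e1
  have hb : tr c b ∉ D := by
    intro hb
    have e2 := h2 _ hb
    rw [h1] at e2
    omega
  rcases hab with h | h
  · subst h; exact hb hc
  · have h3 : tr c b ∈ D ∪ {a, b} := hD ⟨_, hc, (hinv c _ _ h).symm⟩
    rcases h3 with h3 | h3 | h3
    · exact hb h3
    · have := h1 c b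
      rw [h3] at this
      omega
    · rw [Set.mem_singleton_iff] at h3
      have : c = 0 := tr_left_inj (h3.trans (tr_zero b).symm)
      subst this
      rw [tr_zero] at hc
      exact ha hc

end PkJk1P

open PkJk1P in
theorem pk_Jk1 : S_Jk1 := by
  classical
  intro hBu J _ Γ η hF hT D a b hfin hconn ha hb hab hD
  obtain ⟨f, an, w, γ, N, hP, hR⟩ := hBu J Γ η hF hT
  set S : Set (Vx J) := {x | ∃ i c, x = tr c (γ i)} with hS
  have hS1 : ∀ c, ∀ x ∈ S, tr c x ∈ S := by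
    rintro c x ⟨i, e, rfl⟩
    exact ⟨i, e + c, tr_tr _ _ _⟩
  have hS2 : ∀ x ∈ S, x ∉ D := by
    rintro x ⟨i, e, rfl⟩
    refine line_avoid hP.lip hfin hab hD (fun i => tr e (γ i)) (η e) ?_ ?_ i
    · intro i
      rw [hP.per, hR.gf]
    · intro i
      apply hF.inv
      rw [← hR.ga]
      exact hP.aa _
  have hex : ∀ x, ∃ n, x ∈ R Γ S n := by
    intro x
    obtain ⟨i, e, h⟩ := hR.reach x
    exact ⟨N, R_iter hP.aa N x ⟨i, e, h⟩⟩
  set hh : Vx J → ℕ := fun x => Nat.find (hex x) with hhh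
  have hle : ∀ c x, hh (tr c x) ≤ hh x := fun c x =>
    Nat.find_min' _ (R_tr hF.inv hS1 c _ x (Nat.find_spec (hex x)))
  have h1 : ∀ c x, hh (tr c x) = hh x := by
    intro c x
    apply le_antisymm (hle c x)
    have := hle (-c) (tr c x)
    rwa [tr_neg] at this
  have h2 : ∀ x ∈ D, hh a < hh x ∨ hh b < hh x := by
    intro x hx
    obtain ⟨m, hm, h | h⟩ := R_exit hS2 hD _ x hx (Nat.find_spec (hex x))
    · exact Or.inl (lt_of_le_of_lt (Nat.find_min' (hex a) h) hm)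
    · exact Or.inr (lt_of_le_of_lt (Nat.find_min' (hex b) h) hm)
  have hA : ∀ c, tr c a ∉ D := ends hF.inv ha hab hD hh h1 h2
  have hB : ∀ c, tr c b ∉ D := by
    refine ends hF.inv hb (a := b) (b := a) ?_ ?_ hh h1 (fun x hx => (h2 x hx).symm)
    · rcases hab with h | h
      · exact Or.inl h.symm
      · exact Or.inr h.symm
    · rwa [Set.pair_comm]
  intro c
  refine ⟨hA c, hB c, ?_⟩
  intro hc x hx hx'
  have hsub : ∀ y ∈ D, tr c y ∈ D := by
    intro y hy
    have h3 : Conn Γ (tr c '' D) (tr c x) (tr c y) :=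
      isConn_tr hF.inv c hconn _ (Set.mem_image_of_mem _ hx) _ (Set.mem_image_of_mem _ hy)
    refine cclosed hx' ?_ h3
    intro p hp q hq hpq
    rcases hD ⟨p, hp, hpq.symm⟩ with h | h | h
    · exact h
    · rw [h] at hq
      exact absurd (mem_tr.1 hq) (hA _)
    · rw [Set.mem_singleton_iff] at h
      rw [h] at hq
      exact absurd (mem_tr.1 hq) (hB _)
  have hall : ∀ n : ℕ, tr ((n : ℤ) • c) x ∈ D := by
    intro n
    induction n with
    | zero => simpa [tr_zero] using hx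
    | succ n ih =>
      have := hsub _ ih
      rw [tr_tr] at this
      have e : ((n + 1 : ℕ) : ℤ) • c = (n : ℤ) • c + c := by
        push_cast
        rw [add_smul, one_smul]
      rwa [e]
  refine Set.infinite_of_injective_forall_mem (f := fun n : ℕ => tr ((n : ℤ) • c) x) ?_ hall hfin
  intro n m h
  have h4 := tr_left_inj h
  have h5 : ((n : ℤ) - m) • c = 0 := by rw [sub_smul, h4, sub_self]
  rcases smul_eq_zero.1 h5 with h6 | h6
  · omega
  · exact absurd h6 hc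

end Pool.Agent.P.MP_08fd93_co.OV
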