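import Pool.Agent.P.MP_08fd93_co.OV.H15

/-! Package Jk2: removal of a hanging part. -/

set_option autoImplicit false

namespace Pool.Agent.P.MP_08fd93_co.OV

open H15

namespace PkJk2P

variable {J : Type}

theorem nb_tr {Γ : SimpleGraph (Vx J)} (hinv : ∀ a x y, Γ.Adj x y → Γ.Adj (tr a x) (tr a y))
    {D : Set (Vx J)} {a b : Vx J} (hD : Nb Γ D ⊆ D ∪ {a, b}) (c : ℤ × ℤ) {p q : Vx J}
    (hp : p ∈ D) (h : Γ.Adj (tr c p) q) :
    (∃ y ∈ D, q = tr c y) ∨ q = tr c a ∨ q = tr c b := by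
  have h1 := hinv (-c) _ _ h
  rw [tr_neg] at h1
  rcases hD ⟨p, hp, h1.symm⟩ with h2 | h2 | h2
  · exact Or.inl ⟨_, h2, (tr_neg' c q).symm⟩
  · exact Or.inr (Or.inl (by rw [← h2, tr_neg']))
  · rw [Set.mem_singleton_iff] at h2
    exact Or.inr (Or.inr (by rw [← h2, tr_neg']))

end PkJk2P

open PkJk2P in
theorem pk_Jk2 : S_Jk2 := by
  classical
  intro hPQ hJk J _ Γ η hF hNL hT D a b hfin hconn ha hb hab hD Γ' hΓ'
  have hJ := hJk J Γ η hF hT D a b hfin hconn ha hb hab hD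
  -- the end that touches `D`
  obtain ⟨e, he1, he2⟩ : ∃ e, (e = a ∨ e = b) ∧ (D.Nonempty → e ∈ Nb Γ D) := by
    by_cases hne : D.Nonempty
    · obtain ⟨x, hx⟩ := hne
      obtain ⟨p, hp, q, hq, -, hpq⟩ := cexit hx ha (hF.pl.conn x trivial a trivial)
      rcases hD ⟨p, hp, hpq.symm⟩ with h | h | h
      · exact absurd h hq
      · exact ⟨q, Or.inl h, fun _ => ⟨p, hp, hpq.symm⟩⟩
      · exact ⟨q, Or.inr h, fun _ => ⟨p, hp, hpq.symm⟩⟩
    · exact ⟨a, Or.inl rfl, fun h => absurd h hne⟩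
  have hout : ∀ z, (z = a ∨ z = b) → ∀ x ∈ D, x.1 ≠ z.1 := by
    intro z hz x hx h
    have h1 := tr_of_fst h.symm
    rcases hz with rfl | rfl
    · exact (hJ _).1 (h1 ▸ hx)
    · exact (hJ _).2.1 (h1 ▸ hx)
  have huniq : ∀ x ∈ D, ∀ y ∈ D, x.1 = y.1 → x = y := by
    intro x hx y hy h
    have h1 := tr_of_fst h
    by_cases h0 : y.2 - x.2 = 0
    · rw [h0, tr_zero] at h1; exact h1
    · exact absurd (by rw [h1]; exact hy) ((hJ _).2.2 h0 x hx)
  have hrep : ∀ u : J, ∃ y : Vx J, (¬ ∀ x ∈ D, x.1 ≠ u) → y ∈ D ∧ y.1 = u := by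
    intro u
    by_cases h : ∀ x ∈ D, x.1 ≠ u
    · exact ⟨a, fun h' => absurd h h'⟩
    · push Not at h
      obtain ⟨y, hy, hyu⟩ := h
      exact ⟨y, fun _ => ⟨hy, hyu⟩⟩
  choose rep hrep using hrep
  let π : Vx J → Vx {u : J // ∀ x ∈ D, x.1 ≠ u} := fun x =>
    if h : ∀ y ∈ D, y.1 ≠ x.1 then (⟨x.1, h⟩, x.2)
    else (⟨e.1, hout e he1⟩, e.2 + (x.2 - (rep x.1).2))
  let ι : Vx {u : J // ∀ x ∈ D, x.1 ≠ u} → Vx J := fun x => (x.1.1, x.2)
  have hπι : ∀ x, π (ι x) = x := by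
    intro x
    have : ∀ y ∈ D, y.1 ≠ (ι x).1 := x.1.2
    simp only [π, dif_pos this]
    rfl
  have hιπ : ∀ x : Vx J, (∀ y ∈ D, y.1 ≠ x.1) → ι (π x) = x := by
    intro x h
    simp only [π, dif_pos h]
    rfl
  have hπD : ∀ c, ∀ y ∈ D, ι (π (tr c y)) = tr c e := by
    intro c y hy
    have h : ¬ ∀ z ∈ D, z.1 ≠ (tr c y).1 := fun h => h y hy rfl
    have h1 := hrep _ h
    have h2 : rep (tr c y).1 = y := huniq _ h1.1 _ hy h1.2
    simp only [π, dif_neg h, h2]
    simp [ι, tr]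
  have hιinj : Function.Injective ι := fun x y h => by rw [← hπι x, ← hπι y, h]
  have hcase : ∀ x : Vx J, (∀ y ∈ D, y.1 ≠ x.1) ∨ ∃ c, ∃ y ∈ D, x = tr c y := by
    intro x
    by_cases h : ∀ y ∈ D, y.1 ≠ x.1
    · exact Or.inl h
    · push Not at h
      obtain ⟨y, hy, hyx⟩ := h
      exact Or.inr ⟨_, y, hy, (tr_of_fst hyx).symm⟩
  have hιtr : ∀ c x, ι (tr c x) = tr c (ι x) := fun c x => rfl
  have hπtr : ∀ c x, π (tr c x) = tr c (π x) := by
    intro c x
    apply hιinj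
    rw [hιtr]
    rcases hcase x with h | ⟨k, y, hy, rfl⟩
    · rw [hιπ x h, hιπ (tr c x) h]
    · rw [tr_tr, hπD _ y hy, hπD _ y hy, tr_tr]
  have hadj : ∀ x y, Γ'.Adj x y ↔ Γ.Adj (ι x) (ι y) := hΓ'
  have hmain : ∀ (k : ℤ × ℤ) (p q : Vx J), p ∈ D → Γ.Adj (tr k p) q → π (tr k p) ≠ π q →
      Γ.Adj (ι (π (tr k p))) (ι (π q)) := by
    intro k p q hp hpq hne
    have hne' : ι (π (tr k p)) ≠ ι (π q) := fun h => hne (hιinj h)
    rw [hπD k p hp] at hne' ⊢
    rcases nb_tr hF.inv hD k hp hpq with ⟨y, hy, rfl⟩ | h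
    · exact absurd (hπD k y hy).symm hne'
    · have h1 : ι (π q) = q := by
        apply hιπ
        rcases h with rfl | rfl
        · exact hout a (Or.inl rfl)
        · exact hout b (Or.inr rfl)
      rw [h1] at hne' ⊢
      rcases hab with hab | hab
      · subst hab
        rcases he1 with rfl | rfl <;> rcases h with rfl | rfl <;> exact absurd rfl hne'
      · rcases he1 with rfl | rfl <;> rcases h with rfl | rfl
        · exact absurd rfl hne'
        · exact hF.inv _ _ _ hab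
        · exact hF.inv _ _ _ hab.symm
        · exact absurd rfl hne'
  obtain ⟨hF', hdist⟩ := hPQ J _ Γ Γ' π hF (fun x => ⟨ι x, hπι x⟩) hπtr (by
    intro y
    have hfib : ∀ x, x ∈ π ⁻¹' {y} → x = ι y ∨ ∃ p ∈ D, x = tr (y.2 - e.2) p ∧
        ι y = tr (y.2 - e.2) e := by
      intro x hx
      have hx' : π x = y := hx
      rcases hcase x with h | ⟨k, p, hp, rfl⟩
      · left; rw [← hx', hιπ x h]
      · right
        have h1 := hπD k p hp
        rw [hx'] at h1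
        have h2 : k = y.2 - e.2 := by
          have := congrArg Prod.snd h1
          simp only [ι, tr] at this
          rw [this]; simp
        subst h2
        exact ⟨p, hp, rfl, h1⟩
    constructor
    · refine ((Set.finite_singleton (ι y)).union (hfin.image (tr (y.2 - e.2)))).subset ?_
      intro x hx
      rcases hfib x hx with h | ⟨p, hp, h, -⟩
      · exact Or.inl h
      · exact Or.inr ⟨p, hp, h.symm⟩
    · apply isConn_of_base (ι y)
      intro x hx
      rcases hfib x hx with h | ⟨p, hp, h, h'⟩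
      · rw [h]; exact Relation.ReflTransGen.refl
      · obtain ⟨q, hq, heq⟩ := he2 ⟨p, hp⟩
        have hin : ∀ z ∈ D, tr (y.2 - e.2) z ∈ π ⁻¹' {y} := by
          intro z hz
          apply hιinj
          rw [hπD _ z hz, h']
        rw [h]
        refine ctrans (cstep (hπι y) (hin q hq) ?_) (ctr hF.inv _ hin (hconn q hq p hp))
        rw [h']
        exact hF.inv _ _ _ heq) (by
    intro x y
    rw [hadj]
    constructor
    · intro h
      exact ⟨fun hxy => h.ne (by rw [hxy]), ι x, ι y, hπι x, hπι y, h⟩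
    · rintro ⟨hne, p, q, rfl, rfl, hpq⟩
      rcases hcase p with h | ⟨k, p', hp', rfl⟩
      · rcases hcase q with h' | ⟨k, q', hq', rfl⟩
        · rwa [hιπ p h, hιπ q h']
        · exact (hmain k q' p hq' hpq.symm (Ne.symm hne)).symm
      · exact hmain k p' q hp' hpq hne)
  refine ⟨hF', ?_, hT.ev, ?_, ?_⟩
  · intro x y h hxy
    exact hNL _ _ ((hadj x y).1 h) (congrArg Subtype.val hxy)
  · intro x c
    have h1 := hT.le (ι x) c
    obtain ⟨p, hp⟩ := (reach (hF'.pl.conn x trivial (tr c x) trivial)).exists_walk_length_eq_dist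
    let φ : Γ' →g Γ := ⟨ι, fun h => (hadj _ _).1 h⟩
    have h2 := SimpleGraph.dist_le (p.map φ)
    rw [SimpleGraph.Walk.length_map, hp] at h2
    have h3 : Γ.dist (ι x) (tr c (ι x)) ≤ Γ'.dist x (tr c x) := h2
    omega
  · obtain ⟨x, c, h1, h2⟩ := hT.ex
    refine ⟨π x, c, h1, ?_⟩
    have h3 := hdist x (tr c x)
    rw [hπtr] at h3
    omega

end Pool.Agent.P.MP_08fd93_co.OV
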