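import Pool.Agent.P.MP_08fd93_co.OV.St2

/-! Package Ker of project OV: kernel and image of an additive map. -/

set_option autoImplicit false

namespace Pool.Agent.P.MP_08fd93_co.OV

namespace PkKerP

/-- A nonzero integer vector is a positive multiple of a primitive vector. -/
theorem prim (e1 e2 : ℤ) (h : e1 ≠ 0 ∨ e2 ≠ 0) :
    ∃ g m n x y : ℤ, 0 < g ∧ e1 = m * g ∧ e2 = n * g ∧ m * x + n * y = 1 := by
  have hg : 0 < Int.gcd e1 e2 := Int.gcd_pos_iff.2 h
  obtain ⟨m, n, hmn, h1, h2⟩ := Int.exists_gcd_one hg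
  have hbz := Int.gcd_eq_gcd_ab m n
  rw [hmn] at hbz
  exact ⟨(Int.gcd e1 e2 : ℤ), m, n, _, _, by exact_mod_cast hg, h1, h2, by exact_mod_cast hbz.symm⟩

theorem expand (η : ℤ × ℤ →+ ℤ) (a : ℤ × ℤ) : η a = a.1 * η (1, 0) + a.2 * η (0, 1) := by
  have h : a = a.1 • ((1, 0) : ℤ × ℤ) + a.2 • ((0, 1) : ℤ × ℤ) := by
    apply Prod.ext <;> simp
  conv_lhs => rw [h]
  rw [map_add, map_zsmul, map_zsmul, smul_eq_mul, smul_eq_mul]

end PkKerP

open PkKerP in
theorem pk_Ker : S_Ker := by
  intro η ⟨a0, ha0⟩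
  have hη := expand η
  generalize η (1, 0) = e1 at hη
  generalize η (0, 1) = e2 at hη
  have hne : e1 ≠ 0 ∨ e2 ≠ 0 := by
    by_contra h
    push Not at h
    rw [hη, h.1, h.2] at ha0
    simp at ha0
  obtain ⟨g, m, n, x, y, hg, h1, h2, hb⟩ := prim e1 e2 hne
  have hη' : ∀ a : ℤ × ℤ, η a = g * (a.1 * m + a.2 * n) := by
    intro a; rw [hη, h1, h2]; ring
  refine ⟨⟨(n, -m), ?_, ?_⟩, (x, y), ?_, ?_⟩
  · intro h
    have hn : n = 0 := congrArg Prod.fst h
    have hm : -m = 0 := congrArg Prod.snd h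
    have hm' : m = 0 := by linarith
    rw [hn, hm'] at hb
    simp at hb
  · intro a
    rw [hη']
    constructor
    · intro h
      have h0 : a.1 * m + a.2 * n = 0 := by
        rcases mul_eq_zero.1 h with h | h
        · exact absurd h hg.ne'
        · exact h
      refine ⟨a.1 * y - a.2 * x, Prod.ext ?_ ?_⟩
      · show a.1 = (a.1 * y - a.2 * x) * n
        linear_combination (-a.1) * hb + x * h0
      · show a.2 = (a.1 * y - a.2 * x) * (-m)
        linear_combination (-a.2) * hb + y * h0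
    · rintro ⟨k, rfl⟩
      show g * (k * n * m + k * (-m) * n) = 0
      ring
  · rw [hη']
    show 0 < g * (x * m + y * n)
    have : x * m + y * n = 1 := by linarith
    rw [this]; linarith
  · intro a
    rw [hη', hη']
    show g * (x * m + y * n) ∣ _
    have : x * m + y * n = 1 := by linarith
    rw [this, mul_one]
    exact Dvd.intro _ rfl

end Pool.Agent.P.MP_08fd93_co.OV
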