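import Pool.Agent.P.MP_08fd93_co.OV.St2

/-! Package LCon of project OV: level sets are connected and have degree at most two. -/

set_option autoImplicit false

namespace Pool.Agent.P.MP_08fd93_co.OV

namespace PkLConP

section
variable {W : Type} {H : SimpleGraph W}

theorem conn_symm {A : Set W} {a b : W} (h : Conn H A a b) : Conn H A b a := by
  induction h with
  | refl => exact .refl
  | tail _ h2 ih => exact .head ⟨h2.2.1, h2.1, h2.2.2.symm⟩ ih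

theorem conn_mono {A B : Set W} (hAB : A ⊆ B) {a b : W} (h : Conn H A a b) : Conn H B a b := by
  induction h with
  | refl => exact .refl
  | tail _ h2 ih => exact ih.tail ⟨hAB h2.1, hAB h2.2.1, h2.2.2⟩

theorem fin_conn {A : Set W} {a b : W} (ha : a ∈ A) (h : Conn H A a b) :
    ∃ P : Set W, P.Finite ∧ P ⊆ A ∧ a ∈ P ∧ b ∈ P ∧ ∀ c ∈ P, Conn H P a c := by
  induction h with
  | refl => exact ⟨{a}, Set.finite_singleton a, by simpa using ha, rfl, rfl, by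
      rintro c rfl; exact .refl⟩
  | @tail x y _ h2 ih =>
    obtain ⟨P, p1, p2, p3, p4, p5⟩ := ih
    refine ⟨insert y P, p1.insert y, Set.insert_subset h2.2.1 p2, Or.inr p3, Or.inl rfl, ?_⟩
    rintro c (rfl | hc)
    · exact (conn_mono (Set.subset_insert _ _) (p5 x p4)).tail ⟨Or.inr p4, Or.inl rfl, h2.2.2⟩
    · exact conn_mono (Set.subset_insert _ _) (p5 c hc)

theorem isConn_of {A : Set W} (r : W) (h : ∀ c ∈ A, Conn H A r c) : IsConn H A :=
  fun a ha b hb => (conn_symm (h a ha)).trans (h b hb)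

theorem single (a : W) : IsConn H {a} := by
  rintro x rfl y rfl
  exact .refl

theorem k33 (h : NoK33 H Set.univ) {A B C : Set W} {a b e : W} (hA : IsConn H A)
    (hB : IsConn H B) (hC : IsConn H C) (ab : Disjoint A B) (ac : Disjoint A C)
    (bc : Disjoint B C) (h1 : a ≠ b) (h2 : a ≠ e) (h3 : b ≠ e)
    (hn : ∀ x, x = a ∨ x = b ∨ x = e → (x ∉ A ∧ x ∉ B ∧ x ∉ C) ∧
      x ∈ Nb H A ∧ x ∈ Nb H B ∧ x ∈ Nb H C) : False := by
  have t : ∀ (D : Set W) x, x ∈ Nb H D → Touch H D {x} :=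
    fun D x ⟨y, hy, a⟩ => ⟨y, hy, x, rfl, a.symm⟩
  have na := hn a (Or.inl rfl)
  have nb := hn b (Or.inr (Or.inl rfl))
  have ne := hn e (Or.inr (Or.inr rfl))
  refine h ⟨![A, B, C], ![{a}, {b}, {e}], ?_, ?_, ?_⟩
  · intro i
    fin_cases i
    · exact ⟨Set.subset_univ _, hA, Set.subset_univ _, single a⟩
    · exact ⟨Set.subset_univ _, hB, Set.subset_univ _, single b⟩
    · exact ⟨Set.subset_univ _, hC, Set.subset_univ _, single e⟩
  · intro i j hij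
    fin_cases i <;> fin_cases j
    · exact (hij rfl).elim
    · exact ⟨ab, Set.disjoint_singleton.2 h1⟩
    · exact ⟨ac, Set.disjoint_singleton.2 h2⟩
    · exact ⟨ab.symm, Set.disjoint_singleton.2 h1.symm⟩
    · exact (hij rfl).elim
    · exact ⟨bc, Set.disjoint_singleton.2 h3⟩
    · exact ⟨ac.symm, Set.disjoint_singleton.2 h2.symm⟩
    · exact ⟨bc.symm, Set.disjoint_singleton.2 h3.symm⟩
    · exact (hij rfl).elim
  · intro i j
    fin_cases i <;> fin_cases j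
    · exact ⟨Set.disjoint_singleton_right.2 na.1.1, t _ _ na.2.1⟩
    · exact ⟨Set.disjoint_singleton_right.2 nb.1.1, t _ _ nb.2.1⟩
    · exact ⟨Set.disjoint_singleton_right.2 ne.1.1, t _ _ ne.2.1⟩
    · exact ⟨Set.disjoint_singleton_right.2 na.1.2.1, t _ _ na.2.2.1⟩
    · exact ⟨Set.disjoint_singleton_right.2 nb.1.2.1, t _ _ nb.2.2.1⟩
    · exact ⟨Set.disjoint_singleton_right.2 ne.1.2.1, t _ _ ne.2.2.1⟩
    · exact ⟨Set.disjoint_singleton_right.2 na.1.2.2, t _ _ na.2.2.2⟩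
    · exact ⟨Set.disjoint_singleton_right.2 nb.1.2.2, t _ _ nb.2.2.2⟩
    · exact ⟨Set.disjoint_singleton_right.2 ne.1.2.2, t _ _ ne.2.2.2⟩

end

variable {J : Type} {Γ : SimpleGraph (Vx J)} {η : ℤ × ℤ →+ ℤ} {f : Vx J → ℤ}
  {an : Vx J → Vx J} {w : ℤ × ℤ}

theorem conn_tr (hP : Pot Γ η f an w) {P A : Set (Vx J)} (c : ℤ × ℤ)
    (hA : ∀ p ∈ P, tr c p ∈ A) {a b : Vx J} (h : Conn Γ P a b) : Conn Γ A (tr c a) (tr c b) := by
  induction h with
  | refl => exact .refl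
  | tail _ h2 ih => exact ih.tail ⟨hA _ h2.1, hA _ h2.2.1, hP.fine.inv _ _ _ h2.2.2⟩

theorem utr (hP : Pot Γ η f an w) (hU : UF Γ η f an w) (k j : ℤ) (x : Vx J) :
    tr (k • w) x ∈ UU Γ f j ↔ x ∈ UU Γ f j := by
  have := hU.utr (k • w) j x
  rwa [(hP.ker _).2 ⟨k, rfl⟩, add_zero] at this

theorem rest_fin (hP : Pot Γ η f an w) (hU : UF Γ η f an w) (j h : ℤ) (hj : j ≤ h)
    (B0 : Set (Vx J)) (hB : B0.Finite) :
    {v | v ∈ UU Γ f j ∧ ¬ ∃ y ∈ UU Γ f h, Conn Γ (UU Γ f j \ B0) v y}.Finite := by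
  obtain ⟨M, -, hM⟩ := hU.big
  obtain ⟨F0, f1, f2⟩ := hU.band j (h + M)
  obtain ⟨y0, hy0⟩ := hU.lne h
  have hy := hU.lu h hy0
  have hc : ∀ z, ∃ P : Set (Vx J), P.Finite ∧
      (z ∈ UU Γ f j → P ⊆ UU Γ f j ∧ Conn Γ P z y0) := by
    intro z
    by_cases hz : z ∈ UU Γ f j
    · obtain ⟨P, p1, p2, -, p4, p5⟩ := fin_conn hz (hU.conn j z hz y0 (hU.mono j h hj hy))
      exact ⟨P, p1, fun _ => ⟨p2, p5 y0 p4⟩⟩
    · exact ⟨∅, Set.finite_empty, fun e => (hz e).elim⟩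
  choose P p1 p2 using hc
  have hfin := f1.biUnion (t := fun z => (fun q : Vx J × Vx J => tr (q.2.2 - q.1.2) z) ''
    (P z ×ˢ B0)) (fun z _ => ((p1 z).prod hB).image _)
  refine hfin.subset ?_
  rintro v ⟨hv, hn⟩
  have hf : f v ≤ h + M := by
    by_contra e
    exact hn ⟨v, hM h v (by omega), .refl⟩
  obtain ⟨k, hk⟩ := f2 v (hU.ge j v hv) hf
  have hz := (utr hP hU k j v).2 hv
  obtain ⟨q1, q2⟩ := p2 _ hz
  have ev : tr ((-k) • w) (tr (k • w) v) = v := by simp [tr]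
  refine Set.mem_biUnion hk ?_
  by_contra e
  refine hn ⟨tr ((-k) • w) y0, (utr hP hU _ _ _).2 hy, ?_⟩
  have := conn_tr hP (A := UU Γ f j \ B0) ((-k) • w) (fun p hp =>
    ⟨(utr hP hU _ _ _).2 (q1 hp), fun hb => e ⟨(p, tr ((-k) • w) p), ⟨hp, hb⟩, by
      simp [tr]⟩⟩) q2
  rwa [ev] at this

theorem lconn (hP : Pot Γ η f an w) (hU : UF Γ η f an w) (j : ℤ) : IsConn Γ (LL Γ f j) := by
  intro x hx y hy
  obtain ⟨x', hx', ax⟩ := hx.1
  obtain ⟨y', hy', ay⟩ := hy.1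
  obtain ⟨B0, b1, b2, b3, b4, b5⟩ := fin_conn hx' (hU.conn (j + 1) x' hx' y' hy')
  obtain ⟨m, hm⟩ := (b1.image f).bddAbove
  have hm' : ∀ b ∈ B0, f b ≤ m := fun b hb => hm ⟨b, hb, rfl⟩
  have hj : j + 1 ≤ m + 1 := by
    have := hm' x' b3
    have := hU.ge _ _ hx'
    omega
  set U := UU Γ f (j + 1) with hUd
  set A : Set (Vx J) := {v | v ∈ U \ B0 ∧ ∃ y ∈ UU Γ f (m + 1), Conn Γ (U \ B0) v y} with hA
  have s1 : UU Γ f (m + 1) ⊆ A := fun v hv =>
    ⟨⟨hU.mono _ _ hj hv, fun e => by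
      have := hm' v e
      have := hU.ge _ _ hv
      omega⟩, v, hv, .refl⟩
  have cA : IsConn Γ A := by
    obtain ⟨y0, hy0⟩ := hU.lne (m + 1)
    have hy0 := hU.lu _ hy0
    refine isConn_of y0 ?_
    rintro c ⟨-, z, hz, hc⟩
    refine (conn_mono s1 (hU.conn _ y0 hy0 z hz)).trans (conn_symm ?_)
    induction hc using Relation.ReflTransGen.head_induction_on with
    | refl => exact .refl
    | head h1 h2 ih => exact .head ⟨⟨h1.1, z, hz, .head h1 h2⟩, ⟨h1.2.1, z, hz, h2⟩, h1.2.2⟩ ih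
  have s2 : B0 ⊆ U \ A := fun v hv => ⟨b2 hv, fun e => e.1.2 hv⟩
  have cB : IsConn Γ (U \ A) := by
    refine isConn_of x' fun c hc => conn_symm ?_
    have h0 : Conn Γ U c x' := hU.conn _ c hc.1 x' hx'
    induction h0 using Relation.ReflTransGen.head_induction_on with
    | refl => exact .refl
    | @head p q h1 h2 ih =>
      by_cases e : p ∈ B0
      · exact conn_mono s2 (conn_symm (b5 p e))
      · have hq : q ∈ U \ A := ⟨h1.2.1, fun ⟨e1, z, hz, e2⟩ =>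
          hc.2 ⟨⟨h1.1, e⟩, z, hz, .head ⟨⟨h1.1, e⟩, e1, h1.2.2⟩ e2⟩⟩
        exact .head ⟨hc, hq, h1.2.2⟩ (ih hq)
  have fB : (U \ A).Finite := by
    refine (b1.union (rest_fin hP hU (j + 1) (m + 1) hj B0 b1)).subset ?_
    rintro v ⟨h1, h2⟩
    by_cases e : v ∈ B0
    · exact Or.inl e
    · exact Or.inr ⟨h1, fun e' => h2 ⟨⟨h1, e⟩, e'⟩⟩
  have eU : A ∪ (U \ A) = U := Set.union_sdiff_cancel fun v hv => hv.1.1
  have := hP.fine.pl.tim A (U \ A) (Set.subset_univ _) (Set.subset_univ _)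
    Set.disjoint_sdiff_right cA cB (Or.inl fB) x y ⟨x', s2 b3, ax⟩ ⟨y', s2 b4, ay⟩
    (by rw [eU]; exact ⟨trivial, hx.2⟩)
    (by
      rw [eU]
      refine conn_mono ?_ (hU.low j x (hU.lf j x hx).le y (hU.lf j y hy).le)
      intro v hv
      refine ⟨trivial, fun e => ?_⟩
      have := hU.ge _ _ e
      have : f v ≤ j := hv
      omega)
  rw [eU] at this
  refine conn_mono ?_ this
  rintro v ⟨⟨-, b, hb, a⟩, h2⟩
  exact ⟨⟨b, hb.1, a⟩, h2⟩

end PkLConP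

open PkLConP in
theorem pk_LCon : S_LCon := by
  intro J Γ η f an w hP hU j
  refine ⟨lconn hP hU j, fun x hx a ha b hb e he xa xb xe => ?_⟩
  by_contra hc
  push Not at hc
  have hx' := hU.lf j x hx
  refine k33 hP.fine.pl.k33 (single x) (hU.conn (j + 1)) (hU.low (j - 1))
    (Set.disjoint_singleton_left.2 hx.2)
    (Set.disjoint_singleton_left.2 (by simp only [Set.mem_ofPred_eq]; omega))
    (Set.disjoint_left.2 fun v h1 h2 => by
      have := hU.ge _ _ h1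
      have : f v ≤ j - 1 := h2
      omega) hc.1 hc.2.1 hc.2.2 ?_
  have key : ∀ v, v ∈ LL Γ f j → Γ.Adj x v →
      (v ∉ ({x} : Set (Vx J)) ∧ v ∉ UU Γ f (j + 1) ∧ v ∉ {x | f x ≤ j - 1}) ∧
      v ∈ Nb Γ {x} ∧ v ∈ Nb Γ (UU Γ f (j + 1)) ∧ v ∈ Nb Γ {x | f x ≤ j - 1} := by
    intro v hv xv
    have h1 := hU.lf j v hv
    have h2 := hP.af v
    refine ⟨⟨xv.ne', hv.2, ?_⟩, ⟨x, rfl, xv.symm⟩, hv.1, an v, ?_, hP.aa v⟩
    · simp only [Set.mem_ofPred_eq]; omega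
    · simp only [Set.mem_ofPred_eq]; omega
  rintro v (rfl | rfl | rfl)
  · exact key _ ha xa
  · exact key _ hb xb
  · exact key _ he xe

end Pool.Agent.P.MP_08fd93_co.OV
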