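import Pool.Agent.P.MP_08fd93_co.OV.St2

/-! Package LatA of project OV: integer supporting functionals. -/

set_option autoImplicit false

namespace Pool.Agent.P.MP_08fd93_co.OV

namespace PkLatAP

theorem smulZ {D : ℤ × ℤ → ℕ} (hD : Nrm D) (k : ℤ) (a : ℤ × ℤ) :
    (D (k • a) : ℤ) = |k| * (D a : ℤ) := by
  rw [hD.smul]
  push_cast
  simp

theorem addZ {D : ℤ × ℤ → ℕ} (hD : Nrm D) (a b c : ℤ × ℤ) (h : c = a + b) :
    (D c : ℤ) ≤ (D a : ℤ) + (D b : ℤ) := by
  rw [h]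
  exact_mod_cast hD.add a b

theorem exmin {D : ℤ × ℤ → ℕ} (hD : Nrm D) (a b : ℤ × ℤ) :
    ∃ i0 : ℤ, ∀ i : ℤ, (D (i0 • a - b) : ℤ) - i0 * D a ≤ (D (i • a - b) : ℤ) - i * D a := by
  obtain ⟨t, ⟨i0, h0⟩, hmin⟩ := Int.exists_least_of_bdd
    (P := fun t => ∃ i : ℤ, (D (i • a - b) : ℤ) - i * D a = t) ⟨-(D b : ℤ), by
      rintro t ⟨i, rfl⟩
      have h1 := addZ hD (i • a - b) b (i • a) (by simp)
      rw [smulZ hD] at h1
      have h2 : i * (D a : ℤ) ≤ |i| * D a :=
        mul_le_mul_of_nonneg_right (le_abs_self i) (by positivity)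
      linarith⟩ ⟨_, 0, rfl⟩
  exact ⟨i0, fun i => h0 ▸ hmin _ ⟨i, rfl⟩⟩

theorem bound {D : ℤ × ℤ → ℕ} (hD : Nrm D) (a b : ℤ × ℤ) (i0 : ℤ)
    (h0 : ∀ i : ℤ, (D (i0 • a - b) : ℤ) - i0 * D a ≤ (D (i • a - b) : ℤ) - i * D a) (x y : ℤ) :
    x * D a - y * ((D (i0 • a - b) : ℤ) - i0 * D a) ≤ D (x • a + y • b) := by
  have hA : (0 : ℤ) ≤ D a := by positivity
  rcases le_or_gt 0 y with hy | hy
  · have h1 := addZ hD (x • a + y • b) (y • (i0 • a - b)) ((x + y * i0) • a) (by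
      ext <;> simp <;> ring)
    rw [smulZ hD, smulZ hD, abs_of_nonneg hy] at h1
    have h2 : (x + y * i0) * (D a : ℤ) ≤ |x + y * i0| * D a :=
      mul_le_mul_of_nonneg_right (le_abs_self _) hA
    nlinarith
  · have h1 := addZ hD (x • a + y • b) ((-y * |x| - x) • a) ((-y) • (|x| • a - b)) (by
      ext <;> simp <;> ring)
    have h3 : 0 ≤ -y * |x| - x := by
      have := le_abs_self x
      have := abs_nonneg x
      nlinarith
    rw [smulZ hD, smulZ hD, abs_of_nonneg h3, abs_of_pos (neg_pos.mpr hy)] at h1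
    have h2 := mul_le_mul_of_nonneg_left (h0 |x|) (neg_pos.mpr hy).le
    nlinarith

end PkLatAP

open PkLatAP in
theorem pk_LatA : S_LatA := by
  intro D hD a b hdet
  obtain ⟨i0, h0⟩ := exmin hD a b
  obtain ⟨e, he, he2⟩ : ∃ e : ℤ, det a b = e ∧ e * e = 1 := by
    rcases hdet with h | h
    · exact ⟨1, h, by norm_num⟩
    · exact ⟨-1, h, by norm_num⟩
  unfold det at he
  have hb := bound hD a b i0 h0
  set t : ℤ := (D (i0 • a - b) : ℤ) - i0 * D a with ht
  set A : ℤ := (D a : ℤ) with hA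
  have pa : e * (A * b.2 + t * a.2) * a.1 + e * (-t * a.1 - A * b.1) * a.2 = A := by
    linear_combination (e * A) * he + A * he2
  have pb : e * (A * b.2 + t * a.2) * b.1 + e * (-t * a.1 - A * b.1) * b.2 = -t := by
    linear_combination (-e * t) * he - t * he2
  refine ⟨(e * (A * b.2 + t * a.2), e * (-t * a.1 - A * b.1)), ?_, pa, ?_⟩
  · intro c
    have h1 := hb (e * (c.1 * b.2 - c.2 * b.1)) (e * (a.1 * c.2 - a.2 * c.1))
    have h2 : (e * (c.1 * b.2 - c.2 * b.1)) • a + (e * (a.1 * c.2 - a.2 * c.1)) • b = c := by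
      ext
      · simp only [Prod.fst_add, Prod.smul_fst, smul_eq_mul]
        linear_combination (e * c.1) * he + c.1 * he2
      · simp only [Prod.snd_add, Prod.smul_snd, smul_eq_mul]
        linear_combination (e * c.2) * he + c.2 * he2
    rw [h2] at h1
    have h3 : e * (A * b.2 + t * a.2) * c.1 + e * (-t * a.1 - A * b.1) * c.2 ≤ (D c : ℤ) := by
      refine le_trans (le_of_eq ?_) h1
      ring
    simp only
    exact_mod_cast h3
  · intro q hq hqa
    simp only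
    rw [pb]
    have h1 := hq (i0 • a - b)
    simp only [Prod.fst_sub, Prod.snd_sub, Prod.smul_fst, Prod.smul_snd, smul_eq_mul] at h1
    push_cast at h1
    have h2 : (t : ℝ) = (D (i0 • a - b) : ℝ) - i0 * D a := by
      rw [ht, hA]
      push_cast
      ring
    push_cast
    rw [h2, ← hqa]
    linarith

end Pool.Agent.P.MP_08fd93_co.OV
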