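import Pool.Agent.P.MP_08fd93_co.OV.St2

/-! Package Lin: a periodic connected set of degree at most two is a line. -/

set_option autoImplicit false

namespace Pool.Agent.P.MP_08fd93_co.OV

namespace PkLinP

theorem walk_of_conn {W : Type} {H : SimpleGraph W} {A : Set W} {a b : W} (ha : a ∈ A)
    (h : Conn H A a b) :
    ∃ (n : ℕ) (p : ℕ → W), p 0 = a ∧ p n = b ∧ (∀ i, i ≤ n → p i ∈ A) ∧
      ∀ i, i < n → H.Adj (p i) (p (i + 1)) := by
  induction h with
  | refl => exact ⟨0, fun _ => a, rfl, rfl, fun _ _ => ha, fun i hi => absurd hi (Nat.not_lt_zero i)⟩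
  | @tail x y _ hxy ih =>
    obtain ⟨n, p, h0, hn, hA, hp⟩ := ih
    refine ⟨n + 1, fun i => if i ≤ n then p i else y, by simpa using h0, by simp, ?_, ?_⟩
    · intro i _
      by_cases hin : i ≤ n
      · simp only [if_pos hin]
        exact hA i hin
      · simp only [if_neg hin]
        exact hxy.2.1
    · intro i hi
      by_cases hin : i < n
      · simp only [if_pos hin.le, if_pos (Nat.succ_le_of_lt hin)]
        exact hp i hin
      · have e : i = n := by omega
        subst e
        simp only [le_refl, if_true, Nat.not_succ_le_self, if_false, hn]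
        exact hxy.2.2

variable {J : Type}

theorem mem_smul {L : Set (Vx J)} {w : ℤ × ℤ} (hw : ∀ x, tr w x ∈ L ↔ x ∈ L) (k : ℤ) (x : Vx J)
    (hx : x ∈ L) : tr (k • w) x ∈ L := by
  induction k using Int.induction_on with
  | zero => simpa [tr] using hx
  | succ k ih =>
    have := (hw _).2 ih
    simpa only [tr, add_smul, one_smul, add_assoc] using this
  | pred k ih =>
    refine (hw _).1 ?_
    simpa only [tr, sub_smul, one_smul, add_assoc, sub_add_cancel] using ih

theorem unroll {Γ : SimpleGraph (Vx J)} (inv : ∀ a x y, Γ.Adj x y → Γ.Adj (tr a x) (tr a y))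
    {L : Set (Vx J)} {w : ℤ × ℤ} (hw : ∀ x, tr w x ∈ L ↔ x ∈ L) {n : ℕ} (hn : 0 < n)
    {p : ℕ → Vx J} (hp : p n = tr w (p 0)) (hA : ∀ i, i ≤ n → p i ∈ L)
    (ha : ∀ i, i < n → Γ.Adj (p i) (p (i + 1))) :
    ∃ l : ℤ → Vx J, (∀ i, l i ∈ L) ∧ (∀ i, Γ.Adj (l i) (l (i + 1))) ∧
      ∀ i, tr w (l i) = l (i + n) := by
  have hn' : (0 : ℤ) < n := by exact_mod_cast hn
  refine ⟨fun i => tr ((i / n) • w) (p (i % n).toNat), ?_, ?_, ?_⟩
  · intro i
    have h0 : 0 ≤ i % n := Int.emod_nonneg _ hn'.ne'
    have h1 : i % n < n := Int.emod_lt_of_pos _ hn'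
    exact mem_smul hw _ _ (hA _ (by omega))
  · intro i
    show Γ.Adj (tr ((i / n) • w) (p (i % n).toNat)) (tr (((i + 1) / n) • w) (p ((i + 1) % n).toNat))
    have h0 : 0 ≤ i % n := Int.emod_nonneg _ hn'.ne'
    have h1 : i % n < n := Int.emod_lt_of_pos _ hn'
    have h2 : (n : ℤ) * (i / n) + i % n = i := Int.mul_ediv_add_emod i n
    have ha' := inv ((i / n) • w) _ _ (ha (i % n).toNat (by omega))
    by_cases hr : i % n + 1 < n
    · have h3 : (i + 1) / n = i / n ∧ (i + 1) % n = i % n + 1 :=
        (Int.ediv_emod_unique hn').2 ⟨by linarith, by omega, hr⟩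
      rw [h3.1, h3.2, show (i % n + 1).toNat = (i % n).toNat + 1 by omega]
      exact ha'
    · have h3 : (i + 1) / n = i / n + 1 ∧ (i + 1) % n = 0 :=
        (Int.ediv_emod_unique hn').2 ⟨by
          have : i % n = n - 1 := by omega
          rw [this] at h2
          linarith, le_rfl, hn'⟩
      rw [show (i % n).toNat + 1 = n by omega, hp] at ha'
      rw [h3.1, h3.2, Int.toNat_zero]
      have e : tr ((i / n + 1) • w) (p 0) = tr ((i / n) • w) (tr w (p 0)) := by
        simp only [tr, add_smul, one_smul, add_assoc, add_comm w]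
      rw [e]
      exact ha'
  · intro i
    have h1 : (i + n) / n = i / n + 1 := by
      have := Int.add_mul_ediv_right i 1 hn'.ne'
      rwa [one_mul] at this
    have h2 : (i + n) % n = i % n := by simp
    simp only [h1, h2, tr, add_smul, one_smul, add_assoc]

theorem per_mul {l : ℤ → Vx J} {w : ℤ × ℤ} {n : ℤ} (per : ∀ i, tr w (l i) = l (i + n)) (q : ℕ)
    (i : ℤ) : l (i + q * n) = tr ((q : ℤ) • w) (l i) := by
  induction q with
  | zero => simp [tr]
  | succ k ih =>
    rw [show i + ((k + 1 : ℕ) : ℤ) * n = i + k * n + n by push_cast; ring, ← per, ih]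
    simp only [tr, Nat.cast_succ, add_smul, one_smul, add_assoc]

section

variable {W : Type} {H : SimpleGraph W} {l : ℤ → W} (adj : ∀ i, H.Adj (l i) (l (i + 1)))
  (nb : ∀ i, l (i + 2) ≠ l i)
  (two : ∀ i j, H.Adj (l i) (l j) → l j = l (i + 1) ∨ l j = l (i - 1))
include adj nb two

theorem fwd {a b : ℤ} (h0 : l a = l b) (h1 : l (a + 1) = l (b + 1)) (k : ℕ) :
    l (a + k) = l (b + k) ∧ l (a + k + 1) = l (b + k + 1) := by
  induction k with
  | zero => simpa using ⟨h0, h1⟩
  | succ k ih =>
    push_cast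
    refine ⟨by rw [← add_assoc, ← add_assoc]; exact ih.2, ?_⟩
    have h2 := adj (a + k + 1)
    rw [ih.2] at h2
    rcases two _ _ h2 with h | h
    · rw [← add_assoc, ← add_assoc]
      exact h
    · rw [add_sub_cancel_right, ← ih.1, add_assoc (a + k), one_add_one_eq_two] at h
      exact absurd h (nb _)

theorem bwd {a b : ℤ} (h0 : l a = l b) (h1 : l (a + 1) = l (b - 1)) (k : ℕ) :
    l (a + k) = l (b - k) ∧ l (a + k + 1) = l (b - k - 1) := by
  induction k with
  | zero => simpa using ⟨h0, h1⟩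
  | succ k ih =>
    push_cast
    refine ⟨by rw [← add_assoc, ← sub_sub]; exact ih.2, ?_⟩
    have h2 := adj (a + k + 1)
    rw [ih.2] at h2
    rcases two _ _ h2 with h | h
    · rw [sub_add_cancel, ← ih.1, add_assoc (a + k), one_add_one_eq_two] at h
      exact absurd h (nb _)
    · rw [← add_assoc, ← sub_sub]
      exact h

theorem shift {a b : ℤ} (hab : a < b) (h0 : l a = l b) (k : ℕ) : l (a + k) = l (b + k) := by
  have h2 := adj a
  rw [h0] at h2
  rcases two _ _ h2 with h | h
  · exact (fwd adj nb two h0 h k).1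
  · exfalso
    obtain ⟨m, hm⟩ := Int.eq_ofNat_of_zero_le (show 0 ≤ (b - a - 1) / 2 by omega)
    have h3 := (bwd adj nb two h0 h m).1
    rcases Int.emod_two_eq_zero_or_one (b - a) with e | e
    · rw [show b - m = a + m + 2 by omega] at h3
      exact nb _ h3.symm
    · rw [show b - m = a + m + 1 by omega] at h3
      exact (adj _).ne h3

end

end PkLinP

open PkLinP in
theorem pk_Lin : S_Lin := by
  intro J Γ L w inv nl hw0 hne hc hw hdeg
  classical
  have hex : ∃ n : ℕ, ∃ p : ℕ → Vx J, p n = tr w (p 0) ∧ (∀ i, i ≤ n → p i ∈ L) ∧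
      ∀ i, i < n → Γ.Adj (p i) (p (i + 1)) := by
    obtain ⟨x, hx⟩ := hne
    obtain ⟨n, p, h0, hn, hA, hp⟩ := walk_of_conn hx (hc x hx (tr w x) ((hw x).2 hx))
    exact ⟨n, p, by rw [hn, h0], hA, hp⟩
  obtain ⟨p, hp, hA, ha⟩ := Nat.find_spec hex
  have hmin := fun m => Nat.find_min' hex (m := m)
  generalize Nat.find hex = n at hp hA ha hmin
  have hn0 : n ≠ 0 := by
    rintro rfl
    have := congrArg Prod.snd hp
    exact hw0 (by simpa [tr] using this)
  have hn1 : n ≠ 1 := by
    rintro rfl
    have h1 := nl _ _ (ha 0 Nat.one_pos)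
    have h2 := congrArg Prod.fst hp
    exact h1 h2.symm
  obtain ⟨l, hL, adj, per⟩ := unroll inv hw (by omega) hp hA ha
  have nb : ∀ i, l (i + 2) ≠ l i := by
    intro i h
    have := hmin (n - 2) ⟨fun k => l (i + 2 + k), ?_, fun k _ => hL _, fun k _ => ?_⟩
    · omega
    · show l (i + 2 + ((n - 2 : ℕ) : ℤ)) = tr w (l (i + 2 + ((0 : ℕ) : ℤ)))
      rw [Nat.cast_zero, add_zero, h, per]
      congr 1
      omega
    · show Γ.Adj (l (i + 2 + (k : ℤ))) (l (i + 2 + ((k + 1 : ℕ) : ℤ)))
      rw [Nat.cast_succ, ← add_assoc]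
      exact adj _
  have two' : ∀ i, ∀ y ∈ L, Γ.Adj (l i) y → y = l (i + 1) ∨ y = l (i - 1) := by
    intro i y hy hiy
    have h1 := (adj (i - 1)).symm
    rw [sub_add_cancel] at h1
    rcases hdeg (l i) (hL _) y hy (l (i + 1)) (hL _) (l (i - 1)) (hL _) hiy (adj i) h1 with
      h | h | h
    · exact Or.inl h
    · exact Or.inr h
    · exfalso
      refine nb (i - 1) ?_
      rw [← h]
      congr 1
      ring
  have two : ∀ i j, Γ.Adj (l i) (l j) → l j = l (i + 1) ∨ l j = l (i - 1) :=
    fun i j h => two' i _ (hL j) h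
  have key : ∀ a b, a < b → l a ≠ l b := by
    intro a b hab h0
    obtain ⟨d, hd⟩ := Int.eq_ofNat_of_zero_le (show 0 ≤ b - a by omega)
    have it : ∀ t : ℕ, l (a + (t * d : ℕ)) = l a := by
      intro t
      induction t with
      | zero => simp
      | succ t ih =>
        have := shift adj nb two hab h0 (t * d)
        rw [← ih, this]
        congr 1
        push_cast
        linarith
    have h1 := it n
    have h2 := per_mul per d a
    rw [show a + ((n * d : ℕ) : ℤ) = a + d * n by push_cast; ring, h2] at h1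
    have h3 : (d : ℤ) • w = 0 := by
      have := congrArg Prod.snd h1
      simpa only [tr, add_eq_left] using this
    rcases smul_eq_zero.1 h3 with h | h
    · omega
    · exact hw0 h
  have hinj : Function.Injective l := by
    intro a b h
    rcases lt_trichotomy a b with hab | hab | hab
    · exact absurd h (key a b hab)
    · exact hab
    · exact absurd h.symm (key b a hab)
  refine ⟨l, n, by omega, fun x => ⟨fun hx => ?_, ?_⟩, hinj, fun i i' => ⟨fun h => ?_, ?_⟩, per⟩
  · have h := hc (l 0) (hL 0) x hx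
    clear hx
    induction h with
    | refl => exact ⟨0, rfl⟩
    | tail _ hxy ih =>
      obtain ⟨i, rfl⟩ := ih
      rcases two' i _ hxy.2.1 hxy.2.2 with h | h
      · exact ⟨_, h⟩
      · exact ⟨_, h⟩
  · rintro ⟨i, rfl⟩
    exact hL i
  · rcases two i i' h with e | e
    · exact Or.inl (hinj e)
    · have := hinj e
      omega
  · rintro (rfl | rfl)
    · exact adj i
    · exact (adj i').symm

end Pool.Agent.P.MP_08fd93_co.OV
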