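import Pool.Agent.P.MP_08fd93_co.OV.H15

/-! Package NC: nothing crosses a rung of a strip. -/

set_option autoImplicit false

namespace Pool.Agent.P.MP_08fd93_co.OV

open H15

namespace PkNCP

theorem tsymm {W : Type} {H : SimpleGraph W} {A B : Set W} (h : Touch H A B) : Touch H B A := by
  obtain ⟨a, ha, b, hb, hab⟩ := h
  exact ⟨b, hb, a, ha, hab.symm⟩

theorem k5 {W : Type} {H : SimpleGraph W} (h : NoK5 H Set.univ) (A B C D E : Set W)
    (cA : IsConn H A) (cB : IsConn H B) (cC : IsConn H C) (cD : IsConn H D) (cE : IsConn H E)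
    (dAB : Disjoint A B) (dAC : Disjoint A C) (dAD : Disjoint A D) (dAE : Disjoint A E)
    (dBC : Disjoint B C) (dBD : Disjoint B D) (dBE : Disjoint B E) (dCD : Disjoint C D)
    (dCE : Disjoint C E) (dDE : Disjoint D E)
    (tAB : Touch H A B) (tAC : Touch H A C) (tAD : Touch H A D) (tAE : Touch H A E)
    (tBC : Touch H B C) (tBD : Touch H B D) (tBE : Touch H B E) (tCD : Touch H C D)
    (tCE : Touch H C E) (tDE : Touch H D E) : False := by
  apply h
  refine ⟨![A, B, C, D, E], ?_, ?_⟩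
  · intro i
    fin_cases i <;> exact ⟨Set.subset_univ _, by assumption⟩
  · intro i j hij
    fin_cases i <;> fin_cases j <;>
      first
        | exact absurd rfl hij
        | exact ⟨by assumption, by assumption⟩
        | exact ⟨Disjoint.symm (by assumption), tsymm (by assumption)⟩

variable {J : Type}

theorem seg_conn {F : FD J} (hF : Frm F) (j : ℤ) {I : Set ℤ} (hI : I.OrdConnected) :
    IsConn F.Γ (F.l j '' I) := by
  have key : ∀ (n : ℕ) (a : ℤ), a ∈ I → a + n ∈ I →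
      Conn F.Γ (F.l j '' I) (F.l j a) (F.l j (a + n)) := by
    intro n
    induction n with
    | zero =>
      intro a _ _
      rw [Nat.cast_zero, add_zero]
      exact Relation.ReflTransGen.refl
    | succ n ih =>
      intro a ha hb
      have h1 : a + n ∈ I := hI.out ha hb ⟨by omega, by push_cast; omega⟩
      refine ctrans (ih a ha h1) (cstep ⟨_, h1, rfl⟩ ⟨_, hb, rfl⟩ ?_)
      exact (hF.adj j _ _).2 (Or.inl (by push_cast; ring))
  rintro _ ⟨a, ha, rfl⟩ _ ⟨b, hb, rfl⟩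
  rcases le_total a b with h | h
  · obtain ⟨n, rfl⟩ := Int.le.dest h
    exact key n a ha hb
  · obtain ⟨n, rfl⟩ := Int.le.dest h
    exact csymm (key n b hb ha)

theorem lw_mul {F : FD J} (hF : Frm F) (j k i : ℤ) :
    tr (k • F.w) (F.l j i) = F.l j (i + k * F.nn j) := by
  induction k using Int.induction_on generalizing i with
  | zero => simp [tr_zero]
  | succ k ih =>
    rw [add_smul, one_smul, ← tr_tr, ih, hF.lw]
    congr 1
    ring
  | pred k ih =>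
    have h1 := hF.lw j (i + (-(k : ℤ) - 1) * F.nn j)
    apply tr_inj F.w
    rw [h1, tr_tr]
    have e : (-(k : ℤ) - 1) • F.w + F.w = (-(k : ℤ)) • F.w := by
      rw [sub_smul, one_smul, sub_add_cancel]
    rw [e, ih]
    congr 1
    ring

theorem main {F : FD J} (hF : Frm F) (j ip iq k : ℤ) (hk : 2 ≤ k)
    (hpq : F.Γ.Adj (F.l (j - 1) ip) (F.l j iq)) (E : Set (Vx J)) (hE : E ⊆ F.St j)
    (hc : IsConn F.Γ ((F.l (j - 1) '' Set.Ioo (ip - k * F.nn (j - 1)) ip ∪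
      F.l j '' Set.Ioo (iq - k * F.nn j) iq) ∪ E))
    (ht : Touch F.Γ ((F.l (j - 1) '' Set.Ioo (ip - k * F.nn (j - 1)) ip ∪
      F.l j '' Set.Ioo (iq - k * F.nn j) iq) ∪ E)
      (F.l (j - 1) '' Set.Ioi ip ∪ F.l j '' Set.Ioi iq)) : False := by
  have hP := hF.pot
  have hU := hF.uf
  have hm : ∀ j i, F.l j i ∈ F.L j := fun j i => (hF.mem j _).2 ⟨i, rfl⟩
  have hf : ∀ j i, F.f (F.l j i) = j := fun j i => hU.lf j _ (hm j i)
  have hinj : ∀ j i j' i', F.l j i = F.l j' i' → j = j' ∧ i = i' := by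
    intro j i j' i' h
    have h1 := hf j i
    have h2 := hF.rho j i
    rw [h] at h1 h2
    rw [hf] at h1
    rw [hF.rho] at h2
    exact ⟨h1.symm, h2.symm⟩
  have hrung : ∀ t : ℤ, F.Γ.Adj (F.l (j - 1) (ip + t * F.nn (j - 1))) (F.l j (iq + t * F.nn j)) := by
    intro t
    rw [← lw_mul hF, ← lw_mul hF]
    exact hP.fine.inv _ _ _ hpq
  have n0 := hF.n2 (j - 1)
  have n1 := hF.n2 j
  have k0 : 2 * F.nn (j - 1) ≤ k * F.nn (j - 1) := by nlinarith
  have k1 : 2 * F.nn j ≤ k * F.nn j := by nlinarith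
  have hEl : ∀ i, F.l j i ∉ E := fun i h => (hE h).2 (Or.inl (hm j i))
  have hEf : ∀ v ∈ E, j ≤ F.f v := fun v hv => hU.ge j v (hE hv).1
  have hEl' : ∀ i, F.l (j - 1) i ∉ E := fun i h => by
    have := hEf _ h
    rw [hf] at this
    omega
  have hlow : ∀ i, F.l (j - 1) i ∈ Nb F.Γ {z | F.f z ≤ j - 2} := by
    intro i
    refine ⟨F.an _, ?_, hP.aa _⟩
    have := hP.af (F.l (j - 1) i)
    rw [hf] at this
    simp only [Set.mem_ofPred_eq]
    omega
  set Z : Set (Vx J) := ({z | F.f z ≤ j - 2} ∪ {F.l (j - 1) (ip - k * F.nn (j - 1))}) ∪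
    (F.U (j + 1) ∪ {F.l j (iq - k * F.nn j)}) with hZ
  have hZ0 : ∀ i, F.l (j - 1) i ∈ Z → i = ip - k * F.nn (j - 1) := by
    rintro i ((h | h) | (h | h))
    · simp only [Set.mem_ofPred_eq, hf] at h
      omega
    · exact (hinj _ _ _ _ h).2
    · have := hU.ge _ _ h
      rw [hf] at this
      omega
    · have := (hinj _ _ _ _ h).1
      omega
  have hZ1 : ∀ i, F.l j i ∈ Z → i = iq - k * F.nn j := by
    rintro i ((h | h) | (h | h))
    · simp only [Set.mem_ofPred_eq, hf] at h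
      omega
    · have := (hinj _ _ _ _ h).1
      omega
    · exact absurd h (hm j i).2
    · exact (hinj _ _ _ _ h).2
  have hZE : ∀ v ∈ E, v ∉ Z := by
    rintro v hv ((h | h) | (h | h))
    · have := hEf v hv
      simp only [Set.mem_ofPred_eq] at h
      omega
    · exact hEl' _ (h ▸ hv)
    · exact (hE hv).2 (Or.inr h)
    · exact hEl _ (h ▸ hv)
  have tZ0 : ∀ (i : ℤ) (A : Set (Vx J)), F.l (j - 1) i ∈ A → Touch F.Γ Z A := by
    intro i A hA
    obtain ⟨v, hv, h⟩ := hlow i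
    exact ⟨v, Or.inl (Or.inl hv), _, hA, h.symm⟩
  refine k5 hP.fine.pl.k5 Z {F.l (j - 1) ip} {F.l j iq} _ _ ?_ (isConn_single _)
    (isConn_single _) hc ?_ ?_ ?_ ?_ ?_ ?_ ?_ ?_ ?_ ?_ ?_ (tZ0 ip _ rfl) ?_
    (tZ0 (ip - 1) _ ?_) (tZ0 (ip + 1) _ ?_) ⟨_, rfl, _, rfl, hpq⟩ ?_ ?_ ?_ ?_ ht
  · refine isConn_union (isConn_nb (hU.low _) ?_) (isConn_nb (hU.conn _) ?_) ?_
    · rintro v rfl
      exact hlow _
    · rintro v rfl
      exact (hm j _).1
    · refine ⟨_, Or.inr rfl, _, Or.inr rfl, ?_⟩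
      have := hrung (-k)
      simpa [sub_eq_add_neg] using this
  · refine isConn_union (seg_conn hF _ Set.ordConnected_Ioi) (seg_conn hF _ Set.ordConnected_Ioi)
      ⟨_, ⟨_, ?_, rfl⟩, _, ⟨_, ?_, rfl⟩, hrung 1⟩
    · simp only [Set.mem_Ioi]; omega
    · simp only [Set.mem_Ioi]; omega
  · refine Set.disjoint_singleton_right.2 fun h => ?_
    have := hZ0 _ h
    omega
  · refine Set.disjoint_singleton_right.2 fun h => ?_
    have := hZ1 _ h
    omega
  · refine Set.disjoint_right.2 ?_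
    rintro v ((⟨i, hi, rfl⟩ | ⟨i, hi, rfl⟩) | hv) h
    · have := hZ0 _ h
      have := hi.1
      omega
    · have := hZ1 _ h
      have := hi.1
      omega
    · exact hZE v hv h
  · refine Set.disjoint_right.2 ?_
    rintro v (⟨i, hi, rfl⟩ | ⟨i, hi, rfl⟩) h
    · have := hZ0 _ h
      simp only [Set.mem_Ioi] at hi
      omega
    · have := hZ1 _ h
      simp only [Set.mem_Ioi] at hi
      omega
  · refine Set.disjoint_singleton.2 fun h => ?_
    have := (hinj _ _ _ _ h).1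
    omega
  · refine Set.disjoint_singleton_left.2 ?_
    rintro ((⟨i, hi, h⟩ | ⟨i, hi, h⟩) | hv)
    · have := (hinj _ _ _ _ h).2
      have := hi.2
      omega
    · have := (hinj _ _ _ _ h).1
      omega
    · exact hEl' _ hv
  · refine Set.disjoint_singleton_left.2 ?_
    rintro (⟨i, hi, h⟩ | ⟨i, hi, h⟩)
    · have := (hinj _ _ _ _ h).2
      simp only [Set.mem_Ioi] at hi
      omega
    · have := (hinj _ _ _ _ h).1
      omega
  · refine Set.disjoint_singleton_left.2 ?_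
    rintro ((⟨i, hi, h⟩ | ⟨i, hi, h⟩) | hv)
    · have := (hinj _ _ _ _ h).1
      omega
    · have := (hinj _ _ _ _ h).2
      have := hi.2
      omega
    · exact hEl _ hv
  · refine Set.disjoint_singleton_left.2 ?_
    rintro (⟨i, hi, h⟩ | ⟨i, hi, h⟩)
    · have := (hinj _ _ _ _ h).1
      omega
    · have := (hinj _ _ _ _ h).2
      simp only [Set.mem_Ioi] at hi
      omega
  · refine Set.disjoint_right.2 ?_
    rintro v (⟨i, hi, rfl⟩ | ⟨i, hi, rfl⟩) ((⟨i', hi', h⟩ | ⟨i', hi', h⟩) | hv)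
    · have := (hinj _ _ _ _ h).2
      have := hi'.2
      simp only [Set.mem_Ioi] at hi
      omega
    · have := (hinj _ _ _ _ h).1
      omega
    · exact hEl' _ hv
    · have := (hinj _ _ _ _ h).1
      omega
    · have := (hinj _ _ _ _ h).2
      have := hi'.2
      simp only [Set.mem_Ioi] at hi
      omega
    · exact hEl _ hv
  · obtain ⟨v, hv, h⟩ := (hm j iq).1
    exact ⟨v, Or.inr (Or.inl hv), _, rfl, h.symm⟩
  · exact Or.inl (Or.inl ⟨_, ⟨by omega, by omega⟩, rfl⟩)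
  · exact Or.inl ⟨_, by simp only [Set.mem_Ioi]; omega, rfl⟩
  · exact ⟨_, rfl, F.l (j - 1) (ip - 1), Or.inl (Or.inl ⟨_, ⟨by omega, by omega⟩, rfl⟩),
      (hF.adj _ _ _).2 (Or.inr (by ring))⟩
  · exact ⟨_, rfl, F.l (j - 1) (ip + 1), Or.inl ⟨_, by simp only [Set.mem_Ioi]; omega, rfl⟩,
      (hF.adj _ _ _).2 (Or.inl rfl)⟩
  · exact ⟨_, rfl, F.l j (iq - 1), Or.inl (Or.inr ⟨_, ⟨by omega, by omega⟩, rfl⟩),
      (hF.adj _ _ _).2 (Or.inr (by ring))⟩
  · exact ⟨_, rfl, F.l j (iq + 1), Or.inr ⟨_, by simp only [Set.mem_Ioi]; omega, rfl⟩,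
      (hF.adj _ _ _).2 (Or.inl rfl)⟩

end PkNCP

open PkNCP in
theorem pk_NC : S_NC := by
  intro J F hF j p hp q hq hpq E hE hEc x y hx hy
  obtain ⟨ip, rfl⟩ := (hF.mem _ p).1 hp
  obtain ⟨iq, rfl⟩ := (hF.mem _ q).1 hq
  rw [hF.rho, hF.rho] at hx hy
  have n0 := hF.n2 (j - 1)
  have n1 := hF.n2 j
  set k : ℤ := 2 + |ip - F.ρ x| + |iq - F.ρ x| with hk
  have a0 := le_abs_self (ip - F.ρ x)
  have a1 := le_abs_self (iq - F.ρ x)
  have a2 := abs_nonneg (ip - F.ρ x)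
  have a3 := abs_nonneg (iq - F.ρ x)
  have hk2 : 2 ≤ k := by omega
  have k0 : k ≤ k * F.nn (j - 1) := by nlinarith
  have k1 : k ≤ k * F.nn j := by nlinarith
  have k0' : 2 * F.nn (j - 1) ≤ k * F.nn (j - 1) := by nlinarith
  have k1' : 2 * F.nn j ≤ k * F.nn j := by nlinarith
  have hxL : x ∈ F.l (j - 1) '' Set.Ioo (ip - k * F.nn (j - 1)) ip ∪
      F.l j '' Set.Ioo (iq - k * F.nn j) iq := by
    rcases hx with ⟨h1, h2⟩ | ⟨h1, h2⟩
    · obtain ⟨i, hi⟩ := (hF.mem _ x).1 h1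
      have : F.ρ x = i := by rw [hi, hF.rho]
      exact Or.inl ⟨i, ⟨by omega, by omega⟩, hi.symm⟩
    · obtain ⟨i, hi⟩ := (hF.mem _ x).1 h1
      have : F.ρ x = i := by rw [hi, hF.rho]
      exact Or.inr ⟨i, ⟨by omega, by omega⟩, hi.symm⟩
  have hyR : y ∈ F.l (j - 1) '' Set.Ioi ip ∪ F.l j '' Set.Ioi iq := by
    rcases hy with ⟨h1, h2⟩ | ⟨h1, h2⟩
    · obtain ⟨i, rfl⟩ := (hF.mem _ y).1 h1
      rw [hF.rho] at h2
      exact Or.inl ⟨i, h2, rfl⟩
    · obtain ⟨i, rfl⟩ := (hF.mem _ y).1 h1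
      rw [hF.rho] at h2
      exact Or.inr ⟨i, h2, rfl⟩
  have hLc : IsConn F.Γ (F.l (j - 1) '' Set.Ioo (ip - k * F.nn (j - 1)) ip ∪
      F.l j '' Set.Ioo (iq - k * F.nn j) iq) := by
    have hr : F.Γ.Adj (F.l (j - 1) (ip + (-1) * F.nn (j - 1))) (F.l j (iq + (-1) * F.nn j)) := by
      rw [← lw_mul hF, ← lw_mul hF]
      exact hF.pot.fine.inv _ _ _ hpq
    exact isConn_union (seg_conn hF _ Set.ordConnected_Ioo) (seg_conn hF _ Set.ordConnected_Ioo)
      ⟨_, ⟨_, ⟨by omega, by omega⟩, rfl⟩, _, ⟨_, ⟨by omega, by omega⟩, rfl⟩, hr⟩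
  constructor
  · intro hxy
    refine main hF j ip iq k hk2 hpq ∅ (Set.empty_subset _) ?_ ⟨x, Or.inl hxL, y, hyR, hxy⟩
    rwa [Set.union_empty]
  · rintro ⟨⟨a, ha, hxa⟩, ⟨b, hb, hyb⟩⟩
    exact main hF j ip iq k hk2 hpq E hE (isConn_union hLc hEc ⟨x, hxL, a, ha, hxa⟩)
      ⟨b, Or.inr hb, y, hyR, hyb.symm⟩

end Pool.Agent.P.MP_08fd93_co.OV
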