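import Pool.Agent.P.MP_08fd93_co.OV.St2

/-! Package PG of project OV: periodic gluing of recolourings. -/

set_option autoImplicit false

namespace Pool.Agent.P.MP_08fd93_co.OV

namespace PkPGP

variable {J : Type}

theorem tr_neg (a : ℤ × ℤ) (x : Vx J) : tr (-a) (tr a x) = x := by
  simp [tr]

theorem tr_neg' (a : ℤ × ℤ) (x : Vx J) : tr a (tr (-a) x) = x := by
  simp [tr]

theorem tr_inj (a : ℤ × ℤ) {x y : Vx J} (h : tr a x = tr a y) : x = y := by
  rw [← tr_neg a x, h, tr_neg]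

end PkPGP

open PkPGP in
theorem pk_PG : S_PG := by
  classical
  intro J Γ ι act nm Q M Al c hinv h0 hact hnm hQ hM hAl hdis hrec
  choose! c' hc' using hrec
  -- uniqueness of the normalised cell of an orbit
  have uni : ∀ (u : J) (i i' : ι) (t t' : ℤ × ℤ), i ∈ Q → i' ∈ Q → nm i = 0 → nm i' = 0 →
      (u, t) ∈ M i → (u, t') ∈ M i' → i = i' ∧ t = t' := by
    intro u i i' t t' hi hi' hn hn' hm hm'
    have h1 : tr (t' - t) (u, t) ∈ M (act (t' - t) i) := (hM _ i hi _).2 hm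
    have h2 : tr (t' - t) (u, t) = (u, t') := by simp [tr]
    rw [h2] at h1
    have h3 : act (t' - t) i = i' := by
      by_contra hne
      exact Set.disjoint_left.1 (hdis _ (hQ _ i hi) _ hi' hne).1 h1 hm'
    have h4 := hnm (t' - t) i
    rw [h3, hn, hn', zero_add] at h4
    have h5 : t = t' := (sub_eq_zero.1 h4.symm).symm
    refine ⟨?_, h5⟩
    rw [← h3, ← h4, h0]
  let P : J → ι × (ℤ × ℤ) → Prop := fun u p => p.1 ∈ Q ∧ nm p.1 = 0 ∧ (u, p.2) ∈ M p.1
  let cc : J → Col := fun u =>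
    if h : ∃ p, P u p then c' h.choose.1 (u, h.choose.2) else c u
  have hin : ∀ i ∈ Q, nm i = 0 → ∀ y ∈ M i, cc y.1 = c' i y := by
    intro i hi hn y hy
    have hex : ∃ p, P y.1 p := ⟨(i, y.2), hi, hn, hy⟩
    have hs := hex.choose_spec
    obtain ⟨e1, e2⟩ := uni y.1 _ i _ y.2 hs.1 hi hs.2.1 hn hs.2.2 hy
    simp only [cc, dif_pos hex, e1, e2]
  have hout : ∀ y : Vx J, (∀ i ∈ Q, y ∉ M i) → cc y.1 = c y.1 := by
    intro y hy
    have hex : ¬ ∃ p, P y.1 p := by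
      rintro ⟨p, hp, -, hm⟩
      have h1 := (hM (y.2 - p.2) p.1 hp _).2 hm
      have h2 : tr (y.2 - p.2) (y.1, p.2) = y := by simp [tr]
      rw [h2] at h1
      exact hy _ (hQ _ _ hp) h1
    simp only [cc, dif_neg hex]
  have hout' : ∀ i ∈ Q, ∀ y : Vx J, (∀ i ∈ Q, y ∉ M i) → cc y.1 = c' i y := by
    intro i hi y hy
    rw [hout y hy, (hc' i hi).off y (hy i hi)]
  have hnb : ∀ i ∈ Q, nm i = 0 → ∀ x ∈ M i, ∀ y, Γ.Adj x y → cc y.1 = c' i y := by
    intro i hi hn x hx y hxy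
    by_cases hy : y ∈ M i
    · exact hin i hi hn y hy
    · refine hout' i hi y ?_
      intro i' hi' hy'
      have hne : i ≠ i' := fun e => hy (e ▸ hy')
      exact (hdis i hi i' hi' hne).2 ⟨x, hx, y, hy', hxy⟩
  have htr : ∀ (a : ℤ × ℤ) (x : Vx J), (∀ i ∈ Q, x ∉ M i) → ∀ i ∈ Q, tr a x ∉ M i := by
    intro a x hx i hi hm
    have h1 := (hM (-a) i hi _).2 hm
    rw [tr_neg] at h1
    exact hx _ (hQ _ i hi) h1
  have hn0 : ∀ i, nm (act (-nm i) i) = 0 := by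
    intro i; rw [hnm]; simp
  refine ⟨cc, hout, ?_, ?_⟩
  · intro i hi x hx y z hy hz ey ez
    have hi0 := hQ (-nm i) i hi
    have hx0 := (hM (-nm i) i hi x).2 hx
    have hy0 := hinv (-nm i) _ _ hy
    have hz0 := hinv (-nm i) _ _ hz
    have ex := hin _ hi0 (hn0 i) _ hx0
    have e1 := hnb _ hi0 (hn0 i) _ hx0 _ hy0
    have e2 := hnb _ hi0 (hn0 i) _ hx0 _ hz0
    refine tr_inj (-nm i) ((hc' _ hi0).one _ hx0 _ _ hy0 hz0 ?_ ?_)
    · rw [← ex, ← e1]; exact ey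
    · rw [← ex, ← e2]; exact ez
  · intro x hx i hi
    have hi0 := hQ (-nm i) i hi
    have hx0 := htr (-nm i) x hx
    have ex := hout' _ hi0 _ hx0
    constructor
    · intro y hy hxy e
      have hy0 := (hM (-nm i) i hi y).2 hy
      have e1 := hin _ hi0 (hn0 i) _ hy0
      have h1 := (hc' _ hi0).al _ (hx0 _ hi0) _ hy0 (hinv (-nm i) _ _ hxy)
        (by rw [← ex, ← e1]; exact e)
      have h2 := hAl (nm i) _ hi0 _ h1
      rw [tr_neg', hact, neg_add_cancel, h0] at h2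
      exact h2
    · intro y hy z hz hxy hxz ey ez
      have hy0 := (hM (-nm i) i hi y).2 hy
      have hz0 := (hM (-nm i) i hi z).2 hz
      have e1 := hin _ hi0 (hn0 i) _ hy0
      have e2 := hin _ hi0 (hn0 i) _ hz0
      refine tr_inj (-nm i) ((hc' _ hi0).un _ (hx0 _ hi0) _ hy0 _ hz0
        (hinv (-nm i) _ _ hxy) (hinv (-nm i) _ _ hxz) ?_ ?_)
      · rw [← ex, ← e1]; exact ey
      · rw [← ex, ← e2]; exact ez

end Pool.Agent.P.MP_08fd93_co.OV
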