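import Pool.Agent.P.MP_08fd93_co.OV.St2

/-! Package PLat of project OV: change of basis in the lattice lemma. -/

set_option autoImplicit false

namespace Pool.Agent.P.MP_08fd93_co.OV

namespace PkPLatP

/-- The linear map with columns `a` and `b`. -/
def lin (a b : ℤ × ℤ) : ℤ × ℤ →+ ℤ × ℤ where
  toFun c := (c.1 * a.1 + c.2 * b.1, c.1 * a.2 + c.2 * b.2)
  map_zero' := by simp
  map_add' x y := by
    ext <;> simp only [Prod.fst_add, Prod.snd_add] <;> ring

theorem lin_apply (a b c : ℤ × ℤ) :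
    lin a b c = (c.1 * a.1 + c.2 * b.1, c.1 * a.2 + c.2 * b.2) := rfl

theorem short {D : ℤ × ℤ → ℕ} (hD : Nrm D) :
    ∃ a b : ℤ × ℤ, a.1 * b.2 - a.2 * b.1 = 1 ∧ ∀ c, c ≠ 0 → D a ≤ D c := by
  classical
  have hex : ∃ n, ∃ a : ℤ × ℤ, a ≠ 0 ∧ D a = n := ⟨_, (1, 0), by simp, rfl⟩
  obtain ⟨a, ha, hn⟩ := Nat.find_spec hex
  have hmin : ∀ c, c ≠ 0 → D a ≤ D c := fun c hc => hn ▸ Nat.find_min' hex ⟨c, hc, rfl⟩
  have hg : 0 < Int.gcd a.1 a.2 := by
    rw [Int.gcd_pos_iff]
    by_contra h
    push Not at h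
    exact ha (Prod.ext h.1 h.2)
  obtain ⟨m, n, hmn, h1, h2⟩ := Int.exists_gcd_one hg
  have e : a = ((Int.gcd a.1 a.2 : ℕ) : ℤ) • ((m, n) : ℤ × ℤ) := by
    ext
    · simp only [Prod.smul_fst, smul_eq_mul]
      rw [mul_comm]
      exact h1
    · simp only [Prod.smul_snd, smul_eq_mul]
      rw [mul_comm]
      exact h2
  have h3 : D (m, n) ≤ D a := by
    have := hD.smul ((Int.gcd a.1 a.2 : ℕ) : ℤ) (m, n)
    rw [← e, Int.natAbs_natCast] at this
    rw [this]
    exact Nat.le_mul_of_pos_left _ hg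
  refine ⟨(m, n), (-(Int.gcdB m n), Int.gcdA m n), ?_, fun c hc => h3.trans (hmin c hc)⟩
  have := Int.gcd_eq_gcd_ab m n
  rw [hmn] at this
  simp only
  push_cast at this
  linarith

end PkPLatP

open PkPLatP in
theorem pk_PLat : S_PLat := by
  intro H D hD
  obtain ⟨a, b, hdet, hmin⟩ := short hD
  set g := lin a b with hg
  set g' := lin (b.2, -a.2) (-b.1, a.1) with hg'
  have gg' : ∀ c, g (g' c) = c := by
    intro c
    simp only [hg, hg', lin_apply]
    ext
    · simp only
      linear_combination c.1 * hdet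
    · simp only
      linear_combination c.2 * hdet
  have g'g : ∀ c, g' (g c) = c := by
    intro c
    simp only [hg, hg', lin_apply]
    ext
    · simp only
      linear_combination c.1 * hdet
    · simp only
      linear_combination c.2 * hdet
  have gne : ∀ c, c ≠ 0 → g c ≠ 0 := by
    intro c hc h
    apply hc
    rw [← g'g c, h, map_zero]
  have hN : Nrm (fun c => D (g c)) := by
    refine ⟨fun x y => ?_, fun k x => ?_, fun x hx => hD.ge _ (gne x hx)⟩
    · simp only [map_add]
      exact hD.add _ _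
    · simp only [map_zsmul]
      exact hD.smul _ _
  obtain ⟨η, hev, hle, c, hc, hcl⟩ := H _ hN (by
    intro c hc
    have : g (1, 0) = a := by simp [hg, lin_apply]
    simp only [this]
    exact hmin _ (gne c hc))
  refine ⟨η.comp g', fun x => hev _, fun x => ?_, g c, gne c hc, ?_⟩
  · have := hle (g' x)
    simp only [gg'] at this
    exact this
  · simp only [AddMonoidHom.comp_apply, g'g]
    exact hcl

end Pool.Agent.P.MP_08fd93_co.OV
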