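import Pool.Agent.P.MP_08fd93_co.OV.St2

/-! Package PQ of project OV: periodic quotients with finite connected fibres. -/

set_option autoImplicit false

namespace Pool.Agent.P.MP_08fd93_co.OV

namespace PkPQP

theorem tr_inj {J : Type} (a : ℤ × ℤ) {x y : Vx J} (h : tr a x = tr a y) : x = y := by
  have h1 := congrArg Prod.fst h
  have h2 := congrArg Prod.snd h
  simp only [tr, add_left_inj] at h1 h2
  exact Prod.ext h1 h2

theorem reach {W : Type} {H : SimpleGraph W} (h : IsConn H Set.univ) (x y : W) :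
    H.Reachable x y := by
  have h := h x (Set.mem_univ _) y (Set.mem_univ _)
  induction h with
  | refl => exact SimpleGraph.Reachable.refl _
  | tail _ h ih => exact ih.trans h.2.2.reachable

theorem conn_map {W W' : Type} {H : SimpleGraph W} {H' : SimpleGraph W'} {π : W → W'}
    (hπ : ∀ a b, H.Adj a b → π a = π b ∨ H'.Adj (π a) (π b)) {Z : Set W} {a b : W}
    (h : Conn H Z a b) : Conn H' (π '' Z) (π a) (π b) := by
  induction h with
  | refl => exact Relation.ReflTransGen.refl
  | tail _ h ih =>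
    rcases hπ _ _ h.2.2 with e | e
    · rw [← e]
      exact ih
    · exact Relation.ReflTransGen.tail ih ⟨⟨_, h.1, rfl⟩, ⟨_, h.2.1, rfl⟩, e⟩

theorem dist_map {W W' : Type} {H : SimpleGraph W} {H' : SimpleGraph W'} {π : W → W'}
    (hπ : ∀ a b, H.Adj a b → π a = π b ∨ H'.Adj (π a) (π b)) {a b : W} (p : H.Walk a b) :
    H'.dist (π a) (π b) ≤ p.length := by
  induction p with
  | nil => simp
  | cons h q ih =>
    rename_i u v z
    rw [SimpleGraph.Walk.length_cons]
    rcases hπ _ _ h with e | e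
    · rw [e]
      omega
    · have h1 := e.reachable.dist_triangle_left (π z)
      rw [SimpleGraph.dist_eq_one_iff_adj.2 e] at h1
      omega

end PkPQP

open PkPQP in
theorem pk_PQ : S_PPQ := by
  intro hQ J J' Γ Γ' π hF hs ht hfib hadj
  have hπ : ∀ a b, Γ.Adj a b → π a = π b ∨ Γ'.Adj (π a) (π b) := by
    intro a b h
    by_cases e : π a = π b
    · exact Or.inl e
    · exact Or.inr ((hadj _ _).2 ⟨e, a, b, rfl, rfl, h⟩)
  refine ⟨⟨?_, ?_, ?_, ?_⟩, ?_⟩
  · refine hQ _ _ Γ Γ' Set.univ Set.univ π hF.pl (Set.image_univ_of_surjective hs) ?_ ?_ ?_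
    · intro x _
      rw [Set.univ_inter]
      exact (hfib x).2
    · intro x _
      rw [Set.univ_inter]
      exact Or.inl (hfib x).1
    · intro x _ y _
      rw [hadj]
      constructor
      · rintro ⟨h, a, b, h1, h2, h3⟩
        exact ⟨h, a, Set.mem_univ _, b, Set.mem_univ _, h1, h2, h3⟩
      · rintro ⟨h, a, -, b, -, h1, h2, h3⟩
        exact ⟨h, a, b, h1, h2, h3⟩
  · intro F' hF'
    have hfin : (π ⁻¹' F').Finite := by
      refine (hF'.biUnion fun y _ => (hfib y).1).subset ?_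
      intro x hx
      exact Set.mem_biUnion hx rfl
    obtain ⟨Z, z1, z2, z3⟩ := hF.oe _ hfin
    refine ⟨π '' Z, ?_, ?_, ?_⟩
    · rintro _ ⟨a, ha, rfl⟩ _ ⟨b, hb, rfl⟩
      exact conn_map hπ (z1 a ha b hb)
    · refine (z2.image π).subset ?_
      intro y hy
      obtain ⟨x, rfl⟩ := hs y
      exact ⟨x, fun hx => hy ⟨x, hx, rfl⟩, rfl⟩
    · rw [Set.disjoint_left]
      rintro _ ⟨x, hx, rfl⟩ hy
      exact Set.disjoint_left.1 z3 hx hy
  · intro c x y h
    obtain ⟨hne, a, b, rfl, rfl, hab⟩ := (hadj x y).1 h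
    exact (hadj _ _).2 ⟨fun e => hne (tr_inj c e), tr c a, tr c b, ht c a, ht c b,
      hF.inv c a b hab⟩
  · intro x
    refine (((hfib x).1.biUnion fun a _ => hF.lf a).image π).subset ?_
    intro y hy
    obtain ⟨-, a, b, ha, hb, hab⟩ := (hadj x y).1 hy
    exact ⟨b, Set.mem_biUnion (show a ∈ π ⁻¹' {x} from ha) hab, hb⟩
  · intro x y
    obtain ⟨p, hp⟩ := (reach hF.pl.conn x y).exists_walk_length_eq_dist
    rw [← hp]
    exact dist_map hπ p

end Pool.Agent.P.MP_08fd93_co.OV
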