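import Pool.Agent.P.MP_08fd93_co.OV.St2

/-! Package Per: a shortest closed walk unrolled to a periodic line. -/

set_option autoImplicit false

namespace Pool.Agent.P.MP_08fd93_co.OV

namespace PkPerP

theorem walk_of_line {W : Type} {H : SimpleGraph W} {l : ℤ → W}
    (adj : ∀ i, H.Adj (l i) (l (i + 1))) (i : ℤ) (k : ℕ) :
    ∃ p : H.Walk (l i) (l (i + k)), p.length = k := by
  induction k with
  | zero => exact ⟨SimpleGraph.Walk.nil.copy rfl (by simp), by simp⟩
  | succ k ih =>
    obtain ⟨p, hp⟩ := ih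
    refine ⟨(p.concat (adj (i + k))).copy rfl (by push_cast; rw [add_assoc]), ?_⟩
    simp [hp]

theorem dist_line {W : Type} {H : SimpleGraph W} {l : ℤ → W}
    (adj : ∀ i, H.Adj (l i) (l (i + 1))) (i j : ℤ) : H.dist (l i) (l j) ≤ (i - j).natAbs := by
  have key : ∀ i j : ℤ, i ≤ j → H.dist (l i) (l j) ≤ (i - j).natAbs := by
    intro i j hij
    obtain ⟨k, hk⟩ := Int.eq_ofNat_of_zero_le (sub_nonneg.2 hij)
    obtain ⟨p, hp⟩ := walk_of_line adj i k
    have e : j = i + k := by omega
    subst e
    have := SimpleGraph.dist_le p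
    omega
  rcases le_total i j with h | h
  · exact key i j h
  · have := key j i h
    rw [SimpleGraph.dist_comm] at this
    omega

end PkPerP

open PkPerP in
theorem pk_Per : S_Per := by
  intro J Γ hΓ x c n hd hn
  obtain ⟨p, hp⟩ := SimpleGraph.exists_walk_of_dist_ne_zero (G := Γ) (u := x) (v := tr c x)
    (by omega)
  rw [hd] at hp
  have hn' : (0 : ℤ) < n := by exact_mod_cast hn
  have hadj : ∀ i : ℤ, Γ.Adj (tr ((i / n) • c) (p.getVert (i % n).toNat))
      (tr (((i + 1) / n) • c) (p.getVert ((i + 1) % n).toNat)) := by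
    intro i
    have h0 : 0 ≤ i % n := Int.emod_nonneg _ hn'.ne'
    have h1 : i % n < n := Int.emod_lt_of_pos _ hn'
    have h2 : (n : ℤ) * (i / n) + i % n = i := Int.mul_ediv_add_emod i n
    have ha : Γ.Adj (p.getVert (i % n).toNat) (p.getVert ((i % n).toNat + 1)) :=
      p.adj_getVert_succ (by omega)
    have ha' := hΓ.inv ((i / n) • c) _ _ ha
    by_cases hr : i % n + 1 < n
    · have h3 : (i + 1) / n = i / n ∧ (i + 1) % n = i % n + 1 :=
        (Int.ediv_emod_unique hn').2 ⟨by linarith, by omega, hr⟩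
      rw [h3.1, h3.2, show (i % n + 1).toNat = (i % n).toNat + 1 by omega]
      exact ha'
    · have h3 : (i + 1) / n = i / n + 1 ∧ (i + 1) % n = 0 :=
        (Int.ediv_emod_unique hn').2 ⟨by
          have : i % n = n - 1 := by omega
          rw [this] at h2
          linarith, le_rfl, hn'⟩
      rw [show (i % n).toNat + 1 = p.length by omega, p.getVert_length] at ha'
      rw [h3.1, h3.2, Int.toNat_zero, p.getVert_zero]
      have e : tr ((i / n + 1) • c) x = tr ((i / n) • c) (tr c x) := by
        simp only [tr, add_smul, one_smul, add_assoc, add_comm c]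
      rw [e]
      exact ha'
  refine ⟨fun i => tr ((i / n) • c) (p.getVert (i % n).toNat), ?_, hadj, ?_, dist_line hadj⟩
  · show tr (((0 : ℤ) / n) • c) (p.getVert ((0 : ℤ) % n).toNat) = x
    rw [Int.zero_ediv, Int.zero_emod, Int.toNat_zero, p.getVert_zero, zero_smul]
    simp [tr]
  · intro i
    have h1 : (i + n) / n = i / n + 1 := by
      have := Int.add_mul_ediv_right i 1 hn'.ne'
      rwa [one_mul] at this
    have h2 : (i + n) % n = i % n := by simp
    simp only [h1, h2, tr, add_smul, one_smul, add_assoc]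

end Pool.Agent.P.MP_08fd93_co.OV
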