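import Pool.Agent.P.MP_08fd93_co.OV.St2

/-! Package Phi of project OV, with basic facts about frames. -/

set_option autoImplicit false

namespace Pool.Agent.P.MP_08fd93_co.OV

namespace PkPhiP

variable {J : Type} {F : FD J}

theorem tr_neg (a : ℤ × ℤ) (x : Vx J) : tr (-a) (tr a x) = x := by
  simp [tr]

theorem tr_tr (a b : ℤ × ℤ) (x : Vx J) : tr a (tr b x) = tr (b + a) x := by
  simp [tr, add_assoc]

theorem tr_zero (x : Vx J) : tr 0 x = x := by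
  simp [tr]

theorem tr_inj (a : ℤ × ℤ) {x y : Vx J} (h : tr a x = tr a y) : x = y := by
  rw [← tr_neg a x, h, tr_neg]

theorem l_mem (h : Frm F) (j i : ℤ) : F.l j i ∈ F.L j := (h.mem j _).2 ⟨i, rfl⟩

theorem f_of (h : Frm F) {j : ℤ} {x : Vx J} (hx : x ∈ F.L j) : F.f x = j := h.uf.lf j x hx

theorem eq_l (h : Frm F) {j : ℤ} {x : Vx J} (hx : x ∈ F.L j) : F.l j (F.ρ x) = x := by
  obtain ⟨i, rfl⟩ := (h.mem j x).1 hx
  rw [h.rho]

theorem ext_rho (h : Frm F) {j : ℤ} {x y : Vx J} (hx : x ∈ F.L j) (hy : y ∈ F.L j)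
    (e : F.ρ x = F.ρ y) : x = y := by
  rw [← eq_l h hx, e, eq_l h hy]

theorem la_of (h : Frm F) {j : ℤ} {x : Vx J} (hx : x ∈ F.L j) : x ∈ F.LA := by
  show x ∈ F.L (F.f x)
  rw [f_of h hx]; exact hx

theorem an_mem (h : Frm F) {j : ℤ} {x : Vx J} (hx : x ∈ F.L j) : F.an x ∈ F.L (j - 1) :=
  h.uf.lan j x (h.uf.lu j hx) (f_of h hx)

theorem nx_mem (h : Frm F) {j : ℤ} {x : Vx J} (hx : x ∈ F.L j) : F.nx x ∈ F.L j := by
  unfold FD.nx
  rw [f_of h hx]; exact l_mem h _ _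

theorem rho_nx (h : Frm F) (x : Vx J) : F.ρ (F.nx x) = F.ρ x + 1 := h.rho _ _

theorem nx_l (h : Frm F) (j i : ℤ) : F.nx (F.l j i) = F.l j (i + 1) := by
  unfold FD.nx
  rw [f_of h (l_mem h j i), h.rho]

theorem tr_mem (h : Frm F) (a : ℤ × ℤ) {j : ℤ} {x : Vx J} (hx : x ∈ F.L j) :
    tr a x ∈ F.L (j + F.η a) := (h.uf.ltr a j x).2 hx

theorem tr_la (h : Frm F) (a : ℤ × ℤ) {x : Vx J} (hx : x ∈ F.LA) : tr a x ∈ F.LA :=
  la_of h (tr_mem h a hx)

theorem rho_tr (h : Frm F) (a : ℤ × ℤ) (j : ℤ) :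
    ∃ κ : ℤ, ∀ x ∈ F.L j, F.ρ (tr a x) = F.ρ x + κ := by
  obtain ⟨κ, hκ⟩ := h.ltr a j
  refine ⟨κ, fun x hx => ?_⟩
  obtain ⟨i, rfl⟩ := (h.mem j x).1 hx
  rw [hκ, h.rho, h.rho]

theorem nx_tr (h : Frm F) (a : ℤ × ℤ) {j : ℤ} {x : Vx J} (hx : x ∈ F.L j) :
    F.nx (tr a x) = tr a (F.nx x) := by
  obtain ⟨κ, hκ⟩ := h.ltr a j
  obtain ⟨i, rfl⟩ := (h.mem j x).1 hx
  rw [hκ, nx_l h, nx_l h, hκ]
  congr 1
  ring

theorem lw_smul (h : Frm F) (j : ℤ) (r : ℤ) :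
    ∀ i, tr (r • F.w) (F.l j i) = F.l j (i + r * F.nn j) := by
  induction r using Int.induction_on with
  | zero => intro i; simp [tr]
  | succ r ih =>
    intro i
    rw [add_smul, one_smul, ← tr_tr, ih, h.lw]
    congr 1
    ring
  | pred r ih =>
    intro i
    apply tr_inj F.w
    rw [tr_tr, h.lw, sub_smul, one_smul, sub_add_cancel, ih]
    congr 1
    ring

theorem rho_lw (h : Frm F) (r : ℤ) {j : ℤ} {x : Vx J} (hx : x ∈ F.L j) :
    F.ρ (tr (r • F.w) x) = F.ρ x + r * F.nn j := by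
  obtain ⟨i, rfl⟩ := (h.mem j x).1 hx
  rw [lw_smul h, h.rho, h.rho]

theorem und_ex (h : Frm F) (y : Vx J) : ∃ z, F.Und y z := by
  set j := F.f y + 1 with hj
  have hA : ∀ r : ℤ, F.ρ (F.an (F.l j (r * F.nn j))) =
      F.ρ (F.an (F.l j 0)) + r * F.nn (j - 1) := by
    intro r
    have h1 := lw_smul h j r 0
    rw [zero_add] at h1
    rw [← h1, h.pot.atr, rho_lw h r (an_mem h (l_mem h j 0))]
  have hn := h.n2 (j - 1)
  have hlow : ∃ i, F.ρ (F.an (F.l j i)) ≤ F.ρ y := by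
    refine ⟨(-|F.ρ y - F.ρ (F.an (F.l j 0))|) * F.nn j, ?_⟩
    rw [hA]
    have h1 := neg_abs_le (F.ρ y - F.ρ (F.an (F.l j 0)))
    have h2 := abs_nonneg (F.ρ y - F.ρ (F.an (F.l j 0)))
    nlinarith
  obtain ⟨i0, hi0⟩ := hlow
  have hup : ∃ n : ℕ, F.ρ y < F.ρ (F.an (F.l j (i0 + n))) := by
    have hB : ∀ r : ℤ, F.ρ (F.an (F.l j (i0 + r * F.nn j))) =
        F.ρ (F.an (F.l j i0)) + r * F.nn (j - 1) := by
      intro r
      rw [← lw_smul h j r i0, h.pot.atr, rho_lw h r (an_mem h (l_mem h j i0))]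
    have hn' := h.n2 j
    have h0 : 0 ≤ (F.ρ y - F.ρ (F.an (F.l j i0)) + 1) * F.nn j := by
      apply mul_nonneg <;> omega
    refine ⟨((F.ρ y - F.ρ (F.an (F.l j i0)) + 1) * F.nn j).toNat, ?_⟩
    rw [Int.toNat_of_nonneg h0, hB]
    nlinarith
  classical
  have h1 := Nat.find_spec hup
  cases hn0 : Nat.find hup with
  | zero =>
    rw [hn0] at h1
    simp at h1
    omega
  | succ n =>
    have h2 := Nat.find_min hup (m := n) (by omega)
    rw [hn0] at h1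
    refine ⟨F.l j (i0 + n), l_mem h _ _, not_lt.1 h2, ?_⟩
    rw [nx_l h]
    have : i0 + (n : ℤ) + 1 = i0 + ((n + 1 : ℕ) : ℤ) := by push_cast; ring
    rw [this]
    exact h1

theorem und_uni (h : Frm F) (hS : SIF F) {y z z' : Vx J} (h1 : F.Und y z) (h2 : F.Und y z') :
    z = z' := by
  have key : ∀ z z', F.Und y z → F.Und y z' → ¬ F.ρ z < F.ρ z' := by
    intro z z' h1 h2 hlt
    have := hS.mono _ _ (nx_mem h h1.1) _ h2.1 (by rw [rho_nx h]; omega)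
    have h3 := h1.2.2
    have h4 := h2.2.1
    omega
  have a1 := key _ _ h1 h2
  have a2 := key _ _ h2 h1
  exact ext_rho h h1.1 h2.1 (by omega)

theorem und_tr (h : Frm F) (a : ℤ × ℤ) {y z : Vx J} (hy : y ∈ F.LA) (h1 : F.Und y z) :
    F.Und (tr a y) (tr a z) := by
  obtain ⟨κ, hκ⟩ := rho_tr h a (F.f y)
  have e1 : F.an z ∈ F.L (F.f y) := by simpa using an_mem h h1.1
  have e2 : F.an (F.nx z) ∈ F.L (F.f y) := by simpa using an_mem h (nx_mem h h1.1)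
  refine ⟨?_, ?_, ?_⟩
  · have := tr_mem h a h1.1
    rw [h.pot.per]
    have e : F.f y + F.η a + 1 = F.f y + 1 + F.η a := by ring
    rw [e]; exact this
  · rw [h.pot.atr, hκ _ e1, hκ _ hy]
    have := h1.2.1
    omega
  · rw [nx_tr h a h1.1, h.pot.atr, hκ _ e2, hκ _ hy]
    have := h1.2.2
    omega

variable {φ : Vx J → Vx J}

theorem phi_mem (h : Frm F) (hφ : PH F φ) {j : ℤ} {y : Vx J} (hy : y ∈ F.L j) :
    φ y ∈ F.L (j + 1) := by
  have := (hφ.und y (la_of h hy)).1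
  rwa [f_of h hy] at this

theorem phi_it_mem (h : Frm F) (hφ : PH F φ) {j : ℤ} {y : Vx J} (hy : y ∈ F.L j) (t : ℕ) :
    φ^[t] y ∈ F.L (j + t) := by
  induction t with
  | zero => simpa using hy
  | succ t ih =>
    rw [Function.iterate_succ_apply']
    have := phi_mem h hφ ih
    push_cast
    rwa [add_assoc] at this

theorem phi_it_tr (h : Frm F) (hφ : PH F φ) (a : ℤ × ℤ) {y : Vx J} (hy : y ∈ F.LA) (t : ℕ) :
    φ^[t] (tr a y) = tr a (φ^[t] y) := by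
  induction t with
  | zero => rfl
  | succ t ih =>
    rw [Function.iterate_succ_apply', Function.iterate_succ_apply', ih]
    exact hφ.eqv a _ (la_of h (phi_it_mem h hφ hy t))

end PkPhiP

open PkPhiP in
theorem pk_Phi : S_Phi := by
  intro J F h hS
  choose φ hφ using und_ex h
  refine ⟨φ, fun y _ => hφ y, fun y _ z hz => und_uni h hS hz (hφ y), fun a y hy => ?_⟩
  exact und_uni h hS (hφ _) (und_tr h a hy (hφ y))

end Pool.Agent.P.MP_08fd93_co.OV
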