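import Pool.Agent.P.MP_08fd93_co.OV.St2

/-! Package Prt of project OV. -/

set_option autoImplicit false

namespace Pool.Agent.P.MP_08fd93_co.OV

namespace PkPrtP

variable {J : Type} {F : FD J} {G : Set (Vx J)}

theorem lU {j : ℤ} {x : Vx J} (hx : x ∈ F.L j) : x ∉ F.U (j + 1) := hx.2

theorem rinj (hF : Frm F) {j : ℤ} {x y : Vx J} (hx : x ∈ F.L j) (hy : y ∈ F.L j)
    (h : F.ρ x = F.ρ y) : x = y := by
  obtain ⟨i, rfl⟩ := (hF.mem j x).1 hx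
  obtain ⟨i', rfl⟩ := (hF.mem j y).1 hy
  rw [hF.rho, hF.rho] at h
  rw [h]

theorem vlt {u : Un J} (hu : Val F G u) : F.ρ u.s < F.ρ u.s' := by
  rcases hu.alt with h | h
  · omega
  · have := h.lt
    omega

theorem capOf {u : Un J} (hu : Val F G u) {v : Vx J} (hv : v ∈ u.pk) : Cap F G u := by
  rcases hu.alt with h | h
  · rw [h.2.2] at hv
    exact absurd hv (Set.notMem_empty v)
  · exact h

theorem tsub {u : Un J} (hu : Val F G u) {v : Vx J} (hv : v ∈ u.T) :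
    v = u.s ∨ v = u.s' ∨ (v = u.x ∧ Cap F G u) := by
  rcases hv with h | h | h
  · exact Or.inl h
  · rcases hu.alt with h' | h'
    · exact Or.inl (h.trans h'.1)
    · exact Or.inr (Or.inr ⟨h, h'⟩)
  · exact Or.inr (Or.inl h)

theorem tLU {u : Un J} (hu : Val F G u) {v : Vx J} (hv : v ∈ u.T) :
    v ∈ F.L (F.f u.s) ∨ v ∈ F.U (F.f u.s + 1) := by
  rcases tsub hu hv with h | h | ⟨h, hc⟩
  · exact Or.inl (h ▸ hu.hs)
  · exact Or.inl (h ▸ hu.hs')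
  · exact Or.inr (h ▸ hc.xu)

theorem pLU {u : Un J} (hu : Val F G u) {v : Vx J} (hv : v ∈ u.pk) :
    v ∈ F.L (F.f u.s) ∨ v ∈ F.U (F.f u.s + 1) := (capOf hu hv).sub hv

theorem stNot {j : ℤ} {v : Vx J} (hv : v ∈ F.St j) (h : v ∈ F.L j ∨ v ∈ F.U (j + 1)) : False :=
  hv.2 h

theorem luU (hF : Frm F) {j : ℤ} {v : Vx J} (h : v ∈ F.L j ∨ v ∈ F.U (j + 1)) : v ∈ F.U j := by
  rcases h with h | h
  · exact hF.uf.lu j h
  · exact hF.uf.mono j (j + 1) (by omega) h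

theorem ciU (hF : Frm F) {u : Un J} (hu : Val F G u) {v : Vx J} (hv : v ∈ F.CI u) :
    v ∈ F.U (F.f u.s) := by
  rcases hv with h | h
  · exact luU hF (pLU hu h)
  · exact h.1.1

theorem botNot {s s' v : Vx J} (hv : v ∈ F.Bot s s') (h : v ∈ F.U (F.f s)) : False := by
  have := lU hv.1
  rw [sub_add_cancel] at this
  exact this h

/-- The two intervals do not overlap. -/
def Ap (F : FD J) (u1 u2 : Un J) : Prop := F.ρ u1.s' ≤ F.ρ u2.s ∨ F.ρ u2.s' ≤ F.ρ u1.s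

theorem Ap.symm {u1 u2 : Un J} (h : Ap F u1 u2) : Ap F u2 u1 := Or.symm h

theorem pkT {u1 u2 : Un J} (h1 : Val F G u1) (h2 : Val F G u2) (hl : F.f u1.s = F.f u2.s)
    (ha : Ap F u1 u2) {v : Vx J} (hv : v ∈ u1.pk) (hT : v ∈ u2.T) : False := by
  have c1 := capOf h1 hv
  have l1 := vlt h1
  have l2 := vlt h2
  have e1 : u2.s ∉ u1.pk := by
    intro h
    have := (c1.old _ (hl ▸ h2.hs)).1 h
    rcases ha with ha | ha <;> omega
  have e2 : u2.s' ∉ u1.pk := by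
    intro h
    have := (c1.old _ (hl ▸ h2.hs')).1 h
    rcases ha with ha | ha <;> omega
  rcases tsub h2 hT with h | h | ⟨h, c2⟩
  · exact e1 (h ▸ hv)
  · exact e2 (h ▸ hv)
  · subst h
    have key : ∀ z, z ∈ F.L (F.f u1.s) → z ∉ u1.pk → F.Γ.Adj u2.x z →
        F.ρ z = F.ρ u1.s ∨ F.ρ z = F.ρ u1.s' := by
      intro z hz hn hadj
      rcases c1.cl _ hv z hadj (Or.inl hz) with h | h
      · exact absurd h hn
      · rcases tsub h1 h with h | h | ⟨h, -⟩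
        · exact Or.inl (by rw [h])
        · exact Or.inr (by rw [h])
        · exact absurd (h ▸ c1.xu) (lU hz)
    have k1 := key _ (hl ▸ h2.hs) e1 c2.sx.symm
    have k2 := key _ (hl ▸ h2.hs') e2 c2.xs
    rcases ha with ha | ha <;> rcases k1 with k1 | k1 <;> rcases k2 with k2 | k2 <;> omega

theorem tT {u1 u2 : Un J} (h1 : Val F G u1) (h2 : Val F G u2) (hl : F.f u1.s = F.f u2.s)
    (ha : F.ρ u1.s' ≤ F.ρ u2.s) {v : Vx J} (hv : v ∈ u1.T) (hT : v ∈ u2.T) : v = u1.s' := by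
  have l1 := vlt h1
  have l2 := vlt h2
  rcases tsub h1 hv with h | h | ⟨h, c1⟩
  · exfalso
    rcases tsub h2 hT with h' | h' | ⟨h', c2⟩
    · rw [← h, h'] at l1
      omega
    · rw [← h, h'] at l1
      omega
    · exact lU (hl ▸ h1.hs) (h ▸ h' ▸ c2.xu)
  · exact h
  · exfalso
    rcases tsub h2 hT with h' | h' | ⟨h', c2⟩
    · exact lU (hl ▸ h2.hs) (h' ▸ h ▸ c1.xu)
    · exact lU (hl ▸ h2.hs') (h' ▸ h ▸ c1.xu)
    · have hx : u1.x = u2.x := h.symm.trans h'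
      have := (c1.xn _ (hl ▸ h2.hs') (hx ▸ c2.xs)).2.2
      omega

theorem pkpk0 (hF : Frm F) {u1 u2 : Un J} (h1 : Val F G u1) (h2 : Val F G u2)
    (hl : F.f u1.s = F.f u2.s) (ha : F.ρ u1.s' ≤ F.ρ u2.s) {v : Vx J} (hv : v ∈ u1.pk)
    (hv2 : v ∈ u2.pk) : False := by
  have c1 := capOf h1 hv
  have c2 := capOf h2 hv2
  refine hF.nj (u1.pk ∩ u2.pk) (Set.subset_univ _) (c1.fin.inter_of_left _) ⟨v, hv, hv2⟩
    u1.s' u1.s' (Or.inl rfl) ?_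
  rintro z ⟨y, ⟨hy1, hy2⟩, hadj⟩
  have hyU : y ∈ F.U (F.f u1.s + 1) := by
    rcases c1.sub hy1 with h | h
    · have a1 := (c1.old _ h).1 hy1
      have a2 := (c2.old _ (hl ▸ h)).1 hy2
      omega
    · exact h
  have hz : z ∈ F.L (F.f u1.s) ∪ F.U (F.f u1.s + 1) := by
    rcases hF.uf.bd _ _ hyU z hadj.symm with h | h
    · exact Or.inr h
    · rw [add_sub_cancel_right] at h
      exact Or.inl h
  rcases c1.cl _ hy1 z hadj.symm hz with a1 | a1 <;>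
    rcases c2.cl _ hy2 z hadj.symm (hl ▸ hz) with a2 | a2
  · exact Or.inl ⟨a1, a2⟩
  · exact (pkT h1 h2 hl (Or.inl ha) a1 a2).elim
  · exact (pkT h2 h1 hl.symm (Or.inr ha) a2 a1).elim
  · exact Or.inr (Or.inl (tT h1 h2 hl ha a1 a2))

theorem cici (hF : Frm F) (hS : SIF F) {u1 u2 : Un J} (h1 : Val F G u1) (h2 : Val F G u2)
    (hl : F.f u1.s = F.f u2.s) (ha : Ap F u1 u2) {v : Vx J} (hv : v ∈ F.CI u1)
    (hv2 : v ∈ F.CI u2) : False := by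
  rcases hv with a | a <;> rcases hv2 with b | b
  · rcases ha with ha | ha
    · exact pkpk0 hF h1 h2 hl ha a b
    · exact pkpk0 hF h2 h1 hl.symm ha b a
  · exact stNot b.1 (hl ▸ pLU h1 a)
  · exact stNot a.1 (hl ▸ pLU h2 b)
  · rcases ha with ha | ha
    · exact Set.disjoint_left.1
        (hS.dis _ _ h1.hs _ h1.hs' _ (hl ▸ h2.hs) _ (hl ▸ h2.hs') ha) a b
    · exact Set.disjoint_left.1
        (hS.dis _ _ h2.hs _ h2.hs' _ (hl ▸ h1.hs) _ (hl ▸ h1.hs') ha) b a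

variable {Q : Set (Un J)} {O : Un J → Set (Un J)}

theorem apOf (hQ : Sol F G Q O) {u1 u2 : Un J} (h1 : u1 ∈ Q) (h2 : u2 ∈ Q) (hne : u1 ≠ u2)
    (hl : F.f u1.s = F.f u2.s) : Ap F u1 u2 := by
  have v1 := hQ.val _ h1
  have v2 := hQ.val _ h2
  have l1 := vlt v1
  have l2 := vlt v2
  by_contra hc
  unfold Ap at hc
  rcases le_total (F.ρ u1.s) (F.ρ u2.s) with h | h
  · exact hne (hQ.uni _ h1 _ h2 u2.s ⟨hl ▸ v2.hs, h, by omega⟩ ⟨v2.hs, le_rfl, l2⟩)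
  · exact hne (hQ.uni _ h1 _ h2 u1.s ⟨v1.hs, le_rfl, l1⟩ ⟨hl ▸ v1.hs, h, by omega⟩)

theorem pkT' {u : Un J} (hu : Val F G u) {v : Vx J} (hv : v ∈ u.pk) (hT : v ∈ u.T) : False := by
  have c := capOf hu hv
  rcases tsub hu hT with h | h | ⟨h, -⟩
  · have := (c.old _ hu.hs).1 (h ▸ hv)
    omega
  · have := (c.old _ hu.hs').1 (h ▸ hv)
    omega
  · exact c.xp (h ▸ hv)

theorem ciT (hQ : Sol F G Q O) {u1 u2 : Un J} (h1 : u1 ∈ Q) (h2 : u2 ∈ Q)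
    (hl : F.f u1.s = F.f u2.s) {v : Vx J} (hv : v ∈ F.CI u1) (hT : v ∈ u2.T) : False := by
  rcases hv with a | a
  · by_cases hne : u1 = u2
    · subst hne
      exact pkT' (hQ.val _ h1) a hT
    · exact pkT (hQ.val _ h1) (hQ.val _ h2) hl (apOf hQ h1 h2 hne hl) a hT
  · exact stNot a.1 (hl ▸ tLU (hQ.val _ h2) hT)

theorem ciNb (hC : S_Cell) (hF : Frm F) (hS : SIF F) {u : Un J} (hu : Val F G u) {v z : Vx J}
    (hv : v ∈ F.CI u) (hadj : F.Γ.Adj v z) : z ∈ F.Bot u.s u.s' ∪ u.T ∪ F.CI u := by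
  obtain ⟨hd, hi⟩ := hC J F G u hF hS hu
  by_contra hc
  have : v ∈ (F.cell u).I := hi ▸ hv
  exact this (hd.cl ⟨z, hc, hadj⟩)

theorem ciTouch (hC : S_Cell) (hF : Frm F) (hS : SIF F) (hQ : Sol F G Q O) {u1 u2 : Un J}
    (h1 : u1 ∈ Q) (h2 : u2 ∈ Q) (hne : u1 ≠ u2) (hl : F.f u1.s = F.f u2.s) :
    ¬ Touch F.Γ (F.CI u1) (F.CI u2) := by
  rintro ⟨a, ha, b, hb, hadj⟩
  rcases ciNb hC hF hS (hQ.val _ h1) ha hadj with (h | h) | h
  · exact botNot h (hl ▸ ciU hF (hQ.val _ h2) hb)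
  · exact ciT hQ h2 h1 hl.symm hb h
  · exact cici hF hS (hQ.val _ h1) (hQ.val _ h2) hl (apOf hQ h1 h2 hne hl) h hb

/-- The part above the skeleton line of level `j`. -/
def Up (F : FD J) (Q : Set (Un J)) (j : ℤ) : Set (Vx J) :=
  {v | v ∈ F.U (j + 1) ∧ ∀ u ∈ Q, F.f u.s = j → v ∉ u.T ∧ v ∉ u.pk}

theorem lcov (hF : Frm F) (hQ : Sol F G Q O) {j : ℤ} {z : Vx J} (hz : z ∈ F.L j) :
    ∃ u ∈ Q, F.f u.s = j ∧ F.Cov u z ∧ (z ∈ u.T ∨ z ∈ u.pk) := by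
  have hf := hF.uf.lf j z hz
  obtain ⟨u, hu, hc⟩ := hQ.cov z (show z ∈ F.L (F.f z) from hf ▸ hz)
  have hv := hQ.val u hu
  have hf' := hF.uf.lf _ z hc.1
  refine ⟨u, hu, hf'.symm.trans hf, hc, ?_⟩
  rcases eq_or_lt_of_le hc.2.1 with h | h
  · exact Or.inl (Or.inl (rinj hF hc.1 hv.hs h.symm))
  · rcases hv.alt with h' | h'
    · have := hc.2.2
      omega
    · exact Or.inr ((h'.old z hc.1).2 ⟨h, hc.2.2⟩)

theorem upNb (hF : Frm F) (hQ : Sol F G Q O) {j : ℤ} {v z : Vx J} (hv : v ∈ Up F Q j)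
    (hadj : F.Γ.Adj v z) : z ∈ Up F Q j ∨ z ∈ F.SK Q j := by
  have np : ∀ u ∈ Q, F.f u.s = j → z ∉ u.pk := by
    intro u hu hj hz
    have c := capOf (hQ.val u hu) hz
    rcases c.cl z hz v hadj.symm (Or.inr (hj ▸ hv.1)) with h | h
    · exact (hv.2 u hu hj).2 h
    · exact (hv.2 u hu hj).1 h
  by_cases hs : z ∈ F.SK Q j
  · exact Or.inr hs
  · left
    refine ⟨?_, fun u hu hj => ⟨fun h => hs ⟨u, hu, hj, h⟩, np u hu hj⟩⟩
    rcases hF.uf.bd _ _ hv.1 z hadj with h | h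
    · exact h
    · rw [add_sub_cancel_right] at h
      obtain ⟨u, hu, hj, -, h | h⟩ := lcov hF hQ h
      · exact absurd ⟨u, hu, hj, h⟩ hs
      · exact absurd h (np u hu hj)

theorem oLev (hF : Frm F) (hQ : Sol F G Q O) {u u' : Un J} (hu : u ∈ Q) (h : u' ∈ O u) :
    F.f u'.s + 1 = F.f u.s := by
  have := hF.uf.lf _ _ ((hQ.co1 u hu).val u' h).2.1.1
  omega

theorem parent (hF : Frm F) (hQ : Sol F G Q O) {u' : Un J} (hu' : u' ∈ Q) {v : Vx J}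
    (hv : v ∈ u'.T ∨ v ∈ u'.pk) (hU : v ∈ F.U (F.f u'.s + 1)) :
    ∃ u ∈ Q, u' ∈ O u ∧ F.f u'.s + 1 = F.f u.s ∧ v ∈ F.CI u := by
  obtain ⟨u, hu, ho⟩ := (hQ.fix u').1 hu'
  have hl := oLev hF hQ hu ho
  refine ⟨u, hu, ho, hl, ?_⟩
  rcases (hQ.co1 u hu).sub u' ho hv with h | h
  · exact (botNot h (hl ▸ hU)).elim
  · exact h

theorem skUp (hF : Frm F) (hQ : Sol F G Q O) {j : ℤ} {v : Vx J} (hv : v ∈ F.SK Q (j + 1)) :
    v ∈ Up F Q j := by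
  obtain ⟨u, hu, hj, hT⟩ := hv
  have hU : v ∈ F.U (j + 1) := hj ▸ luU hF (tLU (hQ.val u hu) hT)
  have key : ∀ u' ∈ Q, F.f u'.s = j → ¬ (v ∈ u'.T ∨ v ∈ u'.pk) := by
    intro u' hu' hj' h
    obtain ⟨u0, h0, -, hl, hc⟩ := parent hF hQ hu' h (hj' ▸ hU)
    exact ciT hQ h0 hu (by omega) hc hT
  exact ⟨hU, fun u' hu' hj' => ⟨fun h => key u' hu' hj' (Or.inl h),
    fun h => key u' hu' hj' (Or.inr h)⟩⟩

theorem ciUp {u : Un J} (hu : u ∈ Q) {v : Vx J} (hc : v ∈ F.CI u) (hv : v ∈ Up F Q (F.f u.s)) :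
    False := by
  rcases hc with h | h
  · exact (hv.2 u hu rfl).2 h
  · exact stNot h.1 (Or.inr hv.1)

theorem upUp (hF : Frm F) (hQ : Sol F G Q O) {j : ℤ} {v : Vx J} (hv : v ∈ Up F Q (j + 1)) :
    v ∈ Up F Q j := by
  have hU : v ∈ F.U (j + 1) := luU hF (Or.inr hv.1)
  have key : ∀ u' ∈ Q, F.f u'.s = j → ¬ (v ∈ u'.T ∨ v ∈ u'.pk) := by
    intro u' hu' hj' h
    obtain ⟨u0, h0, -, hl, hc⟩ := parent hF hQ hu' h (hj' ▸ hU)
    have e : F.f u0.s = j + 1 := by omega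
    exact ciUp h0 hc (e ▸ hv)
  exact ⟨hU, fun u' hu' hj' => ⟨fun h => key u' hu' hj' (Or.inl h),
    fun h => key u' hu' hj' (Or.inr h)⟩⟩

theorem upMono (hF : Frm F) (hQ : Sol F G Q O) {j j' : ℤ} (h : j ≤ j') {v : Vx J}
    (hv : v ∈ Up F Q j') : v ∈ Up F Q j := by
  induction j', h using Int.leInduction with
  | base => exact hv
  | succ n _ ih => exact ih (upUp hF hQ hv)

theorem skUp' (hF : Frm F) (hQ : Sol F G Q O) {j j' : ℤ} (h : j < j') {v : Vx J}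
    (hv : v ∈ F.SK Q j') : v ∈ Up F Q j := by
  have e : j' = (j' - 1) + 1 := by omega
  rw [e] at hv
  exact upMono hF hQ (by omega) (skUp hF hQ hv)

theorem skNot {j : ℤ} {v : Vx J} (hv : v ∈ F.SK Q j) (h : v ∈ Up F Q j) : False := by
  obtain ⟨u, hu, hj, hT⟩ := hv
  exact (h.2 u hu hj).1 hT

theorem mmUp (hF : Frm F) (hS : SIF F) (hQ : Sol F G Q O) {u : Un J} (hu : u ∈ Q) {v : Vx J}
    (hv : v ∈ F.MM u (O u)) {j : ℤ} (hj : j < F.f u.s) : v ∈ Up F Q j := by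
  refine upMono hF hQ (show j ≤ F.f u.s - 1 by omega) ?_
  have hU : v ∈ F.U (F.f u.s - 1 + 1) := by
    rw [sub_add_cancel]
    exact ciU hF (hQ.val u hu) hv.1
  have key : ∀ u' ∈ Q, F.f u'.s = F.f u.s - 1 → ¬ (v ∈ u'.T ∨ v ∈ u'.pk) := by
    intro u' hu' hj' h
    obtain ⟨u0, h0, ho, hl, hc⟩ := parent hF hQ hu' h (hj' ▸ hU)
    have e : F.f u0.s = F.f u.s := by omega
    by_cases hne : u0 = u
    · subst hne
      rcases h with h | h
      · exact (hv.2 u' ho).1 h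
      · exact (hv.2 u' ho).2 h
    · exact cici hF hS (hQ.val _ h0) (hQ.val _ hu) e (apOf hQ h0 hu hne e) hc hv.1
  exact ⟨hU, fun u' hu' hj' => ⟨fun h => key u' hu' hj' (Or.inl h),
    fun h => key u' hu' hj' (Or.inr h)⟩⟩

theorem upStep (hF : Frm F) (hS : SIF F) (hQ : Sol F G Q O) {j : ℤ} {v : Vx J}
    (hv : v ∈ Up F Q j) (hn : v ∉ Up F Q (j + 1)) :
    v ∈ F.SK Q (j + 1) ∨ ∃ u ∈ Q, v ∈ F.MM u (O u) := by
  by_cases hs : v ∈ F.SK Q (j + 1)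
  · exact Or.inl hs
  right
  have key : ∃ u ∈ Q, F.f u.s = j + 1 ∧ v ∈ F.CI u := by
    by_cases h2 : v ∈ F.U (j + 1 + 1)
    · by_contra hc
      refine hn ⟨h2, fun u hu hj => ⟨fun h => hs ⟨u, hu, hj, h⟩, fun h => hc ⟨u, hu, hj, Or.inl h⟩⟩⟩
    · by_cases h1 : v ∈ F.L (j + 1)
      · obtain ⟨u, hu, hj, -, h | h⟩ := lcov hF hQ h1
        · exact absurd ⟨u, hu, hj, h⟩ hs
        · exact ⟨u, hu, hj, Or.inl h⟩
      · have hst : v ∈ F.St (j + 1) := ⟨hv.1, fun h => h.elim h1 h2⟩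
        obtain ⟨s, hs1, hs2⟩ := hS.ex _ v hst
        obtain ⟨u, hu, hj, hc, -⟩ := lcov hF hQ hs1
        have hval := hQ.val u hu
        have hfs := hF.uf.lf _ s hs1
        have hnx : F.nx s ∈ F.L (j + 1) := (hF.mem _ _).2 ⟨F.ρ s + 1, by rw [FD.nx, hfs]⟩
        have hr : F.ρ (F.nx s) = F.ρ s + 1 := hF.rho _ _
        refine ⟨u, hu, hj, Or.inr (hS.sub (j + 1) _ (hj ▸ hval.hs) _ (hj ▸ hval.hs') _ hs1 _ hnx
          hc.2.1 ?_ hs2)⟩
        have := hc.2.2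
        omega
  obtain ⟨u, hu, hj, hc⟩ := key
  refine ⟨u, hu, hc, fun u' ho => hv.2 u' ((hQ.fix u').2 ⟨u, hu, ho⟩) ?_⟩
  have := oLev hF hQ hu ho
  omega

theorem height [Fintype J] (hF : Frm F) (hQ : Sol F G Q O) :
    ∃ K : ℤ, ∀ u ∈ Q, ∀ v, (v ∈ u.T ∨ v ∈ u.pk) → F.f v ≤ F.f u.s + K := by
  have one : ∀ i : J, ∃ K : ℤ, ∀ u ∈ Q, u.s = (i, 0) → ∀ v, (v ∈ u.T ∨ v ∈ u.pk) →
      F.f v ≤ F.f u.s + K := by
    intro i
    by_cases h : ∃ u ∈ Q, u.s = (i, 0)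
    · obtain ⟨u0, h0, e0⟩ := h
      have v0 := hQ.val u0 h0
      have hfin : (u0.T ∪ u0.pk).Finite := by
        refine Set.Finite.union (((Set.finite_singleton _).insert _).insert _) ?_
        rcases v0.alt with h | h
        · rw [h.2.2]
          exact Set.finite_empty
        · exact h.fin
      obtain ⟨B, hB⟩ := (hfin.image F.f).bddAbove
      refine ⟨B - F.f u0.s, fun u hu e v hv => ?_⟩
      have v1 := hQ.val u hu
      have es : u.s = u0.s := e.trans e0.symm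
      have : u = u0 := hQ.uni _ hu _ h0 u.s ⟨v1.hs, le_rfl, vlt v1⟩
        (by rw [es]; exact ⟨v0.hs, le_rfl, vlt v0⟩)
      subst this
      have := hB ⟨v, hv, rfl⟩
      omega
    · exact ⟨0, fun u hu e => absurd ⟨u, hu, e⟩ h⟩
  choose K hK using one
  obtain ⟨B, hB⟩ := (Set.finite_range K).bddAbove
  refine ⟨B, fun u hu v hv => ?_⟩
  have h1 := hK u.s.1 (u.act (-u.s.2)) (hQ.inv _ u hu) (by simp [Un.act, tr]) (tr (-u.s.2) v) (by
    rcases hv with h | h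
    · left
      rcases h with h | h | h
      · exact Or.inl (by rw [h]; rfl)
      · exact Or.inr (Or.inl (by rw [h]; rfl))
      · exact Or.inr (Or.inr (by rw [h]; rfl))
    · exact Or.inr ⟨v, h, rfl⟩)
  have h2 := hB ⟨u.s.1, rfl⟩
  have h3 : F.f (u.act (-u.s.2)).s = F.f u.s + F.η (-u.s.2) := hF.pot.per _ _
  rw [hF.pot.per, h3] at h1
  omega

theorem cover [Fintype J] (hF : Frm F) (hS : SIF F) (hQ : Sol F G Q O) (v : Vx J) :
    (∃ j, v ∈ F.SK Q j) ∨ ∃ u ∈ Q, v ∈ F.MM u (O u) := by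
  obtain ⟨K, hK⟩ := height hF hQ
  obtain ⟨M, hM0, hM⟩ := hF.uf.big
  have h0 : v ∈ Up F Q (F.f v - 1 - M - |K|) := by
    have a1 := le_abs_self K
    have a2 := abs_nonneg K
    refine ⟨hM _ v (by omega), fun u hu hj => ⟨fun h => ?_, fun h => ?_⟩⟩
    · have := hK u hu v (Or.inl h)
      omega
    · have := hK u hu v (Or.inr h)
      omega
  obtain ⟨j, hj, hmax⟩ := Int.exists_greatest_of_bdd (P := fun j => v ∈ Up F Q j)
    ⟨F.f v, fun z hz => by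
      have := hF.uf.ge _ _ hz.1
      omega⟩ ⟨_, h0⟩
  rcases upStep hF hS hQ hj (fun h => by
    have := hmax _ h
    omega) with h | h
  · exact Or.inl ⟨_, h⟩
  · exact Or.inr h

theorem lev (hF : Frm F) (hQ : Sol F G Q O) {j j' : ℤ} {v : Vx J} (h : v ∈ F.SK Q j)
    (h' : v ∈ F.SK Q j') : j = j' := by
  rcases lt_trichotomy j j' with a | a | a
  · exact (skNot h (skUp' hF hQ a h')).elim
  · exact a
  · exact (skNot h' (skUp' hF hQ a h)).elim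

theorem mmSk (hF : Frm F) (hS : SIF F) (hQ : Sol F G Q O) {u : Un J} (hu : u ∈ Q) {v : Vx J}
    (hv : v ∈ F.MM u (O u)) {j : ℤ} (h : v ∈ F.SK Q j) : False := by
  rcases lt_trichotomy j (F.f u.s) with a | a | a
  · exact skNot h (mmUp hF hS hQ hu hv a)
  · obtain ⟨u2, h2, hj, hT⟩ := h
    exact ciT hQ hu h2 (by omega) hv.1 hT
  · exact ciUp hu hv.1 (skUp' hF hQ a h)

theorem mmLt (hF : Frm F) (hS : SIF F) (hQ : Sol F G Q O) {u1 u2 : Un J} (h1 : u1 ∈ Q)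
    (h2 : u2 ∈ Q) (hl : F.f u1.s < F.f u2.s) {a b : Vx J} (ha : a ∈ F.MM u1 (O u1))
    (hb : b ∈ F.MM u2 (O u2)) (h : a = b ∨ F.Γ.Adj b a) : False := by
  have hU := mmUp hF hS hQ h2 hb hl
  rcases h with h | h
  · exact ciUp h1 ha.1 (h ▸ hU)
  · rcases upNb hF hQ hU h with h | h
    · exact ciUp h1 ha.1 h
    · exact mmSk hF hS hQ h1 ha h

end PkPrtP

open PkPrtP in
theorem pk_Prt : S_Prt := by
  intro hC J _ F G Q O hF hS hQ
  refine ⟨⟨cover hF hS hQ, ?_, ?_, ?_, ?_⟩, fun u1 h1 u2 h2 hne hl => ciTouch hC hF hS hQ h1 h2 hne hl⟩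
  · intro u hu j
    exact Set.disjoint_left.2 fun v hv h => mmSk hF hS hQ hu hv h
  · intro u1 h1 u2 h2 hne
    rcases lt_trichotomy (F.f u1.s) (F.f u2.s) with a | a | a
    · exact ⟨Set.disjoint_left.2 fun v hv h => mmLt hF hS hQ h1 h2 a hv h (Or.inl rfl),
        fun ⟨x, hx, y, hy, h⟩ => mmLt hF hS hQ h1 h2 a hx hy (Or.inr h.symm)⟩
    · exact ⟨Set.disjoint_left.2 fun v hv h =>
        cici hF hS (hQ.val _ h1) (hQ.val _ h2) a (apOf hQ h1 h2 hne a) hv.1 h.1,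
        fun ⟨x, hx, y, hy, h⟩ => ciTouch hC hF hS hQ h1 h2 hne a ⟨x, hx.1, y, hy.1, h⟩⟩
    · exact ⟨Set.disjoint_left.2 fun v hv h => mmLt hF hS hQ h2 h1 a h hv (Or.inl rfl),
        fun ⟨x, hx, y, hy, h⟩ => mmLt hF hS hQ h2 h1 a hy hx (Or.inr h)⟩
  · intro j j' v h h'
    exact lev hF hQ h h'
  · intro j j' v h v' h' hadj
    by_contra hc
    have hU := skUp' hF hQ (show j + 1 < j' by omega) h'
    rcases upNb hF hQ hU hadj.symm with a | a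
    · exact skNot h (upUp hF hQ a)
    · have := lev hF hQ h a
      omega

end Pool.Agent.P.MP_08fd93_co.OV
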