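import Pool.Agent.P.MP_08fd93_co.OV.H15

/-! Package SF: connected parts of a strip are finite. -/

set_option autoImplicit false

namespace Pool.Agent.P.MP_08fd93_co.OV

open H15

namespace PkSFP

variable {J : Type}

theorem line_conn {F : FD J} (hF : Frm F) (j : ℤ) : IsConn F.Γ (F.L j) := by
  have hm : ∀ i, F.l j i ∈ F.L j := fun i => (hF.mem j _).2 ⟨i, rfl⟩
  apply isConn_of_base (F.l j 0)
  intro x hx
  obtain ⟨i, rfl⟩ := (hF.mem j x).1 hx
  induction i using Int.induction_on with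
  | zero => exact Relation.ReflTransGen.refl
  | succ i ih => exact ctrans (ih (hm _)) (cstep (hm _) (hm _) ((hF.adj j _ _).2 (Or.inl rfl)))
  | pred i ih =>
    exact ctrans (ih (hm _)) (cstep (hm _) (hm _) ((hF.adj j _ _).2 (Or.inr (by ring))))

end PkSFP

open PkSFP in
theorem pk_SF : S_SF := by
  intro hBri J F hF j E hE hEc
  by_contra hinf
  have hP := hF.pot
  have hU := hF.uf
  obtain ⟨M, hM0, hM⟩ := hU.big
  obtain ⟨F0, hF0, hband⟩ := hU.band j (j + 1 + M)
  have hht : ∀ x ∈ F.St j, j ≤ F.f x ∧ F.f x ≤ j + 1 + M := by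
    intro x hx
    refine ⟨hU.ge j x hx.1, ?_⟩
    by_contra h
    exact hx.2 (Or.inr (hM (j + 1) x (by omega)))
  have hk : ∀ x : Vx J, ∃ k : ℤ, x ∈ F.St j → tr (k • F.w) x ∈ F0 := by
    intro x
    by_cases hx : x ∈ F.St j
    · obtain ⟨k, hk⟩ := hband x (hht x hx).1 (hht x hx).2
      exact ⟨k, fun _ => hk⟩
    · exact ⟨0, fun h => absurd h hx⟩
  choose k hk using hk
  obtain ⟨x, hx, x', hx', hne, heq⟩ := Set.Infinite.exists_ne_map_eq_of_mapsTo
    (f := fun x => tr (k x • F.w) x) hinf (fun x hx => hk x (hE hx)) hF0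
  set g : ℤ × ℤ := (k x - k x') • F.w with hg
  have hgx : tr g x = x' := by
    have h1 : tr (k x • F.w) x = tr (k x' • F.w) x' := heq
    have h2 := congrArg (tr (-(k x' • F.w))) h1
    rw [tr_neg, tr_tr] at h2
    rw [← h2, hg, sub_smul, sub_eq_add_neg]
  have hg0 : g ≠ 0 := by
    intro h
    rw [h, tr_zero] at hgx
    exact hne hgx
  have hη : F.η g = 0 := (hP.ker g).2 ⟨_, rfl⟩
  have hηn : F.η (-g) = 0 := by rw [map_neg, hη, neg_zero]
  have hSt : ∀ c, F.η c = 0 → ∀ y ∈ F.St j, tr c y ∈ F.St j := by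
    intro c hc y hy
    have := (hU.str c j y).2 hy
    rwa [hc, add_zero] at this
  set K : Set (Vx J) := {y | Conn F.Γ (F.St j) x y} with hK
  have hKs : K ⊆ F.St j := fun y hy => cmem (hE hx) hy
  have hKc : IsConn F.Γ K := comp_conn _ _
  have hxx' : Conn F.Γ (F.St j) x x' := cmono hE (hEc x hx x' hx')
  have hKp : ∀ y, tr g y ∈ K ↔ y ∈ K := by
    intro y
    constructor
    · intro hy
      have h1 := ctr hP.fine.inv (-g) (hSt _ hηn) (ctrans (csymm hxx') hy)
      rw [← hgx, tr_neg, tr_neg] at h1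
      exact h1
    · intro hy
      have h1 := ctr hP.fine.inv g (hSt _ hη) hy
      rw [hgx] at h1
      exact ctrans hxx' h1
  have hUp : ∀ i y, tr g y ∈ F.U i ↔ y ∈ F.U i := by
    intro i y
    have := hU.utr g i y
    rwa [hη, add_zero] at this
  have hLp : ∀ i y, tr g y ∈ F.L i ↔ y ∈ F.L i := by
    intro i y
    have := hU.ltr g i y
    rwa [hη, add_zero] at this
  have hlow : ∀ (i : ℤ) y, tr g y ∈ {z | F.f z ≤ i} ↔ y ∈ {z | F.f z ≤ i} := by
    intro i y
    simp only [Set.mem_ofPred_eq]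
    rw [hP.per, hη, add_zero]
  obtain ⟨z, hz⟩ := hU.lne j
  have hzK : z ∉ K := fun h => (hKs h).2 (Or.inl hz)
  obtain ⟨p, hp, y, hy, -, hpy⟩ := cexit (K := K) (a := x) Relation.ReflTransGen.refl hzK
    (hP.fine.pl.conn x trivial z trivial)
  have hyS : y ∉ F.St j := fun h => hy (ctrans hp (cstep (hKs hp) h hpy))
  rcases hU.bd j p (hKs hp).1 y hpy with h | h
  · have hyL : y ∈ F.L j := by
      by_contra h1
      by_cases h2 : y ∈ F.U (j + 1)
      · by_cases h3 : p ∈ F.U (j + 1)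
        · exact (hKs hp).2 (Or.inr h3)
        · exact (hKs hp).2 (Or.inl ⟨⟨y, h2, hpy⟩, h3⟩)
      · exact hyS ⟨h, fun h4 => h4.elim h1 h2⟩
    have hfy := hU.lf j y hyL
    refine hBri J F.Γ hP.fine g hg0 K (F.U (j + 1)) {z | F.f z ≤ j - 1} {y} hKc (hU.conn _)
      (hU.low _) ?_ ?_ ?_ hKp (hUp _) (hlow _) (Set.finite_singleton y) (isConn_single y)
      ?_ ?_ ?_ ⟨y, rfl, p, hp, hpy.symm⟩ ?_ ⟨y, rfl, F.an y, ?_, hP.aa y⟩
    · exact Set.disjoint_left.2 fun v hv hv' => (hKs hv).2 (Or.inr hv')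
    · refine Set.disjoint_left.2 fun v hv hv' => ?_
      have := (hht v (hKs hv)).1
      simp only [Set.mem_ofPred_eq] at hv'
      omega
    · refine Set.disjoint_left.2 fun v hv hv' => ?_
      have := hU.ge _ v hv
      simp only [Set.mem_ofPred_eq] at hv'
      omega
    · exact Set.disjoint_singleton_left.2 hy
    · exact Set.disjoint_singleton_left.2 hyL.2
    · refine Set.disjoint_singleton_left.2 ?_
      simp only [Set.mem_ofPred_eq]
      omega
    · obtain ⟨v, hv, hyv⟩ := hyL.1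
      exact ⟨y, rfl, v, hv, hyv⟩
    · have := hP.af y
      simp only [Set.mem_ofPred_eq]
      omega
  · have haz : F.an z ∈ F.L (j - 1) := hU.lan j z (hU.lu j hz) (hU.lf j z hz)
    obtain ⟨P, hP1, hP2, hP3, hP4, hP5⟩ := fin_supp h (line_conn hF (j - 1) y h _ haz)
    have hPf : ∀ v ∈ P, F.f v = j - 1 := fun v hv => hU.lf _ v (hP1 hv)
    have hA : ∀ v ∈ F.U (j + 1) ∪ F.L j, j ≤ F.f v := by
      rintro v (hv | hv)
      · have := hU.ge _ v hv
        omega
      · exact (hU.lf j v hv).ge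
    refine hBri J F.Γ hP.fine g hg0 K (F.U (j + 1) ∪ F.L j) {z | F.f z ≤ j - 2} P hKc
      (isConn_nb (hU.conn _) fun v hv => hv.1) (hU.low _) ?_ ?_ ?_ hKp ?_ (hlow _) hP2 hP3
      ?_ ?_ ?_ ⟨y, hP4, p, hp, hpy.symm⟩ ⟨_, hP5, z, Or.inr hz, (hP.aa z).symm⟩
      ⟨y, hP4, F.an y, ?_, hP.aa y⟩
    · exact Set.disjoint_left.2 fun v hv hv' => (hKs hv).2 hv'.symm
    · refine Set.disjoint_left.2 fun v hv hv' => ?_
      have := (hht v (hKs hv)).1
      simp only [Set.mem_ofPred_eq] at hv'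
      omega
    · refine Set.disjoint_left.2 fun v hv hv' => ?_
      have := hA v hv
      simp only [Set.mem_ofPred_eq] at hv'
      omega
    · intro v
      exact or_congr (hUp _ v) (hLp _ v)
    · refine Set.disjoint_left.2 fun v hv hv' => ?_
      have := (hht v (hKs hv')).1
      have := hPf v hv
      omega
    · refine Set.disjoint_left.2 fun v hv hv' => ?_
      have := hA v hv'
      have := hPf v hv
      omega
    · refine Set.disjoint_left.2 fun v hv hv' => ?_
      have := hPf v hv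
      simp only [Set.mem_ofPred_eq] at hv'
      omega
    · have := hP.af y
      have := hPf y hP4
      simp only [Set.mem_ofPred_eq]
      omega

end Pool.Agent.P.MP_08fd93_co.OV
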