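import Pool.Agent.P.MP_08fd93_co.OV.St2

/-! Package SI of project OV: facts about the static cells. -/

set_option autoImplicit false

namespace Pool.Agent.P.MP_08fd93_co.OV

namespace PkSIP

variable {J : Type} {F : FD J}

theorem lf (h : Frm F) {j : ℤ} {x : Vx J} (hx : x ∈ F.L j) : F.f x = j := h.uf.lf j x hx

theorem anL (h : Frm F) {j : ℤ} {x : Vx J} (hx : x ∈ F.L j) : F.an x ∈ F.L (j - 1) :=
  h.uf.lan j x (h.uf.lu j hx) (lf h hx)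

theorem lL (h : Frm F) (j i : ℤ) : F.l j i ∈ F.L j := (h.mem j _).2 ⟨i, rfl⟩

theorem eq_l (h : Frm F) {j : ℤ} {x : Vx J} (hx : x ∈ F.L j) : x = F.l j (F.ρ x) := by
  obtain ⟨i, rfl⟩ := (h.mem j x).1 hx
  rw [h.rho]

theorem rho_inj (h : Frm F) {j : ℤ} {x y : Vx J} (hx : x ∈ F.L j) (hy : y ∈ F.L j)
    (e : F.ρ x = F.ρ y) : x = y := by
  rw [eq_l h hx, eq_l h hy, e]

/-- The component of `v` in the strip. -/
def Cp (F : FD J) (j : ℤ) (v : Vx J) : Set (Vx J) := {y | v ∈ F.St j ∧ Conn F.Γ (F.St j) v y}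

theorem cp_sub {j : ℤ} {v : Vx J} : Cp F j v ⊆ F.St j := by
  rintro y ⟨hv, hc⟩
  induction hc with
  | refl => exact hv
  | tail _ h2 _ => exact h2.2.1

theorem cp_step {j : ℤ} {v y z : Vx J} (hy : y ∈ Cp F j v) (hz : z ∈ F.St j)
    (a : F.Γ.Adj y z) : z ∈ Cp F j v := ⟨hy.1, hy.2.tail ⟨cp_sub hy, hz, a⟩⟩

theorem conn_symm {W : Type} {H : SimpleGraph W} {A : Set W} {a b : W} (h : Conn H A a b) :
    Conn H A b a := by
  induction h with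
  | refl => exact .refl
  | tail _ h2 ih => exact .head ⟨h2.2.1, h2.1, h2.2.2.symm⟩ ih

theorem cp_conn {j : ℤ} {v : Vx J} : IsConn F.Γ (Cp F j v) := by
  have key : ∀ y, y ∈ Cp F j v → Conn F.Γ (Cp F j v) v y := by
    rintro y ⟨hv, hc⟩
    induction hc with
    | refl => exact .refl
    | tail h1 h2 ih => exact ih.tail ⟨⟨hv, h1⟩, ⟨hv, h1.tail h2⟩, h2.2.2⟩
  intro a ha b hb
  exact (conn_symm (key a ha)).trans (key b hb)

theorem att (h : Frm F) {j : ℤ} {y z : Vx J} (hy : y ∈ F.St j) (a : F.Γ.Adj y z) :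
    z ∈ F.St j ∨ z ∈ F.L (j - 1) ∨ z ∈ F.L j := by
  rcases h.uf.bd j y hy.1 z a with h1 | h1
  · by_cases h2 : z ∈ F.L j
    · exact Or.inr (Or.inr h2)
    · refine Or.inl ⟨h1, ?_⟩
      rintro (h3 | h3)
      · exact h2 h3
      · by_cases h4 : y ∈ UU F.Γ F.f (j + 1)
        · exact hy.2 (Or.inr h4)
        · exact hy.2 (Or.inl ⟨⟨z, h3, a⟩, h4⟩)
  · exact Or.inr (Or.inl h1)

/-- Left of the rung at `s`. -/
def Lt (F : FD J) (j : ℤ) (s x : Vx J) : Prop :=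
  (x ∈ F.L (j - 1) ∧ F.ρ x < F.ρ (F.an s)) ∨ (x ∈ F.L j ∧ F.ρ x < F.ρ s)

/-- Right of the rung at `s`. -/
def Gt (F : FD J) (j : ℤ) (s x : Vx J) : Prop :=
  (x ∈ F.L (j - 1) ∧ F.ρ (F.an s) < F.ρ x) ∨ (x ∈ F.L j ∧ F.ρ s < F.ρ x)

theorem nc (hN : S_NC) (h : Frm F) {j : ℤ} {s : Vx J} (hs : s ∈ F.L j) {E : Set (Vx J)}
    (hE : E ⊆ F.St j) (hc : IsConn F.Γ E) {x y : Vx J} (hx : Lt F j s x) (hy : Gt F j s y) :
    ¬ F.Γ.Adj x y ∧ ¬ (x ∈ Nb F.Γ E ∧ y ∈ Nb F.Γ E) :=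
  hN J F h j _ (anL h hs) s hs (h.pot.aa s).symm E hE hc x y hx hy

theorem mid (h : Frm F) {j : ℤ} {s s' z : Vx J} (hs : s ∈ F.L j)
    (hz : z ∈ F.L (j - 1) ∨ z ∈ F.L j) (h1 : ¬ Lt F j s z) (h2 : ¬ Gt F j s' z) :
    z ∈ F.Bot s s' ∨ z ∈ F.Top s s' := by
  unfold Lt at h1
  unfold Gt at h2
  unfold FD.Bot FD.Top
  rw [lf h hs]
  push Not at h1 h2
  rcases hz with hz | hz
  · exact Or.inl ⟨hz, h1.1 hz, h2.1 hz⟩
  · exact Or.inr ⟨hz, h1.2 hz, h2.2 hz⟩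

theorem mono (hN : S_NC) (h : Frm F) (j : ℤ) (s : Vx J) (hs : s ∈ F.L j) (t : Vx J)
    (ht : t ∈ F.L j) (hst : F.ρ s ≤ F.ρ t) : F.ρ (F.an s) ≤ F.ρ (F.an t) := by
  by_contra hc
  push Not at hc
  rcases hst.eq_or_lt with e | e
  · rw [rho_inj h hs ht e] at hc
    exact lt_irrefl _ hc
  · exact (nc hN h hs (E := ∅) (by simp) (by intro a ha; exact ha.elim)
      (Or.inl ⟨anL h ht, hc⟩) (Or.inr ⟨ht, e⟩)).1 (h.pot.aa t).symm

theorem shift (h : Frm F) (j i : ℤ) :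
    F.ρ (F.an (F.l j (i + F.nn j))) = F.ρ (F.an (F.l j i)) + F.nn (j - 1) := by
  rw [← h.lw, h.pot.atr, eq_l h (anL h (lL h j i)), h.lw, h.rho, h.rho]

theorem shiftN (h : Frm F) (j i : ℤ) (k : ℕ) :
    F.ρ (F.an (F.l j (i + k * F.nn j))) = F.ρ (F.an (F.l j i)) + k * F.nn (j - 1) := by
  induction k with
  | zero => simp
  | succ k ih =>
    have := shift h j (i + k * F.nn j)
    rw [ih] at this
    push_cast
    rw [show i + ((k : ℤ) + 1) * F.nn j = i + k * F.nn j + F.nn j by ring, this]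
    ring

theorem far_hi (h : Frm F) (j m : ℤ) : ∃ i, m < i ∧ m < F.ρ (F.an (F.l j i)) := by
  obtain ⟨k, hk⟩ : ∃ k : ℕ, m < k ∧ m - F.ρ (F.an (F.l j 0)) < k :=
    ⟨m.natAbs + (m - F.ρ (F.an (F.l j 0))).natAbs + 1, by omega, by omega⟩
  refine ⟨0 + k * F.nn j, ?_, ?_⟩
  · nlinarith [h.n2 j, (Nat.cast_nonneg k : (0 : ℤ) ≤ k)]
  · rw [shiftN h]
    nlinarith [h.n2 (j - 1), (Nat.cast_nonneg k : (0 : ℤ) ≤ k)]

theorem far_lo (h : Frm F) (j m : ℤ) : ∃ i, i < m ∧ F.ρ (F.an (F.l j i)) < m := by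
  obtain ⟨k, hk⟩ : ∃ k : ℕ, -m < k ∧ F.ρ (F.an (F.l j 0)) - m < k :=
    ⟨m.natAbs + (F.ρ (F.an (F.l j 0)) - m).natAbs + 1, by omega, by omega⟩
  refine ⟨-(k * F.nn j), ?_, ?_⟩
  · nlinarith [h.n2 j, (Nat.cast_nonneg k : (0 : ℤ) ≤ k)]
  · have := shiftN h j (-(k * F.nn j)) k
    rw [neg_add_cancel] at this
    nlinarith [h.n2 (j - 1), (Nat.cast_nonneg k : (0 : ℤ) ≤ k)]

theorem memSI (h : Frm F) {j : ℤ} {s s' v : Vx J} (hs : s ∈ F.L j) (hv : v ∈ F.St j)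
    (H : ∀ z, z ∈ Nb F.Γ (Cp F j v) → ¬ Lt F j s z ∧ ¬ Gt F j s' z) : v ∈ F.SI s s' := by
  unfold FD.SI
  rw [lf h hs]
  refine ⟨hv, fun y z hy a => ?_⟩
  rcases att h (cp_sub (F := F) ⟨hv, hy⟩) a with h1 | h1
  · exact Or.inl h1
  · have := H z ⟨y, ⟨hv, hy⟩, a.symm⟩
    exact Or.inr (mid h hs h1 this.1 this.2)

theorem ex (hN : S_NC) (hS : S_Sf) (h : Frm F) (j : ℤ) (v : Vx J) (hv : v ∈ F.St j) :
    ∃ s ∈ F.L j, v ∈ F.SI s (F.nx s) := by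
  classical
  have hfin : (Nb F.Γ (Cp F j v)).Finite := by
    have := (hS J F h j _ (cp_sub (v := v)) cp_conn).biUnion
      (t := fun b => {y | F.Γ.Adj b y}) (fun b _ => h.pot.fine.lf b)
    refine this.subset ?_
    rintro x ⟨b, hb, a⟩
    exact Set.mem_biUnion hb a.symm
  obtain ⟨m, hm⟩ := (hfin.image F.ρ).bddBelow
  obtain ⟨M, hM⟩ := (hfin.image F.ρ).bddAbove
  obtain ⟨i0, h0, h0'⟩ := far_lo h j m
  obtain ⟨i1, h1, h1'⟩ := far_hi h j (max M i0)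
  have hx : ∀ i, F.nx (F.l j i) = F.l j (i + 1) := by
    intro i
    unfold FD.nx
    rw [lf h (lL h j i), h.rho]
  obtain ⟨i, ⟨hi1, hi2⟩, hi3⟩ := Int.exists_greatest_of_bdd
    (P := fun i => (∀ z ∈ Nb F.Γ (Cp F j v), ¬ Lt F j (F.l j i) z) ∧ i < i1)
    ⟨i1, fun z hz => hz.2.le⟩
    ⟨i0, by
      intro z hz
      have := hm ⟨z, hz, rfl⟩
      rintro (h2 | h2)
      · omega
      · have := h2.2
        rw [h.rho] at this
        omega, by omega⟩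
  refine ⟨F.l j i, lL h j i, memSI h (lL h j i) hv fun z hz => ⟨hi1 z hz, ?_⟩⟩
  rw [hx]
  intro hg
  by_cases e : i + 1 < i1
  · by_cases h3 : ∀ z ∈ Nb F.Γ (Cp F j v), ¬ Lt F j (F.l j (i + 1)) z
    · have := hi3 (i + 1) ⟨h3, e⟩
      omega
    · push Not at h3
      obtain ⟨x, hx1, hx2⟩ := h3
      exact (nc hN h (lL h j (i + 1)) cp_sub cp_conn hx2 hg).2 ⟨hx1, hz⟩
  · have e' : i + 1 = i1 := by omega
    have := hM ⟨z, hz, rfl⟩
    rw [e'] at hg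
    rcases hg with h2 | h2
    · omega
    · have := h2.2
      rw [h.rho] at this
      omega

theorem nb_SI (h : Frm F) {j : ℤ} {s s' v : Vx J} (hs : s ∈ F.L j) (hv : v ∈ F.SI s s') :
    v ∈ F.St j ∧ ∀ z ∈ Nb F.Γ (Cp F j v), z ∈ Cp F j v ∨ z ∈ F.Bot s s' ∨ z ∈ F.Top s s' := by
  unfold FD.SI at hv
  rw [lf h hs] at hv
  refine ⟨hv.1, ?_⟩
  rintro z ⟨y, hy, a⟩
  rcases hv.2 y z hy.2 a.symm with h1 | h1
  · exact Or.inl (cp_step hy h1 a.symm)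
  · exact Or.inr h1

theorem dis (hN : S_NC) (hS : S_Sf) (h : Frm F) (j : ℤ) (s : Vx J) (hs : s ∈ F.L j)
    (s' : Vx J) (hs' : s' ∈ F.L j) (t : Vx J) (ht : t ∈ F.L j) (t' : Vx J)
    (hst : F.ρ s' ≤ F.ρ t) : Disjoint (F.SI s s') (F.SI t t') := by
  rw [Set.disjoint_left]
  intro v h1 h2
  obtain ⟨hv, h1⟩ := nb_SI h hs h1
  obtain ⟨-, h2⟩ := nb_SI h ht h2
  refine h.nj (Cp F j v) (Set.subset_univ _) (hS J F h j _ cp_sub cp_conn) ⟨v, hv, .refl⟩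
    t (F.an t) (Or.inr (h.pot.aa t)) ?_
  intro z hz
  have hm := mono hN h j s' hs' t ht hst
  have e1 := h1 z hz
  have e2 := h2 z hz
  unfold FD.Bot FD.Top at e1 e2
  rw [lf h hs] at e1
  rw [lf h ht] at e2
  rcases e1 with e1 | e1 | e1
  · exact Or.inl e1
  · rcases e2 with e2 | e2 | e2
    · exact Or.inl e2
    · exact Or.inr (Or.inr (rho_inj h e1.1 (anL h ht) (by have := e1.2.2; have := e2.2.1; omega)))
    · have := lf h e1.1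
      have := lf h e2.1
      omega
  · rcases e2 with e2 | e2 | e2
    · exact Or.inl e2
    · have := lf h e1.1
      have := lf h e2.1
      omega
    · exact Or.inr (Or.inl (rho_inj h e1.1 ht (by have := e1.2.2; have := e2.2.1; omega)))

theorem seg_fin (h : Frm F) (j a b : ℤ) : {z | z ∈ F.L j ∧ a ≤ F.ρ z ∧ F.ρ z ≤ b}.Finite := by
  refine ((Set.finite_Icc a b).image (F.l j)).subset ?_
  rintro z ⟨h1, h2⟩
  exact ⟨F.ρ z, h2, (eq_l h h1).symm⟩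

theorem fin (hS : S_Sf) (h : Frm F) (j : ℤ) (s : Vx J) (hs : s ∈ F.L j) (s' : Vx J) :
    (F.SI s s').Finite := by
  have h1 : (F.Bot s s' ∪ F.Top s s').Finite := (seg_fin h _ _ _).union (seg_fin h _ _ _)
  have h2 := h1.biUnion (t := fun b => {y | F.Γ.Adj b y}) (fun b _ => h.pot.fine.lf b)
  have h3 := h2.biUnion (t := fun y => Cp F j y) (fun y _ => hS J F h j _ cp_sub cp_conn)
  refine h3.subset ?_
  intro v hv
  obtain ⟨hv, h4⟩ := nb_SI h hs hv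
  have h5 := h.nj (Cp F j v) (Set.subset_univ _) (hS J F h j _ cp_sub cp_conn) ⟨v, hv, .refl⟩
    v v (Or.inl rfl)
  rw [Set.not_subset] at h5
  obtain ⟨z, hz, hz'⟩ := h5
  rcases h4 z hz with h6 | h6
  · exact (hz' (Or.inl h6)).elim
  · obtain ⟨y, hy, a⟩ := hz
    exact Set.mem_biUnion (Set.mem_biUnion (x := z) h6 a) ⟨cp_sub hy, conn_symm hy.2⟩

theorem sub (hN : S_NC) (h : Frm F) (j : ℤ) (s : Vx J) (hs : s ∈ F.L j)
    (s' : Vx J) (hs' : s' ∈ F.L j) (t : Vx J) (ht : t ∈ F.L j) (t' : Vx J) (ht' : t' ∈ F.L j)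
    (h1 : F.ρ s ≤ F.ρ t) (h2 : F.ρ t' ≤ F.ρ s') : F.SI t t' ⊆ F.SI s s' := by
  intro v hv
  have m1 := mono hN h j s hs t ht h1
  have m2 := mono hN h j t' ht' s' hs' h2
  unfold FD.SI FD.Bot FD.Top at hv ⊢
  rw [lf h ht] at hv
  rw [lf h hs]
  refine ⟨hv.1, fun y z hy a => ?_⟩
  rcases hv.2 y z hy a with e | e | e
  · exact Or.inl e
  · exact Or.inr (Or.inl ⟨e.1, m1.trans e.2.1, e.2.2.trans m2⟩)
  · exact Or.inr (Or.inr ⟨e.1, h1.trans e.2.1, e.2.2.trans h2⟩)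

theorem inner (hN : S_NC) (h : Frm F) {j : ℤ} {s s' x z : Vx J} (hs : s ∈ F.L j)
    (hs' : s' ∈ F.L j) (h1 : Gt F j s x) (h2 : Lt F j s' x) (a : F.Γ.Adj x z) :
    (z ∈ F.St j → z ∈ F.SI s s') ∧
      (z ∈ F.L (j - 1) ∨ z ∈ F.L j → z ∈ F.Bot s s' ∨ z ∈ F.Top s s') := by
  refine ⟨fun hz => memSI h hs hz fun y hy => ⟨fun e => ?_, fun e => ?_⟩, fun hz => ?_⟩
  · exact (nc hN h hs cp_sub cp_conn e h1).2 ⟨hy, z, ⟨hz, .refl⟩, a⟩
  · exact (nc hN h hs' cp_sub cp_conn h2 e).2 ⟨⟨z, ⟨hz, .refl⟩, a⟩, hy⟩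
  · have hc : IsConn F.Γ (∅ : Set (Vx J)) := by intro a ha; exact ha.elim
    exact mid h hs hz (fun e => (nc hN h hs (by simp) hc e h1).1 a.symm)
      (fun e => (nc hN h hs' (by simp) hc h2 e).1 a)

end PkSIP

open PkSIP in
theorem pk_SI : S_SI := by
  intro hN hS J F h
  refine ⟨mono hN h, ex hN hS h, fun j s hs s' hs' t ht t' _ => dis hN hS h j s hs s' hs' t ht t',
    fun j s hs s' _ => fin hS h j s hs s', sub hN h, ?_, ?_⟩
  · intro j s hs s' hs' x hx h1 h2 z a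
    have := inner hN h hs hs' (Or.inr ⟨hx, h1⟩) (Or.inr ⟨hx, h2⟩) a
    refine ⟨this.1, fun hz => (this.2 (Or.inl hz)).resolve_right fun e => ?_⟩
    have h3 := lf h e.1
    have h4 := lf h hz
    have h5 := lf h hs
    omega
  · intro j s hs s' hs' x hx h1 h2 z a
    have := inner hN h hs hs' (Or.inl ⟨hx, h1⟩) (Or.inl ⟨hx, h2⟩) a
    refine ⟨this.1, fun hz => (this.2 (Or.inr hz)).resolve_left fun e => ?_⟩
    have h3 := lf h e.1
    have h4 := lf h hz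
    have h5 := lf h hs
    omega

end Pool.Agent.P.MP_08fd93_co.OV
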