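import Pool.Agent.P.MP_08fd93_co.OV.PkPhi

/-! Package Sel of project OV: choice of the free edges. -/

set_option autoImplicit false

namespace Pool.Agent.P.MP_08fd93_co.OV

open PkPhiP in
theorem pk_Sel : S_Sel := by
  intro J F φ m h hφ hb
  obtain ⟨b, hb0, hbd⟩ := h.pot.gen
  set k0 := F.f (m, 0) + 1 with hk0
  obtain ⟨y0, hy0, N, hN⟩ := hb k0
  let g : ℕ → Vx J := fun t => (fun y => F.nx (φ y))^[t] y0
  have gs : ∀ t, g (t + 1) = F.nx (φ (g t)) := by
    intro t
    simp only [g, Function.iterate_succ_apply']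
  have gm : ∀ t : ℕ, g t ∈ F.L (k0 + t) := by
    intro t
    induction t with
    | zero => simpa [g] using hy0
    | succ t ih =>
      rw [gs]
      have := nx_mem h (phi_mem h hφ ih)
      push_cast
      rwa [add_assoc] at this
  have ftr : ∀ (a : ℤ × ℤ) (t : ℕ), F.f (tr a (g t)) = k0 + t + F.η a := by
    intro a t
    rw [h.pot.per, f_of h (gm t)]
  refine ⟨{x | ∃ t : ℕ, (t : ℤ) < F.η b ∧ ∃ a, x = tr a (g t)}, y0.1, ?_, ?_, ?_, ?_, ?_, ?_⟩
  · intro e
    have h1 : y0 = tr y0.2 (m, 0) := by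
      rw [← e]; simp [tr]
    have h2 := f_of h hy0
    rw [h1, h.pot.per] at h2
    obtain ⟨r, hr⟩ := h.pot.ev y0.2
    omega
  · rintro x ⟨t, -, a, rfl⟩
    exact tr_la h a (la_of h (gm t))
  · rintro a x ⟨t, ht, a', rfl⟩
    exact ⟨t, ht, a' + a, tr_tr _ _ _⟩
  · intro j
    have hq0 : 0 ≤ (j - k0) % F.η b := Int.emod_nonneg _ (by omega)
    have hq1 : (j - k0) % F.η b < F.η b := Int.emod_lt_of_pos _ hb0
    have hq2 := Int.emod_add_mul_ediv (j - k0) (F.η b)
    obtain ⟨t, ht⟩ := Int.eq_ofNat_of_zero_le hq0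
    set m' := (j - k0) / F.η b with hm'
    have he : F.η (m' • b) = F.η b * m' := by
      rw [map_zsmul, smul_eq_mul, mul_comm]
    have hx0 : tr (m' • b) (g t) ∈ F.L j := by
      have := tr_mem h (m' • b) (gm t)
      have e : k0 + t + F.η (m' • b) = j := by rw [he]; omega
      rwa [e] at this
    refine ⟨F.ρ (tr (m' • b) (g t)), fun i => ⟨?_, ?_⟩⟩
    · rintro ⟨t', ht', a, e⟩
      have h1 := ftr a t'
      rw [← e, f_of h (l_mem h j i)] at h1
      obtain ⟨r, hr⟩ := hbd a
      have h2 : (t' : ℤ) = t := by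
        have h3 : (j - k0) % F.η b = (t' : ℤ) % F.η b := by
          have : j - k0 = t' + F.η b * r := by omega
          rw [this, Int.add_mul_emod_self_left]
        rw [Int.emod_eq_of_lt (by omega) ht'] at h3
        omega
      have h3 : t' = t := by exact_mod_cast h2
      subst h3
      have h4 : F.η (a - m' • b) = 0 := by
        rw [map_sub, he]; omega
      obtain ⟨r', hr'⟩ := (h.pot.ker _).1 h4
      have h5 : F.l j i = tr (r' • F.w) (tr (m' • b) (g t')) := by
        rw [e, tr_tr, ← hr']; simp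
      have h6 := rho_lw h r' hx0
      rw [← h5, h.rho] at h6
      exact ⟨r', by rw [h6]; ring⟩
    · rintro ⟨r, hr⟩
      refine ⟨t, by omega, m' • b + r • F.w, ?_⟩
      rw [← tr_tr]
      have h1 := lw_smul h j r (F.ρ (tr (m' • b) (g t)))
      rw [eq_l h hx0] at h1
      rw [h1]
      congr 1
      rw [mul_comm r, ← hr]; ring
  · refine ⟨N, fun y hy => ?_⟩
    obtain ⟨t, ht, a, e⟩ := hN y hy
    exact ⟨t, ht, 0, by simpa using hb0, a, by simpa [g] using e⟩
  · rintro y ⟨t, ht, a, rfl⟩ ⟨t', ht', a', e⟩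
    have hz := phi_mem h hφ (gm t)
    rw [hφ.eqv a _ (la_of h (gm t))] at e ⊢
    cases t' with
    | zero => rw [e]; simp [g, tr]
    | succ t' =>
      exfalso
      have h1 := ftr a' (t' + 1)
      rw [← e, h.pot.per, f_of h hz] at h1
      obtain ⟨r, hr⟩ := hbd (a' - a)
      rw [map_sub] at hr
      push_cast at h1 ht'
      have h2 : (t : ℤ) - t' = F.η b * r := by omega
      have h3 : r = 0 := by
        by_contra hne
        rcases lt_or_gt_of_ne hne with h4 | h4
        · have : F.η b * r ≤ F.η b * (-1) := by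
            apply Int.mul_le_mul_of_nonneg_left <;> omega
          omega
        · have : F.η b * 1 ≤ F.η b * r := by
            apply Int.mul_le_mul_of_nonneg_left <;> omega
          omega
      rw [h3, mul_zero] at h2 hr
      have h4 : t' = t := by omega
      subst h4
      have h5 : F.η (a - a') = 0 := by rw [map_sub]; omega
      obtain ⟨r', hr'⟩ := (h.pot.ker _).1 h5
      rw [gs] at e
      have h6 : tr (r' • F.w) (φ (g t')) = F.nx (φ (g t')) := by
        apply tr_inj a'
        rw [← e, tr_tr, ← hr']; simp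
      have h7 := rho_lw h r' hz
      rw [h6, rho_nx h] at h7
      have h8 := h.n2 (k0 + t' + 1)
      have h9 : F.nn (k0 + t' + 1) ∣ 1 := ⟨r', by rw [mul_comm]; omega⟩
      have := Int.le_of_dvd (by norm_num) h9
      omega

end Pool.Agent.P.MP_08fd93_co.OV
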