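import Pool.Agent.P.MP_08fd93_co.OV.St2

/-! Package Self of project OV: a periodic connected set meets its translate. -/

set_option autoImplicit false

namespace Pool.Agent.P.MP_08fd93_co.OV

namespace PkSelfP

variable {W : Type} {H : SimpleGraph W}

theorem c_mono {S T : Set W} (h : S ⊆ T) {x y : W} (c : Conn H S x y) : Conn H T x y := by
  induction c with
  | refl => exact Relation.ReflTransGen.refl
  | tail _ e ih => exact ih.tail ⟨h e.1, h e.2.1, e.2.2⟩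

theorem c_symm {S : Set W} {x y : W} (c : Conn H S x y) : Conn H S y x := by
  induction c with
  | refl => exact Relation.ReflTransGen.refl
  | tail _ e ih => exact Relation.ReflTransGen.head ⟨e.2.1, e.1, e.2.2.symm⟩ ih

theorem c_in {S T : Set W} {x y : W} (c : Conn H S x y) (hx : x ∈ T)
    (hT : ∀ u v, u ∈ T → v ∈ S → H.Adj u v → v ∈ T) : Conn H T x y ∧ y ∈ T := by
  induction c with
  | refl => exact ⟨Relation.ReflTransGen.refl, hx⟩
  | tail _ e ih =>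
    have := hT _ _ ih.2 e.2.1 e.2.2
    exact ⟨ih.1.tail ⟨ih.2, this, e.2.2⟩, this⟩

theorem i_union {P Q : Set W} (hP : IsConn H P) (hQ : IsConn H Q) {z : W} (h1 : z ∈ P)
    (h2 : z ∈ Q) : IsConn H (P ∪ Q) := by
  have key : ∀ a ∈ P ∪ Q, Conn H (P ∪ Q) a z := by
    rintro a (ha | ha)
    · exact c_mono Set.subset_union_left (hP a ha z h1)
    · exact c_mono Set.subset_union_right (hQ a ha z h2)
  intro a ha b hb
  exact (key a ha).trans (c_symm (key b hb))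

theorem i_single (x : W) : IsConn H {x} := by
  rintro a rfl b rfl
  exact Relation.ReflTransGen.refl

theorem i_insert {P : Set W} (hP : IsConn H P) {x c : W} (hc : c ∈ P) (e : H.Adj x c) :
    IsConn H (insert x P) := by
  have key : ∀ a ∈ insert x P, Conn H (insert x P) a c := by
    rintro a (rfl | ha)
    · exact Relation.ReflTransGen.single ⟨Or.inl rfl, Or.inr hc, e⟩
    · exact c_mono (Set.subset_insert _ _) (hP a ha c hc)
  intro a ha b hb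
  exact (key a ha).trans (c_symm (key b hb))

/-- The part of a walk before its first vertex in `A`. -/
theorem hit {S A : Set W} {x t : W} (c : Conn H S x t) (ht : t ∈ A) (hx : x ∉ A) :
    ∃ P : Set W, P.Finite ∧ IsConn H P ∧ x ∈ P ∧ P ⊆ S ∧ Disjoint P A ∧ Touch H P A := by
  induction c using Relation.ReflTransGen.head_induction_on with
  | refl => exact absurd ht hx
  | @head a b e _ ih =>
    by_cases hb : b ∈ A
    · refine ⟨{a}, Set.finite_singleton _, i_single a, rfl, ?_, ?_, a, rfl, b, hb, e.2.2⟩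
      · rintro z rfl; exact e.1
      · exact Set.disjoint_singleton_left.2 hx
    · obtain ⟨P, h1, h2, h3, h4, h5, u, hu, v, hv, huv⟩ := ih hb
      refine ⟨insert a P, h1.insert a, i_insert h2 h3 e.2.2, Or.inl rfl, ?_, ?_,
        u, Or.inr hu, v, hv, huv⟩
      · rintro z (rfl | hz)
        · exact e.1
        · exact h4 hz
      · exact Set.disjoint_insert_left.2 ⟨hx, h5⟩

/-- The vertices of a walk. -/
theorem seg {S : Set W} {x y : W} (c : Conn H S x y) (hx : x ∈ S) :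
    ∃ P : Set W, P.Finite ∧ IsConn H P ∧ x ∈ P ∧ y ∈ P ∧ P ⊆ S := by
  induction c with
  | refl => exact ⟨{x}, Set.finite_singleton _, i_single x, rfl, rfl, by rintro z rfl; exact hx⟩
  | @tail b c _ e ih =>
    obtain ⟨P, h1, h2, h3, h4, h5⟩ := ih
    refine ⟨insert c P, h1.insert c, i_insert h2 h4 e.2.2.symm, Or.inr h3, Or.inl rfl, ?_⟩
    rintro z (rfl | hz)
    · exact e.2.1
    · exact h5 hz

variable {J : Type} {Γ : SimpleGraph (Vx J)}

theorem tr_tr (a b : ℤ × ℤ) (x : Vx J) : tr a (tr b x) = tr (b + a) x := by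
  simp [tr, add_assoc]

theorem tr_zero (x : Vx J) : tr 0 x = x := by simp [tr]

theorem c_tr (hF : Fine Γ) (a : ℤ × ℤ) {S T : Set (Vx J)} (h : ∀ z ∈ S, tr a z ∈ T) {x y : Vx J}
    (c : Conn Γ S x y) : Conn Γ T (tr a x) (tr a y) := by
  induction c with
  | refl => exact Relation.ReflTransGen.refl
  | tail _ e ih => exact ih.tail ⟨h _ e.1, h _ e.2.1, hF.inv a _ _ e.2.2⟩

/-- The vertices joined outside `B` to a vertex of height at least `K`. -/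
def Up (Γ : SimpleGraph (Vx J)) (η : ℤ × ℤ →+ ℤ) (K : ℤ) (B : Set (Vx J)) : Set (Vx J) :=
  {x | x ∉ B ∧ ∃ y : Vx J, K ≤ η y.2 ∧ Conn Γ Bᶜ x y}

/-- Half planes are connected with margin `N`. -/
def HP (Γ : SimpleGraph (Vx J)) (η : ℤ × ℤ →+ ℤ) (N : ℤ) : Prop :=
  ∀ (h : ℤ) (x y : Vx J), h + N ≤ η x.2 → h + N ≤ η y.2 → Conn Γ {z | h ≤ η z.2} x y

theorem up_step {η : ℤ × ℤ →+ ℤ} {K : ℤ} {B : Set (Vx J)} (u v : Vx J) (hu : u ∈ Up Γ η K B)
    (hv : v ∈ Bᶜ) (e : Γ.Adj u v) : v ∈ Up Γ η K B := by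
  obtain ⟨h1, y, h2, h3⟩ := hu
  exact ⟨hv, y, h2, Relation.ReflTransGen.head ⟨hv, h1, e.symm⟩ h3⟩

theorem up_of {η : ℤ × ℤ →+ ℤ} {K : ℤ} {B : Set (Vx J)} {u v : Vx J} (hu : u ∈ Up Γ η K B)
    (c : Conn Γ Bᶜ u v) : v ∈ Up Γ η K B := (c_in c hu up_step).2

theorem up_conn {η : ℤ × ℤ →+ ℤ} {N M : ℤ} (hp : HP Γ η N) {B : Set (Vx J)}
    (hB : ∀ x ∈ B, η x.2 ≤ M) : IsConn Γ (Up Γ η (M + 1 + N) B) := by
  intro a ha b hb
  obtain ⟨y, h2, h3⟩ := ha.2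
  obtain ⟨y', h2', h3'⟩ := hb.2
  have h4 : Conn Γ Bᶜ y y' := by
    refine c_mono ?_ (hp (M + 1) y y' h2 h2')
    intro z hz hzB
    have := hB z hzB
    have h5 : M + 1 ≤ η z.2 := hz
    omega
  exact (c_in (h3.trans (h4.trans (c_symm h3'))) ha up_step).1

theorem up_tr (hF : Fine Γ) {η : ℤ × ℤ →+ ℤ} {K : ℤ} {B B' : Set (Vx J)} {a : ℤ × ℤ}
    (ha : η a = 0) (h : ∀ z, tr a z ∈ B' → z ∈ B) {x : Vx J} (hx : x ∈ Up Γ η K B) :
    tr a x ∈ Up Γ η K B' := by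
  obtain ⟨h1, y, h2, h3⟩ := hx
  refine ⟨fun hh => h1 (h _ hh), tr a y, ?_,
    c_tr hF a (S := Bᶜ) (T := B'ᶜ) (fun z hz hh => hz (h _ hh)) h3⟩
  simpa [tr, ha] using h2

theorem up_per (hF : Fine Γ) {η : ℤ × ℤ →+ ℤ} {K : ℤ} {B : Set (Vx J)} {g : ℤ × ℤ}
    (hg : η g = 0) (h : ∀ z, tr g z ∈ B ↔ z ∈ B) (x : Vx J) :
    tr g x ∈ Up Γ η K B ↔ x ∈ Up Γ η K B := by
  refine ⟨fun hx => ?_, up_tr hF hg (fun z => (h z).1)⟩
  have := up_tr hF (a := -g) (B := B) (B' := B) (by simp [hg]) (fun z hz => ?_) hx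
  · simpa [tr_tr, tr_zero] using this
  · have h2 := (h _).2 hz
    simpa [tr_tr, tr_zero] using h2

theorem high {η : ℤ × ℤ →+ ℤ} {b : ℤ × ℤ} (hb : 0 < η b) (x : Vx J) (K : ℤ) :
    ∃ y : Vx J, K ≤ η y.2 := by
  refine ⟨(x.1, (|K|) • b), ?_⟩
  simp only [map_zsmul, smul_eq_mul]
  have := le_abs_self K
  have := abs_nonneg K
  nlinarith

/-- A finite piece that reaches from a high point to a far upper half plane. -/
theorem reach {η : ℤ × ℤ →+ ℤ} {N M K : ℤ} (hp : HP Γ η N) (hN : 0 ≤ N) {b : ℤ × ℤ}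
    (hb : 0 < η b) {y : Vx J} (h1 : M + 1 + N ≤ η y.2) (h2 : η y.2 ≤ K) :
    ∃ P : Set (Vx J), P.Finite ∧ IsConn Γ P ∧ y ∈ P ∧ P ⊆ {z | M + 1 ≤ η z.2} ∧
      Disjoint P (Up Γ η (K + 1 + N) {z | η z.2 ≤ K}) ∧
      Touch Γ P (Up Γ η (K + 1 + N) {z | η z.2 ≤ K}) := by
  obtain ⟨t, ht⟩ := high hb y (K + 1 + N)
  refine hit (hp (M + 1) y t h1 (by omega)) ⟨?_, t, ht, Relation.ReflTransGen.refl⟩ ?_
  · intro hh
    have : η t.2 ≤ K := hh
    omega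
  · exact fun hh => hh.1 h2

/-- A periodic connected set separates top from bottom. -/
theorem up_dn (hBri : S_Bri) (hF : Fine Γ) {η : ℤ × ℤ →+ ℤ} {N M : ℤ} (hp : HP Γ η N)
    (hp' : HP Γ (-η) N) (hN : 0 ≤ N) {b : ℤ × ℤ} (hb : 0 < η b) {g : ℤ × ℤ} (hg0 : g ≠ 0)
    (hg : η g = 0) {B : Set (Vx J)} (hc : IsConn Γ B) (hne : B.Nonempty)
    (hper : ∀ z, tr g z ∈ B ↔ z ∈ B) (hB : ∀ x ∈ B, |η x.2| ≤ M) :
    Disjoint (Up Γ η (M + 1 + N) B) (Up Γ (-η) (M + 1 + N) B) := by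
  rw [Set.disjoint_left]
  rintro x ⟨hx, y, hy, cy⟩ ⟨-, y', hy', cy'⟩
  obtain ⟨b0, hb0⟩ := hne
  have hM : 0 ≤ M := (abs_nonneg _).trans (hB b0 hb0)
  obtain ⟨P0, f0, c0, x0, -, d0, t0⟩ := hit (hF.pl.conn x trivial b0 trivial) hb0 hx
  obtain ⟨P1, f1, c1, x1, y1, s1⟩ := seg cy hx
  obtain ⟨P2, f2, c2, x2, y2, s2⟩ := seg cy' hx
  obtain ⟨K, hK⟩ := (((f0.union f1).union f2).image (fun z : Vx J => |η z.2|)).bddAbove
  have hK' : ∀ z ∈ P0 ∪ P1 ∪ P2, |η z.2| ≤ K := fun z hz => hK ⟨z, hz, rfl⟩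
  have ky := abs_le.1 (hK' y (Or.inl (Or.inr y1)))
  have ky' := abs_le.1 (hK' y' (Or.inr y2))
  obtain ⟨P3, f3, c3, y3, s3, d3, t3⟩ := reach hp hN hb hy ky.2
  obtain ⟨P4, f4, c4, y4, s4, d4, t4⟩ := reach (K := K) hp' hN (b := -b) (by simpa using hb) hy'
    (by simp only [AddMonoidHom.neg_apply]; omega)
  have cA : IsConn Γ (P0 ∪ P1 ∪ P2) :=
    i_union (i_union c0 c1 x0 x1) c2 (Or.inl x0) x2
  have cB : IsConn Γ (P0 ∪ P1 ∪ P2 ∪ P3 ∪ P4) :=
    i_union (i_union cA c3 (Or.inl (Or.inr y1)) y3) c4 (Or.inl (Or.inr y2)) y4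
  have u1 : ∀ z ∈ Up Γ η (K + 1 + N) {z | η z.2 ≤ K}, K < η z.2 := fun z hz => not_le.1 hz.1
  have u2 : ∀ z ∈ Up Γ (-η) (K + 1 + N) {z | (-η) z.2 ≤ K}, η z.2 < -K := by
    intro z hz
    have : K < (-η) z.2 := not_le.1 hz.1
    simp only [AddMonoidHom.neg_apply] at this
    omega
  have v3 : ∀ z ∈ P3, M + 1 ≤ η z.2 := fun z hz => s3 hz
  have v4 : ∀ z ∈ P4, η z.2 ≤ -(M + 1) := by
    intro z hz
    have : M + 1 ≤ (-η) z.2 := s4 hz
    simp only [AddMonoidHom.neg_apply] at this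
    omega
  refine hBri J Γ hF g hg0 B (Up Γ η (K + 1 + N) {z | η z.2 ≤ K})
    (Up Γ (-η) (K + 1 + N) {z | (-η) z.2 ≤ K}) (P0 ∪ P1 ∪ P2 ∪ P3 ∪ P4) hc
    (up_conn hp (fun z hz => hz)) (up_conn hp' (fun z hz => hz)) ?_ ?_ ?_ hper
    (up_per hF hg (fun z => by simp [tr, hg])) (up_per hF (by simp [hg]) (fun z => by simp [tr, hg]))
    ((((f0.union f1).union f2).union f3).union f4) cB ?_ ?_ ?_ ?_ ?_ ?_
  · rw [Set.disjoint_left]
    intro z h1 h2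
    have := u1 z h2
    have := abs_le.1 (hB z h1)
    omega
  · rw [Set.disjoint_left]
    intro z h1 h2
    have := u2 z h2
    have := abs_le.1 (hB z h1)
    omega
  · rw [Set.disjoint_left]
    intro z h1 h2
    have := u1 z h1
    have := u2 z h2
    omega
  · rw [Set.disjoint_left]
    rintro z ((((h | h) | h) | h) | h) h2
    · exact Set.disjoint_left.1 d0 h h2
    · exact s1 h h2
    · exact s2 h h2
    · have := v3 z h
      have := abs_le.1 (hB z h2)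
      omega
    · have := v4 z h
      have := abs_le.1 (hB z h2)
      omega
  · rw [Set.disjoint_left]
    rintro z ((h | h) | h) h2
    · have := u1 z h2
      have := abs_le.1 (hK' z h)
      omega
    · exact Set.disjoint_left.1 d3 h h2
    · have := u1 z h2
      have := v4 z h
      omega
  · rw [Set.disjoint_left]
    rintro z ((h | h) | h) h2
    · have := u2 z h2
      have := abs_le.1 (hK' z h)
      omega
    · have := u2 z h2
      have := v3 z h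
      omega
    · exact Set.disjoint_left.1 d4 h h2
  · obtain ⟨u, hu, v, hv, e⟩ := t0
    exact ⟨u, Or.inl (Or.inl (Or.inl (Or.inl hu))), v, hv, e⟩
  · obtain ⟨u, hu, v, hv, e⟩ := t3
    exact ⟨u, Or.inl (Or.inr hu), v, hv, e⟩
  · obtain ⟨u, hu, v, hv, e⟩ := t4
    exact ⟨u, Or.inr hu, v, hv, e⟩

/-- A nonempty union of components of the complement of `A` touches `A`. -/
theorem touch (hF : Fine Γ) {A C : Set (Vx J)} {a x : Vx J} (ha : a ∈ A) (hx : x ∈ C)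
    (hxA : x ∉ A) (hC : ∀ u v, u ∈ C → v ∈ Aᶜ → Γ.Adj u v → v ∈ C) :
    ∃ v ∈ A, ∃ u ∈ C, Γ.Adj v u := by
  obtain ⟨P, -, c0, x0, -, d0, u, hu, v, hv, e⟩ := hit (hF.pl.conn x trivial a trivial) ha hxA
  have : Conn Γ Aᶜ x u := c_mono (fun z hz hA => Set.disjoint_left.1 d0 hz hA) (c0 x x0 u hu)
  exact ⟨v, hv, u, (c_in this hx hC).2, e.symm⟩

/-- A second periodic connected set lies above or below the first. -/
theorem side (hBri : S_Bri) (hF : Fine Γ) {η : ℤ × ℤ →+ ℤ} {N M : ℤ} (hp : HP Γ η N)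
    (hp' : HP Γ (-η) N) (hN : 0 ≤ N) {b : ℤ × ℤ} (hb : 0 < η b) {g : ℤ × ℤ} (hg0 : g ≠ 0)
    (hg : η g = 0) {A : Set (Vx J)} (hc : IsConn Γ A) (hne : A.Nonempty)
    (hper : ∀ z, tr g z ∈ A ↔ z ∈ A) (hA : ∀ x ∈ A, |η x.2| ≤ M)
    {A' : Set (Vx J)} (hc' : IsConn Γ A') {a' : Vx J} (ha' : a' ∈ A')
    (hper' : ∀ z, tr g z ∈ A' ↔ z ∈ A') (hd : ∀ z ∈ A', z ∉ A) :
    a' ∈ Up Γ η (M + 1 + N) A ∨ a' ∈ Up Γ (-η) (M + 1 + N) A := by
  by_contra hn
  rw [not_or] at hn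
  obtain ⟨a, ha⟩ := hne
  have hud := up_dn hBri hF hp hp' hN hb hg0 hg hc ⟨a, ha⟩ hper hA
  set C : Set (Vx J) := {z | z ∉ A ∧ Conn Γ Aᶜ a' z} with hC
  have hCs : ∀ u v, u ∈ C → v ∈ Aᶜ → Γ.Adj u v → v ∈ C :=
    fun u v hu hv e => ⟨hv, hu.2.tail ⟨hu.1, hv, e⟩⟩
  have haC : a' ∈ C := ⟨hd _ ha', Relation.ReflTransGen.refl⟩
  have hCc : IsConn Γ C := fun u hu v hv => (c_in ((c_symm hu.2).trans hv.2) hu hCs).1
  have hCt : ∀ e : ℤ × ℤ, (∀ z, tr e z ∈ A → z ∈ A) → tr e a' ∈ A' → ∀ z ∈ C, tr e z ∈ C := by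
    intro e h1 h2 z hz
    refine ⟨fun hh => hz.1 (h1 _ hh), ?_⟩
    exact (c_mono (fun z hz => hd z hz) (hc' _ ha' _ h2)).trans
      (c_tr hF e (S := Aᶜ) (T := Aᶜ) (fun z hz hh => hz (h1 _ hh)) hz.2)
  have hCp : ∀ z, tr g z ∈ C ↔ z ∈ C := by
    intro z
    refine ⟨fun hz => ?_, hCt g (fun z => (hper z).1) ((hper' _).2 ha') z⟩
    have := hCt (-g) (fun z hz => by simpa [tr_tr, tr_zero] using (hper _).2 hz)
      ((hper' _).1 (by simpa [tr_tr, tr_zero] using ha')) _ hz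
    simpa [tr_tr, tr_zero] using this
  obtain ⟨t, ht⟩ := high hb a (M + 1 + N)
  obtain ⟨t', ht'⟩ := high (η := -η) (b := -b) (by simpa using hb) a (M + 1 + N)
  have htA : t ∉ A := fun hh => by have := abs_le.1 (hA t hh); omega
  have htA' : t' ∉ A := fun hh => by
    have := abs_le.1 (hA t' hh)
    simp only [AddMonoidHom.neg_apply] at ht'
    omega
  obtain ⟨v1, hv1, u1, hu1, e1⟩ := touch hF (C := Up Γ η (M + 1 + N) A) ha
    ⟨htA, t, ht, Relation.ReflTransGen.refl⟩ htA up_step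
  obtain ⟨v2, hv2, u2, hu2, e2⟩ := touch hF (C := Up Γ (-η) (M + 1 + N) A) ha
    ⟨htA', t', ht', Relation.ReflTransGen.refl⟩ htA' up_step
  obtain ⟨v3, hv3, u3, hu3, e3⟩ := touch hF ha haC haC.1 hCs
  obtain ⟨P1, f1, c1, x1, y1, s1⟩ := seg (hc v1 hv1 v2 hv2) hv1
  obtain ⟨P2, f2, c2, x2, y2, s2⟩ := seg (hc v1 hv1 v3 hv3) hv1
  have hs : P1 ∪ P2 ⊆ A := Set.union_subset s1 s2
  refine hBri J Γ hF g hg0 (Up Γ η (M + 1 + N) A) (Up Γ (-η) (M + 1 + N) A) C (P1 ∪ P2)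
    (up_conn hp (fun z hz => (abs_le.1 (hA z hz)).2))
    (up_conn hp' (fun z hz => by
      have := abs_le.1 (hA z hz)
      simp only [AddMonoidHom.neg_apply]
      omega)) hCc hud ?_ ?_ (up_per hF hg hper) (up_per hF (by simp [hg]) hper) hCp
    (f1.union f2) (i_union c1 c2 x1 x2) ?_ ?_ ?_ ⟨v1, Or.inl x1, u1, hu1, e1⟩
    ⟨v2, Or.inl y1, u2, hu2, e2⟩ ⟨v3, Or.inr y2, u3, hu3, e3⟩
  · exact Set.disjoint_left.2 fun z h1 h2 => hn.1 (up_of h1 (c_symm h2.2))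
  · exact Set.disjoint_left.2 fun z h1 h2 => hn.2 (up_of h1 (c_symm h2.2))
  · exact Set.disjoint_left.2 fun z h1 h2 => h2.1 (hs h1)
  · exact Set.disjoint_left.2 fun z h1 h2 => h2.1 (hs h1)
  · exact Set.disjoint_left.2 fun z h1 h2 => h2.1 (hs h1)

/-- If the second set lies above the first, its upper part lies in the upper part of the first. -/
theorem nest (hF : Fine Γ) {η : ℤ × ℤ →+ ℤ} {K : ℤ} {A A' : Set (Vx J)} (hc : IsConn Γ A)
    (hd : ∀ z ∈ A', z ∉ A) {a t : Vx J} (ha : a ∈ A) (ht : K ≤ (-η) t.2) (htA : t ∉ A ∪ A')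
    (h1 : Disjoint (Up Γ η K A) (Up Γ (-η) K A)) (h2 : Disjoint (Up Γ η K A') (Up Γ (-η) K A'))
    (hu : A' ⊆ Up Γ η K A) : Up Γ η K A' ⊆ Up Γ η K A := by
  obtain ⟨P, -, c0, x0, -, d0, u, hu0, v, hv, e⟩ :=
    hit (A := A ∪ A') (hF.pl.conn t trivial a trivial) (Or.inl ha) htA
  have p1 : P ⊆ Aᶜ := fun z hz hA => Set.disjoint_left.1 d0 hz (Or.inl hA)
  have p2 : P ⊆ A'ᶜ := fun z hz hA => Set.disjoint_left.1 d0 hz (Or.inr hA)
  have q1 : u ∈ Up Γ (-η) K A := ⟨p1 hu0, t, ht, c_mono p1 (c0 u hu0 t x0)⟩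
  have q2 : u ∈ Up Γ (-η) K A' := ⟨p2 hu0, t, ht, c_mono p2 (c0 u hu0 t x0)⟩
  have hvA : v ∈ A := by
    rcases hv with hv | hv
    · exact hv
    · exact absurd (up_step u v q1 (hd v hv) e) (Set.disjoint_left.1 h1 (hu hv))
  have sA : A ⊆ A'ᶜ := fun z hz hh => hd z hh hz
  have q3 : v ∈ Up Γ (-η) K A' := up_step u v q2 (sA hvA) e
  have q4 : Up Γ η K A' ⊆ Aᶜ := fun z hz hA =>
    Set.disjoint_left.1 h2 hz (up_of q3 (c_mono sA (hc v hvA z hA)))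
  intro x hx
  obtain ⟨y, hy, cy⟩ := hx.2
  exact ⟨q4 hx, y, hy, c_mono q4 (c_in cy hx up_step).1⟩

/-- The translate cannot lie above the set. -/
theorem above (hBri : S_Bri) (hF : Fine Γ) {η : ℤ × ℤ →+ ℤ} {N M : ℤ} (hp : HP Γ η N)
    (hp' : HP Γ (-η) N) (hN : 0 ≤ N) {b : ℤ × ℤ} (hb : 0 < η b) {p : ℤ × ℤ} {k : ℕ}
    (hk : 0 < k) (hg0 : (k : ℤ) • p ≠ 0) (hp0 : η p = 0) {A : Set (Vx J)} (hc : IsConn Γ A)
    (hper : ∀ z, tr ((k : ℤ) • p) z ∈ A ↔ z ∈ A) (hA : ∀ x ∈ A, |η x.2| ≤ M)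
    {A' : Set (Vx J)} (hc' : IsConn Γ A') (hper' : ∀ z, tr ((k : ℤ) • p) z ∈ A' ↔ z ∈ A')
    (hA' : ∀ x ∈ A', |η x.2| ≤ M) (hd : ∀ z ∈ A', z ∉ A) (hAA : ∀ z, tr p z ∈ A' ↔ z ∈ A)
    {a : Vx J} (ha : a ∈ A) (hu : tr p a ∈ Up Γ η (M + 1 + N) A) : False := by
  have hg : η ((k : ℤ) • p) = 0 := by rw [map_zsmul, hp0, smul_zero]
  have ha' := (hAA a).2 ha
  have h1 := up_dn hBri hF hp hp' hN hb hg0 hg hc ⟨a, ha⟩ hper hA
  have h2 := up_dn hBri hF hp hp' hN hb hg0 hg hc' ⟨_, ha'⟩ hper' hA'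
  obtain ⟨t, ht⟩ := high (η := -η) (b := -b) (by simpa using hb) a (M + 1 + N)
  have htA : t ∉ A ∪ A' := by
    simp only [AddMonoidHom.neg_apply] at ht
    rintro (hh | hh)
    · have := abs_le.1 (hA t hh); omega
    · have := abs_le.1 (hA' t hh); omega
  have h3 := nest hF hc hd ha ht htA h1 h2
    (fun z hz => up_of hu (c_mono (fun z hz => hd z hz) (hc' _ ha' z hz)))
  have h4 : ∀ j : ℕ, tr (((j + 1 : ℕ) : ℤ) • p) a ∈ Up Γ η (M + 1 + N) A := by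
    intro j
    induction j with
    | zero => simpa using hu
    | succ j ih =>
      have := h3 (up_tr hF hp0 (fun z => (hAA z).1) ih)
      rw [tr_tr] at this
      have e : (((j + 1 + 1 : ℕ) : ℤ)) • p = ((j + 1 : ℕ) : ℤ) • p + p := by
        push_cast
        rw [add_smul _ (1 : ℤ), one_smul]
      rw [e]
      exact this
  obtain ⟨j, rfl⟩ : ∃ j, k = j + 1 := ⟨k - 1, by omega⟩
  exact (h4 j).1 ((hper a).2 ha)

/-- The determinant with a fixed first vector. -/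
def dt (p : ℤ × ℤ) : ℤ × ℤ →+ ℤ where
  toFun a := det p a
  map_zero' := by simp [det]
  map_add' a b := by simp [det]; ring

end PkSelfP

open PkSelfP in
theorem pk_Self : S_Self := by
  intro hHP hBri J _ Γ hF p k A M hp0 hk hc hne hper hA
  by_contra hn
  push Not at hn
  obtain ⟨N1, hN1, h1⟩ := hHP J Γ hF (dt p)
  obtain ⟨N2, hN2, h2⟩ := hHP J Γ hF (-dt p)
  have hp : HP Γ (dt p) (N1 + N2) := fun h x y hx hy => h1 h x y (by omega) (by omega)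
  have hp' : HP Γ (-dt p) (N1 + N2) := fun h x y hx hy => h2 h x y (by omega) (by omega)
  have hp'' : HP Γ (- -dt p) (N1 + N2) := by rw [neg_neg]; exact hp
  have hb : 0 < dt p (-p.2, p.1) := by
    have : p.1 ≠ 0 ∨ p.2 ≠ 0 := by
      by_contra hh
      push Not at hh
      exact hp0 (Prod.ext hh.1 hh.2)
    change 0 < p.1 * p.1 - p.2 * -p.2
    rcases this with h | h
    · nlinarith [mul_self_pos.2 h, mul_self_nonneg p.2]
    · nlinarith [mul_self_pos.2 h, mul_self_nonneg p.1]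
  have hb' : 0 < (-dt p) (-(-p.2, p.1)) := by
    rw [AddMonoidHom.neg_apply, map_neg, neg_neg]; exact hb
  have hg0 : (k : ℤ) • p ≠ 0 := smul_ne_zero (by omega) hp0
  have hpp : dt p p = 0 := by change p.1 * p.2 - p.2 * p.1 = 0; ring
  have hg : dt p ((k : ℤ) • p) = 0 := by rw [map_zsmul, hpp, smul_zero]
  set A' : Set (Vx J) := {z | tr (-p) z ∈ A} with hA'
  have hAA : ∀ z, tr p z ∈ A' ↔ z ∈ A := fun z => by simp [hA', tr_tr, tr_zero]
  have hback : ∀ z : Vx J, tr p (tr (-p) z) = z := fun z => by simp [tr_tr, tr_zero]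
  have hc' : IsConn Γ A' := by
    intro u hu v hv
    have := c_tr hF p (fun z hz => (hAA z).2 hz) (hc _ hu _ hv)
    rwa [hback, hback] at this
  have hper' : ∀ z, tr ((k : ℤ) • p) z ∈ A' ↔ z ∈ A' := by
    intro z
    change tr (-p) (tr ((k : ℤ) • p) z) ∈ A ↔ tr (-p) z ∈ A
    rw [← hper (tr (-p) z), tr_tr, tr_tr, add_comm]
  have hB : ∀ x ∈ A, |dt p x.2| ≤ M := hA
  have hB' : ∀ x ∈ A', |dt p x.2| ≤ M := by
    intro x hx
    have := hB _ hx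
    simpa [tr, hpp] using this
  have hd : ∀ z ∈ A', z ∉ A := fun z hz hh => hn _ hz (by rwa [hback])
  obtain ⟨a, ha⟩ := hne
  rcases side hBri hF hp hp' (by omega) hb hg0 hg hc ⟨a, ha⟩ hper hB hc' ((hAA a).2 ha) hper' hd
    with h | h
  · exact above hBri hF hp hp' (by omega) hb hk hg0 hpp hc hper hB hc' hper' hB' hd hAA ha h
  · exact above hBri hF hp' hp'' (by omega) hb' hk hg0 (by simp [hpp]) hc hper
      (by simpa using hB) hc' hper' (by simpa using hB') hd hAA ha h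

end Pool.Agent.P.MP_08fd93_co.OV
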