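import Pool.Agent.P.MP_08fd93_co.OV.St2

/-! Package Skl of project OV: the successor map of the skeleton. -/

set_option autoImplicit false

namespace Pool.Agent.P.MP_08fd93_co.OV

namespace PkSklP

variable {J : Type} {F : FD J} {G : Set (Vx J)} {Q : Set (Un J)} {O : Un J → Set (Un J)}

lemma tr_tr (a b : ℤ × ℤ) (x : Vx J) : tr b (tr a x) = tr (a + b) x := by
  simp [tr, add_assoc]

lemma tr_zero (x : Vx J) : tr 0 x = x := by simp [tr]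

lemma tr_inj (a : ℤ × ℤ) {x y : Vx J} (h : tr a x = tr a y) : x = y := by
  have := congrArg (tr (-a)) h
  simpa [tr_tr, tr_zero] using this

lemma lwk (hF : Frm F) (j : ℤ) (k : ℤ) : ∀ i, tr (k • F.w) (F.l j i) = F.l j (i + k * F.nn j) := by
  induction k using Int.induction_on with
  | zero => intro i; simp [tr_zero]
  | succ k ih =>
    intro i
    rw [add_smul, one_smul, ← tr_tr, ih, hF.lw]
    congr 1; ring
  | pred k ih =>
    intro i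
    have h1 := hF.lw j (i + (-(k : ℤ) - 1) * F.nn j)
    have h2 : i + (-(k : ℤ) - 1) * F.nn j + F.nn j = i + -(k : ℤ) * F.nn j := by ring
    rw [h2, ← ih] at h1
    apply tr_inj F.w
    rw [h1, tr_tr]
    congr 1
    rw [sub_smul, one_smul]; abel

lemma eql (hF : Frm F) {j : ℤ} {x : Vx J} (hx : x ∈ F.L j) : x = F.l j (F.ρ x) := by
  obtain ⟨i, rfl⟩ := (hF.mem j x).1 hx
  rw [hF.rho]

lemma lmem (hF : Frm F) (j i : ℤ) : F.l j i ∈ F.L j := (hF.mem j _).2 ⟨i, rfl⟩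

lemma linj (hF : Frm F) {j : ℤ} {x y : Vx J} (hx : x ∈ F.L j) (hy : y ∈ F.L j)
    (h : F.ρ x = F.ρ y) : x = y := by
  rw [eql hF hx, eql hF hy, h]

lemma lla (hF : Frm F) {j : ℤ} {x : Vx J} (hx : x ∈ F.L j) : x ∈ F.LA := by
  have := hF.uf.lf j x hx
  show x ∈ F.L (F.f x)
  rw [this]; exact hx

lemma cap_ne {u : Un J} (hv : Val F G u) (hc : Cap F G u) : u.x ≠ u.s := by
  intro h
  have h1 := hc.xu
  rw [h] at h1
  exact hv.hs.2 h1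

lemma cap_of {u : Un J} (hv : Val F G u) (h : u.x ≠ u.s) : Cap F G u := by
  rcases hv.alt with h1 | h1
  · exact absurd h1.1 h
  · exact h1

lemma triv_of {u : Un J} (hv : Val F G u) (h : u.x = u.s) : F.ρ u.s' = F.ρ u.s + 1 := by
  rcases hv.alt with h1 | h1
  · exact h1.2.1
  · exact absurd h (cap_ne hv h1)

lemma vlt {u : Un J} (hv : Val F G u) : F.ρ u.s < F.ρ u.s' := by
  rcases hv.alt with h1 | h1
  · omega
  · have := h1.lt; omega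

lemma cov_s {u : Un J} (hv : Val F G u) : F.Cov u u.s := ⟨hv.hs, le_rfl, vlt hv⟩

lemma cov_lev (hF : Frm F) {u : Un J} {y : Vx J} {j : ℤ} (h : F.Cov u y) (hy : y ∈ F.L j) :
    F.f u.s = j := by
  rw [← hF.uf.lf _ _ h.1, hF.uf.lf _ _ hy]

lemma factA (hF : Frm F) (hS : Sol F G Q O) {u : Un J} (hu : u ∈ Q) :
    ∃ u' ∈ Q, u'.s = u.s' ∧ F.f u'.s = F.f u.s := by
  have hv := hS.val u hu
  obtain ⟨u', hu', hc⟩ := hS.cov u.s' (lla hF hv.hs')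
  have hl := cov_lev hF hc hv.hs'
  have hv' := hS.val u' hu'
  refine ⟨u', hu', ?_, hl⟩
  have hs : u'.s ∈ F.L (F.f u.s) := hl ▸ hv'.hs
  apply linj hF hs hv.hs'
  by_contra hne
  have h1 := hc.2.1
  have h2 := hc.2.2
  have h3 := vlt hv
  have e : u' = u := by
    apply hS.uni u' hu' u hu (F.l (F.f u.s) (F.ρ u.s' - 1))
    · refine ⟨hl ▸ lmem hF _ _, ?_, ?_⟩ <;> rw [hF.rho] <;> omega
    · refine ⟨lmem hF _ _, ?_, ?_⟩ <;> rw [hF.rho] <;> omega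
  rw [e] at h2
  omega

lemma factB (hF : Frm F) (hS : Sol F G Q O) {u : Un J} (hu : u ∈ Q) :
    ∃ u' ∈ Q, u'.s' = u.s := by
  have hv := hS.val u hu
  obtain ⟨u', hu', hc⟩ := hS.cov _ (lla hF (lmem hF (F.f u.s) (F.ρ u.s - 1)))
  have hl := cov_lev hF hc (lmem hF _ _)
  have hv' := hS.val u' hu'
  refine ⟨u', hu', ?_⟩
  have hs : u'.s' ∈ F.L (F.f u.s) := hl ▸ hv'.hs'
  apply linj hF hs hv.hs
  by_contra hne
  have h1 := hc.2.1
  have h2 := hc.2.2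
  rw [hF.rho] at h1 h2
  have e : u' = u := by
    apply hS.uni u' hu' u hu u.s _ (cov_s hv)
    exact ⟨hl ▸ hv.hs, by omega, by omega⟩
  rw [e] at h1
  omega

lemma sk_s {u : Un J} (hu : u ∈ Q) : u.s ∈ F.SK Q (F.f u.s) := ⟨u, hu, rfl, by simp [Un.T]⟩
lemma sk_x {u : Un J} (hu : u ∈ Q) : u.x ∈ F.SK Q (F.f u.s) := ⟨u, hu, rfl, by simp [Un.T]⟩
lemma sk_s' {u : Un J} (hu : u ∈ Q) : u.s' ∈ F.SK Q (F.f u.s) := ⟨u, hu, rfl, by simp [Un.T]⟩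

lemma own_ss (hS : Sol F G Q O) {u1 u2 : Un J} (h1 : u1 ∈ Q) (h2 : u2 ∈ Q) (h : u1.s = u2.s) :
    u1 = u2 := by
  apply hS.uni u1 h1 u2 h2 u1.s (cov_s (hS.val u1 h1))
  rw [h]; exact cov_s (hS.val u2 h2)

lemma own_sx (hS : Sol F G Q O) (hP : Prt F Q O) {u1 u2 : Un J} (h1 : u1 ∈ Q) (h2 : u2 ∈ Q)
    (h : u1.s = u2.x) : u1 = u2 := by
  by_cases hx : u2.x = u2.s
  · exact own_ss hS h1 h2 (h.trans hx)
  · exfalso
    have hc := cap_of (hS.val u2 h2) hx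
    have hl := hP.lev _ _ _ (sk_s (F := F) h1) (h ▸ sk_x (F := F) h2)
    have h3 := hc.xu
    rw [← h, ← hl] at h3
    exact (hS.val u1 h1).hs.2 h3

lemma own (hS : Sol F G Q O) (hP : Prt F Q O) : ∀ u1 ∈ Q, ∀ u2 ∈ Q, ∀ v,
    (v = u1.s ∨ v = u1.x) → (v = u2.s ∨ v = u2.x) → u1 = u2 := by
  intro u1 h1 u2 h2 v a b
  rcases a with a | a <;> rcases b with b | b
  · exact own_ss hS h1 h2 (a.symm.trans b)
  · exact own_sx hS hP h1 h2 (a.symm.trans b)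
  · exact (own_sx hS hP h2 h1 (b.symm.trans a)).symm
  · have e : u1.x = u2.x := a.symm.trans b
    by_cases hx1 : u1.x = u1.s
    · exact own_sx hS hP h1 h2 (hx1.symm.trans e)
    by_cases hx2 : u2.x = u2.s
    · exact (own_sx hS hP h2 h1 (hx2.symm.trans e.symm)).symm
    have v1 := hS.val u1 h1
    have v2 := hS.val u2 h2
    have c1 := cap_of v1 hx1
    have c2 := cap_of v2 hx2
    have hl := hP.lev _ _ _ (sk_x (F := F) h1) (e ▸ sk_x (F := F) h2)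
    have t1 := c2.xn u1.s (hl ▸ v1.hs) (e ▸ c1.sx.symm)
    have t2 := c2.xn u1.s' (hl ▸ v1.hs') (e ▸ c1.xs)
    apply hS.uni u1 h1 u2 h2 u1.s (cov_s v1)
    have := vlt v1
    exact ⟨t1.1, t1.2.1, lt_of_lt_of_le this t2.2.2⟩

lemma own_r (hF : Frm F) (hS : Sol F G Q O) {u1 u2 : Un J} (h1 : u1 ∈ Q) (h2 : u2 ∈ Q)
    (h : u1.s' = u2.s') : u1 = u2 := by
  have v1 := hS.val u1 h1
  have v2 := hS.val u2 h2
  have hl : F.f u1.s = F.f u2.s := by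
    rw [← hF.uf.lf _ _ v1.hs', ← hF.uf.lf _ _ v2.hs', h]
  have a := vlt v1
  have b := vlt v2
  apply hS.uni u1 h1 u2 h2 (F.l (F.f u1.s) (F.ρ u1.s' - 1))
  · refine ⟨lmem hF _ _, ?_, ?_⟩ <;> rw [hF.rho] <;> omega
  · refine ⟨hl ▸ lmem hF _ _, ?_, ?_⟩ <;> rw [hF.rho, h] <;> omega

/-- The successor relation. -/
def Nx (Q : Set (Un J)) (v w : Vx J) : Prop :=
  ∃ u ∈ Q, (v = u.x ∧ w = u.s') ∨ (u.x ≠ u.s ∧ v = u.s ∧ w = u.x)

lemma nx_snd {u : Un J} (hu : u ∈ Q) : Nx Q u.s u.snd := by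
  refine ⟨u, hu, ?_⟩
  by_cases h : u.x = u.s
  · left; simp [Un.snd, h]
  · right; simp [Un.snd, h]

lemma nx_fun (hS : Sol F G Q O) (hP : Prt F Q O) {v w1 w2 : Vx J} (a : Nx Q v w1)
    (b : Nx Q v w2) : w1 = w2 := by
  obtain ⟨u1, h1, a⟩ := a
  obtain ⟨u2, h2, b⟩ := b
  have e : u1 = u2 := by
    apply own hS hP u1 h1 u2 h2 v
    · rcases a with a | a
      · exact Or.inr a.1
      · exact Or.inl a.2.1
    · rcases b with b | b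
      · exact Or.inr b.1
      · exact Or.inl b.2.1
  subst e
  rcases a with a | a <;> rcases b with b | b
  · rw [a.2, b.2]
  · exact absurd (a.1.symm.trans b.2.1) b.1
  · exact absurd (b.1.symm.trans a.2.1) a.1
  · rw [a.2.2, b.2.2]

lemma nx_inj (hF : Frm F) (hS : Sol F G Q O) (hP : Prt F Q O) {v1 v2 w : Vx J} (a : Nx Q v1 w)
    (b : Nx Q v2 w) : v1 = v2 := by
  obtain ⟨u1, h1, a⟩ := a
  obtain ⟨u2, h2, b⟩ := b
  have key : ∀ p ∈ Q, ∀ q ∈ Q, p.s' = q.x → q.x = q.s := by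
    intro p hp q hq e
    obtain ⟨p', hp', e', -⟩ := factA hF hS hp
    have := own_sx hS hP hp' hq (e'.trans e)
    rw [← e, ← e', this]
  rcases a with a | a <;> rcases b with b | b
  · have e := own_r hF hS h1 h2 (a.2.symm.trans b.2)
    rw [a.1, b.1, e]
  · exact absurd (key u1 h1 u2 h2 (a.2.symm.trans b.2.2)) b.1
  · exact absurd (key u2 h2 u1 h1 (b.2.symm.trans a.2.2)) a.1
  · have e := own hS hP u1 h1 u2 h2 w (Or.inr a.2.2) (Or.inr b.2.2)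
    rw [a.2.1, b.2.1, e]

lemma sk_cases (hF : Frm F) (hS : Sol F G Q O) {j : ℤ} {v : Vx J} (hv : v ∈ F.SK Q j) :
    ∃ u ∈ Q, F.f u.s = j ∧ (v = u.s ∨ (u.x ≠ u.s ∧ v = u.x)) := by
  obtain ⟨u, hu, hj, hv⟩ := hv
  rcases hv with h | h | h
  · exact ⟨u, hu, hj, Or.inl h⟩
  · by_cases hx : u.x = u.s
    · exact ⟨u, hu, hj, Or.inl (h.trans hx)⟩
    · exact ⟨u, hu, hj, Or.inr ⟨hx, h⟩⟩
  · obtain ⟨u', hu', e, l⟩ := factA hF hS hu
    exact ⟨u', hu', l.trans hj, Or.inl (h.trans e.symm)⟩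

lemma nx_ex (hF : Frm F) (hS : Sol F G Q O) {j : ℤ} {v : Vx J} (hv : v ∈ F.SK Q j) :
    ∃ w, Nx Q v w := by
  obtain ⟨u, hu, -, h | h⟩ := sk_cases hF hS hv
  · exact ⟨_, h ▸ nx_snd hu⟩
  · exact ⟨u.s', u, hu, Or.inl ⟨h.2, rfl⟩⟩

lemma pv_ex (hF : Frm F) (hS : Sol F G Q O) {j : ℤ} {w : Vx J} (hv : w ∈ F.SK Q j) :
    ∃ v, Nx Q v w := by
  obtain ⟨u, hu, -, h | h⟩ := sk_cases hF hS hv
  · obtain ⟨u', hu', e⟩ := factB hF hS hu
    exact ⟨u'.x, u', hu', Or.inl ⟨rfl, h.trans e.symm⟩⟩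
  · exact ⟨u.s, u, hu, Or.inr ⟨h.1, rfl, h.2⟩⟩

lemma nx_sk {v w : Vx J} (h : Nx Q v w) : ∃ j, v ∈ F.SK Q j ∧ w ∈ F.SK Q j := by
  obtain ⟨u, hu, h | h⟩ := h
  · rw [h.1, h.2]; exact ⟨_, sk_x hu, sk_s' hu⟩
  · rw [h.2.1, h.2.2]; exact ⟨_, sk_s hu, sk_x hu⟩

lemma nx_tr (hS : Sol F G Q O) (a : ℤ × ℤ) {v w : Vx J} (h : Nx Q v w) :
    Nx Q (tr a v) (tr a w) := by
  obtain ⟨u, hu, h⟩ := h
  refine ⟨u.act a, hS.inv a u hu, ?_⟩
  rcases h with h | h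
  · left; simp [Un.act, h.1, h.2]
  · right
    refine ⟨fun e => h.1 (tr_inj a e), ?_, ?_⟩
    · simp [Un.act, h.2.1]
    · simp [Un.act, h.2.2]

open Classical in
/-- The successor map. -/
noncomputable def nxf (Q : Set (Un J)) (v : Vx J) : Vx J :=
  if h : ∃ w, Nx Q v w then h.choose else v

open Classical in
/-- The predecessor map. -/
noncomputable def pvf (Q : Set (Un J)) (w : Vx J) : Vx J :=
  if h : ∃ v, Nx Q v w then h.choose else w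

lemma nxf_eq (hS : Sol F G Q O) (hP : Prt F Q O) {v w : Vx J} (h : Nx Q v w) : nxf Q v = w := by
  have h' : ∃ w, Nx Q v w := ⟨w, h⟩
  rw [nxf, dif_pos h']
  exact nx_fun hS hP h'.choose_spec h

lemma pvf_eq (hF : Frm F) (hS : Sol F G Q O) (hP : Prt F Q O) {v w : Vx J} (h : Nx Q v w) :
    pvf Q w = v := by
  have h' : ∃ v, Nx Q v w := ⟨v, h⟩
  rw [pvf, dif_pos h']
  exact nx_inj hF hS hP h'.choose_spec h

lemma nxf_spec (hF : Frm F) (hS : Sol F G Q O) (hP : Prt F Q O) {j : ℤ} {v : Vx J}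
    (hv : v ∈ F.SK Q j) : Nx Q v (nxf Q v) ∧ nxf Q v ∈ F.SK Q j := by
  obtain ⟨w, h⟩ := nx_ex hF hS hv
  rw [nxf_eq hS hP h]
  obtain ⟨j', a, b⟩ := nx_sk (F := F) h
  exact ⟨h, hP.lev _ _ _ a hv ▸ b⟩

lemma pvf_spec (hF : Frm F) (hS : Sol F G Q O) (hP : Prt F Q O) {j : ℤ} {w : Vx J}
    (hv : w ∈ F.SK Q j) : Nx Q (pvf Q w) w ∧ pvf Q w ∈ F.SK Q j := by
  obtain ⟨v, h⟩ := pv_ex hF hS hv
  rw [pvf_eq hF hS hP h]
  obtain ⟨j', a, b⟩ := nx_sk (F := F) h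
  exact ⟨h, hP.lev _ _ _ b hv ▸ a⟩

open Classical in
/-- The position on a skeleton line. -/
noncomputable def rk (F : FD J) (Q : Set (Un J)) (v : Vx J) : ℤ :=
  if h : ∃ u ∈ Q, u.x ≠ u.s ∧ v = u.x then F.ρ h.choose.s + 1 else F.ρ v

lemma rk_s (hS : Sol F G Q O) (hP : Prt F Q O) {u : Un J} (hu : u ∈ Q) :
    rk F Q u.s = F.ρ u.s := by
  rw [rk, dif_neg]
  rintro ⟨u', hu', h1, h2⟩
  have := own_sx hS hP hu hu' h2
  subst this
  exact h1 h2.symm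

lemma rk_x (hS : Sol F G Q O) (hP : Prt F Q O) {u : Un J} (hu : u ∈ Q) (hx : u.x ≠ u.s) :
    rk F Q u.x = F.ρ u.s + 1 := by
  have h : ∃ u' ∈ Q, u'.x ≠ u'.s ∧ u.x = u'.x := ⟨u, hu, hx, rfl⟩
  rw [rk, dif_pos h]
  have := own hS hP u hu _ h.choose_spec.1 u.x (Or.inr rfl) (Or.inr h.choose_spec.2.2)
  rw [← this]

lemma rk_lt (hF : Frm F) (hS : Sol F G Q O) (hP : Prt F Q O) {v w : Vx J} (h : Nx Q v w) :
    rk F Q v < rk F Q w := by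
  obtain ⟨u, hu, h | h⟩ := h
  · obtain ⟨u', hu', e, -⟩ := factA hF hS hu
    have h2 : rk F Q w = F.ρ u.s' := by rw [h.2, ← e, rk_s hS hP hu']
    rw [h2, h.1]
    by_cases hx : u.x = u.s
    · rw [hx, rk_s hS hP hu]; exact vlt (hS.val u hu)
    · rw [rk_x hS hP hu hx]; exact (cap_of (hS.val u hu) hx).lt
  · rw [h.2.1, h.2.2, rk_s hS hP hu, rk_x hS hP hu h.1]; omega

lemma it_sk (hF : Frm F) (hS : Sol F G Q O) (hP : Prt F Q O) {j : ℤ} {v : Vx J}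
    (hv : v ∈ F.SK Q j) (t : ℕ) : (nxf Q)^[t] v ∈ F.SK Q j := by
  induction t with
  | zero => exact hv
  | succ t ih => rw [Function.iterate_succ_apply']; exact (nxf_spec hF hS hP ih).2

lemma it_mono (hF : Frm F) (hS : Sol F G Q O) (hP : Prt F Q O) {j : ℤ} {v : Vx J}
    (hv : v ∈ F.SK Q j) : StrictMono fun t : ℕ => rk F Q ((nxf Q)^[t] v) := by
  apply strictMono_nat_of_lt_succ
  intro t
  rw [Function.iterate_succ_apply']
  exact rk_lt hF hS hP (nxf_spec hF hS hP (it_sk hF hS hP hv t)).1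

lemma it_end (hS : Sol F G Q O) (hP : Prt F Q O) {u : Un J} (hu : u ∈ Q) :
    ∃ t : ℕ, (nxf Q)^[t] u.s = u.s' := by
  by_cases hx : u.x = u.s
  · exact ⟨1, nxf_eq hS hP ⟨u, hu, Or.inl ⟨hx.symm, rfl⟩⟩⟩
  · refine ⟨2, ?_⟩
    show nxf Q (nxf Q u.s) = u.s'
    rw [nxf_eq hS hP ⟨u, hu, Or.inr ⟨hx, rfl, rfl⟩⟩, nxf_eq hS hP ⟨u, hu, Or.inl ⟨rfl, rfl⟩⟩]

lemma it_reach (hF : Frm F) (hS : Sol F G Q O) (hP : Prt F Q O) {u2 : Un J} (h2 : u2 ∈ Q)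
    (n : ℕ) : ∀ u1 ∈ Q, F.f u1.s = F.f u2.s → F.ρ u1.s ≤ F.ρ u2.s → F.ρ u2.s ≤ F.ρ u1.s + n →
      ∃ t : ℕ, (nxf Q)^[t] u1.s = u2.s := by
  have v2 := hS.val u2 h2
  induction n with
  | zero =>
    intro u1 h1 hl a b
    have e : F.ρ u1.s = F.ρ u2.s := by simp at b; omega
    exact ⟨0, linj hF (x := u1.s) (hl ▸ (hS.val u1 h1).hs) v2.hs e⟩
  | succ n ih =>
    intro u1 h1 hl a b
    have v1 := hS.val u1 h1
    by_cases hc : F.ρ u2.s < F.ρ u1.s'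
    · have := hS.uni u1 h1 u2 h2 u2.s ⟨hl ▸ v2.hs, a, hc⟩ (cov_s v2)
      exact ⟨0, by rw [this]; rfl⟩
    · obtain ⟨u3, h3, e, l⟩ := factA hF hS h1
      have := vlt v1
      obtain ⟨t, ht⟩ := ih u3 h3 (l.trans hl) (by rw [e]; omega) (by rw [e]; push_cast at b; omega)
      obtain ⟨t', ht'⟩ := it_end hS hP h1
      exact ⟨t + t', by rw [Function.iterate_add_apply, ht', ← e, ht]⟩

lemma reach (hF : Frm F) (hS : Sol F G Q O) (hP : Prt F Q O) {u1 u2 : Un J} (h1 : u1 ∈ Q)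
    (h2 : u2 ∈ Q) (hl : F.f u1.s = F.f u2.s) (a : F.ρ u1.s ≤ F.ρ u2.s) :
    ∃ t : ℕ, (nxf Q)^[t] u1.s = u2.s :=
  it_reach hF hS hP h2 (F.ρ u2.s - F.ρ u1.s).toNat u1 h1 hl a (by omega)

variable {φ : Vx J → Vx J} {μ : J}

lemma g_left (hF : Frm F) (hG : GS F φ G μ) (hS : Sol F G Q O) {g : Vx J} (hg : g ∈ G) :
    ∃ u ∈ Q, u.s = g := by
  obtain ⟨u, hu, hc⟩ := hS.cov g (hG.sub hg)
  have hv := hS.val u hu
  refine ⟨u, hu, ?_⟩
  have a := hc.2.1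
  have b := hc.2.2
  rcases hv.alt with h | h
  · exact linj hF hv.hs hc.1 (by omega)
  · have := h.ng g ⟨hc.1, a, b.le⟩ hg
    rw [this] at b
    omega

lemma g_win (hF : Frm F) (hG : GS F φ G μ) (j m : ℤ) :
    ∃ i, m ≤ i ∧ i < m + F.nn j ∧ F.l j i ∈ G := by
  obtain ⟨g, hg⟩ := hG.one j
  have hn := hF.n2 j
  refine ⟨m + (g - m) % F.nn j, ?_, ?_, (hg _).2 ?_⟩
  · have := Int.emod_nonneg (g - m) (by omega : F.nn j ≠ 0); omega
  · have := Int.emod_lt_of_pos (g - m) (by omega : 0 < F.nn j); omega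
  · refine ⟨-((g - m) / F.nn j), ?_⟩
    have := Int.emod_add_mul_ediv (g - m) (F.nn j)
    linarith

lemma g_per (hF : Frm F) (hG : GS F φ G μ) {j : ℤ} {y z : Vx J} (hy : y ∈ G) (hz : z ∈ G)
    (hyl : y ∈ F.L j) (hzl : z ∈ F.L j) :
    ∃ k : ℤ, F.ρ z = F.ρ y + k * F.nn j ∧ z = tr (k • F.w) y := by
  obtain ⟨g, hg⟩ := hG.one j
  obtain ⟨a, ha⟩ := (hg (F.ρ y)).1 (eql hF hyl ▸ hy)
  obtain ⟨b, hb⟩ := (hg (F.ρ z)).1 (eql hF hzl ▸ hz)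
  have e : F.ρ z = F.ρ y + (b - a) * F.nn j := by linarith
  refine ⟨b - a, e, ?_⟩
  rw [eql hF hyl, lwk hF, ← e]
  exact eql hF hzl

lemma g_lev (hF : Frm F) (hG : GS F φ G μ) (hS : Sol F G Q O) (hP : Prt F Q O) {j : ℤ}
    {g : Vx J} (hg : g ∈ G) (hk : g ∈ F.SK Q j) : g ∈ F.L j ∧ rk F Q g = F.ρ g := by
  obtain ⟨u, hu, rfl⟩ := g_left hF hG hS hg
  exact ⟨hP.lev _ _ _ (sk_s (F := F) hu) hk ▸ (hS.val u hu).hs, rk_s hS hP hu⟩

lemma und_facts (hF : Frm F) (hH : PH F φ) {j : ℤ} {g : Vx J} (hg : g ∈ F.L (j - 1)) :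
    φ g ∈ F.L j ∧ F.nx (φ g) ∈ F.L j ∧ F.ρ (F.nx (φ g)) = F.ρ (φ g) + 1 ∧
      F.ρ (F.an (φ g)) ≤ F.ρ g ∧ F.ρ g < F.ρ (F.an (F.nx (φ g))) := by
  obtain ⟨a, b, c⟩ := hH.und g (lla hF hg)
  have e : F.f g + 1 = j := by rw [hF.uf.lf _ _ hg]; ring
  rw [e] at a
  have e2 := hF.uf.lf _ _ a
  refine ⟨a, ?_, ?_, b, c⟩
  · rw [FD.nx, e2]; exact lmem hF _ _
  · rw [FD.nx, hF.rho]

lemma cen_cov (hF : Frm F) (hI : SIF F) (hH : PH F φ) {u : Un J} (hv : Val F G u) {g : Vx J}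
    (h1 : g ∈ F.Bot u.s u.s') (h2 : F.ρ g < F.ρ (F.an u.s')) : F.Cov u (φ g) := by
  obtain ⟨a, b, c, d, e⟩ := und_facts hF hH h1.1
  refine ⟨a, ?_, ?_⟩
  · by_contra hn
    have := hI.mono _ _ b _ hv.hs (by omega)
    have := h1.2.1
    omega
  · by_contra hn
    have := hI.mono _ _ hv.hs' _ a (by omega)
    omega

lemma cen_ex (hF : Frm F) (hI : SIF F) (hH : PH F φ) (hG : GS F φ G μ) (hS : Sol F G Q O)
    (j : ℤ) : ∃ u ∈ Q, F.f u.s = j ∧ F.Cen G u := by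
  obtain ⟨i, -, -, hg⟩ := g_win hF hG (j - 1) 0
  have hl := lmem hF (j - 1) i
  obtain ⟨a, b, c, d, e⟩ := und_facts hF hH hl
  obtain ⟨u, hu, hc⟩ := hS.cov _ (lla hF a)
  have hj := cov_lev hF hc a
  have hv := hS.val u hu
  have m1 := hI.mono j _ (hj ▸ hv.hs) _ a hc.2.1
  have m2 := hI.mono j _ b _ (hj ▸ hv.hs') (by have := hc.2.2; omega)
  exact ⟨u, hu, hj, _, hg, ⟨hj ▸ hl, by omega, by omega⟩, by omega⟩

lemma act_w (hF : Frm F) {u : Un J} (hv : Val F G u) (k : ℤ) :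
    F.f (u.act (k • F.w)).s = F.f u.s ∧
      F.ρ (u.act (k • F.w)).s = F.ρ u.s + k * F.nn (F.f u.s) := by
  have e : (u.act (k • F.w)).s = F.l (F.f u.s) (F.ρ u.s + k * F.nn (F.f u.s)) := by
    rw [← lwk hF, ← eql hF hv.hs]; rfl
  rw [e]
  exact ⟨hF.uf.lf _ _ (lmem hF _ _), hF.rho _ _⟩

end PkSklP

open PkSklP in
theorem pk_Skl : S_Skl := by
  intro J F φ G μ Q O hF hI hH hG hIso hS hP hT
  refine ⟨nxf Q, pvf Q, ⟨?_, ?_, ?_, ?_, hG.inv, ?_, ?_, ?_, ?_, ?_⟩, ?_, ?_, ?_, ?_, ?_,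
    own hS hP⟩
  · rintro x ⟨j, hx⟩
    obtain ⟨a, b⟩ := nxf_spec hF hS hP hx
    obtain ⟨c, d⟩ := pvf_spec hF hS hP hx
    exact ⟨⟨j, b⟩, ⟨j, d⟩, pvf_eq hF hS hP a, nxf_eq hS hP c⟩
  · rintro a x ⟨j, hx⟩
    have h1 := nx_tr hS a (nxf_spec hF hS hP hx).1
    have h2 := nx_tr hS a (pvf_spec hF hS hP hx).1
    obtain ⟨j', h3, -⟩ := nx_sk (F := F) h1
    exact ⟨⟨j', h3⟩, nxf_eq hS hP h1, pvf_eq hF hS hP h2⟩
  · intro g hg
    obtain ⟨u, hu, rfl⟩ := g_left hF hG hS hg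
    exact ⟨_, sk_s hu⟩
  · rintro v ⟨u, hu, -, rfl⟩
    exact ⟨_, sk_s hu⟩
  · rintro a v ⟨u, hu, hc, rfl⟩
    exact ⟨u.act a, hS.inv a u hu, (hIso.cen a u (hS.val u hu)).2 hc, rfl⟩
  · rintro x ⟨j, hx⟩
    have key : ∀ u ∈ Q, ∃ t : ℕ, (nxf Q)^[t] u.s ∈ G := by
      intro u hu
      obtain ⟨i, a, -, hg⟩ := g_win hF hG (F.f u.s) (F.ρ u.s)
      obtain ⟨u', hu', e⟩ := g_left hF hG hS hg
      obtain ⟨t, ht⟩ := reach hF hS hP hu hu' (by rw [e, hF.uf.lf _ _ (lmem hF _ _)])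
        (by rw [e, hF.rho]; exact a)
      exact ⟨t, by rw [ht, e]; exact hg⟩
    obtain ⟨u, hu, -, h | h⟩ := sk_cases hF hS hx
    · rw [h]; exact key u hu
    · obtain ⟨u', hu', e, -⟩ := factA hF hS hu
      obtain ⟨t, ht⟩ := key u' hu'
      refine ⟨t + 1, ?_⟩
      rw [Function.iterate_succ_apply, nxf_eq hS hP ⟨u, hu, Or.inl ⟨h.2, rfl⟩⟩, ← e]
      exact ht
  · intro y hy
    obtain ⟨u, hu, rfl⟩ := g_left hF hG hS hy
    have hv := hS.val u hu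
    obtain ⟨u0, hu0, hj, hc⟩ := cen_ex hF hI hH hG hS (F.f u.s)
    have hn := hF.n2 (F.f u.s)
    have v0 := hS.val u0 hu0
    obtain ⟨k, k1, k2⟩ : ∃ k : ℤ, F.ρ u.s < F.ρ u0.s + k * F.nn (F.f u.s) ∧
        F.ρ u0.s + k * F.nn (F.f u.s) ≤ F.ρ u.s + F.nn (F.f u.s) := by
      have e := Int.emod_add_mul_ediv (F.ρ u.s - F.ρ u0.s) (F.nn (F.f u.s))
      have a := Int.emod_nonneg (F.ρ u.s - F.ρ u0.s) (by omega : F.nn (F.f u.s) ≠ 0)
      have b := Int.emod_lt_of_pos (F.ρ u.s - F.ρ u0.s) (by omega : 0 < F.nn (F.f u.s))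
      refine ⟨(F.ρ u.s - F.ρ u0.s) / F.nn (F.f u.s) + 1, ?_, ?_⟩ <;> nlinarith
    obtain ⟨a1, a2⟩ := act_w hF v0 k
    rw [hj] at a1 a2
    have hq := hS.inv (k • F.w) u0 hu0
    obtain ⟨t, ht⟩ := reach hF hS hP hu hq a1.symm (by omega)
    have hm := it_mono hF hS hP (sk_s (F := F) hu)
    obtain _ | t := t
    · have : F.ρ u.s = F.ρ (u0.act (k • F.w)).s := congrArg F.ρ ht
      omega
    refine ⟨t, ⟨_, hq, (hIso.cen _ u0 v0).2 hc, ht⟩, ?_⟩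
    intro t' h' hg
    obtain ⟨b1, b2⟩ := g_lev hF hG hS hP hg (it_sk hF hS hP (sk_s hu) _)
    have c1 := hm (show 0 < t' + 1 by omega)
    have c2 := hm (show t' + 1 < t + 1 by omega)
    simp only [Function.iterate_zero_apply] at c1 c2
    rw [ht, rk_s hS hP hq, b2] at c2
    rw [rk_s hS hP hu, b2] at c1
    obtain ⟨m, hm1, -⟩ := g_per hF hG hy hg hv.hs b1
    have d1 : 0 < m := by nlinarith
    have d2 : m < 1 := by nlinarith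
    omega
  · rintro x ⟨u1, h1, ⟨g1, hg1, b1, c1⟩, rfl⟩ t ⟨u2, h2, ⟨g2, hg2, b2, c2⟩, e⟩
    have v1 := hS.val u1 h1
    have v2 := hS.val u2 h2
    have hk := it_sk hF hS hP (sk_s (F := F) h1) (t + 1)
    rw [e] at hk
    have hl := hP.lev _ _ _ (sk_s (F := F) h2) hk
    obtain ⟨k, -, hk2⟩ := g_per hF hG hg1 hg2 b1.1 (hl ▸ b2.1)
    have d1 := cen_cov hF hI hH v1 b1 c1
    have d2 := cen_cov hF hI hH v2 b2 c2
    rw [hk2, hH.eqv _ _ (hG.sub hg1)] at d2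
    have e2 := hS.uni u2 h2 _ (hS.inv (k • F.w) u1 h1) _ d2 ((hIso.cov _ u1 _ v1).2 d1)
    refine ⟨k • F.w, by rw [e, e2]; rfl, ?_⟩
    have hm := it_mono hF hS hP (sk_s (F := F) h1)
    have c0 := hm (show 0 < t + 1 by omega)
    simp only [Function.iterate_zero_apply] at c0
    rw [e, rk_s hS hP h1, rk_s hS hP h2] at c0
    obtain ⟨-, a2⟩ := act_w hF v1 k
    rw [← e2] at a2
    have hn := hF.n2 (F.f u1.s)
    have k1 : 0 < k := by nlinarith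
    obtain ⟨i, i1, i2, hg⟩ := g_win hF hG (F.f u1.s) (F.ρ u1.s)
    obtain ⟨u', hu', e'⟩ := g_left hF hG hS hg
    obtain ⟨t', ht'⟩ := reach hF hS hP h1 hu' (by rw [e', hF.uf.lf _ _ (lmem hF _ _)])
      (by rw [e', hF.rho]; exact i1)
    refine ⟨t', ?_, by rw [ht', e']; exact hg⟩
    have : t' < t + 1 := by
      apply hm.lt_iff_lt.1
      show rk F Q ((nxf Q)^[t'] u1.s) < rk F Q ((nxf Q)^[t + 1] u1.s)
      rw [ht', e, rk_s hS hP hu', rk_s hS hP h2, e', hF.rho]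
      nlinarith
    omega
  · intro y hy t ht
    obtain ⟨u, hu, rfl⟩ := g_left hF hG hS hy
    obtain ⟨b1, -⟩ := g_lev hF hG hS hP ht (it_sk hF hS hP (sk_s hu) _)
    obtain ⟨k, -, hk⟩ := g_per hF hG hy ht (hS.val u hu).hs b1
    exact ⟨_, hk⟩
  · intro u hu
    exact nxf_eq hS hP (nx_snd hu)
  · intro u hu _
    exact nxf_eq hS hP ⟨u, hu, Or.inl ⟨rfl, rfl⟩⟩
  · intro j v hv
    exact ⟨(nxf_spec hF hS hP hv).2, (pvf_spec hF hS hP hv).2⟩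
  · have oo : ∀ u1 ∈ Q, ∀ u2 ∈ Q, F.f u1.s = F.f u2.s → F.ρ u2.s = F.ρ u1.s + 1 →
        Nx Q u1.s u2.s := by
      intro u1 h1 u2 h2 hl e
      have v1 := hS.val u1 h1
      have v2 := hS.val u2 h2
      rcases v1.alt with h | h
      · exact ⟨u1, h1, Or.inl ⟨h.1.symm, linj hF (hl ▸ v2.hs) v1.hs' (by omega)⟩⟩
      · have := h.lt
        have e2 := hS.uni u1 h1 u2 h2 u2.s ⟨hl ▸ v2.hs, by omega, by omega⟩ (cov_s v2)
        rw [e2] at e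
        omega
    have oa : ∀ u1 ∈ Q, ∀ u2 ∈ Q, F.f u1.s = F.f u2.s → u2.x ≠ u2.s → F.Γ.Adj u2.x u1.s →
        Nx Q u1.s u2.x ∨ Nx Q u2.x u1.s := by
      intro u1 h1 u2 h2 hl hx ha
      have v1 := hS.val u1 h1
      have v2 := hS.val u2 h2
      obtain ⟨a, b, c⟩ := (cap_of v2 hx).xn u1.s (hl ▸ v1.hs) ha
      rcases c.lt_or_eq with c | c
      · have e2 := hS.uni u1 h1 u2 h2 u1.s (cov_s v1) ⟨a, b, c⟩
        exact Or.inl ⟨u2, h2, Or.inr ⟨hx, by rw [e2], rfl⟩⟩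
      · exact Or.inr ⟨u2, h2, Or.inl ⟨rfl, linj hF a v2.hs' c⟩⟩
    have par : ∀ u ∈ Q, u.x ≠ u.s → ∃ w ∈ Q, u ∈ O w ∧ F.f w.s = F.f u.s + 1 ∧ u.x ∈ F.CI w := by
      intro u hu hx
      obtain ⟨w, hw, ho⟩ := (hS.fix u).1 hu
      have c := hS.co1 w hw
      have e := hF.uf.lf _ _ (c.val u ho).2.1.1
      refine ⟨w, hw, ho, by omega, ?_⟩
      rcases c.sub u ho (Or.inl (show u.x ∈ u.T by simp [Un.T])) with h | h
      · have h1 := h.1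
        rw [← e] at h1
        exact absurd (cap_of (hS.val u hu) hx).xu h1.2
      · exact h
    intro j v hv v' hv' ha
    suffices h : Nx Q v v' ∨ Nx Q v' v by
      rcases h with h | h
      · exact Or.inl (nxf_eq hS hP h).symm
      · exact Or.inr (pvf_eq hF hS hP h).symm
    obtain ⟨u1, h1, l1, a⟩ := sk_cases hF hS hv
    obtain ⟨u2, h2, l2, b⟩ := sk_cases hF hS hv'
    have hl : F.f u1.s = F.f u2.s := l1.trans l2.symm
    rcases a with rfl | ⟨a, rfl⟩ <;> rcases b with rfl | ⟨b, rfl⟩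
    · have ha' := ha
      rw [eql hF (hS.val u1 h1).hs, eql hF (hS.val u2 h2).hs, ← hl, hF.adj] at ha'
      rcases ha' with h | h
      · exact Or.inl (oo u1 h1 u2 h2 hl h)
      · exact Or.inr (oo u2 h2 u1 h1 hl.symm h)
    · exact oa u1 h1 u2 h2 hl b ha.symm
    · exact (oa u2 h2 u1 h1 hl.symm a ha).symm
    · exfalso
      obtain ⟨w1, q1, o1, f1, c1⟩ := par u1 h1 a
      obtain ⟨w2, q2, o2, f2, c2⟩ := par u2 h2 b
      by_cases hw : w1 = w2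
      · subst hw
        exact (hS.co1 w1 q1).nadj u1 o1 u2 o2 a b ha
      · exact hT w1 q1 w2 q2 hw (by omega) ⟨_, c1, _, c2, ha⟩
  · intro j v hv
    have hm := it_mono hF hS hP hv
    constructor
    · intro h
      have := hm (show 0 < 1 by omega)
      simp only [Function.iterate_zero_apply, Function.iterate_one, h] at this
      omega
    · intro h
      have := hm (show 0 < 2 by omega)
      change rk F Q v < rk F Q (nxf Q (nxf Q v)) at this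
      rw [h] at this
      omega

end Pool.Agent.P.MP_08fd93_co.OV
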