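import Pool.Agent.P.MP_08fd93_co.OV.St2

/-! Package Sol of project OV: equivariant choice and the fixed point. -/

set_option autoImplicit false

namespace Pool.Agent.P.MP_08fd93_co.OV

namespace PkSolP

variable {J : Type}

theorem tr_tr (a b : ℤ × ℤ) (x : Vx J) : tr b (tr a x) = tr (a + b) x := by
  simp [tr, add_assoc]

theorem tr_zero (x : Vx J) : tr 0 x = x := by
  simp [tr]

theorem act_act (a b : ℤ × ℤ) (u : Un J) : (u.act a).act b = u.act (a + b) := by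
  apply Un.ext
  · exact tr_tr a b _
  · exact tr_tr a b _
  · exact tr_tr a b _
  · show tr b '' (tr a '' u.pk) = tr (a + b) '' u.pk
    rw [Set.image_image]
    simp only [tr_tr]

theorem act_zero (u : Un J) : u.act 0 = u := by
  apply Un.ext
  · exact tr_zero _
  · exact tr_zero _
  · exact tr_zero _
  · show tr 0 '' u.pk = u.pk
    have : (tr (0 : ℤ × ℤ) : Vx J → Vx J) = id := funext tr_zero
    rw [this, Set.image_id]

variable {F : FD J} {G : Set (Vx J)} {φ : Vx J → Vx J}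

theorem eq_of_rho (hF : Frm F) {j : ℤ} {x y : Vx J} (hx : x ∈ F.L j) (hy : y ∈ F.L j)
    (h : F.ρ x = F.ρ y) : x = y := by
  obtain ⟨i, rfl⟩ := (hF.mem j x).1 hx
  obtain ⟨i', rfl⟩ := (hF.mem j y).1 hy
  rw [hF.rho, hF.rho] at h
  rw [h]

theorem f_of (hF : Frm F) {j : ℤ} {x : Vx J} (hx : x ∈ F.L j) : F.f x = j :=
  hF.uf.lf j x hx

theorem la_of (hF : Frm F) {j : ℤ} {x : Vx J} (hx : x ∈ F.L j) : x ∈ F.LA := by
  show x ∈ F.L (F.f x)
  rw [f_of hF hx]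
  exact hx

theorem nx_mem (hF : Frm F) (x : Vx J) : F.nx x ∈ F.L (F.f x) :=
  (hF.mem _ _).2 ⟨_, rfl⟩

theorem nx_rho (hF : Frm F) (x : Vx J) : F.ρ (F.nx x) = F.ρ x + 1 :=
  hF.rho _ _

theorem la_tr (hF : Frm F) (a : ℤ × ℤ) {x : Vx J} (hx : x ∈ F.LA) : tr a x ∈ F.LA := by
  show tr a x ∈ F.L (F.f (tr a x))
  rw [hF.pot.per]
  exact (hF.uf.ltr a _ x).2 hx

theorem nx_tr (hF : Frm F) (a : ℤ × ℤ) {x : Vx J} (hx : x ∈ F.LA) :
    F.nx (tr a x) = tr a (F.nx x) := by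
  obtain ⟨κ, hκ⟩ := hF.ltr a (F.f x)
  obtain ⟨i, hi⟩ := (hF.mem _ x).1 hx
  have h1 : tr a x = F.l (F.f x + F.η a) (i + κ) := by
    rw [← hκ i, ← hi]
  have h2 : F.ρ x = i := by
    conv_lhs => rw [hi]
    exact hF.rho _ _
  have h3 : F.ρ (tr a x) = i + κ := by
    rw [h1]
    exact hF.rho _ _
  unfold FD.nx
  rw [hF.pot.per, h3, h2, hκ (i + 1)]
  congr 1
  ring

theorem cov_self {u : Un J} (hu : Val F G u) : F.Cov u u.s := by
  refine ⟨hu.hs, le_rfl, ?_⟩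
  rcases hu.alt with h | h
  · rw [h.2.1]
    omega
  · have := h.lt
    omega

/-- A unit of the output that covers `y` forces the cell to cover `φ y`. -/
theorem cov_up (hF : Frm F) (hS : SIF F) (hP : PH F φ) {v u : Un J} {O : Set (Un J)}
    (hv : Val F G v) (hO : CO1 F G v O) (hu : u ∈ O) {y : Vx J} (hy : F.Cov u y) :
    F.Cov v (φ y) := by
  obtain ⟨-, hb, hb'⟩ := hO.val u hu
  have hfu : F.f u.s = F.f v.s - 1 := f_of hF hb.1
  have hfy : F.f y = F.f u.s := f_of hF hy.1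
  obtain ⟨hz, h1, h2⟩ := hP.und y (la_of hF hy.1)
  have e : F.f y + 1 = F.f v.s := by omega
  rw [e] at hz
  have hfz : F.f (φ y) = F.f v.s := f_of hF hz
  have hn : F.nx (φ y) ∈ F.L (F.f v.s) := by
    have := nx_mem hF (φ y)
    rwa [hfz] at this
  have hr := nx_rho hF (φ y)
  have b1 := hb.2.1
  have b2 := hb'.2.2
  have c1 := hy.2.1
  have c2 := hy.2.2
  refine ⟨hz, ?_, ?_⟩
  · by_contra hc
    have := hS.mono _ _ hn _ hv.hs (by omega)
    omega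
  · by_contra hc
    have := hS.mono _ _ hv.hs' _ hz (by omega)
    omega

/-- A cell that covers `φ y` has a unit of the output that covers `y`. -/
theorem cov_down (hF : Frm F) (hS : SIF F) (hP : PH F φ) {v : Un J} {O : Set (Un J)}
    (hv : Val F G v) (hO : CO1 F G v O) {y : Vx J} (hy : y ∈ F.LA) (hc : F.Cov v (φ y)) :
    ∃ u ∈ O, F.Cov u y := by
  obtain ⟨hz, h1, h2⟩ := hP.und y hy
  have e1 : F.f (φ y) = F.f y + 1 := f_of hF hz
  have e2 : F.f (φ y) = F.f v.s := f_of hF hc.1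
  have hn : F.nx (φ y) ∈ F.L (F.f v.s) := by
    have := nx_mem hF (φ y)
    rwa [e2] at this
  have hr := nx_rho hF (φ y)
  have c2 := hc.2.2
  have m1 := hS.mono _ _ hv.hs _ hc.1 hc.2.1
  have m2 := hS.mono _ _ hn _ hv.hs' (by omega)
  refine hO.cov y ⟨?_, by omega, by omega⟩ (by omega)
  have e : F.f v.s - 1 = F.f y := by omega
  rw [e]
  exact hy

/-- The trivial unit at `y`. -/
def Triv (F : FD J) (u : Un J) : Prop :=
  u.s ∈ F.LA ∧ u.x = u.s ∧ u.s' = F.nx u.s ∧ u.pk = ∅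

theorem triv_val (hF : Frm F) {u : Un J} (hu : Triv F u) : Val F G u := by
  obtain ⟨h1, h2, h3, h4⟩ := hu
  refine ⟨h1, ?_, Or.inl ⟨h2, ?_, h4⟩⟩
  · rw [h3]
    exact nx_mem hF _
  · rw [h3]
    exact nx_rho hF _

theorem triv_eq (hF : Frm F) {u1 u2 : Un J} (h1 : Triv F u1) (h2 : Triv F u2) {y : Vx J}
    (c1 : F.Cov u1 y) (c2 : F.Cov u2 y) : u1 = u2 := by
  have key : ∀ u : Un J, Triv F u → F.Cov u y → u.s = y := by
    intro u hu hc
    apply eq_of_rho hF hu.1 hc.1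
    have a1 := hc.2.1
    have a2 := hc.2.2
    rw [hu.2.2.1, nx_rho hF] at a2
    omega
  have e : u1.s = u2.s := by rw [key u1 h1 c1, key u2 h2 c2]
  apply Un.ext
  · exact e
  · rw [h1.2.1, h2.2.1, e]
  · rw [h1.2.2.1, h2.2.2.1, e]
  · rw [h1.2.2.2, h2.2.2.2]

theorem triv_of_free (hF : Frm F) {u : Un J} (hu : Val F G u) {y : Vx J} (hy : y ∈ G)
    (hc : F.Cov u y) : Triv F u := by
  rcases hu.alt with h | h
  · refine ⟨hu.hs, h.1, ?_, h.2.2⟩
    apply eq_of_rho hF hu.hs' (nx_mem hF _)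
    rw [h.2.1, nx_rho hF]
  · exfalso
    have a2 := hc.2.2
    have := h.ng y ⟨hc.1, hc.2.1, le_of_lt a2⟩ hy
    rw [this] at a2
    exact lt_irrefl _ a2

/-- The iterated systems of units. -/
def QQ (F : FD J) (O : Un J → Set (Un J)) : ℕ → Set (Un J)
  | 0 => {u | Triv F u}
  | t + 1 => {u' | ∃ u ∈ QQ F O t, u' ∈ O u}

variable {O : Un J → Set (Un J)}

theorem qq_val (hF : Frm F) (hO : ∀ u, Val F G u → CO1 F G u (O u)) :
    ∀ t, ∀ u ∈ QQ F O t, Val F G u := by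
  intro t
  induction t with
  | zero => intro u hu; exact triv_val hF hu
  | succ t ih =>
    rintro u ⟨v, hv, hu⟩
    exact ((hO v (ih v hv)).val u hu).1

theorem qq_cov (hF : Frm F) (hS : SIF F) (hP : PH F φ)
    (hO : ∀ u, Val F G u → CO1 F G u (O u)) :
    ∀ t, ∀ y ∈ F.LA, ∃ u ∈ QQ F O t, F.Cov u y := by
  intro t
  induction t with
  | zero =>
    intro y hy
    have h : Triv F ⟨y, y, F.nx y, ∅⟩ := ⟨hy, rfl, rfl, rfl⟩
    exact ⟨⟨y, y, F.nx y, ∅⟩, h, cov_self (G := G) (triv_val hF h)⟩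
  | succ t ih =>
    intro y hy
    obtain ⟨v, hv, hc⟩ := ih (φ y) (la_of hF (hP.und y hy).1)
    have hval := qq_val hF hO t v hv
    obtain ⟨u, hu, hcu⟩ := cov_down hF hS hP hval (hO v hval) hy hc
    exact ⟨u, ⟨v, hv, hu⟩, hcu⟩

theorem qq_uni (hF : Frm F) (hS : SIF F) (hP : PH F φ)
    (hO : ∀ u, Val F G u → CO1 F G u (O u)) :
    ∀ t, ∀ u1 ∈ QQ F O t, ∀ u2 ∈ QQ F O t, ∀ y, F.Cov u1 y → F.Cov u2 y → u1 = u2 := by
  intro t
  induction t with
  | zero => intro u1 h1 u2 h2 y c1 c2; exact triv_eq hF h1 h2 c1 c2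
  | succ t ih =>
    rintro u1 ⟨v1, hv1, h1⟩ u2 ⟨v2, hv2, h2⟩ y c1 c2
    have w1 := qq_val hF hO t v1 hv1
    have w2 := qq_val hF hO t v2 hv2
    have e : v1 = v2 := ih v1 hv1 v2 hv2 (φ y) (cov_up hF hS hP w1 (hO v1 w1) h1 c1)
      (cov_up hF hS hP w2 (hO v2 w2) h2 c2)
    subst e
    exact (hO v1 w1).uni u1 h1 u2 h2 y c1 c2

theorem qq_inv (hF : Frm F) (hE : ∀ a u, O (Un.act a u) = Un.act a '' O u) :
    ∀ t a, ∀ u ∈ QQ F O t, u.act a ∈ QQ F O t := by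
  intro t a
  induction t with
  | zero =>
    rintro u ⟨h1, h2, h3, h4⟩
    refine ⟨la_tr hF a h1, ?_, ?_, ?_⟩
    · show tr a u.x = tr a u.s
      rw [h2]
    · show tr a u.s' = F.nx (tr a u.s)
      rw [h3, nx_tr hF a h1]
    · show tr a '' u.pk = ∅
      rw [h4, Set.image_empty]
  | succ t ih =>
    rintro u ⟨v, hv, hu⟩
    refine ⟨v.act a, ih v hv, ?_⟩
    rw [hE]
    exact ⟨u, hu, rfl⟩

theorem qq_stab (hF : Frm F) (hS : SIF F) (hP : PH F φ)
    (hO : ∀ u, Val F G u → CO1 F G u (O u)) :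
    ∀ t, ∀ y ∈ F.LA, φ^[t] y ∈ G → ∀ n, t ≤ n → ∀ u1 ∈ QQ F O n, ∀ u2 ∈ QQ F O (n + 1),
      F.Cov u1 y → F.Cov u2 y → u1 = u2 := by
  intro t
  induction t with
  | zero =>
    intro y _ hy n _ u1 h1 u2 h2 c1 c2
    exact triv_eq hF (triv_of_free hF (qq_val hF hO _ u1 h1) hy c1)
      (triv_of_free hF (qq_val hF hO _ u2 h2) hy c2) c1 c2
  | succ t ih =>
    intro y hy hg n hn u1 h1 u2 h2 c1 c2
    obtain ⟨n, rfl⟩ : ∃ m, n = m + 1 := ⟨n - 1, by omega⟩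
    obtain ⟨v1, hv1, h1⟩ := h1
    obtain ⟨v2, hv2, h2⟩ := h2
    have w1 := qq_val hF hO _ v1 hv1
    have w2 := qq_val hF hO _ v2 hv2
    have e : v1 = v2 := ih (φ y) (la_of hF (hP.und y hy).1) hg n (by omega) v1 hv1 v2 hv2
      (cov_up hF hS hP w1 (hO v1 w1) h1 c1) (cov_up hF hS hP w2 (hO v2 w2) h2 c2)
    subst e
    exact (hO v1 w1).uni u1 h1 u2 h2 y c1 c2

end PkSolP

open PkSolP in
theorem pk_Sol : S_Sol := by
  intro J F φ G μ hF hS hP hG hI hex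
  have hex' : ∀ u : Un J, ∃ O : Set (Un J), Val F G u → CO1 F G u O ∧ CO2 F G u O := by
    intro u
    by_cases h : Val F G u
    · obtain ⟨O, hO⟩ := hex u h
      exact ⟨O, fun _ => hO⟩
    · exact ⟨∅, fun h' => absurd h' h⟩
  choose O0 hO0 using hex'
  let O : Un J → Set (Un J) := fun u => Un.act u.s.2 '' O0 (u.act (-u.s.2))
  have hO : ∀ u, Val F G u → CO1 F G u (O u) ∧ CO2 F G u (O u) := by
    intro u hu
    have hv := hI.val (-u.s.2) u hu
    have e : (u.act (-u.s.2)).act u.s.2 = u := by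
      rw [act_act, neg_add_cancel, act_zero]
    have a1 := hI.co1 u.s.2 _ _ hv (hO0 _ hv).1
    have a2 := hI.co2 u.s.2 _ _ hv (hO0 _ hv).2
    rw [e] at a1 a2
    exact ⟨a1, a2⟩
  have hO1 : ∀ u, Val F G u → CO1 F G u (O u) := fun u hu => (hO u hu).1
  have hE : ∀ a u, O (Un.act a u) = Un.act a '' O u := by
    intro a u
    show Un.act (u.s.2 + a) '' O0 ((u.act a).act (-(u.s.2 + a))) =
      Un.act a '' (Un.act u.s.2 '' O0 (u.act (-u.s.2)))
    have e : a + -(u.s.2 + a) = -u.s.2 := by abel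
    rw [act_act, e, Set.image_image]
    simp only [act_act]
  obtain ⟨N, hN⟩ := hG.bar
  have hval := qq_val hF hO1
  have hst : ∀ u1 ∈ QQ F O N, ∀ u2 ∈ QQ F O (N + 1), ∀ y, F.Cov u1 y → F.Cov u2 y →
      u1 = u2 := by
    intro u1 h1 u2 h2 y c1 c2
    have hy := la_of hF c1.1
    obtain ⟨t, ht, hg⟩ := hN y hy
    exact qq_stab hF hS hP hO1 t y hy hg N ht u1 h1 u2 h2 c1 c2
  refine ⟨QQ F O N, O, hval N, qq_cov hF hS hP hO1 N, qq_uni hF hS hP hO1 N,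
    fun u hu => hO1 u (hval N u hu), fun u hu => (hO u (hval N u hu)).2, ?_,
    qq_inv hF hE N, fun a u _ => hE a u, ?_⟩
  · intro u'
    show u' ∈ QQ F O N ↔ u' ∈ QQ F O (N + 1)
    constructor
    · intro h
      have hv := hval N u' h
      obtain ⟨u2, h2, c2⟩ := qq_cov hF hS hP hO1 (N + 1) u'.s hv.hs
      rw [hst u' h u2 h2 u'.s (cov_self hv) c2]
      exact h2
    · intro h
      have hv := hval (N + 1) u' h
      obtain ⟨u1, h1, c1⟩ := qq_cov hF hS hP hO1 N u'.s hv.hs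
      rw [← hst u1 h1 u' h u'.s c1 (cov_self hv)]
      exact h1
  · intro u1 h1 u2 h2 u' a1 a2
    have w1 := hval N u1 h1
    have w2 := hval N u2 h2
    have hv := ((hO1 u1 w1).val u' a1).1
    exact qq_uni hF hS hP hO1 N u1 h1 u2 h2 (φ u'.s)
      (cov_up hF hS hP w1 (hO1 u1 w1) a1 (cov_self hv))
      (cov_up hF hS hP w2 (hO1 u2 w2) a2 (cov_self hv))

end Pool.Agent.P.MP_08fd93_co.OV
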