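import Pool.Agent.P.MP_08fd93_co.OV.Base

/-! Package Spl1 of project OV: splitting a disc at a rung. -/

set_option autoImplicit false

namespace Pool.Agent.P.MP_08fd93_co.OV

namespace PkSpl1P

variable {W : Type} {H : SimpleGraph W} {d : DD W}

/-- a part of a disc that is cut off from the boundary part `K` -/
theorem sub_disc (h : Disc H d) {X' Y' C K I1 I2 : Set W} {a b a' b' : W}
    (px : Pth H X' d.ρ a b) (py : Pth H Y' d.ρ a' b') (hX : X' ⊆ d.X) (hY : Y' ⊆ d.Y)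
    (ra : H.Adj a a') (rb : H.Adj b b') (hC : ∀ x, x ∈ C ↔ x ∈ X' ∨ x ∈ Y')
    (kC : K ⊆ d.X ∪ d.Y) (kd : ∀ x ∈ K, x ∉ C) (kc : ∀ x ∈ d.X ∪ d.Y, x ∈ C ∨ x ∈ K)
    (cov : ∀ x, x ∈ d.I ↔ x ∈ I1 ∨ x ∈ I2) (dis : ∀ x ∈ I2, x ∉ I1)
    (nk : ∀ x ∈ I1, ∀ y ∈ K, ¬ H.Adj x y) (ni : ∀ x ∈ I1, ∀ y ∈ I2, ¬ H.Adj x y)
    (jk : ∀ x ∈ I2, ∃ y, Conn H I2 x y ∧ y ∈ Nb H K) :
    Disc H ⟨(C ∪ I1)ᶜ, X', Y', d.ρ, a, b, a', b'⟩ := by
  have cXY : ∀ x ∈ C, x ∈ d.X ∪ d.Y := fun x hx => ((hC x).1 hx).imp (@hX x) (@hY x)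
  have i1 : I1 ⊆ d.I := fun x hx => (cov x).2 (Or.inl hx)
  have i2 : I2 ⊆ d.I := fun x hx => (cov x).2 (Or.inr hx)
  have zZ : d.Z ⊆ (C ∪ I1)ᶜ := by
    rintro x hx (hh | hh)
    · exact Set.disjoint_left.1 h.dz hx (cXY x hh)
    · exact i1 hh (Or.inl hx)
  have kZ : K ⊆ (C ∪ I1)ᶜ := by
    rintro x hx (hh | hh)
    · exact kd x hx hh
    · exact i1 hh (Or.inr (kC hx))
  have iZ : I2 ⊆ (C ∪ I1)ᶜ := by
    rintro x hx (hh | hh)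
    · exact i2 hx (Or.inr (cXY x hh))
    · exact dis x hx hh
  have cs : ∀ x ∈ (C ∪ I1)ᶜ, x ∈ d.Z ∨ x ∈ K ∨ x ∈ I2 := by
    intro x hx
    rcases d.cases x with h1 | h1 | h1 | h1
    · exact Or.inl h1
    · exact Or.inr (Or.inl ((kc x (Or.inl h1)).resolve_left fun hh => hx (Or.inl hh)))
    · exact Or.inr (Or.inl ((kc x (Or.inr h1)).resolve_left fun hh => hx (Or.inl hh)))
    · exact Or.inr (Or.inr (((cov x).1 h1).resolve_left fun hh => hx (Or.inr hh)))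
  have sI : (DD.mk (C ∪ I1)ᶜ X' Y' d.ρ a b a' b').I ⊆ d.I := by
    intro x hx
    rw [DD.mem_I] at hx
    have h1 : x ∈ C ∪ I1 := not_not.1 hx.1
    rcases h1 with h1 | h1
    · rcases (hC x).1 h1 with h2 | h2
      exacts [absurd h2 hx.2.1, absurd h2 hx.2.2]
    · exact i1 h1
  have kz : ∀ k ∈ K, ∃ z ∈ d.Z, Conn H (C ∪ I1)ᶜ k z := by
    intro k hk
    obtain ⟨z, hz, e⟩ := h.tz (kC hk)
    exact ⟨z, hz, Conn.step (kZ hk) (zZ hz) e⟩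
  refine ⟨px, py, h.dxy.mono hX hY, ra, rb, ?_, ?_, ?_, ?_, h.fin.subset sI, h.nj.mono sI⟩
  · refine isConn_base h.zc zZ fun x hx => ?_
    rcases cs x hx with h1 | h1 | h1
    · exact ⟨x, h1, Conn.rfl'⟩
    · exact kz x h1
    · obtain ⟨y, hy, k, hk, e⟩ := jk x h1
      obtain ⟨z, hz, hc⟩ := kz k hk
      exact ⟨z, hz, ((hy.up iZ).snoc (iZ (hy.mem h1)) (kZ hk) e).trans hc⟩
  · exact Set.disjoint_left.2 fun x hx hh => hx (Or.inl ((hC x).2 hh))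
  · rintro x ⟨z, hz, e⟩
    by_cases hx : x ∈ C ∪ I1
    · rcases hx with hx | hx
      · exact Or.inr ((hC x).1 hx)
      · rcases cs z hz with h1 | h1 | h1
        · exact absurd h1 (h.iz (i1 hx) e)
        · exact absurd e (nk x hx z h1)
        · exact absurd e (ni x hx z h1)
    · exact Or.inl hx
  · intro x hx
    obtain ⟨z, hz, e⟩ := h.tz (cXY x ((hC x).2 hx))
    exact ⟨z, zZ hz, e⟩

/-- an edge of the boundary has two different ends on the same path -/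
theorem ends (h : Disc H d) {e : Sym2 W} (he : e ∈ PE H d.X ∪ PE H d.Y) :
    ∃ p ∈ e, ∃ q ∈ e, d.ρ p ≠ d.ρ q ∧
      ((p ∈ d.X ∧ q ∈ d.X ∧ p ∉ d.Y ∧ q ∉ d.Y) ∨ (p ∈ d.Y ∧ q ∈ d.Y ∧ p ∉ d.X ∧ q ∉ d.X)) := by
  rcases he with ⟨p, hp, q, hq, ed, rfl⟩ | ⟨p, hp, q, hq, ed, rfl⟩
  · exact ⟨p, Sym2.mem_mk_left _ _, q, Sym2.mem_mk_right _ _,
      fun hh => ed.ne (h.px.inj p hp q hq hh), Or.inl ⟨hp, hq, h.xy hp, h.xy hq⟩⟩
  · exact ⟨p, Sym2.mem_mk_left _ _, q, Sym2.mem_mk_right _ _,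
      fun hh => ed.ne (h.py.inj p hp q hq hh),
      Or.inr ⟨hp, hq, fun hh => h.xy hh hp, fun hh => h.xy hh hq⟩⟩

end PkSpl1P

open PkSpl1P in
theorem pk_Spl1 : S_Spl1 := by
  intro W H hP d u v h hu hv uv
  have th : ∀ E : Set W, E ⊆ d.I → IsConn H E → ∀ x ∈ d.Lo u v, ∀ y ∈ d.Hi u v,
      ¬ H.Adj x y ∧ ¬ (x ∈ Nb H E ∧ y ∈ Nb H E) := fun E hE cE x hx y hy =>
    h.theta hP hu hv (T := ∅) (Set.empty_subset _) isConn_empty (Or.inl uv) hE cE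
      (Set.disjoint_empty _) hx hy
  have nc : ∀ x ∈ d.Lo u v, ∀ y ∈ d.Hi u v, ¬ H.Adj x y := fun x hx y hy =>
    (th ∅ (Set.empty_subset _) isConn_empty x hx y hy).1
  set IL : Set W := {x | x ∈ d.I ∧ ∃ y, Conn H d.I x y ∧ y ∈ Nb H (d.Lo u v)} with hIL
  set IR : Set W := d.I \ IL with hIR
  have cov : ∀ x, x ∈ d.I ↔ x ∈ IL ∨ x ∈ IR := fun x =>
    ⟨fun hx => (em (x ∈ IL)).imp_right fun hh => ⟨hx, hh⟩, fun hx => hx.elim And.left And.left⟩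
  have clL : ∀ x ∈ IL, ∀ w, Conn H d.I x w → w ∈ IL := by
    rintro x ⟨hx, y, hy, hn⟩ w hw
    exact ⟨hw.mem hx, y, hw.symm.trans hy, hn⟩
  have clR : ∀ x ∈ IR, ∀ w, Conn H d.I x w → w ∈ IR := fun x hx w hw =>
    ⟨hw.mem hx.1, fun hh => hx.2 (clL w hh x hw.symm)⟩
  have ni : ∀ x ∈ IL, ∀ y ∈ IR, ¬ H.Adj x y := fun x hx y hy e =>
    hy.2 (clL x hx y (Conn.step hx.1 hy.1 e))
  have nH : ∀ x ∈ IL, ∀ y ∈ d.Hi u v, ¬ H.Adj x y := by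
    rintro x ⟨hx, w, hw, k, hk, e⟩ y hy e'
    exact (th {z | Conn H d.I x z} (fun z hz => Conn.mem hz hx) (isConn_comp _ _) k hk y hy).2
      ⟨⟨w, hw, e.symm⟩, ⟨x, Conn.rfl', e'.symm⟩⟩
  have nL : ∀ x ∈ IR, ∀ y ∈ d.Lo u v, ¬ H.Adj x y := fun x hx y hy e =>
    hx.2 ⟨hx.1, x, Conn.rfl', y, hy, e⟩
  have jL : ∀ x ∈ IL, ∃ y, Conn H IL x y ∧ y ∈ Nb H (d.Lo u v) := by
    intro x hx
    obtain ⟨y, hy, hn⟩ := hx.2
    exact ⟨y, hy.sub (clL x hx), hn⟩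
  have jR : ∀ x ∈ IR, ∃ y, Conn H IR x y ∧ y ∈ Nb H (d.Hi u v) := by
    intro x hx
    have hs : {z | Conn H d.I x z} ⊆ d.I := fun z hz => Conn.mem hz hx.1
    obtain ⟨z, hz, hz'⟩ := Set.not_subset.1
      (h.nj _ hs (h.fin.subset hs) ⟨x, Conn.rfl'⟩ u v (Or.inr uv))
    have hzI : z ∉ d.I := fun hh => hz' (Or.inl (comp_nb hx.1 hz hh))
    obtain ⟨y, hy, e⟩ := hz
    refine ⟨y, Conn.sub hy (clR x hx), z, ?_, e.symm⟩
    have nlo : z ∉ d.Lo u v := fun hh => nL y (clR x hx y hy) z hh e.symm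
    rcases d.cases z with h1 | h1 | h1 | h1
    · exact absurd h1 (h.iz (hs hy) e.symm)
    · rcases h.px.lt_or h1 hu (fun hh => hz' (Or.inr (Or.inl hh))) with l | l
      exacts [absurd (Or.inl ⟨h1, l⟩) nlo, Or.inl ⟨h1, l⟩]
    · rcases h.py.lt_or h1 hv (fun hh => hz' (Or.inr (Or.inr hh))) with l | l
      exacts [absurd (Or.inr ⟨h1, l⟩) nlo, Or.inr ⟨h1, l⟩]
    · exact absurd h1 hzI
  have dl : Disc H (d.left u v IL) := by
    refine sub_disc h (C := d.Lf u v) (K := d.Hi u v) (I2 := IR)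
      (h.px.sub h.px.ha hu (h.px.lo u hu) fun x =>
        ⟨fun hx => ⟨hx.1, h.px.lo x hx.1, hx.2⟩, fun hx => ⟨hx.1, hx.2.2⟩⟩)
      (h.py.sub h.py.ha hv (h.py.lo v hv) fun x =>
        ⟨fun hx => ⟨hx.1, h.py.lo x hx.1, hx.2⟩, fun hx => ⟨hx.1, hx.2.2⟩⟩)
      (fun _ hx => hx.1) (fun _ hx => hx.1) h.ra uv (fun _ => Iff.rfl)
      (fun _ hx => hx.imp And.left And.left) ?_ ?_ cov (fun _ hx => hx.2) nH ni jR
    · rintro x (hx | hx) (hh | hh)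
      · exact absurd hx.2 (not_lt.2 hh.2)
      · exact h.xy hx.1 hh.1
      · exact h.xy hh.1 hx.1
      · exact absurd hx.2 (not_lt.2 hh.2)
    · rintro x (hx | hx)
      · rcases le_or_gt (d.ρ x) (d.ρ u) with l | l
        exacts [Or.inl (Or.inl ⟨hx, l⟩), Or.inr (Or.inl ⟨hx, l⟩)]
      · rcases le_or_gt (d.ρ x) (d.ρ v) with l | l
        exacts [Or.inl (Or.inr ⟨hx, l⟩), Or.inr (Or.inr ⟨hx, l⟩)]
  have dr : Disc H (d.right u v IR) := by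
    refine sub_disc h (C := d.Rt u v) (K := d.Lo u v) (I2 := IL)
      (h.px.sub hu h.px.hb (h.px.hi u hu) fun x =>
        ⟨fun hx => ⟨hx.1, hx.2, h.px.hi x hx.1⟩, fun hx => ⟨hx.1, hx.2.1⟩⟩)
      (h.py.sub hv h.py.hb (h.py.hi v hv) fun x =>
        ⟨fun hx => ⟨hx.1, hx.2, h.py.hi x hx.1⟩, fun hx => ⟨hx.1, hx.2.1⟩⟩)
      (fun _ hx => hx.1) (fun _ hx => hx.1) uv h.rb (fun _ => Iff.rfl)
      (fun _ hx => hx.imp And.left And.left) ?_ ?_ (fun x => (cov x).trans or_comm)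
      (fun _ hx hh => hh.2 hx) nL (fun x hx y hy e => ni y hy x hx e.symm) jL
    · rintro x (hx | hx) (hh | hh)
      · exact absurd hx.2 (not_lt.2 hh.2)
      · exact h.xy hx.1 hh.1
      · exact h.xy hh.1 hx.1
      · exact absurd hx.2 (not_lt.2 hh.2)
    · rintro x (hx | hx)
      · rcases le_or_gt (d.ρ u) (d.ρ x) with l | l
        exacts [Or.inl (Or.inl ⟨hx, l⟩), Or.inr (Or.inl ⟨hx, l⟩)]
      · rcases le_or_gt (d.ρ v) (d.ρ x) with l | l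
        exacts [Or.inl (Or.inr ⟨hx, l⟩), Or.inr (Or.inr ⟨hx, l⟩)]
  have cross : ∀ u1 ∈ d.X, ∀ v1 ∈ d.Y, H.Adj u1 v1 →
      (d.ρ u1 ≤ d.ρ u ∧ d.ρ v1 ≤ d.ρ v) ∨ (d.ρ u ≤ d.ρ u1 ∧ d.ρ v ≤ d.ρ v1) := by
    intro u1 hu1 v1 hv1 e
    have a1 : ¬ (d.ρ u1 < d.ρ u ∧ d.ρ v < d.ρ v1) := fun hh =>
      nc u1 (Or.inl ⟨hu1, hh.1⟩) v1 (Or.inr ⟨hv1, hh.2⟩) e
    have a2 : ¬ (d.ρ v1 < d.ρ v ∧ d.ρ u < d.ρ u1) := fun hh =>
      nc v1 (Or.inr ⟨hv1, hh.1⟩) u1 (Or.inl ⟨hu1, hh.2⟩) e.symm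
    omega
  refine ⟨IL, IR, ⟨h, hu, hv, uv, cov, Set.disjoint_left.2 fun x hx hh => hh.2 hx, dl, dr, nc⟩,
    fun S hS => ⟨⟨?_, ?_⟩, ⟨?_, ?_⟩⟩⟩
  · rintro e ⟨he, hc⟩
    rcases hS.1 he with ⟨p, hp, q, hq, ed, rfl⟩ | ⟨p, hp, q, hq, ed, rfl⟩
    · exact Or.inl ⟨p, (hc p (Sym2.mem_mk_left _ _)).resolve_right fun hh => h.xy hp hh.1,
        q, (hc q (Sym2.mem_mk_right _ _)).resolve_right fun hh => h.xy hq hh.1, ed, rfl⟩
    · exact Or.inr ⟨p, (hc p (Sym2.mem_mk_left _ _)).resolve_left fun hh => h.xy hh.1 hp,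
        q, (hc q (Sym2.mem_mk_right _ _)).resolve_left fun hh => h.xy hh.1 hq, ed, rfl⟩
  · have key : ∀ e ∈ SIn S (d.Lf u v), ∀ e' ∈ SIn S (d.Lf u v), Sep H d e e' →
        Sep H (d.left u v IL) e e' := by
      rintro e - e' ⟨he', hc'⟩ ⟨u1, hu1, v1, hv1, ed, h1, h2⟩
      rcases cross u1 hu1 v1 hv1 ed with ⟨l1, l2⟩ | ⟨l1, l2⟩
      · refine ⟨u1, ⟨hu1, l1⟩, v1, ⟨hv1, l2⟩, ed, fun x hx => ?_, fun x hx => ?_⟩
        · rcases h1 x hx with hh | hh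
          exacts [Or.inl ⟨⟨hh.1, hh.2.trans l1⟩, hh.2⟩, Or.inr ⟨⟨hh.1, hh.2.trans l2⟩, hh.2⟩]
        · rcases h2 x hx with hh | hh
          · exact Or.inl ⟨(hc' x hx).resolve_right fun h3 => h.xy hh.1 h3.1, hh.2⟩
          · exact Or.inr ⟨(hc' x hx).resolve_left fun h3 => h.xy h3.1 hh.1, hh.2⟩
      · exfalso
        obtain ⟨p, hp, q, hq, hne, hh | hh⟩ := ends h (hS.1 he')
        · have b1 := ((hc' p hp).resolve_right fun h3 => hh.2.2.1 h3.1).2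
          have b2 := ((hc' q hq).resolve_right fun h3 => hh.2.2.2 h3.1).2
          have b3 := ((h2 p hp).resolve_right fun h3 => hh.2.2.1 h3.1).2
          have b4 := ((h2 q hq).resolve_right fun h3 => hh.2.2.2 h3.1).2
          omega
        · have b1 := ((hc' p hp).resolve_left fun h3 => hh.2.2.1 h3.1).2
          have b2 := ((hc' q hq).resolve_left fun h3 => hh.2.2.2 h3.1).2
          have b3 := ((h2 p hp).resolve_left fun h3 => hh.2.2.1 h3.1).2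
          have b4 := ((h2 q hq).resolve_left fun h3 => hh.2.2.2 h3.1).2
          omega
    exact fun e he e' he' hne =>
      (hS.2 e he.1 e' he'.1 hne).imp (key e he e' he') (key e' he' e he)
  · rintro e ⟨he, hc⟩
    rcases hS.1 he with ⟨p, hp, q, hq, ed, rfl⟩ | ⟨p, hp, q, hq, ed, rfl⟩
    · exact Or.inl ⟨p, (hc p (Sym2.mem_mk_left _ _)).resolve_right fun hh => h.xy hp hh.1,
        q, (hc q (Sym2.mem_mk_right _ _)).resolve_right fun hh => h.xy hq hh.1, ed, rfl⟩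
    · exact Or.inr ⟨p, (hc p (Sym2.mem_mk_left _ _)).resolve_left fun hh => h.xy hh.1 hp,
        q, (hc q (Sym2.mem_mk_right _ _)).resolve_left fun hh => h.xy hh.1 hq, ed, rfl⟩
  · have key : ∀ e ∈ SIn S (d.Rt u v), ∀ e' ∈ SIn S (d.Rt u v), Sep H d e e' →
        Sep H (d.right u v IR) e e' := by
      rintro e ⟨he, hc⟩ e' - ⟨u1, hu1, v1, hv1, ed, h1, h2⟩
      rcases cross u1 hu1 v1 hv1 ed with ⟨l1, l2⟩ | ⟨l1, l2⟩
      · exfalso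
        obtain ⟨p, hp, q, hq, hne, hh | hh⟩ := ends h (hS.1 he)
        · have b1 := ((hc p hp).resolve_right fun h3 => hh.2.2.1 h3.1).2
          have b2 := ((hc q hq).resolve_right fun h3 => hh.2.2.2 h3.1).2
          have b3 := ((h1 p hp).resolve_right fun h3 => hh.2.2.1 h3.1).2
          have b4 := ((h1 q hq).resolve_right fun h3 => hh.2.2.2 h3.1).2
          omega
        · have b1 := ((hc p hp).resolve_left fun h3 => hh.2.2.1 h3.1).2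
          have b2 := ((hc q hq).resolve_left fun h3 => hh.2.2.2 h3.1).2
          have b3 := ((h1 p hp).resolve_left fun h3 => hh.2.2.1 h3.1).2
          have b4 := ((h1 q hq).resolve_left fun h3 => hh.2.2.2 h3.1).2
          omega
      · refine ⟨u1, ⟨hu1, l1⟩, v1, ⟨hv1, l2⟩, ed, fun x hx => ?_, fun x hx => ?_⟩
        · rcases h1 x hx with hh | hh
          · exact Or.inl ⟨(hc x hx).resolve_right fun h3 => h.xy hh.1 h3.1, hh.2⟩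
          · exact Or.inr ⟨(hc x hx).resolve_left fun h3 => h.xy h3.1 hh.1, hh.2⟩
        · rcases h2 x hx with hh | hh
          exacts [Or.inl ⟨⟨hh.1, l1.trans hh.2⟩, hh.2⟩, Or.inr ⟨⟨hh.1, l2.trans hh.2⟩, hh.2⟩]
    exact fun e he e' he' hne =>
      (hS.2 e he.1 e' he'.1 hne).imp (key e he e' he') (key e' he' e he)

end Pool.Agent.P.MP_08fd93_co.OV
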