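import Pool.Agent.P.MP_08fd93_co.OV.St1

/-! Package Spl2 of project OV: the shape of the glued output. -/

set_option autoImplicit false

namespace Pool.Agent.P.MP_08fd93_co.OV

namespace PkSpl2P

variable {W : Type} {H : SimpleGraph W}

lemma pth_congr {X : Set W} {ρ ρ' : W → ℤ} {a b : W} (h : Pth H X ρ a b)
    (e : ∀ x ∈ X, ρ' x = ρ x) : Pth H X ρ' a b where
  fin := h.fin
  ha := h.ha
  hb := h.hb
  lo := fun u hu => by rw [e _ h.ha, e _ hu]; exact h.lo u hu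
  hi := fun u hu => by rw [e _ h.hb, e _ hu]; exact h.hi u hu
  inj := fun u hu v hv huv => h.inj u hu v hv (by rw [← e _ hu, ← e _ hv]; exact huv)
  adj := fun u hu v hv huv => by
    rw [e _ hu, e _ hv] at huv ⊢
    rw [h.adj u hu v hv huv]
    exact forall₂_congr fun x hx => by rw [e _ hx]

lemma pth_glue {X1 X2 : Set W} {ρ : W → ℤ} {a u b : W} (h1 : Pth H X1 ρ a u)
    (h2 : Pth H X2 ρ u b)
    (hn : ∀ x ∈ X1, ∀ y ∈ X2, x ≠ u → y ≠ u → ¬ H.Adj x y) : Pth H (X1 ∪ X2) ρ a b where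
  fin := h1.fin.union h2.fin
  ha := Or.inl h1.ha
  hb := Or.inr h2.hb
  lo := by
    rintro x (hx | hx)
    · exact h1.lo x hx
    · exact (h1.lo u h1.hb).trans (h2.lo x hx)
  hi := by
    rintro x (hx | hx)
    · exact (h1.hi x hx).trans (h2.hi u h2.ha)
    · exact h2.hi x hx
  inj := by
    have key : ∀ x ∈ X1, ∀ y ∈ X2, ρ x = ρ y → x = y := by
      intro x hx y hy hxy
      have e1 := h1.hi x hx
      have e2 := h2.lo y hy
      rw [h1.inj x hx u h1.hb (by omega), h2.inj y hy u h2.ha (by omega)]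
    rintro x (hx | hx) y (hy | hy) hxy
    · exact h1.inj x hx y hy hxy
    · exact key x hx y hy hxy
    · exact (key y hy x hx hxy.symm).symm
    · exact h2.inj x hx y hy hxy
  adj := by
    have k1 : ∀ x ∈ X1, ∀ y ∈ X1, ρ x < ρ y →
        (H.Adj x y ↔ ∀ z ∈ X1 ∪ X2, ρ z ≤ ρ x ∨ ρ y ≤ ρ z) := by
      intro x hx y hy hxy
      rw [h1.adj x hx y hy hxy]
      refine ⟨?_, fun h z hz => h z (Or.inl hz)⟩
      rintro h z (hz | hz)
      · exact h z hz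
      · exact Or.inr ((h1.hi y hy).trans (h2.lo z hz))
    have k2 : ∀ x ∈ X2, ∀ y ∈ X2, ρ x < ρ y →
        (H.Adj x y ↔ ∀ z ∈ X1 ∪ X2, ρ z ≤ ρ x ∨ ρ y ≤ ρ z) := by
      intro x hx y hy hxy
      rw [h2.adj x hx y hy hxy]
      refine ⟨?_, fun h z hz => h z (Or.inr hz)⟩
      rintro h z (hz | hz)
      · exact Or.inl ((h1.hi z hz).trans (h2.lo x hx))
      · exact h z hz
    rintro x (hx | hx) y (hy | hy) hxy
    · exact k1 x hx y hy hxy
    · by_cases hxu : x = u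
      · exact k2 x (hxu ▸ h2.ha) y hy hxy
      by_cases hyu : y = u
      · exact k1 x hx y (hyu ▸ h1.hb) hxy
      refine ⟨fun h => absurd h (hn x hx y hy hxu hyu), fun h => ?_⟩
      exfalso
      have e1 := h1.hi x hx
      have e2 := h2.lo y hy
      rcases h u (Or.inl h1.hb) with h' | h'
      · exact hxu (h1.inj x hx u h1.hb (by omega))
      · exact hyu (h2.inj y hy u h2.ha (by omega))
    · have e1 := h1.hi y hy
      have e2 := h2.lo x hx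
      omega
    · exact k2 x hx y hy hxy

/-- Abstract geometry of a splitting: `e` and `e'` are the two parts. -/
structure Geo (H : SimpleGraph W) (d e e' : DD W) (u v : W) : Prop where
  dd : Disc H d
  de : Disc H e
  cov : ∀ x, x ∉ d.Z → x ∉ e.Z ∨ x ∉ e'.Z
  zz : d.Z ⊆ e.Z
  ov : ∀ x, x ∉ e.Z → x ∉ e'.Z → x = u ∨ x = v
  na : ∀ x y, x ∉ e.Z → y ∉ e'.Z → x ≠ u → x ≠ v → y ≠ u → y ≠ v → ¬ H.Adj x y
  hx : ∀ x, x ∈ e.X ↔ x ∈ d.X ∧ x ∉ e.Z
  hy : ∀ x, x ∈ e.Y ↔ x ∈ d.Y ∧ x ∉ e.Z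
  rho : e.ρ = d.ρ
  ue : u = e.a ∧ v = e.a' ∨ u = e.b ∧ v = e.b'

lemma geo {d : DD W} {u v : W} {IL IR : Set W} (h : Spl H d u v IL IR)
    (nc : ∀ x ∈ d.Lo u v, ∀ y ∈ d.Hi u v, ¬ H.Adj x y) :
    Geo H d (d.left u v IL) (d.right u v IR) u v ∧
      Geo H d (d.right u v IR) (d.left u v IL) u v := by
  have hd := h.disc
  have hI : ∀ x, x ∈ IL ∨ x ∈ IR → x ∉ d.Z ∧ x ∉ d.X ∧ x ∉ d.Y := by
    intro x hx
    have := (h.cov x).2 hx
    simp only [DD.I, Set.mem_compl_iff, Set.mem_union, not_or] at this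
    exact this
  have hZ : ∀ x ∈ d.Z, x ∉ d.X ∧ x ∉ d.Y := fun x hx =>
    ⟨fun h' => Set.disjoint_left.1 hd.dz hx (Or.inl h'),
      fun h' => Set.disjoint_left.1 hd.dz hx (Or.inr h')⟩
  have hXY : ∀ x ∈ d.X, x ∉ d.Y := fun x hx => Set.disjoint_left.1 hd.dxy hx
  have mL : ∀ x, x ∉ (d.left u v IL).Z ↔
      (x ∈ d.X ∧ d.ρ x ≤ d.ρ u) ∨ (x ∈ d.Y ∧ d.ρ x ≤ d.ρ v) ∨ x ∈ IL := by
    intro x
    simp only [DD.left, DD.Lf, Set.mem_compl_iff, not_not, Set.mem_union, Set.mem_ofPred_eq,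
      or_assoc]
  have mR : ∀ x, x ∉ (d.right u v IR).Z ↔
      (x ∈ d.X ∧ d.ρ u ≤ d.ρ x) ∨ (x ∈ d.Y ∧ d.ρ v ≤ d.ρ x) ∨ x ∈ IR := by
    intro x
    simp only [DD.right, DD.Rt, Set.mem_compl_iff, not_not, Set.mem_union, Set.mem_ofPred_eq,
      or_assoc]
  have cov : ∀ x, x ∉ d.Z → x ∉ (d.left u v IL).Z ∨ x ∉ (d.right u v IR).Z := by
    intro x hx
    rw [mL, mR]
    by_cases h1 : x ∈ d.X
    · rcases le_total (d.ρ x) (d.ρ u) with h' | h'
      · exact Or.inl (Or.inl ⟨h1, h'⟩)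
      · exact Or.inr (Or.inl ⟨h1, h'⟩)
    by_cases h2 : x ∈ d.Y
    · rcases le_total (d.ρ x) (d.ρ v) with h' | h'
      · exact Or.inl (Or.inr (Or.inl ⟨h2, h'⟩))
      · exact Or.inr (Or.inr (Or.inl ⟨h2, h'⟩))
    rcases (h.cov x).1 (by
      simp only [DD.I, Set.mem_compl_iff, Set.mem_union, not_or]; exact ⟨hx, h1, h2⟩) with h' | h'
    · exact Or.inl (Or.inr (Or.inr h'))
    · exact Or.inr (Or.inr (Or.inr h'))
  have ov : ∀ x, x ∉ (d.left u v IL).Z → x ∉ (d.right u v IR).Z → x = u ∨ x = v := by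
    intro x h1 h2
    rw [mL] at h1
    rw [mR] at h2
    rcases h1 with h1 | h1 | h1 <;> rcases h2 with h2 | h2 | h2
    · exact Or.inl (hd.px.inj x h1.1 u h.hu (le_antisymm h1.2 h2.2))
    · exact absurd h2.1 (hXY x h1.1)
    · exact absurd h1.1 (hI x (Or.inr h2)).2.1
    · exact absurd h1.1 (hXY x h2.1)
    · exact Or.inr (hd.py.inj x h1.1 v h.hv (le_antisymm h1.2 h2.2))
    · exact absurd h1.1 (hI x (Or.inr h2)).2.2
    · exact absurd h2.1 (hI x (Or.inl h1)).2.1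
    · exact absurd h2.1 (hI x (Or.inl h1)).2.2
    · exact absurd h2 (Set.disjoint_left.1 h.dis h1)
  have na : ∀ x y, x ∉ (d.left u v IL).Z → y ∉ (d.right u v IR).Z → x ≠ u → x ≠ v → y ≠ u →
      y ≠ v → ¬ H.Adj x y := by
    intro x y hx hy h1 h2 h3 h4 hxy
    have hy' : y ∈ (d.left u v IL).Z := by
      by_contra h'
      exact (ov y h' hy).elim h3 h4
    have hx' : x ∈ (d.right u v IR).Z := by
      by_contra h'
      exact (ov x hx h').elim h1 h2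
    have k1 := (h.dl.cl ⟨y, hy', hxy⟩).resolve_left hx
    have k2 := (h.dr.cl ⟨x, hx', hxy.symm⟩).resolve_left hy
    refine nc x ?_ y ?_ hxy
    · rcases k1 with k | k
      · exact Or.inl ⟨k.1, lt_of_le_of_ne k.2 fun e => h1 (hd.px.inj x k.1 u h.hu e)⟩
      · exact Or.inr ⟨k.1, lt_of_le_of_ne k.2 fun e => h2 (hd.py.inj x k.1 v h.hv e)⟩
    · rcases k2 with k | k
      · exact Or.inl ⟨k.1, lt_of_le_of_ne k.2 fun e => h3 (hd.px.inj y k.1 u h.hu e.symm)⟩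
      · exact Or.inr ⟨k.1, lt_of_le_of_ne k.2 fun e => h4 (hd.py.inj y k.1 v h.hv e.symm)⟩
  constructor
  · refine ⟨hd, h.dl, cov, fun x hx => ?_, ov, na, fun x => ?_, fun x => ?_, rfl,
      Or.inr ⟨rfl, rfl⟩⟩
    · by_contra h'
      rcases (mL x).1 h' with k | k | k
      · exact (hZ x hx).1 k.1
      · exact (hZ x hx).2 k.1
      · exact (hI x (Or.inl k)).1 hx
    · rw [mL]
      refine ⟨fun k => ⟨k.1, Or.inl k⟩, ?_⟩
      rintro ⟨k0, k | k | k⟩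
      · exact k
      · exact absurd k.1 (hXY x k0)
      · exact absurd k0 (hI x (Or.inl k)).2.1
    · rw [mL]
      refine ⟨fun k => ⟨k.1, Or.inr (Or.inl k)⟩, ?_⟩
      rintro ⟨k0, k | k | k⟩
      · exact absurd k0 (hXY x k.1)
      · exact k
      · exact absurd k0 (hI x (Or.inl k)).2.2
  · refine ⟨hd, h.dr, fun x hx => (cov x hx).symm, fun x hx => ?_, fun x h1 h2 => ov x h2 h1,
      fun x y hx hy h1 h2 h3 h4 hxy => na y x hy hx h3 h4 h1 h2 hxy.symm, fun x => ?_,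
      fun x => ?_, rfl, Or.inl ⟨rfl, rfl⟩⟩
    · by_contra h'
      rcases (mR x).1 h' with k | k | k
      · exact (hZ x hx).1 k.1
      · exact (hZ x hx).2 k.1
      · exact (hI x (Or.inr k)).1 hx
    · rw [mR]
      refine ⟨fun k => ⟨k.1, Or.inl k⟩, ?_⟩
      rintro ⟨k0, k | k | k⟩
      · exact k
      · exact absurd k.1 (hXY x k0)
      · exact absurd k0 (hI x (Or.inr k)).2.1
    · rw [mR]
      refine ⟨fun k => ⟨k.1, Or.inr (Or.inl k)⟩, ?_⟩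
      rintro ⟨k0, k | k | k⟩
      · exact absurd k0 (hXY x k.1)
      · exact k
      · exact absurd k0 (hI x (Or.inr k)).2.2

section side
variable {d e e' : DD W} {u v : W} {S : Set (Sym2 W)} {o : OD W}

lemma uX (g : Geo H d e e' u v) (s : Shp H e S o) : u ∈ o.X := by
  rcases g.ue with h | h
  · rw [h.1]; exact s.disc.px.ha
  · rw [h.1]; exact s.disc.px.hb

lemma vY (g : Geo H d e e' u v) (s : Shp H e S o) : v ∈ o.Y := by
  rcases g.ue with h | h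
  · rw [h.2]; exact s.disc.py.ha
  · rw [h.2]; exact s.disc.py.hb

lemma ueX (g : Geo H d e e' u v) : u ∈ e.X := by
  rcases g.ue with h | h
  · rw [h.1]; exact g.de.px.ha
  · rw [h.1]; exact g.de.px.hb

lemma veY (g : Geo H d e e' u v) : v ∈ e.Y := by
  rcases g.ue with h | h
  · rw [h.2]; exact g.de.py.ha
  · rw [h.2]; exact g.de.py.hb

lemma notZ (s : Shp H e S o) {x : W} (hx : x ∈ o.X ∨ x ∈ o.Y) : x ∉ o.Z :=
  fun h => Set.disjoint_left.1 s.disc.dz h hx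

lemma notE (s : Shp H e S o) {x : W} (hx : x ∈ o.X ∨ x ∈ o.Y) : x ∉ e.Z :=
  fun h => notZ s hx (s.zz h)

lemma notXY (s : Shp H e S o) {x : W} (hx : x ∈ o.X) : x ∉ o.Y :=
  Set.disjoint_left.1 s.disc.dxy hx

/-- a neighbour of a pocket vertex in the outside of the part lies in the old outside -/
lemma exit (g : Geo H d e e' u v) (s : Shp H e S o) {x z : W} (hx : x ∈ o.Z) (hx' : x ∉ e.Z)
    (hz : z ∈ e.Z) (hxz : H.Adj x z) : z ∈ d.Z := by
  by_contra h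
  have hz' := (g.cov z h).resolve_left (not_not.2 hz)
  refine g.na x z hx' hz' ?_ ?_ ?_ ?_ hxz
  · rintro rfl; exact notZ s (Or.inl (uX g s)) hx
  · rintro rfl; exact notZ s (Or.inr (vY g s)) hx
  · rintro rfl; exact notE s (Or.inl (uX g s)) hz
  · rintro rfl; exact notE s (Or.inr (vY g s)) hz

lemma reach (g : Geo H d e e' u v) (s : Shp H e S o) (Z : Set W) (h0 : d.Z ⊆ Z)
    (h1 : ∀ x ∈ o.Z, x ∉ e.Z → x ∈ Z) {x : W} (hx : x ∈ o.Z) (hx' : x ∉ e.Z) :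
    ∃ y ∈ d.Z, Conn H Z x y := by
  obtain ⟨z, hz, -⟩ := g.de.tz (Or.inl g.de.px.ha)
  have hc : Conn H o.Z x z := s.disc.zc x hx z (s.zz hz)
  clear hx
  revert hx'
  induction hc using Relation.ReflTransGen.head_induction_on with
  | refl => exact fun h => absurd hz h
  | @head p q hpq _ ih =>
    intro hp
    by_cases hq : q ∈ e.Z
    · have hq' := exit g s hpq.1 hp hq hpq.2.2
      exact ⟨q, hq', Relation.ReflTransGen.single ⟨h1 p hpq.1 hp, h0 hq', hpq.2.2⟩⟩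
    · obtain ⟨y, hy, hc⟩ := ih hq
      exact ⟨y, hy, Relation.ReflTransGen.head ⟨h1 p hpq.1 hp, h1 q hpq.2.1 hq, hpq.2.2⟩ hc⟩

end side

lemma conn_symm {A : Set W} {x y : W} (h : Conn H A x y) : Conn H A y x := by
  induction h with
  | refl => exact Relation.ReflTransGen.refl
  | tail _ h2 ih => exact Relation.ReflTransGen.head ⟨h2.2.1, h2.1, h2.2.2.symm⟩ ih

lemma conn_mono {A B : Set W} (hAB : A ⊆ B) {x y : W} (h : Conn H A x y) : Conn H B x y := by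
  induction h with
  | refl => exact Relation.ReflTransGen.refl
  | tail _ h2 ih => exact Relation.ReflTransGen.tail ih ⟨hAB h2.1, hAB h2.2.1, h2.2.2⟩

/-- Abstract description of a glued output. -/
structure Glu (d e e' : DD W) (o o' G : OD W) : Prop where
  z : ∀ x, x ∈ G.Z ↔ x ∈ d.Z ∨ (x ∈ o.Z ∧ x ∉ e.Z) ∨ (x ∈ o'.Z ∧ x ∉ e'.Z)
  x : ∀ x, x ∈ G.X ↔ x ∈ o.X ∨ x ∈ o'.X
  y : ∀ x, x ∈ G.Y ↔ x ∈ o.Y ∨ x ∈ o'.Y
  r : ∀ x, x ∈ o.X ∨ x ∈ o.Y → G.ρ x = o.ρ x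
  a : ∀ x ∈ o.Z, x ∉ e.Z → G.ax x = o.ax x

section one
variable {d e e' : DD W} {u v : W} {S S' : Set (Sym2 W)} {o o' G : OD W}

lemma xx1 (g : Geo H d e e' u v) (s : Shp H e S o) (k : Glu d e e' o o' G) {x : W}
    (hx : x ∈ d.X) (hx' : x ∉ e.Z) : x ∈ G.X ∪ G.Z := by
  rcases s.xx ((g.hx x).2 ⟨hx, hx'⟩) with h | h
  · exact Or.inl ((k.x x).2 (Or.inl h))
  · exact Or.inr ((k.z x).2 (Or.inr (Or.inl ⟨h, hx'⟩)))

lemma yy1 (g : Geo H d e e' u v) (s : Shp H e S o) (k : Glu d e e' o o' G) {x : W}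
    (hx : x ∈ d.Y) (hx' : x ∉ e.Z) : x ∈ G.Y ∪ G.Z := by
  rcases s.yy ((g.hy x).2 ⟨hx, hx'⟩) with h | h
  · exact Or.inl ((k.y x).2 (Or.inl h))
  · exact Or.inr ((k.z x).2 (Or.inr (Or.inl ⟨h, hx'⟩)))

lemma ap1 (g : Geo H d e e' u v) (s : Shp H e S o) (k : Glu d e e' o o' G) {x : W}
    (hx : x ∈ o.Z) (hx' : x ∉ e.Z) :
    (G.ax x ∈ G.X ∧ G.ax x ∉ d.X) ∨ (G.ax x ∈ G.Y ∧ G.ax x ∉ d.Y) := by
  rw [k.a x hx hx']
  rcases s.ap x hx hx' with h | h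
  · exact Or.inl ⟨(k.x _).2 (Or.inl h.1), fun h' => h.2 ((g.hx _).2 ⟨h', notE s (Or.inl h.1)⟩)⟩
  · exact Or.inr ⟨(k.y _).2 (Or.inl h.1), fun h' => h.2 ((g.hy _).2 ⟨h', notE s (Or.inr h.1)⟩)⟩

lemma pk1 (g : Geo H d e e' u v) (s : Shp H e S o) (k : Glu d e e' o o' G) {x : W}
    (hx : x ∈ o.Z) (hx' : x ∉ e.Z) (z : W) (hxz : H.Adj x z) :
    z ∈ d.Z ∨ (z ∈ G.Z ∧ G.ax z = G.ax x) ∨ z = G.ax x ∨
      (H.Adj z (G.ax x) ∧ ((z ∈ G.X ∧ G.ax x ∈ G.X) ∨ (z ∈ G.Y ∧ G.ax x ∈ G.Y))) := by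
  by_cases hz : z ∈ e.Z
  · exact Or.inl (exit g s hx hx' hz hxz)
  rw [k.a x hx hx']
  rcases s.pk x hx hx' z hxz with h | h | h | h
  · exact absurd h hz
  · exact Or.inr (Or.inl ⟨(k.z z).2 (Or.inr (Or.inl ⟨h.1, hz⟩)), by rw [k.a z h.1 hz, h.2]⟩)
  · exact Or.inr (Or.inr (Or.inl h))
  · refine Or.inr (Or.inr (Or.inr ⟨h.1, ?_⟩))
    rcases h.2 with h' | h'
    · exact Or.inl ⟨(k.x _).2 (Or.inl h'.1), (k.x _).2 (Or.inl h'.2)⟩
    · exact Or.inr ⟨(k.y _).2 (Or.inl h'.1), (k.y _).2 (Or.inl h'.2)⟩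

lemma dz1 (g : Geo H d e e' u v) (g' : Geo H d e' e u v) (s : Shp H e S o) (s' : Shp H e' S' o')
    (k : Glu d e e' o o' G) {x : W} (hx : x ∈ o.X ∨ x ∈ o.Y) : x ∉ G.Z := by
  intro h
  rcases (k.z x).1 h with h | h | h
  · exact notE s hx (g.zz h)
  · exact notZ s hx h.1
  · rcases g.ov x (notE s hx) h.2 with rfl | rfl
    · exact notZ s' (Or.inl (uX g' s')) h.1
    · exact notZ s' (Or.inr (vY g' s')) h.1

lemma tz1 (g : Geo H d e e' u v) (s : Shp H e S o) (k : Glu d e e' o o' G) {x : W}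
    (hx : x ∈ o.X ∨ x ∈ o.Y) : x ∈ Nb H G.Z := by
  obtain ⟨z, hz, hxz⟩ := s.disc.tz hx
  by_cases hz' : z ∈ e.Z
  · have h1 := (g.de.cl ⟨z, hz', hxz⟩).resolve_left (notE s hx)
    have h2 : x ∈ d.X ∪ d.Y := h1.imp (fun h => ((g.hx x).1 h).1) fun h => ((g.hy x).1 h).1
    obtain ⟨y, hy, hxy⟩ := g.dd.tz h2
    exact ⟨y, (k.z y).2 (Or.inl hy), hxy⟩
  · exact ⟨z, (k.z z).2 (Or.inr (Or.inl ⟨hz, hz'⟩)), hxz⟩

lemma naX (g : Geo H d e e' u v) (g' : Geo H d e' e u v) (s : Shp H e S o) (s' : Shp H e' S' o')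
    {x y : W} (hx : x ∈ o.X) (hy : y ∈ o'.X) (h1 : x ≠ u) (h2 : y ≠ u) : ¬ H.Adj x y := by
  refine g.na x y (notE s (Or.inl hx)) (notE s' (Or.inl hy)) h1 ?_ h2 ?_
  · rintro rfl; exact notXY s hx (vY g s)
  · rintro rfl; exact notXY s' hy (vY g' s')

lemma naY (g : Geo H d e e' u v) (g' : Geo H d e' e u v) (s : Shp H e S o) (s' : Shp H e' S' o')
    {x y : W} (hx : x ∈ o.Y) (hy : y ∈ o'.Y) (h1 : x ≠ v) (h2 : y ≠ v) : ¬ H.Adj x y := by
  refine g.na x y (notE s (Or.inr hx)) (notE s' (Or.inr hy)) ?_ h1 ?_ h2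
  · rintro rfl; exact notXY s (uX g s) hx
  · rintro rfl; exact notXY s' (uX g' s') hy

lemma dxy1 (g : Geo H d e e' u v) (g' : Geo H d e' e u v) (s : Shp H e S o) (s' : Shp H e' S' o')
    {x : W} (hx : x ∈ o.X) (hy : x ∈ o'.Y) : False := by
  rcases g.ov x (notE s (Or.inl hx)) (notE s' (Or.inr hy)) with rfl | rfl
  · exact notXY s' (uX g' s') hy
  · exact notXY s hx (vY g s)

lemma st1 (g : Geo H d e e' u v) (g' : Geo H d e' e u v) (s : Shp H e S o) (s' : Shp H e' S' o')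
    (k : Glu d e e' o o' G) {ε : Sym2 W} (hε : ε ∈ S) {x : W} (hx : x ∈ ε) (hx' : x ∉ e.Z) :
    x ∉ G.Z := by
  intro h
  rcases (k.z x).1 h with h | h | h
  · exact hx' (g.zz h)
  · exact s.st ε hε x hx h.1
  · rcases g.ov x hx' h.2 with rfl | rfl
    · exact notZ s' (Or.inl (uX g' s')) h.1
    · exact notZ s' (Or.inr (vY g' s')) h.1

/-- an edge outside the old outside lies in one of the two parts -/
lemma edge_side (g : Geo H d e e' u v) (g' : Geo H d e' e u v) {p q : W} (hp : p ∉ d.Z)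
    (hq : q ∉ d.Z) (hpq : H.Adj p q) : (p ∉ e.Z ∧ q ∉ e.Z) ∨ (p ∉ e'.Z ∧ q ∉ e'.Z) := by
  have hu := ((g.hx u).1 (ueX g)).2
  have hv := ((g.hy v).1 (veY g)).2
  have hu' := ((g'.hx u).1 (ueX g')).2
  have hv' := ((g'.hy v).1 (veY g')).2
  by_cases h1 : p ∈ e.Z
  · have h2 := (g.cov p hp).resolve_left (not_not.2 h1)
    by_cases h3 : q ∈ e'.Z
    · exact absurd hpq.symm (g.na q p ((g.cov q hq).resolve_right (not_not.2 h3)) h2
        (fun h => hu' (h ▸ h3)) (fun h => hv' (h ▸ h3)) (fun h => hu (h ▸ h1))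
        (fun h => hv (h ▸ h1)))
    · exact Or.inr ⟨h2, h3⟩
  · by_cases h3 : q ∈ e.Z
    · have h2 := (g.cov q hq).resolve_left (not_not.2 h3)
      by_cases h4 : p ∈ e'.Z
      · exact absurd hpq (g.na p q h1 h2
          (fun h => hu' (h ▸ h4)) (fun h => hv' (h ▸ h4)) (fun h => hu (h ▸ h3))
          (fun h => hv (h ▸ h3)))
      · exact Or.inr ⟨h4, h2⟩
    · exact Or.inl ⟨h1, h3⟩

end one

lemma glu {d : DD W} {u v : W} {IL IR : Set W} {SL SR : Set (Sym2 W)} {oL oR : OD W}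
    (g : Geo H d (d.left u v IL) (d.right u v IR) u v)
    (g' : Geo H d (d.right u v IR) (d.left u v IL) u v)
    (s : Shp H (d.left u v IL) SL oL) (s' : Shp H (d.right u v IR) SR oR) :
    Glu d (d.left u v IL) (d.right u v IR) oL oR (glue d u v IL IR oL oR) ∧
      Glu d (d.right u v IR) (d.left u v IL) oR oL (glue d u v IL IR oL oR) := by
  constructor
  · exact ⟨fun _ => Iff.rfl, fun _ => Iff.rfl, fun _ => Iff.rfl, fun x hx => if_pos hx,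
      fun x _ hx => if_pos hx⟩
  · refine ⟨fun x => ?_, fun _ => or_comm, fun _ => or_comm, fun x hx => ?_, fun x hx hx' => ?_⟩
    · exact or_congr_right or_comm
    · by_cases h : x ∈ oL.X ∨ x ∈ oL.Y
      · refine (if_pos h).trans ?_
        rcases g.ov x (notE s h) (notE s' hx) with rfl | rfl
        · rw [s.rx _ (ueX g) (uX g s), s'.rx _ (ueX g') (uX g' s')]; rfl
        · rw [s.ry _ (veY g) (vY g s), s'.ry _ (veY g') (vY g' s')]; rfl
      · exact if_neg h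
    · refine if_neg fun h => ?_
      rcases g.ov x h hx' with rfl | rfl
      · exact notZ s' (Or.inl (uX g' s')) hx
      · exact notZ s' (Or.inr (vY g' s')) hx

theorem core {d : DD W} {u v : W} {IL IR : Set W} {S : Set (Sym2 W)} {oL oR : OD W}
    (h : Spl H d u v IL IR) (nc : ∀ x ∈ d.Lo u v, ∀ y ∈ d.Hi u v, ¬ H.Adj x y)
    (hS : S ⊆ PE H d.X ∪ PE H d.Y) (s : Shp H (d.left u v IL) (SIn S (d.Lf u v)) oL)
    (s' : Shp H (d.right u v IR) (SIn S (d.Rt u v)) oR) :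
    Shp H d S (glue d u v IL IR oL oR) := by
  obtain ⟨g, g'⟩ := geo h nc
  obtain ⟨k, k'⟩ := glu g g' s s'
  set G := glue d u v IL IR oL oR with hG
  have hd := h.disc
  have hZ : ∀ x, x ∈ d.X ∨ x ∈ d.Y → x ∉ d.Z := fun x hx h' => Set.disjoint_left.1 hd.dz h' hx
  have xx : d.X ⊆ G.X ∪ G.Z := fun x hx =>
    (g.cov x (hZ x (Or.inl hx))).elim (xx1 g s k hx) (xx1 g' s' k' hx)
  have yy : d.Y ⊆ G.Y ∪ G.Z := fun x hx =>
    (g.cov x (hZ x (Or.inr hx))).elim (yy1 g s k hx) (yy1 g' s' k' hx)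
  have zz : d.Z ⊆ G.Z := fun x hx => (k.z x).2 (Or.inl hx)
  have ap : ∀ x ∈ G.Z, x ∉ d.Z →
      (G.ax x ∈ G.X ∧ G.ax x ∉ d.X) ∨ (G.ax x ∈ G.Y ∧ G.ax x ∉ d.Y) := by
    intro x hx hx'
    rcases (k.z x).1 hx with h1 | h1 | h1
    · exact absurd h1 hx'
    · exact ap1 g s k h1.1 h1.2
    · exact ap1 g' s' k' h1.1 h1.2
  have pk : ∀ x ∈ G.Z, x ∉ d.Z → ∀ z, H.Adj x z →
      z ∈ d.Z ∨ (z ∈ G.Z ∧ G.ax z = G.ax x) ∨ z = G.ax x ∨
      (H.Adj z (G.ax x) ∧ ((z ∈ G.X ∧ G.ax x ∈ G.X) ∨ (z ∈ G.Y ∧ G.ax x ∈ G.Y))) := by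
    intro x hx hx'
    rcases (k.z x).1 hx with h1 | h1 | h1
    · exact absurd h1 hx'
    · exact pk1 g s k h1.1 h1.2
    · exact pk1 g' s' k' h1.1 h1.2
  have hsub : (d.upd G).I ⊆ d.I := by
    intro x hx h1
    refine hx ?_
    rcases h1 with h1 | h1 | h1
    · exact Or.inl (zz h1)
    · exact (xx h1).elim (fun h2 => Or.inr (Or.inl h2)) Or.inl
    · exact (yy h1).elim (fun h2 => Or.inr (Or.inr h2)) Or.inl
  have split : ∀ x, x ∈ G.X ∪ G.Y → (x ∈ oL.X ∨ x ∈ oL.Y) ∨ (x ∈ oR.X ∨ x ∈ oR.Y) := by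
    rintro x (hx | hx)
    · exact ((k.x x).1 hx).imp Or.inl Or.inl
    · exact ((k.y x).1 hx).imp Or.inr Or.inr
  refine ⟨⟨?_, ?_, ?_, hd.ra, hd.rb, ?_, ?_, ?_, ?_, hd.fin.subset hsub,
    fun D hD => hd.nj D (hD.trans hsub)⟩, zz, xx, yy, ?_, ?_, ?_, ?_, ap, pk, ?_⟩
  · exact pth_glue (pth_congr s.disc.px fun x hx => k.r x (Or.inl hx))
      (pth_congr s'.disc.px fun x hx => k'.r x (Or.inl hx))
      fun x hx y hy => naX g g' s s' hx hy
  · exact pth_glue (pth_congr s.disc.py fun x hx => k.r x (Or.inr hx))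
      (pth_congr s'.disc.py fun x hx => k'.r x (Or.inr hx))
      fun x hx y hy => naY g g' s s' hx hy
  · refine Set.disjoint_left.2 fun x hx hy => ?_
    rcases (k.x x).1 hx with h1 | h1 <;> rcases (k.y x).1 hy with h2 | h2
    · exact notXY s h1 h2
    · exact dxy1 g g' s s' h1 h2
    · exact dxy1 g' g s' s h1 h2
    · exact notXY s' h1 h2
  · have key : ∀ x ∈ G.Z, ∃ y ∈ d.Z, Conn H G.Z x y := by
      intro x hx
      rcases (k.z x).1 hx with h1 | h1 | h1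
      · exact ⟨x, h1, Relation.ReflTransGen.refl⟩
      · exact reach g s _ zz (fun y h2 h3 => (k.z y).2 (Or.inr (Or.inl ⟨h2, h3⟩))) h1.1 h1.2
      · exact reach g' s' _ zz (fun y h2 h3 => (k.z y).2 (Or.inr (Or.inr ⟨h2, h3⟩))) h1.1 h1.2
    intro x hx y hy
    obtain ⟨x', hx', c1⟩ := key x hx
    obtain ⟨y', hy', c2⟩ := key y hy
    exact (c1.trans (conn_mono zz (hd.zc x' hx' y' hy'))).trans (conn_symm c2)
  · refine Set.disjoint_right.2 fun x hx => ?_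
    exact (split x hx).elim (dz1 g g' s s' k) (dz1 g' g s' s k')
  · rintro x ⟨z, hz, hxz⟩
    by_cases hz' : z ∈ d.Z
    · rcases hd.cl ⟨z, hz', hxz⟩ with h1 | h1 | h1
      · exact Or.inl (zz h1)
      · exact (xx h1).elim (fun h2 => Or.inr (Or.inl h2)) Or.inl
      · exact (yy h1).elim (fun h2 => Or.inr (Or.inr h2)) Or.inl
    · rcases pk z hz hz' x hxz.symm with h1 | h1 | h1 | h1
      · exact Or.inl (zz h1)
      · exact Or.inl h1.1
      · rw [h1]; exact Or.inr ((ap z hz hz').imp And.left And.left)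
      · exact Or.inr (h1.2.imp And.left And.left)
  · exact fun x hx => (split x hx).elim (tz1 g s k) (tz1 g' s' k')
  · intro x hx hx'
    rcases (k.x x).1 hx' with h1 | h1
    · rw [k.r x (Or.inl h1), s.rx x ((g.hx x).2 ⟨hx, notE s (Or.inl h1)⟩) h1, g.rho]
    · rw [k'.r x (Or.inl h1), s'.rx x ((g'.hx x).2 ⟨hx, notE s' (Or.inl h1)⟩) h1, g'.rho]
  · intro x hx hx'
    rcases (k.y x).1 hx' with h1 | h1
    · rw [k.r x (Or.inr h1), s.ry x ((g.hy x).2 ⟨hx, notE s (Or.inr h1)⟩) h1, g.rho]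
    · rw [k'.r x (Or.inr h1), s'.ry x ((g'.hy x).2 ⟨hx, notE s' (Or.inr h1)⟩) h1, g'.rho]
  · intro x hx y hy hxy
    by_cases h1 : x = u
    · exact Or.inl (h1 ▸ h.hu)
    by_cases h2 : y = u
    · exact Or.inr (h2 ▸ h.hu)
    rcases (k.x x).1 hx with h3 | h3 <;> rcases (k.x y).1 hy with h4 | h4
    · exact (s.nx x h3 y h4 hxy).imp And.left And.left
    · exact absurd hxy (naX g g' s s' h3 h4 h1 h2)
    · exact absurd hxy (naX g' g s' s h3 h4 h1 h2)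
    · exact (s'.nx x h3 y h4 hxy).imp And.left And.left
  · intro x hx y hy hxy
    by_cases h1 : x = v
    · exact Or.inl (h1 ▸ h.hv)
    by_cases h2 : y = v
    · exact Or.inr (h2 ▸ h.hv)
    rcases (k.y x).1 hx with h3 | h3 <;> rcases (k.y y).1 hy with h4 | h4
    · exact (s.ny x h3 y h4 hxy).imp And.left And.left
    · exact absurd hxy (naY g g' s s' h3 h4 h1 h2)
    · exact absurd hxy (naY g' g s' s h3 h4 h1 h2)
    · exact (s'.ny x h3 y h4 hxy).imp And.left And.left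
  · intro ε hε x hx
    obtain ⟨p, q, hp, hq, hpq, rfl⟩ : ∃ p q, (p ∈ d.X ∨ p ∈ d.Y) ∧ (q ∈ d.X ∨ q ∈ d.Y) ∧
        H.Adj p q ∧ ε = s(p, q) := by
      rcases hS hε with ⟨p, hp, q, hq, h1, h2⟩ | ⟨p, hp, q, hq, h1, h2⟩
      · exact ⟨p, q, Or.inl hp, Or.inl hq, h1, h2⟩
      · exact ⟨p, q, Or.inr hp, Or.inr hq, h1, h2⟩
    have hL : ∀ y, y ∈ d.X ∨ y ∈ d.Y → y ∉ (d.left u v IL).Z → y ∈ d.Lf u v := fun y h1 h2 =>
      h1.imp (fun h3 => (g.hx y).2 ⟨h3, h2⟩) fun h3 => (g.hy y).2 ⟨h3, h2⟩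
    have hR : ∀ y, y ∈ d.X ∨ y ∈ d.Y → y ∉ (d.right u v IR).Z → y ∈ d.Rt u v := fun y h1 h2 =>
      h1.imp (fun h3 => (g'.hx y).2 ⟨h3, h2⟩) fun h3 => (g'.hy y).2 ⟨h3, h2⟩
    rcases edge_side g g' (hZ p hp) (hZ q hq) hpq with h1 | h1
    · refine st1 g g' s s' k (ε := s(p, q)) ⟨hε, fun y hy => ?_⟩ hx ?_
      · rcases Sym2.mem_iff.1 hy with rfl | rfl
        · exact hL _ hp h1.1
        · exact hL _ hq h1.2
      · rcases Sym2.mem_iff.1 hx with rfl | rfl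
        · exact h1.1
        · exact h1.2
    · refine st1 g' g s' s k' (ε := s(p, q)) ⟨hε, fun y hy => ?_⟩ hx ?_
      · rcases Sym2.mem_iff.1 hy with rfl | rfl
        · exact hR _ hp h1.1
        · exact hR _ hq h1.2
      · rcases Sym2.mem_iff.1 hx with rfl | rfl
        · exact h1.1
        · exact h1.2

end PkSpl2P

theorem pk_Spl2 : S_Spl2 := fun _ _ _ _ _ _ _ _ _ _ h hS s s' => PkSpl2P.core h h.nc hS s s'

end Pool.Agent.P.MP_08fd93_co.OV
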