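import Pool.Agent.P.MP_08fd93_co.OV.Base
import Pool.Agent.P.MP_08fd93_co.OV.PkSpl2

/-! Package Spl3 of project OV: the extension property of the glued output. -/

set_option autoImplicit false

namespace Pool.Agent.P.MP_08fd93_co.OV

namespace PkSpl3P

open PkSpl2P

variable {W : Type} {H : SimpleGraph W} {d e e' : DD W} {u v : W} {S S1 S2 : Set (Sym2 W)}
  {o o' G : OD W}

lemma int_not (s : Shp H e S1 o) {x : W} (hx : x ∈ (e.upd o).I) :
    x ∉ e.Z ∧ x ∉ e.X ∧ x ∉ e.Y := DD.mem_I.1 (s.I_sub hx)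

lemma int_ne (g : Geo H d e e' u v) (s : Shp H e S1 o) {x : W} (hx : x ∈ (e.upd o).I) :
    x ≠ u ∧ x ≠ v :=
  ⟨fun h => (int_not s hx).2.1 (h ▸ ueX g), fun h => (int_not s hx).2.2 (h ▸ veY g)⟩

lemma int_out (g : Geo H d e e' u v) (s : Shp H e S1 o) {x : W} (hx : x ∈ (e.upd o).I) :
    x ∈ e'.Z := by
  by_contra h
  exact (g.ov x (int_not s hx).1 h).elim (int_ne g s hx).1 (int_ne g s hx).2

lemma int_sub (g : Geo H d e e' u v) (s : Shp H e S1 o) (s' : Shp H e' S2 o')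
    (k : Glu d e e' o o' G) {x : W} (hx : x ∈ (e.upd o).I) : x ∈ (d.upd G).I := by
  have h1 : x ∉ o.Z ∧ x ∉ o.X ∧ x ∉ o.Y := DD.mem_I.1 hx
  have h2 := int_out g s hx
  refine DD.mem_I.2 ⟨fun h => ?_, fun h => ?_, fun h => ?_⟩
  · rcases (k.z x).1 h with h | h | h
    · exact (int_not s hx).1 (g.zz h)
    · exact h1.1 h.1
    · exact h.2 h2
  · rcases (k.x x).1 h with h | h
    · exact h1.2.1 h
    · exact notE s' (Or.inl h) h2
  · rcases (k.y x).1 h with h | h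
    · exact h1.2.2 h
    · exact notE s' (Or.inr h) h2

lemma int_of (k : Glu d e e' o o' G) {x : W} (hx : x ∈ (d.upd G).I) (he : x ∉ e.Z) :
    x ∈ (e.upd o).I := by
  have h1 : x ∉ G.Z ∧ x ∉ G.X ∧ x ∉ G.Y := DD.mem_I.1 hx
  exact DD.mem_I.2 ⟨fun h => h1.1 ((k.z x).2 (Or.inr (Or.inl ⟨h, he⟩))),
    fun h => h1.2.1 ((k.x x).2 (Or.inl h)), fun h => h1.2.2 ((k.y x).2 (Or.inl h))⟩

lemma le_sub (g : Geo H d e e' u v) (k : Glu d e e' o o' G) {C : Set W} (hC : e.X ∪ e.Y ⊆ C) :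
    LE H e (SIn S C) o ⊆ LE H d S G := by
  intro ε hε
  refine ⟨?_, fun h => hε.2 ⟨h, fun x hx => hC ((LE_ends hε hx).imp And.left And.left)⟩⟩
  rcases hε.1 with h | h
  · refine Or.inl (PE.mono (fun x hx => ?_) h)
    exact ⟨((g.hx x).1 hx.1).1, (k.x x).2 (Or.inl hx.2)⟩
  · refine Or.inr (PE.mono (fun x hx => ?_) h)
    exact ⟨((g.hy x).1 hx.1).1, (k.y x).2 (Or.inl hx.2)⟩

lemma le_dis (g : Geo H d e e' u v) (g' : Geo H d e' e u v) :
    Disjoint (LE H e S1 o) (LE H e' S2 o') := by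
  refine Set.disjoint_left.2 fun ε h1 h2 => ?_
  have key : ∀ x ∈ ε, x = u ∨ x = v := fun x hx =>
    g.ov x ((LE_ends h1 hx).elim (fun h => g.de.xz h.1) fun h => g.de.yz h.1)
      ((LE_ends h2 hx).elim (fun h => g'.de.xz h.1) fun h => g'.de.yz h.1)
  rcases h1.1 with ⟨p, hp, q, hq, hpq, rfl⟩ | ⟨p, hp, q, hq, hpq, rfl⟩
  · have e1 := (key p (by simp)).resolve_right fun h => g.de.xy hp.1 (h ▸ veY g)
    have e2 := (key q (by simp)).resolve_right fun h => g.de.xy hq.1 (h ▸ veY g)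
    exact hpq.ne (e1.trans e2.symm)
  · have e1 := (key p (by simp)).resolve_left fun h => g.de.xy (h ▸ ueX g) hp.1
    have e2 := (key q (by simp)).resolve_left fun h => g.de.xy (h ▸ ueX g) hq.1
    exact hpq.ne (e1.trans e2.symm)

end PkSpl3P

open PkSpl2P PkSpl3P in
theorem pk_Spl3 : S_Spl3 := by
  intro W H d u v IL IR S oL oR h o1 o2 hs
  obtain ⟨g, g'⟩ := geo h h.nc
  obtain ⟨k, k'⟩ := glu g g' o1.shp o2.shp
  refine ⟨hs, ?_⟩
  have e : (d.upd (glue d u v IL IR oL oR)).I =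
      ((d.left u v IL).upd oL).I ∪ ((d.right u v IR).upd oR).I := by
    ext x
    refine ⟨fun hx => ?_, fun hx => hx.elim (int_sub g o1.shp o2.shp k)
      (int_sub g' o2.shp o1.shp k')⟩
    exact (g.cov x (DD.mem_I.1 (hs.I_sub hx)).1).imp (int_of k hx) (int_of k' hx)
  rw [e]
  refine Ext.glue o1.ext o2.ext ?_ ?_ Set.subset_union_left Set.subset_union_right
    Set.subset_union_left Set.subset_union_right (le_sub g k subset_rfl) (le_sub g' k' subset_rfl)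
    (le_dis g g') ?_ ?_ ?_
  · exact Set.disjoint_left.2 fun x h1 h2 => (int_not o2.shp h2).1 (int_out g o1.shp h1)
  · rintro ⟨x, hx, y, hy, hxy⟩
    exact g.na x y (int_not o1.shp hx).1 (int_not o2.shp hy).1 (int_ne g o1.shp hx).1
      (int_ne g o1.shp hx).2 (int_ne g' o2.shp hy).1 (int_ne g' o2.shp hy).2 hxy
  · exact Set.disjoint_left.2 fun x h1 h2 => notE o2.shp (Or.inl h1) (int_out g o1.shp h2)
  · exact Set.disjoint_left.2 fun x h1 h2 => notE o2.shp (Or.inr h1) (int_out g o1.shp h2)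
  · intro ε hε x hx h2
    exact notE o2.shp ((LE_ends hε hx).imp And.right And.right) (int_out g o1.shp h2)

end Pool.Agent.P.MP_08fd93_co.OV
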