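import Pool.Agent.P.MP_08fd93_co.OV.St1

/-! A small toolbox (connectivity, paths, discs) for the packages Stp1, Stp2, Stp4b. -/

set_option autoImplicit false

namespace Pool.Agent.P.MP_08fd93_co.OV.B52

variable {W : Type} {H : SimpleGraph W}

theorem cmono {A B : Set W} (h : A ⊆ B) {a b : W} (c : Conn H A a b) : Conn H B a b := by
  induction c with
  | refl => exact Relation.ReflTransGen.refl
  | tail _ h2 ih => exact ih.tail ⟨h h2.1, h h2.2.1, h2.2.2⟩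

theorem csymm {A : Set W} {a b : W} (c : Conn H A a b) : Conn H A b a := by
  induction c with
  | refl => exact Relation.ReflTransGen.refl
  | tail _ h2 ih => exact Relation.ReflTransGen.head ⟨h2.2.1, h2.1, h2.2.2.symm⟩ ih

theorem ctrans {A : Set W} {a b c : W} (p : Conn H A a b) (q : Conn H A b c) : Conn H A a c :=
  Relation.ReflTransGen.trans p q

theorem crefl {A : Set W} (a : W) : Conn H A a a := Relation.ReflTransGen.refl

theorem cone {A : Set W} {a b : W} (ha : a ∈ A) (hb : b ∈ A) (h : H.Adj a b) : Conn H A a b :=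
  Relation.ReflTransGen.single ⟨ha, hb, h⟩

theorem cmem {A : Set W} {a b : W} (c : Conn H A a b) (ha : a ∈ A) : b ∈ A := by
  induction c with
  | refl => exact ha
  | tail _ h2 _ => exact h2.2.1

theorem cfirst {A : Set W} {a b : W} (c : Conn H A a b) (hne : a ≠ b) :
    ∃ w ∈ A, H.Adj a w ∧ Conn H A w b := by
  rcases Relation.ReflTransGen.cases_head c with h | ⟨w, h1, h2⟩
  · exact absurd h hne
  · exact ⟨w, h1.2.1, h1.2.2, h2⟩

/-- A walk that starts in `P`, where `P` is closed under steps inside `A`, stays in `P`. -/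
theorem cclosed {A P : Set W} (hP : ∀ x ∈ P, ∀ y ∈ A, H.Adj x y → y ∈ P) {a b : W}
    (c : Conn H A a b) (ha : a ∈ P) : Conn H P a b := by
  induction c with
  | refl => exact crefl _
  | tail _ h2 ih => exact ih.tail ⟨cmem ih ha, hP _ (cmem ih ha) _ h2.2.1 h2.2.2, h2.2.2⟩

/-- First exit from `R`. -/
theorem cexit {A R : Set W} {a b : W} (c : Conn H A a b) (ha : a ∈ R) (hb : b ∉ R) :
    ∃ x y, Conn H (A ∩ R) a x ∧ x ∈ R ∧ y ∈ A ∧ y ∉ R ∧ H.Adj x y := by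
  induction c with
  | refl => exact absurd ha hb
  | @tail u v h1 h2 ih =>
    by_cases hu : u ∈ R
    · by_cases hall : Conn H (A ∩ R) a u
      · exact ⟨u, v, hall, hu, h2.2.1, hb, h2.2.2⟩
      · by_contra hno
        apply hall
        clear ih hall hu h2 hb
        have key : ∀ u, Conn H A a u → Conn H (A ∩ R) a u := by
          intro u hc
          induction hc with
          | refl => exact crefl _
          | @tail x y _ h4 ih2 =>
            have hx : x ∈ R := by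
              rcases Relation.ReflTransGen.cases_tail ih2 with h | ⟨_, _, h⟩
              · exact h ▸ ha
              · exact h.2.1.2
            by_cases hy : y ∈ R
            · exact ih2.tail ⟨⟨h4.1, hx⟩, ⟨h4.2.1, hy⟩, h4.2.2⟩
            · exact absurd ⟨x, y, ih2, hx, h4.2.1, hy, h4.2.2⟩ hno
        exact key u h1
    · exact ih hu

theorem isc_of {A : Set W} (r : W) (h : ∀ x ∈ A, Conn H A x r) : IsConn H A :=
  fun a ha b hb => ctrans (h a ha) (csymm (h b hb))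

theorem isc_single (a : W) : IsConn H {a} := by
  rintro x rfl y rfl; exact crefl _

theorem isc_empty : IsConn H (∅ : Set W) := fun _ h => h.elim

/-- The component of `x` in `R`. -/
def cp (H : SimpleGraph W) (R : Set W) (x : W) : Set W := {y | Conn H R x y}

theorem cp_self (R : Set W) (x : W) : x ∈ cp H R x := crefl x

theorem cp_sub {R : Set W} {x : W} (hx : x ∈ R) : cp H R x ⊆ R := fun _ h => cmem h hx

theorem cp_cl {R : Set W} {x y z : W} (hx : x ∈ R) (hy : y ∈ cp H R x) (hz : z ∈ R)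
    (h : H.Adj y z) : z ∈ cp H R x := Relation.ReflTransGen.tail hy ⟨cmem hy hx, hz, h⟩

theorem cp_conn' {R : Set W} {x y : W} (hx : x ∈ R) (hy : y ∈ cp H R x) :
    Conn H (cp H R x) x y :=
  cclosed (fun _ h1 _ h2 h3 => cp_cl hx h1 h2 h3) hy (cp_self R x)

theorem cp_conn {R : Set W} {x : W} (hx : x ∈ R) : IsConn H (cp H R x) :=
  isc_of x fun _ hy => csymm (cp_conn' hx hy)

/-- A connected base together with vertices joined to it. -/
theorem isc_base {A B : Set W} (hB : IsConn H B) (hBA : B ⊆ A)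
    (h : ∀ x ∈ A, ∃ y ∈ B, Conn H A x y) : IsConn H A := by
  intro a ha b hb
  obtain ⟨y, hy, c1⟩ := h a ha
  obtain ⟨y', hy', c2⟩ := h b hb
  exact ctrans c1 (ctrans (cmono hBA (hB y hy y' hy')) (csymm c2))

theorem isc_nb {A B : Set W} (hB : IsConn H B) (h : A ⊆ Nb H B) : IsConn H (B ∪ A) := by
  refine isc_base hB Set.subset_union_left ?_
  rintro x (hx | hx)
  · exact ⟨x, hx, crefl _⟩
  · obtain ⟨y, hy, hxy⟩ := h hx
    exact ⟨y, hy, cone (Or.inr hx) (Or.inl hy) hxy⟩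

theorem isc_union {A B : Set W} (hA : IsConn H A) (hB : IsConn H B) (h : Touch H A B) :
    IsConn H (A ∪ B) := by
  obtain ⟨a, ha, b, hb, hab⟩ := h
  refine isc_base hA Set.subset_union_left ?_
  rintro x (hx | hx)
  · exact ⟨x, hx, crefl _⟩
  · exact ⟨a, ha, ctrans (cmono Set.subset_union_right (hB x hx b hb))
      (cone (Or.inr hb) (Or.inl ha) hab.symm)⟩

theorem tsymm {A B : Set W} (h : Touch H A B) : Touch H B A := by
  obtain ⟨a, ha, b, hb, hab⟩ := h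
  exact ⟨b, hb, a, ha, hab.symm⟩

theorem k33 (hP : Pl H Set.univ) {X0 X1 X2 Y0 Y1 Y2 : Set W}
    (c0 : IsConn H X0) (c1 : IsConn H X1) (c2 : IsConn H X2)
    (e0 : IsConn H Y0) (e1 : IsConn H Y1) (e2 : IsConn H Y2)
    (x01 : Disjoint X0 X1) (x02 : Disjoint X0 X2) (x12 : Disjoint X1 X2)
    (y01 : Disjoint Y0 Y1) (y02 : Disjoint Y0 Y2) (y12 : Disjoint Y1 Y2)
    (d : Disjoint (X0 ∪ X1 ∪ X2) (Y0 ∪ Y1 ∪ Y2))
    (t00 : Touch H X0 Y0) (t01 : Touch H X0 Y1) (t02 : Touch H X0 Y2)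
    (t10 : Touch H X1 Y0) (t11 : Touch H X1 Y1) (t12 : Touch H X1 Y2)
    (t20 : Touch H X2 Y0) (t21 : Touch H X2 Y1) (t22 : Touch H X2 Y2) : False := by
  simp only [Set.disjoint_union_left, Set.disjoint_union_right] at d
  apply hP.k33
  refine ⟨![X0, X1, X2], ![Y0, Y1, Y2], ?_, ?_, ?_⟩
  · intro i
    fin_cases i <;> simp [c0, c1, c2, e0, e1, e2]
  · intro i j hij
    fin_cases i <;> fin_cases j <;>
      simp_all [disjoint_comm]
  · intro i j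
    fin_cases i <;> fin_cases j <;> simp_all

theorem k5 (hP : Pl H Set.univ) {X0 X1 X2 X3 X4 : Set W}
    (c0 : IsConn H X0) (c1 : IsConn H X1) (c2 : IsConn H X2) (c3 : IsConn H X3)
    (c4 : IsConn H X4)
    (d01 : Disjoint X0 X1) (d02 : Disjoint X0 X2) (d03 : Disjoint X0 X3) (d04 : Disjoint X0 X4)
    (d12 : Disjoint X1 X2) (d13 : Disjoint X1 X3) (d14 : Disjoint X1 X4)
    (d23 : Disjoint X2 X3) (d24 : Disjoint X2 X4) (d34 : Disjoint X3 X4)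
    (t01 : Touch H X0 X1) (t02 : Touch H X0 X2) (t03 : Touch H X0 X3) (t04 : Touch H X0 X4)
    (t12 : Touch H X1 X2) (t13 : Touch H X1 X3) (t14 : Touch H X1 X4)
    (t23 : Touch H X2 X3) (t24 : Touch H X2 X4) (t34 : Touch H X3 X4) : False := by
  have t10 := tsymm t01
  have t20 := tsymm t02
  have t30 := tsymm t03
  have t40 := tsymm t04
  have t21 := tsymm t12
  have t31 := tsymm t13
  have t41 := tsymm t14
  have t32 := tsymm t23
  have t42 := tsymm t24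
  have t43 := tsymm t34
  have d10 := d01.symm
  have d20 := d02.symm
  have d30 := d03.symm
  have d40 := d04.symm
  have d21 := d12.symm
  have d31 := d13.symm
  have d41 := d14.symm
  have d32 := d23.symm
  have d42 := d24.symm
  have d43 := d34.symm
  apply hP.k5
  refine ⟨![X0, X1, X2, X3, X4], ?_, ?_⟩
  · intro i
    fin_cases i <;> simp [c0, c1, c2, c3, c4]
  · intro i j hij
    fin_cases i <;> fin_cases j <;> first | exact absurd rfl hij | exact ⟨by assumption, by assumption⟩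

theorem tim (hP : Pl H Set.univ) {A B : Set W} (hd : Disjoint A B) (hA : IsConn H A)
    (hB : IsConn H B) (hf : B.Finite ∨ Bᶜ.Finite) {x y : W} (hx : x ∈ Nb H B) (hy : y ∈ Nb H B)
    (hx' : x ∉ A ∪ B) (c : Conn H (A ∪ B)ᶜ x y) : Conn H (Nb H B \ (A ∪ B)) x y := by
  have := hP.tim A B (Set.subset_univ _) (Set.subset_univ _) hd hA hB
    (by rwa [← Set.compl_eq_univ_sdiff]) x y hx hy ⟨trivial, hx'⟩
    (by rwa [← Set.compl_eq_univ_sdiff])
  rwa [Set.univ_inter] at this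

section path
variable {X : Set W} {ρ : W → ℤ} {a b : W}

theorem psucc (h : Pth H X ρ a b) {u w : W} (hu : u ∈ X) (hw : w ∈ X) (hlt : ρ u < ρ w) :
    ∃ v ∈ X, ρ u < ρ v ∧ ρ v ≤ ρ w ∧ H.Adj u v := by
  obtain ⟨v, hv, hmin⟩ := Set.exists_min_image {x | x ∈ X ∧ ρ u < ρ x} ρ
    (h.fin.subset fun _ hx => hx.1) ⟨w, hw, hlt⟩
  refine ⟨v, hv.1, hv.2, hmin w ⟨hw, hlt⟩, (h.adj u hu v hv.1 hv.2).2 fun x hx => ?_⟩
  by_cases hh : ρ u < ρ x
  · exact Or.inr (hmin x ⟨hx, hh⟩)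
  · exact Or.inl (not_lt.1 hh)

theorem ppred (h : Pth H X ρ a b) {u w : W} (hu : u ∈ X) (hw : w ∈ X) (hlt : ρ w < ρ u) :
    ∃ v ∈ X, ρ v < ρ u ∧ ρ w ≤ ρ v ∧ H.Adj u v := by
  obtain ⟨v, hv, hmax⟩ := Set.exists_max_image {x | x ∈ X ∧ ρ x < ρ u} ρ
    (h.fin.subset fun _ hx => hx.1) ⟨w, hw, hlt⟩
  refine ⟨v, hv.1, hv.2, hmax w ⟨hw, hlt⟩, ((h.adj v hv.1 u hu hv.2).2 fun x hx => ?_).symm⟩
  by_cases hh : ρ x < ρ u
  · exact Or.inl (hmax x ⟨hx, hh⟩)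
  · exact Or.inr (not_lt.1 hh)

theorem psucc_uniq (h : Pth H X ρ a b) {u v v' : W} (hu : u ∈ X) (hv : v ∈ X) (hv' : v' ∈ X)
    (h1 : ρ u < ρ v) (h2 : ρ u < ρ v') (a1 : H.Adj u v) (a2 : H.Adj u v') : v = v' := by
  have e1 := (h.adj u hu v hv h1).1 a1 v' hv'
  have e2 := (h.adj u hu v' hv' h2).1 a2 v hv
  exact h.inj v hv v' hv' (by omega)

theorem ppred_uniq (h : Pth H X ρ a b) {u v v' : W} (hu : u ∈ X) (hv : v ∈ X) (hv' : v' ∈ X)
    (h1 : ρ v < ρ u) (h2 : ρ v' < ρ u) (a1 : H.Adj u v) (a2 : H.Adj u v') : v = v' := by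
  have e1 := (h.adj v hv u hu h1).1 a1.symm v' hv'
  have e2 := (h.adj v' hv' u hu h2).1 a2.symm v hv
  exact h.inj v hv v' hv' (by omega)

theorem pne (h : Pth H X ρ a b) {u v : W} (hu : u ∈ X) (hv : v ∈ X) (huv : H.Adj u v) :
    ρ u ≠ ρ v := fun e => huv.ne (h.inj u hu v hv e)

theorem pwalk (h : Pth H X ρ a b) {u w : W} (hu : u ∈ X) (hw : w ∈ X) (hle : ρ u ≤ ρ w) :
    Conn H {x | x ∈ X ∧ ρ u ≤ ρ x ∧ ρ x ≤ ρ w} u w := by
  have key : ∀ n : ℕ, ∀ v ∈ X, ρ u ≤ ρ v → ρ v ≤ ρ w → ρ w - ρ v ≤ n →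
      Conn H {x | x ∈ X ∧ ρ u ≤ ρ x ∧ ρ x ≤ ρ w} v w := by
    intro n
    induction n with
    | zero =>
      intro v hv h1 h2 h3
      have : v = w := h.inj v hv w hw (by push_cast at h3; omega)
      exact this ▸ crefl _
    | succ n ih =>
      intro v hv h1 h2 h3
      rcases eq_or_lt_of_le h2 with e | e
      · exact (h.inj v hv w hw e) ▸ crefl _
      · obtain ⟨v', hv', l1, l2, ha⟩ := psucc h hv hw e
        exact ctrans (cone ⟨hv, h1, h2⟩ ⟨hv', by omega, l2⟩ ha)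
          (ih v' hv' (by omega) l2 (by push_cast at h3; omega))
  exact key (ρ w - ρ u).toNat u hu le_rfl hle (by omega)

/-- Convex parts of a path are connected. -/
theorem pconv (h : Pth H X ρ a b) {S : Set W} (hS : S ⊆ X)
    (hc : ∀ u ∈ S, ∀ w ∈ S, ∀ x ∈ X, ρ u ≤ ρ x → ρ x ≤ ρ w → x ∈ S) : IsConn H S := by
  intro u hu w hw
  rcases le_total (ρ u) (ρ w) with e | e
  · exact cmono (fun x hx => hc u hu w hw x hx.1 hx.2.1 hx.2.2) (pwalk h (hS hu) (hS hw) e)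
  · exact csymm (cmono (fun x hx => hc w hw u hu x hx.1 hx.2.1 hx.2.2)
      (pwalk h (hS hw) (hS hu) e))

theorem pconn (h : Pth H X ρ a b) : IsConn H X :=
  pconv h subset_rfl fun _ _ _ _ _ hx _ _ => hx

end path

section disc
variable {d : DD W}

theorem memI {x : W} : x ∈ d.I ↔ x ∉ d.Z ∧ x ∉ d.X ∧ x ∉ d.Y := by
  simp [DD.I]

theorem notZ (h : Disc H d) {x y : W} (hx : x ∈ d.I) (hxy : H.Adj x y) : y ∉ d.Z :=
  fun hy => hx (h.cl ⟨y, hy, hxy⟩)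

theorem nbI (h : Disc H d) {x y : W} (hx : x ∈ d.I) (hxy : H.Adj x y) :
    y ∈ d.I ∨ y ∈ d.X ∨ y ∈ d.Y := by
  have := notZ h hx hxy
  rw [memI]; tauto

theorem xZ (h : Disc H d) {x : W} (hx : x ∈ d.X) : x ∉ d.Z :=
  fun hz => Set.disjoint_left.1 h.dz hz (Or.inl hx)

theorem yZ (h : Disc H d) {x : W} (hx : x ∈ d.Y) : x ∉ d.Z :=
  fun hz => Set.disjoint_left.1 h.dz hz (Or.inr hx)

theorem xY (h : Disc H d) {x : W} (hx : x ∈ d.X) : x ∉ d.Y :=
  Set.disjoint_left.1 h.dxy hx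

theorem lo_conn (h : Disc H d) (u v : W) : IsConn H (d.Lo u v) := by
  have c1 : IsConn H {x | x ∈ d.X ∧ d.ρ x < d.ρ u} :=
    pconv h.px (fun _ hx => hx.1) fun _ _ w hw x hx _ h2 => ⟨hx, lt_of_le_of_lt h2 hw.2⟩
  have c2 : IsConn H {x | x ∈ d.Y ∧ d.ρ x < d.ρ v} :=
    pconv h.py (fun _ hx => hx.1) fun _ _ w hw x hx _ h2 => ⟨hx, lt_of_le_of_lt h2 hw.2⟩
  have key : ∀ x y, (x ∈ d.X ∧ d.ρ x < d.ρ u) → (y ∈ d.Y ∧ d.ρ y < d.ρ v) →
      Conn H (d.Lo u v) x y := by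
    intro x y hx hy
    have ha : d.a ∈ d.X ∧ d.ρ d.a < d.ρ u := ⟨h.px.ha, lt_of_le_of_lt (h.px.lo x hx.1) hx.2⟩
    have ha' : d.a' ∈ d.Y ∧ d.ρ d.a' < d.ρ v := ⟨h.py.ha, lt_of_le_of_lt (h.py.lo y hy.1) hy.2⟩
    exact ctrans (cmono (fun _ hh => Or.inl hh) (c1 x hx _ ha))
      (ctrans (cone (Or.inl ha) (Or.inr ha') h.ra) (cmono (fun _ hh => Or.inr hh) (c2 _ ha' y hy)))
  rintro x (hx | hx) y (hy | hy)
  · exact cmono (fun _ hh => Or.inl hh) (c1 x hx y hy)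
  · exact key x y hx hy
  · exact csymm (key y x hy hx)
  · exact cmono (fun _ hh => Or.inr hh) (c2 x hx y hy)

theorem hi_conn (h : Disc H d) (u v : W) : IsConn H (d.Hi u v) := by
  have c1 : IsConn H {x | x ∈ d.X ∧ d.ρ u < d.ρ x} :=
    pconv h.px (fun _ hx => hx.1) fun _ hw _ _ x hx h2 _ => ⟨hx, lt_of_lt_of_le hw.2 h2⟩
  have c2 : IsConn H {x | x ∈ d.Y ∧ d.ρ v < d.ρ x} :=
    pconv h.py (fun _ hx => hx.1) fun _ hw _ _ x hx h2 _ => ⟨hx, lt_of_lt_of_le hw.2 h2⟩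
  have key : ∀ x y, (x ∈ d.X ∧ d.ρ u < d.ρ x) → (y ∈ d.Y ∧ d.ρ v < d.ρ y) →
      Conn H (d.Hi u v) x y := by
    intro x y hx hy
    have ha : d.b ∈ d.X ∧ d.ρ u < d.ρ d.b := ⟨h.px.hb, lt_of_lt_of_le hx.2 (h.px.hi x hx.1)⟩
    have ha' : d.b' ∈ d.Y ∧ d.ρ v < d.ρ d.b' := ⟨h.py.hb, lt_of_lt_of_le hy.2 (h.py.hi y hy.1)⟩
    exact ctrans (cmono (fun _ hh => Or.inl hh) (c1 x hx _ ha))
      (ctrans (cone (Or.inl ha) (Or.inr ha') h.rb) (cmono (fun _ hh => Or.inr hh) (c2 _ ha' y hy)))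
  rintro x (hx | hx) y (hy | hy)
  · exact cmono (fun _ hh => Or.inl hh) (c1 x hx y hy)
  · exact key x y hx hy
  · exact csymm (key y x hy hx)
  · exact cmono (fun _ hh => Or.inr hh) (c2 x hx y hy)

theorem lo_touch (h : Disc H d) {u v x : W} (hu : u ∈ d.X) (hv : v ∈ d.Y) (hx : x ∈ d.Lo u v) :
    (∃ y ∈ d.Lo u v, H.Adj u y) ∧ ∃ y ∈ d.Lo u v, H.Adj v y := by
  have ha := h.px.lo u hu
  have ha' := h.py.lo v hv
  constructor
  · rcases eq_or_lt_of_le ha with e | e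
    · have e1 : d.a = u := h.px.inj _ h.px.ha _ hu e
      rcases hx with hx | hx
      · have := h.px.lo x hx.1; omega
      · exact ⟨d.a', Or.inr ⟨h.py.ha, lt_of_le_of_lt (h.py.lo x hx.1) hx.2⟩, e1 ▸ h.ra⟩
    · obtain ⟨y, hy, l1, -, hadj⟩ := ppred h.px hu h.px.ha e
      exact ⟨y, Or.inl ⟨hy, l1⟩, hadj⟩
  · rcases eq_or_lt_of_le ha' with e | e
    · have e1 : d.a' = v := h.py.inj _ h.py.ha _ hv e
      rcases hx with hx | hx
      · exact ⟨d.a, Or.inl ⟨h.px.ha, lt_of_le_of_lt (h.px.lo x hx.1) hx.2⟩, e1 ▸ h.ra.symm⟩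
      · have := h.py.lo x hx.1; omega
    · obtain ⟨y, hy, l1, -, hadj⟩ := ppred h.py hv h.py.ha e
      exact ⟨y, Or.inr ⟨hy, l1⟩, hadj⟩

theorem hi_touch (h : Disc H d) {u v x : W} (hu : u ∈ d.X) (hv : v ∈ d.Y) (hx : x ∈ d.Hi u v) :
    (∃ y ∈ d.Hi u v, H.Adj u y) ∧ ∃ y ∈ d.Hi u v, H.Adj v y := by
  have ha := h.px.hi u hu
  have ha' := h.py.hi v hv
  constructor
  · rcases eq_or_lt_of_le ha with e | e
    · have e1 : d.b = u := h.px.inj _ h.px.hb _ hu e.symm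
      rcases hx with hx | hx
      · have := h.px.hi x hx.1; omega
      · exact ⟨d.b', Or.inr ⟨h.py.hb, lt_of_lt_of_le hx.2 (h.py.hi x hx.1)⟩, e1 ▸ h.rb⟩
    · obtain ⟨y, hy, l1, -, hadj⟩ := psucc h.px hu h.px.hb e
      exact ⟨y, Or.inl ⟨hy, l1⟩, hadj⟩
  · rcases eq_or_lt_of_le ha' with e | e
    · have e1 : d.b' = v := h.py.inj _ h.py.hb _ hv e.symm
      rcases hx with hx | hx
      · exact ⟨d.b, Or.inl ⟨h.px.hb, lt_of_lt_of_le hx.2 (h.px.hi x hx.1)⟩, e1 ▸ h.rb.symm⟩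
      · have := h.py.hi x hx.1; omega
    · obtain ⟨y, hy, l1, -, hadj⟩ := psucc h.py hv h.py.hb e
      exact ⟨y, Or.inr ⟨hy, l1⟩, hadj⟩

/-- Nothing crosses a connected set `T` that joins `u` on `X` to `v` on `Y`. -/
theorem theta (hP : Pl H Set.univ) (h : Disc H d) {u v : W} (hu : u ∈ d.X) (hv : v ∈ d.Y)
    {T E : Set W} (hT : T ⊆ d.I) (cT : IsConn H T) (tu : u ∈ Nb H T) (tv : v ∈ Nb H T)
    (hE : E ⊆ d.I) (dE : Disjoint E T) (cE : IsConn H E) {x y : W} (hx : x ∈ d.Lo u v)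
    (hy : y ∈ d.Hi u v) (hxy : H.Adj x y ∨ (x ∈ Nb H E ∧ y ∈ Nb H E)) : False := by
  have loC : ∀ w ∈ d.Lo u v, w ∈ d.X ∪ d.Y := fun w hw => hw.elim (fun a => Or.inl a.1)
    fun a => Or.inr a.1
  have hiC : ∀ w ∈ d.Hi u v, w ∈ d.X ∪ d.Y := fun w hw => hw.elim (fun a => Or.inl a.1)
    fun a => Or.inr a.1
  have IC : ∀ w ∈ d.I, w ∉ d.X ∪ d.Y := fun w hw hc => hw (Or.inr hc)
  have IZ : ∀ w ∈ d.I, w ∉ d.Z := fun w hw hc => hw (Or.inl hc)
  have CZ : ∀ w ∈ d.X ∪ d.Y, w ∉ d.Z := fun w hw hc => Set.disjoint_left.1 h.dz hc hw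
  have uv : u ≠ v := fun e => xY h hu (e ▸ hv)
  have ulo : u ∉ d.Lo u v := fun hh => hh.elim (fun a => lt_irrefl _ a.2) fun a => xY h hu a.1
  have uhi : u ∉ d.Hi u v := fun hh => hh.elim (fun a => lt_irrefl _ a.2) fun a => xY h hu a.1
  have vlo : v ∉ d.Lo u v := fun hh => hh.elim (fun a => xY h a.1 hv) fun a => lt_irrefl _ a.2
  have vhi : v ∉ d.Hi u v := fun hh => hh.elim (fun a => xY h a.1 hv) fun a => lt_irrefl _ a.2
  have lohi : ∀ w ∈ d.Lo u v, w ∉ d.Hi u v := by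
    rintro w (a | a) (b | b)
    · exact lt_asymm a.2 b.2
    · exact xY h a.1 b.1
    · exact xY h b.1 a.1
    · exact lt_asymm a.2 b.2
  obtain ⟨⟨l1, hl1, al1⟩, l2, hl2, al2⟩ := lo_touch h hu hv hx
  obtain ⟨⟨g1, hg1, ag1⟩, g2, hg2, ag2⟩ := hi_touch h hu hv hy
  obtain ⟨zu, hzu, azu⟩ := h.tz (Or.inl hu)
  obtain ⟨zv, hzv, azv⟩ := h.tz (Or.inr hv)
  obtain ⟨zx, hzx, azx⟩ := h.tz (loC x hx)
  obtain ⟨zy, hzy, azy⟩ := h.tz (hiC y hy)
  obtain ⟨t, ht, atu⟩ := tu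
  have main : ∀ E' : Set W, E' ⊆ E → IsConn H (d.Lo u v ∪ E') →
      Touch H (d.Lo u v ∪ E') (d.Hi u v) → False := by
    intro E' hE' c3 t34
    refine k5 hP h.zc (isc_single u) (isc_nb cT (A := {v}) (by rintro _ rfl; exact tv)) c3
      (hi_conn h u v) ?_ ?_ ?_ ?_ ?_ ?_ ?_ ?_ ?_ ?_
      ⟨zu, hzu, u, rfl, azu.symm⟩ ⟨zv, hzv, v, Or.inr rfl, azv.symm⟩
      ⟨zx, hzx, x, Or.inl hx, azx.symm⟩ ⟨zy, hzy, y, hy, azy.symm⟩
      ⟨u, rfl, t, Or.inl ht, atu⟩ ⟨u, rfl, l1, Or.inl hl1, al1⟩ ⟨u, rfl, g1, hg1, ag1⟩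
      ⟨v, Or.inr rfl, l2, Or.inl hl2, al2⟩ ⟨v, Or.inr rfl, g2, hg2, ag2⟩ t34
    all_goals rw [Set.disjoint_right]
    · rintro _ rfl; exact CZ _ (Or.inl hu)
    · rintro w (hw | rfl)
      · exact IZ w (hT hw)
      · exact CZ _ (Or.inr hv)
    · rintro w (hw | hw)
      · exact CZ w (loC w hw)
      · exact IZ w (hE (hE' hw))
    · exact fun w hw => CZ w (hiC w hw)
    · rintro w (hw | rfl) rfl
      · exact IC _ (hT hw) (Or.inl hu)
      · exact uv rfl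
    · rintro w (hw | hw) rfl
      · exact ulo hw
      · exact IC _ (hE (hE' hw)) (Or.inl hu)
    · rintro w hw rfl; exact uhi hw
    · rintro w (hw | hw) (hw' | rfl)
      · exact IC _ (hT hw') (loC w hw)
      · exact vlo hw
      · exact Set.disjoint_left.1 dE (hE' hw) hw'
      · exact IC _ (hE (hE' hw)) (Or.inr hv)
    · rintro w hw (hw' | rfl)
      · exact IC _ (hT hw') (hiC w hw)
      · exact vhi hw
    · rintro w hw (hw' | hw')
      · exact lohi w hw' hw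
      · exact IC _ (hE (hE' hw')) (hiC w hw)
  rcases hxy with hxy | ⟨⟨e1, he1, a1⟩, e2, he2, a2⟩
  · refine main ∅ (Set.empty_subset _) ?_ ⟨x, Or.inl hx, y, hy, hxy⟩
    rw [Set.union_empty]; exact lo_conn h u v
  · exact main E subset_rfl (isc_union (lo_conn h u v) cE ⟨x, hx, e1, he1, a1⟩)
      ⟨e2, Or.inr he2, y, hy, a2.symm⟩

end disc

/-- Every attachment vertex has two neighbours among the attachment vertices. -/
theorem att2 (hP : Pl H Set.univ) {I E Z : Set W} (hI : NJ H I) (hE : E ⊆ I) (fE : E.Finite)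
    (nE : E.Nonempty) (cE : IsConn H E) (cZ : IsConn H Z) (dE : Disjoint Z E)
    (dA : Disjoint Z (Nb H E \ E)) (tZ : Nb H E \ E ⊆ Nb H Z) :
    (Nb H E \ E).Nonempty ∧ ∀ r ∈ Nb H E \ E, ∃ r1 ∈ Nb H E \ E, ∃ r2 ∈ Nb H E \ E,
      r1 ≠ r2 ∧ H.Adj r r1 ∧ H.Adj r r2 := by
  have out : ∀ a b, (a = b ∨ H.Adj a b) → ∃ r ∈ Nb H E \ E, r ≠ a ∧ r ≠ b := by
    intro a b hab
    obtain ⟨r, hr, hr'⟩ := Set.not_subset.1 (hI E hE fE nE a b hab)
    simp only [Set.mem_union, Set.mem_insert_iff, Set.mem_singleton_iff, not_or] at hr'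
    exact ⟨r, ⟨hr, hr'.1⟩, hr'.2⟩
  have step : ∀ A : Set W, A ⊆ Nb H E \ E → IsConn H A → ∀ r ∈ Nb H E \ E, ∀ r' ∈ Nb H E \ E,
      r ∉ A → r' ∉ A → r ≠ r' → ∃ w ∈ Nb H E \ E, w ∉ A ∧ H.Adj r w := by
    intro A hA cA r hr r' hr' n1 n2 hne
    obtain ⟨z, hz, az⟩ := tZ hr
    obtain ⟨z', hz', az'⟩ := tZ hr'
    have hZ : Z ⊆ (A ∪ E)ᶜ := by
      rintro w hw (hh | hh)
      · exact Set.disjoint_left.1 dA hw (hA hh)
      · exact Set.disjoint_left.1 dE hw hh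
    have m1 : r ∉ A ∪ E := fun hh => hh.elim n1 hr.2
    have m2 : r' ∉ A ∪ E := fun hh => hh.elim n2 hr'.2
    have c := tim hP (Set.disjoint_left.2 fun w hw => (hA hw).2) cA cE (Or.inl fE) hr.1 hr'.1 m1
      (ctrans (cone m1 (hZ hz) az) (ctrans (cmono hZ (cZ z hz z' hz')) (cone (hZ hz') m2 az'.symm)))
    obtain ⟨w, hw, aw, -⟩ := cfirst c hne
    exact ⟨w, ⟨hw.1, fun hh => hw.2 (Or.inr hh)⟩, fun hh => hw.2 (Or.inl hh), aw⟩
  obtain ⟨e, -⟩ := id nE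
  obtain ⟨r0, hr0, -⟩ := out e e (Or.inl rfl)
  refine ⟨⟨r0, hr0⟩, fun r hr => ?_⟩
  obtain ⟨r', hr', n1, -⟩ := out r r (Or.inl rfl)
  obtain ⟨r1, hr1, -, a1⟩ := step ∅ (Set.empty_subset _) isc_empty r hr r' hr' id id n1.symm
  obtain ⟨r'', hr'', n2, n3⟩ := out r r1 (Or.inr a1)
  obtain ⟨r2, hr2, n4, a2⟩ := step {r1} (by rintro _ rfl; exact hr1) (isc_single r1) r hr r'' hr''
    a1.ne n3 n2.symm
  exact ⟨r1, hr1, r2, hr2, fun e => n4 e.symm, a1, a2⟩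

end Pool.Agent.P.MP_08fd93_co.OV.B52
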