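import Pool.Agent.P.MP_08fd93_co.OV.Base
import Pool.Agent.P.MP_08fd93_co.OV.B52

/-! Package Stp1 of project OV: the path of the main step. -/

set_option autoImplicit false

namespace Pool.Agent.P.MP_08fd93_co.OV

namespace PkStp1P

open B52

variable {W : Type} {H : SimpleGraph W} {d : DD W}

/-- A common neighbour of `p` and `p'` outside `Z` and `X`. -/
theorem apex0 (hP : Pl H Set.univ) (h : Disc H d) {p p' : W} (hp : p ∈ d.X) (hp' : p' ∈ d.X)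
    (lt : d.ρ p < d.ρ p') (pp : H.Adj p p') :
    ∃ z, H.Adj z p ∧ H.Adj z p' ∧ (z ∈ d.I ∨ z ∈ d.Y) := by
  have sub : ∀ w, w ∈ d.X ∪ d.Y → w ≠ p → w ∈ (d.Z ∪ {p})ᶜ := fun w hw hne hh =>
    hh.elim (fun hz => Set.disjoint_left.1 h.dz hz hw) hne
  have subY : d.Y ⊆ (d.Z ∪ {p})ᶜ := fun w hw => sub w (Or.inr hw) fun e => xY h hp (e ▸ hw)
  have c1 : Conn H (d.Z ∪ {p})ᶜ p' d.a' := by
    have l := h.px.hi _ hp'
    refine ctrans (cmono ?_ (pwalk h.px hp' h.px.hb l)) (ctrans (cone ?_ (subY h.py.hb) h.rb)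
      (cmono subY (pconn h.py _ h.py.hb _ h.py.ha)))
    · refine fun w hw => sub w (Or.inl hw.1) ?_
      rintro rfl
      exact absurd hw.2.1 (not_le.2 lt)
    · refine sub _ (Or.inl h.px.hb) fun e => ?_
      rw [e] at l
      exact absurd l (not_le.2 lt)
  have c2 : ∃ p0, H.Adj p0 p ∧ p' ≠ p0 ∧ Conn H (d.Z ∪ {p})ᶜ p' p0 := by
    rcases eq_or_lt_of_le (h.px.lo _ hp) with e | e
    · have e1 : d.a = p := h.px.inj _ h.px.ha _ hp e
      exact ⟨d.a', e1 ▸ h.ra.symm, fun e => xY h hp' (e ▸ h.py.ha), c1⟩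
    · obtain ⟨p0, h0, l0, l1, a0⟩ := ppred h.px hp h.px.ha e
      refine ⟨p0, a0.symm, ?_, ctrans c1 (ctrans (cone (subY h.py.ha) ?_ h.ra.symm)
        (cmono ?_ (pwalk h.px h.px.ha h0 l1)))⟩
      · rintro rfl
        exact lt_asymm lt l0
      · refine sub _ (Or.inl h.px.ha) fun e' => ?_
        rw [e'] at e
        exact lt_irrefl _ e
      · refine fun w hw => sub w (Or.inl hw.1) ?_
        rintro rfl
        exact absurd hw.2.2 (not_le.2 l0)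
  obtain ⟨p0, a0, ne, c⟩ := c2
  have c' := B52.tim hP (A := d.Z) (B := {p})
    (Set.disjoint_right.2 (by rintro _ rfl; exact xZ h hp)) h.zc (isc_single p)
    (Or.inl (Set.finite_singleton p)) ⟨p, rfl, pp.symm⟩ ⟨p, rfl, a0⟩
    (sub _ (Or.inl hp') pp.ne') c
  obtain ⟨z, ⟨⟨_, rfl, a1⟩, hz⟩, a2, -⟩ := cfirst c' ne
  refine ⟨z, a1, a2.symm, ?_⟩
  have hzX : z ∉ d.X := by
    intro hx
    have n1 := pne h.px hx hp a1
    have n2 := pne h.px hx hp' a2.symm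
    rcases (h.px.adj _ hp _ hp' lt).1 pp z hx with e | e
    · have := (h.px.adj _ hx _ hp' (by omega)).1 a2.symm _ hp
      omega
    · have := (h.px.adj _ hp _ hx (by omega)).1 a1.symm _ hp'
      omega
  by_cases hY : z ∈ d.Y
  · exact Or.inr hY
  · exact Or.inl (memI.2 ⟨fun hh => hz (Or.inl hh), hzX, hY⟩)

/-- A common neighbour of `p` and `p'` in the interior. -/
theorem apex (hP : Pl H Set.univ) (h : Disc H d) (hI : d.I.Nonempty)
    (hr : ∀ u ∈ d.X, ∀ v ∈ d.Y, H.Adj u v → (u = d.a ∧ v = d.a') ∨ (u = d.b ∧ v = d.b'))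
    {p p' : W} (hp : p ∈ d.X) (hp' : p' ∈ d.X) (lt : d.ρ p < d.ρ p') (pp : H.Adj p p') :
    ∃ z ∈ d.I, H.Adj z p ∧ H.Adj z p' := by
  obtain ⟨z, a1, a2, hz | hz⟩ := apex0 hP h hp hp' lt pp
  · exact ⟨z, hz, a1, a2⟩
  have l1 := h.px.lo _ hp
  have l2 := h.px.hi _ hp'
  have e1 : p = d.a ∧ z = d.a' := by
    refine (hr p hp z hz a1.symm).resolve_right fun e => ?_
    rw [← e.1] at l2
    exact absurd l2 (not_le.2 lt)
  have e2 : p' = d.b ∧ z = d.b' := by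
    refine (hr p' hp' z hz a2.symm).resolve_left fun e => ?_
    rw [← e.1] at l1
    exact absurd l1 (not_le.2 lt)
  have hX : ∀ x ∈ d.X, x = p ∨ x = p' := by
    intro x hx
    rcases (h.px.adj _ hp _ hp' lt).1 pp x hx with e | e
    · exact Or.inl (h.px.inj _ hx _ hp (le_antisymm e (e1.1 ▸ h.px.lo x hx)))
    · exact Or.inr (h.px.inj _ hx _ hp' (le_antisymm (e2.1 ▸ h.px.hi x hx) e))
  have hY : ∀ y ∈ d.Y, y = z := fun y hy =>
    h.py.inj _ hy _ hz (le_antisymm (e2.2 ▸ h.py.hi y hy) (e1.2 ▸ h.py.lo y hy))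
  obtain ⟨x, hx⟩ := hI
  have hE : cp H d.I x ⊆ d.I := cp_sub hx
  have out : ∀ a b, H.Adj a b → ∃ r ∈ Nb H (cp H d.I x), (r = p ∨ r = p' ∨ r = z) ∧
      r ≠ a ∧ r ≠ b := by
    intro a b hab
    obtain ⟨r, hr, hr'⟩ := Set.not_subset.1
      (h.nj _ hE (h.fin.subset hE) ⟨x, cp_self _ _⟩ a b (Or.inr hab))
    simp only [Set.mem_union, Set.mem_insert_iff, Set.mem_singleton_iff, not_or] at hr'
    refine ⟨r, hr, ?_, hr'.2⟩
    obtain ⟨e, he, a⟩ := hr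
    rcases nbI h (hE he) a.symm with e3 | e3 | e3
    · exact absurd (cp_cl hx he e3 a.symm) hr'.1
    · rcases hX r e3 with e4 | e4 <;> simp [e4]
    · simp [hY r e3]
  obtain ⟨r1, ⟨y1, hy1, b1⟩, k1, k2, k3⟩ := out z p' a2
  obtain ⟨r2, ⟨y2, hy2, b2⟩, m1, m2, m3⟩ := out z p a1
  have r1p : r1 = p := by tauto
  have r2p : r2 = p' := by tauto
  subst r1p r2p
  have sub : cp H d.I x ⊆ ((d.Z ∪ {z}) ∪ {r1})ᶜ := by
    rintro w hw ((hh | rfl) | rfl)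
    · exact (memI.1 (hE hw)).1 hh
    · exact (memI.1 (hE hw)).2.2 hz
    · exact (memI.1 (hE hw)).2.1 hp
  have hb : r2 ∉ (d.Z ∪ {z}) ∪ {r1} := by
    rintro ((hh | hh) | hh)
    · exact xZ h hp' hh
    · exact m2 hh
    · exact m3 hh
  have c := B52.tim hP (A := d.Z ∪ {z}) (B := {r1})
    (by
      rw [Set.disjoint_right]
      rintro _ rfl (hh | hh)
      · exact xZ h hp hh
      · exact k2 hh)
    (isc_nb h.zc (by rintro _ rfl; exact h.tz (Or.inr hz))) (isc_single _)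
    (Or.inl (Set.finite_singleton _)) ⟨_, rfl, pp.symm⟩ ⟨_, rfl, b1.symm⟩ hb
    (ctrans (cone hb (sub hy2) b2) (cmono sub (cp_conn hx _ hy2 _ hy1)))
  obtain ⟨w, ⟨⟨_, rfl, a3⟩, hw⟩, a4, -⟩ := cfirst c
    (fun e => (memI.1 (hE hy1)).2.1 (e ▸ hp'))
  refine ⟨w, memI.2 ⟨fun hh => hw (Or.inl (Or.inl hh)), fun hh => ?_,
    fun hh => hw (Or.inl (Or.inr (hY w hh)))⟩, a3, a4.symm⟩
  rcases hX w hh with e | e
  · exact a3.ne e
  · exact a4.ne' e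

end PkStp1P

open B52 in
theorem pk_Stp1 : S_Stp1 := by
  intro W H hP d p p' h hI hr hp hp' lt pp
  obtain ⟨z, hz, a1, a2⟩ := PkStp1P.apex hP h hI hr hp hp' lt pp
  set XL : Set W := {x | x ∈ d.X ∧ d.ρ x ≤ d.ρ p} with hXL
  set XM : Set W := {x | x ∈ d.X ∧ d.ρ p' ≤ d.ρ x} with hXM
  have sub : ∀ w, w ∈ d.I ∨ w ∈ d.Y → w ∈ ((d.Z ∪ XM) ∪ XL)ᶜ := by
    rintro w (hw | hw) ((hh | hh) | hh)
    · exact (memI.1 hw).1 hh
    · exact (memI.1 hw).2.1 hh.1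
    · exact (memI.1 hw).2.1 hh.1
    · exact yZ h hw hh
    · exact xY h hh.1 hw
    · exact xY h hh.1 hw
  obtain ⟨y, cy, q, hq, aq⟩ := (h.both hP hz).2
  have c := B52.tim hP (A := d.Z ∪ XM) (B := XL)
    (by
      rw [Set.disjoint_right]
      rintro w hw (hh | hh)
      · exact xZ h hw.1 hh
      · have := hw.2
        have := hh.2
        omega)
    (isc_nb h.zc fun _ hx => h.tz (Or.inl hx.1))
    (pconv h.px (fun _ hx => hx.1) fun _ _ _ hw _ hx _ h2 => ⟨hx, h2.trans hw.2⟩)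
    (Or.inl (h.px.fin.subset fun _ hx => hx.1)) ⟨p, ⟨hp, le_rfl⟩, a1⟩
    ⟨d.a, ⟨h.px.ha, h.px.lo _ hp⟩, h.ra.symm⟩ (sub z (Or.inl hz))
    (ctrans (cmono (fun w hw => sub w (Or.inl hw)) cy)
      (ctrans (cone (sub _ (Or.inl (cmem cy hz))) (sub _ (Or.inr hq)) aq)
        (cmono (fun w hw => sub w (Or.inr hw)) (pconn h.py _ hq _ h.py.ha))))
  obtain ⟨x, y', cx, hx, hy', hy'', axy⟩ := cexit (R := d.I) c hz
    (fun hh => (memI.1 hh).2.2 h.py.ha)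
  have hY : y' ∈ d.Y := by
    rcases nbI h hx axy with e | e | e
    · exact absurd e hy''
    · exfalso
      rcases (h.px.adj _ hp _ hp' lt).1 pp y' e with e' | e'
      · exact hy'.2 (Or.inr ⟨e, e'⟩)
      · exact hy'.2 (Or.inl (Or.inr ⟨e, e'⟩))
    · exact e
  obtain ⟨τ, σ, v, hτ, hs, hv, hu⟩ := exists_pth (B := Nb H d.Y) cx
    ⟨⟨⟨p, ⟨hp, le_rfl⟩, a1⟩, sub z (Or.inl hz)⟩, hz⟩ ⟨y', hY, axy⟩
  have fin : {y | y ∈ d.Y ∧ H.Adj v y}.Finite := h.py.fin.subset fun _ hy => hy.1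
  obtain ⟨ql, hl, hmin⟩ := Set.exists_min_image _ d.ρ fin hv
  obtain ⟨qj, hj, hmax⟩ := Set.exists_max_image _ d.ρ fin hv
  refine ⟨⟨d, p, p', z, v, ql, qj, τ, σ, fun _ => 0⟩, rfl, rfl, rfl,
    h, hp, hp', lt, pp, hτ, fun t ht => (hs ht).2, a1, a2, ?_, ?_, hl.1, hj.1, hl.2, hj.2⟩
  · intro t ht
    obtain ⟨x, hx, a⟩ := (hs ht).1.1
    exact ⟨x, hx.1, hx.2, a⟩
  · intro t ht y hy a
    have e : t = v := hu t ht ⟨y, hy, a⟩
    subst e
    exact ⟨rfl, hmin y ⟨hy, a⟩, hmax y ⟨hy, a⟩⟩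

end Pool.Agent.P.MP_08fd93_co.OV
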