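import Pool.Agent.P.MP_08fd93_co.OV.B52

/-! Package Stp2 of project OV: the four regions of the main step. -/

set_option autoImplicit false

namespace Pool.Agent.P.MP_08fd93_co.OV

namespace PkStp2P

open B52

variable {W : Type} {H : SimpleGraph W} {s : SD W}

/-- The component of `x` in the interior without the path touches `A`. -/
def tA (H : SimpleGraph W) (s : SD W) (A : Set W) (x : W) : Prop :=
  ∃ y ∈ cp H (s.d.I \ s.τ) x, y ∈ Nb H A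

open Classical in
/-- The labels. -/
noncomputable def lab (H : SimpleGraph W) (s : SD W) (x : W) : Fin 4 :=
  if tA H s s.XL x then (if tA H s s.XM x then 2 else 0) else (if tA H s s.XM x then 1 else 3)

theorem tA_congr {A : Set W} {x y : W} (h : y ∈ cp H (s.d.I \ s.τ) x) :
    tA H s A x ↔ tA H s A y :=
  ⟨fun ⟨w, hw, hA⟩ => ⟨w, ctrans (csymm h) hw, hA⟩, fun ⟨w, hw, hA⟩ => ⟨w, ctrans h hw, hA⟩⟩

theorem lab_congr {x y : W} (h : y ∈ cp H (s.d.I \ s.τ) x) : lab H s y = lab H s x := by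
  have e1 : tA H s s.XL y = tA H s s.XL x := propext (tA_congr h).symm
  have e2 : tA H s s.XM y = tA H s s.XM x := propext (tA_congr h).symm
  unfold lab
  rw [e1, e2]

theorem lab0 {x : W} : lab H s x = 0 ↔ tA H s s.XL x ∧ ¬ tA H s s.XM x := by
  unfold lab; split_ifs <;> simp_all

theorem lab1 {x : W} : lab H s x = 1 ↔ ¬ tA H s s.XL x ∧ tA H s s.XM x := by
  unfold lab; split_ifs <;> simp_all

theorem lab2 {x : W} : lab H s x = 2 ↔ tA H s s.XL x ∧ tA H s s.XM x := by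
  unfold lab; split_ifs <;> simp_all

theorem lab3 {x : W} : lab H s x = 3 ↔ ¬ tA H s s.XL x ∧ ¬ tA H s s.XM x := by
  unfold lab; split_ifs <;> simp_all

/-- The labelled data. -/
noncomputable def sl (H : SimpleGraph W) (s : SD W) : SD W := { s with lab := lab H s }

theorem memR {k : Fin 4} {x : W} :
    x ∈ (sl H s).Rg k ↔ x ∈ s.d.I \ s.τ ∧ lab H s x = k :=
  ⟨fun h => ⟨⟨h.1, h.2.1⟩, h.2.2⟩, fun h => ⟨h.1.1, h.1.2, h.2⟩⟩

theorem cpR {k : Fin 4} {x : W} (hx : x ∈ (sl H s).Rg k) :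
    cp H (s.d.I \ s.τ) x ⊆ (sl H s).Rg k := fun _ hy =>
  memR.2 ⟨cp_sub (memR.1 hx).1 hy, (lab_congr hy).trans (memR.1 hx).2⟩

theorem connR {k : Fin 4} {x y : W} (hx : x ∈ (sl H s).Rg k) (hy : y ∈ cp H (s.d.I \ s.τ) x) :
    Conn H ((sl H s).Rg k) x y := cmono (cpR hx) (cp_conn' (memR.1 hx).1 hy)

theorem xsplit (h : Stp H s) {x : W} (hx : x ∈ s.d.X) : x ∈ s.XL ∨ x ∈ s.XM := by
  rcases (h.disc.px.adj _ h.hp _ h.hp' h.lt).1 h.pp x hx with e | e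
  · exact Or.inl ⟨hx, e⟩
  · exact Or.inr ⟨hx, e⟩

theorem cXL (h : Stp H s) : IsConn H s.XL :=
  pconv h.disc.px (fun _ hx => hx.1) fun _ _ _ hw _ hx _ h2 => ⟨hx, h2.trans hw.2⟩

theorem cXM (h : Stp H s) : IsConn H s.XM :=
  pconv h.disc.px (fun _ hx => hx.1) fun _ hw _ _ _ hx h2 _ => ⟨hx, hw.2.trans h2⟩

theorem thL (hP : Pl H Set.univ) (h : Stp H s) {E : Set W} (hE : E ⊆ s.d.I \ s.τ)
    (cE : IsConn H E) {x y : W} (hx : x ∈ s.XL) (hy : y ∈ s.d.Hi s.p' s.ql)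
    (hxy : H.Adj x y ∨ (x ∈ Nb H E ∧ y ∈ Nb H E)) : False :=
  theta hP h.disc h.hp' h.hl h.ti (pconn h.pt) ⟨_, h.pt.ha, h.zp'.symm⟩ ⟨_, h.pt.hb, h.vl.symm⟩
    (fun _ hw => (hE hw).1) (Set.disjoint_left.2 fun _ hw => (hE hw).2) cE
    (Or.inl ⟨hx.1, lt_of_le_of_lt hx.2 h.lt⟩) hy hxy

theorem thM (hP : Pl H Set.univ) (h : Stp H s) {E : Set W} (hE : E ⊆ s.d.I \ s.τ)
    (cE : IsConn H E) {x y : W} (hx : x ∈ s.d.Lo s.p s.qj) (hy : y ∈ s.XM)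
    (hxy : H.Adj x y ∨ (x ∈ Nb H E ∧ y ∈ Nb H E)) : False :=
  theta hP h.disc h.hp h.hj h.ti (pconn h.pt) ⟨_, h.pt.ha, h.zp.symm⟩ ⟨_, h.pt.hb, h.vj.symm⟩
    (fun _ hw => (hE hw).1) (Set.disjoint_left.2 fun _ hw => (hE hw).2) cE
    hx (Or.inl ⟨hy.1, lt_of_lt_of_le h.lt hy.2⟩) hxy

/-- A component that touches the left part does not touch the far right boundary. -/
theorem noHi (hP : Pl H Set.univ) (h : Stp H s) {x y : W} (hy : y ∈ s.d.I \ s.τ)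
    (ht : tA H s s.XL y) (hx : x ∈ s.d.Hi s.p' s.ql) (hxy : H.Adj x y) : False := by
  obtain ⟨w, hw, u, hu, a⟩ := ht
  exact thL hP h (cp_sub hy) (cp_conn hy) hu hx (Or.inr ⟨⟨w, hw, a.symm⟩, y, cp_self _ _, hxy⟩)

theorem noLo (hP : Pl H Set.univ) (h : Stp H s) {x y : W} (hy : y ∈ s.d.I \ s.τ)
    (ht : tA H s s.XM y) (hx : x ∈ s.d.Lo s.p s.qj) (hxy : H.Adj x y) : False := by
  obtain ⟨w, hw, u, hu, a⟩ := ht
  exact thM hP h (cp_sub hy) (cp_conn hy) hx hu (Or.inr ⟨⟨y, cp_self _ _, hxy⟩, w, hw, a.symm⟩)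

theorem nbR (h : Stp H s) {k : Fin 4} {x y : W} (hy : y ∈ (sl H s).Rg k) (hxy : H.Adj x y) :
    x ∈ (sl H s).Rg k ∨ x ∈ s.τ ∨ x ∈ s.XL ∨ x ∈ s.XM ∨ x ∈ s.d.Y := by
  rcases nbI h.disc (memR.1 hy).1.1 hxy.symm with e | e | e
  · by_cases ht : x ∈ s.τ
    · exact Or.inr (Or.inl ht)
    · exact Or.inl (cpR hy (cp_cl (memR.1 hy).1 (cp_self _ _) ⟨e, ht⟩ hxy.symm))
  · rcases xsplit h e with e | e <;> simp [e]
  · simp [e]

theorem tA_of {A : Set W} {x y : W} (hx : x ∈ A) (hxy : H.Adj x y) : tA H s A y :=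
  ⟨y, cp_self _ _, x, hx, hxy.symm⟩

theorem n2 (hP : Pl H Set.univ) (h : Stp H s) {x y : W} (hy : y ∈ (sl H s).Rg 2)
    (hxy : H.Adj x y) : x ∈ (sl H s).Rg 2 ∪ {s.p, s.p', s.z} := by
  have hy' := memR.1 hy
  have ht := lab2.1 hy'.2
  have key : x ∈ (s.τ \ {s.z}) ∪ s.d.Y → False := by
    intro hx
    obtain ⟨⟨w, hw, u, hu, a⟩, w', hw', u', hu', a'⟩ := ht
    have cτ : IsConn H (s.τ \ {s.z}) := by
      refine pconv h.pt (fun _ hh => hh.1) fun u hu _ _ x hx h1 _ => ⟨hx, ?_⟩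
      rintro rfl
      exact hu.2 (h.pt.inj _ hu.1 _ hx (le_antisymm h1 (h.pt.lo _ hu.1)))
    have c3 : IsConn H ((s.τ \ {s.z}) ∪ s.d.Y) := by
      rw [Set.union_comm]
      refine isc_base (pconn h.disc.py) Set.subset_union_left ?_
      rintro t (ht | ht)
      · exact ⟨t, ht, crefl _⟩
      · have hv : s.v ∈ s.τ \ {s.z} := by
          refine ⟨h.pt.hb, fun e => ht.2 ?_⟩
          have e' : s.v = s.z := e
          have h1 := h.pt.lo t ht.1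
          have h2 := h.pt.hi t ht.1
          rw [e'] at h2
          exact h.pt.inj _ ht.1 _ h.pt.ha (le_antisymm h2 h1)
        exact ⟨s.ql, h.hl, ctrans (cmono Set.subset_union_right (cτ t ht _ hv))
          (cone (Or.inr hv) (Or.inl h.hl) h.vl)⟩
    have t3 : Touch H ((s.τ \ {s.z}) ∪ s.d.Y) {s.z} := by
      rcases eq_or_lt_of_le (h.pt.lo _ h.pt.hb) with e | e
      · have e' : s.z = s.v := h.pt.inj _ h.pt.ha _ h.pt.hb e
        exact ⟨s.ql, Or.inr h.hl, s.z, rfl, e' ▸ h.vl.symm⟩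
      · obtain ⟨t, ht, -, -, a⟩ := psucc h.pt h.pt.ha h.pt.hb e
        exact ⟨t, Or.inl ⟨ht, a.ne'⟩, s.z, rfl, a.symm⟩
    obtain ⟨z1, hz1, az1⟩ := h.disc.tz (Or.inl h.hp)
    obtain ⟨z2, hz2, az2⟩ := h.disc.tz (Or.inl h.hp')
    obtain ⟨z3, hz3, az3⟩ := h.disc.tz (Or.inr h.hl)
    have zI := memI.1 (h.ti h.pt.ha)
    have hE : ∀ e ∈ cp H (s.d.I \ s.τ) y, (e ∉ s.d.Z ∧ e ∉ s.d.X ∧ e ∉ s.d.Y) ∧ e ∉ s.τ :=
      fun e he => ⟨memI.1 (cp_sub hy'.1 he).1, (cp_sub hy'.1 he).2⟩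
    have d3 : ∀ e ∈ s.d.X, e ∉ (s.τ \ {s.z}) ∪ s.d.Y := by
      rintro e he (hh | hh)
      · exact (memI.1 (h.ti hh.1)).2.1 he
      · exact xY h.disc he hh
    refine k33 hP (cXL h) (cXM h) c3 (isc_single s.z) (cp_conn hy'.1) h.disc.zc ?_ ?_ ?_ ?_ ?_ ?_ ?_
      ⟨s.p, ⟨h.hp, le_rfl⟩, s.z, rfl, h.zp.symm⟩ ⟨u, hu, w, hw, a.symm⟩
      ⟨s.p, ⟨h.hp, le_rfl⟩, z1, hz1, az1⟩
      ⟨s.p', ⟨h.hp', le_rfl⟩, s.z, rfl, h.zp'.symm⟩ ⟨u', hu', w', hw', a'.symm⟩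
      ⟨s.p', ⟨h.hp', le_rfl⟩, z2, hz2, az2⟩
      t3 ⟨x, hx, y, cp_self _ _, hxy⟩ ⟨s.ql, Or.inr h.hl, z3, hz3, az3⟩
    all_goals rw [Set.disjoint_left]
    · intro e h1 h2
      have := h.lt
      have := h1.2
      have := h2.2
      omega
    · exact fun e he => d3 e he.1
    · exact fun e he => d3 e he.1
    · rintro _ rfl he; exact (hE _ he).2 h.pt.ha
    · rintro _ rfl; exact zI.1
    · exact fun e he => (hE e he).1.1
    · have hX : ∀ e ∈ s.d.X, e ∉ {s.z} ∪ cp H (s.d.I \ s.τ) y ∪ s.d.Z := by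
        rintro e he ((rfl | hh) | hh)
        · exact zI.2.1 he
        · exact (hE e hh).1.2.1 he
        · exact xZ h.disc he hh
      rintro e ((he | he) | he | he)
      · exact hX e he.1
      · exact hX e he.1
      · rintro ((hh | hh) | hh)
        · exact he.2 hh
        · exact (hE e hh).2 he.1
        · exact (memI.1 (h.ti he.1)).1 hh
      · rintro ((rfl | hh) | hh)
        · exact zI.2.2 he
        · exact (hE e hh).1.2.2 he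
        · exact yZ h.disc he hh
  rcases nbR h hy hxy with e | e | e | e | e
  · exact Or.inl e
  · by_cases hz : x = s.z
    · simp [hz]
    · exact (key (Or.inl ⟨e, hz⟩)).elim
  · rcases eq_or_lt_of_le e.2 with e' | e'
    · simp [h.disc.px.inj _ e.1 _ h.hp e']
    · exact (noLo hP h hy'.1 ht.2 (Or.inl ⟨e.1, e'⟩) hxy).elim
  · rcases eq_or_lt_of_le e.2 with e' | e'
    · simp [h.disc.px.inj _ e.1 _ h.hp' e'.symm]
    · exact (noHi hP h hy'.1 ht.1 (Or.inl ⟨e.1, e'⟩) hxy).elim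
  · exact (key (Or.inr e)).elim

/-- The attachments of a component of region three. -/
theorem reg3 (hP : Pl H Set.univ) (h : Stp H s) {y : W} (hy : y ∈ (sl H s).Rg 3) :
    (∀ r ∈ Nb H (cp H (s.d.I \ s.τ) y) \ cp H (s.d.I \ s.τ) y,
      r = s.v ∨ (r ∈ s.d.Y ∧ s.d.ρ s.ql ≤ s.d.ρ r ∧ s.d.ρ r ≤ s.d.ρ s.qj)) ∧
    ∃ q ∈ Nb H (cp H (s.d.I \ s.τ) y), ∃ q' ∈ Nb H (cp H (s.d.I \ s.τ) y), q ∈ s.d.Y ∧ q' ∈ s.d.Y ∧
      H.Adj q q' ∧ s.d.ρ s.ql ≤ s.d.ρ q ∧ s.d.ρ q < s.d.ρ q' ∧ s.d.ρ q' ≤ s.d.ρ s.qj := by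
  have hy' := memR.1 hy
  have ht := lab3.1 hy'.2
  set E := cp H (s.d.I \ s.τ) y with hEdef
  have hE : E ⊆ s.d.I \ s.τ := cp_sub hy'.1
  have att : ∀ r ∈ Nb H E \ E, r ∈ s.τ ∨ r ∈ s.d.Y := by
    rintro r ⟨⟨e, he, a⟩, hr⟩
    rcases nbI h.disc (hE he).1 a.symm with e1 | e1 | e1
    · by_cases h1 : r ∈ s.τ
      · exact Or.inl h1
      · exact absurd (cp_cl hy'.1 he ⟨e1, h1⟩ a.symm) hr
    · rcases xsplit h e1 with e2 | e2
      · exact absurd ⟨e, he, r, e2, a.symm⟩ ht.1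
      · exact absurd ⟨e, he, r, e2, a.symm⟩ ht.2
    · exact Or.inr e1
  obtain ⟨hne, two⟩ := att2 hP (Z := s.d.Z ∪ s.d.X) h.disc.nj (fun _ he => (hE he).1)
    (h.disc.fin.subset fun _ he => (hE he).1) ⟨y, cp_self _ _⟩ (cp_conn hy'.1)
    (isc_nb h.disc.zc fun _ hx => h.disc.tz (Or.inl hx))
    (by
      rw [Set.disjoint_right]
      rintro e he (hh | hh)
      · exact (memI.1 (hE he).1).1 hh
      · exact (memI.1 (hE he).1).2.1 hh)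
    (by
      rw [Set.disjoint_right]
      rintro r hr (hh | hh) <;> rcases att r hr with e | e
      · exact (memI.1 (h.ti e)).1 hh
      · exact yZ h.disc e hh
      · exact (memI.1 (h.ti e)).2.1 hh
      · exact xY h.disc hh e)
    (by
      intro r hr
      rcases att r hr with e | e
      · obtain ⟨x, hx, -, a⟩ := h.tn r e
        exact ⟨x, Or.inr hx, a⟩
      · obtain ⟨x, hx, a⟩ := h.disc.tz (Or.inr e)
        exact ⟨x, Or.inl hx, a⟩)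
  set A := Nb H E \ E with hAdef
  have hv : ∀ r ∈ A, r ∈ s.τ → r = s.v := by
    intro r hr hrt
    obtain ⟨t, ht, hmin⟩ := Set.exists_min_image (A ∩ s.τ) s.σ
      (h.pt.fin.subset Set.inter_subset_right) ⟨r, hr, hrt⟩
    have tv : t = s.v := by
      obtain ⟨r1, h1, r2, h2, ne, a1, a2⟩ := two t ht.1
      rcases att r1 h1 with e1 | e1
      · rcases att r2 h2 with e2 | e2
        · exact absurd (psucc_uniq h.pt ht.2 e1 e2
            (lt_of_le_of_ne (hmin r1 ⟨h1, e1⟩) (pne h.pt ht.2 e1 a1))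
            (lt_of_le_of_ne (hmin r2 ⟨h2, e2⟩) (pne h.pt ht.2 e2 a2)) a1 a2) ne
        · exact (h.ty t ht.2 r2 e2 a2).1
      · exact (h.ty t ht.2 r1 e1 a1).1
    have := hmin r ⟨hr, hrt⟩
    rw [tv] at this
    exact h.pt.inj _ hrt _ h.pt.hb (le_antisymm (h.pt.hi _ hrt) this)
  have hY : (A ∩ s.d.Y).Nonempty := by
    obtain ⟨r, hr⟩ := hne
    obtain ⟨r1, h1, r2, h2, ne, -, -⟩ := two r hr
    rcases att r1 h1 with e1 | e1
    · rcases att r2 h2 with e2 | e2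
      · exact absurd ((hv r1 h1 e1).trans (hv r2 h2 e2).symm) ne
      · exact ⟨r2, h2, e2⟩
    · exact ⟨r1, h1, e1⟩
  obtain ⟨q, hq, hmin⟩ := Set.exists_min_image (A ∩ s.d.Y) s.d.ρ
    (h.disc.py.fin.subset Set.inter_subset_right) hY
  obtain ⟨q1, hq1, hmax⟩ := Set.exists_max_image (A ∩ s.d.Y) s.d.ρ
    (h.disc.py.fin.subset Set.inter_subset_right) hY
  have f1 : s.d.ρ s.ql ≤ s.d.ρ q ∧ ∃ q' ∈ A ∩ s.d.Y, H.Adj q q' := by
    obtain ⟨r1, h1, r2, h2, ne, a1, a2⟩ := two q hq.1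
    rcases att r1 h1 with e1 | e1 <;> rcases att r2 h2 with e2 | e2
    · exact absurd ((hv r1 h1 e1).trans (hv r2 h2 e2).symm) ne
    · exact ⟨(h.ty r1 e1 q hq.2 a1.symm).2.1, r2, ⟨h2, e2⟩, a2⟩
    · exact ⟨(h.ty r2 e2 q hq.2 a2.symm).2.1, r1, ⟨h1, e1⟩, a1⟩
    · exact absurd (psucc_uniq h.disc.py hq.2 e1 e2
        (lt_of_le_of_ne (hmin r1 ⟨h1, e1⟩) (pne h.disc.py hq.2 e1 a1))
        (lt_of_le_of_ne (hmin r2 ⟨h2, e2⟩) (pne h.disc.py hq.2 e2 a2)) a1 a2) ne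
  have f2 : s.d.ρ q1 ≤ s.d.ρ s.qj := by
    obtain ⟨r1, h1, r2, h2, ne, a1, a2⟩ := two q1 hq1.1
    rcases att r1 h1 with e1 | e1
    · exact (h.ty r1 e1 q1 hq1.2 a1.symm).2.2
    · rcases att r2 h2 with e2 | e2
      · exact (h.ty r2 e2 q1 hq1.2 a2.symm).2.2
      · exact absurd (ppred_uniq h.disc.py hq1.2 e1 e2
          (lt_of_le_of_ne (hmax r1 ⟨h1, e1⟩) (pne h.disc.py hq1.2 e1 a1).symm)
          (lt_of_le_of_ne (hmax r2 ⟨h2, e2⟩) (pne h.disc.py hq1.2 e2 a2).symm) a1 a2) ne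
  refine ⟨fun r hr => ?_, ?_⟩
  · rcases att r hr with e | e
    · exact Or.inl (hv r hr e)
    · exact Or.inr ⟨e, f1.1.trans (hmin r ⟨hr, e⟩), (hmax r ⟨hr, e⟩).trans f2⟩
  · obtain ⟨q', hq', a⟩ := f1.2
    exact ⟨q, hq.1.1, q', hq'.1.1, hq.2, hq'.2, a, f1.1,
      lt_of_le_of_ne (hmin q' hq') (pne h.disc.py hq.2 hq'.2 a), (hmax q' hq').trans f2⟩

theorem nv (hP : Pl H Set.univ) (h : Stp H s) (hL : s.Long H) :
    s.v ∈ Nb H ((sl H s).Rg 3 ∪ s.YN) := by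
  have lj := (h.ty _ h.pt.hb _ h.hl h.vl).2.2
  have vI := memI.1 (h.ti h.pt.hb)
  set A : Set W := {x | x ∈ s.d.Z ∨ x ∈ s.d.X ∨
    (x ∈ s.d.Y ∧ (s.d.ρ x < s.d.ρ s.ql ∨ s.d.ρ s.qj < s.d.ρ x)) ∨ (x ∈ s.τ ∧ x ≠ s.v) ∨
    (x ∈ s.d.I \ s.τ ∧ lab H s x ≠ 3)} with hA
  have cA : IsConn H A := by
    refine isc_base (isc_nb h.disc.zc fun _ hx => h.disc.tz (Or.inl hx))
      (fun _ hx => hx.elim Or.inl fun a => Or.inr (Or.inl a)) ?_
    intro x hx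
    rcases id hx with e | e | e | e | e
    · exact ⟨x, Or.inl e, crefl _⟩
    · exact ⟨x, Or.inr e, crefl _⟩
    · obtain ⟨z, hz, a⟩ := h.disc.tz (Or.inr e.1)
      exact ⟨z, Or.inl hz, cone hx (Or.inl hz) a⟩
    · obtain ⟨z, hz, -, a⟩ := h.tn x e.1
      exact ⟨z, Or.inr hz, cone hx (Or.inr (Or.inl hz)) a⟩
    · have sub : cp H (s.d.I \ s.τ) x ⊆ A := fun w hw =>
        Or.inr (Or.inr (Or.inr (Or.inr ⟨cp_sub e.1 hw, by rw [lab_congr hw]; exact e.2⟩)))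
      have : ∃ w ∈ cp H (s.d.I \ s.τ) x, ∃ u ∈ s.d.X, H.Adj w u := by
        by_contra hno
        refine e.2 (lab3.2 ⟨?_, ?_⟩) <;> rintro ⟨w, hw, u, hu, a⟩ <;> exact hno ⟨w, hw, u, hu.1, a⟩
      obtain ⟨w, hw, u, hu, a⟩ := this
      exact ⟨u, Or.inr hu, ctrans (cmono sub (cp_conn' e.1 hw))
        (cone (sub hw) (Or.inr (Or.inl hu)) a)⟩
  have hseg : ∀ x, x ∈ s.d.Y → s.d.ρ s.ql ≤ s.d.ρ x → s.d.ρ x ≤ s.d.ρ s.qj → x ∉ A ∪ {s.v} := by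
    rintro x hx h1 h2 ((e | e | e | e | e) | rfl)
    · exact yZ h.disc hx e
    · exact xY h.disc e hx
    · omega
    · exact (memI.1 (h.ti e.1)).2.2 hx
    · exact (memI.1 e.1.1).2.2 hx
    · exact vI.2.2 hx
  have c := tim hP (A := A) (B := {s.v}) (by
      rw [Set.disjoint_right]
      rintro _ rfl (e | e | e | e | e)
      · exact vI.1 e
      · exact vI.2.1 e
      · exact vI.2.2 e.1
      · exact e.2 rfl
      · exact e.1.2 h.pt.hb) cA (isc_single _) (Or.inl (Set.finite_singleton _))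
    ⟨_, rfl, h.vl.symm⟩ ⟨_, rfl, h.vj.symm⟩ (hseg _ h.hl le_rfl lj)
    (cmono (fun x hx => hseg x hx.1 hx.2.1 hx.2.2) (pwalk h.disc.py h.hl h.hj lj))
  obtain ⟨w, ⟨⟨_, rfl, a⟩, hw⟩, aw, -⟩ := cfirst c hL.1
  simp only [hA, Set.mem_union, Set.mem_ofPred_eq, Set.mem_singleton_iff, not_or, not_and,
    not_not, not_lt] at hw
  obtain ⟨⟨h1, h2, h3, h4, h5⟩, h6⟩ := hw
  refine ⟨w, ?_, a.symm⟩
  by_cases hY : w ∈ s.d.Y
  · refine Or.inr ⟨hY, lt_of_le_of_ne (h3 hY).1 (pne h.disc.py h.hl hY aw),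
      lt_of_le_of_ne (h3 hY).2 fun e => hL.2 ?_⟩
    exact (h.disc.py.inj _ hY _ h.hj e) ▸ aw
  · have hI : w ∈ s.d.I \ s.τ := ⟨memI.2 ⟨h1, h2, hY⟩, fun ht => h6 (h4 ht)⟩
    exact Or.inl (memR.2 ⟨hI, h5 hI⟩)

theorem reg (hP : Pl H Set.univ) (h : Stp H s) : Reg H (sl H s) where
  n0 := by
    rintro x ⟨y, hy, hxy⟩
    have ht := lab0.1 (memR.1 hy).2
    rcases nbR h hy hxy with e | e | e | e | e
    · exact Or.inl e
    · exact Or.inr (Or.inr e)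
    · exact Or.inr (Or.inl (Or.inl e))
    · exact absurd (tA_of e hxy) ht.2
    · refine Or.inr (Or.inl (Or.inr ⟨e, not_lt.1 fun hh => ?_⟩))
      exact noHi hP h (memR.1 hy).1 ht.1 (Or.inr ⟨e, hh⟩) hxy
  n1 := by
    rintro x ⟨y, hy, hxy⟩
    have ht := lab1.1 (memR.1 hy).2
    rcases nbR h hy hxy with e | e | e | e | e
    · exact Or.inl e
    · exact Or.inr (Or.inr e)
    · exact absurd (tA_of e hxy) ht.1
    · exact Or.inr (Or.inl (Or.inl e))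
    · refine Or.inr (Or.inl (Or.inr ⟨e, not_lt.1 fun hh => ?_⟩))
      exact noLo hP h (memR.1 hy).1 ht.2 (Or.inr ⟨e, hh⟩) hxy
  n2 := by
    rintro x ⟨y, hy, hxy⟩
    exact n2 hP h hy hxy
  n3 := by
    rintro x ⟨y, hy, hxy⟩
    by_cases hx : x ∈ cp H (s.d.I \ s.τ) y
    · exact Or.inl (cpR hy hx)
    · rcases (reg3 hP h hy).1 x ⟨⟨y, cp_self _ _, hxy⟩, hx⟩ with e | ⟨e, e1, e2⟩
      · exact Or.inr (Or.inr (Or.inl e))
      · rcases eq_or_lt_of_le e1 with e1 | e1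
        · exact Or.inr (Or.inr (Or.inr (Or.inl (h.disc.py.inj _ e _ h.hl e1.symm))))
        · rcases eq_or_lt_of_le e2 with e2 | e2
          · exact Or.inr (Or.inr (Or.inr (Or.inr (h.disc.py.inj _ e _ h.hj e2))))
          · exact Or.inr (Or.inl ⟨e, e1, e2⟩)
  c0 := by
    intro x hx
    obtain ⟨y, hy, hn⟩ := (lab0.1 (memR.1 hx).2).1
    exact ⟨y, connR hx hy, hn⟩
  c1 := by
    intro x hx
    obtain ⟨y, hy, hn⟩ := (lab1.1 (memR.1 hx).2).2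
    exact ⟨y, connR hx hy, hn⟩
  c2 := by
    intro x hx
    obtain ⟨⟨y, hy, u, hu, a⟩, y', hy', u', hu', a'⟩ := lab2.1 (memR.1 hx).2
    have zI := memI.1 (h.ti h.pt.ha)
    have lt := h.lt
    constructor
    · refine ⟨y, connR hx hy, ?_⟩
      rcases n2 hP h (cpR hx hy) a.symm with e | rfl | rfl | rfl
      · exact absurd hu.1 (memI.1 (memR.1 e).1.1).2.1
      · exact a
      · exact absurd hu.2 (not_le.2 lt)
      · exact absurd hu.1 zI.2.1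
    · refine ⟨y', connR hx hy', ?_⟩
      rcases n2 hP h (cpR hx hy') a'.symm with e | rfl | rfl | rfl
      · exact absurd hu'.1 (memI.1 (memR.1 e).1.1).2.1
      · exact absurd hu'.2 (not_le.2 lt)
      · exact a'
      · exact absurd hu'.1 zI.2.1
  c3 := by
    intro x hx
    obtain ⟨q, ⟨y, hy, a⟩, q', ⟨y', hy', a'⟩, h1, h2, h3, h4, h5, h6⟩ := (reg3 hP h hx).2
    exact ⟨y, y', q, q', connR hx hy, connR hx hy', a.symm, a'.symm, h1, h2, h3, h4, h5, h6⟩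
  nv := fun hL => nv hP h hL
  r0 := fun x hx y hy a => ⟨hy, not_lt.1 fun hh =>
    thL hP h (Set.empty_subset _) isc_empty hx (Or.inr ⟨hy, hh⟩) (Or.inl a)⟩
  r1 := fun x hx y hy a => ⟨hy, not_lt.1 fun hh =>
    thM hP h (Set.empty_subset _) isc_empty (Or.inr ⟨hy, hh⟩) hx (Or.inl a.symm)⟩

end PkStp2P

theorem pk_Stp2 : S_Stp2 := fun _ H hP s h =>
  ⟨PkStp2P.sl H s, rfl, rfl, rfl,
    ⟨h.disc, h.hp, h.hp', h.lt, h.pp, h.pt, h.ti, h.zp, h.zp', h.tn, h.ty, h.hl, h.hj, h.vl, h.vj⟩,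
    PkStp2P.reg hP h⟩

end Pool.Agent.P.MP_08fd93_co.OV
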