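import Pool.Agent.P.MP_08fd93_co.OV.St1

/-! Package Stp3 of project OV. -/

set_option autoImplicit false

namespace Pool.Agent.P.MP_08fd93_co.OV

namespace PkStp3P

variable {W : Type} {H : SimpleGraph W}

theorem cmono {A B : Set W} (h : A ⊆ B) {x y : W} (c : Conn H A x y) : Conn H B x y := by
  induction c with
  | refl => exact Relation.ReflTransGen.refl
  | tail _ k ih => exact Relation.ReflTransGen.tail ih ⟨h k.1, h k.2.1, k.2.2⟩

theorem csymm {A : Set W} {x y : W} (c : Conn H A x y) : Conn H A y x := by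
  induction c with
  | refl => exact Relation.ReflTransGen.refl
  | tail _ k ih => exact Relation.ReflTransGen.head ⟨k.2.1, k.1, k.2.2.symm⟩ ih

theorem cstep {A : Set W} {x y : W} (hx : x ∈ A) (hy : y ∈ A) (a : H.Adj x y) : Conn H A x y :=
  Relation.ReflTransGen.single ⟨hx, hy, a⟩

theorem cend {A : Set W} {x y : W} (hx : x ∈ A) (c : Conn H A x y) : y ∈ A := by
  induction c with
  | refl => exact hx
  | tail _ k _ => exact k.2.1

theorem conn_of {A B : Set W} (hB : IsConn H B) (h : B ⊆ A)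
    (k : ∀ x ∈ A, ∃ y ∈ B, Conn H A x y) : IsConn H A := by
  intro a ha b hb
  obtain ⟨y, hy, c⟩ := k a ha
  obtain ⟨y', hy', c'⟩ := k b hb
  exact (c.trans (cmono h (hB y hy y' hy'))).trans (csymm c')

theorem zfin {d : DD W} (D : Disc H d) : (d.Zᶜ).Finite := by
  refine ((D.px.fin.union D.py.fin).union D.fin).subset fun x hx => ?_
  by_cases k : x ∈ d.X ∪ d.Y
  · exact Or.inl k
  · exact Or.inr (by rintro (q | q); exacts [hx q, k q])

end PkStp3P

open PkStp3P in
theorem pk_Stp3 : S_Stp3 := by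
  classical
  intro W H s P R
  have D := P.disc
  have iX : ∀ x ∈ s.d.X, x ∉ s.d.I := fun x hx k => k (Or.inr (Or.inl hx))
  have iY : ∀ x ∈ s.d.Y, x ∉ s.d.I := fun x hx k => k (Or.inr (Or.inr hx))
  have iZ : ∀ x ∈ s.d.Z, x ∉ s.d.I := fun x hx k => k (Or.inl hx)
  have tX : ∀ x ∈ s.d.X, x ∉ s.τ := fun x hx k => iX x hx (P.ti k)
  have tY : ∀ x ∈ s.d.Y, x ∉ s.τ := fun x hx k => iY x hx (P.ti k)
  have xy : ∀ x ∈ s.d.X, x ∉ s.d.Y := fun x hx k => Set.disjoint_left.1 D.dxy hx k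
  have zX : ∀ x ∈ s.d.Z, x ∉ s.d.X := fun x hx k => Set.disjoint_left.1 D.dz hx (Or.inl k)
  have zY : ∀ x ∈ s.d.Z, x ∉ s.d.Y := fun x hx k => Set.disjoint_left.1 D.dz hx (Or.inr k)
  have rT : ∀ x ∈ s.τ, s.dM.ρ x = s.d.ρ s.qj - 1 - (s.σ s.v - s.σ x) := fun x hx => if_pos hx
  have rN : ∀ x, x ∉ s.τ → s.dM.ρ x = s.d.ρ x := fun x hx => if_neg hx
  have rX : ∀ x ∈ s.XM, s.dM.ρ x = s.d.ρ x := fun x hx => rN x (tX x hx.1)
  have rY : ∀ x ∈ s.YM, s.dM.ρ x = s.d.ρ x := fun x hx => rN x (tY x hx.1)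
  have mZ : ∀ x, x ∈ s.dM.Z ↔ ¬ ((x ∈ s.XM ∨ (x ∈ s.τ ∨ x ∈ s.YM)) ∨ x ∈ s.Rg 1) :=
    fun x => Iff.rfl
  have pM : s.p' ∈ s.XM := ⟨P.hp', le_rfl⟩
  have bM : s.d.b ∈ s.XM := ⟨D.px.hb, D.px.hi _ P.hp'⟩
  have jM : s.qj ∈ s.YM := ⟨P.hj, le_rfl⟩
  have bY : s.d.b' ∈ s.YM := ⟨D.py.hb, D.py.hi _ P.hj⟩
  have zz : s.d.Z ⊆ s.dM.Z := by
    intro x hx
    rw [mZ]
    rintro ((k | k | k) | k)
    · exact zX x hx k.1
    · exact iZ x hx (P.ti k)
    · exact zY x hx k.1
    · exact iZ x hx k.1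
  have xz : ∀ x ∈ s.d.X, s.d.ρ x ≤ s.d.ρ s.p → x ∈ s.dM.Z := by
    intro x hx l
    rw [mZ]
    rintro ((k | k | k) | k)
    · have := k.2
      have := P.lt
      omega
    · exact tX x hx k
    · exact xy x hx k.1
    · exact iX x hx k.1
  have yz : ∀ x ∈ s.d.Y, s.d.ρ x < s.d.ρ s.qj → x ∈ s.dM.Z := by
    intro x hx l
    rw [mZ]
    rintro ((k | k | k) | k)
    · exact xy x k.1 hx
    · exact tY x hx k
    · have := k.2
      omega
    · exact iY x hx k.1
  have gz : ∀ k : Fin 4, k ≠ 1 → s.Rg k ⊆ s.dM.Z := by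
    intro k hk x hx
    rw [mZ]
    rintro ((q | q | q) | q)
    · exact iX x q.1 hx.1
    · exact hx.2.1 q
    · exact iY x q.1 hx.1
    · exact hk (hx.2.2.symm.trans q.2.2)
  have iI : s.dM.I ⊆ s.d.I := by
    intro x hx
    have h1 : x ∉ s.dM.Z := fun k => hx (Or.inl k)
    have h2 : x ∉ s.XM ∪ (s.τ ∪ s.YM) := fun k => hx (Or.inr k)
    rw [mZ, not_not] at h1
    exact (h1.resolve_left h2).1
  have px : Pth H s.XM s.dM.ρ s.p' s.d.b := by
    refine ⟨D.px.fin.subset fun x hx => hx.1, pM, bM, ?_, ?_, ?_, ?_⟩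
    · intro u hu
      rw [rX _ pM, rX _ hu]
      exact hu.2
    · intro u hu
      rw [rX _ bM, rX _ hu]
      exact D.px.hi u hu.1
    · intro u hu v hv e
      rw [rX _ hu, rX _ hv] at e
      exact D.px.inj u hu.1 v hv.1 e
    · intro u hu v hv l
      rw [rX _ hu, rX _ hv] at l ⊢
      rw [D.px.adj u hu.1 v hv.1 l]
      constructor
      · intro k x hx
        rw [rX _ hx]
        exact k x hx.1
      · intro k x hx
        by_cases q : s.d.ρ s.p' ≤ s.d.ρ x
        · have := k x ⟨hx, q⟩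
          rwa [rX _ ⟨hx, q⟩] at this
        · have := hu.2
          left
          omega
  have py : Pth H (s.τ ∪ s.YM) s.dM.ρ s.z s.d.b' := by
    refine ⟨P.pt.fin.union (D.py.fin.subset fun x hx => hx.1), Or.inl P.pt.ha, Or.inr bY,
      ?_, ?_, ?_, ?_⟩
    · rintro u (hu | hu)
      · rw [rT _ P.pt.ha, rT _ hu]
        have := P.pt.lo u hu
        omega
      · rw [rT _ P.pt.ha, rY _ hu]
        have := P.pt.lo _ P.pt.hb
        have := hu.2
        omega
    · rintro u (hu | hu)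
      · rw [rY _ bY, rT _ hu]
        have := P.pt.hi u hu
        have := bY.2
        omega
      · rw [rY _ bY, rY _ hu]
        exact D.py.hi u hu.1
    · rintro u (hu | hu) v (hv | hv) e
      · rw [rT _ hu, rT _ hv] at e
        exact P.pt.inj u hu v hv (by omega)
      · rw [rT _ hu, rY _ hv] at e
        have := P.pt.hi u hu
        have := hv.2
        omega
      · rw [rY _ hu, rT _ hv] at e
        have := P.pt.hi v hv
        have := hu.2
        omega
      · rw [rY _ hu, rY _ hv] at e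
        exact D.py.inj u hu.1 v hv.1 e
    · rintro u (hu | hu) v (hv | hv) l
      · rw [rT _ hu, rT _ hv] at l ⊢
        rw [P.pt.adj u hu v hv (by omega)]
        constructor
        · rintro k x (hx | hx)
          · rw [rT _ hx]
            have := k x hx
            omega
          · rw [rY _ hx]
            have := hx.2
            have := P.pt.hi v hv
            omega
        · intro k x hx
          have := k x (Or.inl hx)
          rw [rT _ hx] at this
          omega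
      · rw [rT _ hu, rY _ hv] at l ⊢
        constructor
        · intro a
          obtain ⟨e1, -, e2⟩ := P.ty u hu v hv.1 a
          rintro x (hx | hx)
          · rw [rT _ hx, e1]
            have := P.pt.hi x hx
            omega
          · rw [rY _ hx]
            have := hx.2
            omega
        · intro k
          have k1 := k s.v (Or.inl P.pt.hb)
          have k2 := k s.qj (Or.inr jM)
          rw [rT _ P.pt.hb] at k1
          rw [rY _ jM] at k2
          have := P.pt.hi u hu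
          have := hv.2
          have e1 : u = s.v := P.pt.inj u hu _ P.pt.hb (by omega)
          have e2 : v = s.qj := D.py.inj v hv.1 _ P.hj (by omega)
          rw [e1, e2]
          exact P.vj
      · rw [rY _ hu, rT _ hv] at l
        have := P.pt.hi v hv
        have := hu.2
        omega
      · rw [rY _ hu, rY _ hv] at l ⊢
        rw [D.py.adj u hu.1 v hv.1 l]
        constructor
        · rintro k x (hx | hx)
          · rw [rT _ hx]
            have := P.pt.hi x hx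
            have := hu.2
            omega
          · rw [rY _ hx]
            exact k x hx.1
        · intro k x hx
          by_cases q : s.d.ρ s.qj ≤ s.d.ρ x
          · have := k x (Or.inr ⟨hx, q⟩)
            rwa [rY _ ⟨hx, q⟩] at this
          · have := hu.2
            left
            omega
  have bd : ∀ x ∈ s.dM.Z, x ∈ s.d.X ∪ s.d.Y → ∃ y ∈ s.d.Z, Conn H s.dM.Z x y := by
    intro x hx k
    obtain ⟨y, hy, a⟩ := D.tz k
    exact ⟨y, hy, cstep hx (zz hy) a⟩
  have via : ∀ k : Fin 4, k ≠ 1 → ∀ x ∈ s.Rg k, ∀ y q, Conn H (s.Rg k) x y → H.Adj y q →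
      q ∈ s.dM.Z → q ∈ s.d.X ∪ s.d.Y → ∃ y ∈ s.d.Z, Conn H s.dM.Z x y := by
    intro k hk x hx y q c a h1 h2
    obtain ⟨w, hw, c'⟩ := bd q h1 h2
    exact ⟨w, hw, ((cmono (gz k hk) c).trans (cstep (gz k hk (cend hx c)) h1 a)).trans c'⟩
  have zc : IsConn H s.dM.Z := by
    refine conn_of D.zc zz fun x hx => ?_
    by_cases h1 : x ∈ s.d.Z
    · exact ⟨x, h1, Relation.ReflTransGen.refl⟩
    by_cases h2 : x ∈ s.d.X ∪ s.d.Y
    · exact bd x hx h2
    have h3 : x ∈ s.d.I := by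
      rintro (q | q)
      exacts [h1 q, h2 q]
    have h4 : x ∉ s.τ := fun q => (mZ x).1 hx (Or.inl (Or.inr (Or.inl q)))
    have h5 : s.lab x ≠ 1 := fun q => (mZ x).1 hx (Or.inr ⟨h3, h4, q⟩)
    have h6 : s.lab x = 0 ∨ s.lab x = 2 ∨ s.lab x = 3 := by
      revert h5
      generalize s.lab x = k
      revert k
      decide
    rcases h6 with e | e | e
    · obtain ⟨y, c, q, hq, a⟩ := R.c0 x ⟨h3, h4, e⟩
      exact via 0 (by decide) x ⟨h3, h4, e⟩ y q c a (xz q hq.1 hq.2) (Or.inl hq.1)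
    · obtain ⟨⟨y, c, a⟩, -⟩ := R.c2 x ⟨h3, h4, e⟩
      exact via 2 (by decide) x ⟨h3, h4, e⟩ y s.p c a (xz _ P.hp le_rfl) (Or.inl P.hp)
    · obtain ⟨y, y', q, q', c, -, a, -, hq, -, -, -, l1, l2⟩ := R.c3 x ⟨h3, h4, e⟩
      exact via 3 (by decide) x ⟨h3, h4, e⟩ y q c a (yz q hq (by omega)) (Or.inr hq)
  refine ⟨⟨px, py, ?_, P.zp'.symm, D.rb, zc, ?_, ?_, ?_, D.fin.subset iI, ?_⟩, ⟨?_, ?_⟩, ?_⟩
  · refine Set.disjoint_left.2 ?_
    rintro x hx (k | k)
    · exact tX x hx.1 k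
    · exact xy x hx.1 k.1
  · exact Set.disjoint_left.2 fun x hx k => (mZ x).1 hx (Or.inl k)
  · rintro x ⟨b, hb, a⟩
    by_cases h1 : x ∈ s.dM.Z
    · exact Or.inl h1
    rw [mZ, not_not] at h1
    rcases h1 with h1 | h1
    · exact Or.inr h1
    · exfalso
      apply (mZ b).1 hb
      rcases R.n1 ⟨x, h1, a.symm⟩ with k | (k | k) | k
      · exact Or.inr k
      · exact Or.inl (Or.inl k)
      · exact Or.inl (Or.inr (Or.inr k))
      · exact Or.inl (Or.inr (Or.inl k))
  · rintro x (hx | hx | hx)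
    · obtain ⟨y, hy, a⟩ := D.tz (Or.inl hx.1)
      exact ⟨y, zz hy, a⟩
    · obtain ⟨y, hy, l, a⟩ := P.tn x hx
      exact ⟨y, xz y hy l, a⟩
    · obtain ⟨y, hy, a⟩ := D.tz (Or.inr hx.1)
      exact ⟨y, zz hy, a⟩
  · exact fun E hE => D.nj E (hE.trans iI)
  · rintro e rfl
    exact Or.inr ⟨s.v, Or.inl P.pt.hb, s.qj, Or.inr jM, P.vj, rfl⟩
  · rintro e rfl e' rfl k
    exact absurd rfl k
  · refine Set.ncard_lt_ncard ⟨Set.compl_subset_compl.2 zz, fun k => ?_⟩ (zfin D)
    exact k (fun q => zX _ q P.hp) (xz _ P.hp le_rfl)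

end Pool.Agent.P.MP_08fd93_co.OV
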