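import Pool.Agent.P.MP_08fd93_co.OV.Tb65

/-! Package Stp4a of project OV. -/

set_option autoImplicit false

namespace Pool.Agent.P.MP_08fd93_co.OV

namespace PkStp4aP

open P65

variable {W : Type} {H : SimpleGraph W} {s : SD W} {o : OD W}

theorem tauX (hS : Stp H s) {x : W} (hx : x ∈ s.d.X) : x ∉ s.τ :=
  fun h => hS.ti h (Or.inr (Or.inl hx))

theorem tauY (hS : Stp H s) {x : W} (hx : x ∈ s.d.Y) : x ∉ s.τ :=
  fun h => hS.ti h (Or.inr (Or.inr hx))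

theorem rM_tau {x : W} (hx : x ∈ s.τ) :
    s.dM.ρ x = s.d.ρ s.qj - 1 - (s.σ s.v - s.σ x) := if_pos hx

theorem rM_not {x : W} (hx : x ∉ s.τ) : s.dM.ρ x = s.d.ρ x := if_neg hx

theorem rL_T {x : W} (hx : x ∈ s.T1 o) :
    (s.dL o).ρ x = s.d.ρ s.ql + (s.d.ρ s.qj - o.ρ x) := if_pos hx

theorem rL_not {x : W} (hx : x ∉ s.T1 o) : (s.dL o).ρ x = s.d.ρ x := if_neg hx

theorem notZM {x : W} : x ∉ s.dM.Z ↔ (x ∈ s.XM ∨ (x ∈ s.τ ∨ x ∈ s.YM)) ∨ x ∈ s.Rg 1 :=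
  not_not

theorem lj (hS : Stp H s) : s.d.ρ s.ql ≤ s.d.ρ s.qj := (hS.ty _ hS.pt.hb _ hS.hj hS.vj).2.1

theorem vY (hS : Stp H s) (hO : Shp H s.dM s.SM o) : s.v ∈ o.Y :=
  (hO.yy (Or.inl hS.pt.hb)).resolve_right (hO.st _ rfl _ (Sym2.mem_mk_left _ _))

theorem jYM (hS : Stp H s) : s.qj ∈ s.YM := ⟨hS.hj, le_rfl⟩

theorem jY (hS : Stp H s) (hO : Shp H s.dM s.SM o) : s.qj ∈ o.Y :=
  (hO.yy (Or.inr (jYM hS))).resolve_right (hO.st _ rfl _ (Sym2.mem_mk_right _ _))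

theorem rv (hS : Stp H s) (hO : Shp H s.dM s.SM o) : o.ρ s.v = s.d.ρ s.qj - 1 := by
  rw [hO.ry _ (Or.inl hS.pt.hb) (vY hS hO), rM_tau hS.pt.hb]
  omega

theorem rj (hS : Stp H s) (hO : Shp H s.dM s.SM o) : o.ρ s.qj = s.d.ρ s.qj := by
  rw [hO.ry _ (Or.inr (jYM hS)) (jY hS hO), rM_not (tauY hS hS.hj)]

theorem vT (hS : Stp H s) (hO : Shp H s.dM s.SM o) : s.v ∈ s.T1 o :=
  ⟨vY hS hO, by rw [rv hS hO]; omega⟩

theorem tauT (hS : Stp H s) (hO : Shp H s.dM s.SM o) {t : W} (ht : t ∈ s.τ) (hy : t ∈ o.Y) :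
    t ∈ s.T1 o := by
  refine ⟨hy, ?_⟩
  rw [hO.ry _ (Or.inl ht) hy, rM_tau ht]
  have := hS.pt.hi t ht
  omega

theorem zT (hS : Stp H s) (hO : Shp H s.dM s.SM o) : s.z ∈ s.T1 o :=
  tauT hS hO hS.pt.ha hO.disc.py.ha

theorem tI (hS : Stp H s) (hO : Shp H s.dM s.SM o) : s.T1 o ⊆ s.τ ∪ s.Rg 1 := by
  intro t ht
  have h1 : t ∉ s.dM.Z := fun h => yz hO ht.1 (hO.zz h)
  rcases notZM.1 h1 with (h | h | h) | h
  · rcases hO.xx h with h2 | h2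
    · exact absurd ht.1 (xy hO h2)
    · exact absurd h2 (yz hO ht.1)
  · exact Or.inl h
  · have h2 := hO.ry t (Or.inr h) ht.1
    rw [rM_not (tauY hS h.1)] at h2
    have h3 := h.2
    have h4 := ht.2
    omega
  · exact Or.inr h

theorem wI (hS : Stp H s) (hM : Disc H s.dM) (hO : Shp H s.dM s.SM o) :
    s.W1 o ⊆ s.τ ∪ s.Rg 1 := by
  rintro x ⟨hz, hn, ht⟩
  rcases notZM.1 hn with (h | h | h) | h
  · exact absurd ht.1 (xy hO (hiddenX hM hO h hz))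
  · exact Or.inl h
  · obtain ⟨hy, -, a, -, b, hb, -, h2, -, h4, -, h6⟩ := hiddenY hM hO (x := x) (Or.inr h) hz
    rw [rM_not (tauY hS h.1)] at h2
    have h7 := gap hO.disc.py hy hb h6 h4 (jY hS hO)
    have h8 := rj hS hO
    have h9 := ht.2
    have h10 := h.2
    change o.ρ s.qj ≤ o.ρ (o.ax x) ∨ o.ρ b ≤ o.ρ s.qj at h7
    omega
  · exact Or.inr h

theorem tw (hS : Stp H s) (hM : Disc H s.dM) (hO : Shp H s.dM s.SM o) :
    s.τ ⊆ s.T1 o ∪ s.W1 o := by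
  intro t ht
  rcases hO.yy (Or.inl ht) with h | h
  · exact Or.inl (tauT hS hO ht h)
  · obtain ⟨hy, hnew, a, ha, b, -, h1, -, h3, -, h5, -⟩ := hiddenY hM hO (x := t) (Or.inl ht) h
    refine Or.inr ⟨h, notZM.2 (Or.inl (Or.inr (Or.inl ht))), hy, ?_⟩
    rw [rM_tau ht] at h1
    have h6 := hS.pt.hi t ht
    have h7 := gap hO.disc.py ha hy h5 h3 (jY hS hO)
    have h8 := rj hS hO
    change o.ρ s.qj ≤ o.ρ a ∨ o.ρ (o.ax t) ≤ o.ρ s.qj at h7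
    have h9 : o.ρ (o.ax t) ≠ o.ρ s.qj := fun e =>
      hnew (by rw [hO.disc.py.inj _ hy _ (jY hS hO) e]; exact Or.inr (jYM hS))
    omega

theorem T1I (hS : Stp H s) (hO : Shp H s.dM s.SM o) {t : W} (ht : t ∈ s.T1 o) : t ∈ s.d.I := by
  rcases tI hS hO ht with h | h
  · exact hS.ti h
  · exact h.1

theorem YT (hS : Stp H s) (hO : Shp H s.dM s.SM o) {y : W} (hy : y ∈ s.d.Y) : y ∉ s.T1 o :=
  fun h => T1I hS hO h (Or.inr (Or.inr hy))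

theorem XT (hS : Stp H s) (hO : Shp H s.dM s.SM o) {y : W} (hy : y ∈ s.d.X) : y ∉ s.T1 o :=
  fun h => T1I hS hO h (Or.inr (Or.inl hy))

theorem T1eq (hS : Stp H s) (hO : Shp H s.dM s.SM o) {t : W} (ht : t ∈ s.T1 o)
    (h : s.d.ρ s.qj - 1 ≤ o.ρ t) : t = s.v := by
  have h1 := ht.2
  have h2 := rv hS hO
  exact hO.disc.py.inj _ ht.1 _ (vY hS hO) (by change o.ρ t = o.ρ s.v; omega)

theorem pyL (hS : Stp H s) (hR : Reg H s) (hO : Shp H s.dM s.SM o) :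
    Pth H (s.dL o).Y (s.dL o).ρ s.d.a' s.z := by
  have py : Pth H o.Y o.ρ s.z s.d.b' := hO.disc.py
  have hA : Pth H s.YL (s.dL o).ρ s.d.a' s.ql :=
    congr (seg_lo hS.disc.py hS.hl fun _ => Iff.rfl) fun x hx => rL_not (YT hS hO hx.1)
  have hB0 : Pth H (s.T1 o) o.ρ s.z s.v := seg_lo py (vY hS hO) fun x => by
    rw [rv hS hO]
    exact and_congr_right fun _ => by omega
  have hB : Pth H (s.T1 o) (s.dL o).ρ s.v s.z :=
    congr (rev hB0 (s.d.ρ s.ql + s.d.ρ s.qj)) fun x hx => by rw [rL_T hx]; ring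
  refine join hA hB (fun _ => Iff.rfl) (Or.inr ⟨?_, hS.vl.symm⟩) ?_
  · rw [rL_not (YT hS hO hS.hl), rL_T (vT hS hO), rv hS hO]
    omega
  · intro u hu w hw hadj
    refine Or.inr (Or.inr ?_)
    have hu2 := hu.2
    have hlj := lj hS
    rcases tI hS hO hw with h | h
    · obtain ⟨h1, h2, -⟩ := hS.ty w h u hu.1 hadj.symm
      exact ⟨hS.disc.py.inj _ hu.1 _ hS.hl (by omega), h1⟩
    · have h1 : u ∈ s.YM := by
        rcases hR.n1 ⟨w, h, hadj⟩ with h1 | (h1 | h1) | h1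
        · exact absurd (Or.inr (Or.inr hu.1)) h1.1
        · exact absurd hu.1 (Set.disjoint_left.1 hS.disc.dxy h1.1)
        · exact h1
        · exact absurd h1 (tauY hS hu.1)
      have h2 := h1.2
      have e1 : u = s.ql := hS.disc.py.inj _ hu.1 _ hS.hl (by omega)
      have e2 : u = s.qj := hS.disc.py.inj _ hu.1 _ hS.hj (by omega)
      refine ⟨e1, T1eq hS hO hw ?_⟩
      have h3 := hw.2
      have h4 := rj hS hO
      have h5 := rv hS hO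
      have h6 := gap py hw.1 (jY hS hO) (by omega) (e2 ▸ hadj.symm) (vY hS hO)
      omega

/-- Normal form of a strict edge of the left disc. -/
theorem slForm (hS : Stp H s) (hO : Shp H s.dM s.SM o) {e : Sym2 W} (he : e ∈ s.SL H o) :
    ∃ t ∈ (s.dL o).Y, ∃ t' ∈ (s.dL o).Y, H.Adj t' t ∧ e = s(t, t') ∧
      (s.dL o).ρ t' < (s.dL o).ρ t ∧ s.d.ρ s.ql ≤ (s.dL o).ρ t' ∧
      (s.d.ρ s.ql < (s.dL o).ρ t' → t' ∈ s.τ) := by
  obtain ⟨t, ht, t', hadj, rfl, h⟩ := he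
  have h0 := ht.2
  rcases h with h | ⟨h1, h2, h3⟩
  · subst h
    refine ⟨t, Or.inr ht, _, Or.inl ⟨hS.hl, le_rfl⟩, hadj.symm, rfl, ?_, ?_, ?_⟩
    · rw [rL_not (YT hS hO hS.hl), rL_T ht]
      omega
    · rw [rL_not (YT hS hO hS.hl)]
    · rw [rL_not (YT hS hO hS.hl)]
      exact fun h => absurd h (lt_irrefl _)
  · have h4 := h1.2
    refine ⟨t, Or.inr ht, t', Or.inr h1, hadj.symm, rfl, ?_, ?_, fun _ => h2⟩
    · rw [rL_T h1, rL_T ht]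
      omega
    · rw [rL_T h1]
      omega

theorem sepL (hS : Stp H s) (hR : Reg H s) (hO : Shp H s.dM s.SM o) {t1 t1' t2 t2' : W}
    (h1 : t1 ∈ (s.dL o).Y) (h1' : t1' ∈ (s.dL o).Y) (h2 : t2 ∈ (s.dL o).Y)
    (h2' : t2' ∈ (s.dL o).Y) (a1 : H.Adj t1' t1) (l1 : (s.dL o).ρ t1' < (s.dL o).ρ t1)
    (l2 : (s.dL o).ρ t2' < (s.dL o).ρ t2) (l : (s.dL o).ρ t1' < (s.dL o).ρ t2')
    (ht : t2' ∈ s.τ) : Sep H (s.dL o) s(t1, t1') s(t2, t2') := by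
  obtain ⟨x, hx, hxp, hadj⟩ := hS.tn _ ht
  have h3 := gap (pyL hS hR hO) h1' h1 l1 a1 h2'
  refine ⟨x, ⟨hx, hxp⟩, t2', h2', hadj.symm, ?_, ?_⟩
  · intro y hy
    rcases Sym2.mem_iff.1 hy with rfl | rfl
    · exact Or.inr ⟨h1, by omega⟩
    · exact Or.inr ⟨h1', by omega⟩
  · intro y hy
    rcases Sym2.mem_iff.1 hy with rfl | rfl
    · exact Or.inr ⟨h2, by omega⟩
    · exact Or.inr ⟨h2', le_rfl⟩

theorem admL (hS : Stp H s) (hR : Reg H s) (hO : Shp H s.dM s.SM o) :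
    Adm H (s.dL o) (s.SL H o) := by
  refine ⟨fun e he => ?_, fun e he e' he' hne => ?_⟩
  · obtain ⟨t, ht, t', ht', hadj, rfl, -⟩ := slForm hS hO he
    exact Or.inr ⟨t, ht, t', ht', hadj.symm, rfl⟩
  · obtain ⟨t1, h1, t1', h1', a1, rfl, l1, m1, k1⟩ := slForm hS hO he
    obtain ⟨t2, h2, t2', h2', a2, rfl, l2, m2, k2⟩ := slForm hS hO he'
    have py := pyL hS hR hO
    rcases lt_trichotomy ((s.dL o).ρ t1') ((s.dL o).ρ t2') with l | l | l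
    · exact Or.inl (sepL hS hR hO h1 h1' h2 h2' a1 l1 l2 l (k2 (by omega)))
    · exfalso
      have e1 : t1' = t2' := py.inj _ h1' _ h2' l
      subst e1
      have g1 := gap py h1' h1 l1 a1 h2
      have g2 := gap py h1' h2 l2 a2 h1
      have e2 : t1 = t2 := py.inj _ h1 _ h2 (by omega)
      exact hne (by rw [e2])
    · exact Or.inr (sepL hS hR hO h2 h2' h1 h1' a2 l2 l1 l (k1 (by omega)))

end PkStp4aP

open PkStp4aP in
theorem pk_Stp4a : S_Stp4a := fun _ _ _ _ hS hR hM hO =>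
  ⟨vT hS hO, zT hS hO, jY hS hO, tI hS hO, wI hS hM hO, tw hS hM hO, pyL hS hR hO, admL hS hR hO⟩

end Pool.Agent.P.MP_08fd93_co.OV
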