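import Pool.Agent.P.MP_08fd93_co.OV.Base

/-! Package Tri1 of project OV: the triangle lemma. -/

set_option autoImplicit false

namespace Pool.Agent.P.MP_08fd93_co.OV

namespace PkTri1P

variable {W : Type} {H : SimpleGraph W}

/-- A finite part whose boundary lies in a triangle touches all three corners. -/
theorem touch3 {I E : Set W} {a b e : W} (hI : NJ H I) (hE : E ⊆ I) (hf : E.Finite)
    (hne : E.Nonempty) (hab : H.Adj a b) (hbe : H.Adj b e) (hae : H.Adj a e)
    (hN : Nb H E ⊆ E ∪ {a, b, e}) : Touch H {a} E ∧ Touch H {b} E ∧ Touch H {e} E := by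
  have key : ∀ p q r : W, H.Adj q r → Nb H E ⊆ E ∪ {p, q, r} → Touch H {p} E := by
    intro p q r hqr h
    by_contra hc
    refine hI E hE hf hne q r (Or.inr hqr) fun x hx => ?_
    rcases h hx with h1 | rfl | h1
    · exact Or.inl h1
    · obtain ⟨y, hy, hxy⟩ := hx
      exact absurd ⟨x, rfl, y, hy, hxy⟩ hc
    · exact Or.inr h1
  refine ⟨key a b e hbe hN, key b a e hae fun x hx => ?_, key e a b hab fun x hx => ?_⟩
  · have := hN hx
    simp only [Set.mem_union, Set.mem_insert_iff, Set.mem_singleton_iff] at this ⊢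
    tauto
  · have := hN hx
    simp only [Set.mem_union, Set.mem_insert_iff, Set.mem_singleton_iff] at this ⊢
    tauto

/-- The outside of a triangle with its inside is connected. -/
theorem out_conn (hP : Pl H Set.univ) {Z0 I0 D : Set W} {a b e : W} (hab : H.Adj a b)
    (hbe : H.Adj b e) (hae : H.Adj a e) (hZ : IsConn H Z0)
    (hK : ({a, b, e} : Set W) ⊆ Nb H Z0) (hZD : Disjoint Z0 (D ∪ {a, b, e}))
    (hDK : Disjoint D {a, b, e}) (hI : (Z0 ∪ {a, b, e})ᶜ ⊆ I0) (hf : I0.Finite) (hN : NJ H I0)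
    (hD : Nb H D ⊆ D ∪ {a, b, e}) (hne : D.Nonempty) : IsConn H (D ∪ {a, b, e})ᶜ := by
  refine isConn_base hZ (fun x hx => Set.disjoint_left.1 hZD hx) fun v hv => ?_
  by_contra hc
  push Not at hc
  obtain ⟨x0, hx0⟩ := hne
  have m1 : ∀ y, Conn H (D ∪ {a, b, e})ᶜ v y → y ∉ D ∪ {a, b, e} := fun y hy => hy.mem hv
  have m2 : ∀ y, Conn H D x0 y → y ∈ D := fun y hy => hy.mem hx0
  have s1 : {y | Conn H (D ∪ {a, b, e})ᶜ v y} ⊆ I0 := fun y hy => hI (by
    rintro (h | h)
    · exact hc y h hy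
    · exact m1 y hy (Or.inr h))
  have s2 : {y | Conn H D x0 y} ⊆ I0 := fun y hy => hI (by
    rintro (h | h)
    · exact Set.disjoint_left.1 hZD h (Or.inl (m2 y hy))
    · exact Set.disjoint_left.1 hDK (m2 y hy) h)
  have t1 := touch3 hN s1 (hf.subset s1) ⟨v, Conn.rfl'⟩ hab hbe hae (by
    intro z hz
    by_cases h : z ∈ D ∪ {a, b, e}
    · rcases h with h | h
      · obtain ⟨y, hy, hzy⟩ := hz
        exact absurd (hD ⟨z, h, hzy.symm⟩) (m1 y hy)
      · exact Or.inr h
    · exact Or.inl (comp_nb hv hz h))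
  have t2 := touch3 hN s2 (hf.subset s2) ⟨x0, Conn.rfl'⟩ hab hbe hae (by
    intro z hz
    obtain ⟨y, hy, hzy⟩ := hz
    rcases hD ⟨y, m2 y hy, hzy⟩ with h | h
    · exact Or.inl (comp_nb hx0 ⟨y, hy, hzy⟩ h)
    · exact Or.inr h)
  have t0 : ∀ p ∈ ({a, b, e} : Set W), Touch H {p} Z0 := fun p hp => by
    obtain ⟨y, hy, h⟩ := hK hp
    exact ⟨p, rfl, y, hy, h⟩
  have g : ∀ p ∈ ({a, b, e} : Set W), Disjoint {p} Z0 ∧
      Disjoint {p} {y | Conn H (D ∪ {a, b, e})ᶜ v y} ∧ Disjoint {p} {y | Conn H D x0 y} :=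
    fun p hp => ⟨Set.disjoint_singleton_left.2 fun h => Set.disjoint_left.1 hZD h (Or.inr hp),
      Set.disjoint_singleton_left.2 fun h => m1 p h (Or.inr hp),
      Set.disjoint_singleton_left.2 fun h => Set.disjoint_left.1 hDK (m2 p h) hp⟩
  exact k33 hP (isConn_single a) (isConn_single b) (isConn_single e) hZ (isConn_comp _ v)
    (isConn_comp _ x0) (Set.disjoint_singleton.2 hab.ne) (Set.disjoint_singleton.2 hae.ne)
    (Set.disjoint_singleton.2 hbe.ne) (Set.disjoint_left.2 fun y h h' => hc y h h')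
    (Set.disjoint_left.2 fun y h h' => Set.disjoint_left.1 hZD h (Or.inl (m2 y h')))
    (Set.disjoint_left.2 fun y h h' => m1 y h (Or.inl (m2 y h')))
    (g a (by simp)) (g b (by simp)) (g e (by simp))
    ⟨t0 a (by simp), t1.1, t2.1⟩ ⟨t0 b (by simp), t1.2.1, t2.2.1⟩
    ⟨t0 e (by simp), t1.2.2, t2.2.2⟩

/-- The disc theorem applied to a triangle. -/
theorem core {n : ℕ} (hT : TN H n) {D : Set W} {p q r : W} (hpq : H.Adj p q) (hqr : H.Adj q r)
    (hpr : H.Adj p r) (hZ : IsConn H (D ∪ {p, q, r})ᶜ)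
    (hK : ({p, q, r} : Set W) ⊆ Nb H (D ∪ {p, q, r})ᶜ) (hDK : Disjoint D {p, q, r})
    (hf : D.Finite) (hN : NJ H D) (hD : Nb H D ⊆ D ∪ {p, q, r})
    (hn : (D ∪ {p, q, r}).ncard < n) (c : W → Col) (h1 : c p ≠ c r) (h2 : c q ≠ c r) :
    ∃ c', Rec H D ∅ c c' := by
  classical
  let d : DD W := ⟨(D ∪ {p, q, r})ᶜ, {p, q}, {r}, fun x => if x = q then 1 else 0, p, q, r, r⟩
  have hU : d.X ∪ d.Y = {p, q, r} := by
    ext x; simp only [d, Set.mem_union, Set.mem_insert_iff, Set.mem_singleton_iff]; tauto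
  have hI : d.I = D := by
    ext x
    have : x ∈ D → x ∉ ({p, q, r} : Set W) := fun h => Set.disjoint_left.1 hDK h
    simp only [DD.I, hU]
    simp only [d, Set.mem_compl_iff, Set.mem_union] at this ⊢
    tauto
  have hd : Disc H d := by
    refine ⟨Pth.pair hpq (by simp [d, hpq.ne]), Pth.single _ _, ?_, hpr, hqr, hZ, ?_, ?_, ?_,
      by rw [hI]; exact hf, by rw [hI]; exact hN⟩
    · refine Set.disjoint_singleton_right.2 ?_
      rintro (h | h)
      · exact hpr.ne h.symm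
      · exact hqr.ne h.symm
    · rw [hU]; exact Set.disjoint_left.2 fun x hx hx' => hx (Or.inr hx')
    · rw [hU]
      rintro x ⟨y, hy, hxy⟩
      by_cases h : x ∈ D ∪ {p, q, r}
      · rcases h with h | h
        · exact absurd (hD ⟨x, h, hxy.symm⟩) hy
        · exact Or.inr h
      · exact Or.inl h
    · rw [hU]; exact hK
  obtain ⟨o, ho⟩ := hT d {s(p, q)} hd
    (Adm.single (Or.inl (mem_PE.2 ⟨Or.inl rfl, Or.inr rfl, hpq⟩))) (by
      show ((D ∪ {p, q, r})ᶜᶜ).ncard < n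
      rw [compl_compl]; exact hn)
  obtain ⟨eX, eY, -, eI⟩ := ho.shp.nohide hd (by
    rintro v (rfl | rfl)
    · exact ho.shp.xz ho.shp.px.ha
    · exact ho.shp.xz ho.shp.px.hb) (by
    intro v hv
    rw [show v = r from hv]
    exact ho.shp.yz ho.shp.py.ha)
  have hL : LE H d {s(p, q)} o = ∅ := by
    refine Set.eq_empty_of_forall_notMem ?_
    rintro e ⟨⟨u, hu, v, hv, huv, rfl⟩ | ⟨u, hu, v, hv, huv, rfl⟩, he⟩
    · apply he
      rcases hu.1 with rfl | rfl <;> rcases hv.1 with h | h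
      · exact absurd h.symm huv.ne
      · rw [show v = q from h]; rfl
      · rw [show v = p from h]; exact Sym2.eq_swap
      · exact absurd (show v = u from h).symm huv.ne
    · exact huv.ne ((show u = r from hu.1).trans (show v = r from hv.1).symm)
  obtain ⟨π, p1, p2, p3⟩ := repair (c p) (c q) (c r) h1 h2
  have hE := ho.ext
  rw [eI, hI, eX, eY, hL] at hE
  obtain ⟨c', hc'⟩ := hE (fun x => π (c x)) id (by
    rintro x (rfl | rfl)
    · exact p1
    · exact p2) (by
    intro x hx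
    rw [show x = r from hx]
    exact p3) (fun u v h => h.elim)
  rw [Pay.empty] at hc'
  exact ⟨_, hc'.perm π⟩

end PkTri1P

open PkTri1P in
theorem pk_Tri1 : S_Tri1 := by
  intro W H hP n hT Z0 I0 D a b e hab hbe hae hZ hK hZD hDK hI hf hN hD hn c hc
  rcases D.eq_empty_or_nonempty with rfl | hne
  · exact ⟨c, Rec.empty c ∅⟩
  have hO := out_conn hP hab hbe hae hZ hK hZD hDK hI hf hN hD hne
  have hK' : ({a, b, e} : Set W) ⊆ Nb H (D ∪ {a, b, e})ᶜ := fun x hx => by
    obtain ⟨y, hy, h⟩ := hK hx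
    exact ⟨y, Set.disjoint_left.1 hZD hy, h⟩
  have hDI : D ⊆ I0 := fun y hy => hI (by
    rintro (h | h)
    · exact Set.disjoint_left.1 hZD h (Or.inl hy)
    · exact Set.disjoint_left.1 hDK hy h)
  have hf' := hf.subset hDI
  have hN' := hN.mono hDI
  have e1 : ({a, b, e} : Set W) = {a, e, b} := by
    ext x; simp only [Set.mem_insert_iff, Set.mem_singleton_iff]; tauto
  have e2 : ({a, b, e} : Set W) = {b, e, a} := by
    ext x; simp only [Set.mem_insert_iff, Set.mem_singleton_iff]; tauto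
  by_cases h1 : c a = c e
  · have h2 : c a ≠ c b := fun h => hc ⟨h, h.symm.trans h1⟩
    rw [e1] at hO hK' hDK hD hn
    exact core hT hae hbe.symm hab hO hK' hDK hf' hN' hD hn c h2 (h1 ▸ h2)
  · by_cases h2 : c b = c e
    · rw [e2] at hO hK' hDK hD hn
      exact core hT hbe hae.symm hab.symm hO hK' hDK hf' hN' hD hn c
        (fun h => h1 (h.symm.trans h2)) (fun h => h1 h.symm)
    · exact core hT hab hbe hae hO hK' hDK hf' hN' hD hn c h1 h2

end Pool.Agent.P.MP_08fd93_co.OV
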