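import Pool.Agent.P.MP_08fd93_co.OV.Base
import Pool.Agent.P.MP_08fd93_co.OV.St1

/-! Package Tri2 of project OV. -/

set_option autoImplicit false

namespace Pool.Agent.P.MP_08fd93_co.OV

theorem pk_Tri2 : S_Tri2 := by
  intro W H s P R T
  have D := P.disc
  have iX : ∀ x ∈ s.d.X, x ∉ s.d.I := fun x hx k => k (Or.inr (Or.inl hx))
  have iY : ∀ x ∈ s.d.Y, x ∉ s.d.I := fun x hx k => k (Or.inr (Or.inr hx))
  have iZ : ∀ x ∈ s.d.Z, x ∉ s.d.I := fun x hx k => k (Or.inl hx)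
  have zI : s.z ∈ s.d.I := P.ti P.pt.ha
  have vI : s.v ∈ s.d.I := P.ti P.pt.hb
  constructor
  · have bd : ∀ x ∈ s.d.Z ∪ (s.d.X \ {s.p, s.p'}) ∪ s.d.Y ∪ (s.τ \ {s.z}), x ∈ s.d.X ∪ s.d.Y →
        ∃ y ∈ s.d.Z, Conn H (s.d.Z ∪ (s.d.X \ {s.p, s.p'}) ∪ s.d.Y ∪ (s.τ \ {s.z})) x y := by
      intro x hx k
      obtain ⟨y, hy, a⟩ := D.tz k
      exact ⟨y, hy, Conn.step hx (Or.inl (Or.inl (Or.inl hy))) a⟩
    refine T (s.d.Z ∪ (s.d.X \ {s.p, s.p'}) ∪ s.d.Y ∪ (s.τ \ {s.z})) s.d.I (s.Rg 2) s.p s.p' s.z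
      P.pp P.zp'.symm P.zp.symm ?_ ?_ ?_ ?_ ?_ D.fin D.nj R.n2 ?_
    · refine isConn_base D.zc (fun x hx => Or.inl (Or.inl (Or.inl hx))) ?_
      intro x hx
      rcases hx with ((k | k) | k) | k
      · exact ⟨x, k, Conn.rfl'⟩
      · exact bd x (Or.inl (Or.inl (Or.inr k))) (Or.inl k.1)
      · exact bd x (Or.inl (Or.inr k)) (Or.inr k)
      · have l := P.pt.lo_lt k.1 k.2
        have l' := P.pt.hi x k.1
        have vz : s.v ∈ s.τ \ {s.z} := ⟨P.pt.hb, fun e => by
          have e' : s.v = s.z := e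
          rw [e'] at l'
          omega⟩
        have c : IsConn H (s.τ \ {s.z}) := by
          refine P.pt.seg_conn Set.sdiff_subset fun u hu w _ y hy l1 _ => ⟨hy, fun e => ?_⟩
          have e' : y = s.z := e
          have := P.pt.lo u hu.1
          rw [e'] at l1
          omega
        obtain ⟨y, hy, c'⟩ := bd s.ql (Or.inl (Or.inr P.hl)) (Or.inr P.hl)
        exact ⟨y, hy, Conn.trans (Conn.snoc (Conn.up (c x k _ vz) Set.subset_union_right)
          (Or.inr vz) (Or.inl (Or.inr P.hl)) P.vl) c'⟩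
    · rintro x (rfl | rfl | rfl)
      · obtain ⟨y, hy, a⟩ := D.tz (Or.inl P.hp)
        exact ⟨y, Or.inl (Or.inl (Or.inl hy)), a⟩
      · obtain ⟨y, hy, a⟩ := D.tz (Or.inl P.hp')
        exact ⟨y, Or.inl (Or.inl (Or.inl hy)), a⟩
      · by_cases e : s.z = s.v
        · exact ⟨s.ql, Or.inl (Or.inr P.hl), e ▸ P.vl⟩
        · obtain ⟨w, hw, -, a, -⟩ := P.pt.succ P.pt.ha e
          exact ⟨w, Or.inr ⟨hw, a.ne'⟩, a⟩
    · refine Set.disjoint_left.2 ?_
      rintro x (((k | k) | k) | k) (q | rfl | rfl | rfl)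
      · exact iZ x k q.1
      · exact D.xz P.hp k
      · exact D.xz P.hp' k
      · exact iZ _ k zI
      · exact iX x k.1 q.1
      · exact k.2 (Or.inl rfl)
      · exact k.2 (Or.inr rfl)
      · exact iX _ k.1 zI
      · exact iY x k q.1
      · exact D.xy P.hp k
      · exact D.xy P.hp' k
      · exact iY _ k zI
      · exact q.2.1 k.1
      · exact iX _ P.hp (P.ti k.1)
      · exact iX _ P.hp' (P.ti k.1)
      · exact k.2 rfl
    · refine Set.disjoint_left.2 ?_
      rintro x q (rfl | rfl | rfl)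
      · exact iX _ P.hp q.1
      · exact iX _ P.hp' q.1
      · exact q.2.1 P.pt.ha
    · intro x hx
      refine DD.mem_I.2 ⟨fun k => hx (Or.inl (Or.inl (Or.inl (Or.inl k)))), fun k => ?_,
        fun k => hx (Or.inl (Or.inl (Or.inr k)))⟩
      refine hx (Or.inl (Or.inl (Or.inl (Or.inr ⟨k, ?_⟩))))
      rintro (e | e)
      · exact hx (Or.inr (Or.inl e))
      · exact hx (Or.inr (Or.inr (Or.inl e)))
    · refine Set.ncard_lt_ncard ⟨?_, fun k => ?_⟩ D.finc
      · rintro x (q | rfl | rfl | rfl)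
        · exact fun k => iZ x k q.1
        · exact D.xz P.hp
        · exact D.xz P.hp'
        · exact fun k => iZ _ k zI
      · rcases k (show s.d.a' ∈ s.d.Zᶜ from D.yz D.py.ha) with q | e | e | e
        · exact iY _ D.py.ha q.1
        · exact D.xy P.hp (e ▸ D.py.ha)
        · exact D.xy P.hp' (e ▸ D.py.ha)
        · exact iY _ D.py.ha ((show s.d.a' = s.z from e) ▸ zI)
  · intro lj
    refine T (s.d.Z ∪ (s.d.X ∪ (s.d.Y \ {s.ql, s.qj}))) s.d.I (s.Rg 3) s.v s.ql s.qj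
      P.vl lj P.vj ?_ ?_ ?_ ?_ ?_ D.fin D.nj ?_ ?_
    · refine IsConn.union_nb D.zc ?_
      rintro x (k | k)
      · exact D.tz (Or.inl k)
      · exact D.tz (Or.inr k.1)
    · rintro x (rfl | rfl | rfl)
      · obtain ⟨y, hy, -, a⟩ := P.tn _ P.pt.hb
        exact ⟨y, Or.inr (Or.inl hy), a⟩
      · obtain ⟨y, hy, a⟩ := D.tz (Or.inr P.hl)
        exact ⟨y, Or.inl hy, a⟩
      · obtain ⟨y, hy, a⟩ := D.tz (Or.inr P.hj)
        exact ⟨y, Or.inl hy, a⟩
    · refine Set.disjoint_left.2 ?_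
      rintro x (k | k | k) (q | rfl | rfl | rfl)
      · exact iZ x k q.1
      · exact iZ _ k vI
      · exact D.yz P.hl k
      · exact D.yz P.hj k
      · exact iX x k q.1
      · exact iX _ k vI
      · exact D.xy k P.hl
      · exact D.xy k P.hj
      · exact iY x k.1 q.1
      · exact iY _ k.1 vI
      · exact k.2 (Or.inl rfl)
      · exact k.2 (Or.inr rfl)
    · refine Set.disjoint_left.2 ?_
      rintro x q (rfl | rfl | rfl)
      · exact q.2.1 P.pt.hb
      · exact iY _ P.hl q.1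
      · exact iY _ P.hj q.1
    · intro x hx
      refine DD.mem_I.2 ⟨fun k => hx (Or.inl (Or.inl k)), fun k => hx (Or.inl (Or.inr (Or.inl k))),
        fun k => ?_⟩
      refine hx (Or.inl (Or.inr (Or.inr ⟨k, ?_⟩)))
      rintro (e | e)
      · exact hx (Or.inr (Or.inr (Or.inl e)))
      · exact hx (Or.inr (Or.inr (Or.inr e)))
    · intro x hx
      rcases R.n3 hx with k | k | k
      · exact Or.inl k
      · exact absurd k.2 (D.py.nb P.hl P.hj lj k.1)
      · exact Or.inr k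
    · refine Set.ncard_lt_ncard ⟨?_, fun k => ?_⟩ D.finc
      · rintro x (q | rfl | rfl | rfl)
        · exact fun k => iZ x k q.1
        · exact fun k => iZ _ k vI
        · exact D.yz P.hl
        · exact D.yz P.hj
      · rcases k (show s.d.a ∈ s.d.Zᶜ from D.xz D.px.ha) with q | e | e | e
        · exact iX _ D.px.ha q.1
        · exact iX _ D.px.ha (e ▸ vI)
        · exact D.xy D.px.ha (e ▸ P.hl)
        · exact D.xy D.px.ha ((show s.d.a = s.qj from e) ▸ P.hj)

end Pool.Agent.P.MP_08fd93_co.OV
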