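import Pool.Agent.P.MP_08fd93_co.OV.St2

/-! Package Tw of project OV: a geodesic line has a triple without a twin. -/

set_option autoImplicit false

namespace Pool.Agent.P.MP_08fd93_co.OV

namespace PkTwP

variable {W : Type} {H : SimpleGraph W}

theorem conn_symm {A : Set W} {a b : W} (h : Conn H A a b) : Conn H A b a := by
  induction h with
  | refl => exact .refl
  | tail _ h2 ih => exact .head ⟨h2.2.1, h2.1, h2.2.2.symm⟩ ih

theorem conn_mono {A B : Set W} (hAB : A ⊆ B) {a b : W} (h : Conn H A a b) : Conn H B a b := by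
  induction h with
  | refl => exact .refl
  | tail _ h2 ih => exact ih.tail ⟨hAB h2.1, hAB h2.2.1, h2.2.2⟩

theorem isConn_of {A : Set W} (r : W) (h : ∀ c ∈ A, Conn H A r c) : IsConn H A :=
  fun a ha b hb => (conn_symm (h a ha)).trans (h b hb)

theorem single (a : W) : IsConn H {a} := by
  rintro x rfl y rfl
  exact .refl

theorem reach (h : IsConn H Set.univ) (a b : W) : H.Reachable a b := by
  have := h a trivial b trivial
  induction this with
  | refl => exact .refl _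
  | tail _ h2 ih => exact ih.trans h2.2.2.reachable

theorem k33 (h : NoK33 H Set.univ) {A O : Set W} {b c x y : W} (hA : IsConn H A)
    (hO : IsConn H O) (ao : Disjoint A O)
    (hn : ∀ v, v = b ∨ v = c ∨ v = x ∨ v = y → v ∉ A ∧ v ∉ O)
    (bc : b ≠ c) (xy : x ≠ y) (bx : H.Adj b x) (by' : H.Adj b y) (cx : H.Adj c x)
    (cy : H.Adj c y) (t1 : Touch H A {x}) (t2 : Touch H A {y}) (t3 : Touch H A O)
    (t4 : Touch H {b} O) (t5 : Touch H {c} O) : False := by
  have nb := hn b (Or.inl rfl)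
  have nc := hn c (Or.inr (Or.inl rfl))
  have nx := hn x (Or.inr (Or.inr (Or.inl rfl)))
  have ny := hn y (Or.inr (Or.inr (Or.inr rfl)))
  have dr := fun {S : Set W} {v : W} (e : v ∉ S) => Set.disjoint_singleton_right.2 e
  have dl := fun {S : Set W} {v : W} (e : v ∉ S) => Set.disjoint_singleton_left.2 e
  have ds := fun {u v : W} (e : u ≠ v) => Set.disjoint_singleton.2 e
  refine h ⟨![A, {b}, {c}], ![{x}, {y}, O], ?_, ?_, ?_⟩
  · intro i
    fin_cases i
    · exact ⟨Set.subset_univ _, hA, Set.subset_univ _, single x⟩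
    · exact ⟨Set.subset_univ _, single b, Set.subset_univ _, single y⟩
    · exact ⟨Set.subset_univ _, single c, Set.subset_univ _, hO⟩
  · intro i j hij
    fin_cases i <;> fin_cases j
    · exact (hij rfl).elim
    · exact ⟨dr nb.1, ds xy⟩
    · exact ⟨dr nc.1, dl nx.2⟩
    · exact ⟨dl nb.1, ds xy.symm⟩
    · exact (hij rfl).elim
    · exact ⟨ds bc, dl ny.2⟩
    · exact ⟨dl nc.1, dr nx.2⟩
    · exact ⟨ds bc.symm, dr ny.2⟩
    · exact (hij rfl).elim
  · intro i j
    fin_cases i <;> fin_cases j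
    · exact ⟨dr nx.1, t1⟩
    · exact ⟨dr ny.1, t2⟩
    · exact ⟨ao, t3⟩
    · exact ⟨ds bx.ne, b, rfl, x, rfl, bx⟩
    · exact ⟨ds by'.ne, b, rfl, y, rfl, by'⟩
    · exact ⟨dl nb.2, t4⟩
    · exact ⟨ds cx.ne, c, rfl, x, rfl, cx⟩
    · exact ⟨ds cy.ne, c, rfl, y, rfl, cy⟩
    · exact ⟨dl nc.2, t5⟩

theorem seg (l : ℤ → W) (hl : ∀ i, H.Adj (l i) (l (i + 1))) {O : Set W} (i : ℤ) (n : ℕ)
    (h : ∀ t, i ≤ t → t ≤ i + n → l t ∈ O) : Conn H O (l i) (l (i + n)) := by
  induction n with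
  | zero =>
    rw [Nat.cast_zero, add_zero]
    exact .refl
  | succ n ih =>
    have e : i + ((n + 1 : ℕ) : ℤ) = i + n + 1 := by push_cast; ring
    rw [e] at h ⊢
    exact (ih fun t h1 h2 => h t h1 (by omega)).tail
      ⟨h _ (by omega) (by omega), h _ (by omega) (by omega), hl _⟩

theorem seg' (l : ℤ → W) (hl : ∀ i, H.Adj (l i) (l (i + 1))) {O : Set W} {i j : ℤ} (hij : i ≤ j)
    (h : ∀ t, i ≤ t → t ≤ j → l t ∈ O) : Conn H O (l i) (l j) := by
  obtain ⟨n, rfl⟩ := Int.le.dest hij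
  exact seg l hl i n h

end PkTwP

open PkTwP in
theorem pk_Tw : S_Tw := by
  intro W H hP hO l hl hd
  by_contra hc
  push Not at hc
  have a1 : H.Adj (l 0) (l 1) := hl 0
  have a2 : H.Adj (l 1) (l 2) := hl 1
  have a3 : H.Adj (l 2) (l 3) := hl 2
  have a4 : H.Adj (l 3) (l 4) := hl 3
  have a0 : H.Adj (l (-1)) (l 0) := hl (-1)
  obtain ⟨b1, b11, b12, b13⟩ : ∃ z, H.Adj z (l 0) ∧ H.Adj z (l 2) ∧ z ≠ l 1 := hc 0 (l 2) a2 a3
  obtain ⟨b0, b01, b02, b03⟩ : ∃ z, H.Adj z (l (-1)) ∧ H.Adj z (l 1) ∧ z ≠ l 0 :=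
    hc (-1) (l 1) a1 a2
  obtain ⟨b2, b21, b22, b23⟩ : ∃ z, H.Adj z (l 1) ∧ H.Adj z (l 3) ∧ z ≠ l 2 := hc 1 (l 3) a3 a4
  obtain ⟨y1, y11, y12, y13⟩ : ∃ z, H.Adj z (l 0) ∧ H.Adj z b2 ∧ z ≠ l 1 :=
    hc 0 b2 b21.symm b22
  have lip : ∀ u x y, H.Adj x y → H.dist u x ≤ H.dist u y + 1 := by
    intro u x y a
    have := (reach hP.conn u y).dist_triangle_left x
    rw [SimpleGraph.dist_eq_one_iff_adj.2 a.symm] at this
    exact this
  have sum : ∀ x, 5 ≤ H.dist (l (-1)) x + H.dist (l 4) x := by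
    intro x
    have := (reach hP.conn (l (-1)) x).dist_triangle_left (l 4)
    rw [hd, SimpleGraph.dist_comm (u := x)] at this
    exact this
  have p := hd (-1)
  have q := hd 4
  have pb2 : H.dist (l (-1)) b2 = 3 ∧ H.dist (l 4) b2 = 2 := by
    have := lip (l (-1)) _ _ b21
    have := lip (l 4) _ _ b22
    have := sum b2
    have := p 1
    have := q 3
    omega
  have pb1 : H.dist (l (-1)) b1 = 2 ∧ H.dist (l 4) b1 = 3 := by
    have := lip (l (-1)) _ _ b11
    have := lip (l 4) _ _ b12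
    have := sum b1
    have := p 0
    have := q 2
    omega
  have pb0 : H.dist (l (-1)) b0 = 1 := by
    have := lip (l (-1)) _ _ b01
    have := lip (l 4) _ _ b02
    have := sum b0
    have := p (-1)
    have := q 1
    omega
  have py1 : H.dist (l (-1)) y1 = 2 ∧ H.dist (l 4) y1 = 3 := by
    have := lip (l (-1)) _ _ y11
    have := lip (l 4) _ _ y12
    have := sum y1
    have := p 0
    omega
  have inj : Function.Injective l := by
    intro i j e
    have := hd i j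
    rw [e, SimpleGraph.dist_self] at this
    omega
  obtain ⟨Z, z1, z2, z3⟩ := hO {l 0, b1, y1, l 1, l 3, l 2, b2} (Set.toFinite _)
  have f2 : (l ⁻¹' Zᶜ).Finite := z2.preimage inj.injOn
  obtain ⟨m, hm⟩ := f2.bddBelow
  obtain ⟨M, hM⟩ := f2.bddAbove
  have zl : l (min (m - 1) (-1)) ∈ Z := by
    by_contra e
    have := hm (show min (m - 1) (-1) ∈ l ⁻¹' Zᶜ from e)
    omega
  have zr : l (max (M + 1) 4) ∈ Z := by
    by_contra e
    have := hM (show max (M + 1) 4 ∈ l ⁻¹' Zᶜ from e)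
    omega
  set O : Set W := {v | v ∈ Z ∨ v = b0 ∨ ∃ t, (t ≤ -1 ∨ 4 ≤ t) ∧ v = l t} with hOd
  have mem : ∀ t, (t ≤ -1 ∨ 4 ≤ t) → l t ∈ O := fun t ht => Or.inr (Or.inr ⟨t, ht, rfl⟩)
  have cl : ∀ s t, s ≤ -1 → t ≤ -1 → Conn H O (l s) (l t) := fun s t h1 h2 =>
    (seg' l hl h1 fun u _ h => mem u (Or.inl h)).trans
      (conn_symm (seg' l hl h2 fun u _ h => mem u (Or.inl h)))
  have cr : ∀ s t, 4 ≤ s → 4 ≤ t → Conn H O (l s) (l t) := fun s t h1 h2 =>
    (conn_symm (seg' l hl h1 fun u h _ => mem u (Or.inr h))).trans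
      (seg' l hl h2 fun u h _ => mem u (Or.inr h))
  have cz : ∀ v ∈ Z, Conn H O (l (-1)) v := fun v hv =>
    (cl _ _ le_rfl (min_le_right _ _)).trans (conn_mono (fun _ h => Or.inl h) (z1 _ zl v hv))
  have cO : IsConn H O := by
    refine isConn_of (l (-1)) ?_
    rintro c (h | rfl | ⟨t, h | h, rfl⟩)
    · exact cz c h
    · exact .single ⟨mem _ (Or.inl le_rfl), Or.inr (Or.inl rfl), b01.symm⟩
    · exact cl _ _ le_rfl h
    · exact (cz _ zr).trans (cr _ _ (le_max_right _ _) h)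
  have nO : ∀ v ∈ ({l 0, b1, y1, l 1, l 3, l 2, b2} : Set W), v ≠ b0 →
      H.dist (l (-1)) v < 5 → H.dist (l 4) v < 5 → v ∉ O := by
    rintro v hv h0 h1 h2 (h | h | ⟨t, h, rfl⟩)
    · exact Set.disjoint_left.1 z3 h hv
    · exact h0 h
    · have := p t
      have := q t
      omega
  have ne : ∀ {u v : W}, H.dist (l (-1)) u ≠ H.dist (l (-1)) v → u ≠ v :=
    fun h e => h (by rw [e])
  have p0 := p 0
  have p1 := p 1
  have p2 := p 2
  have p3 := p 3
  have q0 := q 0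
  have q1 := q 1
  have q2 := q 2
  have q3 := q 3
  refine k33 hP.k33 (A := {l 0, b1, y1}) (O := O) (b := l 1) (c := l 3) (x := l 2) (y := b2)
    (isConn_of (l 0) ?_) cO ?_ ?_ (ne (by omega)) b23.symm a2 b21.symm a3.symm b22.symm
    ⟨b1, by simp, _, rfl, b12⟩ ⟨y1, by simp, _, rfl, y12⟩
    ⟨l 0, by simp, _, mem _ (Or.inl le_rfl), a0.symm⟩
    ⟨_, rfl, b0, Or.inr (Or.inl rfl), b02.symm⟩ ⟨_, rfl, _, mem _ (Or.inr le_rfl), a4⟩
  · rintro c (rfl | rfl | rfl)
    · exact .refl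
    · exact .single ⟨by simp, by simp, b11.symm⟩
    · exact .single ⟨by simp, by simp, y11.symm⟩
  · rw [Set.disjoint_left]
    rintro c (rfl | rfl | rfl)
    · exact nO _ (by simp) b03.symm (by omega) (by omega)
    · exact nO _ (by simp) (ne (by omega)) (by omega) (by omega)
    · exact nO _ (by simp) (ne (by omega)) (by omega) (by omega)
  · rintro v (rfl | rfl | rfl | rfl)
    · refine ⟨?_, nO _ (by simp) (ne (by omega)) (by omega) (by omega)⟩
      rintro (e | e | e)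
      · exact ne (by omega) e
      · exact b13 e.symm
      · exact y13 e.symm
    all_goals
      refine ⟨?_, nO _ (by simp) (ne (by omega)) (by omega) (by omega)⟩
      rintro (e | e | e) <;> exact ne (by omega) e

end Pool.Agent.P.MP_08fd93_co.OV
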