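import Pool.Agent.P.MP_08fd93_co.OV.St2

/-! Package UU: facts about the upper parts and the level sets. -/

set_option autoImplicit false

namespace Pool.Agent.P.MP_08fd93_co.OV

namespace PkUUP

theorem conn_symm {W : Type} {H : SimpleGraph W} {A : Set W} {a b : W} (h : Conn H A a b) :
    Conn H A b a := by
  induction h with
  | refl => exact Relation.ReflTransGen.refl
  | tail _ hxy ih => exact Relation.ReflTransGen.head ⟨hxy.2.1, hxy.1, hxy.2.2.symm⟩ ih

theorem conn_mono {W : Type} {H : SimpleGraph W} {A B : Set W} (hAB : A ⊆ B) {a b : W}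
    (h : Conn H A a b) : Conn H B a b := by
  induction h with
  | refl => exact Relation.ReflTransGen.refl
  | tail _ hxy ih => exact Relation.ReflTransGen.tail ih ⟨hAB hxy.1, hAB hxy.2.1, hxy.2.2⟩

variable {J : Type} {Γ : SimpleGraph (Vx J)} {η : ℤ × ℤ →+ ℤ} {f : Vx J → ℤ}
  {an : Vx J → Vx J} {w : ℤ × ℤ}

theorem tr_neg (a : ℤ × ℤ) (x : Vx J) : tr (-a) (tr a x) = x := by
  simp [tr]

theorem tr_neg' (a : ℤ × ℤ) (x : Vx J) : tr a (tr (-a) x) = x := by
  simp [tr]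

theorem u_ge {j : ℤ} {x : Vx J} (hx : x ∈ UU Γ f j) : j ≤ f x := by
  obtain ⟨y, hy, hc⟩ := hx (f x + 1)
  rcases Relation.ReflTransGen.cases_head hc with e | ⟨z, hz, _⟩
  · subst e
    omega
  · exact hz.1

theorem u_cl {j : ℤ} {x y : Vx J} (hx : x ∈ UU Γ f j) (hxy : Γ.Adj x y) (hy : j ≤ f y) :
    y ∈ UU Γ f j := by
  intro h
  obtain ⟨z, hz, hc⟩ := hx h
  exact ⟨z, hz, Relation.ReflTransGen.head ⟨hy, u_ge hx, hxy.symm⟩ hc⟩

theorem u_lift {j : ℤ} {x y : Vx J} (hx : x ∈ UU Γ f j) (hc : Conn Γ {z | j ≤ f z} x y) :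
    Conn Γ (UU Γ f j) x y ∧ y ∈ UU Γ f j := by
  induction hc with
  | refl => exact ⟨Relation.ReflTransGen.refl, hx⟩
  | tail _ hxy ih =>
    have := u_cl ih.2 hxy.2.2 hxy.2.1
    exact ⟨Relation.ReflTransGen.tail ih.1 ⟨ih.2, this, hxy.2.2⟩, this⟩

theorem u_mono {j j' : ℤ} (h : j ≤ j') : UU Γ f j' ⊆ UU Γ f j := by
  intro x hx t
  obtain ⟨y, hy, hc⟩ := hx t
  exact ⟨y, hy, conn_mono (fun z hz => le_trans h hz) hc⟩

theorem u_tr1 (hP : Pot Γ η f an w) (a : ℤ × ℤ) {j : ℤ} {x : Vx J} (hx : x ∈ UU Γ f j) :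
    tr a x ∈ UU Γ f (j + η a) := by
  intro h
  obtain ⟨y, hy, hc⟩ := hx (h - η a)
  refine ⟨tr a y, by rw [hP.per]; omega, ?_⟩
  clear hy
  induction hc with
  | refl => exact Relation.ReflTransGen.refl
  | tail _ hxy ih =>
    refine Relation.ReflTransGen.tail ih ⟨?_, ?_, hP.fine.inv a _ _ hxy.2.2⟩
    · have := hxy.1
      simp only [Set.mem_ofPred_eq, hP.per] at *
      omega
    · have := hxy.2.1
      simp only [Set.mem_ofPred_eq, hP.per] at *
      omega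

theorem u_tr (hP : Pot Γ η f an w) (a : ℤ × ℤ) (j : ℤ) (x : Vx J) :
    tr a x ∈ UU Γ f (j + η a) ↔ x ∈ UU Γ f j := by
  refine ⟨fun h => ?_, u_tr1 hP a⟩
  have := u_tr1 hP (-a) h
  rwa [tr_neg, map_neg, add_neg_cancel_right] at this

theorem l_tr (hP : Pot Γ η f an w) (a : ℤ × ℤ) (j : ℤ) (x : Vx J) :
    tr a x ∈ LL Γ f (j + η a) ↔ x ∈ LL Γ f j := by
  have e : j + η a + 1 = j + 1 + η a := by ring
  simp only [LL, Set.mem_sdiff, e, u_tr hP]
  refine and_congr_left fun _ => ⟨?_, ?_⟩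
  · rintro ⟨b, hb, hxb⟩
    refine ⟨tr (-a) b, ?_, ?_⟩
    · rw [← u_tr hP a, tr_neg']
      exact hb
    · have := hP.fine.inv (-a) _ _ hxb
      rwa [tr_neg] at this
  · rintro ⟨b, hb, hxb⟩
    exact ⟨tr a b, u_tr1 hP a hb, hP.fine.inv a _ _ hxb⟩

theorem l_f (hP : Pot Γ η f an w) {j : ℤ} {x : Vx J} (hx : x ∈ LL Γ f j) : f x = j := by
  obtain ⟨⟨b, hb, hxb⟩, hn⟩ := hx
  have h1 := u_ge hb
  have h2 := hP.lip _ _ hxb
  by_contra hne
  exact hn (u_cl hb hxb.symm (by omega))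

theorem l_an (hP : Pot Γ η f an w) {j : ℤ} {x : Vx J} (hx : x ∈ UU Γ f j) (hf : f x = j) :
    an x ∈ LL Γ f (j - 1) := by
  simp only [LL, sub_add_cancel]
  refine ⟨⟨x, hx, (hP.aa x).symm⟩, fun h => ?_⟩
  have h1 := u_ge h
  have h2 := hP.af x
  omega

theorem down (hP : Pot Γ η f an w) {j : ℤ} {x : Vx J} (hx : f x ≤ j) (n : ℕ) :
    ∃ y, f y = f x - n ∧ Conn Γ {z | f z ≤ j} x y := by
  induction n with
  | zero => exact ⟨x, by simp, Relation.ReflTransGen.refl⟩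
  | succ n ih =>
    obtain ⟨y, hy, hc⟩ := ih
    have h2 := hP.af y
    refine ⟨an y, by push_cast; omega, Relation.ReflTransGen.tail hc ⟨?_, ?_, hP.aa y⟩⟩
    all_goals simp only [Set.mem_ofPred_eq]
    all_goals omega

theorem bound [Fintype J] (hP : Pot Γ η f an w) :
    ∃ K : ℕ, ∀ x : Vx J, f x ≤ η x.2 + K ∧ η x.2 ≤ f x + K := by
  obtain ⟨K, hK⟩ := (Set.finite_range fun u : J => (f (u, 0)).natAbs).bddAbove
  refine ⟨K, fun x => ?_⟩
  have h1 : (f (x.1, 0)).natAbs ≤ K := hK ⟨x.1, rfl⟩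
  have h2 := hP.per x.2 (x.1, 0)
  have e : tr x.2 ((x.1, 0) : Vx J) = x := by simp [tr]
  rw [e] at h2
  omega

theorem high (hP : Pot Γ η f an w) (x : Vx J) (h : ℤ) :
    ∃ y : Vx J, h ≤ f y ∧ η x.2 ≤ η y.2 := by
  obtain ⟨b, hb, _⟩ := hP.gen
  have h0 : (0 : ℤ) ≤ ((h - f x).natAbs : ℤ) := Int.natCast_nonneg _
  have h1 : ((h - f x).natAbs : ℤ) ≤ ((h - f x).natAbs : ℤ) * η b := by nlinarith
  refine ⟨tr (((h - f x).natAbs : ℤ) • b) x, ?_, ?_⟩
  · rw [hP.per, map_zsmul, smul_eq_mul]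
    omega
  · simp only [tr, map_add, map_zsmul, smul_eq_mul]
    omega

end PkUUP

open PkUUP in
theorem pk_UU : S_UU := by
  intro hHP J _ Γ η f an w hJ hP
  obtain ⟨K, hK⟩ := bound hP
  obtain ⟨M, hM0, hM⟩ := hHP J Γ hP.fine η
  obtain ⟨M', hM0', hM'⟩ := hHP J Γ hP.fine (-η)
  have up : ∀ (j : ℤ) (x y : Vx J), j + K + M ≤ η x.2 → j + K + M ≤ η y.2 →
      Conn Γ {z | j ≤ f z} x y := by
    intro j x y hx hy
    refine conn_mono (fun z hz => ?_) (hM (j + K) x y hx hy)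
    have := hK z
    simp only [Set.mem_ofPred_eq] at *
    omega
  have big : ∀ j x, j + (2 * K + M) ≤ f x → x ∈ UU Γ f j := by
    intro j x hx h
    obtain ⟨y, hy, hy'⟩ := high hP x h
    have := hK x
    exact ⟨y, hy, up j x y (by omega) (by omega)⟩
  refine ⟨fun j x hx => u_ge hx, fun j x hx y hxy hy => u_cl hx hxy hy, ?_, ?_,
    ⟨2 * K + M, by omega, big⟩, fun j j' h => u_mono h, u_tr hP, l_tr hP, ?_,
    fun j x hx => l_f hP hx, ?_, ?_, fun j x hx hf => l_an hP hx hf, ?_, ?_⟩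
  · intro j x hx x' hx'
    obtain ⟨y, hy, hc⟩ := hx (j + (2 * K + M))
    obtain ⟨y', hy', hc'⟩ := hx' (j + (2 * K + M))
    have h1 := hK y
    have h2 := hK y'
    have h3 := u_lift hx hc
    exact (h3.1.trans (u_lift h3.2 (up j y y' (by omega) (by omega))).1).trans
      (conn_symm (u_lift hx' hc').1)
  · intro j x hx x' hx'
    obtain ⟨n, hn⟩ := Int.eq_ofNat_of_zero_le (show (0 : ℤ) ≤ 2 * K + M' by omega)
    obtain ⟨y, hy, hc⟩ := down hP hx n
    obtain ⟨y', hy', hc'⟩ := down hP hx' n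
    have h1 := hK y
    have h2 := hK y'
    simp only [Set.mem_ofPred_eq] at hx hx'
    have h3 := hM' (K - j) y y' (by rw [AddMonoidHom.neg_apply]; omega)
      (by rw [AddMonoidHom.neg_apply]; omega)
    refine (hc.trans (conn_mono (fun z hz => ?_) h3)).trans (conn_symm hc')
    have := hK z
    simp only [Set.mem_ofPred_eq, AddMonoidHom.neg_apply] at *
    omega
  · intro a j x
    have e : j + η a + 1 = j + 1 + η a := by ring
    simp only [ST, Set.mem_sdiff, Set.mem_union, e, u_tr hP, l_tr hP]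
  · intro j x hx
    have hf := l_f hP hx
    obtain ⟨⟨b, hb, hxb⟩, _⟩ := hx
    exact u_cl (u_mono (by omega) hb) hxb.symm hf.ge
  · intro j x hx y hxy
    by_cases hy : y ∈ UU Γ f j
    · exact Or.inl hy
    · refine Or.inr ?_
      simp only [LL, sub_add_cancel]
      exact ⟨⟨x, hx, hxy.symm⟩, hy⟩
  · intro j
    have key : ∀ (n : ℕ) (x : Vx J), x ∈ UU Γ f (j + 1) → f x = j + 1 + n →
        (LL Γ f j).Nonempty := by
      intro n
      induction n with
      | zero =>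
        intro x hx hf
        have := l_an hP hx (by simpa using hf)
        rw [add_sub_cancel_right] at this
        exact ⟨_, this⟩
      | succ n ih =>
        intro x hx hf
        have h2 := hP.af x
        push_cast at hf
        exact ih (an x) (u_cl hx (hP.aa x) (by omega)) (by omega)
    obtain ⟨u⟩ := hJ
    obtain ⟨y, hy, _⟩ := high hP (u, 0) (j + 1 + (2 * K + M))
    obtain ⟨n, hn⟩ := Int.eq_ofNat_of_zero_le (show (0 : ℤ) ≤ f y - (j + 1) by omega)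
    exact key n y (big _ _ hy) (by omega)
  · intro h h'
    refine ⟨(fun p : J × ℤ => ((p.1, Function.invFun η p.2) : Vx J)) ''
      (Set.univ ×ˢ Set.Icc (h - K) (h' + K)),
      ((Set.finite_univ.prod (Set.finite_Icc _ _)).image _), ?_⟩
    intro x hx hx'
    have h1 := hK x
    have h2 : η (Function.invFun η (η x.2)) = η x.2 := Function.invFun_eq ⟨x.2, rfl⟩
    obtain ⟨k, hk⟩ := (hP.ker (Function.invFun η (η x.2) - x.2)).1 (by rw [map_sub, h2, sub_self])
    refine ⟨k, (x.1, η x.2), ⟨Set.mem_univ _, ?_, ?_⟩, ?_⟩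
    · show h - K ≤ η x.2
      omega
    · show η x.2 ≤ h' + K
      omega
    · simp only [tr, ← hk, add_sub_cancel]

end Pool.Agent.P.MP_08fd93_co.OV
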