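import Pool.Agent.P.MP_08fd93_co.OV.Base2

/-! Package Un1 of project OV: the strict edge of a cell and the shape of its output. -/

set_option autoImplicit false

namespace Pool.Agent.P.MP_08fd93_co.OV

namespace PkUn1P

variable {J : Type} {F : FD J} {φ : Vx J → Vx J} {G : Set (Vx J)} {μ : J} {u : Un J}
  {o : OD (Vx J)}

theorem mem_T (u : Un J) (v : Vx J) : v ∈ u.T ↔ v = u.s ∨ v = u.x ∨ v = u.s' := by
  simp [Un.T]

theorem rho_X (hd : Disc F.Γ (F.cell u)) {v : Vx J} (hv : v ∈ F.Bot u.s u.s') :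
    (F.cell u).ρ v = F.ρ v := by
  have h1 : v ∉ u.T := hd.xy hv
  have h2 : ¬ (v = u.x ∧ u.x ≠ u.s) := fun h => h1 ((mem_T u v).2 (Or.inr (Or.inl h.1)))
  show (open Classical in if v = u.x ∧ u.x ≠ u.s then F.ρ u.s + 1 else F.ρ v) = F.ρ v
  rw [if_neg h2]

theorem T_U (hF : Frm F) (hu : Val F G u) {v : Vx J} (hv : v ∈ u.T) : v ∈ F.U (F.f u.s) := by
  rcases (mem_T u v).1 hv with rfl | rfl | rfl
  · exact hF.uf.lu _ hu.hs
  · rcases hu.alt with h | h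
    · rw [h.1]
      exact hF.uf.lu _ hu.hs
    · exact hF.uf.mono _ _ (by omega) h.xu
  · exact hF.uf.lu _ hu.hs'

theorem CI_U (hF : Frm F) (hu : Val F G u) {v : Vx J} (hv : v ∈ F.CI u) :
    v ∈ F.U (F.f u.s) := by
  rcases hv with hv | hv
  · rcases hu.alt with h | h
    · rw [h.2.2] at hv
      exact hv.elim
    · rcases h.sub hv with h1 | h1
      · exact hF.uf.lu _ h1
      · exact hF.uf.mono _ _ (by omega) h1
  · exact hv.1.1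

theorem nZ {v : Vx J} :
    v ∉ (F.cell u).Z ↔ v ∈ F.Bot u.s u.s' ∨ v ∈ u.T ∨ v ∈ F.CI u := by
  show v ∉ (F.Bot u.s u.s' ∪ u.T ∪ F.CI u)ᶜ ↔ _
  rw [Set.notMem_compl_iff, Set.mem_union, Set.mem_union, or_assoc]

theorem low_bot (hF : Frm F) (hu : Val F G u) {v : Vx J} (hv : v ∉ (F.cell u).Z)
    (hl : v ∈ F.L (F.f u.s - 1)) : v ∈ F.Bot u.s u.s' := by
  have h1 := hF.uf.lf _ _ hl
  rcases nZ.1 hv with h | h | h
  · exact h
  · have := hF.uf.ge _ _ (T_U hF hu h)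
    omega
  · have := hF.uf.ge _ _ (CI_U hF hu h)
    omega

theorem nx_bot (hF : Frm F) {g : Vx J} (hg : g ∈ F.Bot u.s u.s')
    (hl : F.ρ g < F.ρ (F.an u.s')) : F.nx g ∈ F.Bot u.s u.s' := by
  obtain ⟨h1, h2, -⟩ := hF.nx_mem hg.1
  have := hg.2.1
  exact ⟨h1, by omega, by omega⟩

theorem short (hF : Frm F) (hG : GS F φ G μ) (hu : Val F G u) :
    F.ρ u.s' ≤ F.ρ u.s + F.nn (F.f u.s) := by
  have hn := hF.n2 (F.f u.s)
  rcases hu.alt with h | h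
  · have := h.2.1
    omega
  obtain ⟨g0, hg⟩ := hG.one (F.f u.s)
  have h1 := Int.emod_nonneg (g0 - F.ρ u.s) (show F.nn (F.f u.s) ≠ 0 by omega)
  have h2 := Int.emod_lt_of_pos (g0 - F.ρ u.s) (show 0 < F.nn (F.f u.s) by omega)
  have h3 := Int.emod_add_mul_ediv (g0 - F.ρ u.s) (F.nn (F.f u.s))
  have h4 : F.l (F.f u.s) (F.ρ u.s + (g0 - F.ρ u.s) % F.nn (F.f u.s)) ∈ G :=
    (hg _).2 ⟨-((g0 - F.ρ u.s) / F.nn (F.f u.s)), by linarith⟩
  by_contra hc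
  have h5 := h.ng _ ⟨hF.l_mem _ _, by rw [hF.rho]; omega, by rw [hF.rho]; omega⟩ h4
  have h6 := congrArg F.ρ h5
  rw [hF.rho] at h6
  omega

theorem rho_w (hF : Frm F) {j : ℤ} {x : Vx J} (hx : x ∈ F.L j) :
    tr F.w x ∈ F.L j ∧ F.ρ (tr F.w x) = F.ρ x + F.nn j := by
  obtain ⟨i, rfl⟩ := (hF.mem j x).1 hx
  rw [hF.lw, hF.rho, hF.rho]
  exact ⟨hF.l_mem _ _, rfl⟩

theorem one_free (hF : Frm F) (hS : SIF F) (hG : GS F φ G μ) (hu : Val F G u) {g g' : Vx J}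
    (h1 : g ∈ G) (h2 : g ∈ F.Bot u.s u.s') (h3 : F.ρ g < F.ρ (F.an u.s'))
    (h1' : g' ∈ G) (h2' : g' ∈ F.Bot u.s u.s') (h3' : F.ρ g' < F.ρ (F.an u.s')) : g = g' := by
  have a1 := rho_w hF hu.hs
  have a2 := hS.mono _ _ hu.hs' _ a1.1 (by rw [a1.2]; exact short hF hG hu)
  have a3 := rho_w hF (hF.uf.lan _ _ (hF.uf.lu _ hu.hs) rfl)
  rw [hF.pot.atr, a3.2] at a2
  obtain ⟨g0, hg⟩ := hG.one (F.f u.s - 1)
  have b1 := (hg (F.ρ g)).1 (by rw [hF.l_rho h2.1]; exact h1)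
  have b2 := (hg (F.ρ g')).1 (by rw [hF.l_rho h2'.1]; exact h1')
  have b3 : F.nn (F.f u.s - 1) ∣ F.ρ g - F.ρ g' := by
    have := dvd_sub b1 b2
    rwa [sub_sub_sub_cancel_right] at this
  have c1 := h2.2.1
  have c2 := h2'.2.1
  have b4 := Int.eq_zero_of_abs_lt_dvd b3 (by rw [abs_lt]; constructor <;> omega)
  exact hF.inj h2.1 h2'.1 (by omega)

theorem adm (hF : Frm F) (hS : SIF F) (hG : GS F φ G μ) (hu : Val F G u) :
    Adm F.Γ (F.cell u) (F.cellS G u) := by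
  refine ⟨?_, ?_⟩
  · rintro e (⟨g, -, h2, h3, rfl⟩ | ⟨-, rfl⟩)
    · exact Or.inl (mem_PE.2 ⟨h2, nx_bot hF h2 h3, (hF.nx_mem h2.1).2.2⟩)
    · refine Or.inr (mem_PE.2 ⟨(mem_T u _).2 (Or.inl rfl), ?_⟩)
      unfold Un.snd
      split_ifs with hx
      · refine ⟨(mem_T u _).2 (Or.inr (Or.inr rfl)), ?_⟩
        rcases hu.alt with h | h
        · exact (hF.adj_iff hu.hs hu.hs').2 (Or.inl h.2.1)
        · exact absurd hx h.sx.ne'
      · refine ⟨(mem_T u _).2 (Or.inr (Or.inl rfl)), ?_⟩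
        rcases hu.alt with h | h
        · exact absurd h.1 hx
        · exact h.sx
  · rintro e (⟨g, h1, h2, h3, rfl⟩ | ⟨h1, rfl⟩) e' (⟨g', h1', h2', h3', rfl⟩ | ⟨h1', rfl⟩) hne
    · exact absurd (by rw [one_free hF hS hG hu h1 h2 h3 h1' h2' h3']) hne
    · exact absurd ⟨g, h1, h2, h3⟩ h1'
    · exact absurd ⟨g', h1', h2', h3'⟩ h1
    · exact absurd rfl hne

/-- The apex lemma in the coordinates of the frame. -/
theorem apex (hd : Disc F.Γ (F.cell u)) (h : Shp F.Γ (F.cell u) (F.cellS G u) o) {x : Vx J}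
    (hx : x ∈ o.X) (hn : x ∉ F.Bot u.s u.s') :
    ∃ t t', t ∈ F.Bot u.s u.s' ∧ t ∈ o.X ∧ t' ∈ F.Bot u.s u.s' ∧ t' ∈ o.X ∧ F.Γ.Adj t x ∧
      F.Γ.Adj x t' ∧ F.ρ t < o.ρ x ∧ o.ρ x < F.ρ t' ∧
      (∀ z ∈ o.X, F.Γ.Adj x z → z = t ∨ z = t') ∧
      (∀ v ∈ F.Bot u.s u.s', (F.ρ t < F.ρ v ∧ F.ρ v < F.ρ t') ↔ (v ∈ o.Z ∧ o.ax v = x)) ∧
      ∃ v ∈ F.Bot u.s u.s', F.ρ t < F.ρ v ∧ F.ρ v < F.ρ t' := by
  obtain ⟨t, t', h1, h2, h3, h4, h5, h6, h7, h8, h9, h10, v, hv, h11⟩ := h.apex hd hx hn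
  rw [rho_X hd h1] at h7
  rw [rho_X hd h3] at h8
  rw [rho_X hd h1, rho_X hd h3, rho_X hd hv] at h11
  refine ⟨t, t', h1, h2, h3, h4, h5, h6, h7, h8, h9, fun w hw => ?_, v, hv, h11⟩
  rw [← h10 w hw, rho_X hd h1, rho_X hd h3, rho_X hd hw]

theorem apex' (hd : Disc F.Γ (F.cell u)) (h : Shp F.Γ (F.cell u) (F.cellS G u) o) {x t t' : Vx J}
    (hx : x ∈ o.X) (hn : x ∉ F.Bot u.s u.s') (ht : t ∈ o.X) (ht' : t' ∈ o.X)
    (e : F.Γ.Adj t x) (e' : F.Γ.Adj x t') (l : F.ρ t < F.ρ t') :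
    (∀ z ∈ o.X, F.Γ.Adj x z → z = t ∨ z = t') ∧
      (∀ v ∈ F.Bot u.s u.s', (F.ρ t < F.ρ v ∧ F.ρ v < F.ρ t') ↔ (v ∈ o.Z ∧ o.ax v = x)) ∧
      ∃ v ∈ F.Bot u.s u.s', F.ρ t < F.ρ v ∧ F.ρ v < F.ρ t' := by
  obtain ⟨r, r', -, -, -, -, -, -, h7, h8, h9, h10, h11⟩ := apex hd h hx hn
  rcases h9 t ht e.symm with rfl | rfl <;> rcases h9 t' ht' e' with rfl | rfl
  · exact absurd l (lt_irrefl _)
  · exact ⟨h9, h10, h11⟩
  · omega
  · exact absurd l (lt_irrefl _)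

theorem pk_nT (hd : Disc F.Γ (F.cell u)) (h : Shp F.Γ (F.cell u) (F.cellS G u) o) {x v : Vx J}
    (hx : x ∈ o.X) (hv : v ∈ Pk (F.cell u) o x) : v ∉ u.T := by
  intro hT
  have h1 : o.ax v ∈ o.Y := (h.swap.hidden hd.swap hT hv.1).1
  rw [hv.2.2] at h1
  exact h.xy hx h1

theorem cap (hF : Frm F) (hS : SIF F) (hu : Val F G u) (hd : Disc F.Γ (F.cell u))
    (hI : (F.cell u).I = F.CI u) (h : Shp F.Γ (F.cell u) (F.cellS G u) o) {u' : Un J}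
    (hs : u'.s ∈ F.Bot u.s u.s' ∩ o.X) (hs' : u'.s' ∈ F.Bot u.s u.s' ∩ o.X)
    (hx : u'.x ∈ o.X) (hn : u'.x ∉ F.Bot u.s u.s') (e : F.Γ.Adj u'.s u'.x)
    (e' : F.Γ.Adj u'.x u'.s') (l : F.ρ u'.s < F.ρ u'.s') (hp : u'.pk = Pk (F.cell u) o u'.x) :
    Cap F G u' := by
  obtain ⟨a1, a2, v0, hv0, a3⟩ := apex' hd h hx hn hs.2 hs'.2 e e' l
  have hf : F.f u'.s = F.f u.s - 1 := hF.uf.lf _ _ hs.1.1
  have hf' : F.f u'.s + 1 = F.f u.s := by omega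
  have hxI : u'.x ∈ (F.cell u).I := h.new_I hx hn
  have b1 := hs.1.2.1
  have b2 := hs'.1.2.2
  have hlt : F.ρ u'.s + 1 < F.ρ u'.s' := by omega
  refine ⟨hlt, ?_, e, e', ?_, ?_, ?_, ?_, ?_, ?_, ?_⟩
  · rw [hf']
    exact CI_U hF hu (hI ▸ hxI)
  · intro z hz ez
    have hz' : z ∈ F.L (F.f u.s - 1) := hf ▸ hz
    have hzB := low_bot hF hu (hd.iz hxI ez) hz'
    rcases h.xx hzB with h1 | h1
    · rcases a1 z h1 ez with rfl | rfl
      · exact ⟨hz, le_rfl, l.le⟩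
      · exact ⟨hz, l.le, le_rfl⟩
    · rcases h.pk z h1 (hd.xz hzB) _ ez.symm with h2 | h2 | h2 | ⟨h2, h3 | h3⟩
      · exact absurd h2 (DD.mem_I.1 hxI).1
      · exact absurd h2.1 (h.xz hx)
      · have h3 := (a2 z hzB).2 ⟨h1, h2.symm⟩
        exact ⟨hz, h3.1.le, h3.2.le⟩
      · rcases h.nx _ hx _ h3.2 h2 with h4 | h4
        · exact absurd h4 hn
        · exact absurd h4 (h.hidden hd hzB h1).2
      · exact absurd h3.1 (h.xy hx)
  · rw [hp]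
    exact fun h1 => h.xz hx h1.1
  · rw [hp]
    exact hd.finc.subset fun v hv => hv.2.1
  · intro z hz
    have hz' : z ∈ F.L (F.f u.s - 1) := hf ▸ hz
    rw [hp]
    constructor
    · intro h1
      exact (a2 z (low_bot hF hu h1.2.1 hz')).2 ⟨h1.1, h1.2.2⟩
    · intro h1
      have hzB : z ∈ F.Bot u.s u.s' := ⟨hz', by omega, by omega⟩
      have h2 := (a2 z hzB).1 h1
      exact ⟨h2.1, hd.xz hzB, h2.2⟩
  · rw [hp, hf', hf]
    intro v hv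
    rcases nZ.1 hv.2.1 with h1 | h1 | h1
    · exact Or.inl h1.1
    · exact Or.inr (T_U hF hu h1)
    · exact Or.inr (CI_U hF hu h1)
  · rw [hp, hf', hf]
    intro v hv z ez hz
    have hzZ : z ∉ (F.cell u).Z := by
      intro hzZ
      have hvB : v ∈ F.Bot u.s u.s' :=
        (hd.old hv.2.1 hzZ ez).resolve_right (pk_nT hd h hx hv)
      have h1 := (a2 v hvB).2 ⟨hv.1, hv.2.2⟩
      refine (nZ.2 ?_) hzZ
      rcases hz with hz | hz
      · have h2 := (hF.adj_iff hvB.1 hz).1 ez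
        exact Or.inl ⟨hz, by omega, by omega⟩
      · have h2 := hS.bot _ _ hu.hs _ hu.hs' v hvB.1 (by omega) (by omega) z ez
        by_cases hL : z ∈ F.L (F.f u.s)
        · have h3 := h2.2 hL
          by_cases c1 : F.ρ u.s = F.ρ z
          · exact Or.inr (Or.inl ((mem_T u z).2 (Or.inl (hF.inj hL hu.hs c1.symm))))
          by_cases c2 : F.ρ z = F.ρ u.s'
          · exact Or.inr (Or.inl ((mem_T u z).2 (Or.inr (Or.inr (hF.inj hL hu.hs' c2)))))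
          have c3 := h3.2.1
          have c4 := h3.2.2
          rcases hu.alt with h4 | h4
          · have := h4.2.1
            omega
          · exact Or.inr (Or.inr (Or.inl ((h4.old z hL).2 ⟨by omega, by omega⟩)))
        · refine Or.inr (Or.inr (Or.inr (h2.1 ⟨hz, ?_⟩)))
          rintro (h3 | h3)
          · exact hL h3
          · have c1 := hF.uf.ge _ _ h3
            have c2 := hF.pot.lip _ _ ez
            have c3 := hF.uf.lf _ _ hvB.1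
            omega
    rcases h.pk v hv.1 hv.2.1 z ez with h2 | h2 | h2 | ⟨h2, h3 | h3⟩
    · exact absurd h2 hzZ
    · exact Or.inl ⟨h2.1, hzZ, h2.2.trans hv.2.2⟩
    · exact Or.inr ((mem_T u' z).2 (Or.inr (Or.inl (h2.trans hv.2.2))))
    · rw [hv.2.2] at h2
      rcases a1 z h3.1 h2.symm with h4 | h4
      · exact Or.inr ((mem_T u' z).2 (Or.inl h4))
      · exact Or.inr ((mem_T u' z).2 (Or.inr (Or.inr h4)))
    · have h4 := h3.2
      rw [hv.2.2] at h4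
      exact absurd h4 (h.xy hx)
  · intro z hz hg
    have hz' : z ∈ F.L (F.f u.s - 1) := hf ▸ hz.1
    have c1 := hz.2.1
    have c2 := hz.2.2
    by_contra hne
    have c3 : F.ρ z ≠ F.ρ u'.s' := fun c => hne (hF.inj hz' hs'.1.1 c)
    have hzB : z ∈ F.Bot u.s u.s' := ⟨hz', by omega, by omega⟩
    have c4 : F.ρ z < F.ρ (F.an u.s') := by omega
    have h1 := h.st s(z, F.nx z) (Or.inl ⟨z, hg, hzB, c4, rfl⟩)
    by_cases c5 : F.ρ u'.s < F.ρ z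
    · exact h1 z (Sym2.mem_mk_left _ _) ((a2 z hzB).1 ⟨c5, by omega⟩).1
    · have c6 := (hF.nx_mem hz').2.1
      exact h1 _ (Sym2.mem_mk_right _ _) ((a2 _ (nx_bot hF hzB c4)).1 ⟨by omega, by omega⟩).1

theorem gap (hd : Disc F.Γ (F.cell u)) (h : Shp F.Γ (F.cell u) (F.cellS G u) o) {u' : Un J}
    (hu' : u' ∈ F.outU u o) {v : Vx J} (hv : v ∈ F.Bot u.s u.s' ∩ o.X) :
    ¬ (F.ρ u'.s < F.ρ v ∧ F.ρ v < F.ρ u'.s') := by
  intro l
  obtain ⟨hs, hs', ⟨-, h1, -⟩ | ⟨hx, hn, e, e', l', -⟩⟩ := hu'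
  · omega
  · exact h.xz hv.2 (((apex' hd h hx hn hs.2 hs'.2 e e' l').2.1 v hv.1).1 l).1

theorem co1 (hF : Frm F) (hS : SIF F) (hu : Val F G u) (hd : Disc F.Γ (F.cell u))
    (hI : (F.cell u).I = F.CI u) (h : Shp F.Γ (F.cell u) (F.cellS G u) o) :
    CO1 F G u (F.outU u o) := by
  have lev : ∀ {v t : Vx J}, t ∈ F.Bot u.s u.s' → v ∈ F.Bot u.s u.s' → v ∈ F.L (F.f t) := by
    intro v t ht hv
    rw [hF.uf.lf _ _ ht.1]
    exact hv.1
  refine ⟨?_, ?_, ?_, ?_, ?_⟩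
  · rintro u' ⟨hs, hs', ha⟩
    refine ⟨⟨lev hs.1 hs.1, lev hs.1 hs'.1, ?_⟩, hs.1, hs'.1⟩
    rcases ha with ha | ⟨hx, hn, e, e', l, hp⟩
    · exact Or.inl ha
    · exact Or.inr (cap hF hS hu hd hI h hs hs' hx hn e e' l hp)
  · intro y hy ly
    rcases h.xx hy with h1 | h1
    · have hb : y ≠ (F.cell u).b := by
        rintro rfl
        exact lt_irrefl _ ly
      obtain ⟨v, hv, l, e, -⟩ := h.px.succ h1 hb
      rw [h.rx y hy h1, rho_X hd hy] at l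
      by_cases hvB : v ∈ F.Bot u.s u.s'
      · rw [h.rx v hvB hv, rho_X hd hvB] at l
        have c := (hF.adj_iff hy.1 hvB.1).1 e
        exact ⟨⟨y, y, v, ∅⟩, ⟨⟨hy, h1⟩, ⟨hvB, hv⟩, Or.inl ⟨rfl, by show F.ρ v = F.ρ y + 1; omega,
          rfl⟩⟩, lev hy hy, le_rfl, l⟩
      · obtain ⟨t, t', a1, a2, a3, a4, a5, a6, a7, a8, a9, -⟩ := apex hd h hv hvB
        rcases a9 y h1 e.symm with rfl | rfl
        · exact ⟨⟨y, v, t', Pk (F.cell u) o v⟩, ⟨⟨hy, h1⟩, ⟨a3, a4⟩,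
            Or.inr ⟨hv, hvB, e, a6, lt_trans a7 a8, rfl⟩⟩, lev hy hy, le_rfl, lt_trans a7 a8⟩
        · omega
    · obtain ⟨hx, hn⟩ := h.hidden hd hy h1
      obtain ⟨t, t', a1, a2, a3, a4, a5, a6, a7, a8, -, a10, -⟩ := apex hd h hx hn
      have c := (a10 y hy).2 ⟨h1, rfl⟩
      exact ⟨⟨t, o.ax y, t', Pk (F.cell u) o (o.ax y)⟩, ⟨⟨a1, a2⟩, ⟨a3, a4⟩,
        Or.inr ⟨hx, hn, a5, a6, lt_trans a7 a8, rfl⟩⟩, lev a1 hy, c.1.le, c.2⟩
  · intro u1 h1 u2 h2 y c1 c2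
    have g1 := gap hd h h1 h2.1
    have g2 := gap hd h h2 h1.1
    have g3 := gap hd h h1 h2.2.1
    have g4 := gap hd h h2 h1.2.1
    have d1 := c1.2.1
    have d2 := c1.2.2
    have d3 := c2.2.1
    have d4 := c2.2.2
    have es : u1.s = u2.s := hF.inj h1.1.1.1 h2.1.1.1 (by omega)
    have es' : u1.s' = u2.s' := hF.inj h1.2.1.1.1 h2.2.1.1.1 (by omega)
    obtain ⟨p1, p1', ⟨x1, r1, k1⟩ | ⟨hx1, hn1, e1, e1', l1, k1⟩⟩ := h1 <;>
      obtain ⟨p2, p2', ⟨x2, r2, k2⟩ | ⟨hx2, hn2, e2, e2', l2, k2⟩⟩ := h2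
    · exact Un.ext es (by rw [x1, x2, es]) es' (by rw [k1, k2])
    · obtain ⟨v, -, l⟩ := (apex' hd h hx2 hn2 p2.2 p2'.2 e2 e2' l2).2.2
      rw [es, es'] at r1
      omega
    · obtain ⟨v, -, l⟩ := (apex' hd h hx1 hn1 p1.2 p1'.2 e1 e1' l1).2.2
      rw [es, es'] at l
      omega
    · obtain ⟨-, a1, v, hv, l⟩ := apex' hd h hx1 hn1 p1.2 p1'.2 e1 e1' l1
      have a2 := (apex' hd h hx2 hn2 p2.2 p2'.2 e2 e2' l2).2.1
      have b1 := ((a1 v hv).1 l).2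
      rw [es, es'] at l
      have b2 := ((a2 v hv).1 l).2
      have ex : u1.x = u2.x := b1.symm.trans b2
      exact Un.ext es ex es' (by rw [k1, k2, ex])
  · rintro u' ⟨hs, hs', ha⟩ v (hv | hv)
    · rcases (mem_T u' v).1 hv with rfl | rfl | rfl
      · exact Or.inl hs.1
      · rcases ha with ha | ha
        · rw [ha.1]
          exact Or.inl hs.1
        · exact Or.inr (hI ▸ h.new_I ha.1 ha.2.1)
      · exact Or.inl hs'.1
    · rcases ha with ha | ha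
      · rw [ha.2.2] at hv
        exact hv.elim
      · rw [ha.2.2.2.2.2] at hv
        rcases nZ.1 hv.2.1 with h1 | h1 | h1
        · exact Or.inl h1
        · exact absurd h1 (pk_nT hd h ha.1 hv)
        · exact Or.inr h1
  · rintro u1 ⟨-, -, a1⟩ u2 ⟨-, -, a2⟩ n1 n2 e
    have b1 := a1.resolve_left fun c => n1 c.1
    have b2 := a2.resolve_left fun c => n2 c.1
    rcases h.nx _ b1.1 _ b2.1 e with c | c
    · exact b1.2.1 c
    · exact b2.2.1 c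

end PkUn1P

theorem pk_Un1 : S_Un1 := by
  intro J F φ G μ u hF hS hG hu hd hI
  exact ⟨PkUn1P.adm hF hS hG hu, fun o h => PkUn1P.co1 hF hS hu hd hI h⟩

end Pool.Agent.P.MP_08fd93_co.OV
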