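import Pool.Agent.P.MP_08fd93_co.OV.Base2

/-! Package Un2 of project OV: the extension property of a cell. -/

set_option autoImplicit false

namespace Pool.Agent.P.MP_08fd93_co.OV

namespace PkUn2P

variable {J : Type} {F : FD J} {G : Set (Vx J)} {u : Un J} {o : OD (Vx J)}
  {S : Set (Sym2 (Vx J))}

lemma rho_bot (hd : Disc F.Γ (F.cell u)) {v : Vx J} (hv : v ∈ F.Bot u.s u.s') :
    (F.cell u).ρ v = F.ρ v := by
  have h : v ∉ u.T := hd.xy hv
  simp only [FD.cell]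
  rw [if_neg]
  rintro ⟨h1, -⟩
  exact h (Or.inr (Or.inl h1))

lemma apex_unit (hd : Disc F.Γ (F.cell u)) (hs : Shp F.Γ (F.cell u) S o) {x : Vx J}
    (hx : x ∈ o.X) (hn : x ∉ F.Bot u.s u.s') :
    ∃ u' ∈ F.outU u o, u'.x = x ∧ u'.pk = Pk (F.cell u) o x ∧
      ∀ z ∈ o.X, F.Γ.Adj x z → z ∈ u'.T := by
  obtain ⟨p, q, p1, p2, q1, q2, e1, e2, l1, l2, h, -⟩ := hs.apex hd hx hn
  rw [rho_bot hd p1] at l1
  rw [rho_bot hd q1] at l2
  refine ⟨⟨p, x, q, Pk (F.cell u) o x⟩, ⟨⟨p1, p2⟩, ⟨q1, q2⟩,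
    Or.inr ⟨hx, hn, e1, e2, lt_trans l1 l2, rfl⟩⟩, rfl, rfl, fun z hz e => ?_⟩
  rcases h z hz e with rfl | rfl
  · exact Or.inl rfl
  · exact Or.inr (Or.inr rfl)

lemma triv_unit {p q : Vx J} (hp : p ∈ F.Bot u.s u.s' ∩ o.X) (hq : q ∈ F.Bot u.s u.s' ∩ o.X)
    (e : F.ρ q = F.ρ p + 1) : (⟨p, p, q, ∅⟩ : Un J) ∈ F.outU u o :=
  ⟨hp, hq, Or.inl ⟨rfl, e, rfl⟩⟩

lemma x_cov (hF : Frm F) (hd : Disc F.Γ (F.cell u)) (hs : Shp F.Γ (F.cell u) S o) {v : Vx J}
    (hv : v ∈ o.X) : v = F.an u.s ∨ ∃ u' ∈ F.outU u o, v ∈ u'.T := by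
  by_cases h0 : v = F.an u.s
  · exact Or.inl h0
  right
  by_cases hb : v ∈ F.Bot u.s u.s'
  · obtain ⟨p, hp, l, e, -⟩ := hs.px.pred hv h0
    by_cases hpb : p ∈ F.Bot u.s u.s'
    · rw [hs.rx p hpb hp, hs.rx v hb hv, rho_bot hd hpb, rho_bot hd hb] at l
      have := (hF.adj_iff hpb.1 hb.1).1 e
      exact ⟨_, triv_unit ⟨hpb, hp⟩ ⟨hb, hv⟩ (by omega), Or.inr (Or.inr rfl)⟩
    · obtain ⟨u', hu', -, -, h⟩ := apex_unit hd hs hp hpb
      exact ⟨u', hu', h v hv e⟩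
  · obtain ⟨u', hu', h, -⟩ := apex_unit hd hs hv hb
    exact ⟨u', hu', Or.inr (Or.inl h.symm)⟩

lemma mm_eq (hd : Disc F.Γ (F.cell u)) (hI : (F.cell u).I = F.CI u)
    (hs : Shp F.Γ (F.cell u) S o) : F.MM u (F.outU u o) = MX (F.cell u) o := by
  ext v
  constructor
  · rintro ⟨h1, h2⟩
    rw [← hI] at h1
    refine ⟨h1, ?_⟩
    have h3 := DD.mem_I.1 h1
    rintro (h | h)
    · obtain ⟨u', hu', e, -⟩ := apex_unit hd hs h h3.2.1
      exact (h2 u' hu').1 (Or.inr (Or.inl e.symm))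
    · rcases hs.ap v h.1 h3.1 with h4 | h4
      · obtain ⟨u', hu', -, e, -⟩ := apex_unit hd hs h4.1 h4.2
        apply (h2 u' hu').2
        rw [e]
        exact ⟨h.1, h3.1, rfl⟩
      · exact hs.xy h.2 h4.1
  · rintro ⟨h1, h2⟩
    refine ⟨hI ▸ h1, ?_⟩
    rintro u' ⟨a, b, c⟩
    constructor
    · intro h
      apply h2
      left
      rcases h with h | h | h
      · rw [h]; exact a.2
      · rw [h]
        rcases c with c | c
        · rw [c.1]; exact a.2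
        · exact c.1
      · rw [h]; exact b.2
    · intro h
      rcases c with c | c
      · rw [c.2.2] at h; exact h
      · rw [c.2.2.2.2.2] at h
        exact h2 (Or.inr ⟨h.1, by rw [h.2.2]; exact c.1⟩)

lemma bot_lc (hF : Frm F) :
    PE F.Γ (F.Bot u.s u.s' ∩ o.X) \ F.cellS G u ⊆ F.LC G u (F.outU u o) := by
  have key : ∀ p ∈ F.Bot u.s u.s' ∩ o.X, ∀ q ∈ F.Bot u.s u.s' ∩ o.X, F.ρ q = F.ρ p + 1 →
      s(p, q) ∉ F.cellS G u → s(p, q) ∈ F.LC G u (F.outU u o) := by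
    intro p hp q hq e hn
    refine Or.inl ⟨_, triv_unit hp hq e, rfl, fun hg => hn (Or.inl ⟨p, hg, hp.1, ?_, ?_⟩), rfl⟩
    · have := hq.1.2.2; omega
    · obtain ⟨a, b, -⟩ := hF.nx_mem hp.1.1
      rw [hF.inj hq.1.1 a (by omega)]
  rintro _ ⟨⟨p, hp, q, hq, e, rfl⟩, hn⟩
  rcases (hF.adj_iff hp.1.1 hq.1.1).1 e with h | h
  · exact key p hp q hq h hn
  · rw [Sym2.eq_swap] at hn ⊢
    exact key q hq p hp h hn

lemma cap_of (hv : Val F G u) (h : u.x ≠ u.s) : Cap F G u := by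
  rcases hv.alt with h1 | h1
  · exact absurd h1.1 h
  · exact h1

lemma nadj (hF : Frm F) (hv : Val F G u) (h : u.x ≠ u.s) :
    u.s ≠ u.s' ∧ ¬ F.Γ.Adj u.s u.s' := by
  have := (cap_of hv h).lt
  refine ⟨fun e => ?_, fun e => ?_⟩
  · rw [← e] at this; omega
  · have := (hF.adj_iff hv.hs hv.hs').1 e
    omega

lemma top_e (hF : Frm F) (hv : Val F G u) {e : Sym2 (Vx J)} (he : e ∈ PE F.Γ u.T) :
    e = s(u.s, u.snd) ∨ (u.x ≠ u.s ∧ e = s(u.x, u.s')) := by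
  obtain ⟨p, hp, q, hq, ed, rfl⟩ := he
  have ne := ed.ne
  by_cases hx : u.x = u.s
  · left
    simp only [Un.T, hx, Set.mem_insert_iff, Set.mem_singleton_iff, or_self_left] at hp hq
    rw [Un.snd, if_pos hx]
    rcases hp with rfl | rfl <;> rcases hq with h | h
    · exact absurd h.symm ne
    · rw [h]
    · rw [h, Sym2.eq_swap]
    · exact absurd h.symm ne
  · have h2 := (nadj hF hv hx).2
    rw [Un.snd, if_neg hx]
    rcases hp with rfl | rfl | rfl <;> rcases hq with h | h | h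
    · exact absurd h.symm ne
    · left; rw [h]
    · exact absurd (h ▸ ed) h2
    · left; rw [h, Sym2.eq_swap]
    · exact absurd h.symm ne
    · right; exact ⟨hx, by rw [h]⟩
    · exact absurd (h ▸ ed).symm h2
    · right; exact ⟨hx, by rw [h, Sym2.eq_swap]⟩
    · exact absurd h.symm ne

lemma top_lc (hF : Frm F) (hv : Val F G u) {O : Set (Un J)} {e : Sym2 (Vx J)}
    (he : e ∈ PE F.Γ u.T) (h : F.Cen G u ∨ e ∉ F.cellS G u) : e ∈ F.LC G u O := by
  rcases top_e hF hv he with h1 | h1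
  · by_cases hc : F.Cen G u
    · exact Or.inr (Or.inr ⟨hc, h1⟩)
    · exact absurd (Or.inr ⟨hc, h1⟩) (h.resolve_left hc)
  · exact Or.inr (Or.inl h1)

end PkUn2P

open PkUn2P in
theorem pk_Un2 : S_Un2 := by
  intro hT hU J F G u o hF _ hv hd hI ho _ β c ω h0 h1 h2 hp hc
  have hs := ho.shp
  have hX : ∀ v ∈ o.X, (c v).1 = β := by
    intro v hv
    rcases x_cov hF hd hs hv with rfl | ⟨u', hu', h⟩
    · exact h0
    · exact h1 u' hu' v h
  rw [mm_eq hd hI hs]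
  by_cases hh : F.Cen G u ∧ u.x ≠ u.s
  · obtain ⟨w1, w2, w3⟩ := hc hh.1 hh.2
    have cp := cap_of hv hh.2
    obtain ⟨n1, n2⟩ := nadj hF hv hh.2
    have hS : F.cellS G u ⊆ PE F.Γ (F.cell u).X := by
      rintro e (⟨g, -, g1, g2, rfl⟩ | h)
      · obtain ⟨a, b, ed⟩ := hF.nx_mem g1.1
        have := g1.2.1
        exact ⟨g, g1, _, ⟨a, by omega, by omega⟩, ed, rfl⟩
      · exact absurd hh.1 h.1
    have hL : (PE F.Γ ((F.cell u).X ∩ o.X) \ F.cellS G u) ∪ PE F.Γ (F.cell u).Y ⊆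
        F.LC G u (F.outU u o) := by
      rintro e (h | h)
      · exact bot_lc hF h
      · exact top_lc hF hv h (Or.inl hh.1)
    have key := hU _ F.Γ hF.pl (hT _ _ hF.pl) (F.cell u) _ o u.x hd ho hS rfl cp.sx cp.xs n1 n2
    have hp' := hp.mono (bot_lc (o := o) hF)
    cases β
    · obtain ⟨c', h⟩ := key c ω hX h2 hp' w1 w2 w3
      exact ⟨c', h.mono fun x _ hx => Pay.mono hL hx⟩
    · obtain ⟨c', h⟩ := key (fun x => flipC (c x)) ω (fun x hx => by simp [flipC, hX x hx])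
        (fun x hx => by simp [flipC, h2 x hx]) (hp'.perm flipC) w1 w2
        (fun e => w3 (flipC.injective e))
      rw [Pay.perm] at h
      exact ⟨_, (h.perm flipC).mono fun x _ hx => Pay.mono hL hx⟩
  · have hY : o.Y = (F.cell u).Y := by
      apply hs.keepY hd
      have a : u.s ∉ o.Z := hs.yz hs.py.ha
      rintro v (h | h | h)
      · rw [h]; exact a
      · rw [h]
        by_cases hx : u.x = u.s
        · rw [hx]; exact a
        · apply hs.st s(u.s, u.snd) (Or.inr ⟨fun h => hh ⟨h, hx⟩, rfl⟩)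
          rw [Un.snd, if_neg hx]
          exact Sym2.mem_mk_right _ _
      · rw [h]; exact hs.yz hs.py.hb
    have hM : ((F.cell u).upd o).I = MX (F.cell u) o := by
      ext v
      constructor
      · intro h
        have h' : v ∉ o.Z ∧ v ∉ o.X ∧ v ∉ o.Y := DD.mem_I.1 h
        exact ⟨hs.I_sub h, fun hh => hh.elim h'.2.1 fun hh => h'.1 hh.1⟩
      · rintro ⟨a, b⟩
        have a' := DD.mem_I.1 a
        refine DD.mem_I.2 ⟨fun hz => ?_, fun hx => b (Or.inl hx), fun hy => a'.2.2 (hY ▸ hy)⟩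
        rcases hs.ap v hz a'.1 with h | h
        · exact b (Or.inr ⟨hz, h.1⟩)
        · exact h.2 (hY ▸ h.1)
    have hL : LE F.Γ (F.cell u) (F.cellS G u) o ⊆ F.LC G u (F.outU u o) := by
      rintro e ⟨h | h, hn⟩
      · exact bot_lc hF ⟨h, hn⟩
      · exact top_lc hF hv (PE.mono Set.inter_subset_left h) (Or.inr hn)
    obtain ⟨c', h⟩ := ho.ext.cls β c ω hX (fun x hx => h2 x (by rw [hY] at hx; exact hx))
      (hp.mono hL)
    rw [hM] at h
    exact ⟨c', h.mono fun x _ hx => Pay.mono hL hx⟩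

end Pool.Agent.P.MP_08fd93_co.OV
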