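import Pool.Agent.P.MP_08fd93_co.All
import Pool.Agent.P.MP_08fd93_co.OV.Asm
import Pool.Agent.P.MP_08fd93_co.OV.PkSpl1
import Pool.Agent.P.MP_08fd93_co.OV.PkSpl2
import Pool.Agent.P.MP_08fd93_co.OV.PkSpl3
import Pool.Agent.P.MP_08fd93_co.OV.PkStp1
import Pool.Agent.P.MP_08fd93_co.OV.PkStp2
import Pool.Agent.P.MP_08fd93_co.OV.PkStp3
import Pool.Agent.P.MP_08fd93_co.OV.PkStp4a
import Pool.Agent.P.MP_08fd93_co.OV.PkStp4b
import Pool.Agent.P.MP_08fd93_co.OV.PkFct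
import Pool.Agent.P.MP_08fd93_co.OV.PkFinA
import Pool.Agent.P.MP_08fd93_co.OV.PkFinB
import Pool.Agent.P.MP_08fd93_co.OV.PkFinC
import Pool.Agent.P.MP_08fd93_co.OV.PkTri1
import Pool.Agent.P.MP_08fd93_co.OV.PkTri2
import Pool.Agent.P.MP_08fd93_co.OV.PkInd
import Pool.Agent.P.MP_08fd93_co.OV.PkPCol
import Pool.Agent.P.MP_08fd93_co.OV.PkStar1
import Pool.Agent.P.MP_08fd93_co.OV.PkStar2
import Pool.Agent.P.MP_08fd93_co.OV.PkQ4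
import Pool.Agent.P.MP_08fd93_co.OV.PkUnh
import Pool.Agent.P.MP_08fd93_co.OV.PkE1
import Pool.Agent.P.MP_08fd93_co.OV.PkE2
import Pool.Agent.P.MP_08fd93_co.OV.PkPer
import Pool.Agent.P.MP_08fd93_co.OV.PkHP
import Pool.Agent.P.MP_08fd93_co.OV.PkBri
import Pool.Agent.P.MP_08fd93_co.OV.PkCross
import Pool.Agent.P.MP_08fd93_co.OV.PkSelf
import Pool.Agent.P.MP_08fd93_co.OV.PkDN
import Pool.Agent.P.MP_08fd93_co.OV.PkLatA
import Pool.Agent.P.MP_08fd93_co.OV.PkLatB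
import Pool.Agent.P.MP_08fd93_co.OV.PkPLat
import Pool.Agent.P.MP_08fd93_co.OV.PkTw
import Pool.Agent.P.MP_08fd93_co.OV.PkCon1
import Pool.Agent.P.MP_08fd93_co.OV.PkPQ
import Pool.Agent.P.MP_08fd93_co.OV.PkCon2
import Pool.Agent.P.MP_08fd93_co.OV.PkKer
import Pool.Agent.P.MP_08fd93_co.OV.PkBus
import Pool.Agent.P.MP_08fd93_co.OV.PkPG
import Pool.Agent.P.MP_08fd93_co.OV.PkJk1
import Pool.Agent.P.MP_08fd93_co.OV.PkJk2
import Pool.Agent.P.MP_08fd93_co.OV.PkJk3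
import Pool.Agent.P.MP_08fd93_co.OV.PkUU
import Pool.Agent.P.MP_08fd93_co.OV.PkLCon
import Pool.Agent.P.MP_08fd93_co.OV.PkLin
import Pool.Agent.P.MP_08fd93_co.OV.PkFrm
import Pool.Agent.P.MP_08fd93_co.OV.PkNC
import Pool.Agent.P.MP_08fd93_co.OV.PkSF
import Pool.Agent.P.MP_08fd93_co.OV.PkSI
import Pool.Agent.P.MP_08fd93_co.OV.PkPhi
import Pool.Agent.P.MP_08fd93_co.OV.PkBar
import Pool.Agent.P.MP_08fd93_co.OV.PkSel
import Pool.Agent.P.MP_08fd93_co.OV.PkCell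
import Pool.Agent.P.MP_08fd93_co.OV.PkUn1
import Pool.Agent.P.MP_08fd93_co.OV.PkUn2
import Pool.Agent.P.MP_08fd93_co.OV.PkIso
import Pool.Agent.P.MP_08fd93_co.OV.PkSol
import Pool.Agent.P.MP_08fd93_co.OV.PkPrt
import Pool.Agent.P.MP_08fd93_co.OV.PkSkl
import Pool.Agent.P.MP_08fd93_co.OV.PkBit
import Pool.Agent.P.MP_08fd93_co.OV.PkFin0
import Pool.Agent.P.MP_08fd93_co.OV.PkFin

/-! Assembly of project OV. -/

set_option autoImplicit false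

namespace Pool.Agent.P.MP_08fd93_co.OV

theorem all_T : S_T :=
  pk_Ind pk_Spl1 pk_Spl2 pk_Spl3 pk_Stp1 pk_Stp2 pk_Stp3 pk_Stp4a pk_Stp4b pk_Fct pk_FinA pk_FinB
    pk_FinC pk_Tri1 pk_Tri2

theorem all_Star : S_Star := pk_Star2 pk_PCol pk_Star1

theorem all_Unh : S_Unh := pk_Unh (pk_Q4 all_Star)

theorem all_E : S_E := pk_E2 pkg_Quot all_T (pk_E1 pk_Tri1 all_Star)

theorem all_Nrm : S_Nrm := pk_DN pk_Per pk_Cross (pk_Self pk_HP pk_Bri)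

theorem all_Lat : S_Lat := pk_PLat (pk_LatB pk_LatA)

theorem all_Con : S_Con := pk_Con1 pk_Per all_Nrm all_Lat pk_Tw

theorem all_PQ : S_PQ := pk_PQ pkg_Quot

theorem all_Bu : S_Bu := pk_Bus pk_Per pk_Ker

theorem all_Main0 : S_Main0 :=
  asm_Main0 all_T all_Unh all_Bu pk_HP pk_Bri pk_UU pk_LCon pk_Lin pk_Frm pk_NC pk_SF pk_SI pk_Phi
    pk_Bar pk_Sel pk_Cell pk_Un1 pk_Un2 pk_Iso pk_Sol pk_Prt pk_Skl pk_Bit pk_PG pk_Fin0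

theorem all_Main : S_Main :=
  pk_Jk3 (pk_Jk1 all_Bu) (pk_Jk2 all_PQ (pk_Jk1 all_Bu)) pk_PG all_E all_Main0

theorem all_A2 : S_A2 := asm_A2 all_Base all_Nrm all_Con all_PQ all_Main pk_Con2 pk_Fin

end Pool.Agent.P.MP_08fd93_co.OV
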