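import Pool.Agent.P.MP_08fd93_co.OV.BaseB

/-! Toolbox C for project OV: recolourings and the extension property. -/

set_option autoImplicit false

namespace Pool.Agent.P.MP_08fd93_co.OV

variable {W : Type} {H : SimpleGraph W}

theorem mem_PE {X : Set W} {u v : W} : s(u, v) ∈ PE H X ↔ u ∈ X ∧ v ∈ X ∧ H.Adj u v := by
  constructor
  · rintro ⟨a, ha, b, hb, e, he⟩
    rcases Sym2.eq_iff.1 he with ⟨rfl, rfl⟩ | ⟨rfl, rfl⟩
    exacts [⟨ha, hb, e⟩, ⟨hb, ha, e.symm⟩]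
  · rintro ⟨h1, h2, h3⟩
    exact ⟨u, h1, v, h2, h3, rfl⟩

theorem PE.mono {X Y : Set W} (h : X ⊆ Y) : PE H X ⊆ PE H Y := by
  rintro _ ⟨a, ha, b, hb, e, rfl⟩
  exact ⟨a, h ha, b, h hb, e, rfl⟩

theorem PE.ends {X : Set W} {e : Sym2 W} (h : e ∈ PE H X) {x : W} (hx : x ∈ e) : x ∈ X := by
  obtain ⟨a, ha, b, hb, _, rfl⟩ := h
  rcases Sym2.mem_iff.1 hx with rfl | rfl
  exacts [ha, hb]

theorem Rec.empty (c : W → Col) (Al : Set W) : Rec H ∅ Al c c :=
  ⟨fun _ _ => rfl, fun _ h => h.elim, fun _ _ _ h => h.elim, fun _ _ _ h => h.elim⟩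

theorem Rec.mono {M Al Al' : Set W} {c c' : W → Col} (h : Rec H M Al c c')
    (hs : ∀ x, x ∉ M → x ∈ Al → x ∈ Al') : Rec H M Al' c c' :=
  ⟨h.off, h.one, fun x hx y hy e he => hs x hx (h.al x hx y hy e he), h.un⟩

/-- two recolourings of parts that do not touch -/
theorem Rec.union {M1 M2 A1 A2 : Set W} {c c1 c2 : W → Col} (h1 : Rec H M1 A1 c c1)
    (h2 : Rec H M2 A2 c1 c2) (hd : Disjoint M1 M2) (ht : ¬ Touch H M1 M2)
    (hA : ∀ x, x ∉ M1 → x ∉ M2 → x ∈ A1 → x ∉ A2) : Rec H (M1 ∪ M2) (A1 ∪ A2) c c2 := by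
  have e1 : ∀ x ∈ M1, c2 x = c1 x := fun x hx => h2.off x (Set.disjoint_left.1 hd hx)
  have e2 : ∀ x ∈ M1, ∀ y, H.Adj x y → c2 y = c1 y := fun x hx y e =>
    h2.off y fun hy => ht ⟨x, hx, y, hy, e⟩
  refine ⟨fun x hx => ?_, ?_, ?_, ?_⟩
  · rw [h2.off x fun hh => hx (Or.inr hh), h1.off x fun hh => hx (Or.inl hh)]
  · rintro x (hx | hx)
    · intro y z ey ez hy hz
      rw [e1 x hx] at hy hz
      rw [e2 x hx y ey] at hy
      rw [e2 x hx z ez] at hz
      exact h1.one x hx y z ey ez hy hz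
    · exact h2.one x hx
  · rintro x hx y (hy | hy) e he
    · rw [e1 y hy, h2.off x fun hh => hx (Or.inr hh)] at he
      exact Or.inl (h1.al x (fun hh => hx (Or.inl hh)) y hy e he)
    · exact Or.inr (h2.al x (fun hh => hx (Or.inr hh)) y hy e he)
  · have mix : ∀ x, x ∉ M1 ∪ M2 → ∀ y ∈ M1, ∀ z ∈ M2, H.Adj x y → H.Adj x z → c2 y = c2 x →
        c2 z = c2 x → False := by
      intro x hx y hy z hz ey ez cy cz
      rw [e1 y hy, h2.off x fun hh => hx (Or.inr hh)] at cy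
      exact hA x (fun hh => hx (Or.inl hh)) (fun hh => hx (Or.inr hh))
        (h1.al x (fun hh => hx (Or.inl hh)) y hy ey cy)
        (h2.al x (fun hh => hx (Or.inr hh)) z hz ez cz)
    rintro x hx y (hy | hy) z (hz | hz) ey ez cy cz
    · rw [h2.off x fun hh => hx (Or.inr hh)] at cy cz
      rw [e1 y hy] at cy
      rw [e1 z hz] at cz
      exact h1.un x (fun hh => hx (Or.inl hh)) y hy z hz ey ez cy cz
    · exact (mix x hx y hy z hz ey ez cy cz).elim
    · exact (mix x hx z hz y hy ez ey cz cy).elim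
    · exact h2.un x (fun hh => hx (Or.inr hh)) y hy z hz ey ez cy cz

/-- renaming of the colours -/
theorem Rec.perm {M Al : Set W} {c c' : W → Col} (π : Col ≃ Col)
    (h : Rec H M Al (fun x => π (c x)) c') : Rec H M Al c fun x => π.symm (c' x) :=
  ⟨fun x hx => by simp [h.off x hx],
    fun x hx y z ey ez hy hz => h.one x hx y z ey ez (π.symm.injective hy) (π.symm.injective hz),
    fun x hx y hy e he => h.al x hx y hy e (π.symm.injective he),
    fun x hx y hy z hz ey ez cy cz =>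
      h.un x hx y hy z hz ey ez (π.symm.injective cy) (π.symm.injective cz)⟩

theorem Paid.perm {L : Set (Sym2 W)} {c : W → Col} {o : W → W} (π : Col ≃ Col) (h : Paid L c o) :
    Paid L (fun x => π (c x)) o :=
  fun u v huv => (h u v huv).imp_left fun he => by simp only [he]

theorem Pay.perm (L : Set (Sym2 W)) (c : W → Col) (o : W → W) (π : Col ≃ Col) :
    Pay L (fun x => π (c x)) o = Pay L c o := by
  ext x
  simp [Pay]

theorem Paid.mono {L L' : Set (Sym2 W)} {c : W → Col} {o : W → W} (h : Paid L' c o)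
    (hs : L ⊆ L') : Paid L c o := fun u v huv => h u v (hs huv)

theorem Pay.mono {L L' : Set (Sym2 W)} {c : W → Col} {o : W → W} (hs : L ⊆ L') :
    Pay L c o ⊆ Pay L' c o := fun _ hx => ⟨hs hx.1, hx.2⟩

theorem Pay.empty (c : W → Col) (o : W → W) : Pay (∅ : Set (Sym2 W)) c o = ∅ :=
  Set.eq_empty_of_forall_notMem fun _ hx => hx.1

/-- the exchange of the two classes -/
def flipC : Col ≃ Col where
  toFun k := (!k.1, k.2)
  invFun k := (!k.1, k.2)
  left_inv k := by simp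
  right_inv k := by simp

/-- two colours are put into class `false`, a third one into class `true` -/
theorem repair (k1 k2 k3 : Col) (h1 : k1 ≠ k3) (h2 : k2 ≠ k3) :
    ∃ π : Col ≃ Col, (π k1).1 = false ∧ (π k2).1 = false ∧ (π k3).1 = true := by
  revert k1 k2 k3
  decide

theorem repair2 (k1 k2 : Col) : ∃ π : Col ≃ Col, (π k1).1 = false ∧ (π k2).1 = false := by
  revert k1 k2
  decide

variable {M A B : Set W} {L : Set (Sym2 W)}

theorem Ext.mono {A' B' : Set W} {L' : Set (Sym2 W)} (h : Ext H M A B L) (hA : A ⊆ A')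
    (hB : B ⊆ B') (hL : L ⊆ L') : Ext H M A' B' L' := by
  intro c o h1 h2 h3
  obtain ⟨c', hc⟩ := h c o (fun x hx => h1 x (hA hx)) (fun x hx => h2 x (hB hx)) (h3.mono hL)
  exact ⟨c', hc.mono fun x _ hx => Pay.mono hL hx⟩

theorem Ext.flip (h : Ext H M A B L) : Ext H M B A L := by
  intro c o h1 h2 h3
  obtain ⟨c', hc⟩ := h (fun x => flipC (c x)) o (fun x hx => by simp [flipC, h2 x hx])
    (fun x hx => by simp [flipC, h1 x hx]) (h3.perm flipC)
  rw [Pay.perm] at hc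
  exact ⟨_, hc.perm flipC⟩

/-- the extension property with the class of `A` as a parameter -/
theorem Ext.cls (h : Ext H M A B L) (β : Bool) (c : W → Col) (o : W → W)
    (h1 : ∀ x ∈ A, (c x).1 = β) (h2 : ∀ x ∈ B, (c x).1 = !β) (h3 : Paid L c o) :
    ∃ c', Rec H M (Pay L c o) c c' := by
  cases β
  exacts [h c o h1 h2 h3, h.flip c o h2 h1 h3]

theorem Ext.empty (A B : Set W) (L : Set (Sym2 W)) : Ext H ∅ A B L :=
  fun c _ _ _ _ => ⟨c, Rec.empty c _⟩

theorem Ext.glue {M1 M2 A1 A2 B1 B2 : Set W} {L1 L2 : Set (Sym2 W)} (h1 : Ext H M1 A1 B1 L1)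
    (h2 : Ext H M2 A2 B2 L2) (hd : Disjoint M1 M2) (ht : ¬ Touch H M1 M2)
    (a1 : A1 ⊆ A) (a2 : A2 ⊆ A) (b1 : B1 ⊆ B) (b2 : B2 ⊆ B) (l1 : L1 ⊆ L) (l2 : L2 ⊆ L)
    (hL : Disjoint L1 L2) (hA : Disjoint A2 M1) (hB : Disjoint B2 M1)
    (he : ∀ e ∈ L2, ∀ x ∈ e, x ∉ M1) : Ext H (M1 ∪ M2) A B L := by
  intro c o c1 c2 c3
  obtain ⟨c', hc⟩ := h1 c o (fun x hx => c1 x (a1 hx)) (fun x hx => c2 x (b1 hx)) (c3.mono l1)
  have eq : ∀ u v, s(u, v) ∈ L2 → c' u = c u ∧ c' v = c v := fun u v huv =>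
    ⟨hc.off u (he _ huv u (Sym2.mem_mk_left u v)), hc.off v (he _ huv v (Sym2.mem_mk_right u v))⟩
  obtain ⟨c'', hc'⟩ := h2 c' o
    (fun x hx => by rw [hc.off x (Set.disjoint_left.1 hA hx)]; exact c1 x (a2 hx))
    (fun x hx => by rw [hc.off x (Set.disjoint_left.1 hB hx)]; exact c2 x (b2 hx))
    (fun u v huv => by rw [(eq u v huv).1, (eq u v huv).2]; exact c3 u v (l2 huv))
  refine ⟨c'', (hc.union hc' hd ht fun x _ _ hx hx' => Set.disjoint_left.1 hL hx.1 hx'.1).mono ?_⟩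
  rintro x _ (hx | hx)
  · exact Pay.mono l1 hx
  · refine ⟨l2 hx.1, ?_⟩
    rw [← (eq _ _ hx.1).1, ← (eq _ _ hx.1).2]
    exact hx.2

variable {d : DD W} {S : Set (Sym2 W)} {o : OD W}

theorem LE_swap (d : DD W) (S : Set (Sym2 W)) (o : OD W) : LE H d.swap S o.swap = LE H d S o := by
  simp only [LE, DD.swap, OD.swap, Set.union_comm]

theorem Out.swap (h : Out H d S o) : Out H d.swap S o.swap := by
  refine ⟨h.shp.swap, ?_⟩
  rw [LE_swap]
  have : (d.swap.upd o.swap).I = (d.upd o).I := DD.swap_I (d.upd o)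
  rw [this]
  exact h.ext.flip

theorem Adm.swap (h : Adm H d S) : Adm H d.swap S := by
  have key : ∀ e e', Sep H d e e' → Sep H d.swap e e' := by
    rintro e e' ⟨u, hu, v, hv, ed, h1, h2⟩
    exact ⟨v, hv, u, hu, ed.symm, fun x hx => (h1 x hx).symm, fun x hx => (h2 x hx).symm⟩
  exact ⟨fun e he => (h.1 he).symm, fun e he e' he' hne => (h.2 e he e' he' hne).imp
    (key _ _) (key _ _)⟩

theorem Shp.mono {S' : Set (Sym2 W)} (h : Shp H d S' o) (hs : S ⊆ S') : Shp H d S o :=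
  ⟨h.disc, h.zz, h.xx, h.yy, h.rx, h.ry, h.nx, h.ny, h.ap, h.pk, fun e he => h.st e (hs he)⟩

theorem Out.mono {S' : Set (Sym2 W)} (h : Out H d S' o) (hs : S ⊆ S') : Out H d S o :=
  ⟨h.shp.mono hs, h.ext.mono subset_rfl subset_rfl fun _ he => ⟨he.1, fun hh => he.2 (hs hh)⟩⟩

/-- the output of a disc with empty interior -/
theorem Out.triv (h : Disc H d) (hS : S ⊆ PE H d.X ∪ PE H d.Y) (hI : d.I = ∅) :
    Out H d S ⟨d.Z, d.X, d.Y, d.ρ, id⟩ := by
  refine ⟨⟨h, subset_rfl, Set.subset_union_left, Set.subset_union_left, fun _ _ _ => rfl,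
    fun _ _ _ => rfl, fun _ hu _ _ _ => Or.inl hu, fun _ hu _ _ _ => Or.inl hu,
    fun _ hv hv' => absurd hv hv', fun _ hv hv' => absurd hv hv', fun e he x hx => ?_⟩, ?_⟩
  · rcases hS he with h1 | h1
    exacts [h.xz (PE.ends h1 hx), h.yz (PE.ends h1 hx)]
  · have : (d.upd ⟨d.Z, d.X, d.Y, d.ρ, id⟩).I = ∅ := hI
    rw [this]
    exact Ext.empty _ _ _

theorem Adm.single {e : Sym2 W} (he : e ∈ PE H d.X ∪ PE H d.Y) : Adm H d {e} :=
  ⟨by rintro _ rfl; exact he, by rintro _ rfl _ rfl hne; exact absurd rfl hne⟩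

theorem Adm.empty : Adm H d ∅ := ⟨Set.empty_subset _, fun _ h => h.elim⟩

theorem TA.tn (h : TA H) (n : ℕ) : TN H n := fun d S h1 h2 _ => h d S h1 h2

/-- the ends of the edges to be paid are not in the new interior -/
theorem LE_ends {e : Sym2 W} (he : e ∈ LE H d S o) {x : W} (hx : x ∈ e) :
    (x ∈ d.X ∧ x ∈ o.X) ∨ (x ∈ d.Y ∧ x ∈ o.Y) := by
  rcases he.1 with h | h
  exacts [Or.inl (PE.ends h hx), Or.inr (PE.ends h hx)]

end Pool.Agent.P.MP_08fd93_co.OV
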