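import Pool.Agent.P.MP_08fd93_co.OV.St2

/-! Package LatB of project OV: the lattice lemma if the first basis vector is shortest. -/

set_option autoImplicit false

namespace Pool.Agent.P.MP_08fd93_co.OV

namespace PkLatBP

theorem conv {D : ℤ × ℤ → ℕ} {u v u' v' : ℝ} (h : (u, v) ∈ KK D) (h' : (u', v') ∈ KK D)
    (t : ℝ) (h0 : 0 ≤ t) (h1 : t ≤ 1) {x y : ℝ} (hx : x = t * u + (1 - t) * u')
    (hy : y = t * v + (1 - t) * v') : (x, y) ∈ KK D := by
  intro c
  have a1 := h c
  have a2 := h' c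
  simp only at a1 a2 ⊢
  have b1 := mul_le_mul_of_nonneg_left a1 h0
  have b2 := mul_le_mul_of_nonneg_left a2 (sub_nonneg.mpr h1)
  rw [hx, hy]
  nlinarith

theorem between {D : ℤ × ℤ → ℕ} {u v v' : ℝ} (h : (u, v) ∈ KK D) (h' : (u, v') ∈ KK D)
    {y : ℝ} (h0 : v ≤ y) (h1 : y ≤ v') : (u, y) ∈ KK D := by
  intro c
  have a1 := h c
  have a2 := h' c
  simp only at a1 a2 ⊢
  rcases le_total 0 (c.2 : ℝ) with hc | hc
  · nlinarith
  · nlinarith

theorem half {D : ℤ × ℤ → ℕ} (hD : Nrm D) (hm : ∀ c, c ≠ 0 → D (1, 0) ≤ D c) (c : ℤ × ℤ) :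
    (D (1, 0) : ℤ) * |c.2| ≤ 2 * (D c : ℤ) := by
  obtain ⟨x, y⟩ := c
  simp only
  by_cases hy : y = 0
  · subst hy; simp
  have hex : ∃ k : ℤ, 2 * |k * y - x| ≤ |y| := by
    have hpos : 0 < |y| := abs_pos.mpr hy
    have e1 := Int.emod_add_mul_ediv x y
    have e2 := Int.emod_nonneg x hy
    have e3 := Int.emod_lt_abs x hy
    by_cases hr : 2 * (x % y) ≤ |y|
    · refine ⟨x / y, ?_⟩
      have : x / y * y - x = -(x % y) := by linarith [mul_comm (x / y) y]
      rw [this, abs_neg, abs_of_nonneg e2]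
      exact hr
    · rcases lt_or_gt_of_ne hy with hn | hp
      · refine ⟨x / y - 1, ?_⟩
        have ha : |y| = -y := abs_of_neg hn
        have : (x / y - 1) * y - x = -y - x % y := by linarith [mul_comm (x / y) y]
        rw [this, abs_of_nonneg (by omega)]
        omega
      · refine ⟨x / y + 1, ?_⟩
        have ha : |y| = y := abs_of_pos hp
        have : (x / y + 1) * y - x = y - x % y := by linarith [mul_comm (x / y) y]
        rw [this, abs_of_nonneg (by omega)]
        omega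
  obtain ⟨k, hk⟩ := hex
  have e : y • ((k, 1) : ℤ × ℤ) = (x, y) + (k * y - x) • ((1, 0) : ℤ × ℤ) := by
    ext <;> simp
    ring
  have h1 := hD.add (x, y) ((k * y - x) • ((1, 0) : ℤ × ℤ))
  rw [← e, hD.smul, hD.smul] at h1
  have h2 := hm (k, 1) (by simp)
  have h1' : (|y| : ℤ) * (D (k, 1) : ℤ) ≤ (D (x, y) : ℤ) + |k * y - x| * (D (1, 0) : ℤ) := by
    have := Int.ofNat_le.mpr h1
    push_cast at this
    simpa using this
  have h2' : (D (1, 0) : ℤ) ≤ (D (k, 1) : ℤ) := by exact_mod_cast h2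
  have h3 : (0 : ℤ) ≤ |y| := abs_nonneg y
  have h4 : (0 : ℤ) ≤ (D (1, 0) : ℤ) := by positivity
  nlinarith [mul_le_mul_of_nonneg_left h2' h3, mul_le_mul_of_nonneg_right hk h4]

/-- The additive map given by an integer point. -/
def ev (x y : ℤ) : ℤ × ℤ →+ ℤ where
  toFun c := x * c.1 + y * c.2
  map_zero' := by simp
  map_add' a b := by simp only [Prod.fst_add, Prod.snd_add]; ring

theorem latC_of {D : ℤ × ℤ → ℕ} {x y : ℤ} (hx : Even x) (hy : Even y)
    (h : ((x : ℝ), (y : ℝ)) ∈ KK D) (c : ℤ × ℤ) (hc : c ≠ 0)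
    (hle : (D c : ℤ) ≤ x * c.1 + y * c.2 + 2) : LatC D := by
  refine ⟨ev x y, fun a => (hx.mul_right _).add (hy.mul_right _), fun a => ?_, c, hc, hle⟩
  have := h a
  simp only at this
  show x * a.1 + y * a.2 ≤ (D a : ℤ)
  exact_mod_cast this

end PkLatBP

open PkLatBP in
theorem pk_LatB : S_LatB := by
  intro hA D hD hm
  obtain ⟨⟨p1, v1⟩, hP, hp1, hmin⟩ := hA D hD (1, 0) (0, 1) (Or.inl (by simp [det]))
  simp only [mul_one, mul_zero, add_zero, zero_add, Int.cast_one, Int.cast_zero] at hP hp1 hmin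
  set lam : ℤ := (D (1, 0) : ℤ) with hlam
  have hl3 : 3 ≤ lam := by
    have := hD.ge (1, 0) (by simp)
    omega
  subst hp1
  have hl3R : (3 : ℝ) ≤ (lam : ℝ) := by exact_mod_cast hl3
  have hlpos : (0 : ℝ) < (lam : ℝ) := by linarith
  have hup : ((0 : ℝ), (lam : ℝ) / 2) ∈ KK D := by
    intro c
    have h1 := half hD hm c
    have h2 : (lam : ℝ) * |(c.2 : ℝ)| ≤ 2 * (D c : ℝ) := by exact_mod_cast h1
    have h3 := le_abs_self (c.2 : ℝ)
    simp only
    nlinarith
  have hdn : ((0 : ℝ), -((lam : ℝ) / 2)) ∈ KK D := by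
    intro c
    have h1 := half hD hm c
    have h2 : (lam : ℝ) * |(c.2 : ℝ)| ≤ 2 * (D c : ℝ) := by exact_mod_cast h1
    have h3 := neg_abs_le (c.2 : ℝ)
    simp only
    nlinarith
  -- the slices
  have slice : ∀ s : ℝ, 0 ≤ s → s ≤ lam → ∀ y : ℝ, (1 - s / lam) * v1 - s / 2 ≤ y →
      y ≤ (1 - s / lam) * v1 + s / 2 → ((lam : ℝ) - s, y) ∈ KK D := by
    intro s h0 h1 y hy0 hy1
    have t0 : 0 ≤ s / lam := div_nonneg h0 hlpos.le
    have t1 : s / lam ≤ 1 := (div_le_one hlpos).mpr h1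
    have k1 : ((lam : ℝ) - s, (1 - s / lam) * v1 - s / 2) ∈ KK D :=
      conv hdn hP (s / lam) t0 t1 (by field_simp; ring) (by field_simp; ring)
    have k2 : ((lam : ℝ) - s, (1 - s / lam) * v1 + s / 2) ∈ KK D :=
      conv hup hP (s / lam) t0 t1 (by field_simp; ring) (by field_simp; ring)
    exact between k1 k2 hy0 hy1
  rcases Int.even_or_odd lam with hev | hodd
  · -- even case
    set m : ℝ := (1 - 2 / lam) * v1 with hmdef
    have k := slice 2 (by norm_num) (by linarith) ((2 * ⌈(m - 1) / 2⌉ : ℤ) : ℝ) (by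
      have := Int.le_ceil ((m - 1) / 2)
      push_cast
      linarith) (by
      have := Int.ceil_lt_add_one ((m - 1) / 2)
      push_cast
      linarith)
    refine latC_of (x := lam - 2) (y := 2 * ⌈(m - 1) / 2⌉) (hev.sub (by decide)) (by simp)
      (by simpa using k) (1, 0) (by simp) (by simp; omega)
  -- odd case
  have hev1 : Even (lam - 1) := hodd.sub_odd (by decide)
  have fin1 : ∀ y : ℤ, Even y → ((lam : ℝ) - 1, (y : ℝ)) ∈ KK D → LatC D := by
    intro y hy k
    exact latC_of (x := lam - 1) (y := y) hev1 hy (by simpa using k) (1, 0) (by simp)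
      (by simp; omega)
  obtain ⟨o, hO⟩ : ∃ o : ℤ, ((lam : ℝ) - 1, (o : ℝ)) ∈ KK D := by
    refine ⟨⌈(1 - 1 / lam) * (v1 : ℝ) - 1 / 2⌉, slice 1 (by norm_num) (by linarith) _
      (Int.le_ceil _) ?_⟩
    have := Int.ceil_lt_add_one ((1 - 1 / lam) * (v1 : ℝ) - 1 / 2)
    linarith
  rcases Int.even_or_odd o with hoe | hoo
  · exact fin1 o hoe hO
  by_cases hpl : ((lam : ℝ) - 1, (o : ℝ) + 1) ∈ KK D
  · exact fin1 (o + 1) (hoo.add_one) (by simpa using hpl)
  by_cases hmi : ((lam : ℝ) - 1, (o : ℝ) - 1) ∈ KK D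
  · exact fin1 (o - 1) (hoo.sub_odd (by decide)) (by simpa using hmi)
  -- the cone
  have cone : ∀ u v : ℝ, (u, v) ∈ KK D → u ≤ lam - 1 →
      v - v1 - (lam - u) * (o - v1) < lam - u ∧ -(lam - u) < v - v1 - (lam - u) * (o - v1) := by
    intro u v hq hu
    have hs : (1 : ℝ) ≤ lam - u := by linarith
    have hs0 : (0 : ℝ) < lam - u := by linarith
    have t0 : 0 ≤ 1 / (lam - u) := by positivity
    have t1 : 1 / (lam - u) ≤ 1 := (div_le_one hs0).mpr hs
    have k : ((lam : ℝ) - 1, v1 + (v - v1) / (lam - u)) ∈ KK D :=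
      conv hq hP (1 / (lam - u)) t0 t1 (by field_simp; ring) (by field_simp; ring)
    constructor
    · by_contra hc
      apply hpl
      refine between hO k (by linarith) ?_
      have : (o : ℝ) + 1 - v1 ≤ (v - v1) / (lam - u) := by
        rw [le_div_iff₀ hs0]
        nlinarith
      linarith
    · by_contra hc
      apply hmi
      refine between k hO ?_ (by linarith)
      have : (v - v1) / (lam - u) ≤ (o : ℝ) - 1 - v1 := by
        rw [div_le_iff₀ hs0]
        nlinarith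
      linarith
  have ule : ∀ u v : ℝ, (u, v) ∈ KK D → u ≤ lam := by
    intro u v hq
    have := hq (1, 0)
    simpa [hlam] using this
  have hev3 : Even (lam - 3) := hodd.sub_odd (by decide)
  have heT : ∀ e : ℤ, Odd e → Even (3 * o - 2 * v1 + e) := by
    intro e he
    obtain ⟨a, ha⟩ := hoo
    obtain ⟨b, hb⟩ := he
    exact ⟨3 * a + b + 2 - v1, by rw [ha, hb]; ring⟩
  by_cases hT : ((lam : ℝ) - 3, 3 * (o : ℝ) - 2 * v1 - 1) ∈ KK D
  · obtain ⟨⟨q1, q2⟩, hq, hqc, -⟩ := hA D hD (1 - (o - v1), -1) (1, 0) (Or.inl (by simp [det]))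
    simp only at hq hqc
    refine latC_of (x := lam - 3) (y := 3 * o - 2 * v1 + (-1)) hev3 (heT _ (by decide))
      (by simpa [sub_eq_add_neg] using hT) (1 - (o - v1), -1) (by simp) ?_
    rw [← hqc]
    have key : 0 ≤ (lam - q1) + (q2 - v1 - (lam - q1) * (o - v1)) := by
      have h1 : q1 ≤ lam := by exact_mod_cast ule _ _ hq
      rcases eq_or_lt_of_le h1 with h2 | h2
      · have h3 : (v1 : ℝ) ≤ (q2 : ℝ) := hmin (q1, q2) hq (by simp [h2, hlam])
        have h4 : v1 ≤ q2 := by exact_mod_cast h3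
        rw [h2]
        simp
        omega
      · have h3 : (q1 : ℝ) ≤ lam - 1 := by exact_mod_cast (by omega : q1 ≤ lam - 1)
        have h4 := (cone _ _ hq h3).2
        have h5 : -(lam - q1) < q2 - v1 - (lam - q1) * (o - v1) := by exact_mod_cast h4
        omega
    simp only
    nlinarith
  · set m : ℝ := (1 - 3 / lam) * v1 with hmdef
    have s3 := slice 3 (by norm_num) hl3R
    have c1 := (cone _ _ (s3 (m - 3 / 2) le_rfl (by linarith)) (by linarith)).2
    have c2 := (cone _ _ (s3 (m + 3 / 2) (by linarith) le_rfl) (by linarith)).1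
    have c3 : 3 * (o : ℝ) - 2 * v1 - 1 < m - 3 / 2 := by
      by_contra hc
      exact hT (s3 _ (by linarith) (by linarith))
    have hT1 := s3 (3 * (o : ℝ) - 2 * v1 + 1) (by linarith) (by linarith)
    have hT2 := s3 (3 * (o : ℝ) - 2 * v1 + 2) (by linarith) (by linarith)
    obtain ⟨⟨q1, q2⟩, hq, hqc, -⟩ := hA D hD (1 + (o - v1), 1) (1, 0) (Or.inr (by simp [det]))
    simp only at hq hqc
    refine latC_of (x := lam - 3) (y := 3 * o - 2 * v1 + 1) hev3 (heT _ (by decide))
      (by simpa using hT1) (1 + (o - v1), 1) (by simp) ?_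
    rw [← hqc]
    have key : (q2 - v1 - (lam - q1) * (o - v1)) ≤ lam - q1 := by
      have h1 : q1 ≤ lam := by exact_mod_cast ule _ _ hq
      rcases eq_or_lt_of_le h1 with h2 | h2
      · by_contra hc
        rw [h2] at hc hq
        have h4 : v1 + 1 ≤ q2 := by
          simp at hc
          omega
        have h5 : (v1 : ℝ) + 1 ≤ q2 := by exact_mod_cast h4
        have h6 : ((lam : ℝ), (v1 : ℝ) + 1 / 2) ∈ KK D := between hP hq (by linarith) (by linarith)
        exact hpl (conv hT2 h6 (1 / 3) (by norm_num) (by norm_num) (by ring) (by ring))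
      · have h3 : (q1 : ℝ) ≤ lam - 1 := by exact_mod_cast (by omega : q1 ≤ lam - 1)
        have h4 := (cone _ _ hq h3).1
        have h5 : q2 - v1 - (lam - q1) * (o - v1) < lam - q1 := by exact_mod_cast h4
        omega
    simp only
    nlinarith

end Pool.Agent.P.MP_08fd93_co.OV
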