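import Pool.Agent.P.MP_08fd93_co.OV.Def2
import Pool.Agent.P.MP_08fd93_co.OV.St1

/-! Statements of the periodic packages of project OV. -/

set_option autoImplicit false

namespace Pool.Agent.P.MP_08fd93_co.OV

/-- Package Per: a shortest closed walk unrolled to a periodic line. -/
def S_Per : Prop := ∀ (J : Type) (Γ : SimpleGraph (Vx J)), Fine Γ → ∀ (x : Vx J) (c : ℤ × ℤ) (n : ℕ),
  Γ.dist x (tr c x) = n → 0 < n →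
  ∃ l : ℤ → Vx J, l 0 = x ∧ (∀ i, Γ.Adj (l i) (l (i + 1))) ∧ (∀ i, l (i + n) = tr c (l i)) ∧
    ∀ i j, Γ.dist (l i) (l j) ≤ (i - j).natAbs

/-- Package HP: half planes are connected up to a margin. -/
def S_HP : Prop := ∀ (J : Type) [Fintype J] (Γ : SimpleGraph (Vx J)), Fine Γ →
  ∀ η : ℤ × ℤ →+ ℤ, ∃ M : ℤ, 0 ≤ M ∧ ∀ (h : ℤ) (x y : Vx J), h + M ≤ η x.2 → h + M ≤ η y.2 →
    Conn Γ {z | h ≤ η z.2} x y

/-- Package Bri: a finite bridge touches at most two periodic connected sets. -/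
def S_Bri : Prop := ∀ (J : Type) (Γ : SimpleGraph (Vx J)), Fine Γ → ∀ (g : ℤ × ℤ), g ≠ 0 →
  ∀ (A0 A1 A2 P : Set (Vx J)), IsConn Γ A0 → IsConn Γ A1 → IsConn Γ A2 →
  Disjoint A0 A1 → Disjoint A0 A2 → Disjoint A1 A2 →
  (∀ x, tr g x ∈ A0 ↔ x ∈ A0) → (∀ x, tr g x ∈ A1 ↔ x ∈ A1) → (∀ x, tr g x ∈ A2 ↔ x ∈ A2) →
  P.Finite → IsConn Γ P → Disjoint P A0 → Disjoint P A1 → Disjoint P A2 →
  Touch Γ P A0 → Touch Γ P A1 → Touch Γ P A2 → False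

/-- Package Cross: periodic sets in independent directions meet in the quotient. -/
def S_Cross : Prop := ∀ (J : Type) (Γ : SimpleGraph (Vx J)), Fine Γ →
  ∀ (g h : ℤ × ℤ) (A B : Set (Vx J)) (M : ℤ), det g h ≠ 0 → IsConn Γ A → IsConn Γ B →
  A.Nonempty → B.Nonempty → (∀ x, tr g x ∈ A ↔ x ∈ A) → (∀ x, tr h x ∈ B ↔ x ∈ B) →
  (∀ x ∈ A, |det g x.2| ≤ M) → (∀ x ∈ B, |det h x.2| ≤ M) → ∃ x ∈ A, ∃ y ∈ B, x.1 = y.1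

/-- A set with period `k • p` meets its translate by `p`. -/
def S_Slf : Prop := ∀ (J : Type) [Fintype J] (Γ : SimpleGraph (Vx J)), Fine Γ →
  ∀ (p : ℤ × ℤ) (k : ℕ) (A : Set (Vx J)) (M : ℤ), p ≠ 0 → 0 < k → IsConn Γ A → A.Nonempty →
  (∀ x, tr ((k : ℤ) • p) x ∈ A ↔ x ∈ A) → (∀ x ∈ A, |det p x.2| ≤ M) → ∃ x ∈ A, tr p x ∈ A

/-- Package Self. -/
def S_Self : Prop := S_HP → S_Bri → S_Slf

/-- The lengths of shortest closed walks form a norm. -/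
def S_Nrm : Prop := ∀ (J : Type) [Fintype J] (Γ : SimpleGraph (Vx J)), Nonempty J → Good Γ →
  Fine Γ ∧ Nrm (DL Γ)

/-- Package DN. -/
def S_DN : Prop := S_Per → S_Cross → S_Slf → S_Nrm

/-- Package LatA: integer supporting functionals. -/
def S_LatA : Prop := ∀ D : ℤ × ℤ → ℕ, Nrm D → ∀ a b : ℤ × ℤ, (det a b = 1 ∨ det a b = -1) →
  ∃ p : ℤ × ℤ, ((p.1 : ℝ), (p.2 : ℝ)) ∈ KK D ∧ p.1 * a.1 + p.2 * a.2 = D a ∧
    ∀ q ∈ KK D, q.1 * (a.1 : ℝ) + q.2 * (a.2 : ℝ) = (D a : ℝ) →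
      ((p.1 * b.1 + p.2 * b.2 : ℤ) : ℝ) ≤ q.1 * (b.1 : ℝ) + q.2 * (b.2 : ℝ)

/-- The lattice lemma. -/
def LatC (D : ℤ × ℤ → ℕ) : Prop := ∃ η : ℤ × ℤ →+ ℤ, (∀ a, Even (η a)) ∧
  (∀ a, η a ≤ (D a : ℤ)) ∧ ∃ c, c ≠ 0 ∧ (D c : ℤ) ≤ η c + 2

/-- Package LatB: the lattice lemma if the first basis vector is shortest. -/
def S_LatB : Prop := S_LatA → ∀ D : ℤ × ℤ → ℕ, Nrm D → (∀ c, c ≠ 0 → D (1, 0) ≤ D c) → LatC D

/-- The lattice lemma. -/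
def S_Lat : Prop := ∀ D : ℤ × ℤ → ℕ, Nrm D → LatC D

/-- Package LatC: change of basis. -/
def S_PLat : Prop :=
  (∀ D : ℤ × ℤ → ℕ, Nrm D → (∀ c, c ≠ 0 → D (1, 0) ≤ D c) → LatC D) → S_Lat

/-- Package Tw: a geodesic line has a triple without a twin, possibly after one exchange. -/
def S_Tw : Prop := ∀ (W : Type) (H : SimpleGraph W), Pl H Set.univ → OE H → ∀ l : ℤ → W,
  (∀ i, H.Adj (l i) (l (i + 1))) → (∀ i j, H.dist (l i) (l j) = (i - j).natAbs) →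
  ∃ (i : ℤ) (y : W), H.Adj (l (i + 1)) y ∧ H.Adj y (l (i + 3)) ∧
    ∀ z, H.Adj z (l i) → H.Adj z y → z = l (i + 1)

/-- The set to be contracted. -/
def S_Con : Prop := ∀ (J : Type) [Fintype J] (Γ : SimpleGraph (Vx J)), Nonempty J → Good Γ →
  ∃ η Fs x0 dl, Con Γ η Fs x0 dl

/-- Package Con1. -/
def S_Con1 : Prop := S_Per → S_Nrm → S_Lat → S_Tw → S_Con

/-- Periodic quotients with finite connected fibres. -/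
def S_PQ : Prop := ∀ (J J' : Type) (Γ : SimpleGraph (Vx J)) (Γ' : SimpleGraph (Vx J'))
  (π : Vx J → Vx J'), Fine Γ → Function.Surjective π → (∀ a x, π (tr a x) = tr a (π x)) →
  (∀ y, (π ⁻¹' {y}).Finite ∧ IsConn Γ (π ⁻¹' {y})) →
  (∀ x y, Γ'.Adj x y ↔ x ≠ y ∧ ∃ a b, π a = x ∧ π b = y ∧ Γ.Adj a b) →
  Fine Γ' ∧ ∀ x y, Γ'.dist (π x) (π y) ≤ Γ.dist x y

/-- Package PQ. -/
def S_PPQ : Prop := S_Quot → S_PQ

/-- The main theorem for tight graphs. -/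
def S_Main : Prop := ∀ (J : Type) [Fintype J] (Γ : SimpleGraph (Vx J)) (η : ℤ × ℤ →+ ℤ) (m : J),
  Fine Γ → NL Γ → Tight Γ η → Goal Γ m

/-- The main theorem for tight graphs without hanging parts. -/
def S_Main0 : Prop := ∀ (J : Type) [Fintype J] (Γ : SimpleGraph (Vx J)) (η : ℤ × ℤ →+ ℤ) (m : J),
  Fine Γ → NL Γ → Tight Γ η → NJ Γ Set.univ → Goal Γ m

/-- Package Con2: contraction and pull-back. -/
def S_Con2 : Prop := S_PQ → S_Main → ∀ (J : Type) [Fintype J] (Γ : SimpleGraph (Vx J))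
  (η : ℤ × ℤ →+ ℤ) (Fs : Set (Vx J)) (x0 : Vx J) (dl : J), Fine Γ → NL Γ → Con Γ η Fs x0 dl →
  ∃ μ c, Col1 Γ {dl, μ} c

/-- The height function. -/
def S_Bu : Prop := ∀ (J : Type) [Fintype J] (Γ : SimpleGraph (Vx J)) (η : ℤ × ℤ →+ ℤ),
  Fine Γ → Tight Γ η → ∃ f an w γ N, Pot Γ η f an w ∧ Rid f an γ N

/-- Package Ker: kernel and image of a nonzero additive map. -/
def S_Ker : Prop := ∀ η : ℤ × ℤ →+ ℤ, (∃ a, 0 < η a) →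
  (∃ w : ℤ × ℤ, w ≠ 0 ∧ ∀ a, η a = 0 ↔ ∃ k : ℤ, a = k • w) ∧ ∃ b, 0 < η b ∧ ∀ a, η b ∣ η a

/-- Package Bus. -/
def S_Bus : Prop := S_Per → S_Ker → S_Bu

/-- Periodic gluing of recolourings. -/
def S_PG : Prop := ∀ (J : Type) (Γ : SimpleGraph (Vx J)) (ι : Type) (act : ℤ × ℤ → ι → ι)
  (nm : ι → ℤ × ℤ) (Q : Set ι) (M Al : ι → Set (Vx J)) (c : J → Col),
  (∀ a x y, Γ.Adj x y → Γ.Adj (tr a x) (tr a y)) →
  (∀ i, act 0 i = i) → (∀ a b i, act a (act b i) = act (b + a) i) →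
  (∀ a i, nm (act a i) = nm i + a) → (∀ a, ∀ i ∈ Q, act a i ∈ Q) →
  (∀ a, ∀ i ∈ Q, ∀ x, tr a x ∈ M (act a i) ↔ x ∈ M i) →
  (∀ a, ∀ i ∈ Q, ∀ x, x ∈ Al i → tr a x ∈ Al (act a i)) →
  (∀ i ∈ Q, ∀ i' ∈ Q, i ≠ i' → Disjoint (M i) (M i') ∧ ¬ Touch Γ (M i) (M i')) →
  (∀ i ∈ Q, ∃ c', Rec Γ (M i) (Al i) (fun x => c x.1) c') →
  ∃ c'' : J → Col, (∀ x : Vx J, (∀ i ∈ Q, x ∉ M i) → c'' x.1 = c x.1) ∧
    (∀ i ∈ Q, ∀ x ∈ M i, One Γ (fun x => c'' x.1) x) ∧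
    ∀ x : Vx J, (∀ i ∈ Q, x ∉ M i) → ∀ i ∈ Q,
      (∀ y ∈ M i, Γ.Adj x y → c'' y.1 = c'' x.1 → x ∈ Al i) ∧
      OneIn Γ (fun x => c'' x.1) (M i) x

/-- Translates of a hanging part. -/
def S_Jk : Prop := ∀ (J : Type) [Fintype J] (Γ : SimpleGraph (Vx J)) (η : ℤ × ℤ →+ ℤ),
  Fine Γ → Tight Γ η → ∀ (D : Set (Vx J)) (a b : Vx J), D.Finite → IsConn Γ D → a ∉ D → b ∉ D →
  (a = b ∨ Γ.Adj a b) → Nb Γ D ⊆ D ∪ {a, b} →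
  ∀ c, tr c a ∉ D ∧ tr c b ∉ D ∧ (c ≠ 0 → ∀ x ∈ D, tr c x ∉ D)

/-- Package Jk1. -/
def S_Jk1 : Prop := S_Bu → S_Jk

/-- Removal of a hanging part. -/
def S_Rm : Prop := ∀ (J : Type) [Fintype J] (Γ : SimpleGraph (Vx J)) (η : ℤ × ℤ →+ ℤ),
  Fine Γ → NL Γ → Tight Γ η → ∀ (D : Set (Vx J)) (a b : Vx J), D.Finite → IsConn Γ D →
  a ∉ D → b ∉ D → (a = b ∨ Γ.Adj a b) → Nb Γ D ⊆ D ∪ {a, b} →
  ∀ Γ' : SimpleGraph (Vx {u : J // ∀ x ∈ D, x.1 ≠ u}),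
    (∀ x y, Γ'.Adj x y ↔ Γ.Adj (x.1.1, x.2) (y.1.1, y.2)) → Fine Γ' ∧ NL Γ' ∧ Tight Γ' η

/-- Package Jk2. -/
def S_Jk2 : Prop := S_PQ → S_Jk → S_Rm

/-- Package Jk3: the induction over hanging parts. -/
def S_Jk3 : Prop := S_Jk → S_Rm → S_PG → S_E → S_Main0 → S_Main

/-- Package UU. -/
def S_UU : Prop := S_HP → ∀ (J : Type) [Fintype J] (Γ : SimpleGraph (Vx J)) (η : ℤ × ℤ →+ ℤ)
  (f : Vx J → ℤ) (an : Vx J → Vx J) (w : ℤ × ℤ), Nonempty J → Pot Γ η f an w → UF Γ η f an w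

/-- Package LCon: level sets are connected and have degree at most two. -/
def S_LCon : Prop := ∀ (J : Type) (Γ : SimpleGraph (Vx J)) (η : ℤ × ℤ →+ ℤ)
  (f : Vx J → ℤ) (an : Vx J → Vx J) (w : ℤ × ℤ), Pot Γ η f an w → UF Γ η f an w → ∀ j,
  IsConn Γ (LL Γ f j) ∧ ∀ x ∈ LL Γ f j, ∀ a ∈ LL Γ f j, ∀ b ∈ LL Γ f j, ∀ e ∈ LL Γ f j,
    Γ.Adj x a → Γ.Adj x b → Γ.Adj x e → a = b ∨ a = e ∨ b = e

/-- Package Lin: a periodic connected set of degree at most two is a line. -/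
def S_Lin : Prop := ∀ (J : Type) (Γ : SimpleGraph (Vx J)) (L : Set (Vx J)) (w : ℤ × ℤ),
  (∀ a x y, Γ.Adj x y → Γ.Adj (tr a x) (tr a y)) → NL Γ → w ≠ 0 → L.Nonempty → IsConn Γ L →
  (∀ x, tr w x ∈ L ↔ x ∈ L) →
  (∀ x ∈ L, ∀ a ∈ L, ∀ b ∈ L, ∀ e ∈ L, Γ.Adj x a → Γ.Adj x b → Γ.Adj x e →
    a = b ∨ a = e ∨ b = e) →
  ∃ (l : ℤ → Vx J) (n : ℤ), 2 ≤ n ∧ (∀ x, x ∈ L ↔ ∃ i, x = l i) ∧ Function.Injective l ∧
    (∀ i i', Γ.Adj (l i) (l i') ↔ i' = i + 1 ∨ i = i' + 1) ∧ ∀ i, tr w (l i) = l (i + n)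

/-- Package Frm. -/
def S_Frm : Prop := S_LCon → S_Lin → ∀ (J : Type) (Γ : SimpleGraph (Vx J)) (η : ℤ × ℤ →+ ℤ)
  (f : Vx J → ℤ) (an : Vx J → Vx J) (w : ℤ × ℤ), Pot Γ η f an w → UF Γ η f an w → NL Γ →
  NJ Γ Set.univ → ∃ l ρ nn, Frm ⟨Γ, η, f, an, w, l, ρ, nn⟩

/-- Package NC: nothing crosses a rung of a strip. -/
def S_NC : Prop := ∀ (J : Type) (F : FD J), Frm F → ∀ j, ∀ p ∈ F.L (j - 1), ∀ q ∈ F.L j,
  F.Γ.Adj p q → ∀ E : Set (Vx J), E ⊆ F.St j → IsConn F.Γ E → ∀ x y,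
  ((x ∈ F.L (j - 1) ∧ F.ρ x < F.ρ p) ∨ (x ∈ F.L j ∧ F.ρ x < F.ρ q)) →
  ((y ∈ F.L (j - 1) ∧ F.ρ p < F.ρ y) ∨ (y ∈ F.L j ∧ F.ρ q < F.ρ y)) →
  ¬ F.Γ.Adj x y ∧ ¬ (x ∈ Nb F.Γ E ∧ y ∈ Nb F.Γ E)

/-- Connected parts of a strip are finite. -/
def S_Sf : Prop := ∀ (J : Type) (F : FD J), Frm F → ∀ j, ∀ E : Set (Vx J), E ⊆ F.St j →
  IsConn F.Γ E → E.Finite

/-- Package SF. -/
def S_SF : Prop := S_Bri → S_Sf

/-- Package SI. -/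
def S_SI : Prop := S_NC → S_Sf → ∀ (J : Type) (F : FD J), Frm F → SIF F

/-- Package Phi. -/
def S_Phi : Prop := ∀ (J : Type) (F : FD J), Frm F → SIF F → ∃ φ, PH F φ

/-- Package Bar: one edge orbit meets every chain. -/
def S_Bar : Prop := ∀ (J : Type) (F : FD J) (φ : Vx J → Vx J) (γ : ℤ → Vx J) (N : ℕ), Frm F →
  SIF F → PH F φ → Rid F.f F.an γ N → ∀ k, ∃ y0 ∈ F.L k, ∃ N' : ℕ,
    ∀ y ∈ F.LA, ∃ t, t ≤ N' ∧ ∃ a, φ^[t] y = tr a y0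

/-- Package Sel: choice of the free edges. -/
def S_Sel : Prop := ∀ (J : Type) (F : FD J) (φ : Vx J → Vx J) (m : J), Frm F → PH F φ →
  (∀ k, ∃ y0 ∈ F.L k, ∃ N' : ℕ, ∀ y ∈ F.LA, ∃ t, t ≤ N' ∧ ∃ a, φ^[t] y = tr a y0) →
  ∃ G μ, μ ≠ m ∧ GS F φ G μ

/-- Package Cell: the cell under a valid unit is a disc. -/
def S_Cell : Prop := ∀ (J : Type) (F : FD J) (G : Set (Vx J)) (u : Un J), Frm F → SIF F →
  Val F G u → Disc F.Γ (F.cell u) ∧ (F.cell u).I = F.CI u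

/-- Package Un1. -/
def S_Un1 : Prop := ∀ (J : Type) (F : FD J) (φ : Vx J → Vx J) (G : Set (Vx J)) (μ : J) (u : Un J),
  Frm F → SIF F → GS F φ G μ → Val F G u → Disc F.Γ (F.cell u) → (F.cell u).I = F.CI u →
  Adm F.Γ (F.cell u) (F.cellS G u) ∧
  ∀ o, Shp F.Γ (F.cell u) (F.cellS G u) o → CO1 F G u (F.outU u o)

/-- Package Un2. -/
def S_Un2 : Prop := S_T → S_Unh → ∀ (J : Type) (F : FD J) (G : Set (Vx J)) (u : Un J)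
  (o : OD (Vx J)), Frm F → G ⊆ F.LA → Val F G u → Disc F.Γ (F.cell u) →
  (F.cell u).I = F.CI u → Out F.Γ (F.cell u) (F.cellS G u) o → CO1 F G u (F.outU u o) →
  CO2 F G u (F.outU u o)

/-- Package Iso. -/
def S_Iso : Prop := ∀ (J : Type) (F : FD J) (G : Set (Vx J)), Frm F →
  (∀ a, ∀ x ∈ G, tr a x ∈ G) → Iso F G

/-- Package Sol: equivariant choice and the fixed point. -/
def S_Sol : Prop := ∀ (J : Type) (F : FD J) (φ : Vx J → Vx J) (G : Set (Vx J)) (μ : J),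
  Frm F → SIF F → PH F φ → GS F φ G μ → Iso F G →
  (∀ u, Val F G u → ∃ O, CO1 F G u O ∧ CO2 F G u O) → ∃ Q O, Sol F G Q O

/-- Package Prt. -/
def S_Prt : Prop := S_Cell → ∀ (J : Type) [Fintype J] (F : FD J) (G : Set (Vx J)) (Q : Set (Un J))
  (O : Un J → Set (Un J)), Frm F → SIF F → Sol F G Q O →
  Prt F Q O ∧ ∀ u1 ∈ Q, ∀ u2 ∈ Q, u1 ≠ u2 → F.f u1.s = F.f u2.s →
    ¬ Touch F.Γ (F.CI u1) (F.CI u2)

/-- Package Skl. -/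
def S_Skl : Prop := ∀ (J : Type) (F : FD J) (φ : Vx J → Vx J) (G : Set (Vx J)) (μ : J)
  (Q : Set (Un J)) (O : Un J → Set (Un J)), Frm F → SIF F → PH F φ → GS F φ G μ → Iso F G →
  Sol F G Q O → Prt F Q O →
  (∀ u1 ∈ Q, ∀ u2 ∈ Q, u1 ≠ u2 → F.f u1.s = F.f u2.s → ¬ Touch F.Γ (F.CI u1) (F.CI u2)) →
  ∃ nx pv, Skl F G Q nx pv

/-- Package Bit. -/
def S_Bit : Prop := ∀ (J : Type) (K G C : Set (Vx J)) (nx pv : Vx J → Vx J), Cyc K G C nx pv →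
  ∃ bit A, Bit K G C nx bit A

/-- Package Fin0: the colouring. -/
def S_Fin0 : Prop := S_PG → ∀ (J : Type) (F : FD J) (φ : Vx J → Vx J) (G : Set (Vx J)) (μ : J)
  (Q : Set (Un J)) (O : Un J → Set (Un J)) (nx pv : Vx J → Vx J) (bit : J → Bool) (A : Set J),
  Frm F → PH F φ → GS F φ G μ → Iso F G → Sol F G Q O → Prt F Q O → Skl F G Q nx pv →
  Bit {v | ∃ j, v ∈ F.SK Q j} G (F.CS G Q) nx bit A → ∃ c, Col1 F.Γ {μ} c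

/-- The result. -/
def S_A2 : Prop := ∀ (V : Type) [Fintype V] (G : SimpleGraph V), Tor G →
  ∃ Z : Finset V, Z.card ≤ 2 ∧ ∃ c : V → Fin 4, ∀ v, v ∉ Z →
    {u | G.Adj v u ∧ u ∉ Z ∧ c u = c v}.ncard ≤ 1

/-- Package Fin. -/
def S_Fin : Prop := S_Base →
  (∀ (J : Type) [Fintype J] (Γ : SimpleGraph (Vx J)), Nonempty J → Good Γ →
    ∃ μ1 μ2 c, Col1 Γ {μ1, μ2} c) → S_A2

end Pool.Agent.P.MP_08fd93_co.OV
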