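import Pool.Agent.P.MP_08fd93_co.OV.Base
import Pool.Agent.P.MP_08fd93_co.OV.St2

/-! Toolbox for the periodic part of project OV. -/

set_option autoImplicit false

namespace Pool.Agent.P.MP_08fd93_co.OV

section General

variable {W : Type} {H : SimpleGraph W}

theorem reach_of_conn {A : Set W} {x y : W} (h : Conn H A x y) : H.Reachable x y :=
  h.ind (p := fun v => H.Reachable x v) (SimpleGraph.Reachable.refl x)
    fun _ _ _ _ e hu => hu.trans e.reachable

theorem reach (h : Pl H Set.univ) (x y : W) : H.Reachable x y :=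
  reach_of_conn (h.conn x trivial y trivial)

theorem connected (h : Pl H Set.univ) (x : W) : H.Connected :=
  haveI : Nonempty W := ⟨x⟩
  ⟨fun u v => reach h u v⟩

theorem dist_tri (h : Pl H Set.univ) (x y z : W) : H.dist x z ≤ H.dist x y + H.dist y z :=
  (connected h x).dist_triangle

theorem dist_adj {x y : W} (e : H.Adj x y) : H.dist x y = 1 :=
  SimpleGraph.dist_eq_one_iff_adj.2 e

theorem dist_zero (h : Pl H Set.univ) {x y : W} (e : H.dist x y = 0) : x = y :=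
  ((connected h x).dist_eq_zero_iff).1 e

/-- one step along a shortest walk -/
theorem dist_step (h : Pl H Set.univ) {x y : W} {n : ℕ} (e : H.dist x y = n + 1) :
    ∃ z, H.Adj z y ∧ H.dist x z = n := by
  obtain ⟨p, hp⟩ := (reach h y x).exists_walk_length_eq_dist
  rw [SimpleGraph.dist_comm, e] at hp
  cases p with
  | nil => simp at hp
  | @cons _ z _ ed q =>
    refine ⟨z, ed.symm, le_antisymm ?_ ?_⟩
    · have := SimpleGraph.dist_le q
      rw [SimpleGraph.dist_comm]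
      simp only [SimpleGraph.Walk.length_cons] at hp
      omega
    · have := dist_tri h x z y
      rw [dist_adj ed.symm] at this
      omega

/-- maps that send edges to edges or collapse them do not increase distances -/
theorem dist_map {W' : Type} {H' : SimpleGraph W'} (h : Pl H Set.univ) (h' : Pl H' Set.univ)
    (π : W → W') (hπ : ∀ x y, H.Adj x y → π x = π y ∨ H'.Adj (π x) (π y)) (x y : W) :
    H'.dist (π x) (π y) ≤ H.dist x y := by
  generalize hn : H.dist x y = n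
  induction n generalizing y with
  | zero => rw [dist_zero h hn, SimpleGraph.dist_self]
  | succ n ih =>
    obtain ⟨z, e, hz⟩ := dist_step h hn
    have h1 := ih z hz
    rcases hπ z y e with h2 | h2
    · rw [← h2]; omega
    · have := dist_tri h' (π x) (π z) (π y)
      rw [dist_adj h2] at this
      omega

/-- a function that changes by at most one along edges is bounded by the distance -/
theorem lip_dist (h : Pl H Set.univ) (f : W → ℤ) (hf : ∀ x y, H.Adj x y → f y ≤ f x + 1)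
    (x y : W) : f y ≤ f x + (H.dist x y : ℤ) := by
  generalize hn : H.dist x y = n
  induction n generalizing y with
  | zero => rw [dist_zero h hn]; simp
  | succ n ih =>
    obtain ⟨z, e, hz⟩ := dist_step h hn
    have h1 := ih z hz
    have h2 := hf z y e
    push_cast
    omega

end General

variable {J : Type}

theorem tr_tr (a b : ℤ × ℤ) (w : Vx J) : tr a (tr b w) = tr (b + a) w := by simp [tr, add_assoc]

theorem tr_zero (w : Vx J) : tr 0 w = w := by simp [tr]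

theorem tr_fst (a : ℤ × ℤ) (w : Vx J) : (tr a w).1 = w.1 := rfl

theorem tr_snd (a : ℤ × ℤ) (w : Vx J) : (tr a w).2 = w.2 + a := rfl

theorem tr_neg (a : ℤ × ℤ) (w : Vx J) : tr (-a) (tr a w) = w := by simp [tr]

theorem tr_neg' (a : ℤ × ℤ) (w : Vx J) : tr a (tr (-a) w) = w := by simp [tr]

theorem tr_comm (a b : ℤ × ℤ) (w : Vx J) : tr a (tr b w) = tr b (tr a w) := by
  rw [tr_tr, tr_tr, add_comm]

theorem tr_inj (a : ℤ × ℤ) : Function.Injective (tr a : Vx J → Vx J) := fun x y h => by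
  rw [← tr_neg a x, h, tr_neg]

theorem tr_eq_self {a : ℤ × ℤ} {w : Vx J} (h : tr a w = w) : a = 0 := by
  have := congrArg Prod.snd h
  simpa [tr] using this

theorem tr_eq_tr {a b : ℤ × ℤ} {w : Vx J} (h : tr a w = tr b w) : a = b := by
  have := congrArg Prod.snd h
  simpa [tr] using this

theorem eq_tr {x y : Vx J} (h : x.1 = y.1) : y = tr (y.2 - x.2) x := by
  ext <;> simp [tr, h]

theorem mem_tr_image {a : ℤ × ℤ} {A : Set (Vx J)} {x : Vx J} : tr a x ∈ tr a '' A ↔ x ∈ A :=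
  (tr_inj a).mem_set_image

variable {Γ : SimpleGraph (Vx J)}

theorem Fine.adj_tr (h : Fine Γ) (a : ℤ × ℤ) (x y : Vx J) :
    Γ.Adj (tr a x) (tr a y) ↔ Γ.Adj x y :=
  ⟨fun e => by simpa only [tr_neg] using h.inv (-a) _ _ e, h.inv a x y⟩

theorem Fine.conn_tr (h : Fine Γ) (a : ℤ × ℤ) {A B : Set (Vx J)} (hAB : ∀ x ∈ A, tr a x ∈ B)
    {x y : Vx J} (hc : Conn Γ A x y) : Conn Γ B (tr a x) (tr a y) :=
  hc.ind (p := fun v => Conn Γ B (tr a x) (tr a v)) Conn.rfl'
    fun u v hu hv e hh => hh.snoc (hAB u hu) (hAB v hv) (h.inv a u v e)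

theorem Fine.isConn_tr (h : Fine Γ) (a : ℤ × ℤ) {A : Set (Vx J)} (hA : IsConn Γ A) :
    IsConn Γ (tr a '' A) := by
  rintro _ ⟨x, hx, rfl⟩ _ ⟨y, hy, rfl⟩
  exact h.conn_tr a (fun z hz => Set.mem_image_of_mem _ hz) (hA x hx y hy)

theorem Fine.dist_tr (h : Fine Γ) (a : ℤ × ℤ) (x y : Vx J) :
    Γ.dist (tr a x) (tr a y) = Γ.dist x y := by
  refine le_antisymm (dist_map h.pl h.pl (tr a) (fun u v e => Or.inr (h.inv a u v e)) x y) ?_
  simpa only [tr_neg] using
    dist_map h.pl h.pl (tr (-a)) (fun u v e => Or.inr (h.inv (-a) u v e)) (tr a x) (tr a y)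

/-- invariance under `g` gives invariance under all multiples of `g` -/
theorem inv_zsmul {g : ℤ × ℤ} {A : Set (Vx J)} (h : ∀ x, tr g x ∈ A ↔ x ∈ A) (k : ℤ) (x : Vx J) :
    tr (k • g) x ∈ A ↔ x ∈ A := by
  induction k using Int.induction_on generalizing x with
  | zero => rw [zero_smul, tr_zero]
  | succ k ih => rw [add_smul, one_smul, ← tr_tr, h, ih]
  | pred k ih => rw [← h, tr_tr, sub_smul, one_smul, sub_add_cancel, ih]

/-- a finite set meets only finitely many of the translates of a finite set by multiples of `g` -/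
theorem finite_meet {g : ℤ × ℤ} (hg : g ≠ 0) {A B : Set (Vx J)} (hA : A.Finite) (hB : B.Finite) :
    {k : ℤ | ∃ x ∈ A, tr (k • g) x ∈ B}.Finite := by
  have : {k : ℤ | ∃ x ∈ A, tr (k • g) x ∈ B} ⊆ ⋃ x ∈ A, ⋃ y ∈ B, {k : ℤ | tr (k • g) x = y} := by
    rintro k ⟨x, hx, hk⟩
    simp only [Set.mem_iUnion]
    exact ⟨x, hx, _, hk, rfl⟩
  refine (hA.biUnion fun x _ => hB.biUnion fun y _ => Set.Subsingleton.finite ?_).subset this
  intro k hk k' hk'
  have h1 : k • g = k' • g := tr_eq_tr (hk.trans hk'.symm)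
  exact smul_left_injective ℤ hg h1

section Frame

variable {F : FD J}

theorem Frm.fine (h : Frm F) : Fine F.Γ := h.pot.fine

theorem Frm.pl (h : Frm F) : Pl F.Γ Set.univ := h.pot.fine.pl

theorem Frm.l_mem (h : Frm F) (j i : ℤ) : F.l j i ∈ F.L j := (h.mem j _).2 ⟨i, rfl⟩

theorem Frm.f_l (h : Frm F) (j i : ℤ) : F.f (F.l j i) = j := h.uf.lf j _ (h.l_mem j i)

theorem Frm.l_rho (h : Frm F) {j : ℤ} {x : Vx J} (hx : x ∈ F.L j) : F.l j (F.ρ x) = x := by
  obtain ⟨i, rfl⟩ := (h.mem j x).1 hx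
  rw [h.rho]

theorem Frm.inj (h : Frm F) {j : ℤ} {x y : Vx J} (hx : x ∈ F.L j) (hy : y ∈ F.L j)
    (e : F.ρ x = F.ρ y) : x = y := by
  rw [← h.l_rho hx, ← h.l_rho hy, e]

theorem Frm.adj_iff (h : Frm F) {j : ℤ} {x y : Vx J} (hx : x ∈ F.L j) (hy : y ∈ F.L j) :
    F.Γ.Adj x y ↔ F.ρ y = F.ρ x + 1 ∨ F.ρ x = F.ρ y + 1 := by
  rw [← h.adj j, h.l_rho hx, h.l_rho hy]

theorem Frm.la (h : Frm F) {j : ℤ} {x : Vx J} (hx : x ∈ F.L j) : x ∈ F.LA := by
  show x ∈ F.L (F.f x)
  rwa [h.uf.lf j x hx]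

theorem Frm.nx_l (h : Frm F) (j i : ℤ) : F.nx (F.l j i) = F.l j (i + 1) := by
  rw [FD.nx, h.f_l, h.rho]

theorem Frm.nx_mem (h : Frm F) {j : ℤ} {x : Vx J} (hx : x ∈ F.L j) :
    F.nx x ∈ F.L j ∧ F.ρ (F.nx x) = F.ρ x + 1 ∧ F.Γ.Adj x (F.nx x) := by
  obtain ⟨i, rfl⟩ := (h.mem j x).1 hx
  rw [h.nx_l, h.rho, h.rho]
  exact ⟨h.l_mem _ _, rfl, (h.adj j _ _).2 (Or.inl rfl)⟩

theorem Frm.an_mem (h : Frm F) {j : ℤ} {x : Vx J} (hx : x ∈ F.L j) : F.an x ∈ F.L (j - 1) :=
  h.uf.lan j x (h.uf.lu j hx) (h.uf.lf j x hx)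

/-- a translation shifts the order of a level by a constant -/
theorem Frm.rho_tr (h : Frm F) (a : ℤ × ℤ) (j : ℤ) :
    ∃ κ, ∀ x ∈ F.L j, tr a x ∈ F.L (j + F.η a) ∧ F.ρ (tr a x) = F.ρ x + κ := by
  obtain ⟨κ, hκ⟩ := h.ltr a j
  refine ⟨κ, fun x hx => ?_⟩
  obtain ⟨i, rfl⟩ := (h.mem j x).1 hx
  rw [hκ, h.rho, h.rho]
  exact ⟨h.l_mem _ _, rfl⟩

theorem Frm.nx_tr (h : Frm F) (a : ℤ × ℤ) {j : ℤ} {x : Vx J} (hx : x ∈ F.L j) :
    F.nx (tr a x) = tr a (F.nx x) := by
  obtain ⟨κ, hκ⟩ := h.ltr a j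
  obtain ⟨i, rfl⟩ := (h.mem j x).1 hx
  rw [h.nx_l, hκ, hκ, h.nx_l, add_right_comm]

theorem Frm.eta_w (h : Frm F) (k : ℤ) : F.η (k • F.w) = 0 := (h.pot.ker _).2 ⟨k, rfl⟩

theorem Frm.lw_int (h : Frm F) (k j i : ℤ) :
    tr (k • F.w) (F.l j i) = F.l j (i + k * F.nn j) := by
  induction k using Int.induction_on generalizing i with
  | zero => simp [tr_zero]
  | succ k ih => rw [add_smul, one_smul, ← tr_tr, ih, h.lw]; congr 1; ring
  | pred k ih =>
    apply tr_inj F.w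
    rw [tr_tr, sub_smul, one_smul, sub_add_cancel, ih, h.lw]
    congr 1
    ring

/-- an interval of a level line is connected -/
theorem Frm.seg_conn (h : Frm F) (j : ℤ) {p : ℤ → Prop}
    (hp : ∀ a b c, p a → p c → a ≤ b → b ≤ c → p b) :
    IsConn F.Γ {x | x ∈ F.L j ∧ p (F.ρ x)} := by
  have key : ∀ (n : ℕ) (i : ℤ), p i → p (i + n) →
      Conn F.Γ {x | x ∈ F.L j ∧ p (F.ρ x)} (F.l j i) (F.l j (i + n)) := by
    intro n
    induction n with
    | zero => intro i _ _; simpa using Conn.rfl'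
    | succ n ih =>
      intro i h1 h2
      have h3 : p (i + n) := hp _ _ _ h1 h2 (by omega) (by push_cast; omega)
      refine (ih i h1 h3).snoc ⟨h.l_mem _ _, by rwa [h.rho]⟩ ⟨h.l_mem _ _, by rwa [h.rho]⟩ ?_
      exact (h.adj j _ _).2 (Or.inl (by push_cast; ring))
  intro x hx y hy
  rw [← h.l_rho hx.1, ← h.l_rho hy.1]
  rcases le_total (F.ρ x) (F.ρ y) with l | l
  · have := key (F.ρ y - F.ρ x).toNat (F.ρ x) hx.2 (by convert hy.2 using 1; omega)
    rwa [show F.ρ x + ((F.ρ y - F.ρ x).toNat : ℤ) = F.ρ y by omega] at this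
  · have := key (F.ρ x - F.ρ y).toNat (F.ρ y) hy.2 (by convert hx.2 using 1; omega)
    rw [show F.ρ y + ((F.ρ x - F.ρ y).toNat : ℤ) = F.ρ x by omega] at this
    exact this.symm

/-- a level vertex is not in the part above its level -/
theorem Frm.l_not_u (_ : Frm F) {j : ℤ} {x : Vx J} (hx : x ∈ F.L j) : x ∉ F.U (j + 1) := hx.2

theorem Un.act_zero (u : Un J) : u.act 0 = u := by
  ext <;> simp [Un.act, tr]

theorem Un.act_act (a b : ℤ × ℤ) (u : Un J) : (u.act b).act a = u.act (b + a) := by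
  simp only [Un.act, tr_tr, Set.image_image]

end Frame

end Pool.Agent.P.MP_08fd93_co.OV
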