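import Pool.Agent.P.MP_08fd93_co.OV.St1

/-! Toolbox A for project OV: connectivity, minors, attachments, paths. -/

set_option autoImplicit false

namespace Pool.Agent.P.MP_08fd93_co

variable {W : Type} {H : SimpleGraph W}

theorem Conn.rfl' {A : Set W} {x : W} : Conn H A x x := Relation.ReflTransGen.refl

theorem Conn.symm {A : Set W} {x y : W} (h : Conn H A x y) : Conn H A y x := by
  induction h with
  | refl => exact Relation.ReflTransGen.refl
  | tail _ h ih => exact Relation.ReflTransGen.head ⟨h.2.1, h.1, h.2.2.symm⟩ ih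

theorem Conn.trans {A : Set W} {x y z : W} (h : Conn H A x y) (h' : Conn H A y z) :
    Conn H A x z := Relation.ReflTransGen.trans h h'

theorem Conn.step {A : Set W} {x y : W} (hx : x ∈ A) (hy : y ∈ A) (h : H.Adj x y) :
    Conn H A x y := Relation.ReflTransGen.single ⟨hx, hy, h⟩

theorem Conn.snoc {A : Set W} {x y z : W} (h : Conn H A x y) (hy : y ∈ A) (hz : z ∈ A)
    (e : H.Adj y z) : Conn H A x z := Relation.ReflTransGen.tail h ⟨hy, hz, e⟩

theorem Conn.mem {A : Set W} {x y : W} (h : Conn H A x y) (hx : x ∈ A) : y ∈ A := by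
  induction h with
  | refl => exact hx
  | tail _ h _ => exact h.2.1

theorem Conn.up {R S : Set W} {x y : W} (h : Conn H R x y) (hRS : R ⊆ S) : Conn H S x y := by
  induction h with
  | refl => exact Relation.ReflTransGen.refl
  | tail _ h2 ih => exact ih.tail ⟨hRS h2.1, hRS h2.2.1, h2.2.2⟩

/-- a walk stays inside any set that contains everything reachable -/
theorem Conn.sub {R S : Set W} {x y : W} (h : Conn H R x y) (hS : ∀ w, Conn H R x w → w ∈ S) :
    Conn H S x y := by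
  induction h with
  | refl => exact Relation.ReflTransGen.refl
  | tail h1 h2 ih => exact ih.tail ⟨hS _ h1, hS _ (h1.tail h2), h2.2.2⟩

/-- a property that passes along edges of `A` passes along walks -/
theorem Conn.ind {A : Set W} {x y : W} (h : Conn H A x y) {p : W → Prop} (hx : p x)
    (hp : ∀ u v, u ∈ A → v ∈ A → H.Adj u v → p u → p v) : p y := by
  induction h with
  | refl => exact hx
  | tail _ h2 ih => exact hp _ _ h2.1 h2.2.1 h2.2.2 ih

/-- the first exit from `R` -/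
theorem Conn.exit {A R : Set W} {x y : W} (h : Conn H A x y) (hx : x ∈ R) (hy : y ∉ R) :
    ∃ u v, Conn H (A ∩ R) x u ∧ u ∈ A ∧ u ∈ R ∧ H.Adj u v ∧ v ∈ A ∧ v ∉ R := by
  have key : (Conn H (A ∩ R) x y ∧ y ∈ R) ∨
      ∃ u v, Conn H (A ∩ R) x u ∧ u ∈ A ∧ u ∈ R ∧ H.Adj u v ∧ v ∈ A ∧ v ∉ R := by
    clear hy
    induction h with
    | refl => exact Or.inl ⟨Conn.rfl', hx⟩
    | @tail u v _ h2 ih =>
      rcases ih with ih | ih
      · by_cases hv : v ∈ R
        · exact Or.inl ⟨ih.1.snoc ⟨h2.1, ih.2⟩ ⟨h2.2.1, hv⟩ h2.2.2, hv⟩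
        · exact Or.inr ⟨u, v, ih.1, h2.1, ih.2, h2.2.2, h2.2.1, hv⟩
      · exact Or.inr ih
  exact key.resolve_left fun h => hy h.2

/-- the first step of a walk between different vertices -/
theorem Conn.first {A : Set W} {x y : W} (h : Conn H A x y) (hxy : x ≠ y) :
    ∃ z ∈ A, H.Adj x z := by
  obtain ⟨u, v, _, _, hu, e, hv, _⟩ := h.exit (R := {x}) rfl (fun h => hxy h.symm)
  rw [Set.mem_singleton_iff] at hu
  exact ⟨v, hv, hu ▸ e⟩

theorem isConn_of {A : Set W} (r : W) (h : ∀ x ∈ A, Conn H A x r) : IsConn H A :=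
  fun x hx y hy => (h x hx).trans (h y hy).symm

theorem isConn_single (x : W) : IsConn H {x} := by
  rintro _ rfl _ rfl
  exact Conn.rfl'

theorem isConn_empty : IsConn H (∅ : Set W) := fun _ h => h.elim

theorem isConn_comp (R : Set W) (x : W) : IsConn H {y | Conn H R x y} :=
  isConn_of x fun _ hy => (hy.sub fun _ hw => hw).symm

/-- `A` is connected if it contains a connected set `B` that every vertex of `A` reaches -/
theorem isConn_base {A B : Set W} (hB : IsConn H B) (hBA : B ⊆ A)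
    (h : ∀ x ∈ A, ∃ y ∈ B, Conn H A x y) : IsConn H A := by
  intro x hx y hy
  obtain ⟨u, hu, h1⟩ := h x hx
  obtain ⟨v, hv, h2⟩ := h y hy
  exact (h1.trans ((hB u hu v hv).up hBA)).trans h2.symm

theorem Touch.symm {A B : Set W} (h : Touch H A B) : Touch H B A := by
  obtain ⟨a, ha, b, hb, h⟩ := h
  exact ⟨b, hb, a, ha, h.symm⟩

theorem Touch.up {A B A' B' : Set W} (h : Touch H A B) (h1 : A ⊆ A') (h2 : B ⊆ B') :
    Touch H A' B' := by
  obtain ⟨a, ha, b, hb, h⟩ := h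
  exact ⟨a, h1 ha, b, h2 hb, h⟩

theorem IsConn.union {A B : Set W} (hA : IsConn H A) (hB : IsConn H B) (h : Touch H A B) :
    IsConn H (A ∪ B) := by
  obtain ⟨a, ha, b, hb, hab⟩ := h
  refine isConn_base hA Set.subset_union_left ?_
  rintro x (hx | hx)
  · exact ⟨x, hx, Conn.rfl'⟩
  · exact ⟨a, ha, ((hB x hx b hb).up Set.subset_union_right).snoc (Or.inr hb) (Or.inl ha) hab.symm⟩

/-- adding neighbours keeps a set connected -/
theorem IsConn.union_nb {A B : Set W} (hA : IsConn H A) (hB : B ⊆ Nb H A) : IsConn H (A ∪ B) := by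
  refine isConn_base hA Set.subset_union_left ?_
  rintro x (hx | hx)
  · exact ⟨x, hx, Conn.rfl'⟩
  · obtain ⟨a, ha, e⟩ := hB hx
    exact ⟨a, ha, Conn.step (Or.inr hx) (Or.inl ha) e⟩

/-- a finite connected set that carries a walk -/
theorem Conn.fin {A : Set W} {x y : W} (h : Conn H A x y) (hx : x ∈ A) :
    ∃ P : Set W, P ⊆ A ∧ P.Finite ∧ IsConn H P ∧ x ∈ P ∧ y ∈ P := by
  induction h with
  | refl => exact ⟨{x}, by simpa using hx, Set.finite_singleton _, isConn_single _, rfl, rfl⟩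
  | @tail u v _ h2 ih =>
    obtain ⟨P, h1, h3, h4, h5, h6⟩ := ih
    refine ⟨P ∪ {v}, ?_, h3.union (Set.finite_singleton _), h4.union_nb ?_, Or.inl h5, Or.inr rfl⟩
    · rintro w (hw | rfl)
      exacts [h1 hw, h2.2.1]
    · rintro w rfl
      exact ⟨u, h6, h2.2.2.symm⟩

theorem Conn.walk {A : Set W} {x y : W} (h : Conn H A x y) (hx : x ∈ A) :
    ∃ (n : ℕ) (p : ℕ → W), p 0 = x ∧ p n = y ∧ (∀ i, i ≤ n → p i ∈ A) ∧
      ∀ i, i < n → H.Adj (p i) (p (i + 1)) := by
  induction h with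
  | refl => exact ⟨0, fun _ => x, rfl, rfl, fun _ _ => hx, fun i hi => absurd hi (by omega)⟩
  | @tail u v _ h2 ih =>
    obtain ⟨n, p, h0, hn, hA, hadj⟩ := ih
    refine ⟨n + 1, fun i => if i ≤ n then p i else v, by simpa using h0, by simp, fun i _ => ?_,
      fun i hi => ?_⟩ <;> beta_reduce
    · split_ifs with h
      exacts [hA i h, h2.2.1]
    · by_cases h : i < n
      · rw [if_pos h.le, if_pos (by omega)]
        exact hadj i h
      · obtain rfl : i = n := by omega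
        rw [if_pos le_rfl, if_neg (by omega), hn]
        exact h2.2.2

namespace OV

theorem k33 (h : Pl H Set.univ) {x0 x1 x2 y0 y1 y2 : Set W}
    (c0 : IsConn H x0) (c1 : IsConn H x1) (c2 : IsConn H x2)
    (e0 : IsConn H y0) (e1 : IsConn H y1) (e2 : IsConn H y2)
    (d01 : Disjoint x0 x1) (d02 : Disjoint x0 x2) (d12 : Disjoint x1 x2)
    (f01 : Disjoint y0 y1) (f02 : Disjoint y0 y2) (f12 : Disjoint y1 y2)
    (g0 : Disjoint x0 y0 ∧ Disjoint x0 y1 ∧ Disjoint x0 y2)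
    (g1 : Disjoint x1 y0 ∧ Disjoint x1 y1 ∧ Disjoint x1 y2)
    (g2 : Disjoint x2 y0 ∧ Disjoint x2 y1 ∧ Disjoint x2 y2)
    (t0 : Touch H x0 y0 ∧ Touch H x0 y1 ∧ Touch H x0 y2)
    (t1 : Touch H x1 y0 ∧ Touch H x1 y1 ∧ Touch H x1 y2)
    (t2 : Touch H x2 y0 ∧ Touch H x2 y1 ∧ Touch H x2 y2) : False := by
  refine h.k33 ⟨![x0, x1, x2], ![y0, y1, y2], fun i => ?_, fun i j hij => ?_, fun i j => ?_⟩
  · fin_cases i
    · exact ⟨Set.subset_univ _, c0, Set.subset_univ _, e0⟩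
    · exact ⟨Set.subset_univ _, c1, Set.subset_univ _, e1⟩
    · exact ⟨Set.subset_univ _, c2, Set.subset_univ _, e2⟩
  · fin_cases i <;> fin_cases j
    exacts [absurd rfl hij, ⟨d01, f01⟩, ⟨d02, f02⟩, ⟨d01.symm, f01.symm⟩, absurd rfl hij,
      ⟨d12, f12⟩, ⟨d02.symm, f02.symm⟩, ⟨d12.symm, f12.symm⟩, absurd rfl hij]
  · fin_cases i <;> fin_cases j
    exacts [⟨g0.1, t0.1⟩, ⟨g0.2.1, t0.2.1⟩, ⟨g0.2.2, t0.2.2⟩, ⟨g1.1, t1.1⟩, ⟨g1.2.1, t1.2.1⟩,
      ⟨g1.2.2, t1.2.2⟩, ⟨g2.1, t2.1⟩, ⟨g2.2.1, t2.2.1⟩, ⟨g2.2.2, t2.2.2⟩]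

theorem k5 (h : Pl H Set.univ) {x0 x1 x2 x3 x4 : Set W}
    (c0 : IsConn H x0) (c1 : IsConn H x1) (c2 : IsConn H x2) (c3 : IsConn H x3)
    (c4 : IsConn H x4)
    (d01 : Disjoint x0 x1 ∧ Touch H x0 x1) (d02 : Disjoint x0 x2 ∧ Touch H x0 x2)
    (d03 : Disjoint x0 x3 ∧ Touch H x0 x3) (d04 : Disjoint x0 x4 ∧ Touch H x0 x4)
    (d12 : Disjoint x1 x2 ∧ Touch H x1 x2) (d13 : Disjoint x1 x3 ∧ Touch H x1 x3)
    (d14 : Disjoint x1 x4 ∧ Touch H x1 x4) (d23 : Disjoint x2 x3 ∧ Touch H x2 x3)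
    (d24 : Disjoint x2 x4 ∧ Touch H x2 x4) (d34 : Disjoint x3 x4 ∧ Touch H x3 x4) : False := by
  have fl : ∀ {A B : Set W}, Disjoint A B ∧ Touch H A B → Disjoint B A ∧ Touch H B A :=
    fun h => ⟨h.1.symm, h.2.symm⟩
  refine h.k5 ⟨![x0, x1, x2, x3, x4], fun i => ?_, fun i j hij => ?_⟩
  · fin_cases i
    · exact ⟨Set.subset_univ _, c0⟩
    · exact ⟨Set.subset_univ _, c1⟩
    · exact ⟨Set.subset_univ _, c2⟩
    · exact ⟨Set.subset_univ _, c3⟩
    · exact ⟨Set.subset_univ _, c4⟩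
  · fin_cases i <;> fin_cases j
    exacts [absurd rfl hij, d01, d02, d03, d04, fl d01, absurd rfl hij, d12, d13, d14,
      fl d02, fl d12, absurd rfl hij, d23, d24, fl d03, fl d13, fl d23, absurd rfl hij, d34,
      fl d04, fl d14, fl d24, fl d34, absurd rfl hij]

/-- boundary connectivity for a finite set `B` -/
theorem tim (h : Pl H Set.univ) {A B : Set W} (hd : Disjoint A B) (hA : IsConn H A)
    (hB : IsConn H B) (hf : B.Finite) {x y : W} (hx : x ∈ Nb H B) (hy : y ∈ Nb H B)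
    (hx' : x ∉ A ∪ B) (hc : Conn H (A ∪ B)ᶜ x y) : Conn H (Nb H B \ (A ∪ B)) x y := by
  have := h.tim A B (Set.subset_univ _) (Set.subset_univ _) hd hA hB (Or.inl hf) x y hx hy
    ⟨trivial, hx'⟩ (hc.up fun w hw => ⟨trivial, hw⟩)
  exact this.up fun w hw => ⟨hw.1.2, hw.2⟩

/-- every attachment of a finite connected part without junk has two neighbours among the
attachments, if all attachments touch a connected set `Z` elsewhere -/
theorem att2 (h : Pl H Set.univ) {I E Z : Set W} (hI : NJ H I) (hEI : E ⊆ I) (hf : E.Finite)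
    (hne : E.Nonempty) (hE : IsConn H E) (hZ : IsConn H Z) (hZE : Disjoint Z E)
    (hZa : Disjoint Z (Nb H E \ E)) (ha : Nb H E \ E ⊆ Nb H Z) :
    (Nb H E \ E).Nonempty ∧ ∀ r ∈ Nb H E \ E, ∃ y ∈ Nb H E \ E, ∃ z ∈ Nb H E \ E,
      y ≠ z ∧ H.Adj r y ∧ H.Adj r z := by
  have key : ∀ A : Set W, IsConn H A → A ⊆ Nb H E \ E → ∀ x ∈ Nb H E \ E, ∀ y ∈ Nb H E \ E,
      x ∉ A → y ∉ A → Conn H (Nb H E \ (A ∪ E)) x y := by
    intro A hA hAs x hx y hy hxA hyA
    refine tim h (Set.disjoint_left.2 fun w hw hw' => (hAs hw).2 hw') hA hE hf hx.1 hy.1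
      (fun hh => hh.elim hxA hx.2) ?_
    obtain ⟨zx, hzx, ex⟩ := ha hx
    obtain ⟨zy, hzy, ey⟩ := ha hy
    have hs : Z ⊆ (A ∪ E)ᶜ := fun w hw hh => hh.elim
      (fun hh => Set.disjoint_left.1 hZa hw (hAs hh)) (Set.disjoint_left.1 hZE hw)
    exact ((Conn.step (fun hh => hh.elim hxA hx.2) (hs hzx) ex).trans
      ((hZ zx hzx zy hzy).up hs)).snoc (hs hzy) (fun hh => hh.elim hyA hy.2) ey.symm
  obtain ⟨e0, he0⟩ := hne
  refine ⟨?_, fun r hr => ?_⟩
  · by_contra hc
    refine hI E hEI hf ⟨e0, he0⟩ e0 e0 (Or.inl rfl) fun w hw => Or.inl ?_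
    by_contra hw'
    exact hc ⟨w, hw, hw'⟩
  · have h1 : ∃ y ∈ Nb H E \ E, H.Adj r y := by
      by_contra hc
      refine hI E hEI hf ⟨e0, he0⟩ r r (Or.inl rfl) fun w hw => ?_
      by_contra hw'
      have hwE : w ∉ E := fun hh => hw' (Or.inl hh)
      have hwr : r ≠ w := fun hh => hw' (Or.inr (by simp [hh]))
      obtain ⟨z, hz, e⟩ := (key ∅ isConn_empty (Set.empty_subset _) r hr w ⟨hw, hwE⟩
        (fun h => h) (fun h => h)).first hwr
      exact hc ⟨z, ⟨hz.1, fun hh => hz.2 (Or.inr hh)⟩, e⟩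
    obtain ⟨y, hy, ey⟩ := h1
    by_contra hc
    refine hI E hEI hf ⟨e0, he0⟩ r y (Or.inr ey) fun w hw => ?_
    by_contra hw'
    have hwE : w ∉ E := fun hh => hw' (Or.inl hh)
    have hwr : r ≠ w := fun hh => hw' (Or.inr (by simp [hh]))
    have hwy : w ≠ y := fun hh => hw' (Or.inr (by simp [hh]))
    obtain ⟨z, hz, e⟩ := (key {y} (isConn_single y) (by simpa using hy) r hr w ⟨hw, hwE⟩
      ey.ne hwy).first hwr
    exact hc ⟨y, hy, z, ⟨hz.1, fun hh => hz.2 (Or.inr hh)⟩,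
      fun hh => hz.2 (Or.inl hh.symm), ey, e⟩

theorem NJ.mono {I I' : Set W} (h : NJ H I) (hs : I' ⊆ I) : NJ H I' :=
  fun D hD => h D (hD.trans hs)

/-- the boundary of a component of `R` lies outside `R` -/
theorem comp_nb {R : Set W} {x : W} (hx : x ∈ R) {z : W} (hz : z ∈ Nb H {y | Conn H R x y})
    (hzR : z ∈ R) : z ∈ {y | Conn H R x y} := by
  obtain ⟨y, hy, e⟩ := hz
  exact Conn.snoc hy (Conn.mem hy hx) hzR e.symm

/-! ### paths -/

section Path

variable {X : Set W} {ρ : W → ℤ} {a b : W}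

theorem Pth.lt_or (h : Pth H X ρ a b) {u v : W} (hu : u ∈ X) (hv : v ∈ X) (hne : u ≠ v) :
    ρ u < ρ v ∨ ρ v < ρ u := by
  have := mt (h.inj u hu v hv) hne
  omega

theorem Pth.lt_hi (h : Pth H X ρ a b) {u : W} (hu : u ∈ X) (hne : u ≠ b) : ρ u < ρ b := by
  have := mt (h.inj u hu b h.hb) hne
  have := h.hi u hu
  omega

theorem Pth.lo_lt (h : Pth H X ρ a b) {u : W} (hu : u ∈ X) (hne : u ≠ a) : ρ a < ρ u := by
  have := mt (h.inj u hu a h.ha) hne
  have := h.lo u hu
  omega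

/-- nothing lies strictly between adjacent vertices -/
theorem Pth.nb (h : Pth H X ρ a b) {u v x : W} (hu : u ∈ X) (hv : v ∈ X) (e : H.Adj u v)
    (hx : x ∈ X) : ¬ (ρ u < ρ x ∧ ρ x < ρ v) := by
  rintro ⟨h1, h2⟩
  have := (h.adj u hu v hv (by omega)).1 e x hx
  omega

/-- the successor of a vertex -/
theorem Pth.succ (h : Pth H X ρ a b) {u : W} (hu : u ∈ X) (hne : u ≠ b) :
    ∃ v ∈ X, ρ u < ρ v ∧ H.Adj u v ∧ ∀ x ∈ X, ρ u < ρ x → ρ v ≤ ρ x := by
  obtain ⟨v, hv, hm⟩ := Set.exists_min_image {x | x ∈ X ∧ ρ u < ρ x} ρ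
    (h.fin.subset fun _ hx => hx.1) ⟨b, h.hb, h.lt_hi hu hne⟩
  refine ⟨v, hv.1, hv.2, (h.adj u hu v hv.1 hv.2).2 fun x hx => ?_, fun x hx hl => hm x ⟨hx, hl⟩⟩
  by_cases hl : ρ u < ρ x
  · exact Or.inr (hm x ⟨hx, hl⟩)
  · exact Or.inl (by omega)

/-- the predecessor of a vertex -/
theorem Pth.pred (h : Pth H X ρ a b) {u : W} (hu : u ∈ X) (hne : u ≠ a) :
    ∃ v ∈ X, ρ v < ρ u ∧ H.Adj v u ∧ ∀ x ∈ X, ρ x < ρ u → ρ x ≤ ρ v := by
  obtain ⟨v, hv, hm⟩ := Set.exists_max_image {x | x ∈ X ∧ ρ x < ρ u} ρ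
    (h.fin.subset fun _ hx => hx.1) ⟨a, h.ha, h.lo_lt hu hne⟩
  refine ⟨v, hv.1, hv.2, (h.adj v hv.1 u hu hv.2).2 fun x hx => ?_, fun x hx hl => hm x ⟨hx, hl⟩⟩
  by_cases hl : ρ x < ρ u
  · exact Or.inl (hm x ⟨hx, hl⟩)
  · exact Or.inr (by omega)

/-- two upper neighbours are equal -/
theorem Pth.up_eq (h : Pth H X ρ a b) {u v v' : W} (hu : u ∈ X) (hv : v ∈ X) (hv' : v' ∈ X)
    (e : H.Adj u v) (e' : H.Adj u v') (l : ρ u < ρ v) (l' : ρ u < ρ v') : v = v' := by
  have h1 := h.nb hu hv e hv'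
  have h2 := h.nb hu hv' e' hv
  exact h.inj v hv v' hv' (by omega)

/-- two lower neighbours are equal -/
theorem Pth.dn_eq (h : Pth H X ρ a b) {u v v' : W} (hu : u ∈ X) (hv : v ∈ X) (hv' : v' ∈ X)
    (e : H.Adj u v) (e' : H.Adj u v') (l : ρ v < ρ u) (l' : ρ v' < ρ u) : v = v' := by
  have h1 := h.nb hv hu e.symm hv'
  have h2 := h.nb hv' hu e'.symm hv
  exact h.inj v hv v' hv' (by omega)

theorem Pth.no_tri (h : Pth H X ρ a b) {u v x : W} (hu : u ∈ X) (hv : v ∈ X) (hx : x ∈ X)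
    (e1 : H.Adj u v) (e2 : H.Adj v x) (e3 : H.Adj u x) : False := by
  have a1 := h.lt_or hu hv e1.ne
  have a2 := h.lt_or hv hx e2.ne
  have a3 := h.lt_or hu hx e3.ne
  have b1 := h.nb hu hv e1 hx
  have b2 := h.nb hv hu e1.symm hx
  have b3 := h.nb hv hx e2 hu
  have b4 := h.nb hx hv e2.symm hu
  have b5 := h.nb hu hx e3 hv
  have b6 := h.nb hx hu e3.symm hv
  omega

/-- a subset of the path that is closed under betweenness is connected -/
theorem Pth.seg_conn (h : Pth H X ρ a b) {A : Set W} (hA : A ⊆ X)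
    (hc : ∀ u ∈ A, ∀ v ∈ A, ∀ x ∈ X, ρ u < ρ x → ρ x < ρ v → x ∈ A) : IsConn H A := by
  have key : ∀ n : ℕ, ∀ u ∈ A, ∀ v ∈ A, ρ u ≤ ρ v → ρ v - ρ u ≤ n → Conn H A u v := by
    intro n
    induction n with
    | zero =>
      intro u hu v hv h1 h2
      obtain rfl := h.inj u (hA hu) v (hA hv) (by omega)
      exact Conn.rfl'
    | succ n ih =>
      intro u hu v hv h1 h2
      by_cases he : ρ u = ρ v
      · obtain rfl := h.inj u (hA hu) v (hA hv) he
        exact Conn.rfl'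
      · have hub : u ≠ b := by
          rintro rfl
          have := h.hi v (hA hv)
          omega
        obtain ⟨w, hw, l, e, hm⟩ := h.succ (hA hu) hub
        have hwv := hm v (hA hv) (by omega)
        have hwA : w ∈ A := by
          by_cases hh : ρ w = ρ v
          · rwa [h.inj w hw v (hA hv) hh]
          · exact hc u hu v hv w hw l (by omega)
        exact (Conn.step hu hwA e).trans (ih w hwA v hv hwv (by push_cast at h2; omega))
  intro u hu v hv
  rcases le_total (ρ u) (ρ v) with l | l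
  · exact key (ρ v - ρ u).toNat u hu v hv l (by omega)
  · exact (key (ρ u - ρ v).toNat v hv u hu l (by omega)).symm

theorem Pth.conn (h : Pth H X ρ a b) : IsConn H X :=
  h.seg_conn subset_rfl fun _ _ _ _ _ hx _ _ => hx

/-- a segment of a path is a path -/
theorem Pth.sub (h : Pth H X ρ a b) {u v : W} (hu : u ∈ X) (hv : v ∈ X) (l : ρ u ≤ ρ v)
    {A : Set W} (hA : ∀ x, x ∈ A ↔ x ∈ X ∧ ρ u ≤ ρ x ∧ ρ x ≤ ρ v) : Pth H A ρ u v where
  fin := h.fin.subset fun x hx => ((hA x).1 hx).1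
  ha := (hA u).2 ⟨hu, le_rfl, l⟩
  hb := (hA v).2 ⟨hv, l, le_rfl⟩
  lo := fun x hx => ((hA x).1 hx).2.1
  hi := fun x hx => ((hA x).1 hx).2.2
  inj := fun x hx y hy => h.inj x ((hA x).1 hx).1 y ((hA y).1 hy).1
  adj := fun x hx y hy lt => by
    have hx' := (hA x).1 hx
    have hy' := (hA y).1 hy
    rw [h.adj x hx'.1 y hy'.1 lt]
    refine ⟨fun hh z hz => hh z ((hA z).1 hz).1, fun hh z hz => ?_⟩
    by_cases h1 : ρ u ≤ ρ z ∧ ρ z ≤ ρ v
    · exact hh z ((hA z).2 ⟨hz, h1⟩)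
    · omega

/-- the order may be changed outside the path -/
theorem Pth.congr (h : Pth H X ρ a b) {ρ' : W → ℤ} (he : ∀ x ∈ X, ρ' x = ρ x) :
    Pth H X ρ' a b where
  fin := h.fin
  ha := h.ha
  hb := h.hb
  lo := fun u hu => by rw [he _ hu, he _ h.ha]; exact h.lo u hu
  hi := fun u hu => by rw [he _ hu, he _ h.hb]; exact h.hi u hu
  inj := fun u hu v hv => by rw [he _ hu, he _ hv]; exact h.inj u hu v hv
  adj := fun u hu v hv => by
    rw [he _ hu, he _ hv]
    intro lt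
    rw [h.adj u hu v hv lt]
    exact forall₂_congr fun x hx => by rw [he _ hx]

theorem Pth.single (a : W) (ρ : W → ℤ) : Pth H {a} ρ a a where
  fin := Set.finite_singleton _
  ha := rfl
  hb := rfl
  lo := by rintro _ rfl; exact le_rfl
  hi := by rintro _ rfl; exact le_rfl
  inj := by rintro _ rfl _ rfl _; rfl
  adj := by rintro _ rfl _ rfl h; exact absurd h (lt_irrefl _)

theorem Pth.eq_single (h : Pth H X ρ a a) : X = {a} := by
  ext x
  refine ⟨fun hx => h.inj x hx a h.ha (le_antisymm (h.hi x hx) (h.lo x hx)), ?_⟩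
  rintro rfl
  exact h.ha

theorem Pth.eq_pair (h : Pth H X ρ a b) (e : H.Adj a b) : X = {a, b} := by
  ext x
  refine ⟨fun hx => ?_, ?_⟩
  · have h1 := h.lo x hx
    have h2 := h.hi x hx
    have h3 := h.nb h.ha h.hb e hx
    by_cases h4 : ρ x = ρ a
    · exact Or.inl (h.inj x hx a h.ha h4)
    · exact Or.inr (h.inj x hx b h.hb (by omega))
  · rintro (rfl | rfl)
    exacts [h.ha, h.hb]

theorem Pth.pair (e : H.Adj a b) (l : ρ a < ρ b) : Pth H {a, b} ρ a b where
  fin := Set.toFinite _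
  ha := Or.inl rfl
  hb := Or.inr rfl
  lo := by rintro _ (rfl | rfl) <;> omega
  hi := by rintro _ (rfl | rfl) <;> omega
  inj := by rintro _ (rfl | rfl) _ (rfl | rfl) h <;> first | rfl | omega
  adj := by
    rintro _ (rfl | rfl) _ (rfl | rfl) h
    · omega
    · refine ⟨fun _ => ?_, fun _ => e⟩
      rintro _ (rfl | rfl) <;> omega
    · omega
    · omega

/-- concatenation of two paths (with a common end, or joined by an edge) -/
theorem Pth.join {Y : Set W} {c d : W} (h1 : Pth H X ρ a b) (h2 : Pth H Y ρ c d)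
    (hbc : b = c ∨ (ρ b < ρ c ∧ H.Adj b c))
    (hx : ∀ x ∈ X, ∀ y ∈ Y, H.Adj x y → (x = b ∧ y = c) ∨ (b = c ∧ (x = b ∨ y = c))) :
    Pth H (X ∪ Y) ρ a d := by
  have hle : ρ b ≤ ρ c := by
    rcases hbc with rfl | h
    exacts [le_rfl, h.1.le]
  have cross : ∀ x ∈ X, ∀ y ∈ Y, ρ x < ρ y →
      (H.Adj x y ↔ ∀ z ∈ X ∪ Y, ρ z ≤ ρ x ∨ ρ y ≤ ρ z) := by
    intro x hxX y hyY lt
    have a1 := h1.hi x hxX
    have a2 := h2.lo y hyY
    constructor
    · intro e
      rintro z (hz | hz)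
      · have a3 := h1.hi z hz
        rcases hx x hxX y hyY e with ⟨rfl, rfl⟩ | ⟨rfl, rfl | rfl⟩
        · omega
        · omega
        · have := h1.nb hxX h1.hb e hz
          omega
      · have a3 := h2.lo z hz
        rcases hx x hxX y hyY e with ⟨rfl, rfl⟩ | ⟨rfl, rfl | rfl⟩
        · omega
        · have := h2.nb h2.ha hyY e hz
          omega
        · omega
    · intro hh
      have b1 := hh b (Or.inl h1.hb)
      have b2 := hh c (Or.inr h2.ha)
      by_cases hxb : ρ x = ρ b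
      · obtain rfl := h1.inj x hxX b h1.hb hxb
        by_cases hyc : ρ y = ρ c
        · obtain rfl := h2.inj y hyY c h2.ha hyc
          rcases hbc with rfl | h
          exacts [absurd lt (lt_irrefl _), h.2]
        · have : x = c := by
            rcases hbc with h | h
            exacts [h, by omega]
          subst this
          exact (h2.adj x h2.ha y hyY lt).2 fun z hz => hh z (Or.inr hz)
      · have hyc : ρ y = ρ c := by omega
        obtain rfl := h2.inj y hyY c h2.ha hyc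
        have : b = y := by
          rcases hbc with h | h
          exacts [h, by omega]
        subst this
        exact (h1.adj x hxX b h1.hb lt).2 fun z hz => hh z (Or.inl hz)
  have crossinj : ∀ x ∈ X, ∀ y ∈ Y, ρ x = ρ y → x = y := by
    intro x hxX y hyY he
    have a1 := h1.hi x hxX
    have a2 := h2.lo y hyY
    rcases hbc with rfl | h
    · rw [h1.inj x hxX b h1.hb (by omega), h2.inj y hyY b h2.ha (by omega)]
    · omega
  refine ⟨h1.fin.union h2.fin, Or.inl h1.ha, Or.inr h2.hb, ?_, ?_, ?_, ?_⟩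
  · rintro u (hu | hu)
    · exact h1.lo u hu
    · have := h1.lo b h1.hb
      have := h2.lo u hu
      omega
  · rintro u (hu | hu)
    · have := h1.hi u hu
      have := h2.hi c h2.ha
      omega
    · exact h2.hi u hu
  · rintro u (hu | hu) v (hv | hv) he
    exacts [h1.inj u hu v hv he, crossinj u hu v hv he, (crossinj v hv u hu he.symm).symm,
      h2.inj u hu v hv he]
  · rintro u (hu | hu) v (hv | hv) lt
    · rw [h1.adj u hu v hv lt]
      refine ⟨fun hh => ?_, fun hh z hz => hh z (Or.inl hz)⟩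
      rintro z (hz | hz)
      · exact hh z hz
      · have := h1.hi v hv
        have := h2.lo z hz
        omega
    · exact cross u hu v hv lt
    · have := h1.hi v hv
      have := h2.lo u hu
      omega
    · rw [h2.adj u hu v hv lt]
      refine ⟨fun hh => ?_, fun hh z hz => hh z (Or.inr hz)⟩
      rintro z (hz | hz)
      · have := h1.hi z hz
        have := h2.lo u hu
        omega
      · exact hh z hz

/-- a path run backwards -/
theorem Pth.rev (h : Pth H X ρ a b) (k : ℤ) : Pth H X (fun x => k - ρ x) b a where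
  fin := h.fin
  ha := h.hb
  hb := h.ha
  lo := fun u hu => by have := h.hi u hu; omega
  hi := fun u hu => by have := h.lo u hu; omega
  inj := fun u hu v hv he => h.inj u hu v hv (by omega)
  adj := fun u hu v hv lt => by
    rw [H.adj_comm, h.adj v hv u hu (by omega)]
    exact forall₂_congr fun x _ => by omega

/-- a shifted order -/
theorem Pth.shift (h : Pth H X ρ a b) (k : ℤ) : Pth H X (fun x => k + ρ x) a b := by
  refine ((h.rev 0).rev k).congr fun x _ => ?_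
  omega

/-- a shortest walk inside `A` from `x` to the set `B` is an induced path -/
theorem exists_pth {A B : Set W} {x y : W} (h : Conn H A x y) (hx : x ∈ A) (hy : y ∈ B) :
    ∃ (τ : Set W) (σ : W → ℤ) (v : W), Pth H τ σ x v ∧ τ ⊆ A ∧ v ∈ B ∧
      ∀ t ∈ τ, t ∈ B → t = v := by
  classical
  have hex : ∃ n : ℕ, ∃ p : ℕ → W, p 0 = x ∧ p n ∈ B ∧ (∀ i, i ≤ n → p i ∈ A) ∧
      ∀ i, i < n → H.Adj (p i) (p (i + 1)) := by
    obtain ⟨n, p, h0, hn, hA, hadj⟩ := h.walk hx
    exact ⟨n, p, h0, hn ▸ hy, hA, hadj⟩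
  obtain ⟨p, h0, hn, hM, hadj⟩ := Nat.find_spec hex
  have hmin := fun m (hm : m < Nat.find hex) => Nat.find_min hex hm
  generalize Nat.find hex = n at hn hM hadj hmin
  have first : ∀ i, i < n → p i ∉ B := fun i hi hB =>
    hmin i hi ⟨p, h0, hB, fun k hk => hM k (by omega), fun k hk => hadj k (by omega)⟩
  have short : ∀ i j, i + 1 < j → j ≤ n → ¬ H.Adj (p i) (p j) := fun i j hij hj ha => by
    refine hmin (n - (j - i - 1)) (by omega)
      ⟨fun k => if k ≤ i then p k else p (k + (j - i - 1)), by simpa using h0, ?_, fun k hk => ?_,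
        fun k hk => ?_⟩ <;> beta_reduce
    · rw [if_neg (by omega), show n - (j - i - 1) + (j - i - 1) = n by omega]
      exact hn
    · split_ifs with h
      exacts [hM _ (by omega), hM _ (by omega)]
    · rcases lt_trichotomy k i with h | rfl | h
      · rw [if_pos h.le, if_pos (by omega)]
        exact hadj k (by omega)
      · rw [if_pos le_rfl, if_neg (by omega), show k + 1 + (j - k - 1) = j by omega]
        exact ha
      · rw [if_neg (by omega), if_neg (by omega), Nat.add_right_comm]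
        exact hadj _ (by omega)
  have pinj : ∀ i j, i < j → j ≤ n → p i ≠ p j := fun i j hij hj he => by
    by_cases hjn : j = n
    · exact first i (by omega) (by rw [he, hjn]; exact hn)
    · exact short i (j + 1) (by omega) (by omega) (he ▸ hadj j (by omega))
  let σ : W → ℤ := fun w => if hw : ∃ i, i ≤ n ∧ p i = w then ((Classical.choose hw : ℕ) : ℤ) else 0
  have hσ : ∀ i, i ≤ n → σ (p i) = i := by
    intro i hi
    have hw : ∃ k, k ≤ n ∧ p k = p i := ⟨i, hi, rfl⟩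
    have hs := Classical.choose_spec hw
    simp only [σ, dif_pos hw]
    rcases lt_trichotomy (Classical.choose hw) i with l | l | l
    · exact absurd hs.2 (pinj _ _ l hi)
    · exact_mod_cast l
    · exact absurd hs.2.symm (pinj _ _ l hs.1)
  refine ⟨{w | ∃ i, i ≤ n ∧ p i = w}, σ, p n, ⟨?_, ⟨0, Nat.zero_le _, h0⟩, ⟨n, le_rfl, rfl⟩,
    ?_, ?_, ?_, ?_⟩, ?_, hn, ?_⟩
  · exact ((Set.finite_le_nat n).image p).subset fun w ⟨i, hi, e⟩ => ⟨i, hi, e⟩
  · rintro _ ⟨i, hi, rfl⟩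
    rw [← h0, hσ 0 (Nat.zero_le _), hσ i hi]
    omega
  · rintro _ ⟨i, hi, rfl⟩
    rw [hσ n le_rfl, hσ i hi]
    omega
  · rintro _ ⟨i, hi, rfl⟩ _ ⟨j, hj, rfl⟩ he
    rw [hσ i hi, hσ j hj] at he
    rw [show i = j by omega]
  · rintro _ ⟨i, hi, rfl⟩ _ ⟨j, hj, rfl⟩ lt
    rw [hσ i hi, hσ j hj] at lt ⊢
    constructor
    · rintro e _ ⟨k, hk, rfl⟩
      rw [hσ k hk]
      have : ¬ i + 1 < j := fun hh => short i j hh hj e
      omega
    · intro hh
      have := hh (p (i + 1)) ⟨i + 1, by omega, rfl⟩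
      rw [hσ (i + 1) (by omega)] at this
      obtain rfl : j = i + 1 := by omega
      exact hadj i (by omega)
  · rintro _ ⟨i, hi, rfl⟩
    exact hM i hi
  · rintro _ ⟨i, hi, rfl⟩ hB
    by_cases h : i < n
    · exact absurd hB (first i h)
    · rw [show i = n by omega]

end Path

end OV

end Pool.Agent.P.MP_08fd93_co
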