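import Pool.Agent.P.MP_08fd93_co.OV.BaseA

/-! Toolbox B for project OV: discs and shapes of outputs. -/

set_option autoImplicit false

namespace Pool.Agent.P.MP_08fd93_co.OV

variable {W : Type} {H : SimpleGraph W} {d : DD W}

theorem DD.mem_I {x : W} : x ∈ d.I ↔ x ∉ d.Z ∧ x ∉ d.X ∧ x ∉ d.Y := by
  simp only [DD.I, Set.mem_compl_iff, Set.mem_union, not_or]

theorem DD.swap_I (d : DD W) : d.swap.I = d.I := by
  ext x
  simp only [DD.mem_I, DD.swap]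
  tauto

theorem DD.cases (d : DD W) (x : W) : x ∈ d.Z ∨ x ∈ d.X ∨ x ∈ d.Y ∨ x ∈ d.I := by
  rw [DD.mem_I]
  tauto

theorem Disc.swap (h : Disc H d) : Disc H d.swap where
  px := h.py
  py := h.px
  dxy := h.dxy.symm
  ra := h.ra.symm
  rb := h.rb.symm
  zc := h.zc
  dz := by simpa only [DD.swap, Set.union_comm] using h.dz
  cl := by simpa only [DD.swap, Set.union_comm d.Y] using h.cl
  tz := by simpa only [DD.swap, Set.union_comm d.Y] using h.tz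
  fin := by rw [DD.swap_I]; exact h.fin
  nj := by rw [DD.swap_I]; exact h.nj

theorem Disc.xy (h : Disc H d) {x : W} (hx : x ∈ d.X) : x ∉ d.Y := Set.disjoint_left.1 h.dxy hx

theorem Disc.xz (h : Disc H d) {x : W} (hx : x ∈ d.X) : x ∉ d.Z :=
  fun hz => Set.disjoint_left.1 h.dz hz (Or.inl hx)

theorem Disc.yz (h : Disc H d) {x : W} (hx : x ∈ d.Y) : x ∉ d.Z :=
  fun hz => Set.disjoint_left.1 h.dz hz (Or.inr hx)

/-- an interior vertex has no neighbour outside -/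
theorem Disc.iz (h : Disc H d) {x z : W} (hx : x ∈ d.I) (e : H.Adj x z) : z ∉ d.Z :=
  fun hz => hx (h.cl ⟨z, hz, e⟩)

/-- a vertex that is not outside but has a neighbour outside lies on the boundary -/
theorem Disc.old (h : Disc H d) {x z : W} (hx : x ∉ d.Z) (hz : z ∈ d.Z) (e : H.Adj x z) :
    x ∈ d.X ∨ x ∈ d.Y := (h.cl ⟨z, hz, e⟩).resolve_left hx

theorem Disc.finc (h : Disc H d) : (d.Zᶜ).Finite :=
  ((h.px.fin.union h.py.fin).union h.fin).subset fun x hx => by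
    rcases d.cases x with h1 | h1 | h1 | h1
    exacts [absurd h1 hx, Or.inl (Or.inl h1), Or.inl (Or.inr h1), Or.inr h1]

/-- the boundary up to `u`, `v` (strictly) is connected -/
theorem Disc.lo_conn (h : Disc H d) (u v : W) : IsConn H (d.Lo u v) := by
  have c1 : IsConn H {x | x ∈ d.X ∧ d.ρ x < d.ρ u} :=
    h.px.seg_conn (fun _ hx => hx.1) fun _ _ _ hy _ hx _ l => ⟨hx, lt_trans l hy.2⟩
  have c2 : IsConn H {x | x ∈ d.Y ∧ d.ρ x < d.ρ v} :=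
    h.py.seg_conn (fun _ hx => hx.1) fun _ _ _ hy _ hx _ l => ⟨hx, lt_trans l hy.2⟩
  rintro x (hx | hx) y (hy | hy)
  · exact (c1 x hx y hy).up fun _ hw => Or.inl hw
  · have a1 : d.a ∈ {x | x ∈ d.X ∧ d.ρ x < d.ρ u} := ⟨h.px.ha, (h.px.lo x hx.1).trans_lt hx.2⟩
    have a2 : d.a' ∈ {x | x ∈ d.Y ∧ d.ρ x < d.ρ v} := ⟨h.py.ha, (h.py.lo y hy.1).trans_lt hy.2⟩
    exact (((c1 x hx _ a1).up fun _ hw => Or.inl hw).snoc (Or.inl a1) (Or.inr a2) h.ra).trans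
      ((c2 _ a2 y hy).up fun _ hw => Or.inr hw)
  · have a1 : d.a ∈ {x | x ∈ d.X ∧ d.ρ x < d.ρ u} := ⟨h.px.ha, (h.px.lo y hy.1).trans_lt hy.2⟩
    have a2 : d.a' ∈ {x | x ∈ d.Y ∧ d.ρ x < d.ρ v} := ⟨h.py.ha, (h.py.lo x hx.1).trans_lt hx.2⟩
    exact (((c2 x hx _ a2).up fun _ hw => Or.inr hw).snoc (Or.inr a2) (Or.inl a1) h.ra.symm).trans
      ((c1 _ a1 y hy).up fun _ hw => Or.inl hw)
  · exact (c2 x hx y hy).up fun _ hw => Or.inr hw

theorem Disc.hi_conn (h : Disc H d) (u v : W) : IsConn H (d.Hi u v) := by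
  have c1 : IsConn H {x | x ∈ d.X ∧ d.ρ u < d.ρ x} :=
    h.px.seg_conn (fun _ hx => hx.1) fun _ hy _ _ _ hx l _ => ⟨hx, lt_trans hy.2 l⟩
  have c2 : IsConn H {x | x ∈ d.Y ∧ d.ρ v < d.ρ x} :=
    h.py.seg_conn (fun _ hx => hx.1) fun _ hy _ _ _ hx l _ => ⟨hx, lt_trans hy.2 l⟩
  rintro x (hx | hx) y (hy | hy)
  · exact (c1 x hx y hy).up fun _ hw => Or.inl hw
  · have a1 : d.b ∈ {x | x ∈ d.X ∧ d.ρ u < d.ρ x} := ⟨h.px.hb, hx.2.trans_le (h.px.hi x hx.1)⟩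
    have a2 : d.b' ∈ {x | x ∈ d.Y ∧ d.ρ v < d.ρ x} := ⟨h.py.hb, hy.2.trans_le (h.py.hi y hy.1)⟩
    exact (((c1 x hx _ a1).up fun _ hw => Or.inl hw).snoc (Or.inl a1) (Or.inr a2) h.rb).trans
      ((c2 _ a2 y hy).up fun _ hw => Or.inr hw)
  · have a1 : d.b ∈ {x | x ∈ d.X ∧ d.ρ u < d.ρ x} := ⟨h.px.hb, hy.2.trans_le (h.px.hi y hy.1)⟩
    have a2 : d.b' ∈ {x | x ∈ d.Y ∧ d.ρ v < d.ρ x} := ⟨h.py.hb, hx.2.trans_le (h.py.hi x hx.1)⟩
    exact (((c2 x hx _ a2).up fun _ hw => Or.inr hw).snoc (Or.inr a2) (Or.inl a1) h.rb.symm).trans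
      ((c1 _ a1 y hy).up fun _ hw => Or.inl hw)
  · exact (c2 x hx y hy).up fun _ hw => Or.inr hw

/-- a nonempty `Lo u v` has a neighbour of `u` -/
theorem Disc.lo_nb (h : Disc H d) {u v x : W} (hu : u ∈ d.X) (hx : x ∈ d.Lo u v) :
    u ∈ Nb H (d.Lo u v) := by
  by_cases hua : u = d.a
  · rcases hx with hx | hx
    · have := h.px.lo x hx.1
      have := hx.2
      rw [hua] at this
      omega
    · exact ⟨d.a', Or.inr ⟨h.py.ha, (h.py.lo x hx.1).trans_lt hx.2⟩, hua ▸ h.ra⟩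
  · obtain ⟨w, hw, l, e, _⟩ := h.px.pred hu hua
    exact ⟨w, Or.inl ⟨hw, l⟩, e.symm⟩

theorem Disc.hi_nb (h : Disc H d) {u v x : W} (hu : u ∈ d.X) (hx : x ∈ d.Hi u v) :
    u ∈ Nb H (d.Hi u v) := by
  by_cases hub : u = d.b
  · rcases hx with hx | hx
    · have := h.px.hi x hx.1
      have := hx.2
      rw [hub] at this
      omega
    · exact ⟨d.b', Or.inr ⟨h.py.hb, hx.2.trans_le (h.py.hi x hx.1)⟩, hub ▸ h.rb⟩
  · obtain ⟨w, hw, l, e, _⟩ := h.px.succ hu hub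
    exact ⟨w, Or.inl ⟨hw, l⟩, e⟩

theorem DD.swap_Lo (d : DD W) (u v : W) : d.swap.Lo v u = d.Lo u v := by
  ext x
  simp only [DD.Lo, DD.swap, Set.mem_setOf_eq]
  tauto

theorem DD.swap_Hi (d : DD W) (u v : W) : d.swap.Hi v u = d.Hi u v := by
  ext x
  simp only [DD.Hi, DD.swap, Set.mem_setOf_eq]
  tauto

/-- nothing crosses a rung or a connected set `T` that joins `p` to `q` inside the disc -/
theorem Disc.theta (hP : Pl H Set.univ) (h : Disc H d) {p q : W} (hp : p ∈ d.X) (hq : q ∈ d.Y)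
    {T E : Set W} (hT : T ⊆ d.I) (cT : IsConn H T)
    (hpq : H.Adj p q ∨ (p ∈ Nb H T ∧ q ∈ Nb H T)) (hE : E ⊆ d.I) (cE : IsConn H E)
    (hET : Disjoint E T) {x y : W} (hx : x ∈ d.Lo p q) (hy : y ∈ d.Hi p q) :
    ¬ H.Adj x y ∧ ¬ (x ∈ Nb H E ∧ y ∈ Nb H E) := by
  have main : ∀ T E : Set W, T ⊆ d.I → IsConn H (T ∪ {q}) → p ∈ Nb H (T ∪ {q}) → E ⊆ d.I →
      IsConn H (d.Lo p q ∪ E) → Disjoint E T → Touch H (d.Lo p q ∪ E) (d.Hi p q) → False := by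
    intro T E hT cT tp hE cE hET tch
    have loC : ∀ w ∈ d.Lo p q, w ∈ d.X ∪ d.Y := fun w hw => hw.imp And.left And.left
    have hiC : ∀ w ∈ d.Hi p q, w ∈ d.X ∪ d.Y := fun w hw => hw.imp And.left And.left
    have iC : ∀ w ∈ d.I, w ∉ d.X ∪ d.Y := fun w hw hh => hw (Or.inr hh)
    have iZ : ∀ w ∈ d.I, w ∉ d.Z := fun w hw hh => hw (Or.inl hh)
    have cZ : ∀ w ∈ d.X ∪ d.Y, w ∉ d.Z := fun w hw hh => Set.disjoint_left.1 h.dz hh hw
    have tZ : ∀ {A : Set W} (w : W), w ∈ A → w ∈ d.X ∪ d.Y → Touch H d.Z A := fun w hw hc => by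
      obtain ⟨z, hz, e⟩ := h.tz hc
      exact ⟨z, hz, w, hw, e.symm⟩
    have plo : p ∉ d.Lo p q := by
      rintro (hh | hh)
      exacts [lt_irrefl _ hh.2, h.xy hp hh.1]
    have phi : p ∉ d.Hi p q := by
      rintro (hh | hh)
      exacts [lt_irrefl _ hh.2, h.xy hp hh.1]
    have qlo : q ∉ d.Lo p q := by
      rintro (hh | hh)
      exacts [h.xy hh.1 hq, lt_irrefl _ hh.2]
    have qhi : q ∉ d.Hi p q := by
      rintro (hh | hh)
      exacts [h.xy hh.1 hq, lt_irrefl _ hh.2]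
    have n1 := h.lo_nb hp hx
    have n2 := h.hi_nb hp hy
    have n3 : q ∈ Nb H (d.Lo p q) := by
      rw [← DD.swap_Lo] at hx ⊢
      exact h.swap.lo_nb hq hx
    have n4 : q ∈ Nb H (d.Hi p q) := by
      rw [← DD.swap_Hi] at hy ⊢
      exact h.swap.hi_nb hq hy
    refine k5 hP h.zc (isConn_single p) cT cE (h.hi_conn p q) ⟨?_, tZ p rfl (Or.inl hp)⟩
      ⟨?_, tZ q (Or.inr rfl) (Or.inr hq)⟩ ⟨?_, tZ x (Or.inl hx) (loC x hx)⟩
      ⟨?_, tZ y hy (hiC y hy)⟩ ⟨?_, ?_⟩ ⟨?_, ?_⟩ ⟨?_, ?_⟩ ⟨?_, ?_⟩ ⟨?_, ?_⟩ ⟨?_, tch⟩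
    · exact Set.disjoint_right.2 (by rintro _ rfl; exact h.xz hp)
    · refine Set.disjoint_right.2 ?_
      rintro w (hw | rfl)
      exacts [iZ w (hT hw), h.yz hq]
    · refine Set.disjoint_right.2 ?_
      rintro w (hw | hw)
      exacts [cZ w (loC w hw), iZ w (hE hw)]
    · exact Set.disjoint_right.2 fun w hw => cZ w (hiC w hw)
    · refine Set.disjoint_left.2 ?_
      rintro _ rfl (hw | hw)
      exacts [iC _ (hT hw) (Or.inl hp), h.xy hp (hw ▸ hq)]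
    · obtain ⟨w, hw, e⟩ := tp
      exact ⟨p, rfl, w, hw, e⟩
    · refine Set.disjoint_left.2 ?_
      rintro _ rfl (hw | hw)
      exacts [plo hw, iC _ (hE hw) (Or.inl hp)]
    · obtain ⟨w, hw, e⟩ := n1
      exact ⟨p, rfl, w, Or.inl hw, e⟩
    · exact Set.disjoint_left.2 (by rintro _ rfl; exact phi)
    · obtain ⟨w, hw, e⟩ := n2
      exact ⟨p, rfl, w, hw, e⟩
    · refine Set.disjoint_left.2 ?_
      rintro w (hw | rfl) (hw' | hw')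
      exacts [iC w (hT hw) (loC w hw'), Set.disjoint_left.1 hET hw' hw, qlo hw',
        iC _ (hE hw') (Or.inr hq)]
    · obtain ⟨w, hw, e⟩ := n3
      exact ⟨q, Or.inr rfl, w, Or.inl hw, e⟩
    · refine Set.disjoint_left.2 ?_
      rintro w (hw | rfl) hw'
      exacts [iC w (hT hw) (hiC w hw'), qhi hw']
    · obtain ⟨w, hw, e⟩ := n4
      exact ⟨q, Or.inr rfl, w, hw, e⟩
    · refine Set.disjoint_left.2 ?_
      rintro w (hw | hw) hw'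
      · rcases hw with hw | hw <;> rcases hw' with hw' | hw'
        exacts [lt_asymm hw.2 hw'.2, h.xy hw.1 hw'.1, h.xy hw'.1 hw.1, lt_asymm hw.2 hw'.2]
      · exact iC w (hE hw) (hiC w hw')
  have main2 : ∀ E : Set W, E ⊆ d.I → IsConn H (d.Lo p q ∪ E) → Disjoint E T →
      Touch H (d.Lo p q ∪ E) (d.Hi p q) → False := by
    intro E hE cE hET tch
    rcases hpq with e | ⟨e1, e2⟩
    · exact main ∅ E (Set.empty_subset _) (by simpa using isConn_single q) ⟨q, Or.inr rfl, e⟩ hE cE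
        (Set.disjoint_empty _) tch
    · obtain ⟨w, hw, e⟩ := e1
      exact main T E hT (cT.union_nb (by simpa using e2)) ⟨w, Or.inl hw, e⟩ hE cE hET tch
  constructor
  · intro e
    exact main2 ∅ (Set.empty_subset _) (by simpa using h.lo_conn p q) (Set.empty_disjoint _)
      ⟨x, Or.inl hx, y, hy, e⟩
  · rintro ⟨⟨u, hu, e1⟩, ⟨v, hv, e2⟩⟩
    exact main2 E hE ((h.lo_conn p q).union cE ⟨x, hx, u, hu, e1⟩) hET
      ⟨v, Or.inr hv, y, hy, e2.symm⟩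

/-- an inner vertex of `X` has a neighbour in the interior or on `Y` -/
theorem Disc.side (hP : Pl H Set.univ) (h : Disc H d) {x : W} (hx : x ∈ d.X) (ha : x ≠ d.a)
    (hb : x ≠ d.b) : ∃ y, H.Adj x y ∧ (y ∈ d.I ∨ y ∈ d.Y) := by
  obtain ⟨u, hu, lu, eu, _⟩ := h.px.pred hx ha
  obtain ⟨v, hv, lv, ev, _⟩ := h.px.succ hx hb
  have sub : ∀ w, w ∈ d.X ∪ d.Y → w ≠ x → w ∈ (d.Z ∪ {x})ᶜ := fun w hw hne hh =>
    hh.elim (fun hz => Set.disjoint_left.1 h.dz hz hw) hne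
  have c1 : IsConn H {w | w ∈ d.X ∧ d.ρ w < d.ρ x} :=
    h.px.seg_conn (fun _ hw => hw.1) fun _ _ _ hy _ hw _ l => ⟨hw, lt_trans l hy.2⟩
  have c2 : IsConn H {w | w ∈ d.X ∧ d.ρ x < d.ρ w} :=
    h.px.seg_conn (fun _ hw => hw.1) fun _ hy _ _ _ hw l _ => ⟨hw, lt_trans hy.2 l⟩
  have s1 : {w | w ∈ d.X ∧ d.ρ w < d.ρ x} ⊆ (d.Z ∪ {x})ᶜ := fun w hw =>
    sub w (Or.inl hw.1) (by rintro rfl; exact lt_irrefl _ hw.2)
  have s2 : {w | w ∈ d.X ∧ d.ρ x < d.ρ w} ⊆ (d.Z ∪ {x})ᶜ := fun w hw =>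
    sub w (Or.inl hw.1) (by rintro rfl; exact lt_irrefl _ hw.2)
  have s3 : d.Y ⊆ (d.Z ∪ {x})ᶜ := fun w hw => sub w (Or.inr hw) (by rintro rfl; exact h.xy hx hw)
  have a1 : d.a ∈ {w | w ∈ d.X ∧ d.ρ w < d.ρ x} := ⟨h.px.ha, h.px.lo_lt hx ha⟩
  have a2 : d.b ∈ {w | w ∈ d.X ∧ d.ρ x < d.ρ w} := ⟨h.px.hb, h.px.lt_hi hx hb⟩
  have hc : Conn H (d.Z ∪ {x})ᶜ u v :=
    (((((c1 u ⟨hu, lu⟩ _ a1).up s1).snoc (s1 a1) (s3 h.py.ha) h.ra).trans
      ((h.py.conn _ h.py.ha _ h.py.hb).up s3)).snoc (s3 h.py.hb) (s2 a2) h.rb.symm).trans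
      ((c2 _ a2 v ⟨hv, lv⟩).up s2)
  obtain ⟨z, hz, e⟩ := (tim hP (Set.disjoint_right.2 (by rintro _ rfl; exact h.xz hx)) h.zc
    (isConn_single x) (Set.finite_singleton x) ⟨x, rfl, eu⟩ ⟨x, rfl, ev.symm⟩
    (s1 ⟨hu, lu⟩) hc).first (by rintro rfl; omega)
  obtain ⟨_, rfl, ez⟩ := hz.1
  refine ⟨z, ez.symm, ?_⟩
  rcases d.cases z with h1 | h1 | h1 | h1
  exacts [absurd (Or.inl h1) hz.2, (h.px.no_tri hu h1 hx e ez eu).elim, Or.inr h1, Or.inl h1]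

/-- every interior vertex is joined inside the interior to a neighbour of `Y` -/
theorem Disc.toY (hP : Pl H Set.univ) (h : Disc H d) {x : W} (hx : x ∈ d.I) :
    ∃ y, Conn H d.I x y ∧ y ∈ Nb H d.Y := by
  by_contra hc
  have hEI : {y | Conn H d.I x y} ⊆ d.I := fun y hy => Conn.mem hy hx
  have haX : Nb H {y | Conn H d.I x y} \ {y | Conn H d.I x y} ⊆ d.X := by
    rintro z ⟨hz, hz'⟩
    have hz2 := hz
    obtain ⟨y, hy, e⟩ := hz
    rcases d.cases z with h1 | h1 | h1 | h1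
    exacts [absurd h1 (h.iz (hEI hy) e.symm), h1, (hc ⟨y, hy, z, h1, e.symm⟩).elim,
      absurd (comp_nb hx hz2 h1) hz']
  obtain ⟨hne, h2⟩ := att2 hP h.nj hEI (h.fin.subset hEI) ⟨x, Conn.rfl'⟩ (isConn_comp _ x) h.zc
    (Set.disjoint_left.2 fun w hw hw' => hEI hw' (Or.inl hw))
    (Set.disjoint_right.2 fun w hw => h.xz (haX hw)) fun w hw => h.tz (Or.inl (haX hw))
  obtain ⟨r, hr, hm⟩ := Set.exists_max_image _ d.ρ (h.px.fin.subset haX) hne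
  obtain ⟨y, hy, z, hz, hne, e1, e2⟩ := h2 r hr
  have l1 := hm y hy
  have l2 := hm z hz
  have l3 := h.px.lt_or (haX hr) (haX hy) e1.ne
  have l4 := h.px.lt_or (haX hr) (haX hz) e2.ne
  exact hne (h.px.dn_eq (haX hr) (haX hy) (haX hz) e1 e2 (by omega) (by omega))

theorem Disc.toX (hP : Pl H Set.univ) (h : Disc H d) {x : W} (hx : x ∈ d.I) :
    ∃ y, Conn H d.I x y ∧ y ∈ Nb H d.X := by
  have := h.swap.toY hP (x := x) (by rwa [DD.swap_I])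
  rwa [DD.swap_I] at this

theorem Disc.both (hP : Pl H Set.univ) (h : Disc H d) {x : W} (hx : x ∈ d.I) :
    (∃ y, Conn H d.I x y ∧ y ∈ Nb H d.X) ∧ ∃ y, Conn H d.I x y ∧ y ∈ Nb H d.Y :=
  ⟨h.toX hP hx, h.toY hP hx⟩

/-! ### shapes -/

variable {S : Set (Sym2 W)} {o : OD W}

theorem Shp.swap (h : Shp H d S o) : Shp H d.swap S o.swap where
  disc := h.disc.swap
  zz := h.zz
  xx := h.yy
  yy := h.xx
  rx := h.ry
  ry := h.rx
  nx := h.ny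
  ny := h.nx
  ap := fun v hv hv' => (h.ap v hv hv').symm
  pk := fun v hv hv' z e => (h.pk v hv hv' z e).imp id (Or.imp id (Or.imp id
    fun hh => ⟨hh.1, hh.2.symm⟩))
  st := h.st

theorem Shp.px (h : Shp H d S o) : Pth H o.X o.ρ d.a d.b := h.disc.px
theorem Shp.py (h : Shp H d S o) : Pth H o.Y o.ρ d.a' d.b' := h.disc.py
theorem Shp.xy (h : Shp H d S o) {x : W} (hx : x ∈ o.X) : x ∉ o.Y := h.disc.xy hx
theorem Shp.xz (h : Shp H d S o) {x : W} (hx : x ∈ o.X) : x ∉ o.Z := h.disc.xz hx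
theorem Shp.yz (h : Shp H d S o) {x : W} (hx : x ∈ o.Y) : x ∉ o.Z := h.disc.yz hx

theorem Shp.xY (h : Shp H d S o) {x : W} (hx : x ∈ o.X) : x ∉ d.Y :=
  fun hy => (h.yy hy).elim (h.xy hx) (h.xz hx)

theorem Shp.yX (h : Shp H d S o) {x : W} (hx : x ∈ o.Y) : x ∉ d.X :=
  fun hy => (h.xx hy).elim (fun hh => h.xy hh hx) (h.yz hx)

/-- a new vertex of the first path is an interior vertex -/
theorem Shp.new_I (h : Shp H d S o) {x : W} (hx : x ∈ o.X) (hn : x ∉ d.X) : x ∈ d.I :=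
  DD.mem_I.2 ⟨fun hz => h.xz hx (h.zz hz), hn, h.xY hx⟩

theorem Shp.I_sub (h : Shp H d S o) : (d.upd o).I ⊆ d.I := fun x hx => by
  have hx' : x ∉ o.Z ∧ x ∉ o.X ∧ x ∉ o.Y := DD.mem_I.1 hx
  exact DD.mem_I.2 ⟨fun hz => hx'.1 (h.zz hz), fun hh => (h.xx hh).elim hx'.2.1 hx'.1,
    fun hh => (h.yy hh).elim hx'.2.2 hx'.1⟩

/-- a pocket vertex is joined inside its pocket to an old boundary vertex -/
theorem Shp.pocket (hd : Disc H d) (h : Shp H d S o) {v : W} (hv : v ∈ o.Z) (hv' : v ∉ d.Z) :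
    ∃ y, Conn H (Pk d o (o.ax v)) v y ∧ y ∈ Pk d o (o.ax v) ∧ (y ∈ d.X ∨ y ∈ d.Y) := by
  obtain ⟨z, hz, _⟩ := hd.tz (Or.inl hd.px.ha)
  have hc : Conn H o.Z v z := h.disc.zc v hv z (h.zz hz)
  obtain ⟨u, w, _, hu1, hu2, e, hw1, hw2⟩ :=
    hc.exit (R := Pk d o (o.ax v)) ⟨hv, hv', rfl⟩ fun hh => hh.2.1 hz
  rename_i hcu
  refine ⟨u, hcu.up Set.inter_subset_right, hu2, ?_⟩
  by_cases hwz : w ∈ d.Z
  · exact hd.old hu2.2.1 hwz e
  · rcases h.pk u hu1 hu2.2.1 w e with h1 | h1 | h1 | h1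
    · exact absurd h1 hwz
    · exact absurd ⟨hw1, hwz, h1.2.trans hu2.2.2⟩ hw2
    · rcases h.ap u hu1 hu2.2.1 with h2 | h2
      exacts [absurd hw1 (h.xz (h1 ▸ h2.1)), absurd hw1 (h.yz (h1 ▸ h2.1))]
    · rcases h1.2 with h2 | h2
      exacts [absurd hw1 (h.xz h2.1), absurd hw1 (h.yz h2.1)]

/-- a hidden vertex of `X` lies between two surviving old neighbours of its apex -/
theorem Shp.span (hd : Disc H d) (h : Shp H d S o) {v : W} (hv : v ∈ d.X) (hz : v ∈ o.Z) :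
    o.ax v ∈ o.X ∧ o.ax v ∉ d.X ∧ ∃ s s', s ∈ d.X ∧ s ∈ o.X ∧ s' ∈ d.X ∧ s' ∈ o.X ∧
      d.ρ s < d.ρ v ∧ d.ρ v < d.ρ s' ∧ H.Adj s (o.ax v) ∧ H.Adj s' (o.ax v) := by
  have hva : v ≠ d.a := by rintro rfl; exact h.xz h.px.ha hz
  have hvb : v ≠ d.b := by rintro rfl; exact h.xz h.px.hb hz
  have key : ∀ (R : Set W) (e : W), R ⊆ d.X → IsConn H R → v ∈ R → e ∈ R → e ∈ o.X →
      ∃ s ∈ R, s ∈ o.X ∧ H.Adj s (o.ax v) ∧ o.ax v ∈ o.X ∧ o.ax v ∉ d.X := by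
    intro R e hR cR hvR heR heX
    obtain ⟨u, w, hc, hu1, hu2, ed, hw1, hw2⟩ :=
      (cR v hvR e heR).exit (R := o.Z) hz (h.xz heX)
    have hax : o.ax u = o.ax v := by
      refine hc.ind (p := fun y => o.ax y = o.ax v) rfl fun y y' hy hy' ey hh => ?_
      rcases h.pk y hy.2 (hd.xz (hR hy.1)) y' ey with h1 | h1 | h1 | h1
      · exact absurd h1 (hd.xz (hR hy'.1))
      · exact h1.2.trans hh
      · rcases h.ap y hy.2 (hd.xz (hR hy.1)) with h2 | h2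
        exacts [absurd hy'.2 (h.xz (h1 ▸ h2.1)), absurd hy'.2 (h.yz (h1 ▸ h2.1))]
      · rcases h1.2 with h2 | h2
        exacts [absurd hy'.2 (h.xz h2.1), absurd hy'.2 (h.yz h2.1)]
    have hwX : w ∈ o.X := (h.xx (hR hw1)).resolve_right hw2
    have hap := h.ap u hu2 (hd.xz (hR hu1))
    rcases h.pk u hu2 (hd.xz (hR hu1)) w ed with h1 | h1 | h1 | h1
    · exact absurd h1 (hd.xz (hR hw1))
    · exact absurd h1.1 hw2
    · rcases hap with h2 | h2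
      exacts [absurd (h1 ▸ hR hw1) h2.2, absurd (h1 ▸ h2.1) (h.xy hwX)]
    · rw [hax] at h1 hap
      rcases h1.2 with h2 | h2
      · exact ⟨w, hw1, hwX, h1.1, h2.2,
          (hap.resolve_right fun hh => h.xy h2.2 hh.1).2⟩
      · exact absurd h2.1 (h.xy hwX)
  obtain ⟨s, hs, hsX, es, a1, a2⟩ := key {w | w ∈ d.X ∧ d.ρ w ≤ d.ρ v} d.a (fun _ hw => hw.1)
    (hd.px.seg_conn (fun _ hw => hw.1) fun _ _ _ hy _ hw _ l => ⟨hw, l.le.trans hy.2⟩)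
    ⟨hv, le_rfl⟩ ⟨hd.px.ha, hd.px.lo v hv⟩ h.px.ha
  obtain ⟨s', hs', hsX', es', _⟩ := key {w | w ∈ d.X ∧ d.ρ v ≤ d.ρ w} d.b (fun _ hw => hw.1)
    (hd.px.seg_conn (fun _ hw => hw.1) fun _ hy _ _ _ hw l _ => ⟨hw, hy.2.trans l.le⟩)
    ⟨hv, le_rfl⟩ ⟨hd.px.hb, hd.px.hi v hv⟩ h.px.hb
  have n1 := hd.px.lt_or hs.1 hv (by rintro rfl; exact h.xz hsX hz)
  have n2 := hd.px.lt_or hs'.1 hv (by rintro rfl; exact h.xz hsX' hz)
  have := hs.2
  have := hs'.2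
  exact ⟨a1, a2, s, s', hs.1, hsX, hs'.1, hsX', by omega, by omega, es, es'⟩

/-- the apex of a hidden vertex of `X` is a new vertex of the first path -/
theorem Shp.hidden (hd : Disc H d) (h : Shp H d S o) {v : W} (hv : v ∈ d.X) (hz : v ∈ o.Z) :
    o.ax v ∈ o.X ∧ o.ax v ∉ d.X :=
  ⟨(h.span hd hv hz).1, (h.span hd hv hz).2.1⟩

/-- a new vertex `x` of the first path: its two neighbours on the path and what it hides -/
theorem Shp.apex (hd : Disc H d) (h : Shp H d S o) {x : W} (hx : x ∈ o.X) (hn : x ∉ d.X) :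
    ∃ s s', s ∈ d.X ∧ s ∈ o.X ∧ s' ∈ d.X ∧ s' ∈ o.X ∧ H.Adj s x ∧ H.Adj x s' ∧
      d.ρ s < o.ρ x ∧ o.ρ x < d.ρ s' ∧ (∀ z ∈ o.X, H.Adj x z → z = s ∨ z = s') ∧
      (∀ v ∈ d.X, (d.ρ s < d.ρ v ∧ d.ρ v < d.ρ s') ↔ (v ∈ o.Z ∧ o.ax v = x)) ∧
      ∃ v ∈ d.X, d.ρ s < d.ρ v ∧ d.ρ v < d.ρ s' := by
  obtain ⟨s, hs, ls, es, ms⟩ := h.px.pred hx (by rintro rfl; exact hn hd.px.ha)
  obtain ⟨s', hs', ls', es', ms'⟩ := h.px.succ hx (by rintro rfl; exact hn hd.px.hb)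
  have so : s ∈ d.X := (h.nx s hs x hx es).resolve_right hn
  have so' : s' ∈ d.X := (h.nx x hx s' hs' es').resolve_left hn
  have r1 := h.rx s so hs
  have r2 := h.rx s' so' hs'
  have two : ∀ y ∈ o.X, ∀ t t', t ∈ o.X → t' ∈ o.X → H.Adj t y → H.Adj t' y → o.ρ t < o.ρ t' →
      o.ρ t < o.ρ y ∧ o.ρ y < o.ρ t' := by
    intro y hy t t' ht ht' e e' l
    have b1 := h.px.lt_or ht hy e.ne
    have b2 := h.px.lt_or ht' hy e'.ne
    have b3 := h.px.nb hy ht' e'.symm ht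
    have b4 := h.px.nb ht hy e ht'
    omega
  have nbx : ∀ z ∈ o.X, H.Adj x z → z = s ∨ z = s' := by
    intro z hz e
    rcases h.px.lt_or hx hz e.ne with l | l
    exacts [Or.inr (h.px.up_eq hx hz hs' e es' l ls'),
      Or.inl (h.px.dn_eq hx hz hs e es.symm l ls)]
  refine ⟨s, s', so, hs, so', hs', es, es', by omega, by omega, nbx, fun v hv => ⟨?_, ?_⟩, ?_⟩
  · rintro ⟨l1, l2⟩
    have hvz : v ∈ o.Z := by
      refine (h.xx hv).resolve_left fun hvX => ?_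
      have r3 := h.rx v hv hvX
      have := ms v hvX
      have := ms' v hvX
      have := h.px.lt_or hvX hx (by rintro rfl; exact hn hv)
      omega
    obtain ⟨a1, _, t, t', t1, t2, t3, t4, l3, l4, e1, e2⟩ := h.span hd hv hvz
    refine ⟨hvz, ?_⟩
    have r3 := h.rx t t1 t2
    have r4 := h.rx t' t3 t4
    obtain ⟨l5, l6⟩ := two _ a1 t t' t2 t4 e1 e2 (by omega)
    have b1 := h.px.nb t2 a1 e1 hx
    have b2 := h.px.nb a1 t4 e2.symm hx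
    have b3 := ms t t2
    have b4 := ms' t' t4
    have b5 := ms' t t2
    have b6 := ms t' t4
    have b7 := h.px.lt_or t2 hx (by rintro rfl; exact hn t1)
    have b8 := h.px.lt_or t4 hx (by rintro rfl; exact hn t3)
    exact h.px.inj _ a1 x hx (by omega)
  · rintro ⟨hvz, hax⟩
    obtain ⟨a1, _, t, t', t1, t2, t3, t4, l3, l4, e1, e2⟩ := h.span hd hv hvz
    rw [hax] at e1 e2
    rcases nbx t t2 e1.symm with rfl | rfl <;> rcases nbx t' t4 e2.symm with rfl | rfl <;> omega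
  · by_contra hc
    have e : H.Adj s s' := (hd.px.adj s so s' so' (by omega)).2 fun v hv => by
      by_contra hh
      exact hc ⟨v, hv, by omega, by omega⟩
    exact h.px.nb hs hs' e hx ⟨ls, ls'⟩

/-- if no vertex of `X` is hidden, the first path is unchanged -/
theorem Shp.keepX (hd : Disc H d) (h : Shp H d S o) (hX : ∀ v ∈ d.X, v ∉ o.Z) : o.X = d.X := by
  ext x
  refine ⟨fun hx => ?_, fun hx => (h.xx hx).resolve_right (hX x hx)⟩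
  by_contra hn
  obtain ⟨s, s', _, _, _, _, _, _, _, _, _, h1, v, hv, l⟩ := h.apex hd hx hn
  exact hX v hv ((h1 v hv).1 l).1

theorem Shp.keepY (hd : Disc H d) (h : Shp H d S o) (hY : ∀ v ∈ d.Y, v ∉ o.Z) : o.Y = d.Y :=
  h.swap.keepX hd.swap hY

/-- if nothing is hidden, nothing changes -/
theorem Shp.nohide (hd : Disc H d) (h : Shp H d S o) (hX : ∀ v ∈ d.X, v ∉ o.Z)
    (hY : ∀ v ∈ d.Y, v ∉ o.Z) : o.X = d.X ∧ o.Y = d.Y ∧ o.Z = d.Z ∧ (d.upd o).I = d.I := by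
  have h1 := h.keepX hd hX
  have h2 := h.keepY hd hY
  have h3 : o.Z = d.Z := by
    refine Set.Subset.antisymm (fun v hv => ?_) h.zz
    by_contra hn
    rcases h.ap v hv hn with h4 | h4
    exacts [h4.2 (h1 ▸ h4.1), h4.2 (h2 ▸ h4.1)]
  refine ⟨h1, h2, h3, ?_⟩
  simp only [DD.I, DD.upd, h1, h2, h3]

end Pool.Agent.P.MP_08fd93_co.OV
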