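import Pool.Agent.P.MP_08fd93_co.StB

/-! Definitions for the planar part (discs, outputs, extensions) of project OV. -/

set_option autoImplicit false

namespace Pool.Agent.P.MP_08fd93_co.OV

/-- Four colours; the first coordinate is the class. -/
abbrev Col := Bool × Bool

variable {W : Type}

/-- `X` is a finite induced path from `a` to `b`, ordered by `ρ`. -/
structure Pth (H : SimpleGraph W) (X : Set W) (ρ : W → ℤ) (a b : W) : Prop where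
  fin : X.Finite
  ha : a ∈ X
  hb : b ∈ X
  lo : ∀ u ∈ X, ρ a ≤ ρ u
  hi : ∀ u ∈ X, ρ u ≤ ρ b
  inj : ∀ u ∈ X, ∀ v ∈ X, ρ u = ρ v → u = v
  adj : ∀ u ∈ X, ∀ v ∈ X, ρ u < ρ v → (H.Adj u v ↔ ∀ x ∈ X, ρ x ≤ ρ u ∨ ρ v ≤ ρ x)

/-- No finite nonempty part of `I` hangs on a vertex or on an edge. -/
def NJ (H : SimpleGraph W) (I : Set W) : Prop :=
  ∀ D : Set W, D ⊆ I → D.Finite → D.Nonempty → ∀ a b, (a = b ∨ H.Adj a b) →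
    ¬ Nb H D ⊆ D ∪ {a, b}

/-- Data of a disc: outside `Z`, two paths `X` (from `a` to `b`) and `Y` (from `a'` to `b'`). -/
structure DD (W : Type) where
  Z : Set W
  X : Set W
  Y : Set W
  ρ : W → ℤ
  a : W
  b : W
  a' : W
  b' : W

/-- The interior of a disc. -/
def DD.I (d : DD W) : Set W := (d.Z ∪ (d.X ∪ d.Y))ᶜ

/-- The two paths exchanged. -/
def DD.swap (d : DD W) : DD W := ⟨d.Z, d.Y, d.X, d.ρ, d.a', d.b', d.a, d.b⟩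

/-- A disc. -/
structure Disc (H : SimpleGraph W) (d : DD W) : Prop where
  px : Pth H d.X d.ρ d.a d.b
  py : Pth H d.Y d.ρ d.a' d.b'
  dxy : Disjoint d.X d.Y
  ra : H.Adj d.a d.a'
  rb : H.Adj d.b d.b'
  zc : IsConn H d.Z
  dz : Disjoint d.Z (d.X ∪ d.Y)
  cl : Nb H d.Z ⊆ d.Z ∪ (d.X ∪ d.Y)
  tz : d.X ∪ d.Y ⊆ Nb H d.Z
  fin : d.I.Finite
  nj : NJ H d.I

/-- Edges inside `X`. -/
def PE (H : SimpleGraph W) (X : Set W) : Set (Sym2 W) :=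
  {e | ∃ u ∈ X, ∃ v ∈ X, H.Adj u v ∧ e = s(u, v)}

/-- The boundary up to the pair `u`, `v`. -/
def DD.Lf (d : DD W) (u v : W) : Set W :=
  {x | (x ∈ d.X ∧ d.ρ x ≤ d.ρ u) ∨ (x ∈ d.Y ∧ d.ρ x ≤ d.ρ v)}

/-- The boundary from the pair `u`, `v` on. -/
def DD.Rt (d : DD W) (u v : W) : Set W :=
  {x | (x ∈ d.X ∧ d.ρ u ≤ d.ρ x) ∨ (x ∈ d.Y ∧ d.ρ v ≤ d.ρ x)}

/-- The boundary strictly before the pair `u`, `v`. -/
def DD.Lo (d : DD W) (u v : W) : Set W :=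
  {x | (x ∈ d.X ∧ d.ρ x < d.ρ u) ∨ (x ∈ d.Y ∧ d.ρ x < d.ρ v)}

/-- The boundary strictly after the pair `u`, `v`. -/
def DD.Hi (d : DD W) (u v : W) : Set W :=
  {x | (x ∈ d.X ∧ d.ρ u < d.ρ x) ∨ (x ∈ d.Y ∧ d.ρ v < d.ρ x)}

/-- A rung separates the two edges. -/
def Sep (H : SimpleGraph W) (d : DD W) (e e' : Sym2 W) : Prop :=
  ∃ u ∈ d.X, ∃ v ∈ d.Y, H.Adj u v ∧ (∀ x ∈ e, x ∈ d.Lf u v) ∧ ∀ x ∈ e', x ∈ d.Rt u v

/-- Admissible sets of strict edges. -/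
def Adm (H : SimpleGraph W) (d : DD W) (S : Set (Sym2 W)) : Prop :=
  S ⊆ PE H d.X ∪ PE H d.Y ∧ ∀ e ∈ S, ∀ e' ∈ S, e ≠ e' → Sep H d e e' ∨ Sep H d e' e

/-- `x` has at most one neighbour of its colour. -/
def One (H : SimpleGraph W) (c : W → Col) (x : W) : Prop :=
  ∀ y z, H.Adj x y → H.Adj x z → c y = c x → c z = c x → y = z

/-- `x` has at most one neighbour of its colour inside `M`. -/
def OneIn (H : SimpleGraph W) (c : W → Col) (M : Set W) (x : W) : Prop :=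
  ∀ y ∈ M, ∀ z ∈ M, H.Adj x y → H.Adj x z → c y = c x → c z = c x → y = z

/-- `c'` recolours `M`; vertices of `M` have defect at most one; a vertex outside `M` with a
neighbour of its colour in `M` lies in `Al` and has only one such neighbour. -/
structure Rec (H : SimpleGraph W) (M Al : Set W) (c c' : W → Col) : Prop where
  off : ∀ x, x ∉ M → c' x = c x
  one : ∀ x ∈ M, One H c' x
  al : ∀ x, x ∉ M → ∀ y ∈ M, H.Adj x y → c' y = c' x → x ∈ Al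
  un : ∀ x, x ∉ M → OneIn H c' M x

/-- Every edge of `L` is monochromatic or paid by an end. -/
def Paid (L : Set (Sym2 W)) (c : W → Col) (o : W → W) : Prop :=
  ∀ u v, s(u, v) ∈ L → c u = c v ∨ o u = v ∨ o v = u

/-- The vertices that pay an edge of `L` that is not monochromatic. -/
def Pay (L : Set (Sym2 W)) (c : W → Col) (o : W → W) : Set W :=
  {x | s(x, o x) ∈ L ∧ c (o x) ≠ c x}

/-- The extension property. -/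
def Ext (H : SimpleGraph W) (M A B : Set W) (L : Set (Sym2 W)) : Prop :=
  ∀ (c : W → Col) (o : W → W), (∀ x ∈ A, (c x).1 = false) → (∀ x ∈ B, (c x).1 = true) →
    Paid L c o → ∃ c', Rec H M (Pay L c o) c c'

/-- Data of an output: new outside, new paths, new order, apex of a pocket vertex. -/
structure OD (W : Type) where
  Z : Set W
  X : Set W
  Y : Set W
  ρ : W → ℤ
  ax : W → W

/-- The disc after the output. -/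
def DD.upd (d : DD W) (o : OD W) : DD W := ⟨o.Z, o.X, o.Y, o.ρ, d.a, d.b, d.a', d.b'⟩

/-- The output with the two paths exchanged. -/
def OD.swap (o : OD W) : OD W := ⟨o.Z, o.Y, o.X, o.ρ, o.ax⟩

/-- The shape of an output: a smaller disc; the lost parts are pockets under new apexes. -/
structure Shp (H : SimpleGraph W) (d : DD W) (S : Set (Sym2 W)) (o : OD W) : Prop where
  disc : Disc H (d.upd o)
  zz : d.Z ⊆ o.Z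
  xx : d.X ⊆ o.X ∪ o.Z
  yy : d.Y ⊆ o.Y ∪ o.Z
  rx : ∀ u ∈ d.X, u ∈ o.X → o.ρ u = d.ρ u
  ry : ∀ u ∈ d.Y, u ∈ o.Y → o.ρ u = d.ρ u
  nx : ∀ u ∈ o.X, ∀ v ∈ o.X, H.Adj u v → u ∈ d.X ∨ v ∈ d.X
  ny : ∀ u ∈ o.Y, ∀ v ∈ o.Y, H.Adj u v → u ∈ d.Y ∨ v ∈ d.Y
  ap : ∀ v ∈ o.Z, v ∉ d.Z →
    (o.ax v ∈ o.X ∧ o.ax v ∉ d.X) ∨ (o.ax v ∈ o.Y ∧ o.ax v ∉ d.Y)
  pk : ∀ v ∈ o.Z, v ∉ d.Z → ∀ z, H.Adj v z →
    z ∈ d.Z ∨ (z ∈ o.Z ∧ o.ax z = o.ax v) ∨ z = o.ax v ∨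
      (H.Adj z (o.ax v) ∧ ((z ∈ o.X ∧ o.ax v ∈ o.X) ∨ (z ∈ o.Y ∧ o.ax v ∈ o.Y)))
  st : ∀ e ∈ S, ∀ x ∈ e, x ∉ o.Z

/-- The edges that must be paid: old edges that survive and are not strict. -/
def LE (H : SimpleGraph W) (d : DD W) (S : Set (Sym2 W)) (o : OD W) : Set (Sym2 W) :=
  (PE H (d.X ∩ o.X) ∪ PE H (d.Y ∩ o.Y)) \ S

/-- An output of the disc theorem. -/
structure Out (H : SimpleGraph W) (d : DD W) (S : Set (Sym2 W)) (o : OD W) : Prop where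
  shp : Shp H d S o
  ext : Ext H (d.upd o).I o.X o.Y (LE H d S o)

/-- The pocket of the apex `x`. -/
def Pk (d : DD W) (o : OD W) (x : W) : Set W := {v | v ∈ o.Z ∧ v ∉ d.Z ∧ o.ax v = x}

/-- The disc theorem for discs with fewer than `n` vertices. -/
def TN (H : SimpleGraph W) (n : ℕ) : Prop :=
  ∀ (d : DD W) (S : Set (Sym2 W)), Disc H d → Adm H d S → (d.Zᶜ).ncard < n → ∃ o, Out H d S o

/-- The disc theorem for `H`. -/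
def TA (H : SimpleGraph W) : Prop :=
  ∀ (d : DD W) (S : Set (Sym2 W)), Disc H d → Adm H d S → ∃ o, Out H d S o

/-! ### Splitting at a rung -/

/-- The left disc at the rung `u v` with interior `IL`. -/
def DD.left (d : DD W) (u v : W) (IL : Set W) : DD W :=
  ⟨(d.Lf u v ∪ IL)ᶜ, {x | x ∈ d.X ∧ d.ρ x ≤ d.ρ u}, {x | x ∈ d.Y ∧ d.ρ x ≤ d.ρ v}, d.ρ,
    d.a, u, d.a', v⟩

/-- The right disc at the rung `u v` with interior `IR`. -/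
def DD.right (d : DD W) (u v : W) (IR : Set W) : DD W :=
  ⟨(d.Rt u v ∪ IR)ᶜ, {x | x ∈ d.X ∧ d.ρ u ≤ d.ρ x}, {x | x ∈ d.Y ∧ d.ρ v ≤ d.ρ x}, d.ρ,
    u, d.b, v, d.b'⟩

/-- The strict edges with both ends in `C`. -/
def SIn (S : Set (Sym2 W)) (C : Set W) : Set (Sym2 W) := {e | e ∈ S ∧ ∀ x ∈ e, x ∈ C}

/-! ### The main step -/

/-- Data of the main step: the strict edge `p p'`, the path `τ` from `z` to `v` ordered by `σ`,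
the extreme neighbours `ql`, `qj` of `v` on `Y`, and the labels of the four regions. -/
structure SD (W : Type) where
  d : DD W
  p : W
  p' : W
  z : W
  v : W
  ql : W
  qj : W
  τ : Set W
  σ : W → ℤ
  lab : W → Fin 4

/-- The geometry of the main step (the labels are not used). -/
structure Stp (H : SimpleGraph W) (s : SD W) : Prop where
  disc : Disc H s.d
  hp : s.p ∈ s.d.X
  hp' : s.p' ∈ s.d.X
  lt : s.d.ρ s.p < s.d.ρ s.p'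
  pp : H.Adj s.p s.p'
  pt : Pth H s.τ s.σ s.z s.v
  ti : s.τ ⊆ s.d.I
  zp : H.Adj s.z s.p
  zp' : H.Adj s.z s.p'
  tn : ∀ t ∈ s.τ, ∃ x ∈ s.d.X, s.d.ρ x ≤ s.d.ρ s.p ∧ H.Adj t x
  ty : ∀ t ∈ s.τ, ∀ y ∈ s.d.Y, H.Adj t y →
    t = s.v ∧ s.d.ρ s.ql ≤ s.d.ρ y ∧ s.d.ρ y ≤ s.d.ρ s.qj
  hl : s.ql ∈ s.d.Y
  hj : s.qj ∈ s.d.Y
  vl : H.Adj s.v s.ql
  vj : H.Adj s.v s.qj

/-- Region `k`: `0` left, `1` right, `2` the triangle on `p p'`, `3` the fan under `v`. -/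
def SD.Rg (s : SD W) (k : Fin 4) : Set W := {x | x ∈ s.d.I ∧ x ∉ s.τ ∧ s.lab x = k}

def SD.XL (s : SD W) : Set W := {x | x ∈ s.d.X ∧ s.d.ρ x ≤ s.d.ρ s.p}
def SD.XM (s : SD W) : Set W := {x | x ∈ s.d.X ∧ s.d.ρ s.p' ≤ s.d.ρ x}
def SD.YL (s : SD W) : Set W := {y | y ∈ s.d.Y ∧ s.d.ρ y ≤ s.d.ρ s.ql}
def SD.YM (s : SD W) : Set W := {y | y ∈ s.d.Y ∧ s.d.ρ s.qj ≤ s.d.ρ y}
/-- The vertices of `Y` strictly between `ql` and `qj`. -/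
def SD.YN (s : SD W) : Set W := {y | y ∈ s.d.Y ∧ s.d.ρ s.ql < s.d.ρ y ∧ s.d.ρ y < s.d.ρ s.qj}

/-- The fan under `v` has at least two edges of `Y`. -/
def SD.Long (H : SimpleGraph W) (s : SD W) : Prop := s.ql ≠ s.qj ∧ ¬ H.Adj s.ql s.qj

/-- The four regions: boundaries and attachments. -/
structure Reg (H : SimpleGraph W) (s : SD W) : Prop where
  n0 : Nb H (s.Rg 0) ⊆ s.Rg 0 ∪ (s.XL ∪ s.YL ∪ s.τ)
  n1 : Nb H (s.Rg 1) ⊆ s.Rg 1 ∪ (s.XM ∪ s.YM ∪ s.τ)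
  n2 : Nb H (s.Rg 2) ⊆ s.Rg 2 ∪ {s.p, s.p', s.z}
  n3 : Nb H (s.Rg 3) ⊆ s.Rg 3 ∪ (s.YN ∪ {s.v, s.ql, s.qj})
  c0 : ∀ x ∈ s.Rg 0, ∃ y, Conn H (s.Rg 0) x y ∧ y ∈ Nb H s.XL
  c1 : ∀ x ∈ s.Rg 1, ∃ y, Conn H (s.Rg 1) x y ∧ y ∈ Nb H s.XM
  c2 : ∀ x ∈ s.Rg 2, (∃ y, Conn H (s.Rg 2) x y ∧ H.Adj y s.p) ∧
    ∃ y, Conn H (s.Rg 2) x y ∧ H.Adj y s.p'
  c3 : ∀ x ∈ s.Rg 3, ∃ y y' q q', Conn H (s.Rg 3) x y ∧ Conn H (s.Rg 3) x y' ∧ H.Adj y q ∧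
    H.Adj y' q' ∧ q ∈ s.d.Y ∧ q' ∈ s.d.Y ∧ H.Adj q q' ∧
    s.d.ρ s.ql ≤ s.d.ρ q ∧ s.d.ρ q < s.d.ρ q' ∧ s.d.ρ q' ≤ s.d.ρ s.qj
  nv : s.Long H → s.v ∈ Nb H (s.Rg 3 ∪ s.YN)
  /-- rungs do not cross the path `τ` -/
  r0 : ∀ x ∈ s.XL, ∀ y ∈ s.d.Y, H.Adj x y → y ∈ s.YL
  r1 : ∀ x ∈ s.XM, ∀ y ∈ s.d.Y, H.Adj x y → y ∈ s.YM

open Classical in
/-- The right disc `M`. -/
noncomputable def SD.dM (s : SD W) : DD W :=
  ⟨(s.XM ∪ (s.τ ∪ s.YM) ∪ s.Rg 1)ᶜ, s.XM, s.τ ∪ s.YM,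
    fun x => if x ∈ s.τ then s.d.ρ s.qj - 1 - (s.σ s.v - s.σ x) else s.d.ρ x,
    s.p', s.d.b, s.z, s.d.b'⟩

/-- The strict edge of `M`. -/
def SD.SM (s : SD W) : Set (Sym2 W) := {s(s.v, s.qj)}

/-- The path that replaces `τ` in the output `o` of `M`. -/
def SD.T1 (s : SD W) (o : OD W) : Set W := {t | t ∈ o.Y ∧ o.ρ t < s.d.ρ s.qj}

/-- The pockets of the output `o` of `M` that sit on `τ`. -/
def SD.W1 (s : SD W) (o : OD W) : Set W := {x | x ∈ o.Z ∧ x ∉ s.dM.Z ∧ o.ax x ∈ s.T1 o}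

open Classical in
/-- The left disc, grown by the pockets on `τ`. -/
noncomputable def SD.dL (s : SD W) (o : OD W) : DD W :=
  ⟨(s.XL ∪ (s.YL ∪ s.T1 o) ∪ (s.Rg 0 ∪ s.W1 o))ᶜ, s.XL, s.YL ∪ s.T1 o,
    fun x => if x ∈ s.T1 o then s.d.ρ s.ql + (s.d.ρ s.qj - o.ρ x) else s.d.ρ x,
    s.d.a, s.p, s.d.a', s.z⟩

/-- The strict edges of the left disc: the end nearer to `ql` is old. -/
def SD.SL (H : SimpleGraph W) (s : SD W) (o : OD W) : Set (Sym2 W) :=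
  {e | ∃ t ∈ s.T1 o, ∃ t', H.Adj t t' ∧ e = s(t, t') ∧
    (t' = s.ql ∨ (t' ∈ s.T1 o ∧ t' ∈ s.τ ∧ o.ρ t < o.ρ t'))}

open Classical in
/-- The output of the main step from the outputs `o1` of `M` and `o2` of the left disc. -/
noncomputable def SD.fin (H : SimpleGraph W) (s : SD W) (o1 o2 : OD W) : OD W :=
  ⟨{x | x ∈ s.d.Z ∨ (x ∈ o2.Z ∧ x ∉ (s.dL o1).Z) ∨ (x ∈ o1.Z ∧ x ∉ s.dM.Z ∧ x ∉ s.W1 o1) ∨
      (s.Long H ∧ (x ∈ s.Rg 3 ∨ x ∈ s.YN))},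
    o2.X ∪ o1.X,
    {y | ((y ∈ o2.Y ∨ y ∈ o1.Y) ∧ y ∉ s.T1 o1) ∨ (s.Long H ∧ y = s.v)},
    fun x => if x ∈ o2.X ∨ x ∈ o2.Y then o2.ρ x else o1.ρ x,
    fun x => if x ∉ (s.dL o1).Z then o2.ax x else if x ∉ s.dM.Z then o1.ax x else s.v⟩

/-- Everything known before the assembly of the main step. -/
structure Pre (H : SimpleGraph W) (s : SD W) (o1 o2 : OD W) : Prop where
  stp : Stp H s
  reg : Reg H s
  dm : Disc H s.dM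
  s1 : Shp H s.dM s.SM o1
  dl : Disc H (s.dL o1)
  s2 : Shp H (s.dL o1) (s.SL H o1) o2

/-- Bookkeeping facts for the assembly of the main step. -/
structure Fct (H : SimpleGraph W) (s : SD W) (o1 o2 : OD W) : Prop where
  vT : s.v ∈ s.T1 o1
  zT : s.z ∈ s.T1 o1
  jY : s.qj ∈ o1.Y
  lY : s.ql ∈ o2.Y
  tY : s.T1 o1 ⊆ o2.Y
  tI : s.T1 o1 ⊆ s.τ ∪ s.Rg 1
  wI : s.W1 o1 ⊆ s.τ ∪ s.Rg 1
  tw : s.τ ⊆ s.T1 o1 ∪ s.W1 o1
  rv : o1.ρ s.v = s.d.ρ s.qj - 1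
  rj : o1.ρ s.qj = s.d.ρ s.qj
  rl : o2.ρ s.ql = s.d.ρ s.ql
  rt : ∀ t ∈ s.T1 o1, o2.ρ t = s.d.ρ s.ql + (s.d.ρ s.qj - o1.ρ t)
  ry : ∀ y ∈ o2.Y, y ∉ s.T1 o1 → o2.ρ y ≤ s.d.ρ s.ql
  lj : s.d.ρ s.ql ≤ s.d.ρ s.qj
  /-- no pocket of the left disc hangs on the new path -/
  a2 : ∀ x ∈ o2.Z, x ∉ (s.dL o1).Z → o2.ax x ∉ s.T1 o1
  /-- the two discs overlap only in the new path, its pockets and possibly `ql = qj` -/
  ov : ∀ x, x ∉ (s.dL o1).Z → x ∉ s.dM.Z → x ∈ s.T1 o1 ∨ x ∈ s.W1 o1 ∨ (x = s.ql ∧ x = s.qj)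
  /-- the interior of the final disc -/
  mid : ∀ x, x ∈ (s.d.upd (s.fin H o1 o2)).I ↔
    x ∈ (s.dM.upd o1).I ∨ x ∈ ((s.dL o1).upd o2).I ∨ x ∈ s.Rg 2 ∨
      (x ∈ s.T1 o1 ∧ ¬ (s.Long H ∧ x = s.v)) ∨ (x ∈ s.Rg 3 ∧ ¬ s.Long H)

/-- Strict extension to the inside `D` of a triangle `a b e`. -/
def Tri (H : SimpleGraph W) (D : Set W) (a b e : W) : Prop :=
  ∀ c : W → Col, ¬ (c a = c b ∧ c b = c e) → ∃ c', Rec H D ∅ c c'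

end Pool.Agent.P.MP_08fd93_co.OV
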