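import Pool.Agent.P.MP_08fd93_co.OV.Def

/-! Definitions for the periodic part of project OV. -/

set_option autoImplicit false

namespace Pool.Agent.P.MP_08fd93_co.OV

/-- Vertices of the periodic graph. -/
abbrev Vx (J : Type) := J × (ℤ × ℤ)

variable {J : Type}

/-- A locally finite periodic plane triangulation with one end. -/
structure Fine (Γ : SimpleGraph (Vx J)) : Prop where
  pl : Pl Γ Set.univ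
  oe : OE Γ
  inv : ∀ a x y, Γ.Adj x y → Γ.Adj (tr a x) (tr a y)
  lf : ∀ x, {y | Γ.Adj x y}.Finite

/-- The quotient has no loop. -/
def NL (Γ : SimpleGraph (Vx J)) : Prop := ∀ x y, Γ.Adj x y → x.1 ≠ y.1

/-- An even additive lower bound for the length of closed walks that is attained. -/
structure Tight (Γ : SimpleGraph (Vx J)) (η : ℤ × ℤ →+ ℤ) : Prop where
  ev : ∀ a, Even (η a)
  le : ∀ x a, η a ≤ (Γ.dist x (tr a x) : ℤ)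
  ex : ∃ x a, 0 < η a ∧ (Γ.dist x (tr a x) : ℤ) ≤ η a

/-- A periodic colouring with defect one outside the orbits in `K`. -/
def Col1 (Γ : SimpleGraph (Vx J)) (K : Set J) (c : J → Col) : Prop :=
  ∀ x y z : Vx J, x.1 ∉ K → y.1 ∉ K → z.1 ∉ K → Γ.Adj x y → Γ.Adj x z →
    c y.1 = c x.1 → c z.1 = c x.1 → y = z

/-- One orbit different from `m` is deleted. -/
def Goal (Γ : SimpleGraph (Vx J)) (m : J) : Prop := ∃ μ, μ ≠ m ∧ ∃ c, Col1 Γ {μ} c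

/-- The shortest closed walk of class `c`. -/
noncomputable def DL (Γ : SimpleGraph (Vx J)) (c : ℤ × ℤ) : ℕ :=
  sInf {n | ∃ x, Γ.dist x (tr c x) = n}

/-- An integer norm with values at least three. -/
structure Nrm (D : ℤ × ℤ → ℕ) : Prop where
  add : ∀ a b, D (a + b) ≤ D a + D b
  smul : ∀ (k : ℤ) a, D (k • a) = k.natAbs * D a
  ge : ∀ a, a ≠ 0 → 3 ≤ D a

/-- The determinant. -/
def det (a b : ℤ × ℤ) : ℤ := a.1 * b.2 - a.2 * b.1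

/-- The dual polygon. -/
def KK (D : ℤ × ℤ → ℕ) : Set (ℝ × ℝ) :=
  {p | ∀ c : ℤ × ℤ, p.1 * (c.1 : ℝ) + p.2 * (c.2 : ℝ) ≤ (D c : ℝ)}

/-- A height function with a parent map. -/
structure Pot (Γ : SimpleGraph (Vx J)) (η : ℤ × ℤ →+ ℤ) (f : Vx J → ℤ) (an : Vx J → Vx J)
    (w : ℤ × ℤ) : Prop where
  fine : Fine Γ
  ev : ∀ a, Even (η a)
  per : ∀ a x, f (tr a x) = f x + η a
  lip : ∀ x y, Γ.Adj x y → f y ≤ f x + 1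
  aa : ∀ x, Γ.Adj x (an x)
  af : ∀ x, f (an x) = f x - 1
  atr : ∀ a x, an (tr a x) = tr a (an x)
  w0 : w ≠ 0
  ker : ∀ a, η a = 0 ↔ ∃ k : ℤ, a = k • w
  gen : ∃ b, 0 < η b ∧ ∀ a, η b ∣ η a

/-- All parent chains run into the translates of one periodic line. -/
structure Rid (f : Vx J → ℤ) (an : Vx J → Vx J) (γ : ℤ → Vx J) (N : ℕ) : Prop where
  gf : ∀ i, f (γ i) = i
  ga : ∀ i, an (γ i) = γ (i - 1)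
  gp : ∃ (n : ℤ) (c : ℤ × ℤ), 0 < n ∧ ∀ i, γ (i + n) = tr c (γ i)
  gs : ∀ a i i', tr a (γ i) = γ i' → tr a (γ (i + 1)) = γ (i' + 1)
  reach : ∀ x, ∃ i a, an^[N] x = tr a (γ i)

/-- The part at height at least `j` that reaches up to infinity. -/
def UU (Γ : SimpleGraph (Vx J)) (f : Vx J → ℤ) (j : ℤ) : Set (Vx J) :=
  {x | ∀ h : ℤ, ∃ y, h ≤ f y ∧ Conn Γ {z | j ≤ f z} x y}

/-- The level line. -/
def LL (Γ : SimpleGraph (Vx J)) (f : Vx J → ℤ) (j : ℤ) : Set (Vx J) :=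
  Nb Γ (UU Γ f (j + 1)) \ UU Γ f (j + 1)

/-- The inside of the strip below the level line `j`. -/
def ST (Γ : SimpleGraph (Vx J)) (f : Vx J → ℤ) (j : ℤ) : Set (Vx J) :=
  UU Γ f j \ (LL Γ f j ∪ UU Γ f (j + 1))

/-- Facts about the upper parts and the level sets. -/
structure UF (Γ : SimpleGraph (Vx J)) (η : ℤ × ℤ →+ ℤ) (f : Vx J → ℤ) (an : Vx J → Vx J)
    (w : ℤ × ℤ) : Prop where
  ge : ∀ j, ∀ x ∈ UU Γ f j, j ≤ f x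
  cl : ∀ j, ∀ x ∈ UU Γ f j, ∀ y, Γ.Adj x y → j ≤ f y → y ∈ UU Γ f j
  conn : ∀ j, IsConn Γ (UU Γ f j)
  low : ∀ j, IsConn Γ {x | f x ≤ j}
  big : ∃ M : ℤ, 0 ≤ M ∧ ∀ j x, j + M ≤ f x → x ∈ UU Γ f j
  mono : ∀ j j', j ≤ j' → UU Γ f j' ⊆ UU Γ f j
  utr : ∀ a j x, tr a x ∈ UU Γ f (j + η a) ↔ x ∈ UU Γ f j
  ltr : ∀ a j x, tr a x ∈ LL Γ f (j + η a) ↔ x ∈ LL Γ f j
  str : ∀ a j x, tr a x ∈ ST Γ f (j + η a) ↔ x ∈ ST Γ f j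
  lf : ∀ j, ∀ x ∈ LL Γ f j, f x = j
  lu : ∀ j, LL Γ f j ⊆ UU Γ f j
  bd : ∀ j, ∀ x ∈ UU Γ f j, ∀ y, Γ.Adj x y → y ∈ UU Γ f j ∨ y ∈ LL Γ f (j - 1)
  lan : ∀ j, ∀ x ∈ UU Γ f j, f x = j → an x ∈ LL Γ f (j - 1)
  lne : ∀ j, (LL Γ f j).Nonempty
  band : ∀ h h' : ℤ, ∃ F : Set (Vx J), F.Finite ∧
    ∀ x, h ≤ f x → f x ≤ h' → ∃ k : ℤ, tr (k • w) x ∈ F

/-- Data of a frame: heights, parents and parametrised level lines. -/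
structure FD (J : Type) where
  Γ : SimpleGraph (Vx J)
  η : ℤ × ℤ →+ ℤ
  f : Vx J → ℤ
  an : Vx J → Vx J
  w : ℤ × ℤ
  l : ℤ → ℤ → Vx J
  ρ : Vx J → ℤ
  nn : ℤ → ℤ

abbrev FD.U (F : FD J) (j : ℤ) : Set (Vx J) := UU F.Γ F.f j
abbrev FD.L (F : FD J) (j : ℤ) : Set (Vx J) := LL F.Γ F.f j
abbrev FD.St (F : FD J) (j : ℤ) : Set (Vx J) := ST F.Γ F.f j

/-- A frame. -/
structure Frm (F : FD J) : Prop where
  pot : Pot F.Γ F.η F.f F.an F.w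
  uf : UF F.Γ F.η F.f F.an F.w
  nj : NJ F.Γ Set.univ
  mem : ∀ j x, x ∈ F.L j ↔ ∃ i, x = F.l j i
  rho : ∀ j i, F.ρ (F.l j i) = i
  adj : ∀ j i i', F.Γ.Adj (F.l j i) (F.l j i') ↔ i' = i + 1 ∨ i = i' + 1
  lw : ∀ j i, tr F.w (F.l j i) = F.l j (i + F.nn j)
  n2 : ∀ j, 2 ≤ F.nn j
  ltr : ∀ a j, ∃ κ, ∀ i, tr a (F.l j i) = F.l (j + F.η a) (i + κ)

/-- All vertices on level lines; such a vertex also names the edge to its right. -/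
def FD.LA (F : FD J) : Set (Vx J) := {x | x ∈ F.L (F.f x)}

/-- The next vertex on the level line. -/
def FD.nx (F : FD J) (x : Vx J) : Vx J := F.l (F.f x) (F.ρ x + 1)

/-- The bottom path of the cell under the interval from `s` to `s'`. -/
def FD.Bot (F : FD J) (s s' : Vx J) : Set (Vx J) :=
  {z | z ∈ F.L (F.f s - 1) ∧ F.ρ (F.an s) ≤ F.ρ z ∧ F.ρ z ≤ F.ρ (F.an s')}

/-- The interval from `s` to `s'`. -/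
def FD.Top (F : FD J) (s s' : Vx J) : Set (Vx J) :=
  {z | z ∈ F.L (F.f s) ∧ F.ρ s ≤ F.ρ z ∧ F.ρ z ≤ F.ρ s'}

/-- The part of the strip under the interval from `s` to `s'`. -/
def FD.SI (F : FD J) (s s' : Vx J) : Set (Vx J) :=
  {v | v ∈ F.St (F.f s) ∧ ∀ y z, Conn F.Γ (F.St (F.f s)) v y → F.Γ.Adj y z →
    z ∈ F.St (F.f s) ∨ z ∈ F.Bot s s' ∨ z ∈ F.Top s s'}

/-- Facts about the static cells. -/
structure SIF (F : FD J) : Prop where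
  mono : ∀ j, ∀ s ∈ F.L j, ∀ t ∈ F.L j, F.ρ s ≤ F.ρ t → F.ρ (F.an s) ≤ F.ρ (F.an t)
  ex : ∀ j, ∀ v ∈ F.St j, ∃ s ∈ F.L j, v ∈ F.SI s (F.nx s)
  dis : ∀ j, ∀ s ∈ F.L j, ∀ s' ∈ F.L j, ∀ t ∈ F.L j, ∀ t' ∈ F.L j, F.ρ s' ≤ F.ρ t →
    Disjoint (F.SI s s') (F.SI t t')
  fin : ∀ j, ∀ s ∈ F.L j, ∀ s' ∈ F.L j, (F.SI s s').Finite
  sub : ∀ j, ∀ s ∈ F.L j, ∀ s' ∈ F.L j, ∀ t ∈ F.L j, ∀ t' ∈ F.L j, F.ρ s ≤ F.ρ t →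
    F.ρ t' ≤ F.ρ s' → F.SI t t' ⊆ F.SI s s'
  top : ∀ j, ∀ s ∈ F.L j, ∀ s' ∈ F.L j, ∀ h ∈ F.L j, F.ρ s < F.ρ h → F.ρ h < F.ρ s' →
    ∀ z, F.Γ.Adj h z → (z ∈ F.St j → z ∈ F.SI s s') ∧ (z ∈ F.L (j - 1) → z ∈ F.Bot s s')
  bot : ∀ j, ∀ s ∈ F.L j, ∀ s' ∈ F.L j, ∀ h ∈ F.L (j - 1), F.ρ (F.an s) < F.ρ h →
    F.ρ h < F.ρ (F.an s') →
    ∀ z, F.Γ.Adj h z → (z ∈ F.St j → z ∈ F.SI s s') ∧ (z ∈ F.L j → z ∈ F.Top s s')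

/-- `z` names the top edge of the static cell over the edge named by `y`. -/
def FD.Und (F : FD J) (y z : Vx J) : Prop :=
  z ∈ F.L (F.f y + 1) ∧ F.ρ (F.an z) ≤ F.ρ y ∧ F.ρ y < F.ρ (F.an (F.nx z))

/-- The map from an edge to the top edge of its cell. -/
structure PH (F : FD J) (φ : Vx J → Vx J) : Prop where
  und : ∀ y ∈ F.LA, F.Und y (φ y)
  uni : ∀ y ∈ F.LA, ∀ z, F.Und y z → z = φ y
  eqv : ∀ a, ∀ y ∈ F.LA, φ (tr a y) = tr a (φ y)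

/-- The free edges: one per period on each level, a barrier for all chains. -/
structure GS (F : FD J) (φ : Vx J → Vx J) (G : Set (Vx J)) (μ : J) : Prop where
  sub : G ⊆ F.LA
  inv : ∀ a, ∀ x ∈ G, tr a x ∈ G
  one : ∀ j, ∃ g, ∀ i, F.l j i ∈ G ↔ F.nn j ∣ i - g
  bar : ∃ N : ℕ, ∀ y ∈ F.LA, ∃ t, t ≤ N ∧ φ^[t] y ∈ G
  sel : ∀ y ∈ G, φ y ∈ G → (φ y).1 = μ

/-- A unit: the interval from `s` to `s'`, an apex `x` (equal to `s` if there is none) and its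
pocket. -/
@[ext] structure Un (J : Type) where
  s : Vx J
  x : Vx J
  s' : Vx J
  pk : Set (Vx J)

/-- The top path of a unit. -/
def Un.T (u : Un J) : Set (Vx J) := {u.s, u.x, u.s'}

/-- Translation of a unit. -/
def Un.act (a : ℤ × ℤ) (u : Un J) : Un J := ⟨tr a u.s, tr a u.x, tr a u.s', tr a '' u.pk⟩

/-- A unit with an apex. -/
structure Cap (F : FD J) (G : Set (Vx J)) (u : Un J) : Prop where
  lt : F.ρ u.s + 1 < F.ρ u.s'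
  xu : u.x ∈ F.U (F.f u.s + 1)
  sx : F.Γ.Adj u.s u.x
  xs : F.Γ.Adj u.x u.s'
  xn : ∀ z ∈ F.L (F.f u.s), F.Γ.Adj u.x z → z ∈ F.Top u.s u.s'
  xp : u.x ∉ u.pk
  fin : u.pk.Finite
  old : ∀ z ∈ F.L (F.f u.s), z ∈ u.pk ↔ F.ρ u.s < F.ρ z ∧ F.ρ z < F.ρ u.s'
  sub : u.pk ⊆ F.L (F.f u.s) ∪ F.U (F.f u.s + 1)
  cl : ∀ v ∈ u.pk, ∀ z, F.Γ.Adj v z → z ∈ F.L (F.f u.s) ∪ F.U (F.f u.s + 1) → z ∈ u.pk ∪ u.T
  ng : ∀ z ∈ F.Top u.s u.s', z ∈ G → z = u.s'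

/-- A valid unit. -/
structure Val (F : FD J) (G : Set (Vx J)) (u : Un J) : Prop where
  hs : u.s ∈ F.L (F.f u.s)
  hs' : u.s' ∈ F.L (F.f u.s)
  alt : (u.x = u.s ∧ F.ρ u.s' = F.ρ u.s + 1 ∧ u.pk = ∅) ∨ Cap F G u

/-- The unit covers the edge named by `y`. -/
def FD.Cov (F : FD J) (u : Un J) (y : Vx J) : Prop :=
  y ∈ F.L (F.f u.s) ∧ F.ρ u.s ≤ F.ρ y ∧ F.ρ y < F.ρ u.s'

/-- The interior of the cell under a unit. -/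
def FD.CI (F : FD J) (u : Un J) : Set (Vx J) := u.pk ∪ F.SI u.s u.s'

open Classical in
/-- The cell under a unit. -/
noncomputable def FD.cell (F : FD J) (u : Un J) : DD (Vx J) :=
  ⟨(F.Bot u.s u.s' ∪ u.T ∪ F.CI u)ᶜ, F.Bot u.s u.s', u.T,
    fun v => if v = u.x ∧ u.x ≠ u.s then F.ρ u.s + 1 else F.ρ v,
    F.an u.s, F.an u.s', u.s, u.s'⟩

/-- The bottom of the cell contains a free edge. -/
def FD.Cen (F : FD J) (G : Set (Vx J)) (u : Un J) : Prop :=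
  ∃ g ∈ G, g ∈ F.Bot u.s u.s' ∧ F.ρ g < F.ρ (F.an u.s')

open Classical in
/-- The vertex after `s` on the top path. -/
noncomputable def Un.snd (u : Un J) : Vx J := if u.x = u.s then u.s' else u.x

/-- The strict edge of the cell. -/
def FD.cellS (F : FD J) (G : Set (Vx J)) (u : Un J) : Set (Sym2 (Vx J)) :=
  {e | (∃ g ∈ G, g ∈ F.Bot u.s u.s' ∧ F.ρ g < F.ρ (F.an u.s') ∧ e = s(g, F.nx g)) ∨
    (¬ F.Cen G u ∧ e = s(u.s, u.snd))}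

/-- The units that an output leaves on the bottom of the cell. -/
def FD.outU (F : FD J) (u : Un J) (o : OD (Vx J)) : Set (Un J) :=
  {u' | u'.s ∈ F.Bot u.s u.s' ∩ o.X ∧ u'.s' ∈ F.Bot u.s u.s' ∩ o.X ∧
    ((u'.x = u'.s ∧ F.ρ u'.s' = F.ρ u'.s + 1 ∧ u'.pk = ∅) ∨
      (u'.x ∈ o.X ∧ u'.x ∉ F.Bot u.s u.s' ∧ F.Γ.Adj u'.s u'.x ∧ F.Γ.Adj u'.x u'.s' ∧
        F.ρ u'.s < F.ρ u'.s' ∧ u'.pk = Pk (F.cell u) o u'.x))}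

/-- The part of the cell that is coloured from the cell. -/
def FD.MM (F : FD J) (u : Un J) (O : Set (Un J)) : Set (Vx J) :=
  {v | v ∈ F.CI u ∧ ∀ u' ∈ O, v ∉ u'.T ∧ v ∉ u'.pk}

/-- The edges of the cell that must be paid. -/
def FD.LC (F : FD J) (G : Set (Vx J)) (u : Un J) (O : Set (Un J)) : Set (Sym2 (Vx J)) :=
  {e | (∃ u' ∈ O, u'.x = u'.s ∧ u'.s ∉ G ∧ e = s(u'.s, u'.s')) ∨
    (u.x ≠ u.s ∧ e = s(u.x, u.s')) ∨ (F.Cen G u ∧ e = s(u.s, u.snd))}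

/-- The shape of the output of a cell. -/
structure CO1 (F : FD J) (G : Set (Vx J)) (u : Un J) (O : Set (Un J)) : Prop where
  val : ∀ u' ∈ O, Val F G u' ∧ u'.s ∈ F.Bot u.s u.s' ∧ u'.s' ∈ F.Bot u.s u.s'
  cov : ∀ y ∈ F.Bot u.s u.s', F.ρ y < F.ρ (F.an u.s') → ∃ u' ∈ O, F.Cov u' y
  uni : ∀ u1 ∈ O, ∀ u2 ∈ O, ∀ y, F.Cov u1 y → F.Cov u2 y → u1 = u2
  sub : ∀ u' ∈ O, u'.T ∪ u'.pk ⊆ F.Bot u.s u.s' ∪ F.CI u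
  nadj : ∀ u1 ∈ O, ∀ u2 ∈ O, u1.x ≠ u1.s → u2.x ≠ u2.s → ¬ F.Γ.Adj u1.x u2.x

/-- The extension property of a cell. -/
def CO2 (F : FD J) (G : Set (Vx J)) (u : Un J) (O : Set (Un J)) : Prop :=
  ∀ (β : Bool) (c : Vx J → Col) (ω : Vx J → Vx J), (c (F.an u.s)).1 = β →
    (∀ u' ∈ O, ∀ v ∈ u'.T, (c v).1 = β) → (∀ v ∈ u.T, (c v).1 = !β) →
    Paid (F.LC G u O) c ω →
    (F.Cen G u → u.x ≠ u.s → ω u.x = u.s ∧ ω u.s' = u.x ∧ c u.x ≠ c u.s') →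
    ∃ c', Rec F.Γ (F.MM u O) (Pay (F.LC G u O) c ω) c c'

/-- A consistent periodic system of units. -/
structure Sol (F : FD J) (G : Set (Vx J)) (Q : Set (Un J)) (O : Un J → Set (Un J)) : Prop where
  val : ∀ u ∈ Q, Val F G u
  cov : ∀ y ∈ F.LA, ∃ u ∈ Q, F.Cov u y
  uni : ∀ u1 ∈ Q, ∀ u2 ∈ Q, ∀ y, F.Cov u1 y → F.Cov u2 y → u1 = u2
  co1 : ∀ u ∈ Q, CO1 F G u (O u)
  co2 : ∀ u ∈ Q, CO2 F G u (O u)
  fix : ∀ u', u' ∈ Q ↔ ∃ u ∈ Q, u' ∈ O u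
  inv : ∀ a, ∀ u ∈ Q, u.act a ∈ Q
  eqv : ∀ a, ∀ u ∈ Q, O (u.act a) = Un.act a '' O u
  ou : ∀ u1 ∈ Q, ∀ u2 ∈ Q, ∀ u', u' ∈ O u1 → u' ∈ O u2 → u1 = u2

/-- The skeleton line of level `j`. -/
def FD.SK (F : FD J) (Q : Set (Un J)) (j : ℤ) : Set (Vx J) :=
  {v | ∃ u ∈ Q, F.f u.s = j ∧ v ∈ u.T}

/-- The skeleton lines and the coloured parts of the cells partition the graph. -/
structure Prt (F : FD J) (Q : Set (Un J)) (O : Un J → Set (Un J)) : Prop where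
  cov : ∀ v, (∃ j, v ∈ F.SK Q j) ∨ ∃ u ∈ Q, v ∈ F.MM u (O u)
  ms : ∀ u ∈ Q, ∀ j, Disjoint (F.MM u (O u)) (F.SK Q j)
  mm : ∀ u1 ∈ Q, ∀ u2 ∈ Q, u1 ≠ u2 → Disjoint (F.MM u1 (O u1)) (F.MM u2 (O u2)) ∧
    ¬ Touch F.Γ (F.MM u1 (O u1)) (F.MM u2 (O u2))
  lev : ∀ j j', ∀ v ∈ F.SK Q j, v ∈ F.SK Q j' → j = j'
  near : ∀ j j', ∀ v ∈ F.SK Q j, ∀ v' ∈ F.SK Q j', F.Γ.Adj v v' → j' ≤ j + 1

/-- Abstract skeleton lines with free edges `G` and centre edges `C` (named by left ends). -/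
structure Cyc (K G C : Set (Vx J)) (nx pv : Vx J → Vx J) : Prop where
  kn : ∀ x ∈ K, nx x ∈ K ∧ pv x ∈ K ∧ pv (nx x) = x ∧ nx (pv x) = x
  kt : ∀ a, ∀ x ∈ K, tr a x ∈ K ∧ nx (tr a x) = tr a (nx x) ∧ pv (tr a x) = tr a (pv x)
  gk : G ⊆ K
  ck : C ⊆ K
  gt : ∀ a, ∀ x ∈ G, tr a x ∈ G
  ct : ∀ a, ∀ x ∈ C, tr a x ∈ C
  h1 : ∀ x ∈ K, ∃ t : ℕ, nx^[t] x ∈ G
  h2 : ∀ y ∈ G, ∃ t : ℕ, nx^[t + 1] y ∈ C ∧ ∀ t', t' < t → nx^[t' + 1] y ∉ G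
  h3 : ∀ x ∈ C, ∀ t : ℕ, nx^[t + 1] x ∈ C → ∃ a, nx^[t + 1] x = tr a x ∧
    ∃ t', t' ≤ t ∧ nx^[t'] x ∈ G
  h4 : ∀ y ∈ G, ∀ t : ℕ, nx^[t] y ∈ G → ∃ a, nx^[t] y = tr a y

/-- A periodic two-colouring of the skeleton lines; `A` is the part before the centre. -/
structure Bit (K G C : Set (Vx J)) (nx : Vx J → Vx J) (bit : J → Bool) (A : Set J) : Prop where
  alt : ∀ x ∈ K, x ∉ C → bit (nx x).1 ≠ bit x.1
  ag : ∀ x ∈ G, x.1 ∉ A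
  ac : ∀ x ∈ C, x ∉ G → x.1 ∈ A
  cn : ∀ x ∈ C, (nx x).1 ∉ A
  na : ∀ x ∈ K, x ∉ G → x.1 ∉ A → (nx x).1 ∉ A

/-- The left ends of the centre edges. -/
def FD.CS (F : FD J) (G : Set (Vx J)) (Q : Set (Un J)) : Set (Vx J) :=
  {v | ∃ u ∈ Q, F.Cen G u ∧ v = u.s}

/-- The successor map of the skeleton. -/
structure Skl (F : FD J) (G : Set (Vx J)) (Q : Set (Un J)) (nx pv : Vx J → Vx J) : Prop where
  cyc : Cyc {v | ∃ j, v ∈ F.SK Q j} G (F.CS G Q) nx pv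
  ns : ∀ u ∈ Q, nx u.s = u.snd
  nxx : ∀ u ∈ Q, u.x ≠ u.s → nx u.x = u.s'
  lev : ∀ j, ∀ v ∈ F.SK Q j, nx v ∈ F.SK Q j ∧ pv v ∈ F.SK Q j
  adj : ∀ j, ∀ v ∈ F.SK Q j, ∀ v' ∈ F.SK Q j, F.Γ.Adj v v' → v' = nx v ∨ v' = pv v
  n2 : ∀ j, ∀ v ∈ F.SK Q j, nx v ≠ v ∧ nx (nx v) ≠ v
  own : ∀ u1 ∈ Q, ∀ u2 ∈ Q, ∀ v, (v = u1.s ∨ v = u1.x) → (v = u2.s ∨ v = u2.x) → u1 = u2

/-- Translation invariance of the notions attached to units. -/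
structure Iso (F : FD J) (G : Set (Vx J)) : Prop where
  val : ∀ a u, Val F G u → Val F G (u.act a)
  cov : ∀ a u y, Val F G u → (F.Cov (u.act a) (tr a y) ↔ F.Cov u y)
  cen : ∀ a u, Val F G u → (F.Cen G (u.act a) ↔ F.Cen G u)
  co1 : ∀ a u O, Val F G u → CO1 F G u O → CO1 F G (u.act a) (Un.act a '' O)
  co2 : ∀ a u O, Val F G u → CO2 F G u O → CO2 F G (u.act a) (Un.act a '' O)
  mm : ∀ a u O v, Val F G u → (tr a v ∈ F.MM (u.act a) (Un.act a '' O) ↔ v ∈ F.MM u O)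
  lc : ∀ a u O p q, Val F G u →
    (s(tr a p, tr a q) ∈ F.LC G (u.act a) (Un.act a '' O) ↔ s(p, q) ∈ F.LC G u O)

/-- A small connected set whose contraction makes `η` tight; `dl` is the deleted orbit. -/
structure Con (Γ : SimpleGraph (Vx J)) (η : ℤ × ℤ →+ ℤ) (Fs : Set (Vx J)) (x0 : Vx J)
    (dl : J) : Prop where
  ev : ∀ a, Even (η a)
  h0 : x0 ∈ Fs
  fin : Fs.Finite
  conn : IsConn Γ Fs
  inj : ∀ y ∈ Fs, ∀ y' ∈ Fs, y.1 = y'.1 → y = y'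
  nl : ∀ y ∈ Fs, ∀ y' ∈ Fs, ∀ a, Γ.Adj y (tr a y') → a = 0
  pot : ∀ y ∈ Fs, ∀ y' ∈ Fs, ∀ a, a ≠ 0 → η a ≤ (Γ.dist y (tr a y') : ℤ)
  ex : ∃ y ∈ Fs, ∃ y' ∈ Fs, ∃ a, 0 < η a ∧ (Γ.dist y (tr a y') : ℤ) ≤ η a
  one : ∀ y ∈ Fs, ∀ y' ∈ Fs, y.1 ≠ dl → y'.1 ≠ dl → y ≠ y' →
    ¬ Γ.Adj y y' ∧ ∀ z : Vx J, z.1 ≠ dl → Γ.Adj z y → ¬ Γ.Adj z y'

end Pool.Agent.P.MP_08fd93_co.OV
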