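import Pool.Agent.P.MP_08fd93_co.OV.St2

/-! Small toolbox for walks inside sets and for translations (project OV). -/

set_option autoImplicit false

namespace Pool.Agent.P.MP_08fd93_co.OV.H15

variable {W : Type} {H : SimpleGraph W}

theorem csymm {A : Set W} {a b : W} (h : Conn H A a b) : Conn H A b a := by
  induction h with
  | refl => exact Relation.ReflTransGen.refl
  | tail _ hs ih => exact Relation.ReflTransGen.head ⟨hs.2.1, hs.1, hs.2.2.symm⟩ ih

theorem ctrans {A : Set W} {a b c : W} (h : Conn H A a b) (h' : Conn H A b c) : Conn H A a c :=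
  Relation.ReflTransGen.trans h h'

theorem cmono {A B : Set W} (hAB : A ⊆ B) {a b : W} (h : Conn H A a b) : Conn H B a b := by
  induction h with
  | refl => exact Relation.ReflTransGen.refl
  | tail _ hs ih => exact Relation.ReflTransGen.tail ih ⟨hAB hs.1, hAB hs.2.1, hs.2.2⟩

theorem cstep {A : Set W} {a b : W} (ha : a ∈ A) (hb : b ∈ A) (h : H.Adj a b) : Conn H A a b :=
  Relation.ReflTransGen.single ⟨ha, hb, h⟩

theorem cmem {A : Set W} {a b : W} (ha : a ∈ A) (h : Conn H A a b) : b ∈ A := by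
  induction h with
  | refl => exact ha
  | tail _ hs _ => exact hs.2.1

/-- A set that is closed under steps inside `A` contains the ends of walks inside `A`. -/
theorem cclosed {A K : Set W} {a b : W} (ha : a ∈ K)
    (hK : ∀ x ∈ K, ∀ y ∈ A, H.Adj x y → y ∈ K) (h : Conn H A a b) : b ∈ K := by
  induction h with
  | refl => exact ha
  | tail _ hs ih => exact hK _ ih _ hs.2.1 hs.2.2

/-- The first exit of a walk from a set. -/
theorem cexit {A K : Set W} {a b : W} (ha : a ∈ K) (hb : b ∉ K) (h : Conn H A a b) :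
    ∃ x ∈ K, ∃ y, y ∉ K ∧ y ∈ A ∧ H.Adj x y := by
  by_contra hc
  push Not at hc
  apply hb
  refine cclosed ha ?_ h
  intro x hx y hy hxy
  by_contra hy'
  exact hc x hx y hy' hy hxy

/-- The component of a vertex is connected. -/
theorem comp_conn (A : Set W) (a : W) : IsConn H {y | Conn H A a y} := by
  have key : ∀ y, Conn H A a y → Conn H {y | Conn H A a y} a y := by
    intro y hy
    induction hy with
    | refl => exact Relation.ReflTransGen.refl
    | tail h1 hs ih =>
      exact Relation.ReflTransGen.tail ih ⟨h1, Relation.ReflTransGen.tail h1 hs, hs.2.2⟩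
  intro x hx y hy
  exact ctrans (csymm (key x hx)) (key y hy)

/-- A set is connected if all its points are joined to one point. -/
theorem isConn_of_base {A : Set W} (a : W) (h : ∀ x ∈ A, Conn H A a x) : IsConn H A :=
  fun x hx y hy => ctrans (csymm (h x hx)) (h y hy)

theorem isConn_single (a : W) : IsConn H {a} := by
  intro x hx y hy
  rw [Set.mem_singleton_iff] at hx hy
  subst hx; subst hy
  exact Relation.ReflTransGen.refl

/-- Two connected sets that touch have a connected union. -/
theorem isConn_union {A B : Set W} (hA : IsConn H A) (hB : IsConn H B) (hT : Touch H A B) :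
    IsConn H (A ∪ B) := by
  obtain ⟨a, ha, b, hb, hab⟩ := hT
  apply isConn_of_base a
  intro x hx
  rcases hx with hx | hx
  · exact cmono Set.subset_union_left (hA a ha x hx)
  · exact ctrans (cstep (Or.inl ha) (Or.inr hb) hab) (cmono Set.subset_union_right (hB b hb x hx))

/-- A connected set together with vertices adjacent to it is connected. -/
theorem isConn_nb {A B : Set W} (hA : IsConn H A) (hB : B ⊆ Nb H A) : IsConn H (A ∪ B) := by
  have key : ∀ x ∈ A ∪ B, ∃ a ∈ A, Conn H (A ∪ B) a x := by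
    intro x hx
    rcases hx with hx | hx
    · exact ⟨x, hx, Relation.ReflTransGen.refl⟩
    · obtain ⟨a, ha, hxa⟩ := hB hx
      exact ⟨a, ha, cstep (Or.inl ha) (Or.inr hx) hxa.symm⟩
  intro x hx y hy
  obtain ⟨a, ha, h1⟩ := key x hx
  obtain ⟨b, hb, h2⟩ := key y hy
  exact ctrans (csymm h1) (ctrans (cmono Set.subset_union_left (hA a ha b hb)) h2)

/-- A walk lies in a finite connected set. -/
theorem fin_supp {A : Set W} {a b : W} (ha : a ∈ A) (h : Conn H A a b) :
    ∃ P : Set W, P ⊆ A ∧ P.Finite ∧ IsConn H P ∧ a ∈ P ∧ b ∈ P := by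
  induction h with
  | refl => exact ⟨{a}, by simpa using ha, Set.finite_singleton a, isConn_single a, rfl, rfl⟩
  | @tail x y _ hs ih =>
    obtain ⟨P, h1, h2, h3, h4, h5⟩ := ih
    refine ⟨P ∪ {y}, ?_, h2.union (Set.finite_singleton y), ?_, Or.inl h4, Or.inr rfl⟩
    · rintro z (hz | hz)
      · exact h1 hz
      · rw [Set.mem_singleton_iff] at hz; subst hz; exact hs.2.1
    · exact isConn_union h3 (isConn_single y) ⟨x, h5, y, rfl, hs.2.2⟩

theorem reach {A : Set W} {a b : W} (h : Conn H A a b) : H.Reachable a b := by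
  induction h with
  | refl => exact SimpleGraph.Reachable.refl a
  | tail _ hs ih => exact ih.trans hs.2.2.reachable

variable {J : Type}

theorem tr_zero (x : Vx J) : tr 0 x = x := by simp [tr]

theorem tr_tr (a b : ℤ × ℤ) (x : Vx J) : tr a (tr b x) = tr (b + a) x := by
  simp [tr, add_assoc]

theorem tr_neg (a : ℤ × ℤ) (x : Vx J) : tr (-a) (tr a x) = x := by simp [tr]

theorem tr_neg' (a : ℤ × ℤ) (x : Vx J) : tr a (tr (-a) x) = x := by simp [tr]

theorem tr_fst (a : ℤ × ℤ) (x : Vx J) : (tr a x).1 = x.1 := rfl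

theorem tr_inj (a : ℤ × ℤ) : Function.Injective (tr a : Vx J → Vx J) := by
  intro x y h
  have := congrArg (tr (-a)) h
  simpa [tr_neg] using this

theorem tr_left_inj {a b : ℤ × ℤ} {x : Vx J} (h : tr a x = tr b x) : a = b := by
  have := congrArg Prod.snd h
  simpa [tr] using this

theorem tr_of_fst {x y : Vx J} (h : x.1 = y.1) : tr (y.2 - x.2) x = y := by
  obtain ⟨u, s⟩ := x
  obtain ⟨v, t⟩ := y
  simp only at h
  subst h
  simp [tr]

/-- Translation of a walk. -/
theorem ctr {Γ : SimpleGraph (Vx J)} (hinv : ∀ a x y, Γ.Adj x y → Γ.Adj (tr a x) (tr a y))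
    (c : ℤ × ℤ) {A B : Set (Vx J)} (hAB : ∀ x ∈ A, tr c x ∈ B) {a b : Vx J}
    (h : Conn Γ A a b) : Conn Γ B (tr c a) (tr c b) := by
  induction h with
  | refl => exact Relation.ReflTransGen.refl
  | tail _ hs ih =>
    exact Relation.ReflTransGen.tail ih ⟨hAB _ hs.1, hAB _ hs.2.1, hinv c _ _ hs.2.2⟩

theorem isConn_tr {Γ : SimpleGraph (Vx J)}
    (hinv : ∀ a x y, Γ.Adj x y → Γ.Adj (tr a x) (tr a y)) (c : ℤ × ℤ) {A : Set (Vx J)}
    (hA : IsConn Γ A) : IsConn Γ (tr c '' A) := by
  rintro _ ⟨x, hx, rfl⟩ _ ⟨y, hy, rfl⟩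
  exact ctr hinv c (fun z hz => Set.mem_image_of_mem _ hz) (hA x hx y hy)

theorem mem_tr {c : ℤ × ℤ} {A : Set (Vx J)} {x : Vx J} : x ∈ tr c '' A ↔ tr (-c) x ∈ A := by
  constructor
  · rintro ⟨y, hy, rfl⟩
    rwa [tr_neg]
  · intro h
    exact ⟨_, h, tr_neg' c x⟩

end Pool.Agent.P.MP_08fd93_co.OV.H15
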