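import Pool.Agent.P.MP_08fd93_co.OV.St2

/-! Package Cell of project OV. -/

set_option autoImplicit false

namespace Pool.Agent.P.MP_08fd93_co.OV

namespace PkCellP

section gen

variable {W : Type} {H : SimpleGraph W}

theorem cMono {A B : Set W} (h : A ⊆ B) {x y : W} (c : Conn H A x y) : Conn H B x y := by
  induction c with
  | refl => exact Relation.ReflTransGen.refl
  | tail _ e ih => exact Relation.ReflTransGen.tail ih ⟨h e.1, h e.2.1, e.2.2⟩

theorem cSymm {A : Set W} {x y : W} (c : Conn H A x y) : Conn H A y x := by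
  induction c with
  | refl => exact Relation.ReflTransGen.refl
  | tail _ e ih => exact Relation.ReflTransGen.head ⟨e.2.1, e.1, e.2.2.symm⟩ ih

theorem cStep {A : Set W} {x y : W} (hx : x ∈ A) (hy : y ∈ A) (h : H.Adj x y) : Conn H A x y :=
  Relation.ReflTransGen.single ⟨hx, hy, h⟩

theorem cMem {A : Set W} {x y : W} (c : Conn H A x y) (hx : x ∈ A) : y ∈ A := by
  induction c with
  | refl => exact hx
  | tail _ e _ => exact e.2.1

/-- The component of `x` in `A`. -/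
def Cmp (H : SimpleGraph W) (A : Set W) (x : W) : Set W := {y | Conn H A x y}

theorem cmpIn {A : Set W} {x y : W} (c : Conn H A x y) : Conn H (Cmp H A x) x y := by
  induction c with
  | refl => exact Relation.ReflTransGen.refl
  | tail c e ih => exact ih.tail ⟨c, c.tail e, e.2.2⟩

theorem cmpConn (A : Set W) (x : W) : IsConn H (Cmp H A x) :=
  fun _ ha _ hb => (cSymm (cmpIn ha)).trans (cmpIn hb)

theorem cExit {A S : Set W} {x y : W} (c : Conn H A x y) (hx : x ∈ S) (hy : y ∉ S) :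
    ∃ p ∈ S, ∃ q ∈ A, q ∉ S ∧ H.Adj p q := by
  induction c with
  | refl => exact absurd hx hy
  | @tail b c _ e ih =>
    by_cases hb : b ∈ S
    · exact ⟨b, hb, c, e.2.1, hy, e.2.2⟩
    · exact ih hb

end gen

variable {J : Type} {F : FD J} {G : Set (Vx J)}

theorem lU {j : ℤ} {x : Vx J} (hx : x ∈ F.L j) : x ∉ F.U (j + 1) := hx.2

theorem lU' {j : ℤ} {x : Vx J} (hx : x ∈ F.L (j - 1)) : x ∉ F.U j := by
  have := lU hx
  rwa [sub_add_cancel] at this

theorem lmem (hF : Frm F) (j i : ℤ) : F.l j i ∈ F.L j := (hF.mem _ _).2 ⟨i, rfl⟩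

theorem leq (hF : Frm F) {j : ℤ} {x : Vx J} (hx : x ∈ F.L j) : x = F.l j (F.ρ x) := by
  obtain ⟨i, rfl⟩ := (hF.mem j x).1 hx
  rw [hF.rho]

theorem rinj (hF : Frm F) {j : ℤ} {x y : Vx J} (hx : x ∈ F.L j) (hy : y ∈ F.L j)
    (h : F.ρ x = F.ρ y) : x = y := by
  rw [leq hF hx, leq hF hy, h]

theorem ladj (hF : Frm F) {j : ℤ} {x y : Vx J} (hx : x ∈ F.L j) (hy : y ∈ F.L j) :
    F.Γ.Adj x y ↔ F.ρ y = F.ρ x + 1 ∨ F.ρ x = F.ρ y + 1 := by
  obtain ⟨i, rfl⟩ := (hF.mem j x).1 hx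
  obtain ⟨i', rfl⟩ := (hF.mem j y).1 hy
  rw [hF.rho, hF.rho]
  exact hF.adj j i i'

theorem lConn (hF : Frm F) {A : Set (Vx J)} {j i i' : ℤ} (h : i ≤ i')
    (hA : ∀ k, i ≤ k → k ≤ i' → F.l j k ∈ A) : Conn F.Γ A (F.l j i) (F.l j i') := by
  induction i', h using Int.leInduction with
  | base => exact Relation.ReflTransGen.refl
  | succ n hn ih =>
    exact (ih fun k h1 h2 => hA k h1 (by omega)).tail
      ⟨hA n hn (by omega), hA (n + 1) (by omega) le_rfl, (hF.adj j n (n + 1)).2 (Or.inl rfl)⟩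

theorem anL (hF : Frm F) {j : ℤ} {x : Vx J} (hx : x ∈ F.L j) : F.an x ∈ F.L (j - 1) :=
  hF.uf.lan j x (hF.uf.lu j hx) (hF.uf.lf j x hx)

theorem anUp (hF : Frm F) (j i : ℤ) :
    F.ρ (F.an (F.l j (i + F.nn j))) = F.ρ (F.an (F.l j i)) + F.nn (j - 1) := by
  rw [← hF.lw, hF.pot.atr]
  obtain ⟨k, hk⟩ := (hF.mem _ _).1 (anL hF (lmem hF j i))
  rw [hk, hF.lw, hF.rho, hF.rho]

theorem vlt {u : Un J} (hu : Val F G u) : F.ρ u.s < F.ρ u.s' := by
  rcases hu.alt with h | h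
  · omega
  · have := h.lt
    omega

theorem capOf {u : Un J} (hu : Val F G u) {v : Vx J} (hv : v ∈ u.pk) : Cap F G u := by
  rcases hu.alt with h | h
  · rw [h.2.2] at hv
    exact absurd hv (Set.notMem_empty v)
  · exact h

theorem capX {u : Un J} (hu : Val F G u) (h : u.x ≠ u.s) : Cap F G u :=
  hu.alt.resolve_left fun h' => h h'.1

theorem tsub {u : Un J} (hu : Val F G u) {v : Vx J} (hv : v ∈ u.T) :
    v = u.s ∨ v = u.s' ∨ (v = u.x ∧ Cap F G u) := by
  rcases hv with h | h | h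
  · exact Or.inl h
  · rcases hu.alt with h' | h'
    · exact Or.inl (h.trans h'.1)
    · exact Or.inr (Or.inr ⟨h, h'⟩)
  · exact Or.inr (Or.inl h)

theorem tLU {u : Un J} (hu : Val F G u) {v : Vx J} (hv : v ∈ u.T) :
    v ∈ F.L (F.f u.s) ∨ v ∈ F.U (F.f u.s + 1) := by
  rcases tsub hu hv with h | h | ⟨h, hc⟩
  · exact Or.inl (h ▸ hu.hs)
  · exact Or.inl (h ▸ hu.hs')
  · exact Or.inr (h ▸ hc.xu)

theorem pLU {u : Un J} (hu : Val F G u) {v : Vx J} (hv : v ∈ u.pk) :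
    v ∈ F.L (F.f u.s) ∨ v ∈ F.U (F.f u.s + 1) := (capOf hu hv).sub hv

theorem stNot {j : ℤ} {v : Vx J} (hv : v ∈ F.St j) (h : v ∈ F.L j ∨ v ∈ F.U (j + 1)) : False :=
  hv.2 h

theorem luU (hF : Frm F) {j : ℤ} {v : Vx J} (h : v ∈ F.L j ∨ v ∈ F.U (j + 1)) : v ∈ F.U j := by
  rcases h with h | h
  · exact hF.uf.lu j h
  · exact hF.uf.mono j (j + 1) (by omega) h

theorem ciU (hF : Frm F) {u : Un J} (hu : Val F G u) {v : Vx J} (hv : v ∈ F.CI u) :
    v ∈ F.U (F.f u.s) := by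
  rcases hv with h | h
  · exact luU hF (pLU hu h)
  · exact h.1.1

theorem pkT {u : Un J} (hu : Val F G u) {v : Vx J} (hv : v ∈ u.pk) (hT : v ∈ u.T) : False := by
  have c := capOf hu hv
  rcases tsub hu hT with h | h | ⟨h, -⟩
  · have := (c.old _ hu.hs).1 (h ▸ hv)
    omega
  · have := (c.old _ hu.hs').1 (h ▸ hv)
    omega
  · exact c.xp (h ▸ hv)

theorem interior (hF : Frm F) {u : Un J} (hu : Val F G u) : (F.cell u).I = F.CI u := by
  ext v
  constructor
  · intro h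
    by_contra hc
    refine h ?_
    by_cases h1 : v ∈ F.Bot u.s u.s' ∪ u.T
    · exact Or.inr h1
    · exact Or.inl fun h2 => h2.elim h1 hc
  · intro h h'
    rcases h' with h' | h' | h'
    · exact h' (Or.inr h)
    · exact lU' h'.1 (ciU hF hu h)
    · rcases h with h | h
      · exact pkT hu h h'
      · exact stNot h.1 (tLU hu h')

theorem rhoL {u : Un J} (hu : Val F G u) {v : Vx J} (hv : v ∉ F.U (F.f u.s + 1)) :
    (F.cell u).ρ v = F.ρ v := by
  refine if_neg ?_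
  rintro ⟨h1, h2⟩
  exact hv (h1 ▸ (capX hu h2).xu)

theorem capNe {u : Un J} (hu : Val F G u) (hc : Cap F G u) : u.x ≠ u.s :=
  fun h => lU hu.hs (h ▸ hc.xu)

theorem rhoX {u : Un J} (hu : Val F G u) (hc : Cap F G u) : (F.cell u).ρ u.x = F.ρ u.s + 1 :=
  if_pos ⟨rfl, capNe hu hc⟩

theorem rhoB (hF : Frm F) {u : Un J} (hu : Val F G u) {v : Vx J} (hv : v ∈ F.L (F.f u.s - 1)) :
    (F.cell u).ρ v = F.ρ v :=
  rhoL hu fun h => lU' hv (luU hF (Or.inr h))

theorem botFin (hF : Frm F) (s s' : Vx J) : (F.Bot s s').Finite := by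
  refine ((Set.finite_Icc (F.ρ (F.an s)) (F.ρ (F.an s'))).image (F.l (F.f s - 1))).subset ?_
  intro z hz
  exact ⟨F.ρ z, ⟨hz.2.1, hz.2.2⟩, (leq hF hz.1).symm⟩

theorem pathX (hF : Frm F) (hS : SIF F) {u : Un J} (hu : Val F G u) :
    Pth F.Γ (F.Bot u.s u.s') (F.cell u).ρ (F.an u.s) (F.an u.s') := by
  have a1 := anL hF hu.hs
  have a2 := anL hF hu.hs'
  have hm := hS.mono _ _ hu.hs _ hu.hs' (vlt hu).le
  refine ⟨botFin hF _ _, ⟨a1, le_rfl, hm⟩, ⟨a2, hm, le_rfl⟩, ?_, ?_, ?_, ?_⟩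
  · intro v hv
    rw [rhoB hF hu a1, rhoB hF hu hv.1]
    exact hv.2.1
  · intro v hv
    rw [rhoB hF hu a2, rhoB hF hu hv.1]
    exact hv.2.2
  · intro v hv v' hv' h
    rw [rhoB hF hu hv.1, rhoB hF hu hv'.1] at h
    exact rinj hF hv.1 hv'.1 h
  · intro v hv v' hv' h
    rw [rhoB hF hu hv.1, rhoB hF hu hv'.1] at h ⊢
    rw [ladj hF hv.1 hv'.1]
    constructor
    · intro h1 x hx
      rw [rhoB hF hu hx.1]
      omega
    · intro h1
      have hm1 := lmem hF (F.f u.s - 1) (F.ρ v + 1)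
      have b1 := hv.2.1
      have b2 := hv'.2.2
      have := h1 _ ⟨hm1, by rw [hF.rho]; omega, by rw [hF.rho]; omega⟩
      rw [rhoB hF hu hm1, hF.rho] at this
      omega

theorem pathY (hF : Frm F) {u : Un J} (hu : Val F G u) :
    Pth F.Γ u.T (F.cell u).ρ u.s u.s' := by
  have r1 := rhoL hu (lU hu.hs)
  have r2 := rhoL hu (lU hu.hs')
  have hl := vlt hu
  have m1 : u.s ∈ u.T := Or.inl rfl
  have m2 : u.x ∈ u.T := Or.inr (Or.inl rfl)
  have m3 : u.s' ∈ u.T := Or.inr (Or.inr rfl)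
  have val : ∀ v ∈ u.T, (v = u.s ∧ (F.cell u).ρ v = F.ρ u.s) ∨
      (v = u.s' ∧ (F.cell u).ρ v = F.ρ u.s') ∨
      (v = u.x ∧ Cap F G u ∧ (F.cell u).ρ v = F.ρ u.s + 1 ∧ F.ρ u.s + 1 < F.ρ u.s') := by
    intro v hv
    rcases tsub hu hv with h | h | ⟨h, hc⟩
    · exact Or.inl ⟨h, h ▸ r1⟩
    · exact Or.inr (Or.inl ⟨h, h ▸ r2⟩)
    · exact Or.inr (Or.inr ⟨h, hc, h ▸ rhoX hu hc, hc.lt⟩)
  refine ⟨((Set.finite_singleton _).insert _).insert _, m1, m3, ?_, ?_, ?_, ?_⟩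
  · intro v hv
    rcases val v hv with h | h | h <;> omega
  · intro v hv
    rcases val v hv with h | h | h <;> omega
  · intro v hv v' hv' e
    rcases val v hv with h | h | h <;> rcases val v' hv' with h' | h' | h' <;>
      first | exact h.1.trans h'.1.symm | omega
  · intro v hv v' hv' e
    rcases val v hv with h | h | h <;> rcases val v' hv' with h' | h' | h' <;> try omega
    · rw [h.2, h'.2, h.1, h'.1, ladj hF hu.hs hu.hs']
      constructor
      · intro h1 x hx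
        rcases val x hx with k | k | k <;> omega
      · intro h1
        rcases hu.alt with k | k
        · omega
        · have := h1 _ m2
          have := rhoX hu k
          have := k.lt
          omega
    · rw [h.2, h'.2.2.1, h.1, h'.1]
      refine ⟨fun _ x _ => by omega, fun _ => h'.2.1.sx⟩
    · rw [h'.2, h.2.2.1, h.1, h'.1]
      refine ⟨fun _ x hx => ?_, fun _ => h.2.1.xs⟩
      rcases val x hx with k | k | k <;> omega

theorem siStep {s s' v z : Vx J} (hv : v ∈ F.SI s s') (hz : z ∈ F.St (F.f s))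
    (h : F.Γ.Adj v z) : z ∈ F.SI s s' :=
  ⟨hz, fun y z' c a => hv.2 y z' (Relation.ReflTransGen.head ⟨hv.1, hz, h⟩ c) a⟩

theorem topIn (hF : Frm F) {u : Un J} (hu : Val F G u) {z : Vx J} (hz : z ∈ F.Top u.s u.s') :
    z ∈ u.T ∨ z ∈ u.pk := by
  rcases eq_or_lt_of_le hz.2.1 with h | h
  · exact Or.inl (Or.inl (rinj hF hz.1 hu.hs h.symm))
  · rcases eq_or_lt_of_le hz.2.2 with h' | h'
    · exact Or.inl (Or.inr (Or.inr (rinj hF hz.1 hu.hs' h')))
    · rcases hu.alt with k | k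
      · omega
      · exact Or.inr ((k.old z hz.1).2 ⟨h, h'⟩)

theorem ciNb (hF : Frm F) (hS : SIF F) {u : Un J} (hu : Val F G u) {v z : Vx J}
    (hv : v ∈ F.CI u) (h : F.Γ.Adj v z) : z ∈ F.Bot u.s u.s' ∪ u.T ∪ F.CI u := by
  rcases hv with hv | hv
  · have c := capOf hu hv
    by_cases hz : z ∈ F.L (F.f u.s) ∪ F.U (F.f u.s + 1)
    · rcases c.cl v hv z h hz with k | k
      · exact Or.inr (Or.inl k)
      · exact Or.inl (Or.inr k)
    · have hL : v ∈ F.L (F.f u.s) := by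
        rcases c.sub hv with k | k
        · exact k
        · rcases hF.uf.bd _ _ k z h with k' | k'
          · exact absurd (Or.inr k') hz
          · rw [add_sub_cancel_right] at k'
            exact absurd (Or.inl k') hz
      have ho := (c.old v hL).1 hv
      have ht := hS.top _ _ hu.hs _ hu.hs' v hL ho.1 ho.2 z h
      rcases hF.uf.bd _ _ (hF.uf.lu _ hL) z h with k | k
      · exact Or.inr (Or.inr (ht.1 ⟨k, hz⟩))
      · exact Or.inl (Or.inl (ht.2 k))
  · rcases hv.2 v z Relation.ReflTransGen.refl h with k | k | k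
    · exact Or.inr (Or.inr (siStep hv k h))
    · exact Or.inl (Or.inl k)
    · rcases topIn hF hu k with k | k
      · exact Or.inl (Or.inr k)
      · exact Or.inr (Or.inl k)

theorem zLow (hF : Frm F) {u : Un J} (hu : Val F G u) {v : Vx J} (h1 : v ∉ F.U (F.f u.s))
    (h2 : v ∉ F.Bot u.s u.s') : v ∈ (F.cell u).Z := by
  rintro ((k | k) | k)
  · exact h2 k
  · exact h1 (luU hF (tLU hu k))
  · exact h1 (ciU hF hu k)

theorem zB (hF : Frm F) {u : Un J} (hu : Val F G u) {v : Vx J} (h : F.f v ≤ F.f u.s - 2) :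
    v ∈ (F.cell u).Z := by
  refine zLow hF hu (fun k => ?_) (fun k => ?_)
  · have := hF.uf.ge _ _ k
    omega
  · have := hF.uf.lf _ _ k.1
    omega

theorem zRay (hF : Frm F) {u : Un J} (hu : Val F G u) {v : Vx J} (h1 : v ∈ F.L (F.f u.s))
    (h2 : F.ρ v < F.ρ u.s ∨ F.ρ u.s' < F.ρ v) : v ∈ (F.cell u).Z := by
  have hl := vlt hu
  rintro ((k | k) | k | k)
  · exact lU' k.1 (hF.uf.lu _ h1)
  · rcases tsub hu k with e | e | ⟨e, c⟩
    · rw [e] at h2
      omega
    · rw [e] at h2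
      omega
    · exact lU h1 (e ▸ c.xu)
  · have := ((capOf hu k).old v h1).1 k
    omega
  · exact stNot k.1 (Or.inl h1)

theorem zSt {u : Un J} (hu : Val F G u) {v : Vx J} (h1 : v ∈ F.St (F.f u.s))
    (h2 : v ∉ F.SI u.s u.s') : v ∈ (F.cell u).Z := by
  rintro ((k | k) | k | k)
  · exact lU' k.1 h1.1
  · exact stNot h1 (tLU hu k)
  · exact stNot h1 (pLU hu k)
  · exact h2 k

theorem zUp (hF : Frm F) {u : Un J} (hu : Val F G u) {v : Vx J} (h1 : v ∈ F.U (F.f u.s + 1))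
    (h2 : v ∉ u.pk) (h3 : v ≠ u.x) : v ∈ (F.cell u).Z := by
  rintro ((k | k) | k | k)
  · exact lU' k.1 (luU hF (Or.inr h1))
  · rcases tsub hu k with e | e | ⟨e, -⟩
    · exact lU hu.hs (e ▸ h1)
    · exact lU hu.hs' (e ▸ h1)
    · exact h3 e
  · exact h2 k
  · exact stNot k.1 (Or.inr h1)

theorem touchZ (hF : Frm F) {u : Un J} (hu : Val F G u) {v : Vx J}
    (hv : v ∈ F.Bot u.s u.s' ∪ u.T) : v ∈ Nb F.Γ (F.cell u).Z := by
  rcases hv with hv | hv
  · refine ⟨F.an v, zB hF hu ?_, hF.pot.aa v⟩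
    have := hF.uf.lf _ _ hv.1
    have := hF.pot.af v
    omega
  · rcases tsub hu hv with e | e | ⟨e, c⟩
    · refine ⟨F.l (F.f u.s) (F.ρ u.s - 1), zRay hF hu (lmem hF _ _) (Or.inl ?_), ?_⟩
      · rw [hF.rho]
        omega
      · rw [e, ladj hF hu.hs (lmem hF _ _), hF.rho]
        omega
    · refine ⟨F.l (F.f u.s) (F.ρ u.s' + 1), zRay hF hu (lmem hF _ _) (Or.inr ?_), ?_⟩
      · rw [hF.rho]
        omega
      · rw [e, ladj hF hu.hs' (lmem hF _ _), hF.rho]
        omega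
    · obtain ⟨B, hB⟩ := ((c.fin.insert u.x).image F.f).bddAbove
      obtain ⟨M, hM0, hM⟩ := hF.uf.big
      obtain ⟨y, hy, -⟩ := c.xu (max (B + 1) (F.f u.s + 1 + M))
      have hyU := hM _ y (le_trans (le_max_right _ _) hy)
      have hyn : y ∉ insert u.x u.pk := fun k => by
        have a1 := hB ⟨y, k, rfl⟩
        have a2 := le_trans (le_max_left _ _) hy
        omega
      obtain ⟨p, hp, q, hq, hqn, hadj⟩ :=
        cExit (hF.uf.conn _ _ c.xu _ hyU) (Set.mem_insert _ _) hyn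
      have hz := zUp hF hu hq (fun k => hqn (Or.inr k)) (fun k => hqn (Or.inl k))
      rcases hp with hp | hp
      · exact ⟨q, hz, by rw [e, ← hp]; exact hadj⟩
      · exfalso
        rcases c.cl p hp q hadj (Or.inr hq) with k | k
        · exact hqn (Or.inr k)
        · exact hz (Or.inl (Or.inr k))

theorem stDown (hF : Frm F) (hS : SIF F) {i : ℤ} {z : Vx J} (hz : z ∈ F.St i) :
    ∃ y, Conn F.Γ (F.St i) z y ∧ ∃ w ∈ F.L (i - 1), F.Γ.Adj y w := by
  obtain ⟨s, hs, hzs⟩ := hS.ex i z hz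
  have hf := hF.uf.lf _ _ hs
  subst hf
  have hn : F.nx s ∈ F.L (F.f s) := lmem hF _ _
  have hr : F.ρ (F.nx s) = F.ρ s + 1 := hF.rho _ _
  have hsub : Cmp F.Γ (F.St (F.f s)) z ⊆ F.SI s (F.nx s) := by
    intro y hy
    induction hy with
    | refl => exact hzs
    | tail _ e ih => exact siStep ih e.2.1 e.2.2
  by_contra hc
  refine hF.nj (Cmp F.Γ (F.St (F.f s)) z) (Set.subset_univ _)
    ((hS.fin _ _ hs _ hn).subset hsub) ⟨z, Relation.ReflTransGen.refl⟩ s (F.nx s)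
    (Or.inr ((ladj hF hs hn).2 (Or.inl hr))) ?_
  rintro w ⟨y, hy, hadj⟩
  rcases hzs.2 y w hy hadj.symm with k | k | k
  · exact Or.inl (Relation.ReflTransGen.tail hy ⟨cMem hy hz, k, hadj.symm⟩)
  · exact absurd ⟨y, hy, w, k.1, hadj.symm⟩ hc
  · right
    have a1 := k.2.1
    have a2 := k.2.2
    rcases eq_or_lt_of_le a1 with e | e
    · exact Or.inl (rinj hF k.1 hs e.symm)
    · exact Or.inr (rinj hF k.1 hn (by omega))

/-- Joined inside the outside of the cell to the low part. -/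
def Gd (F : FD J) (u : Un J) (z : Vx J) : Prop :=
  ∃ b, F.f b ≤ F.f u.s - 2 ∧ Conn F.Γ (F.cell u).Z z b

theorem Gd.of {u : Un J} {z y : Vx J} (c : Conn F.Γ (F.cell u).Z z y) (h : Gd F u y) :
    Gd F u z := by
  obtain ⟨b, hb, c'⟩ := h
  exact ⟨b, hb, c.trans c'⟩

theorem gdL (hF : Frm F) {u : Un J} (hu : Val F G u) {z : Vx J} (h1 : z ∈ F.L (F.f u.s - 1))
    (h2 : z ∉ F.Bot u.s u.s') : Gd F u z := by
  have hb : F.f (F.an z) ≤ F.f u.s - 2 := by
    have := hF.uf.lf _ _ h1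
    have := hF.pot.af z
    omega
  exact ⟨F.an z, hb, cStep (zLow hF hu (lU' h1) h2) (zB hF hu hb) (hF.pot.aa z)⟩

theorem gdLow (hF : Frm F) (hS : SIF F) {u : Un J} (hu : Val F G u) {z : Vx J}
    (h1 : z ∉ F.U (F.f u.s)) (h2 : z ∉ F.Bot u.s u.s') : Gd F u z := by
  obtain ⟨M, hM0, hM⟩ := hF.uf.big
  obtain ⟨i, hi, hmax⟩ := Int.exists_greatest_of_bdd (P := fun i => z ∈ F.U i)
    ⟨F.f z, fun k hk => hF.uf.ge _ _ hk⟩ ⟨F.f z - M, hM _ _ (by omega)⟩
  have hi1 : z ∉ F.U (i + 1) := fun k => by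
    have := hmax _ k
    omega
  have hij : i < F.f u.s := by
    by_contra k
    exact h1 (hF.uf.mono _ _ (by omega) hi)
  by_cases hL : z ∈ F.L i
  · by_cases e : i = F.f u.s - 1
    · exact gdL hF hu (e ▸ hL) h2
    · refine ⟨z, ?_, Relation.ReflTransGen.refl⟩
      have := hF.uf.lf _ _ hL
      omega
  · have hst : z ∈ F.St i := ⟨hi, fun k => k.elim hL hi1⟩
    obtain ⟨y, c, w, hw, hadj⟩ := stDown hF hS hst
    have hsub : F.St i ⊆ (F.cell u).Z := by
      intro v hv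
      refine zLow hF hu (fun k => stNot hv (Or.inr (hF.uf.mono _ _ (by omega) k))) fun k => ?_
      by_cases e : i = F.f u.s - 1
      · exact stNot hv (Or.inl (e ▸ k.1))
      · exact stNot hv (Or.inr (hF.uf.mono _ _ (by omega) (hF.uf.lu _ k.1)))
    have hb : F.f w ≤ F.f u.s - 2 := by
      have := hF.uf.lf _ _ hw
      omega
    exact ⟨w, hb, (cMono hsub c).tail ⟨hsub (cMem c hst), zB hF hu hb, hadj⟩⟩

theorem gdRay (hF : Frm F) {u : Un J} (hu : Val F G u) {z : Vx J} (h1 : z ∈ F.L (F.f u.s))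
    (h2 : F.ρ z < F.ρ u.s ∨ F.ρ u.s' < F.ρ z) : Gd F u z := by
  have n1 := hF.n2 (F.f u.s)
  have n2 := hF.n2 (F.f u.s - 1)
  have fin : ∀ i, (i < F.ρ u.s ∨ F.ρ u.s' < i) → F.an (F.l (F.f u.s) i) ∉ F.Bot u.s u.s' →
      Gd F u (F.l (F.f u.s) i) := by
    intro i hi hn
    have hl := lmem hF (F.f u.s) i
    have ha := anL hF hl
    exact Gd.of (cStep (zRay hF hu hl (by rw [hF.rho]; exact hi)) (zLow hF hu (lU' ha) hn)
      (hF.pot.aa _)) (gdL hF hu ha hn)
  have hz : ∀ k, (k < F.ρ u.s ∨ F.ρ u.s' < k) → F.l (F.f u.s) k ∈ (F.cell u).Z :=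
    fun k hk => zRay hF hu (lmem hF _ _) (by rw [hF.rho]; exact hk)
  rw [leq hF h1]
  rcases h2 with h2 | h2
  · have g : Gd F u (F.l (F.f u.s) (F.ρ u.s - F.nn (F.f u.s))) := by
      refine fin _ (Or.inl (by omega)) fun k => ?_
      have a1 := anUp hF (F.f u.s) (F.ρ u.s - F.nn (F.f u.s))
      rw [sub_add_cancel, ← leq hF hu.hs] at a1
      have a2 := k.2.1
      omega
    rcases le_total (F.ρ z) (F.ρ u.s - F.nn (F.f u.s)) with e | e
    · exact Gd.of (lConn hF e fun k _ hk => hz k (Or.inl (by omega))) g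
    · exact Gd.of (cSymm (lConn hF e fun k _ hk => hz k (Or.inl (by omega)))) g
  · have g : Gd F u (F.l (F.f u.s) (F.ρ u.s' + F.nn (F.f u.s))) := by
      refine fin _ (Or.inr (by omega)) fun k => ?_
      have a1 := anUp hF (F.f u.s) (F.ρ u.s')
      rw [← leq hF hu.hs'] at a1
      have a2 := k.2.2
      omega
    rcases le_total (F.ρ z) (F.ρ u.s' + F.nn (F.f u.s)) with e | e
    · exact Gd.of (lConn hF e fun k hk _ => hz k (Or.inr (by omega))) g
    · exact Gd.of (cSymm (lConn hF e fun k hk _ => hz k (Or.inr (by omega)))) g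

theorem gdSt (hF : Frm F) {u : Un J} (hu : Val F G u) {z : Vx J} (h1 : z ∈ F.St (F.f u.s))
    (h2 : z ∉ F.SI u.s u.s') : Gd F u z := by
  have h3 : ¬ ∀ y w, Conn F.Γ (F.St (F.f u.s)) z y → F.Γ.Adj y w →
      w ∈ F.St (F.f u.s) ∨ w ∈ F.Bot u.s u.s' ∨ w ∈ F.Top u.s u.s' := fun k => h2 ⟨h1, k⟩
  push Not at h3
  obtain ⟨y, w, c, hadj, w1, w2, w3⟩ := h3
  have key : ∀ y, Conn F.Γ (F.St (F.f u.s)) z y →
      y ∉ F.SI u.s u.s' ∧ Conn F.Γ (F.cell u).Z z y := by
    intro y c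
    induction c with
    | refl => exact ⟨h2, Relation.ReflTransGen.refl⟩
    | tail _ e ih =>
      have k := fun k => ih.1 (siStep k e.1 e.2.2.symm)
      exact ⟨k, ih.2.tail ⟨zSt hu e.1 ih.1, zSt hu e.2.1 k, e.2.2⟩⟩
  have hy := cMem c h1
  have hyZ := zSt hu hy (key y c).1
  refine Gd.of (key y c).2 ?_
  rcases hF.uf.bd _ _ hy.1 w hadj with k | k
  · have hw : w ∈ F.L (F.f u.s) := by
      by_contra k1
      have k2 : w ∈ F.U (F.f u.s + 1) := by
        by_contra k2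
        exact w1 ⟨k, fun k3 => k3.elim k1 k2⟩
      exact stNot hy (Or.inl ⟨⟨w, k2, hadj⟩, fun k3 => stNot hy (Or.inr k3)⟩)
    have hr : F.ρ w < F.ρ u.s ∨ F.ρ u.s' < F.ρ w := by
      by_contra k1
      exact w3 ⟨hw, by omega, by omega⟩
    exact Gd.of (cStep hyZ (zRay hF hu hw hr) hadj) (gdRay hF hu hw hr)
  · exact Gd.of (cStep hyZ (zLow hF hu (lU' k) w2) hadj) (gdL hF hu k w2)

theorem gdNU (hF : Frm F) (hS : SIF F) {u : Un J} (hu : Val F G u) {z : Vx J}
    (hz : z ∈ (F.cell u).Z) (h : z ∉ F.U (F.f u.s + 1)) : Gd F u z := by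
  by_cases h1 : z ∈ F.U (F.f u.s)
  · by_cases h2 : z ∈ F.L (F.f u.s)
    · refine gdRay hF hu h2 ?_
      by_contra k
      rcases topIn hF hu (z := z) ⟨h2, by omega, by omega⟩ with k | k
      · exact hz (Or.inl (Or.inr k))
      · exact hz (Or.inr (Or.inl k))
    · exact gdSt hF hu ⟨h1, fun k => k.elim h2 h⟩ fun k => hz (Or.inr (Or.inr k))
  · exact gdLow hF hS hu h1 fun k => hz (Or.inl (Or.inl k))

theorem ciFin (hS : SIF F) {u : Un J} (hu : Val F G u) : (F.CI u).Finite := by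
  refine Set.Finite.union ?_ (hS.fin _ _ hu.hs _ hu.hs')
  rcases hu.alt with h | h
  · rw [h.2.2]
    exact Set.finite_empty
  · exact h.fin

theorem lowEx (hF : Frm F) (x : Vx J) (n : ℕ) : ∃ y, F.f y = F.f x - n := by
  induction n with
  | zero => exact ⟨x, by simp⟩
  | succ n ih =>
    obtain ⟨y, hy⟩ := ih
    refine ⟨F.an y, ?_⟩
    rw [hF.pot.af, hy]
    push_cast
    ring

theorem gdAll (hF : Frm F) (hS : SIF F) {u : Un J} (hu : Val F G u) {z : Vx J}
    (hz : z ∈ (F.cell u).Z) : Gd F u z := by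
  by_contra hc
  have hfin : (F.Bot u.s u.s' ∪ u.T ∪ F.CI u).Finite :=
    ((botFin hF _ _).union (((Set.finite_singleton _).insert _).insert _)).union (ciFin hS hu)
  obtain ⟨Z0, c0, f0, d0⟩ := hF.pot.fine.oe _ hfin
  have hZ0 : Z0 ⊆ (F.cell u).Z := fun v hv k => Set.disjoint_left.1 d0 hv k
  obtain ⟨B, hB⟩ := (f0.image F.f).bddBelow
  obtain ⟨b, hb⟩ := lowEx hF u.s ((F.f u.s - B).natAbs + 2)
  have hb0 : b ∈ Z0 := by
    by_contra k
    have := hB ⟨b, k, rfl⟩
    omega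
  have hb1 : F.f b ≤ F.f u.s - 2 := by omega
  set E := Cmp F.Γ (F.cell u).Z z with hE
  have eU : ∀ y ∈ E, y ∈ F.U (F.f u.s + 1) := by
    intro y hy
    by_contra k
    exact hc (Gd.of hy (gdNU hF hS hu (cMem hy hz) k))
  have eF : E.Finite := by
    refine f0.subset fun y hy k => hc ⟨b, hb1, Relation.ReflTransGen.trans hy ?_⟩
    exact cMono hZ0 (c0 _ k _ hb0)
  have eN : ∀ w ∈ Nb F.Γ E, w ∈ E ∨ w ∈ u.T := by
    rintro w ⟨y, hy, hadj⟩
    have hyZ := cMem hy hz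
    by_cases k : w ∈ (F.cell u).Z
    · exact Or.inl (Relation.ReflTransGen.tail hy ⟨hyZ, k, hadj.symm⟩)
    · have k' : w ∈ F.Bot u.s u.s' ∪ u.T ∪ F.CI u := by
        by_contra k'
        exact k k'
      rcases k' with (k' | k') | k'
      · exfalso
        have a1 := hF.uf.lf _ _ k'.1
        have a2 := hF.uf.ge _ _ (eU y hy)
        have a3 := hF.pot.lip _ _ hadj
        omega
      · exact Or.inr k'
      · exact absurd (ciNb hF hS hu k' hadj) hyZ
  have nj := hF.nj E (Set.subset_univ _) eF ⟨z, Relation.ReflTransGen.refl⟩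
  rcases hu.alt with h | h
  · refine nj u.s u.s' (Or.inr ((ladj hF hu.hs hu.hs').2 (Or.inl h.2.1))) fun w hw => ?_
    rcases eN w hw with k | k | k | k
    · exact Or.inl k
    · exact Or.inr (Or.inl k)
    · exact Or.inr (Or.inl (k.trans h.1))
    · exact Or.inr (Or.inr k)
  · by_cases t1 : u.s ∈ Nb F.Γ E
    · by_cases t2 : u.s' ∈ Nb F.Γ E
      · have out : ∀ v ∈ F.L (F.f u.s), v ∈ Set.univ \ ({u.x} ∪ E) := by
          intro v hv
          refine ⟨Set.mem_univ _, ?_⟩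
          rintro (k | k)
          · exact lU hv (k ▸ h.xu)
          · exact lU hv (eU v k)
        have c1 : Conn F.Γ (Set.univ \ ({u.x} ∪ E)) u.s u.s' := by
          have := lConn hF (A := Set.univ \ ({u.x} ∪ E)) (j := F.f u.s) (vlt hu).le
            fun k _ _ => out _ (lmem hF _ _)
          rwa [← leq hF hu.hs, ← leq hF hu.hs'] at this
        have c2 := hF.pot.fine.pl.tim {u.x} E (Set.subset_univ _) (Set.subset_univ _)
          (Set.disjoint_left.2 fun v hv k => cMem k hz (Or.inl (Or.inr (Or.inr (Or.inl hv)))))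
          (fun a ha b hb => by
            rw [ha, hb]
            exact Relation.ReflTransGen.refl)
          (cmpConn _ _) (Or.inl eF) _ _ t1 t2 (out _ hu.hs) c1
        have hl := h.lt
        obtain ⟨p, hp, q, hq, hqn, hadj⟩ := cExit (S := {u.s}) c2 rfl fun k => by
          rw [Set.mem_singleton_iff.1 k] at hl
          omega
        rcases eN q hq.1.2 with k | k | k | k
        · exact hq.2 (Or.inr k)
        · exact hqn k
        · exact hq.2 (Or.inl k)
        · rw [Set.mem_singleton_iff.1 hp, Set.mem_singleton_iff.1 k,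
            ladj hF hu.hs hu.hs'] at hadj
          omega
      · refine nj u.s u.x (Or.inr h.sx) fun w hw => ?_
        rcases eN w hw with k | k | k | k
        · exact Or.inl k
        · exact Or.inr (Or.inl k)
        · exact Or.inr (Or.inr k)
        · exact absurd (Set.mem_singleton_iff.1 k ▸ hw) t2
    · refine nj u.x u.s' (Or.inr h.xs) fun w hw => ?_
      rcases eN w hw with k | k | k | k
      · exact Or.inl k
      · exact absurd (k ▸ hw) t1
      · exact Or.inr (Or.inl k)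
      · exact Or.inr (Or.inr k)

end PkCellP

open PkCellP in
theorem pk_Cell : S_Cell := by
  intro J F G u hF hS hu
  have hI := interior hF hu
  refine ⟨⟨pathX hF hS hu, pathY hF hu, ?_, (hF.pot.aa _).symm, (hF.pot.aa _).symm, ?_, ?_, ?_,
    fun v hv => touchZ hF hu hv, hI ▸ ciFin hS hu,
    fun D _ => hF.nj D (Set.subset_univ _)⟩, hI⟩
  · exact Set.disjoint_left.2 fun v hv k => lU' hv.1 (luU hF (tLU hu k))
  · intro a ha b hb
    obtain ⟨a', ha', ca⟩ := gdAll hF hS hu ha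
    obtain ⟨b', hb', cb⟩ := gdAll hF hS hu hb
    exact (ca.trans (cMono (fun v hv => zB hF hu hv)
      (hF.uf.low (F.f u.s - 2) a' ha' b' hb'))).trans (cSymm cb)
  · exact Set.disjoint_left.2 fun v hv k => hv (Or.inl k)
  · rintro v ⟨z, hz, hadj⟩
    by_contra k
    have : v ∈ F.CI u := hI ▸ k
    exact hz (ciNb hF hS hu this hadj)

end Pool.Agent.P.MP_08fd93_co.OV
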