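import Pool.Agent.P.MP_08fd93_co.OV.H15

/-! Package Jk3: the induction over hanging parts. -/

set_option autoImplicit false

namespace Pool.Agent.P.MP_08fd93_co.OV

open H15

namespace PkJk3P

variable {J : Type}

/-- A hanging part. -/
def Junk {W : Type} (H : SimpleGraph W) (D : Set W) : Prop :=
  D.Finite ∧ D.Nonempty ∧ ∃ a b, (a = b ∨ H.Adj a b) ∧ Nb H D ⊆ D ∪ {a, b}

/-- A smallest hanging part is connected and its ends may be taken outside. -/
theorem exists_min {W : Type} [Infinite W] (H : SimpleGraph W) (h : ¬ NJ H Set.univ) :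
    ∃ (D : Set W) (a b : W), D.Finite ∧ D.Nonempty ∧ IsConn H D ∧ a ∉ D ∧ b ∉ D ∧
      (a = b ∨ H.Adj a b) ∧ Nb H D ⊆ D ∪ {a, b} ∧ ∀ D', Junk H D' → D.ncard ≤ D'.ncard := by
  classical
  have hex : ∃ n, ∃ D, Junk H D ∧ D.ncard = n := by
    unfold NJ at h
    push Not at h
    obtain ⟨D, -, h1, h2, a, b, h3, h4⟩ := h
    exact ⟨_, D, ⟨h1, h2, a, b, h3, h4⟩, rfl⟩
  obtain ⟨D, ⟨h1, h2, a, b, h3, h4⟩, h5⟩ := Nat.find_spec hex
  have hmin : ∀ D', Junk H D' → D.ncard ≤ D'.ncard := by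
    intro D' hD'
    rw [h5]
    exact Nat.find_min' hex ⟨D', hD', rfl⟩
  have hconn : IsConn H D := by
    obtain ⟨x, hx⟩ := h2
    have hsub : {y | Conn H D x y} ⊆ D := fun y hy => cmem hx hy
    have hj : Junk H {y | Conn H D x y} := by
      refine ⟨h1.subset hsub, ⟨x, Relation.ReflTransGen.refl⟩, a, b, h3, ?_⟩
      rintro z ⟨y, hy, hzy⟩
      rcases h4 ⟨y, hsub hy, hzy⟩ with h6 | h6
      · exact Or.inl (ctrans hy (cstep (hsub hy) h6 hzy.symm))
      · exact Or.inr h6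
    have heq := Set.eq_of_subset_of_ncard_le hsub (hmin _ hj) h1
    apply isConn_of_base x
    intro y hy
    rw [← heq] at hy
    exact hy
  have one : ∀ z, z ∉ D → Nb H D ⊆ D ∪ {z} → ∃ (D : Set W) (a b : W), D.Finite ∧ D.Nonempty ∧
      IsConn H D ∧ a ∉ D ∧ b ∉ D ∧ (a = b ∨ H.Adj a b) ∧ Nb H D ⊆ D ∪ {a, b} ∧
      ∀ D', Junk H D' → D.ncard ≤ D'.ncard := by
    intro z hz h6
    exact ⟨D, z, z, h1, h2, hconn, hz, hz, Or.inl rfl, by simpa using h6, hmin⟩
  by_cases ha : a ∈ D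
  · by_cases hb : b ∈ D
    · obtain ⟨z, hz⟩ := h1.exists_notMem
      refine one z hz ?_
      intro y hy
      rcases h4 hy with h6 | h6 | h6
      · exact Or.inl h6
      · exact Or.inl (h6 ▸ ha)
      · rw [Set.mem_singleton_iff] at h6
        exact Or.inl (h6 ▸ hb)
    · refine one b hb ?_
      intro y hy
      rcases h4 hy with h6 | h6 | h6
      · exact Or.inl h6
      · exact Or.inl (h6 ▸ ha)
      · exact Or.inr h6
  · by_cases hb : b ∈ D
    · refine one a ha ?_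
      intro y hy
      rcases h4 hy with h6 | h6 | h6
      · exact Or.inl h6
      · exact Or.inr h6
      · rw [Set.mem_singleton_iff] at h6
        exact Or.inl (h6 ▸ hb)
    · exact ⟨D, a, b, h1, h2, hconn, ha, hb, h3, h4, hmin⟩

theorem nb_tr {Γ : SimpleGraph (Vx J)} (hinv : ∀ a x y, Γ.Adj x y → Γ.Adj (tr a x) (tr a y))
    {D : Set (Vx J)} {a b : Vx J} (hD : Nb Γ D ⊆ D ∪ {a, b}) (c : ℤ × ℤ) :
    Nb Γ (tr c '' D) ⊆ tr c '' D ∪ {tr c a, tr c b} := by
  rintro q ⟨_, ⟨p, hp, rfl⟩, h⟩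
  have h1 := hinv (-c) _ _ h
  rw [tr_neg] at h1
  rcases hD ⟨p, hp, h1⟩ with h2 | h2 | h2
  · exact Or.inl (mem_tr.2 h2)
  · exact Or.inr (Or.inl (by rw [← h2, tr_neg']))
  · rw [Set.mem_singleton_iff] at h2
    exact Or.inr (Or.inr (by rw [← h2, tr_neg']; rfl))

end PkJk3P

open PkJk3P in
theorem pk_Jk3 : S_Jk3 := by
  classical
  intro hJk hRm hPG hE hM0
  have key : ∀ (n : ℕ) (J : Type) [Fintype J], Fintype.card J = n →
      ∀ (Γ : SimpleGraph (Vx J)) (η : ℤ × ℤ →+ ℤ) (m : J),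
      Fine Γ → NL Γ → Tight Γ η → Goal Γ m := by
    intro n
    induction n using Nat.strong_induction_on with
    | _ n ih =>
    intro J _ hn Γ η m hF hNL hT
    by_cases hNJ : NJ Γ Set.univ
    · exact hM0 J Γ η m hF hNL hT hNJ
    have : Nonempty J := ⟨m⟩
    obtain ⟨D, a, b, hfin, hne, hconn, ha, hb, hab, hD, hmin⟩ := exists_min Γ hNJ
    have hJ := hJk J Γ η hF hT D a b hfin hconn ha hb hab hD
    let ι : Vx {u : J // ∀ x ∈ D, x.1 ≠ u} → Vx J := fun x => (x.1.1, x.2)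
    let Γ' : SimpleGraph (Vx {u : J // ∀ x ∈ D, x.1 ≠ u}) := Γ.comap ι
    obtain ⟨hF', hNL', hT'⟩ := hRm J Γ η hF hNL hT D a b hfin hconn ha hb hab hD Γ'
      (fun x y => Iff.rfl)
    have hcard : Fintype.card {u : J // ∀ x ∈ D, x.1 ≠ u} < n := by
      rw [← hn]
      obtain ⟨x, hx⟩ := hne
      exact Fintype.card_subtype_lt (x := x.1) (fun h => h x hx rfl)
    have haJ : ∀ x ∈ D, x.1 ≠ a.1 := by
      intro x hx h
      have h1 := tr_of_fst h.symm
      exact (hJ _).1 (h1 ▸ hx)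
    obtain ⟨m', hm'⟩ : ∃ m' : {u : J // ∀ x ∈ D, x.1 ≠ u},
        ∀ μ : {u : J // ∀ x ∈ D, x.1 ≠ u}, μ ≠ m' → μ.1 ≠ m := by
      by_cases h : ∀ x ∈ D, x.1 ≠ m
      · exact ⟨⟨m, h⟩, fun μ hμ h' => hμ (Subtype.ext h')⟩
      · exact ⟨⟨a.1, haJ⟩, fun μ _ h' => h (h' ▸ μ.2)⟩
    obtain ⟨μ, hμ, c', hc'⟩ := ih _ hcard _ rfl Γ' η m' hF' hNL' hT'
    let c0 : J → Col := fun u => if h : ∀ x ∈ D, x.1 ≠ u then c' ⟨u, h⟩ else (true, true)
    have hdis : ∀ i i' : ℤ × ℤ, i ≠ i' → Disjoint (tr i '' D) (tr i' '' D) := by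
      intro i i' hi
      rw [Set.disjoint_left]
      rintro _ ⟨x, hx, rfl⟩ h
      rw [mem_tr, tr_tr] at h
      refine (hJ _).2.2 ?_ x hx h
      intro h0
      exact hi (by rwa [add_neg_eq_zero] at h0)
    obtain ⟨c'', h1, h2, h3⟩ := hPG J Γ (ℤ × ℤ) (fun a i => i + a) id Set.univ
      (fun i => tr i '' D) (fun _ => ∅) c0 hF.inv (fun i => add_zero i)
      (fun a b i => add_assoc i b a) (fun a i => rfl) (fun _ _ _ => trivial)
      (by
        intro a i _ x
        simp only [mem_tr, tr_tr]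
        have : a + -(i + a) = -i := by abel
        rw [this])
      (fun a i _ x hx => hx.elim)
      (by
        intro i _ i' _ hi
        refine ⟨hdis i i' hi, ?_⟩
        rintro ⟨p, hp, q, hq, hpq⟩
        rcases nb_tr hF.inv hD i ⟨p, hp, hpq.symm⟩ with h | h | h
        · exact Set.disjoint_left.1 (hdis i i' hi) h hq
        · rw [h, mem_tr, tr_tr] at hq
          exact (hJ _).1 hq
        · rw [Set.mem_singleton_iff] at h
          rw [h, mem_tr, tr_tr] at hq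
          exact (hJ _).2.1 hq)
      (by
        intro i _
        refine hE _ Γ hF.pl hF.oe (tr i '' D) (tr i a) (tr i b) (hfin.image _) ?_ ?_ ?_
          (nb_tr hF.inv hD i) ?_ _
        · rw [mem_tr, tr_neg]; exact ha
        · rw [mem_tr, tr_neg]; exact hb
        · rcases hab with h | h
          · exact Or.inl (by rw [h])
          · exact Or.inr (hF.inv _ _ _ h)
        · intro I hI hI' D' hD' hf' hn' a' b' hab' hnb'
          have e1 := hmin D' ⟨hf', hn', a', b', hab', hnb'⟩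
          have e2 : D'.ncard ≤ I.ncard := Set.ncard_le_ncard hD' ((hfin.image _).subset hI)
          have e3 : I.ncard < (tr i '' D).ncard :=
            Set.ncard_lt_ncard (Set.ssubset_iff_subset_ne.2 ⟨hI, hI'⟩) (hfin.image _)
          have e4 : (tr i '' D).ncard = D.ncard := Set.ncard_image_of_injective D (tr_inj i)
          omega)
    refine ⟨μ.1, hm' μ hμ, c'', ?_⟩
    intro x y z hx hy hz hxy hxz e1 e2
    by_cases hxM : ∀ i ∈ (Set.univ : Set (ℤ × ℤ)), x ∉ tr i '' D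
    · have hyM : ∀ i ∈ (Set.univ : Set (ℤ × ℤ)), y ∉ tr i '' D :=
        fun i hi h => (h3 x hxM i hi).1 y h hxy e1
      have hzM : ∀ i ∈ (Set.univ : Set (ℤ × ℤ)), z ∉ tr i '' D :=
        fun i hi h => (h3 x hxM i hi).1 z h hxz e2
      have hin : ∀ v : Vx J, (∀ i ∈ (Set.univ : Set (ℤ × ℤ)), v ∉ tr i '' D) →
          ∀ p ∈ D, p.1 ≠ v.1 :=
        fun v hv p hp h => hv _ trivial ⟨p, hp, tr_of_fst h⟩
      have hcol : ∀ (v : Vx J) (hv : ∀ i ∈ (Set.univ : Set (ℤ × ℤ)), v ∉ tr i '' D),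
          c'' v.1 = c' ⟨v.1, hin v hv⟩ := by
        intro v hv
        rw [h1 v hv]
        exact dif_pos (hin v hv)
      have := hc' (⟨x.1, hin x hxM⟩, x.2) (⟨y.1, hin y hyM⟩, y.2) (⟨z.1, hin z hzM⟩, z.2)
        (fun h => hx (congrArg Subtype.val h)) (fun h => hy (congrArg Subtype.val h))
        (fun h => hz (congrArg Subtype.val h)) hxy hxz
        (by rw [← hcol y hyM, ← hcol x hxM]; exact e1)
        (by rw [← hcol z hzM, ← hcol x hxM]; exact e2)
      exact congrArg ι this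
    · push Not at hxM
      obtain ⟨i, hi, hxi⟩ := hxM
      exact h2 i hi x hxi y z hxy hxz e1 e2
  intro J _ Γ η m hF hNL hT
  exact key _ J rfl Γ η m hF hNL hT

end Pool.Agent.P.MP_08fd93_co.OV
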