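import Pool.Agent.P.MP_08fd93_co.OV.St1

/-! Small toolbox on induced paths and hidden vertices (project OV). -/

set_option autoImplicit false

namespace Pool.Agent.P.MP_08fd93_co.OV.P65

variable {W : Type} {H : SimpleGraph W}

theorem succ {X : Set W} {ρ : W → ℤ} {a b : W} (h : Pth H X ρ a b) {u w : W} (hu : u ∈ X)
    (hw : w ∈ X) (hlt : ρ u < ρ w) : ∃ v ∈ X, ρ u < ρ v ∧ H.Adj u v := by
  have hf : {x | x ∈ X ∧ ρ u < ρ x}.Finite := h.fin.subset fun x hx => hx.1
  obtain ⟨v, hv, hmin⟩ := Set.exists_min_image _ ρ hf ⟨w, hw, hlt⟩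
  refine ⟨v, hv.1, hv.2, (h.adj u hu v hv.1 hv.2).2 fun x hx => ?_⟩
  by_cases hx' : ρ x ≤ ρ u
  · exact Or.inl hx'
  · exact Or.inr (hmin x ⟨hx, lt_of_not_ge hx'⟩)

theorem pred {X : Set W} {ρ : W → ℤ} {a b : W} (h : Pth H X ρ a b) {u w : W} (hu : u ∈ X)
    (hw : w ∈ X) (hlt : ρ w < ρ u) : ∃ v ∈ X, ρ v < ρ u ∧ H.Adj v u := by
  have hf : {x | x ∈ X ∧ ρ x < ρ u}.Finite := h.fin.subset fun x hx => hx.1
  obtain ⟨v, hv, hmax⟩ := Set.exists_max_image _ ρ hf ⟨w, hw, hlt⟩
  refine ⟨v, hv.1, hv.2, (h.adj v hv.1 u hu hv.2).2 fun x hx => ?_⟩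
  by_cases hx' : ρ u ≤ ρ x
  · exact Or.inr hx'
  · exact Or.inl (hmax x ⟨hx, lt_of_not_ge hx'⟩)

/-- Nothing lies strictly between two adjacent vertices of a path. -/
theorem gap {X : Set W} {ρ : W → ℤ} {a b : W} (h : Pth H X ρ a b) {u v x : W} (hu : u ∈ X)
    (hv : v ∈ X) (hlt : ρ u < ρ v) (hadj : H.Adj u v) (hx : x ∈ X) : ρ x ≤ ρ u ∨ ρ v ≤ ρ x :=
  (h.adj u hu v hv hlt).1 hadj x hx

theorem congr {X : Set W} {ρ ρ' : W → ℤ} {a b : W} (h : Pth H X ρ a b)
    (he : ∀ x ∈ X, ρ' x = ρ x) : Pth H X ρ' a b where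
  fin := h.fin
  ha := h.ha
  hb := h.hb
  lo u hu := by rw [he _ h.ha, he _ hu]; exact h.lo u hu
  hi u hu := by rw [he _ h.hb, he _ hu]; exact h.hi u hu
  inj u hu v hv e := h.inj u hu v hv (by rw [← he _ hu, ← he _ hv]; exact e)
  adj u hu v hv hlt := by
    rw [he _ hu, he _ hv] at hlt
    rw [h.adj u hu v hv hlt, he _ hu, he _ hv]
    exact forall₂_congr fun x hx => by rw [he _ hx]

theorem rev {X : Set W} {ρ : W → ℤ} {a b : W} (h : Pth H X ρ a b) (c : ℤ) :
    Pth H X (fun x => c - ρ x) b a where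
  fin := h.fin
  ha := h.hb
  hb := h.ha
  lo u hu := by have := h.hi u hu; omega
  hi u hu := by have := h.lo u hu; omega
  inj u hu v hv e := h.inj u hu v hv (by omega)
  adj u hu v hv hlt := by
    have hlt' : ρ v < ρ u := by omega
    rw [H.adj_comm, h.adj v hv u hu hlt']
    refine forall₂_congr fun x _ => ?_
    omega

theorem seg_lo {X A : Set W} {ρ : W → ℤ} {a b u : W} (h : Pth H X ρ a b) (hu : u ∈ X)
    (hA : ∀ x, x ∈ A ↔ x ∈ X ∧ ρ x ≤ ρ u) : Pth H A ρ a u where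
  fin := h.fin.subset fun x hx => ((hA x).1 hx).1
  ha := (hA a).2 ⟨h.ha, h.lo u hu⟩
  hb := (hA u).2 ⟨hu, le_rfl⟩
  lo x hx := h.lo x ((hA x).1 hx).1
  hi x hx := ((hA x).1 hx).2
  inj x hx y hy := h.inj x ((hA x).1 hx).1 y ((hA y).1 hy).1
  adj x hx y hy hlt := by
    rw [h.adj x ((hA x).1 hx).1 y ((hA y).1 hy).1 hlt]
    constructor
    · exact fun hh t ht => hh t ((hA t).1 ht).1
    · intro hh t ht
      by_cases htu : ρ t ≤ ρ u
      · exact hh t ((hA t).2 ⟨ht, htu⟩)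
      · have := ((hA y).1 hy).2
        omega

theorem seg_hi {X A : Set W} {ρ : W → ℤ} {a b u : W} (h : Pth H X ρ a b) (hu : u ∈ X)
    (hA : ∀ x, x ∈ A ↔ x ∈ X ∧ ρ u ≤ ρ x) : Pth H A ρ u b where
  fin := h.fin.subset fun x hx => ((hA x).1 hx).1
  ha := (hA u).2 ⟨hu, le_rfl⟩
  hb := (hA b).2 ⟨h.hb, h.hi u hu⟩
  lo x hx := ((hA x).1 hx).2
  hi x hx := h.hi x ((hA x).1 hx).1
  inj x hx y hy := h.inj x ((hA x).1 hx).1 y ((hA y).1 hy).1
  adj x hx y hy hlt := by
    rw [h.adj x ((hA x).1 hx).1 y ((hA y).1 hy).1 hlt]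
    constructor
    · exact fun hh t ht => hh t ((hA t).1 ht).1
    · intro hh t ht
      by_cases htu : ρ u ≤ ρ t
      · exact hh t ((hA t).2 ⟨ht, htu⟩)
      · have := ((hA x).1 hx).2
        omega

theorem single (ρ : W → ℤ) (v : W) : Pth H {v} ρ v v where
  fin := Set.finite_singleton v
  ha := rfl
  hb := rfl
  lo u hu := by rw [Set.mem_singleton_iff.1 hu]
  hi u hu := by rw [Set.mem_singleton_iff.1 hu]
  inj u hu w hw _ := by rw [Set.mem_singleton_iff.1 hu, Set.mem_singleton_iff.1 hw]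
  adj u hu w hw hlt := by
    rw [Set.mem_singleton_iff.1 hu, Set.mem_singleton_iff.1 hw] at hlt
    exact absurd hlt (lt_irrefl _)

/-- Concatenation of two paths, along an edge or at a common end. -/
theorem join {A B C : Set W} {ρ : W → ℤ} {a p p' b : W} (hA : Pth H A ρ a p) (hB : Pth H B ρ p' b)
    (hC : ∀ x, x ∈ C ↔ x ∈ A ∨ x ∈ B) (hp : p = p' ∨ (ρ p < ρ p' ∧ H.Adj p p'))
    (hx : ∀ x ∈ A, ∀ y ∈ B, H.Adj x y → x ∈ B ∨ y ∈ A ∨ (x = p ∧ y = p')) : Pth H C ρ a b := by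
  have hle : ρ p ≤ ρ p' := by
    rcases hp with h | h
    · rw [h]
    · exact h.1.le
  have heq : ρ p = ρ p' → p = p' := by
    intro e
    rcases hp with h | h
    · exact h
    · omega
  have hCe : C = A ∪ B := Set.ext fun x => hC x
  subst hCe
  refine ⟨hA.fin.union hB.fin, Or.inl hA.ha, Or.inr hB.hb, ?_, ?_, ?_, ?_⟩
  · rintro u (hu | hu)
    · exact hA.lo u hu
    · have := hA.lo p hA.hb
      have := hB.lo u hu
      omega
  · rintro u (hu | hu)
    · have := hA.hi u hu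
      have := hB.hi p' hB.ha
      omega
    · exact hB.hi u hu
  · have key : ∀ u ∈ A, ∀ v ∈ B, ρ u = ρ v → u = v := by
      intro u hu v hv e
      have h1 := hA.hi u hu
      have h2 := hB.lo v hv
      have e1 : u = p := hA.inj u hu p hA.hb (by omega)
      have e2 : v = p' := hB.inj v hv p' hB.ha (by omega)
      rw [e1, e2]
      exact heq (by omega)
    rintro u (hu | hu) v (hv | hv) e
    · exact hA.inj u hu v hv e
    · exact key u hu v hv e
    · exact (key v hv u hu e.symm).symm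
    · exact hB.inj u hu v hv e
  · have kA : ∀ u ∈ A, ∀ v ∈ A, ρ u < ρ v →
        (H.Adj u v ↔ ∀ x ∈ A ∪ B, ρ x ≤ ρ u ∨ ρ v ≤ ρ x) := by
      intro u hu v hv hlt
      rw [hA.adj u hu v hv hlt]
      constructor
      · rintro hh x (hx | hx)
        · exact hh x hx
        · have := hA.hi v hv
          have := hB.lo x hx
          omega
      · exact fun hh x hx => hh x (Or.inl hx)
    have kB : ∀ u ∈ B, ∀ v ∈ B, ρ u < ρ v →
        (H.Adj u v ↔ ∀ x ∈ A ∪ B, ρ x ≤ ρ u ∨ ρ v ≤ ρ x) := by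
      intro u hu v hv hlt
      rw [hB.adj u hu v hv hlt]
      constructor
      · rintro hh x (hx | hx)
        · have := hA.hi x hx
          have := hB.lo u hu
          omega
        · exact hh x hx
      · exact fun hh x hx => hh x (Or.inr hx)
    intro u hu v hv hlt
    by_cases huA : u ∈ A
    · by_cases hvA : v ∈ A
      · exact kA u huA v hvA hlt
      · have hvB : v ∈ B := hv.resolve_left hvA
        by_cases huB : u ∈ B
        · exact kB u huB v hvB hlt
        · constructor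
          · intro hadj
            rcases hx u huA v hvB hadj with h | h | ⟨h1, h2⟩
            · exact absurd h huB
            · exact absurd h hvA
            · rintro x (hx | hx)
              · exact Or.inl (h1 ▸ hA.hi x hx)
              · exact Or.inr (h2 ▸ hB.lo x hx)
          · intro hh
            have h1 := hA.hi u huA
            have h2 := hB.lo v hvB
            have hne : p ≠ p' := by
              intro e
              rcases hh p (Or.inl hA.hb) with h | h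
              · exact huB (by rw [hA.inj u huA p hA.hb (by omega), e]; exact hB.ha)
              · exact hvA (by rw [hB.inj v hvB p' hB.ha (by omega), ← e]; exact hA.hb)
            obtain ⟨hlt', hadj⟩ := hp.resolve_left hne
            have e1 : u = p := hA.inj u huA p hA.hb (by
              rcases hh p (Or.inl hA.hb) with h | h <;> omega)
            have e2 : v = p' := hB.inj v hvB p' hB.ha (by
              rcases hh p' (Or.inr hB.ha) with h | h <;> omega)
            rw [e1, e2]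
            exact hadj
    · have huB : u ∈ B := hu.resolve_left huA
      by_cases hvB : v ∈ B
      · exact kB u huB v hvB hlt
      · have hvA : v ∈ A := hv.resolve_right hvB
        have := hA.hi v hvA
        have := hB.lo u huB
        omega

variable {d : DD W} {S : Set (Sym2 W)} {o : OD W}

theorem xz (h : Shp H d S o) {x : W} (hx : x ∈ o.X) : x ∉ o.Z :=
  fun hz => Set.disjoint_left.1 h.disc.dz hz (Or.inl hx)

theorem yz (h : Shp H d S o) {x : W} (hx : x ∈ o.Y) : x ∉ o.Z :=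
  fun hz => Set.disjoint_left.1 h.disc.dz hz (Or.inr hx)

theorem xy (h : Shp H d S o) {x : W} (hx : x ∈ o.X) : x ∉ o.Y :=
  fun hy => Set.disjoint_left.1 h.disc.dxy hx hy

/-- One step along the old second path out of a hidden vertex. -/
theorem stepY (hd : Disc H d) (h : Shp H d S o) {x y : W} (hx : x ∈ d.Y) (hz : x ∈ o.Z)
    (hy : y ∈ d.Y) (hadj : H.Adj x y) :
    (y ∈ o.Z ∧ o.ax y = o.ax x) ∨ (y ∈ o.Y ∧ o.ax x ∈ o.Y ∧ H.Adj y (o.ax x)) := by
  have hxd : x ∉ d.Z := fun hh => Set.disjoint_left.1 hd.dz hh (Or.inr hx)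
  have hyX : y ∉ o.X := fun hh => by
    rcases h.yy hy with h1 | h1
    · exact xy h hh h1
    · exact xz h hh h1
  rcases h.pk x hz hxd y hadj with h1 | h1 | h1 | ⟨h1, h2 | h2⟩
  · exact absurd (Or.inr hy) (Set.disjoint_left.1 hd.dz h1)
  · exact Or.inl h1
  · rcases h.ap x hz hxd with h2 | h2
    · exact absurd (h1 ▸ h2.1) hyX
    · exact absurd (h1 ▸ hy) h2.2
  · exact absurd h2.1 hyX
  · exact Or.inr ⟨h2.1, h2.2, h1⟩

theorem downY (hd : Disc H d) (h : Shp H d S o) : ∀ (n : ℕ) (x : W), x ∈ d.Y → x ∈ o.Z →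
    d.ρ x - d.ρ d.a' ≤ n →
    o.ax x ∈ o.Y ∧ ∃ s ∈ d.Y, s ∈ o.Y ∧ d.ρ s < d.ρ x ∧ H.Adj s (o.ax x) := by
  intro n
  induction n with
  | zero =>
    intro x hx hz hn
    have h1 := hd.py.lo x hx
    have e : x = d.a' := hd.py.inj x hx _ hd.py.ha (by push_cast at hn; omega)
    exact absurd hz (e ▸ yz h h.disc.py.ha)
  | succ n ih =>
    intro x hx hz hn
    have hne : x ≠ d.a' := fun e => absurd hz (e ▸ yz h h.disc.py.ha)
    have h1 := hd.py.lo x hx
    have hlt : d.ρ d.a' < d.ρ x :=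
      lt_of_le_of_ne h1 fun e => hne (hd.py.inj x hx _ hd.py.ha e.symm)
    obtain ⟨y, hy, hyx, hadj⟩ := pred hd.py hx hd.py.ha hlt
    rcases stepY hd h hx hz hy hadj.symm with ⟨h2, h3⟩ | ⟨h2, h3, h4⟩
    · obtain ⟨h5, s, hs, hs', hlt', hadj'⟩ := ih y hy h2 (by push_cast at hn; omega)
      rw [h3] at h5 hadj'
      exact ⟨h5, s, hs, hs', by omega, hadj'⟩
    · exact ⟨h3, y, hy, h2, hyx, h4⟩

theorem upY (hd : Disc H d) (h : Shp H d S o) : ∀ (n : ℕ) (x : W), x ∈ d.Y → x ∈ o.Z →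
    d.ρ d.b' - d.ρ x ≤ n →
    ∃ s ∈ d.Y, s ∈ o.Y ∧ d.ρ x < d.ρ s ∧ H.Adj s (o.ax x) := by
  intro n
  induction n with
  | zero =>
    intro x hx hz hn
    have h1 := hd.py.hi x hx
    have e : x = d.b' := hd.py.inj x hx _ hd.py.hb (by push_cast at hn; omega)
    exact absurd hz (e ▸ yz h h.disc.py.hb)
  | succ n ih =>
    intro x hx hz hn
    have hne : x ≠ d.b' := fun e => absurd hz (e ▸ yz h h.disc.py.hb)
    have h1 := hd.py.hi x hx
    have hlt : d.ρ x < d.ρ d.b' :=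
      lt_of_le_of_ne h1 fun e => hne (hd.py.inj x hx _ hd.py.hb e)
    obtain ⟨y, hy, hyx, hadj⟩ := succ hd.py hx hd.py.hb hlt
    rcases stepY hd h hx hz hy hadj with ⟨h2, h3⟩ | ⟨h2, _, h4⟩
    · obtain ⟨s, hs, hs', hlt', hadj'⟩ := ih y hy h2 (by push_cast at hn; omega)
      rw [h3] at hadj'
      exact ⟨s, hs, hs', by omega, hadj'⟩
    · exact ⟨y, hy, h2, hyx, h4⟩

/-- A hidden vertex of the second path lies under a new apex between two old vertices. -/
theorem hiddenY (hd : Disc H d) (h : Shp H d S o) {x : W} (hx : x ∈ d.Y) (hz : x ∈ o.Z) :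
    o.ax x ∈ o.Y ∧ o.ax x ∉ d.Y ∧ ∃ s ∈ o.Y, ∃ s' ∈ o.Y, o.ρ s < d.ρ x ∧ d.ρ x < o.ρ s' ∧
      H.Adj s (o.ax x) ∧ H.Adj (o.ax x) s' ∧ o.ρ s < o.ρ (o.ax x) ∧ o.ρ (o.ax x) < o.ρ s' := by
  obtain ⟨hy, s, hs, hso, hlt, hadj⟩ :=
    downY hd h (d.ρ x - d.ρ d.a').toNat x hx hz (Int.self_le_toNat _)
  obtain ⟨s', hs', hso', hlt', hadj'⟩ :=
    upY hd h (d.ρ d.b' - d.ρ x).toNat x hx hz (Int.self_le_toNat _)
  have hxd : x ∉ d.Z := fun hh => Set.disjoint_left.1 hd.dz hh (Or.inr hx)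
  have hnew : o.ax x ∉ d.Y := by
    rcases h.ap x hz hxd with h2 | h2
    · exact absurd hy (xy h h2.1)
    · exact h2.2
  have e1 := h.ry s hs hso
  have e2 := h.ry s' hs' hso'
  have py : Pth H o.Y o.ρ d.a' d.b' := h.disc.py
  have n1 : o.ρ s ≠ o.ρ (o.ax x) := fun e => hadj.ne (py.inj _ hso _ hy e)
  have n2 : o.ρ s' ≠ o.ρ (o.ax x) := fun e => hadj'.ne (py.inj _ hso' _ hy e)
  refine ⟨hy, hnew, s, hso, s', hso', by omega, by omega, hadj, hadj'.symm, ?_, ?_⟩
  · by_contra hc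
    have := gap py hy hso' (by omega) hadj'.symm hso
    omega
  · by_contra hc
    have := gap py hso hy (by omega) hadj hso'
    omega

theorem discSwap (hd : Disc H d) : Disc H d.swap where
  px := hd.py
  py := hd.px
  dxy := hd.dxy.symm
  ra := hd.ra.symm
  rb := hd.rb.symm
  zc := hd.zc
  dz := by
    have := hd.dz
    rw [Set.union_comm] at this
    exact this
  cl := by
    have := hd.cl
    rw [Set.union_comm d.X] at this
    exact this
  tz := by
    have := hd.tz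
    rw [Set.union_comm] at this
    exact this
  fin := by
    have := hd.fin
    rw [DD.I, Set.union_comm d.X] at this
    exact this
  nj := by
    have := hd.nj
    rw [DD.I, Set.union_comm d.X] at this
    exact this

theorem shpSwap (h : Shp H d S o) : Shp H d.swap S o.swap where
  disc := discSwap h.disc
  zz := h.zz
  xx := h.yy
  yy := h.xx
  rx := h.ry
  ry := h.rx
  nx := h.ny
  ny := h.nx
  ap v hv hv' := (h.ap v hv hv').symm
  pk v hv hv' z hz := by
    rcases h.pk v hv hv' z hz with h1 | h1 | h1 | ⟨h1, h2⟩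
    · exact Or.inl h1
    · exact Or.inr (Or.inl h1)
    · exact Or.inr (Or.inr (Or.inl h1))
    · exact Or.inr (Or.inr (Or.inr ⟨h1, h2.symm⟩))
  st := h.st

theorem hiddenX (hd : Disc H d) (h : Shp H d S o) {x : W} (hx : x ∈ d.X) (hz : x ∈ o.Z) :
    o.ax x ∈ o.X :=
  (hiddenY (discSwap hd) (shpSwap h) hx hz).1

end Pool.Agent.P.MP_08fd93_co.OV.P65
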